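import Mathlib

/-!
# Zero–one law for representative functions on a connected group, and its application to
common eigenvectors (task SKEW-NULL for `MP_8d8e6a_an`)
-/

open MeasureTheory Module

namespace Pool.Agent.Skew

section ZeroOne

variable {K : Type*} [Group K]

/-- Left translation of functions. -/
noncomputable def L (g : K) : (K → ℂ) ≃ₗ[ℂ] (K → ℂ) :=
  LinearEquiv.funCongrLeft ℂ ℂ (Equiv.mulLeft g)

lemma L_apply (g : K) (f : K → ℂ) (x : K) : L g f x = f (g * x) := rfl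

/-- Common zero set. -/
def Z (S : Submodule ℂ (K → ℂ)) : Set K := {x | ∀ f ∈ S, f x = 0}

lemma Z_map (S : Submodule ℂ (K → ℂ)) (g : K) :
    Z (S.map (L g : (K → ℂ) →ₗ[ℂ] (K → ℂ))) = (fun x => g * x) ⁻¹' Z S := by
  ext x
  simp only [Z, Set.mem_ofPred_eq, Set.mem_preimage, Submodule.mem_map]
  constructor
  · intro h f hf
    have := h (L g f) ⟨f, hf, rfl⟩
    rwa [L_apply] at this
  · rintro h f' ⟨f, hf, rfl⟩
    exact h f hf

omit [Group K] in
lemma Z_sup (S T : Submodule ℂ (K → ℂ)) : Z (S ⊔ T) = Z S ∩ Z T := by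
  ext x
  simp only [Z, Set.mem_ofPred_eq, Set.mem_inter_iff]
  constructor
  · intro h
    exact ⟨fun f hf => h f (Submodule.mem_sup_left hf), fun f hf => h f (Submodule.mem_sup_right hf)⟩
  · rintro ⟨h1, h2⟩ f hf
    obtain ⟨a, ha, b, hb, rfl⟩ := Submodule.mem_sup.1 hf
    simp [h1 a ha, h2 b hb]

variable [TopologicalSpace K]

omit [Group K] in
lemma isClosed_Z (S : Submodule ℂ (K → ℂ)) (hc : ∀ f ∈ S, Continuous f) : IsClosed (Z S) := by
  have : Z S = ⋂ f ∈ S, {x | f x = 0} := by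
    ext x; simp [Z]
  rw [this]
  exact isClosed_biInter fun f hf => isClosed_eq (hc f hf) continuous_const

variable [IsTopologicalGroup K] [PreconnectedSpace K] [MeasurableSpace K] [BorelSpace K]

theorem zero_one (κ : Measure K) [IsProbabilityMeasure κ] [κ.IsMulLeftInvariant]
    (W : Submodule ℂ (K → ℂ)) [FiniteDimensional ℂ W] (hc : ∀ f ∈ W, Continuous f)
    (hinv : ∀ g : K, ∀ f ∈ W, L g f ∈ W) (f : K → ℂ) (hf : f ∈ W) (hf0 : f ≠ 0) :
    κ {x | f x = 0} = 0 := by
  by_contra hpos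
  -- choose `S` of maximal dimension
  let N : Set ℕ := {n | ∃ S : Submodule ℂ (K → ℂ), S ≤ W ∧ κ (Z S) ≠ 0 ∧ finrank ℂ S = n}
  have hfd : ∀ S : Submodule ℂ (K → ℂ), S ≤ W → FiniteDimensional ℂ S := fun S hS =>
    Submodule.finiteDimensional_of_le hS
  have hbdd : BddAbove N := by
    refine ⟨finrank ℂ W, ?_⟩
    rintro n ⟨S, hS, -, rfl⟩
    exact Submodule.finrank_mono hS
  have hspan : (ℂ ∙ f) ≤ W := by
    rw [Submodule.span_singleton_le_iff_mem]; exact hf
  have hZspan : Z (ℂ ∙ f) = {x | f x = 0} := by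
    ext x
    simp only [Z, Set.mem_ofPred_eq]
    constructor
    · intro h; exact h f (Submodule.mem_span_singleton_self f)
    · intro h f' hf'
      obtain ⟨c, rfl⟩ := Submodule.mem_span_singleton.1 hf'
      simp [h]
  have h1N : 1 ∈ N := ⟨ℂ ∙ f, hspan, by rw [hZspan]; exact hpos, finrank_span_singleton hf0⟩
  have hsup : sSup N ∈ N := Nat.sSup_mem ⟨1, h1N⟩ hbdd
  obtain ⟨S, hSW, hSpos, hSr⟩ := hsup
  have hmax : ∀ T : Submodule ℂ (K → ℂ), T ≤ W → κ (Z T) ≠ 0 → finrank ℂ T ≤ finrank ℂ S := by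
    intro T hT hTpos
    rw [hSr]
    exact le_csSup hbdd ⟨T, hT, hTpos, rfl⟩
  have hS1 : 1 ≤ finrank ℂ S := by
    rw [hSr]; exact le_csSup hbdd h1N
  have := hfd S hSW
  -- translates
  let Sg : K → Submodule ℂ (K → ℂ) := fun g => S.map (L g : (K → ℂ) →ₗ[ℂ] (K → ℂ))
  have hSgW : ∀ g, Sg g ≤ W := by
    intro g
    rw [Submodule.map_le_iff_le_comap]
    intro f hf
    exact hinv g f (hSW hf)
  have hSgfd : ∀ g, FiniteDimensional ℂ (Sg g) := fun g => hfd _ (hSgW g)
  have hSgr : ∀ g, finrank ℂ (Sg g) = finrank ℂ S := by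
    intro g
    exact LinearEquiv.finrank_map_eq (L g) S
  have hSgZ : ∀ g, κ (Z (Sg g)) = κ (Z S) := by
    intro g
    show κ (Z (S.map (L g : (K → ℂ) →ₗ[ℂ] (K → ℂ)))) = κ (Z S)
    rw [Z_map, measure_preimage_mul]
  have hdisj : ∀ g h, Sg g ≠ Sg h → κ (Z (Sg g) ∩ Z (Sg h)) = 0 := by
    intro g h hne
    by_contra hp
    rw [← Z_sup] at hp
    have h1 := hmax (Sg g ⊔ Sg h) (sup_le (hSgW g) (hSgW h)) hp
    have : FiniteDimensional ℂ ↥(Sg g ⊔ Sg h) := hfd _ (sup_le (hSgW g) (hSgW h))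
    have h2 : Sg g = Sg g ⊔ Sg h :=
      Submodule.eq_of_le_of_finrank_le le_sup_left (by rw [hSgr]; exact h1)
    have h3 : Sg h = Sg g ⊔ Sg h :=
      Submodule.eq_of_le_of_finrank_le le_sup_right (by rw [hSgr]; exact h1)
    exact hne (h2.trans h3.symm)
  -- finitely many translates
  have hfin : (Set.range Sg).Finite := by
    have h := Measure.finite_const_le_meas_of_disjoint_iUnion₀ κ (pos_iff_ne_zero.2 hSpos)
      (As := fun i : Set.range Sg => Z (i : Submodule ℂ (K → ℂ)))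
      (by
        rintro ⟨_, g, rfl⟩
        exact (isClosed_Z _ fun f hf => hc f (hSgW g hf)).measurableSet.nullMeasurableSet)
      (by
        rintro ⟨_, g, rfl⟩ ⟨_, h, rfl⟩ hne
        exact hdisj g h (fun e => hne (Subtype.ext e)))
      (measure_ne_top κ _)
    have huniv : {i : Set.range Sg | κ (Z S) ≤ κ (Z (i : Submodule ℂ (K → ℂ)))} = Set.univ := by
      ext ⟨_, g, rfl⟩
      simp [hSgZ g]
    rw [huniv] at h
    have : Finite (Set.range Sg) := Set.finite_univ_iff.1 h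
    exact Set.toFinite _
  -- fibres are closed
  have hfib : ∀ T : Submodule ℂ (K → ℂ), FiniteDimensional ℂ T → finrank ℂ T = finrank ℂ S →
      IsClosed {g | Sg g = T} := by
    intro T hT hTr
    have hTc : IsClosed (T : Set (K → ℂ)) := Submodule.closed_of_finiteDimensional T
    have heq : {g | Sg g = T} = ⋂ f ∈ S, {g | L g f ∈ (T : Set (K → ℂ))} := by
      ext g
      simp only [Set.mem_ofPred_eq, Set.mem_iInter]
      constructor
      · rintro hg f hf
        rw [← hg]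
        exact ⟨f, hf, rfl⟩
      · intro h
        refine Submodule.eq_of_le_of_finrank_eq ?_ (by rw [hSgr, hTr])
        rw [Submodule.map_le_iff_le_comap]
        intro f hf
        exact h f hf
    rw [heq]
    refine isClosed_biInter fun f hf => hTc.preimage ?_
    refine continuous_pi fun x => ?_
    show Continuous fun g => L g f x
    simp only [L_apply]
    exact (hc f (hSW hf)).comp (continuous_id.mul continuous_const)
  have hS1' : Sg 1 = S := by
    ext f
    simp only [Sg, Submodule.mem_map]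
    constructor
    · rintro ⟨f', hf', rfl⟩
      have : ((L (1 : K) : (K → ℂ) →ₗ[ℂ] (K → ℂ)) f') = f' := by
        ext x; exact congrArg f' (one_mul x)
      rwa [this]
    · intro hf
      exact ⟨f, hf, by ext x; exact congrArg f (one_mul x)⟩
  have hclopen : IsClopen {g | Sg g = S} := by
    refine ⟨hfib S inferInstance rfl, ?_⟩
    have hcompl : {g | Sg g = S}ᶜ = ⋃ T ∈ (Set.range Sg \ {S}), {g | Sg g = T} := by
      ext g
      simp only [Set.mem_compl_iff, Set.mem_ofPred_eq, Set.mem_iUnion, Set.mem_sdiff,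
        Set.mem_range, Set.mem_singleton_iff, exists_prop]
      constructor
      · intro h; exact ⟨Sg g, ⟨⟨g, rfl⟩, h⟩, rfl⟩
      · rintro ⟨T, ⟨-, hT⟩, hgT⟩ hg
        exact hT (hgT ▸ hg)
    rw [← isClosed_compl_iff, hcompl]
    refine (hfin.subset Set.sdiff_subset).isClosed_biUnion ?_
    rintro T ⟨⟨g, rfl⟩, -⟩
    exact hfib _ (hSgfd g) (hSgr g)
  have hall : ∀ g, Sg g = S := by
    have := hclopen.eq_univ ⟨1, hS1'⟩
    intro g
    have hg : g ∈ {g | Sg g = S} := by rw [this]; trivial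
    exact hg
  -- conclusion
  have hne : (Z S).Nonempty := by
    by_contra h
    rw [Set.not_nonempty_iff_eq_empty] at h
    exact hSpos (by rw [h]; simp)
  obtain ⟨x, hx⟩ := hne
  have hbot : S = ⊥ := by
    rw [Submodule.eq_bot_iff]
    intro f hf
    ext y
    have h1 : L (y * x⁻¹) f ∈ S := by
      rw [← hall (y * x⁻¹)]
      exact ⟨f, hf, rfl⟩
    have h2 := hx _ h1
    rw [L_apply] at h2
    simpa using h2
  rw [hbot] at hS1
  simp at hS1

end ZeroOne

section Rep

variable {K : Type*} [Group K] [TopologicalSpace K]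

/-- Representative functions: members of a finite dimensional translation invariant space of
continuous functions. -/
def Rep (f : K → ℂ) : Prop :=
  ∃ W : Submodule ℂ (K → ℂ), FiniteDimensional ℂ W ∧ (∀ f ∈ W, Continuous f) ∧
    (∀ g : K, ∀ f ∈ W, L g f ∈ W) ∧ f ∈ W

lemma Rep.add {f₁ f₂ : K → ℂ} (h₁ : Rep f₁) (h₂ : Rep f₂) : Rep (f₁ + f₂) := by
  obtain ⟨W₁, i₁, c₁, v₁, m₁⟩ := h₁
  obtain ⟨W₂, i₂, c₂, v₂, m₂⟩ := h₂
  refine ⟨W₁ ⊔ W₂, inferInstance, ?_, ?_, Submodule.add_mem_sup m₁ m₂⟩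
  · intro f hf
    obtain ⟨a, ha, b, hb, rfl⟩ := Submodule.mem_sup.1 hf
    exact (c₁ a ha).add (c₂ b hb)
  · intro g f hf
    obtain ⟨a, ha, b, hb, rfl⟩ := Submodule.mem_sup.1 hf
    rw [map_add]
    exact Submodule.add_mem_sup (v₁ g a ha) (v₂ g b hb)

omit [TopologicalSpace K] in
lemma L_mul (g : K) (a b : K → ℂ) : L g (a * b) = L g a * L g b := rfl

lemma Rep.mul {f₁ f₂ : K → ℂ} (h₁ : Rep f₁) (h₂ : Rep f₂) : Rep (f₁ * f₂) := by
  obtain ⟨W₁, i₁, c₁, v₁, m₁⟩ := h₁
  obtain ⟨W₂, i₂, c₂, v₂, m₂⟩ := h₂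
  refine ⟨W₁ * W₂, ?_, ?_, ?_, Submodule.mul_mem_mul m₁ m₂⟩
  · rw [← Submodule.fg_iff_finiteDimensional] at i₁ i₂ ⊢
    exact i₁.mul i₂
  · intro f hf
    refine Submodule.mul_induction_on hf (fun a ha b hb => (c₁ a ha).mul (c₂ b hb))
      (fun x y hx hy => hx.add hy)
  · intro g f hf
    refine Submodule.mul_induction_on hf (fun a ha b hb => ?_) (fun x y hx hy => ?_)
    · rw [L_mul]
      exact Submodule.mul_mem_mul (v₁ g a ha) (v₂ g b hb)
    · rw [map_add]
      exact add_mem hx hy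

lemma Rep.const (c : ℂ) : Rep (fun _ : K => c) := by
  refine ⟨ℂ ∙ (1 : K → ℂ), inferInstance, ?_, ?_, Submodule.mem_span_singleton.2 ⟨c, ?_⟩⟩
  · intro f hf
    obtain ⟨c, rfl⟩ := Submodule.mem_span_singleton.1 hf
    exact (continuous_const : Continuous fun _ : K => c • (1 : ℂ))
  · intro g f hf
    obtain ⟨c, rfl⟩ := Submodule.mem_span_singleton.1 hf
    exact Submodule.mem_span_singleton.2 ⟨c, by ext x; simp [L_apply]⟩
  · ext x; simp

variable (K) in
/-- The algebra of representative functions. -/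
def RepAlg : Subalgebra ℂ (K → ℂ) where
  carrier := {f | Rep f}
  mul_mem' := Rep.mul
  add_mem' := Rep.add
  algebraMap_mem' := Rep.const

lemma mem_RepAlg {f : K → ℂ} : f ∈ RepAlg K ↔ Rep f := Iff.rfl

variable {n : Type*} [Fintype n] [DecidableEq n]

/-- Matrix-valued functions with representative entries. -/
def RepM (F : K → Matrix n n ℂ) : Prop := ∀ i j, (fun x => F x i j) ∈ RepAlg K

omit [Fintype n] [DecidableEq n] in
lemma RepM.const (M : Matrix n n ℂ) : RepM (fun _ : K => M) := fun _ _ => Rep.const _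

omit [Fintype n] [DecidableEq n] in
lemma RepM.sub {F G : K → Matrix n n ℂ} (hF : RepM F) (hG : RepM G) :
    RepM (fun x => F x - G x) := fun i j => sub_mem (hF i j) (hG i j)

omit [DecidableEq n] in
lemma RepM.mul {F G : K → Matrix n n ℂ} (hF : RepM F) (hG : RepM G) :
    RepM (fun x => F x * G x) := fun i j => by
  have : (fun x => (F x * G x) i j) = ∑ k, (fun x => F x i k) * (fun x => G x k j) := by
    ext x; simp [Matrix.mul_apply]
  rw [this]
  exact sum_mem fun k _ => mul_mem (hF i k) (hG k j)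

lemma RepM.pow {F : K → Matrix n n ℂ} (hF : RepM F) (k : ℕ) :
    RepM (fun x => F x ^ k) := by
  induction k with
  | zero => simpa using RepM.const (K := K) (1 : Matrix n n ℂ)
  | succ k ih => simpa [pow_succ] using ih.mul hF

omit [Fintype n] [DecidableEq n] in
lemma RepM.sum {ι : Type*} (s : Finset ι) {F : ι → K → Matrix n n ℂ} (hF : ∀ i ∈ s, RepM (F i)) :
    RepM (fun x => ∑ i ∈ s, F i x) := fun i j => by
  have : (fun x => (∑ k ∈ s, F k x) i j) = ∑ k ∈ s, (fun x => F k x i j) := by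
    ext x; simp [Matrix.sum_apply]
  rw [this]
  exact sum_mem fun k hk => hF k hk i j

lemma RepM.det {F : K → Matrix n n ℂ} (hF : RepM F) : Rep (fun x => (F x).det) := by
  rw [← mem_RepAlg]
  have : (fun x => (F x).det) = ∑ σ : Equiv.Perm n,
      ((Equiv.Perm.sign σ : ℤ) : ℂ) • ∏ i, (fun x => F x (σ i) i) := by
    ext x
    simp [Matrix.det_apply, Finset.sum_apply, Finset.prod_apply]
    refine Finset.sum_congr rfl fun σ _ => ?_
    rcases Int.units_eq_one_or (Equiv.Perm.sign σ) with h | h <;> simp [h]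
  rw [this]
  exact sum_mem fun σ _ => Subalgebra.smul_mem _ (prod_mem fun i _ => hF (σ i) i) _

omit [DecidableEq n] in
/-- Multiplicative continuous matrix-valued functions have representative entries. -/
lemma RepM.of_mul {F : K → Matrix n n ℂ} (hm : ∀ x y, F (x * y) = F x * F y) (hc : Continuous F) :
    RepM F := by
  have key : ∀ i j, Rep (fun x => F x i j) := by
    intro i j
    refine ⟨Submodule.span ℂ (Set.range fun p : n × n => fun x => F x p.1 p.2), ?_, ?_, ?_, ?_⟩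
    · exact FiniteDimensional.span_of_finite ℂ (Set.finite_range _)
    · intro f hf
      refine Submodule.span_induction (p := fun f _ => Continuous f) ?_ ?_ ?_ ?_ hf
      · rintro _ ⟨p, rfl⟩
        exact (continuous_apply_apply p.1 p.2).comp hc
      · exact continuous_const
      · intro x y _ _ hx hy; exact hx.add hy
      · intro c x _ hx; exact hx.const_smul c
    · intro g f hf
      refine Submodule.span_induction (p := fun f _ => L g f ∈ Submodule.span ℂ
        (Set.range fun p : n × n => fun x => F x p.1 p.2)) ?_ ?_ ?_ ?_ hf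
      · rintro _ ⟨p, rfl⟩
        have : L g (fun x => F x p.1 p.2) = ∑ k, (F g p.1 k) • (fun x => F x k p.2) := by
          ext x
          rw [L_apply, hm]
          simp [Matrix.mul_apply]
        rw [this]
        exact sum_mem fun k _ => Submodule.smul_mem _ _ (Submodule.subset_span ⟨(k, p.2), rfl⟩)
      · rw [map_zero]; exact zero_mem _
      · intro x y _ _ hx hy; rw [map_add]; exact add_mem hx hy
      · intro c x _ hx; rw [map_smul]; exact Submodule.smul_mem _ _ hx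
    · exact Submodule.subset_span ⟨(i, j), rfl⟩
  exact key

end Rep

section LinAlg

variable {V : Type*} [AddCommGroup V] [Module ℂ V] [FiniteDimensional ℂ V]

/-- Two endomorphisms without common eigenvector: the commutators of powers generate the unit
ideal. -/
theorem exists_comb (A B : V →ₗ[ℂ] V)
    (h : ¬ ∃ v : V, v ≠ 0 ∧ (∃ α : ℂ, A v = α • v) ∧ (∃ β : ℂ, B v = β • v)) :
    ∃ (N : ℕ) (D : Fin N → Fin N → (V →ₗ[ℂ] V)),
      ∑ k : Fin N, ∑ l : Fin N,
        D k l * (A ^ (k : ℕ) * B ^ (l : ℕ) - B ^ (l : ℕ) * A ^ (k : ℕ)) = 1 := by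
  let T : ℕ → ℕ → (V →ₗ[ℂ] V) := fun k l => A ^ k * B ^ l - B ^ l * A ^ k
  let KN : ℕ → Submodule ℂ V := fun N => ⨅ k : Fin N, ⨅ l : Fin N, LinearMap.ker (T k l)
  have hKN : ∀ N v, v ∈ KN N ↔ ∀ k l : Fin N, T k l v = 0 := by
    intro N v; simp [KN, Submodule.mem_iInf]
  have hmono : ∀ N M, N ≤ M → KN M ≤ KN N := by
    intro N M hNM v hv
    rw [hKN] at hv ⊢
    intro k l
    exact hv ⟨k, k.2.trans_le hNM⟩ ⟨l, l.2.trans_le hNM⟩
  obtain ⟨N, hN⟩ := IsArtinian.monotone_stabilizes (R := ℂ) (M := V)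
    ⟨fun N => OrderDual.toDual (KN N), fun N M hNM => hmono N M hNM⟩
  have hN' : ∀ M, N ≤ M → KN N = KN M := fun M hM => congrArg OrderDual.ofDual (hN M hM)
  -- membership in the limit
  have hlim : ∀ v ∈ KN N, ∀ k l : ℕ, T k l v = 0 := by
    intro v hv k l
    have h1 : v ∈ KN (N + k + l + 1) := by
      rw [← hN' _ (by omega)]; exact hv
    rw [hKN] at h1
    exact h1 ⟨k, by omega⟩ ⟨l, by omega⟩
  have hcomm : ∀ v ∈ KN N, ∀ k l : ℕ, (A ^ k) ((B ^ l) v) = (B ^ l) ((A ^ k) v) := by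
    intro v hv k l
    have := hlim v hv k l
    simpa [T, sub_eq_zero] using this
  have hAinv : ∀ v ∈ KN N, A v ∈ KN N := by
    intro v hv
    rw [hKN]
    intro k l
    have h1 := hcomm v hv 1 l
    have h2 := hcomm v hv (k + 1) l
    simp only [T, LinearMap.sub_apply, Module.End.mul_apply, sub_eq_zero]
    rw [pow_one] at h1
    rw [pow_succ] at h2
    simp only [Module.End.mul_apply] at h2
    rw [← h2, h1]
  have hBinv : ∀ v ∈ KN N, B v ∈ KN N := by
    intro v hv
    rw [hKN]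
    intro k l
    have h1 := hcomm v hv k 1
    have h2 := hcomm v hv k (l + 1)
    simp only [T, LinearMap.sub_apply, Module.End.mul_apply, sub_eq_zero]
    rw [pow_one] at h1
    rw [pow_succ] at h2
    simp only [Module.End.mul_apply] at h2
    rw [h2, h1]
  have hbot : KN N = ⊥ := by
    by_contra hne
    have hnt : Nontrivial (KN N) := Submodule.nontrivial_iff_ne_bot.2 hne
    obtain ⟨α, hα⟩ := Module.End.exists_eigenvalue (A.restrict hAinv)
    obtain ⟨v₀, hv₀⟩ := hα.exists_hasEigenvector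
    have hv₀1 : A v₀ = α • (v₀ : V) := by
      have := congrArg (Subtype.val) hv₀.apply_eq_smul
      simpa using this
    have hv₀2 : (v₀ : V) ≠ 0 := by
      intro h0
      exact hv₀.2 (Subtype.ext h0)
    let E : Submodule ℂ V := KN N ⊓ LinearMap.ker (A - α • LinearMap.id)
    have hE : ∀ v, v ∈ E ↔ v ∈ KN N ∧ A v = α • v := by
      intro v; simp [E, sub_eq_zero]
    have hBE : ∀ v ∈ E, B v ∈ E := by
      intro v hv
      rw [hE] at hv ⊢
      refine ⟨hBinv v hv.1, ?_⟩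
      have := hcomm v hv.1 1 1
      simp only [pow_one] at this
      rw [this, hv.2, map_smul]
    have hEnt : Nontrivial E := by
      refine Submodule.nontrivial_iff_ne_bot.2 ?_
      intro hE0
      have : (v₀ : V) ∈ E := (hE _).2 ⟨v₀.2, hv₀1⟩
      rw [hE0] at this
      exact hv₀2 (by simpa using this)
    obtain ⟨β, hβ⟩ := Module.End.exists_eigenvalue (B.restrict hBE)
    obtain ⟨w, hw⟩ := hβ.exists_hasEigenvector
    have hw1 : B w = β • (w : V) := by
      have := congrArg (Subtype.val) hw.apply_eq_smul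
      simpa using this
    have hw2 : (w : V) ≠ 0 := by
      intro h0
      exact hw.2 (Subtype.ext h0)
    exact h ⟨w, hw2, ⟨α, ((hE _).1 w.2).2⟩, ⟨β, hw1⟩⟩
  -- left inverse
  let Φ : V →ₗ[ℂ] (Fin N × Fin N → V) := LinearMap.pi fun p => T p.1 p.2
  have hΦ : LinearMap.ker Φ = ⊥ := by
    rw [Submodule.eq_bot_iff]
    intro v hv
    have hv' : v ∈ KN N := by
      rw [hKN]
      intro k l
      have := congrFun (LinearMap.mem_ker.1 hv) (k, l)
      simpa [Φ] using this
    rw [hbot] at hv'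
    simpa using hv'
  obtain ⟨Ψ, hΨ⟩ := LinearMap.exists_leftInverse_of_injective Φ hΦ
  refine ⟨N, fun k l => Ψ ∘ₗ LinearMap.single ℂ (fun _ => V) (k, l), ?_⟩
  ext v
  have h1 : Ψ (Φ v) = v := by
    have := LinearMap.congr_fun hΨ v
    simpa using this
  have h2 : Φ v = ∑ p : Fin N × Fin N, Pi.single p (T p.1 p.2 v) := by
    ext q
    simp [Φ, Finset.sum_apply, Pi.single_apply]
  rw [Module.End.one_apply]
  conv_rhs => rw [← h1, h2, map_sum, Fintype.sum_prod_type]
  simp [LinearMap.sum_apply, T]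

end LinAlg

section Final

open Matrix

/-- The zero-one law for common eigenvectors, matrix form. -/
theorem null_matrix {K : Type*} [Group K] [TopologicalSpace K] [IsTopologicalGroup K]
    [PreconnectedSpace K] [MeasurableSpace K] [BorelSpace K]
    (κ : Measure K) [IsProbabilityMeasure κ] [κ.IsMulLeftInvariant]
    {n : Type*} [Fintype n] [DecidableEq n] (φ ψ : K → Matrix n n ℂ)
    (hφ : ∀ x y, φ (x * y) = φ x * φ y) (hψ : ∀ x y, ψ (x * y) = ψ x * ψ y)
    (hφc : Continuous φ) (hψc : Continuous ψ) (x₀ : K)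
    (h₀ : ¬ ∃ v : n → ℂ, v ≠ 0 ∧ (∃ α : ℂ, φ x₀ *ᵥ v = α • v) ∧ (∃ β : ℂ, ψ x₀ *ᵥ v = β • v)) :
    κ {x | ∃ v : n → ℂ, v ≠ 0 ∧ (∃ α : ℂ, φ x *ᵥ v = α • v) ∧
      (∃ β : ℂ, ψ x *ᵥ v = β • v)} = 0 := by
  obtain ⟨N, D, hD⟩ := exists_comb (Matrix.toLin' (φ x₀)) (Matrix.toLin' (ψ x₀))
    (by simpa only [Matrix.toLin'_apply] using h₀)
  -- the function
  let F : K → Matrix n n ℂ := fun x => ∑ k : Fin N, ∑ l : Fin N,
    LinearMap.toMatrix' (D k l) *
      (φ x ^ (k : ℕ) * ψ x ^ (l : ℕ) - ψ x ^ (l : ℕ) * φ x ^ (k : ℕ))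
  have hφR : RepM φ := RepM.of_mul hφ hφc
  have hψR : RepM ψ := RepM.of_mul hψ hψc
  have hF : RepM F := RepM.sum _ fun k _ => RepM.sum _ fun l _ =>
    (RepM.const _).mul (((hφR.pow _).mul (hψR.pow _)).sub ((hψR.pow _).mul (hφR.pow _)))
  obtain ⟨W, hWfd, hWc, hWinv, hWf⟩ := hF.det
  have hF0 : F x₀ = 1 := by
    have := congrArg (LinearMap.toMatrixAlgEquiv' (R := ℂ) (n := n)) hD
    simp only [map_sum, map_mul, map_sub, map_pow, map_one] at this
    have h1 : ∀ M : Matrix n n ℂ, LinearMap.toMatrixAlgEquiv' (Matrix.toLin' M) = M := by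
      intro M
      exact LinearMap.toMatrix'_toLin' M
    simp only [h1] at this
    exact this
  have hfne : (fun x => (F x).det) ≠ 0 := by
    intro h
    have := congrFun h x₀
    simp [hF0] at this
  refine measure_mono_null ?_ (zero_one κ W hWc hWinv _ hWf hfne)
  rintro x ⟨v, hv, ⟨α, hα⟩, ⟨β, hβ⟩⟩
  show (F x).det = 0
  rw [← Matrix.exists_mulVec_eq_zero_iff]
  refine ⟨v, hv, ?_⟩
  have hpow : ∀ (M : Matrix n n ℂ) (γ : ℂ), M *ᵥ v = γ • v → ∀ k : ℕ, (M ^ k) *ᵥ v = γ ^ k • v := by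
    intro M γ hM k
    induction k with
    | zero => simp
    | succ k ih => rw [pow_succ, ← Matrix.mulVec_mulVec, hM, Matrix.mulVec_smul, ih, smul_smul,
        pow_succ, mul_comm]
  have hz : ∀ k l : ℕ, (φ x ^ k * ψ x ^ l - ψ x ^ l * φ x ^ k) *ᵥ v = 0 := by
    intro k l
    rw [Matrix.sub_mulVec, ← Matrix.mulVec_mulVec, ← Matrix.mulVec_mulVec, hpow _ _ hα,
      hpow _ _ hβ, Matrix.mulVec_smul, Matrix.mulVec_smul, hpow _ _ hα, hpow _ _ hβ, smul_comm,
      sub_self]
  simp only [F, Matrix.sum_mulVec, ← Matrix.mulVec_mulVec, hz, Matrix.mulVec_zero,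
    Finset.sum_const_zero]

/-- Task SKEW-NULL. -/
theorem null_common {G : Type*} [Group G] [TopologicalSpace G] [IsTopologicalGroup G]
    [CompactSpace G] [ConnectedSpace G] [T2Space G] [SecondCountableTopology G]
    [MeasurableSpace G] [BorelSpace G] (ν : Measure G) [ν.IsHaarMeasure] [IsProbabilityMeasure ν]
    {V : Type*} [NormedAddCommGroup V] [InnerProductSpace ℂ V] [FiniteDimensional ℂ V]
    (ρ : G →* (V →L[ℂ] V)) (hρ : Continuous ρ) (hu : ∀ g v, ‖ρ g v‖ = ‖v‖) (a₀ b₀ : G)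
    (h₀ : ¬ ∃ v : V, v ≠ 0 ∧ (∃ α : ℂ, ρ a₀ v = α • v) ∧ (∃ β : ℂ, ρ b₀ v = β • v)) :
    (ν.prod ν) {p : G × G | ∃ v : V, v ≠ 0 ∧ (∃ α : ℂ, ρ p.1 v = α • v) ∧
      (∃ β : ℂ, ρ p.2 v = β • v)} = 0 := by
  let b := Module.finBasis ℂ V
  let M : G → Matrix (Fin (finrank ℂ V)) (Fin (finrank ℂ V)) ℂ := fun g =>
    LinearMap.toMatrixAlgEquiv b (ρ g : V →ₗ[ℂ] V)
  have hM : ∀ x y, M (x * y) = M x * M y := by
    intro x y
    show LinearMap.toMatrixAlgEquiv b _ = LinearMap.toMatrixAlgEquiv b _ *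
      LinearMap.toMatrixAlgEquiv b _
    rw [← map_mul, map_mul ρ]
    rfl
  have hMc : Continuous M := by
    refine continuous_pi fun i => continuous_pi fun j => ?_
    have : (fun g => M g i j) = fun g => b.coord i (ρ g (b j)) := by
      ext g
      simp [M, LinearMap.toMatrixAlgEquiv_apply]
    rw [this]
    exact (LinearMap.continuous_of_finiteDimensional (b.coord i)).comp (hρ.clm_apply continuous_const)
  have hMv : ∀ g v, M g *ᵥ (b.repr v) = b.repr (ρ g v) := by
    intro g v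
    exact LinearMap.toMatrix_mulVec_repr b b (ρ g : V →ₗ[ℂ] V) v
  have hiff : ∀ g v (α : ℂ), M g *ᵥ (b.equivFun v) = α • b.equivFun v ↔ ρ g v = α • v := by
    intro g v α
    have : M g *ᵥ (b.equivFun v) = b.equivFun (ρ g v) := hMv g v
    rw [this, ← map_smul]
    exact b.equivFun.injective.eq_iff
  have hex : ∀ p : G × G, (∃ w : Fin (finrank ℂ V) → ℂ, w ≠ 0 ∧
      (∃ α : ℂ, M p.1 *ᵥ w = α • w) ∧ (∃ β : ℂ, M p.2 *ᵥ w = β • w)) ↔
      ∃ v : V, v ≠ 0 ∧ (∃ α : ℂ, ρ p.1 v = α • v) ∧ (∃ β : ℂ, ρ p.2 v = β • v) := by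
    intro p
    constructor
    · rintro ⟨w, hw, ⟨α, hα⟩, ⟨β, hβ⟩⟩
      obtain ⟨v, rfl⟩ := b.equivFun.surjective w
      exact ⟨v, fun h => hw (by simp [h]), ⟨α, (hiff _ _ _).1 hα⟩, ⟨β, (hiff _ _ _).1 hβ⟩⟩
    · rintro ⟨v, hv, ⟨α, hα⟩, ⟨β, hβ⟩⟩
      exact ⟨b.equivFun v, fun h => hv (by simpa using h), ⟨α, (hiff _ _ _).2 hα⟩,
        ⟨β, (hiff _ _ _).2 hβ⟩⟩
  have key := null_matrix (K := G × G) (ν.prod ν) (fun p => M p.1) (fun p => M p.2)
    (fun x y => hM _ _) (fun x y => hM _ _) (hMc.comp continuous_fst) (hMc.comp continuous_snd)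
    (a₀, b₀) (fun h => h₀ ((hex (a₀, b₀)).1 h))
  simpa only [hex] using key

end Final

end Pool.Agent.Skew
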