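import Pool.Agent.Helper16.BBLineB
import Pool.Agent.Helper16.BBProdDefs
import Pool.Agent.Helper69.BBTransfer
import Pool.Agent.Helper62.BBPsiA

/-!
Module TIMES for `MP_0b9e0b_ag`: zero-cycles on a product of two double covers of projective
spaces.
-/

set_option autoImplicit false
set_option linter.style.haveILetI false
set_option linter.unusedSectionVars false

namespace Pool.Agent.Helper61.BBTimes

open Pool.Agent.Helper16 Pool.Agent.Helper16.BB IntermediateField

section basic

variable {K : Type} [Field K]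

theorem rename_hom {ι : Type} [DecidableEq ι] {n : ι → ℕ} (j : ι) {d : ℕ}
    {Q : MvPolynomial (Fin (n j + 1)) K} (hQ : Q.IsHomogeneous d) :
    (MvPolynomial.rename (Sigma.mk j) Q : MvPolynomial (Base n) K).IsWeightedHomogeneous (wB n)
      (Pi.single j d) := by
  intro s hs
  obtain ⟨u, rfl, hu⟩ := MvPolynomial.coeff_rename_ne_zero _ _ _ hs
  have h1 := hQ hu
  change Finsupp.linearCombination ℕ (wB n) (Finsupp.mapDomain (Sigma.mk j) u) = _
  rw [Finsupp.linearCombination_mapDomain]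
  have h2 : (wB n ∘ Sigma.mk j) = fun _ : Fin (n j + 1) => (Pi.single j 1 : ι → ℕ) := rfl
  rw [h2, Finsupp.linearCombination_apply]
  rw [Finsupp.weight_apply] at h1
  simp only [Pi.one_apply, smul_eq_mul, mul_one] at h1
  rw [Finsupp.sum] at h1 ⊢
  rw [← Finset.sum_smul, h1]
  funext i
  by_cases hi : i = j
  · subst hi; simp
  · simp [Pi.single_eq_of_ne hi]

variable (n m : Fin 2 → ℕ) (P : (j : Fin 2) → MvPolynomial (Fin (n j + 1)) K)

theorem homX (hP : ∀ j, (P j).IsHomogeneous (2 * m j)) :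
    ∀ j, (prodP P j).IsWeightedHomogeneous (wB n) (2 • prodM m j) := by
  intro j
  have h1 := rename_hom (n := n) j (hP j)
  have h2 : (Pi.single j (2 * m j) : Fin 2 → ℕ) = 2 • prodM m j := by
    funext i
    by_cases hi : i = j
    · subst hi; simp [prodM]
    · simp [prodM, Pi.single_eq_of_ne hi]
  rw [h2] at h1
  exact h1

theorem hom1 (hP : ∀ j, (P j).IsHomogeneous (2 * m j)) (j : Fin 2) :
    ∀ _ : Unit, (MvPolynomial.rename (Sigma.mk ()) (P j) :
      MvPolynomial (Base fun _ : Unit => n j) K).IsWeightedHomogeneous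
        (wB fun _ : Unit => n j) (2 • (fun _ : Unit => m j)) := by
  intro _
  have h1 := rename_hom (n := fun _ : Unit => n j) () (hP j)
  have h2 : (Pi.single () (2 * m j) : Unit → ℕ) = 2 • (fun _ : Unit => m j) := by
    funext i
    simp
  rw [h2] at h1
  exact h1

end basic

section pts

variable {n : Fin 2 → ℕ} (j : Fin 2)

/-- The projection to the factor `j`. -/
def rs {A : Type} (z : Base n ⊕ Fin 2 → A) : Base (fun _ : Unit => n j) ⊕ Unit → A :=
  Sum.elim (fun b => z (Sum.inl ⟨j, b.2⟩)) (fun _ => z (Sum.inr j))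

/-- The point of the product with the given projection and constant other component. -/
def pair {A : Type} [Zero A] [One A] (u : Base (fun _ : Unit => n j) ⊕ Unit → A) (c : A) :
    Base n ⊕ Fin 2 → A :=
  Sum.elim (fun b => if h : b.1 = j then u (Sum.inl ⟨(), h ▸ b.2⟩) else if b.2.val = 0 then 1
    else 0) (fun j' => if j' = j then u (Sum.inr ()) else c)

theorem pair_inl_self {A : Type} [Zero A] [One A] (u : Base (fun _ : Unit => n j) ⊕ Unit → A)
    (c : A) (a : Fin (n j + 1)) : pair j u c (Sum.inl ⟨j, a⟩) = u (Sum.inl ⟨(), a⟩) := by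
  simp [pair]

theorem pair_inl_ne {A : Type} [Zero A] [One A] (u : Base (fun _ : Unit => n j) ⊕ Unit → A)
    (c : A) (i : Fin 2) (hi : i ≠ j) (a : Fin (n i + 1)) :
    pair j u c (Sum.inl ⟨i, a⟩) = if a.val = 0 then 1 else 0 := by
  simp [pair, hi]

theorem pair_inr_self {A : Type} [Zero A] [One A] (u : Base (fun _ : Unit => n j) ⊕ Unit → A)
    (c : A) : pair j u c (Sum.inr j) = u (Sum.inr ()) := by
  simp [pair]

theorem pair_inr_ne {A : Type} [Zero A] [One A] (u : Base (fun _ : Unit => n j) ⊕ Unit → A)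
    (c : A) (i : Fin 2) (hi : i ≠ j) : pair j u c (Sum.inr i) = c := by
  simp [pair, hi]

theorem rs_pair {A : Type} [Zero A] [One A] (u : Base (fun _ : Unit => n j) ⊕ Unit → A)
    (c : A) : rs j (pair j u c) = u := by
  funext x
  rcases x with ⟨⟨⟩, a⟩ | ⟨⟩
  · exact pair_inl_self j u c a
  · exact pair_inr_self j u c

theorem rs_map {A B : Type} (φ : A → B) (z : Base n ⊕ Fin 2 → A) :
    rs j (fun x => φ (z x)) = fun x => φ (rs j z x) := by
  funext x
  rcases x with x | x <;> rfl

theorem rs_scale {N : Type} [Field N] (m : Fin 2 → ℕ) (e : Fin 2 → N)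
    (z : Base n ⊕ Fin 2 → N) :
    rs j (scale (wC n (prodM m)) e z) =
      scale (wC (fun _ : Unit => n j) (fun _ _ => m j)) (fun _ => e j) (rs j z) := by
  funext x
  rcases x with ⟨⟨⟩, a⟩ | ⟨⟩
  · change (∏ i, e i ^ (Pi.single j 1 : Fin 2 → ℕ) i) * _ =
      (∏ i : Unit, e j ^ (Pi.single () 1 : Unit → ℕ) i) * _
    congr 1
    rw [Finset.prod_eq_single j]
    · simp
    · intro b _ hb
      rw [Pi.single_eq_of_ne hb, pow_zero]
    · simp
  · change (∏ i, e i ^ (Pi.single j (m j) : Fin 2 → ℕ) i) * _ =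
      (∏ i : Unit, e j ^ (m j)) * _
    congr 1
    rw [Finset.prod_eq_single j]
    · simp
    · intro b _ hb
      rw [Pi.single_eq_of_ne hb, pow_zero]
    · simp

end pts

section main

variable {K : Type} [Field K] {n m : Fin 2 → ℕ}
  {P : (j : Fin 2) → MvPolynomial (Fin (n j + 1)) K}
  (hP : ∀ j, (P j).IsHomogeneous (2 * m j))

include hP

theorem isPointX_iff {N : Type} [Field N] [Algebra K N] (z : Base n ⊕ Fin 2 → N) :
    IsPoint (wC n (prodM m)) (eqC (prodP P)) z ↔
      (∀ i, ∃ a : Fin (n i + 1), z (Sum.inl ⟨i, a⟩) ≠ 0) ∧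
      ∀ j, z (Sum.inr j) ^ 2 = MvPolynomial.aeval (fun a => z (Sum.inl ⟨j, a⟩)) (P j) := by
  rw [isPoint_iff (homX n m P hP)]
  constructor
  · rintro ⟨h1, h2⟩
    refine ⟨h1, fun j => ?_⟩
    rw [h2 j, prodP, MvPolynomial.aeval_rename]
    rfl
  · rintro ⟨h1, h2⟩
    refine ⟨h1, fun j => ?_⟩
    rw [h2 j, prodP, MvPolynomial.aeval_rename]
    rfl

theorem isPoint1_iff (j : Fin 2) {N : Type} [Field N] [Algebra K N]
    (z : Base (fun _ : Unit => n j) ⊕ Unit → N) :
    IsPoint (wC (fun _ : Unit => n j) (fun _ _ => m j))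
        (eqC fun _ : Unit => MvPolynomial.rename (Sigma.mk ()) (P j)) z ↔
      (∃ a : Fin (n j + 1), z (Sum.inl ⟨(), a⟩) ≠ 0) ∧
      z (Sum.inr ()) ^ 2 = MvPolynomial.aeval (fun a => z (Sum.inl ⟨(), a⟩)) (P j) := by
  rw [isPoint_iff (hom1 n m P hP j)]
  constructor
  · rintro ⟨h1, h2⟩
    refine ⟨h1 (), ?_⟩
    rw [h2 (), MvPolynomial.aeval_rename]
    rfl
  · rintro ⟨h1, h2⟩
    refine ⟨fun _ => h1, fun _ => ?_⟩
    rw [h2, MvPolynomial.aeval_rename]
    rfl

theorem isPoint_rs (j : Fin 2) {N : Type} [Field N] [Algebra K N] (z : Base n ⊕ Fin 2 → N)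
    (hz : IsPoint (wC n (prodM m)) (eqC (prodP P)) z) :
    IsPoint (wC (fun _ : Unit => n j) (fun _ _ => m j))
        (eqC fun _ : Unit => MvPolynomial.rename (Sigma.mk ()) (P j)) (rs j z) := by
  rw [isPointX_iff hP] at hz
  rw [isPoint1_iff hP]
  exact ⟨hz.1 j, hz.2 j⟩

/-- the value of the form `P i` at the constant point -/
noncomputable def d0 (P : (j : Fin 2) → MvPolynomial (Fin (n j + 1)) K) (i : Fin 2) : K :=
  MvPolynomial.aeval (fun a : Fin (n i + 1) => if a.val = 0 then (1 : K) else 0) (P i)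

theorem isPoint_pair (j i : Fin 2) (hij : i ≠ j) {N : Type} [Field N] [Algebra K N]
    (u : Base (fun _ : Unit => n j) ⊕ Unit → N)
    (hu : IsPoint (wC (fun _ : Unit => n j) (fun _ _ => m j))
        (eqC fun _ : Unit => MvPolynomial.rename (Sigma.mk ()) (P j)) u)
    (c : N) (hc : c ^ 2 = algebraMap K N (d0 P i)) :
    IsPoint (wC n (prodM m)) (eqC (prodP P)) (pair j u c) := by
  rw [isPoint1_iff hP] at hu
  rw [isPointX_iff hP]
  have hcase : ∀ j' : Fin 2, j' = j ∨ j' = i := by
    intro j'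
    omega
  constructor
  · intro j'
    rcases hcase j' with rfl | rfl
    · obtain ⟨a, ha⟩ := hu.1
      exact ⟨a, by rw [pair_inl_self]; exact ha⟩
    · refine ⟨0, ?_⟩
      rw [pair_inl_ne _ _ _ _ hij]
      simp
  · intro j'
    rcases hcase j' with rfl | rfl
    · rw [pair_inr_self, hu.2]
      congr 2
      funext a
      rw [pair_inl_self]
    · rw [pair_inr_ne _ _ _ _ hij, hc, d0]
      have h1 := MvPolynomial.comp_aeval_apply
        (f := fun a : Fin (n j' + 1) => if a.val = 0 then (1 : K) else 0)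
        (Algebra.ofId K N) (P j')
      have h2 : algebraMap K N (MvPolynomial.aeval
          (fun a : Fin (n j' + 1) => if a.val = 0 then (1 : K) else 0) (P j')) =
          MvPolynomial.aeval (fun a : Fin (n j' + 1) => Algebra.ofId K N
            (if a.val = 0 then (1 : K) else 0)) (P j') := h1
      rw [h2]
      congr 2
      funext a
      rw [pair_inl_ne _ _ _ _ hij]
      split_ifs <;> simp

end main

section sym

variable {K ι J : Type} [Field K] [Fintype ι] [DecidableEq ι] [Fintype J]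
variable {n : ι → ℕ} {m : J → ι → ℕ} {P : J → MvPolynomial (Base n) K}

theorem flip_scale {N : Type} [Field N] (ε : J → Bool) (e : ι → N) (z : Base n ⊕ J → N) :
    BB.flip ε (scale (wC n m) e z) = scale (wC n m) e (BB.flip ε z) := by
  funext x
  rcases x with b | j
  · rfl
  · simp only [BB.flip, Sum.elim_inr, scale]
    split_ifs
    · rw [mul_neg]
    · rfl

theorem sym_scale (hP : ∀ j, (P j).IsWeightedHomogeneous (wB n) (2 • m j)) (i : ι)
    (e : ι → AlgebraicClosure K) (he : ∀ i, e i ≠ 0) (z : Base n ⊕ J → AlgebraicClosure K)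
    (hz : IsPoint (wC n m) (eqC P) z) :
    symCls m P i (scale (wC n m) e z) = symCls m P i z := by
  unfold symCls
  refine Finset.sum_congr rfl fun ε _ => ?_
  rw [flip_scale]
  exact cls_scale e he _ (flip_isPoint hP ε z hz)

theorem sym_conj (hP : ∀ j, (P j).IsWeightedHomogeneous (wB n) (2 • m j)) (i : ι)
    (τ : AlgebraicClosure K ≃ₐ[K] AlgebraicClosure K) (z : Base n ⊕ J → AlgebraicClosure K)
    (hz : IsPoint (wC n m) (eqC P) z) :
    symCls m P i (fun x => τ (z x)) = symCls m P i z := by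
  unfold symCls
  refine Finset.sum_congr rfl fun ε _ => ?_
  have h1 : BB.flip ε (fun x => τ (z x)) = fun x => τ (BB.flip ε z x) := by
    funext x
    rcases x with b | j
    · rfl
    · simp only [BB.flip, Sum.elim_inr]
      split_ifs
      · rw [map_neg]
      · rfl
  rw [h1]
  exact cls_conj τ _ (flip_isPoint hP ε z hz)

end sym

section main2

variable {K : Type} [Field K] {n m : Fin 2 → ℕ}
  {P : (j : Fin 2) → MvPolynomial (Fin (n j + 1)) K} (hm : ∀ j, 1 ≤ m j)
  (hP : ∀ j, (P j).IsHomogeneous (2 * m j)) (j i : Fin 2) (hij : i ≠ j)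
  (c₀ : AlgebraicClosure K) (hc₀ : c₀ ^ 2 = algebraMap K (AlgebraicClosure K) (d0 P i))

include hm hP hij hc₀

theorem sym_eq (z : Base n ⊕ Fin 2 → AlgebraicClosure K)
    (hz : IsPoint (wC n (prodM m)) (eqC (prodP P)) z) :
    symCls (prodM m) (prodP P) i z = symCls (prodM m) (prodP P) i (pair j (rs j z) c₀) := by
  have hcase : ∀ j' : Fin 2, j' ≠ i → j' = j := by
    intro j'
    omega
  refine symCls_eq_of_line (homX n m P hP) i z _ hz
    (isPoint_pair hP j i hij _ (isPoint_rs hP j z hz) c₀ hc₀) ?_ ?_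
  · rintro ⟨j', a⟩ hj'
    have hj : j' = j := hcase j' hj'
    subst hj
    rw [pair_inl_self]
    rfl
  · intro j' hj'
    have hne : j' ≠ i := by
      rintro rfl
      have h1 := hm j'
      simp only [prodM, Pi.single_eq_same] at hj'
      omega
    have hj : j' = j := hcase j' hne
    subst hj
    rw [pair_inr_self]
    rfl

/-- the value -/
noncomputable def g (P : (j : Fin 2) → MvPolynomial (Fin (n j + 1)) K) (m : Fin 2 → ℕ)
    (j i : Fin 2) (c₀ : AlgebraicClosure K)
    (u : Base (fun _ : Unit => n j) ⊕ Unit → AlgebraicClosure K) :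
    Quo (wC n (prodM m)) (eqC (prodP P)) :=
  symCls (prodM m) (prodP P) i (pair j u c₀)

theorem g_scale (c : Unit → AlgebraicClosure K)
    (u : Base (fun _ : Unit => n j) ⊕ Unit → AlgebraicClosure K) (hc : ∀ i, c i ≠ 0)
    (hu : IsPoint (wC (fun _ : Unit => n j) (fun _ _ => m j))
        (eqC fun _ : Unit => MvPolynomial.rename (Sigma.mk ()) (P j)) u) :
    g P m j i c₀ (scale (wC (fun _ : Unit => n j) (fun _ _ => m j)) c u) = g P m j i c₀ u := by
  have hpt := isPoint_pair hP j i hij u hu c₀ hc₀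
  have h1 := rs_scale j m (fun _ => c ()) (pair j u c₀)
  rw [rs_pair] at h1
  have hsc : IsPoint (wC n (prodM m)) (eqC (prodP P))
      (scale (wC n (prodM m)) (fun _ => c ()) (pair j u c₀)) := by
    refine ⟨fun i => ?_, fun Q hQ => ?_⟩
    · obtain ⟨x, h1, h2⟩ := hpt.1 i
      exact ⟨x, h1, scale_ne_zero _ (fun _ => c ()) (fun _ => hc ()) _ x h2⟩
    · obtain ⟨d, hd⟩ := eqC_hom (homX n m P hP) Q hQ
      rw [aeval_scale hd, hpt.2 Q hQ, mul_zero]
  have h2 := sym_eq hm hP j i hij c₀ hc₀ _ hsc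
  rw [h1, sym_scale (homX n m P hP) i _ (fun _ => hc ()) _ hpt] at h2
  exact h2.symm

theorem g_conj (τ : AlgebraicClosure K ≃ₐ[K] AlgebraicClosure K)
    (u : Base (fun _ : Unit => n j) ⊕ Unit → AlgebraicClosure K)
    (hu : IsPoint (wC (fun _ : Unit => n j) (fun _ _ => m j))
        (eqC fun _ : Unit => MvPolynomial.rename (Sigma.mk ()) (P j)) u) :
    g P m j i c₀ (fun x => τ (u x)) = g P m j i c₀ u := by
  have hpt := isPoint_pair hP j i hij u hu c₀ hc₀
  have hpt' : IsPoint (wC n (prodM m)) (eqC (prodP P)) (fun x => τ (pair j u c₀ x)) :=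
    isPoint_map τ.toAlgHom _ hpt
  have h2 := sym_eq hm hP j i hij c₀ hc₀ _ hpt'
  rw [sym_conj (homX n m P hP) i τ _ hpt, rs_map, rs_pair] at h2
  exact h2.symm

/-- `g` is constant on the specialisations of a point at a place. -/
theorem g_isSp_eq {N : Type} [Field N] [Algebra K N] (hN : IsFunctionField K N)
    (v : Place K N) (x : Base (fun _ : Unit => n j) ⊕ Unit → N)
    (y y' : Base (fun _ : Unit => n j) ⊕ Unit → AlgebraicClosure K)
    (hy : IsSp (wC (fun _ : Unit => n j) (fun _ _ => m j))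
        (eqC fun _ : Unit => MvPolynomial.rename (Sigma.mk ()) (P j)) v x y)
    (hy' : IsSp (wC (fun _ : Unit => n j) (fun _ _ => m j))
        (eqC fun _ : Unit => MvPolynomial.rename (Sigma.mk ()) (P j)) v x y') :
    g P m j i c₀ y' = g P m j i c₀ y := by
  obtain ⟨τ, c, hc, rfl⟩ := Pool.Agent.Helper62.BBPsi.isSp_rel hN v x y y' hy hy'
  have hpt : IsPoint (wC (fun _ : Unit => n j) (fun _ _ => m j))
        (eqC fun _ : Unit => MvPolynomial.rename (Sigma.mk ()) (P j)) (fun b => τ (y b)) :=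
    isPoint_map τ.toAlgHom y hy.1
  rw [g_scale hm hP j i hij c₀ hc₀ c _ hc hpt]
  exact g_conj hm hP j i hij c₀ hc₀ τ y hy.1

omit hm hij hc₀ in
/-- Specialisation above and below. -/
theorem sp_down {N N' : Type} [Field N] [Field N'] [Algebra K N] [Algebra N N']
    [Algebra K N'] [IsScalarTower K N N'] (hN' : IsFunctionField K N')
    (v' : Place K N') (v : Place K N)
    (hv : ∀ a : N, v'.val (algebraMap N N' a) ≤ 1 ↔ v.val a ≤ 1)
    (x : Base (fun _ : Unit => n j) ⊕ Unit → N) (z : Base n ⊕ Fin 2 → N')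
    (hz : IsPoint (wC n (prodM m)) (eqC (prodP P)) z)
    (hxz : ∀ a, algebraMap N N' (x a) = rs j z a) :
    ∃ u, IsSp (wC n (prodM m)) (eqC (prodP P)) v' z u ∧
      IsSp (wC (fun _ : Unit => n j) (fun _ _ => m j))
        (eqC fun _ : Unit => MvPolynomial.rename (Sigma.mk ()) (P j)) v x (rs j u) := by
  obtain ⟨a, h1, h2, h3⟩ := exists_prim_scale (homX n m P hP) v' z hz
  set c' : Fin 2 → N' := fun i => (z (Sum.inl ⟨i, a i⟩))⁻¹ with hc'
  have hc'0 : ∀ i, c' i ≠ 0 := fun i => inv_ne_zero (h1 i)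
  haveI := v'.finite_resField hN'
  let φ : v'.resField →ₐ[K] AlgebraicClosure K := IsAlgClosed.lift
  set u : Base n ⊕ Fin 2 → AlgebraicClosure K :=
    fun x => φ (v'.res (scale (wC n (prodM m)) c' z x)) with hu
  have hsp : IsSp (wC n (prodM m)) (eqC (prodP P)) v' z u :=
    isSp_of_prim (eqC_hom (homX n m P hP)) v' z hz c' hc'0 h2
      (fun i => ⟨Sum.inl ⟨i, a i⟩, rfl, h3 i⟩) φ
  refine ⟨u, hsp, ?_⟩
  have hv1 : ∀ b : N, v.val b ≤ 1 ↔ v'.val (algebraMap N N' b) ≤ 1 := fun b => (hv b).symm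
  have hv2 : ∀ b : N, v.val b < 1 ↔ v'.val (algebraMap N N' b) < 1 := by
    intro b
    by_cases hb : b = 0
    · subst hb; simp
    have hb' : algebraMap N N' b ≠ 0 := by simpa using hb
    have h4 := hv1 b⁻¹
    rw [map_inv₀, map_inv₀, map_inv₀, inv_le_one₀ (zero_lt_iff.2 (by simpa using hb)),
      inv_le_one₀ (zero_lt_iff.2 (by simpa using hb'))] at h4
    rw [← not_le, ← not_le, h4]
  obtain ⟨ρ, hρ1, hρ2⟩ := Place.exists_residue_hom (k := K) (K := K) (L := N) (N := N') v' v hv1 hv2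
  let ψ : v.resField →ₐ[K] AlgebraicClosure K :=
    { toRingHom := (φ : v'.resField →+* AlgebraicClosure K).comp ρ
      commutes' := by
        intro r
        change φ (ρ (algebraMap K v.resField r)) = _
        rw [hρ2]
        change φ (algebraMap K v'.resField r) = _
        rw [AlgHom.commutes] }
  have hψ : ∀ b : N, v.val b ≤ 1 → ψ (v.res b) = φ (v'.res (algebraMap N N' b)) := by
    intro b hb
    change φ (ρ (v.res b)) = _
    rw [hρ1 b hb]
  set c : Unit → N := fun _ => (x (Sum.inl ⟨(), a j⟩))⁻¹ with hc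
  have hcc' : ∀ t, algebraMap N N' (c t) = c' j := by
    intro t
    rw [hc, hc', map_inv₀, hxz]
    rfl
  have hsc : ∀ b, algebraMap N N' (scale (wC (fun _ : Unit => n j) (fun _ _ => m j)) c x b) =
      rs j (scale (wC n (prodM m)) c' z) b := by
    intro b
    have h4 := congrFun (scale_map (algebraMap N N')
      (wC (fun _ : Unit => n j) (fun _ _ => m j)) c x) b
    have h5 : (fun i => algebraMap N N' (c i)) = fun _ => c' j := funext hcc'
    have h6 : (fun b => algebraMap N N' (x b)) = rs j z := funext hxz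
    rw [h5, h6, ← rs_scale] at h4
    exact h4
  have hmem : ∀ b, v'.val (rs j (scale (wC n (prodM m)) c' z) b) ≤ 1 := by
    intro b
    rcases b with b | b
    · exact h2 _
    · exact h2 _
  refine ⟨isPoint_rs hP j u hsp.1, ψ, c, ?_, ?_, ?_⟩
  · intro t h0
    apply hc'0 j
    rw [← hcc' t, h0, map_zero]
  · intro b
    rw [Place.mem_ring, hv1, hsc]
    exact hmem b
  · intro b
    rw [hψ _ (by rw [hv1, hsc]; exact hmem b), hsc]
    rcases b with b | b
    · rfl
    · rfl

/-- The relation attached to a rational function on a curve is respected. -/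
theorem g_rel {N : Type} [Field N] [Algebra K N] (hN : IsFunctionField K N)
    (x : Base (fun _ : Unit => n j) ⊕ Unit → N)
    (hx : IsPoint (wC (fun _ : Unit => n j) (fun _ _ => m j))
        (eqC fun _ : Unit => MvPolynomial.rename (Sigma.mk ()) (P j)) x) (f : N)
    (hf : f ≠ 0) (S : Finset (Place K N)) (hS : ∀ v, v ∈ S ↔ v.ord f ≠ 0)
    (y : Place K N → Base (fun _ : Unit => n j) ⊕ Unit → AlgebraicClosure K)
    (hy : ∀ v ∈ S, IsSp (wC (fun _ : Unit => n j) (fun _ _ => m j))
        (eqC fun _ : Unit => MvPolynomial.rename (Sigma.mk ()) (P j)) v x (y v)) :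
    ∑ v ∈ S, ((v.ord f * (v.deg : ℤ) : ℤ) : ℚ) • g P m j i c₀ (y v) = 0 := by
  classical
  obtain ⟨c, hc⟩ := IsAlgClosed.exists_pow_nat_eq
    (algebraMap K (AlgebraicClosure N) (d0 P i)) (n := 2) two_pos
  let N' : IntermediateField N (AlgebraicClosure N) := IntermediateField.adjoin N {c}
  haveI : FiniteDimensional N N' := by
    apply IntermediateField.finiteDimensional_adjoin
    intro c _
    exact Algebra.IsIntegral.isIntegral c
  have hN' : IsFunctionField K N' := IsFunctionField.of_finite (K := N) hN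
  have hc' : c ∈ N' := IntermediateField.subset_adjoin N _ (by simp)
  set x' : Base (fun _ : Unit => n j) ⊕ Unit → N' := fun a => algebraMap N N' (x a) with hx'
  have hx'pt : IsPoint (wC (fun _ : Unit => n j) (fun _ _ => m j))
        (eqC fun _ : Unit => MvPolynomial.rename (Sigma.mk ()) (P j)) x' :=
    isPoint_map (IsScalarTower.toAlgHom K N N') x hx
  have hcN : (⟨c, hc'⟩ : N') ^ 2 = algebraMap K N' (d0 P i) := by
    apply Subtype.ext
    change c ^ 2 = _
    rw [hc]
    exact IsScalarTower.algebraMap_apply K N (AlgebraicClosure N) _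
  set z : Base n ⊕ Fin 2 → N' := pair j x' ⟨c, hc'⟩ with hzdef
  have hz : IsPoint (wC n (prodM m)) (eqC (prodP P)) z := isPoint_pair hP j i hij x' hx'pt _ hcN
  have hxz : ∀ a, algebraMap N N' (x a) = rs j z a := by
    intro a
    rw [hzdef, rs_pair]
  choose yp hyp using fun v : Place K N' => exists_isSp (homX n m P hP) hN' v z hz
  choose y0 hy0 using fun v : Place K N => exists_isSp (hom1 n m P hP j) hN v x hx
  obtain ⟨S', hS', -⟩ := hN'.product_formula (algebraMap N N' f)
  have hf' : algebraMap N N' f ≠ 0 := by simpa using hf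
  obtain ⟨Φ, hΦ⟩ := exists_symMap (m := prodM m) (homX n m P hP) i
  have key := Pool.Agent.Helper69.BBTransfer.transfer_sum hN hN' f hf S hS S' hS'
    (fun v => g P m j i c₀ (y0 v)) (fun v => symCls (prodM m) (prodP P) i (yp v))
    (fun v' v hv => by
      obtain ⟨u, hu1, hu2⟩ := sp_down hP j hN' v' v hv x z hz hxz
      rw [← hΦ, cls_isSp_eq hN' v' z (yp v') u (hyp v') hu1, hΦ,
        sym_eq hm hP j i hij c₀ hc₀ u hu1.1,
        g_isSp_eq hm hP j i hij c₀ hc₀ hN v x (rs j u) (y0 v) hu2 (hy0 v)]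
      rfl)
  have e1 := congrArg Φ (cls_rel hN' z hz (algebraMap N N' f) hf' S' hS' yp (fun v _ => hyp v))
  rw [map_sum, map_zero] at e1
  simp only [map_smul, hΦ] at e1
  rw [e1] at key
  have hfin : (Module.finrank N N' : ℚ) ≠ 0 := by
    have : 0 < Module.finrank N N' := Module.finrank_pos
    exact_mod_cast this.ne'
  have e3 := (smul_eq_zero.1 key.symm).resolve_left hfin
  rw [← e3]
  refine Finset.sum_congr rfl fun v hv => ?_
  rw [g_isSp_eq hm hP j i hij c₀ hc₀ hN v x (y0 v) (y v) (hy0 v) (hy v hv)]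

end main2

/-- The map `z ↦ z × (fibre class)` from zero-cycles on a factor to zero-cycles on the
product of two double covers. -/
theorem exists_times {K : Type} [Field K] (n m : Fin 2 → ℕ) (hm : ∀ j, 1 ≤ m j)
    (P : (j : Fin 2) → MvPolynomial (Fin (n j + 1)) K) (hP : ∀ j, (P j).IsHomogeneous (2 * m j))
    (j i : Fin 2) (hij : i ≠ j) :
    ∃ α : Quo (wC (fun _ : Unit => n j) (fun _ _ => m j))
        (eqC fun _ : Unit => MvPolynomial.rename (Sigma.mk ()) (P j)) →ₗ[ℚ]
      Quo (wC n (prodM m)) (eqC (prodP P)),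
      ∀ z : Base n ⊕ Fin 2 → AlgebraicClosure K, IsPoint (wC n (prodM m)) (eqC (prodP P)) z →
      α (cls _ _ (Sum.elim (fun b => z (Sum.inl ⟨j, b.2⟩)) (fun _ => z (Sum.inr j)))) =
        symCls (prodM m) (prodP P) i z := by
  obtain ⟨c₀, hc₀⟩ := IsAlgClosed.exists_pow_nat_eq
    (algebraMap K (AlgebraicClosure K) (d0 P i)) (n := 2) two_pos
  obtain ⟨α, hα⟩ := exists_lift (wC (fun _ : Unit => n j) (fun _ _ => m j))
    (eqC fun _ : Unit => MvPolynomial.rename (Sigma.mk ()) (P j)) (g P m j i c₀)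
    (fun c u hc hu => g_scale hm hP j i hij c₀ hc₀ c u hc hu)
    (fun τ u hu => g_conj hm hP j i hij c₀ hc₀ τ u hu)
    (fun N _ _ x f S y hN hx hf hS hy => g_rel hm hP j i hij c₀ hc₀ hN x hx f hf S hS y hy)
  refine ⟨α, fun z hz => ?_⟩
  rw [hα, sym_eq hm hP j i hij c₀ hc₀ z hz]
  rfl

end Pool.Agent.Helper61.BBTimes
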