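import Pool.Agent.Helper16.FF10
import Pool.Agent.Helper16.TW2
import Pool.Agent.Helper16.BBGermDefs

/-!
Module GERM-A for MP_0b9e0b_ag: lifting of roots, existence of germs, places from germs.
-/

set_option autoImplicit false
set_option linter.style.haveILetI false

namespace Pool.Agent.Helper61.BBGermA

open Polynomial Pool.Agent.Helper16

/-! ### Lifting roots -/

theorem reflect_one_X_sub_C {R : Type} [CommRing R] (u : R) :
    reflect 1 (X - C u : R[X]) = 1 - C u * X := by
  have h1 : (X : R[X]) = C 1 * X ^ 1 := by simp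
  have h2 : (C u : R[X]) = C u * X ^ 0 := by simp
  rw [reflect_sub]
  conv_lhs => rw [h1, h2]
  rw [reflect_C_mul_X_pow, reflect_C_mul_X_pow, revAt_le (le_refl 1), revAt_le (Nat.zero_le 1)]
  simp

theorem root_lift_aux {Om κ : Type} [Field Om] [IsAlgClosed Om] [Field κ] (O : ValuationSubring Om)
    (red : O →+* κ) (hred : ∀ x : O, red x = 0 ↔ x ∈ IsLocalRing.maximalIdeal O) (n : ℕ) :
    ∀ q : Polynomial O, q.natDegree ≤ n → q.map red ≠ 0 → ∀ r : κ, (q.map red).eval r = 0 →
      ∃ x : O, q.eval x = 0 ∧ red x = r := by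
  induction n with
  | zero =>
    intro q hn hq r hr
    exfalso
    rw [Nat.le_zero] at hn
    rw [eq_C_of_natDegree_eq_zero hn] at hq hr
    simp only [map_C, eval_C] at hr
    apply hq
    simp only [map_C, hr, C_0]
  | succ n ih =>
    intro q hn hq r hr
    by_cases hd : q.natDegree = 0
    · exact ih q (by omega) hq r hr
    have hinj : Function.Injective (algebraMap O Om) := Subtype.val_injective
    have hdeg : (q.map (algebraMap O Om)).degree ≠ 0 := by
      rw [degree_map_eq_of_injective hinj]
      intro h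
      exact hd (natDegree_eq_of_degree_eq_some h)
    obtain ⟨w, hw⟩ := IsAlgClosed.exists_root _ hdeg
    rw [IsRoot.def, eval_map] at hw
    by_cases hwO : w ∈ O
    · -- a root in `O`
      have h1 : q.IsRoot (⟨w, hwO⟩ : O) := by
        rw [IsRoot.def]
        apply hinj
        rw [map_zero, ← hw]
        exact (eval₂_at_apply (algebraMap O Om) (⟨w, hwO⟩ : O)).symm
      obtain ⟨s, hs⟩ := dvd_iff_isRoot.2 h1
      have hs0 : s.map red ≠ 0 := by
        intro h
        apply hq
        rw [hs, Polynomial.map_mul, h, mul_zero]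
      rw [hs, Polynomial.map_mul, eval_mul, mul_eq_zero] at hr
      rcases hr with hr | hr
      · refine ⟨⟨w, hwO⟩, h1, ?_⟩
        simp only [Polynomial.map_sub, map_X, map_C, eval_sub, eval_X, eval_C] at hr
        exact (sub_eq_zero.1 hr).symm
      · have hsn : s.natDegree ≤ n := by
          have hs1 : s ≠ 0 := by
            rintro rfl
            simp at hs0
          have : q.natDegree = 1 + s.natDegree := by
            rw [hs, natDegree_mul (X_sub_C_ne_zero _) hs1, natDegree_X_sub_C]
          omega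
        obtain ⟨x, hx1, hx2⟩ := ih s hsn hs0 r hr
        refine ⟨x, ?_, hx2⟩
        rw [hs, eval_mul, hx1, mul_zero]
    · -- a root outside `O`
      have hw0 : w ≠ 0 := by
        rintro rfl
        exact hwO (zero_mem _)
      have huO : w⁻¹ ∈ O := by
        rcases O.mem_or_inv_mem w with h | h
        · exact absurd h hwO
        · exact h
      set u : O := ⟨w⁻¹, huO⟩ with hu
      have hum : u ∈ IsLocalRing.maximalIdeal O := by
        rw [IsLocalRing.mem_maximalIdeal, mem_nonunits_iff]
        intro h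
        rw [isUnit_iff_exists_inv] at h
        obtain ⟨y, hy⟩ := h
        apply hwO
        have h2 : w⁻¹ * (y : Om) = 1 := congrArg Subtype.val hy
        have h3 : (y : Om) = w := by
          field_simp at h2
          exact h2
        rw [← h3]
        exact y.2
      have hru : red u = 0 := (hred u).2 hum
      letI : Invertible w := invertibleOfNonzero hw0
      have h1 : (reflect (n + 1) q).IsRoot u := by
        rw [IsRoot.def]
        apply hinj
        rw [map_zero]
        have h2 := (eval₂_reflect_eq_zero_iff (algebraMap O Om) w (n + 1) q hn).2 hw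
        rw [invOf_eq_inv] at h2
        rw [← h2]
        exact (eval₂_at_apply (algebraMap O Om) u).symm
      obtain ⟨s, hs⟩ := dvd_iff_isRoot.2 h1
      have hq0 : q ≠ 0 := by
        rintro rfl
        simp at hq
      have hr0 : reflect (n + 1) q ≠ 0 := by
        rwa [Ne, reflect_eq_zero_iff]
      have hs1 : s ≠ 0 := by
        rintro rfl
        rw [mul_zero] at hs
        exact hr0 hs
      have hsn : s.natDegree ≤ n := by
        have h3 : (reflect (n + 1) q).natDegree = 1 + s.natDegree := by
          rw [hs, natDegree_mul (X_sub_C_ne_zero _) hs1, natDegree_X_sub_C]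
        have h4 := natDegree_reflect_le (N := n + 1) (p := q)
        have h5 : max (n + 1) q.natDegree = n + 1 := max_eq_left hn
        omega
      have hqs : q = (1 - C u * X) * reflect n s := by
        have h3 : reflect (n + 1) (reflect (n + 1) q) = q := reflect_reflect
        rw [← h3, hs, add_comm n 1, reflect_mul _ _ (natDegree_X_sub_C_le u) hsn,
          reflect_one_X_sub_C]
      have hmap : q.map red = (reflect n s).map red := by
        rw [hqs]
        simp only [Polynomial.map_mul, Polynomial.map_sub, Polynomial.map_one, map_C, map_X, hru,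
          C_0, zero_mul, sub_zero, one_mul]
      have hdn : (reflect n s).natDegree ≤ n := by
        have h4 := natDegree_reflect_le (N := n) (p := s)
        rwa [max_eq_left hsn] at h4
      obtain ⟨x, hx1, hx2⟩ := ih (reflect n s) hdn (by rwa [← hmap]) r (by rw [← hmap]; exact hr)
      refine ⟨x, ?_, hx2⟩
      rw [hqs, eval_mul, hx1, mul_zero]

theorem root_lift {Om κ : Type} [Field Om] [IsAlgClosed Om] [Field κ] (O : ValuationSubring Om)
    (red : O →+* κ) (hred : ∀ x : O, red x = 0 ↔ x ∈ IsLocalRing.maximalIdeal O)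
    (q : Polynomial O) (hq : q.map red ≠ 0) (r : κ) (hr : (q.map red).eval r = 0) :
    ∃ x : O, q.eval x = 0 ∧ red x = r :=
  root_lift_aux O red hred q.natDegree q le_rfl hq r hr

/-! ### Transcendence degrees -/

theorem trdeg_Omega_closure (k : Type) [Field k] :
    Algebra.trdeg (AlgebraicClosure k) (BB.Omega k) = 1 := by
  have h2 := trdeg_add_eq (AlgebraicClosure k) (RatFunc (AlgebraicClosure k)) (A := BB.Omega k)
  rw [trdeg_eq_zero (R := RatFunc (AlgebraicClosure k)) (A := BB.Omega k), add_zero, trdeg_ratFunc]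
    at h2
  exact h2.symm

theorem trdeg_Omega (k : Type) [Field k] : Algebra.trdeg k (BB.Omega k) = 1 := by
  have h1 := trdeg_add_eq k (AlgebraicClosure k) (A := BB.Omega k)
  rw [trdeg_eq_zero (R := k) (A := AlgebraicClosure k), zero_add, trdeg_Omega_closure] at h1
  exact h1.symm

theorem isFunctionField_adjoin {F Om : Type} [Field F] [Field Om] [Algebra F Om]
    (h1 : Algebra.trdeg F Om = 1) (S : Set Om) (hS : S.Finite) (s : Om) (hs : s ∈ S)
    (htr : Transcendental F s) : IsFunctionField F (IntermediateField.adjoin F S) := by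
  refine ⟨?_, ?_⟩
  · rw [IntermediateField.essFiniteType_iff]
    exact IntermediateField.fg_adjoin_of_finite hS
  · have h2 := trdeg_add_eq F (IntermediateField.adjoin F S) (A := Om)
    have h3 : Algebra.trdeg F (IntermediateField.adjoin F S) ≠ 0 := by
      intro h
      rw [trdeg_eq_zero_iff] at h
      have h4 : IsAlgebraic F (⟨s, IntermediateField.subset_adjoin F S hs⟩ :
          IntermediateField.adjoin F S) := Algebra.IsAlgebraic.isAlgebraic _
      exact htr (h4.algebraMap (A := Om))
    refine le_antisymm ?_ (Cardinal.one_le_iff_ne_zero.2 h3)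
    calc Algebra.trdeg F (IntermediateField.adjoin F S) ≤ _ + _ := le_self_add
      _ = 1 := by rw [h2, h1]

/-! ### Existence of germs -/

/-- An element of small value at a place below a valuation ring is in the maximal ideal. -/
theorem mem_maximalIdeal_of_val {F Om : Type} [Field F] [Field Om] [Algebra F Om]
    (O : ValuationSubring Om) (E : IntermediateField F Om) (v : Place F E)
    (hv : ∀ x : E, v.val x ≤ 1 ↔ (x : Om) ∈ O) (y : E) (hy : v.val y < 1) :
    (⟨(y : Om), (hv y).1 hy.le⟩ : O) ∈ IsLocalRing.maximalIdeal O := by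
  rw [IsLocalRing.mem_maximalIdeal, mem_nonunits_iff]
  intro h
  rw [isUnit_iff_exists_inv] at h
  obtain ⟨z, hz⟩ := h
  have h2 : (y : Om) * (z : Om) = 1 := congrArg Subtype.val hz
  have hy0 : (y : Om) ≠ 0 := by
    intro h0
    rw [h0, zero_mul] at h2
    exact zero_ne_one h2
  have h3 : (z : Om) = ((y⁻¹ : E) : Om) := by
    rw [IntermediateField.coe_inv]
    exact eq_inv_of_mul_eq_one_right h2
  have h4 : v.val y⁻¹ ≤ 1 := by
    rw [hv, ← h3]
    exact z.2
  have hyE : y ≠ 0 := by
    rintro rfl
    exact hy0 rfl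
  have h5 : v.val y * v.val y⁻¹ = 1 := by
    rw [← map_mul, mul_inv_cancel₀ hyE, map_one]
  have h6 : v.val y * v.val y⁻¹ < 1 := mul_lt_one_of_lt_of_le hy h4
  rw [h5] at h6
  exact lt_irrefl _ h6

theorem exists_germ (k : Type) [Field k] : Nonempty (BB.Germ k) := by
  classical
  have hinj : Function.Injective (algebraMap (RatFunc (AlgebraicClosure k)) (BB.Omega k)) :=
    (algebraMap (RatFunc (AlgebraicClosure k)) (BB.Omega k)).injective
  obtain ⟨s, hs⟩ : ∃ s : BB.Omega k, Transcendental (AlgebraicClosure k) s :=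
    ⟨algebraMap (RatFunc (AlgebraicClosure k)) (BB.Omega k) RatFunc.X,
      (transcendental_algebraMap_iff hinj).2 RatFunc.transcendental_X⟩
  let A : Subring (BB.Omega k) := (Algebra.adjoin (AlgebraicClosure k) {s}).toSubring
  have hsA : s ∈ A := Algebra.self_mem_adjoin_singleton _ s
  have hI : Ideal.span {(⟨s, hsA⟩ : A)} ≠ ⊤ := by
    rw [Ne, Ideal.eq_top_iff_one, Ideal.mem_span_singleton']
    rintro ⟨⟨a, ha⟩, h⟩
    have ha' : a ∈ Algebra.adjoin (AlgebraicClosure k) {s} := ha
    rw [Algebra.adjoin_singleton_eq_range_aeval] at ha'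
    obtain ⟨p, hp⟩ := ha'
    have h1 : a * s = 1 := congrArg Subtype.val h
    have h2 : aeval s (p * X - 1) = 0 := by
      rw [map_sub, map_mul, aeval_X, map_one]
      have hp' : aeval s p = a := hp
      rw [hp', h1, sub_self]
    have h3 : p * X - 1 = 0 := by
      by_contra h4
      exact hs ⟨_, h4, h2⟩
    have h5 := congrArg (Polynomial.eval 0) h3
    simp at h5
  obtain ⟨O, hO1, hO2⟩ := Ideal.image_subset_nonunits_valuationSubring _ hI
  have hconst : ∀ a : AlgebraicClosure k, algebraMap (AlgebraicClosure k) (BB.Omega k) a ∈ O :=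
    fun a => hO1 ((Algebra.adjoin (AlgebraicClosure k) {s}).algebraMap_mem a)
  have hsO : s ∈ O := hO1 hsA
  have hsn : s ∈ O.nonunits := hO2 ⟨⟨s, hsA⟩, Ideal.mem_span_singleton_self _, rfl⟩
  have hsm : (⟨s, hsO⟩ : O) ∈ IsLocalRing.maximalIdeal O :=
    ValuationSubring.coe_mem_nonunits_iff.1 hsn
  have hs0 : s ≠ 0 := by
    rintro rfl
    exact hs isAlgebraic_zero
  have hinv : s⁻¹ ∉ O := by
    intro h
    rw [IsLocalRing.mem_maximalIdeal, mem_nonunits_iff] at hsm
    apply hsm
    rw [isUnit_iff_exists_inv]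
    refine ⟨⟨s⁻¹, h⟩, ?_⟩
    apply Subtype.ext
    exact mul_inv_cancel₀ hs0
  have key : ∀ x : O, ∃ a : AlgebraicClosure k,
      x - ⟨algebraMap (AlgebraicClosure k) (BB.Omega k) a, hconst a⟩ ∈
        IsLocalRing.maximalIdeal O := by
    intro x
    have hE := isFunctionField_adjoin (trdeg_Omega_closure k) ({s, (x : BB.Omega k)} : Set _)
      (Set.toFinite _) s (by simp) hs
    have hsE : s ∈ IntermediateField.adjoin (AlgebraicClosure k)
        ({s, (x : BB.Omega k)} : Set (BB.Omega k)) :=
      IntermediateField.subset_adjoin _ _ (by simp)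
    have hxE : (x : BB.Omega k) ∈ IntermediateField.adjoin (AlgebraicClosure k)
        ({s, (x : BB.Omega k)} : Set (BB.Omega k)) :=
      IntermediateField.subset_adjoin _ _ (by simp)
    obtain ⟨v, hv⟩ := hE.exists_place (O.comap (algebraMap _ (BB.Omega k)))
      (fun a => hconst a) ⟨s⁻¹, inv_mem hsE⟩ hinv
    have hv' : ∀ z : IntermediateField.adjoin (AlgebraicClosure k)
        ({s, (x : BB.Omega k)} : Set (BB.Omega k)), v.val z ≤ 1 ↔ (z : BB.Omega k) ∈ O :=
      fun z => hv z
    haveI := v.finite_resField hE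
    obtain ⟨a, ha⟩ := (IsAlgClosed.algebraMap_bijective_of_isIntegral (k := AlgebraicClosure k)
      (K := v.resField)).2 (v.res ⟨x, hxE⟩)
    refine ⟨a, ?_⟩
    have hxr : (⟨x, hxE⟩ : IntermediateField.adjoin (AlgebraicClosure k)
        ({s, (x : BB.Omega k)} : Set (BB.Omega k))) ∈ v.ring := (hv' _).2 x.2
    have har := v.ring.algebraMap_mem a
    have h1 : v.res (⟨x, hxE⟩ - algebraMap (AlgebraicClosure k) _ a) = 0 := by
      rw [Place.res_sub v hxr har, Place.res_algebraMap, ha, sub_self]
    rw [Place.res_eq_zero_iff v (sub_mem hxr har)] at h1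
    exact mem_maximalIdeal_of_val O _ v hv' _ h1
  -- the residue map
  let i : AlgebraicClosure k →+* IsLocalRing.ResidueField O :=
    (IsLocalRing.residue O).comp
      ((algebraMap (AlgebraicClosure k) (BB.Omega k)).codRestrict O.toSubring hconst)
  have hi : Function.Bijective i := by
    refine ⟨i.injective, fun y => ?_⟩
    obtain ⟨x, rfl⟩ := IsLocalRing.residue_surjective y
    obtain ⟨a, ha⟩ := key x
    refine ⟨a, ?_⟩
    rw [← IsLocalRing.residue_eq_zero_iff, map_sub, sub_eq_zero] at ha
    exact ha.symm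
  let e := RingEquiv.ofBijective i hi
  let red : O →+* AlgebraicClosure k := e.symm.toRingHom.comp (IsLocalRing.residue O)
  have hred0 : ∀ x : O, red x = 0 ↔ x ∈ IsLocalRing.maximalIdeal O := by
    intro x
    change e.symm (IsLocalRing.residue O x) = 0 ↔ _
    rw [map_eq_zero_iff e.symm e.symm.injective, IsLocalRing.residue_eq_zero_iff]
  refine ⟨⟨O, red, ?_, hred0, s, hsO, (hred0 _).2 hsm, hs⟩⟩
  intro a
  refine ⟨hconst a, ?_⟩
  change e.symm (IsLocalRing.residue O _) = a
  rw [RingEquiv.symm_apply_eq]
  rfl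

/-! ### Constants and places -/

theorem alg_red {k : Type} [Field k] (g : BB.Germ k) (a : BB.Omega k) (ha : IsAlgebraic k a) :
    ∃ h : a ∈ g.O, algebraMap (AlgebraicClosure k) (BB.Omega k) (g.red ⟨a, h⟩) = a := by
  have h1 : IsIntegral (AlgebraicClosure k) a := ha.isIntegral.tower_top
  have h2 : (minpoly (AlgebraicClosure k) a).degree = 1 :=
    IsAlgClosed.degree_eq_one_of_irreducible _ (minpoly.irreducible h1)
  obtain ⟨b, rfl⟩ := minpoly.mem_range_of_degree_eq_one _ _ h2
  obtain ⟨h, hb⟩ := g.red_const b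
  exact ⟨h, by rw [hb]⟩

theorem red_algebraMap {k : Type} [Field k] (g : BB.Germ k) (a : k) :
    ∃ h : algebraMap k (BB.Omega k) a ∈ g.O,
      g.red ⟨algebraMap k (BB.Omega k) a, h⟩ = algebraMap k (AlgebraicClosure k) a := by
  obtain ⟨h, hb⟩ := g.red_const (algebraMap k (AlgebraicClosure k) a)
  exact ⟨h, hb⟩

theorem germ_place {k : Type} [Field k] (g : BB.Germ k) (S : Set (BB.Omega k)) (hS : S.Finite)
    (s : BB.Omega k) (hs : s ∈ S) (htr : Transcendental k s) :
    IsFunctionField k (IntermediateField.adjoin k S) ∧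
    ∃ (u : Place k (IntermediateField.adjoin k S)) (ρ : u.resField →ₐ[k] AlgebraicClosure k),
      (∀ a : IntermediateField.adjoin k S, u.val a ≤ 1 ↔ (a : BB.Omega k) ∈ g.O) ∧
      ∀ (a : IntermediateField.adjoin k S) (h : (a : BB.Omega k) ∈ g.O),
        ρ (u.res a) = g.red ⟨a, h⟩ := by
  have hE := isFunctionField_adjoin (trdeg_Omega k) S hS s hs htr
  refine ⟨hE, ?_⟩
  -- some element of `E` is not in `O`
  have hex : ∃ y : IntermediateField.adjoin k S, (y : BB.Omega k) ∉ g.O := by
    by_contra hcon
    push Not at hcon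
    let f : IntermediateField.adjoin k S →+* AlgebraicClosure k :=
      g.red.comp ((algebraMap (IntermediateField.adjoin k S) (BB.Omega k)).codRestrict
        g.O.toSubring hcon)
    have hf : ∀ a : k, f (algebraMap k _ a) = algebraMap k (AlgebraicClosure k) a := by
      intro a
      obtain ⟨h, ha⟩ := red_algebraMap g a
      exact ha
    let F : IntermediateField.adjoin k S →ₐ[k] AlgebraicClosure k :=
      { f with commutes' := hf }
    have hsE : s ∈ IntermediateField.adjoin k S := IntermediateField.subset_adjoin _ _ hs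
    have h1 : IsAlgebraic k (F ⟨s, hsE⟩) := Algebra.IsAlgebraic.isAlgebraic _
    have h2 : IsAlgebraic k (⟨s, hsE⟩ : IntermediateField.adjoin k S) :=
      (isAlgebraic_algHom_iff F F.toRingHom.injective).1 h1
    exact htr (h2.algebraMap (A := BB.Omega k))
  obtain ⟨y, hy⟩ := hex
  obtain ⟨u, hu⟩ := hE.exists_place (g.O.comap (algebraMap _ (BB.Omega k)))
    (fun a => (red_algebraMap g a).1) y hy
  have hu' : ∀ a : IntermediateField.adjoin k S, u.val a ≤ 1 ↔ (a : BB.Omega k) ∈ g.O :=
    fun a => hu a
  let f : u.ring →+* AlgebraicClosure k :=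
    g.red.comp (((algebraMap (IntermediateField.adjoin k S) (BB.Omega k)).comp
      (u.ring.val : u.ring →+* IntermediateField.adjoin k S)).codRestrict
        g.O.toSubring (fun x => (hu' _).1 x.2))
  have hf : ∀ a : k, f (algebraMap k _ a) = algebraMap k (AlgebraicClosure k) a := by
    intro a
    obtain ⟨h, ha⟩ := red_algebraMap g a
    exact ha
  have hker : ∀ x : u.ring, x ∈ IsLocalRing.maximalIdeal u.ring → f x = 0 := by
    intro x hx
    rw [Place.mem_maximalIdeal] at hx
    exact (g.red_zero _).2 (mem_maximalIdeal_of_val g.O _ u hu' _ hx)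
  let f' : u.ring →ₐ[k] AlgebraicClosure k := { f with commutes' := hf }
  let ρ : u.resField →ₐ[k] AlgebraicClosure k :=
    Ideal.Quotient.liftₐ (IsLocalRing.maximalIdeal u.ring) f' hker
  refine ⟨u, ρ, hu', ?_⟩
  intro a h
  have ha : a ∈ u.ring := (hu' a).2 h
  rw [Place.res_of_mem u ha]
  rfl

end Pool.Agent.Helper61.BBGermA
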