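import Pool.Agent.Helper58.FL.Tools

/-! FL-14: mapping spaces and homotopy colimits. -/

open CategoryTheory MonoidalCategory Opposite

set_option autoImplicit false

namespace Helper61FL

open FL

variable {A J : Type} [SmallCategory A] [SmallCategory J]

section

variable {p : J ⥤ SP A} {Z : SP A}

/-- The simplex of `Map(p(j), Z)` attached by a simplex of `Map(hocolim p, Z)` to a simplex
of `N(j/J)`. -/
def coneM {k : SimplexCategory} (ψ : MpS (Hoco p) Z k) {j : J} {l : SimplexCategory}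
    (s : l ⟶ k) (w : WS j l) : MpS (p.obj j) Z l where
  app a m t y := ψ.app a m (t ≫ s)
    ⟨w.σ.res t, ((p.map (w.u ≫ w.σ.zeroTo t)).app a).app m y⟩
  nat_left f m t y := by
    refine (congrArg _ (congrArg (HS.mk (w.σ.res t)) (hom_nat _ f y))).trans ?_
    exact ψ.nat_left f m (t ≫ s) ⟨w.σ.res t, _⟩
  nat_right a m m' g t y := by
    refine Eq.trans ?_ (ψ.nat_right a g (t ≫ s)
      ⟨w.σ.res t, ((p.map (w.u ≫ w.σ.zeroTo t)).app a).app m y⟩)
    refine (congrArg (fun r => ψ.app a m' r _) (Category.assoc g.unop t s)).trans ?_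
    refine congrArg (ψ.app a m' (g.unop ≫ t ≫ s)) ?_
    refine congrArg (HS.mk (w.σ.res (g.unop ≫ t))) ?_
    refine Eq.trans ?_ (congrArg (((p.map ((w.σ.res t).zeroTo g.unop)).app a).app m')
      (hom_natk (p.map (w.u ≫ w.σ.zeroTo t)) g y))
    refine Eq.trans ?_ (diag_comp p (w.u ≫ w.σ.zeroTo t) ((w.σ.res t).zeroTo g.unop) _)
    refine congrArg (fun f => ((p.map f).app a).app m' _) ?_
    refine Eq.trans ?_ (Category.assoc _ _ _).symm
    exact congrArg (w.u ≫ ·) (w.σ.map_comp _ _ _ _ _).symm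

/-- The forward map on simplices. -/
def fwd {k : SimplexCategory} (ψ : MpS (Hoco p) Z k) : MpS (W J) (mpDiag p Z) k where
  app j l s w := coneM ψ s (w : WS j.unop l.unop)
  nat_left {j j'} f l s w := by
    refine MpS.ext ?_
    funext a m t y
    refine congrArg (ψ.app a m (t ≫ s)) (congrArg (HS.mk (Chain.res (WS.σ w) t)) ?_)
    refine Eq.trans ?_ (diag_comp p f.unop (WS.u w ≫ Chain.zeroTo (WS.σ w) t) y)
    exact congrArg (fun f => ((p.map f).app a).app m y)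
      (Category.assoc f.unop (WS.u w) (Chain.zeroTo (WS.σ w) t))
  nat_right j l l' g s w := by
    refine MpS.ext ?_
    funext a m t y
    refine (congrArg (fun r => ψ.app a m r _) (Category.assoc t g.unop s).symm).trans ?_
    refine congrArg (ψ.app a m ((t ≫ g.unop) ≫ s))
      (congrArg (HS.mk (Chain.res (WS.σ w) (t ≫ g.unop))) ?_)
    refine congrArg (fun f => ((p.map f).app a).app m y) ?_
    refine (Category.assoc (WS.u w) (Chain.zeroTo (WS.σ w) g.unop) _).trans ?_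
    exact congrArg (WS.u w ≫ ·) ((WS.σ w).map_comp _ _ _ _ _)

theorem Phi_left {k : SimplexCategory} (Φ : MpS (W J) (mpDiag p Z) k) {j j' : J} (u : j ⟶ j')
    (l : SimplexCategoryᵒᵖ) (s : l.unop ⟶ k) (w : WS j' l.unop) :
    (Φ.app (op j) l s (⟨w.σ, u ≫ w.u⟩ : WS j l.unop) : MpS (p.obj j) Z l.unop) =
      (MpS.ofHom l.unop (p.map u)).comp (Φ.app (op j') l s w) :=
  Φ.nat_left u.op l s w

theorem Phi_right {k : SimplexCategory} (Φ : MpS (W J) (mpDiag p Z) k) {j : J}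
    {l l' : SimplexCategoryᵒᵖ} (g : l ⟶ l') (s : l.unop ⟶ k) (w : WS j l.unop) :
    (Φ.app (op j) l' (g.unop ≫ s) (w.res g.unop) : MpS (p.obj j) Z l'.unop) =
      MpS.res g.unop (Φ.app (op j) l s w) :=
  Φ.nat_right (op j) g s w

/-- The backward map on simplices. -/
def bwd {k : SimplexCategory} (Φ : MpS (W J) (mpDiag p Z) k) : MpS (Hoco p) Z k where
  app a m s w := (Φ.app (op (HS.σ w |>.obj 0)) m s (⟨HS.σ w, 𝟙 _⟩ : WS _ m.unop) :
    MpS (p.obj ((HS.σ w).obj 0)) Z m.unop).app a m (𝟙 _) (HS.x w)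
  nat_left f m s w := MpS.nat_left (Φ.app (op (HS.σ w |>.obj 0)) m s
    (⟨HS.σ w, 𝟙 _⟩ : WS _ m.unop) : MpS (p.obj ((HS.σ w).obj 0)) Z m.unop) f m (𝟙 _) (HS.x w)
  nat_right a m l g s w := by
    obtain ⟨σ, y⟩ := w
    have h1 := MpS.nat_right (Φ.app (op (σ.obj 0)) m s (⟨σ, 𝟙 _⟩ : WS _ m.unop) :
      MpS (p.obj (σ.obj 0)) Z m.unop) a g (𝟙 _) y
    refine Eq.trans ?_ h1
    have h2 := Phi_right Φ g s (⟨σ, 𝟙 _⟩ : WS (σ.obj 0) m.unop)
    have h3 := Phi_left Φ (σ.zeroTo g.unop) l (g.unop ≫ s)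
      (⟨σ.res g.unop, 𝟙 _⟩ : WS ((σ.res g.unop).obj 0) l.unop)
    have h4 : (WS.res (⟨σ, 𝟙 _⟩ : WS (σ.obj 0) m.unop) g.unop) =
        ⟨σ.res g.unop, σ.zeroTo g.unop ≫ 𝟙 _⟩ :=
      congrArg (WS.mk (σ.res g.unop)) ((Category.id_comp _).trans (Category.comp_id _).symm)
    have h5 : (MpS.res g.unop (Φ.app (op (σ.obj 0)) m s (⟨σ, 𝟙 _⟩ : WS _ m.unop) :
        MpS (p.obj (σ.obj 0)) Z m.unop)) = (MpS.ofHom l.unop (p.map (σ.zeroTo g.unop))).comp
          (Φ.app (op ((σ.res g.unop).obj 0)) l (g.unop ≫ s)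
            (⟨σ.res g.unop, 𝟙 _⟩ : WS ((σ.res g.unop).obj 0) l.unop)) :=
      h2.symm.trans ((congrArg (Φ.app (op (σ.obj 0)) l (g.unop ≫ s)) h4).trans h3)
    have h6 := congrArg (fun χ : MpS (p.obj (σ.obj 0)) Z l.unop =>
      χ.app a l (𝟙 _) (((p.obj (σ.obj 0)).obj a).map g y)) h5
    refine Eq.trans h6.symm ?_
    refine congrArg (fun r => (Φ.app (op (σ.obj 0)) m s (⟨σ, 𝟙 _⟩ : WS _ m.unop) :
        MpS (p.obj (σ.obj 0)) Z m.unop).app a l r (((p.obj (σ.obj 0)).obj a).map g y)) ?_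
    exact (Category.id_comp _).trans (Category.comp_id _).symm

theorem bwd_fwd {k : SimplexCategory} (ψ : MpS (Hoco p) Z k) : bwd (fwd ψ) = ψ := by
  refine MpS.ext ?_
  funext a m s w
  obtain ⟨σ, y⟩ := w
  refine (congrArg (fun r => ψ.app a m r _) (Category.id_comp s)).trans ?_
  refine congrArg (ψ.app a m s) (congrArg (HS.mk σ) ?_)
  refine Eq.trans ?_ (diag_id p y)
  refine congrArg (fun f => ((p.map f).app a).app m y) ?_
  exact (Category.id_comp _).trans (σ.map_id 0)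

theorem fwd_bwd {k : SimplexCategory} (Φ : MpS (W J) (mpDiag p Z) k) : fwd (bwd Φ) = Φ := by
  refine MpS.ext ?_
  funext j l s w
  refine MpS.ext ?_
  funext a m t y
  obtain ⟨j⟩ := j
  obtain ⟨σ, u⟩ := w
  have h3 := Phi_left Φ (u ≫ σ.zeroTo t) m (t ≫ s)
    (⟨σ.res t, 𝟙 _⟩ : WS ((σ.res t).obj 0) m.unop)
  have h2 := Phi_right Φ t.op s (⟨σ, u⟩ : WS j l.unop)
  have h4 : (WS.res (⟨σ, u⟩ : WS j l.unop) t) =
      ⟨σ.res t, (u ≫ σ.zeroTo t) ≫ 𝟙 _⟩ :=
    congrArg (WS.mk (σ.res t)) (Category.comp_id _).symm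
  have h5 := h2.symm.trans ((congrArg (Φ.app (op j) m (t ≫ s)) h4).trans h3)
  have h6 := congrArg (fun χ : MpS (p.obj j) Z m.unop => χ.app a m (𝟙 _) y) h5
  refine Eq.trans h6.symm ?_
  exact congrArg (fun r => (Φ.app (op j) l s (⟨σ, u⟩ : WS j l.unop) :
      MpS (p.obj j) Z l.unop).app a m r y) (Category.id_comp _)

end

/-- `Map(hocolim p, Z) = holim Map(p(j), Z)`; the isomorphism sends `ψ` to the family
`(w, s, y) ↦ ψ(w_0|s, y transported to p(j_0))`. -/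
theorem exists_holimIso (p : J ⥤ SP A) (Z : SP A) :
    ∃ e : Mp (Hoco p) Z ≅ Holim (mpDiag p Z),
      ∀ (k : SimplexCategoryᵒᵖ) (ψ : MpS (Hoco p) Z k.unop) (j : Jᵒᵖ) (l : SimplexCategoryᵒᵖ)
        (s : l.unop ⟶ k.unop) (w : WS j.unop l.unop) (a : Aᵒᵖ) (m : SimplexCategoryᵒᵖ)
        (t : m.unop ⟶ l.unop) (y : ((p.obj j.unop).obj a).obj m),
        ((e.hom.app k ψ : MpS (W J) (mpDiag p Z) k.unop).app j l s w :
          MpS (p.obj j.unop) Z l.unop).app a m t y =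
        ψ.app a m (t ≫ s) ⟨w.σ.res t, ((p.map (w.u ≫ w.σ.zeroTo t)).app a).app m y⟩ := by
  let f : Mp (Hoco p) Z ⟶ Holim (mpDiag p Z) :=
    { app := fun k => ↾ fun (ψ : MpS (Hoco p) Z k.unop) => fwd ψ
      naturality := fun k k' α => by
        ext ψ
        refine MpS.ext ?_
        funext j l s w
        refine MpS.ext ?_
        funext a m t y
        exact congrArg (fun r => MpS.app ψ a m r _) (Category.assoc t s α.unop) }
  let g : Holim (mpDiag p Z) ⟶ Mp (Hoco p) Z :=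
    { app := fun k => ↾ fun (Φ : MpS (W J) (mpDiag p Z) k.unop) => bwd Φ
      naturality := fun k k' α => by
        ext Φ
        refine MpS.ext ?_
        funext a m s w
        rfl }
  refine ⟨⟨f, g, ?_, ?_⟩, ?_⟩
  · ext k ψ
    exact bwd_fwd ψ
  · ext k Φ
    exact fwd_bwd Φ
  · intro k ψ j l s w a m t y
    rfl

end Helper61FL
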