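import Pool.Agent.Helper51.LinLineDefs
import Pool.Agent.Helper69.Lin.Line
import Pool.Agent.Helper94.LinMean

/-!
Module FINAL of MP_8eda11_ag: the equality case of the L1 estimate.
-/

set_option autoImplicit false

namespace Pool.Agent.Helper61.LinFinal

open MeasureTheory Filter Topology Set Metric Polynomial Pool.Agent.Helper51.Lin

/-! ### Equality in the triangle inequality -/

lemma ray_of_norm_sum_eq {ι : Type*} (s : Finset ι) (z : ι → ℂ)
    (h : ∑ i ∈ s, ‖z i‖ = ‖∑ i ∈ s, z i‖) :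
    ∀ i ∈ s, z i * ‖∑ i ∈ s, z i‖ = ‖z i‖ * ∑ i ∈ s, z i := by
  set Z : ℂ := ∑ i ∈ s, z i with hZ
  intro i hi
  by_cases hZ0 : Z = 0
  · rw [hZ0]
    simp
  have hle : ∀ j ∈ s, (z j * (starRingEnd ℂ) Z).re ≤ ‖z j‖ * ‖Z‖ := by
    intro j _
    refine (Complex.re_le_norm _).trans ?_
    rw [norm_mul, RCLike.norm_conj]
  have hsum : ∑ j ∈ s, (z j * (starRingEnd ℂ) Z).re = ∑ j ∈ s, ‖z j‖ * ‖Z‖ := by
    rw [← Complex.re_sum, ← Finset.sum_mul, ← Finset.sum_mul, h, ← hZ, Complex.mul_conj,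
      Complex.normSq_eq_norm_sq]
    norm_cast
    ring
  have heq := (Finset.sum_eq_sum_iff_of_le hle).1 hsum i hi
  have h1 : (z i * (starRingEnd ℂ) Z).re = ‖z i * (starRingEnd ℂ) Z‖ := by
    rw [heq, norm_mul, RCLike.norm_conj]
  have h2 : z i * (starRingEnd ℂ) Z = ((‖z i‖ * ‖Z‖ : ℝ) : ℂ) := by
    have h3 : (z i * (starRingEnd ℂ) Z).im = 0 := by
      have h4 := Complex.re_eq_norm.1 h1
      exact (Complex.le_def.1 h4).2.symm
    apply Complex.ext
    · rw [heq, Complex.ofReal_re]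
    · rw [h3, Complex.ofReal_im]
  have h5 : z i * ((starRingEnd ℂ) Z * Z) = ((‖z i‖ * ‖Z‖ : ℝ) : ℂ) * Z := by
    rw [← h2]; ring
  have h6 : (starRingEnd ℂ) Z * Z = ((‖Z‖ : ℝ) : ℂ) * ((‖Z‖ : ℝ) : ℂ) := by
    rw [mul_comm, Complex.mul_conj, Complex.normSq_eq_norm_sq]
    norm_cast
    ring
  rw [h6] at h5
  have h7 : ((‖Z‖ : ℝ) : ℂ) ≠ 0 := by
    rw [Complex.ofReal_ne_zero]
    exact norm_ne_zero_iff.2 hZ0
  apply mul_right_cancel₀ h7
  rw [mul_assoc, h5]
  push_cast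
  ring

/-! ### Integrability of the kernel -/

/-- The weight. -/
noncomputable def h0 (u : ℂ) : ℝ := ‖u‖⁻¹ * ((1 + ‖u‖) ^ 2)⁻¹

lemma h0_nonneg (u : ℂ) : 0 ≤ h0 u := by unfold h0; positivity

lemma bound_min {d : ℝ} (hd : 0 < d) {u v w : ℂ} (h12 : ‖u‖ ≤ ‖v‖) (h13 : ‖u‖ ≤ ‖w‖)
    (hv : d ≤ ‖u‖ + ‖v‖) (hw : d ≤ ‖u‖ + ‖w‖) :
    (‖u‖ * ‖v‖ * ‖w‖)⁻¹ ≤ ((min (1/2) (d/4)) ^ 2)⁻¹ * h0 u := by
  set c : ℝ := min (1/2) (d/4) with hc
  have hc0 : 0 < c := lt_min (by norm_num) (by positivity)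
  have hc1 : c ≤ 1/2 := min_le_left _ _
  have hc2 : c ≤ d/4 := min_le_right _ _
  have hu0 : 0 ≤ ‖u‖ := norm_nonneg u
  have key : ∀ t : ℝ, ‖u‖ ≤ t → d ≤ ‖u‖ + t → c * (1 + ‖u‖) ≤ t := by
    intro t h1 h2
    have h3 : d / 2 ≤ t := by linarith
    by_cases h4 : 1 ≤ ‖u‖
    · nlinarith
    · push Not at h4
      nlinarith
  by_cases hu : ‖u‖ = 0
  · unfold h0
    rw [hu]
    simp
  have hu' : 0 < ‖u‖ := lt_of_le_of_ne hu0 (Ne.symm hu)
  have hv' := key _ h12 hv
  have hw' := key _ h13 hw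
  have h1 : 0 < c * (1 + ‖u‖) := by positivity
  unfold h0
  rw [← mul_inv, ← mul_inv]
  apply inv_anti₀ (by positivity)
  calc c ^ 2 * (‖u‖ * (1 + ‖u‖) ^ 2) = ‖u‖ * (c * (1 + ‖u‖)) * (c * (1 + ‖u‖)) := by ring
    _ ≤ ‖u‖ * ‖v‖ * ‖w‖ := by gcongr

lemma bound_three {b₁ b₂ b₃ : ℂ} (h12 : b₁ ≠ b₂) (h13 : b₁ ≠ b₃) (h23 : b₂ ≠ b₃) :
    ∃ C : ℝ, 0 ≤ C ∧ ∀ w : ℂ, ‖((w - b₁) * (w - b₂) * (w - b₃))⁻¹‖ ≤
      C * (h0 (w - b₁) + h0 (w - b₂) + h0 (w - b₃)) := by
  set d : ℝ := min (dist b₁ b₂) (min (dist b₁ b₃) (dist b₂ b₃)) with hd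
  have hd0 : 0 < d := lt_min (dist_pos.2 h12) (lt_min (dist_pos.2 h13) (dist_pos.2 h23))
  have hd12 : d ≤ dist b₁ b₂ := min_le_left _ _
  have hd13 : d ≤ dist b₁ b₃ := (min_le_right _ _).trans (min_le_left _ _)
  have hd23 : d ≤ dist b₂ b₃ := (min_le_right _ _).trans (min_le_right _ _)
  set c : ℝ := ((min (1/2) (d/4)) ^ 2)⁻¹ with hc
  have hc0 : 0 ≤ c := by positivity
  refine ⟨c, hc0, fun w => ?_⟩
  rw [norm_inv, norm_mul, norm_mul]
  have ht : ∀ x y : ℂ, dist x y ≤ ‖w - x‖ + ‖w - y‖ := by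
    intro x y
    rw [← dist_eq_norm, ← dist_eq_norm]
    exact dist_triangle_left x y w
  have t12 := hd12.trans (ht b₁ b₂)
  have t13 := hd13.trans (ht b₁ b₃)
  have t23 := hd23.trans (ht b₂ b₃)
  have n1 := h0_nonneg (w - b₁)
  have n2 := h0_nonneg (w - b₂)
  have n3 := h0_nonneg (w - b₃)
  rcases le_total ‖w - b₁‖ ‖w - b₂‖ with h1 | h1
  · rcases le_total ‖w - b₁‖ ‖w - b₃‖ with h2 | h2
    · have := bound_min hd0 h1 h2 t12 t13
      refine this.trans ?_
      rw [← hc]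
      refine mul_le_mul_of_nonneg_left ?_ hc0
      linarith
    · have := bound_min hd0 h2 (h2.trans h1) (by linarith) (by linarith : d ≤ ‖w - b₃‖ + ‖w - b₂‖)
      have e : ‖w - b₁‖ * ‖w - b₂‖ * ‖w - b₃‖ = ‖w - b₃‖ * ‖w - b₁‖ * ‖w - b₂‖ := by ring
      rw [e]
      refine this.trans ?_
      rw [← hc]
      refine mul_le_mul_of_nonneg_left ?_ hc0
      linarith
  · rcases le_total ‖w - b₂‖ ‖w - b₃‖ with h2 | h2
    · have := bound_min hd0 h1 h2 (by linarith : d ≤ ‖w - b₂‖ + ‖w - b₁‖) t23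
      have e : ‖w - b₁‖ * ‖w - b₂‖ * ‖w - b₃‖ = ‖w - b₂‖ * ‖w - b₁‖ * ‖w - b₃‖ := by ring
      rw [e]
      refine this.trans ?_
      rw [← hc]
      refine mul_le_mul_of_nonneg_left ?_ hc0
      linarith
    · have := bound_min hd0 (h2.trans h1) h2 (by linarith : d ≤ ‖w - b₃‖ + ‖w - b₁‖)
        (by linarith : d ≤ ‖w - b₃‖ + ‖w - b₂‖)
      have e : ‖w - b₁‖ * ‖w - b₂‖ * ‖w - b₃‖ = ‖w - b₃‖ * ‖w - b₁‖ * ‖w - b₂‖ := by ring
      rw [e]
      refine this.trans ?_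
      rw [← hc]
      refine mul_le_mul_of_nonneg_left ?_ hc0
      linarith

lemma integrable_inv_three {b₁ b₂ b₃ : ℂ} (h12 : b₁ ≠ b₂) (h13 : b₁ ≠ b₃) (h23 : b₂ ≠ b₃) :
    Integrable (fun w : ℂ => ((w - b₁) * (w - b₂) * (w - b₃))⁻¹) := by
  obtain ⟨C, _, hC⟩ := bound_three h12 h13 h23
  have hi : Integrable h0 := Pool.Agent.Helper94.LinMean.integrable_h0
  have hint : Integrable (fun w : ℂ => C * (h0 (w - b₁) + h0 (w - b₂) + h0 (w - b₃))) :=
    (((hi.comp_sub_right b₁).add (hi.comp_sub_right b₂)).add (hi.comp_sub_right b₃)).const_mul C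
  refine hint.mono' ?_ (Eventually.of_forall hC)
  exact (Measurable.inv (by fun_prop)).aestronglyMeasurable

/-! ### The kernel -/

/-- The kernel `q_a`. -/
noncomputable def qa (β : Fin 4 → ℂ) (a w : ℂ) : ℂ :=
  (w - a) / ((w - β 0) * (w - β 1) * (w - β 2) * (w - β 3))

lemma qa_eq {β : Fin 4 → ℂ} (hβ : Function.Injective β) (a : ℂ) {w : ℂ} (hw : ∀ i, w ≠ β i) :
    qa β a w = (a - β 2) / (β 3 - β 2) * ((w - β 0) * (w - β 1) * (w - β 2))⁻¹ +
      (β 3 - a) / (β 3 - β 2) * ((w - β 0) * (w - β 1) * (w - β 3))⁻¹ := by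
  have h0 := sub_ne_zero.2 (hw 0)
  have h1 := sub_ne_zero.2 (hw 1)
  have h2 := sub_ne_zero.2 (hw 2)
  have h3 := sub_ne_zero.2 (hw 3)
  have h32 : β 3 - β 2 ≠ 0 := sub_ne_zero.2 fun h => by simpa using hβ h
  unfold qa
  field_simp
  ring

lemma measurable_qa (β : Fin 4 → ℂ) (a : ℂ) : Measurable (qa β a) := by
  unfold qa
  fun_prop

lemma integrable_qa {β : Fin 4 → ℂ} (hβ : Function.Injective β) (a : ℂ) :
    Integrable (qa β a) := by
  have hne : ∀ i j : Fin 4, i ≠ j → β i ≠ β j := fun i j h h' => h (hβ h')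
  have h1 := (integrable_inv_three (hne 0 1 (by decide)) (hne 0 2 (by decide))
    (hne 1 2 (by decide))).const_mul ((a - β 2) / (β 3 - β 2))
  have h2 := (integrable_inv_three (hne 0 1 (by decide)) (hne 0 3 (by decide))
    (hne 1 3 (by decide))).const_mul ((β 3 - a) / (β 3 - β 2))
  refine (h1.add h2).congr ?_
  have h3 : (Set.range β)ᶜ ∈ ae (volume : Measure ℂ) := by
    rw [compl_mem_ae_iff]
    exact (Set.finite_range β).measure_zero volume
  filter_upwards [h3] with w hw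
  rw [Pi.add_apply]
  exact (qa_eq hβ a fun i h => hw ⟨i, h.symm⟩).symm

lemma qa_ne_zero {β : Fin 4 → ℂ} {a w : ℂ} (hw : ∀ i, w ≠ β i) (hwa : w ≠ a) : qa β a w ≠ 0 := by
  unfold qa
  have h0 := sub_ne_zero.2 (hw 0)
  have h1 := sub_ne_zero.2 (hw 1)
  have h2 := sub_ne_zero.2 (hw 2)
  have h3 := sub_ne_zero.2 (hw 3)
  have h4 := sub_ne_zero.2 hwa
  positivity

lemma continuousAt_qa {β : Fin 4 → ℂ} (a : ℂ) {w : ℂ} (hw : ∀ i, w ≠ β i) :
    ContinuousAt (qa β a) w := by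
  unfold qa
  have h0 := sub_ne_zero.2 (hw 0)
  have h1 := sub_ne_zero.2 (hw 1)
  have h2 := sub_ne_zero.2 (hw 2)
  have h3 := sub_ne_zero.2 (hw 3)
  refine ContinuousAt.div (by fun_prop) (by fun_prop) ?_
  positivity

/-! ### Configurations -/

section cfg

variable {m : ℕ} {R : (MvPolynomial (Fin (m + 1)) ℂ)[X]}

lemma cfg_injective {b : Fin m → ℂ} (hb : Function.Injective b) {x : ℂ} (hx : x ∉ Set.range b) :
    Function.Injective (cfg x b) := by
  unfold cfg
  rw [Matrix.vecCons, Fin.cons_injective_iff]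
  exact ⟨hx, hb⟩

lemma cfg_line (b : Fin m → ℂ) (t : ℂ) : cfg 0 b + t • cfg 1 (0 : Fin m → ℂ) = cfg t b := by
  unfold cfg
  funext i
  refine Fin.cases ?_ (fun j => ?_) i
  · simp
  · simp

lemma continuous_cfg (b : Fin m → ℂ) : Continuous fun x : ℂ => cfg x b := by
  have : (fun x : ℂ => cfg x b) = fun t => cfg 0 b + t • cfg 1 (0 : Fin m → ℂ) := by
    funext t
    exact (cfg_line b t).symm
  rw [this]
  fun_prop

lemma continuousAt_DR (hR : R.Monic) {l : Fin (m + 1) → ℂ} (hs : (spec R l).Separable) {w : ℂ}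
    (hw : w ∈ rts R l) (v : Fin (m + 1) → ℂ) : ContinuousAt (fun p => DR R p v) (l, w) := by
  unfold DR
  refine ContinuousAt.div ?_ ?_ (fderiv_Rf_snd_ne hR hs hw)
  · exact ((contDiff_fderiv_Rf R (v, 0)).continuous.continuousAt).neg
  · exact (contDiff_fderiv_Rf R (0, 1)).continuous.continuousAt

end cfg

section main

variable {m : ℕ} {R : (MvPolynomial (Fin (m + 1)) ℂ)[X]}

/-- The `L¹` equality. -/
theorem l1_equality (hR : R.Monic)
    (hsep : ∀ l : Fin (m + 1) → ℂ, Function.Injective l → (spec R l).Separable)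
    (hav : ∀ l : Fin (m + 1) → ℂ, Function.Injective l → ∀ i, l i ∉ rts R l)
    (b : Fin m → ℂ) (hb : Function.Injective b) (κ : ℕ)
    (hκ : ∀ T, (xPoly R b T).natDegree ≤ κ) (β : Fin 4 → ℂ) (hβ : Function.Injective β)
    (hβb : ∀ i, β i ∈ Set.range b) (a : ℂ)
    (htr : ∀ x ∉ Set.range b,
      ∑ w ∈ rts R (cfg x b), qa β a w * DR R (cfg x b, w) (cfg 1 0) ^ 2 = κ * qa β a x) :
    ∀ x ∉ Set.range b,
      ∑ w ∈ rts R (cfg x b), ‖qa β a w * DR R (cfg x b, w) (cfg 1 0) ^ 2‖ = ‖(κ : ℂ) * qa β a x‖ := by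
  set O : Set ℂ := (Set.range b)ᶜ with hO
  have hfin : (Set.range b).Finite := Set.finite_range b
  have hOo : IsOpen O := hfin.isClosed.isOpen_compl
  have hinj : ∀ x ∈ O, Function.Injective (cfg x b) := fun x hx => cfg_injective hb hx
  have hsep' : ∀ x ∈ O, (spec R (cfg x b)).Separable := fun x hx => hsep _ (hinj x hx)
  have hwβ : ∀ x ∈ O, ∀ w ∈ rts R (cfg x b), ∀ i, w ≠ β i := by
    intro x hx w hw i h
    obtain ⟨j, hj⟩ := hβb i
    have h1 := hav _ (hinj x hx) j.succ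
    have h2 : cfg x b j.succ = b j := by unfold cfg; simp
    rw [h2, hj, ← h] at h1
    exact h1 hw
  have hxβ : ∀ x ∈ O, ∀ i, x ≠ β i := by
    intro x hx i h
    exact hx (h ▸ hβb i)
  set F : ℂ → ℝ := fun x => ∑ w ∈ rts R (cfg x b),
    ‖qa β a w * DR R (cfg x b, w) (cfg 1 0) ^ 2‖ with hF
  set G : ℂ → ℝ := fun x => ‖(κ : ℂ) * qa β a x‖ with hG
  have hFc : ContinuousOn F O := by
    intro x hx
    have h1 : ContinuousAt (fun l : Fin (m + 1) → ℂ => ∑ w ∈ rts R l,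
        ‖qa β a w * DR R (l, w) (cfg 1 0) ^ 2‖) (cfg x b) := by
      refine continuousAt_sum_rts hR (hsep' x hx)
        (fun p => ‖qa β a p.2 * DR R p (cfg 1 0) ^ 2‖) ?_
      intro w hw
      refine ContinuousAt.norm (ContinuousAt.mul ?_ ((continuousAt_DR hR (hsep' x hx) hw _).pow 2))
      exact ContinuousAt.comp (f := Prod.snd) (x := (cfg x b, w))
        (continuousAt_qa a (hwβ x hx w hw)) continuousAt_snd
    exact (ContinuousAt.comp (f := fun x => cfg x b) h1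
      (continuous_cfg b).continuousAt).continuousWithinAt
  have hGc : ContinuousOn G O := by
    intro x hx
    exact (continuousAt_const.mul (continuousAt_qa a (hxβ x hx))).norm.continuousWithinAt
  have hGF : ∀ x ∈ O, G x ≤ F x := by
    intro x hx
    simp only [hG, hF]
    rw [← htr x hx]
    exact norm_sum_le _ _
  -- area inequality
  have harea := Pool.Agent.Helper69.LinLine.area_DR hR (cfg 0 b) (cfg 1 (0 : Fin m → ℂ)) 0 0 O hOo
    (fun t ht => by rw [cfg_line]; exact hsep' t ht) κ (fun u => hκ u)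
    (fun u => ‖qa β a u‖ₑ) (measurable_qa β a).enorm
  have hL : ∫⁻ x in O, ENNReal.ofReal (F x) ≤ ∫⁻ x in O, ENNReal.ofReal (G x) := by
    calc ∫⁻ x in O, ENNReal.ofReal (F x)
        = ∫⁻ t in O, ∑ w ∈ rts R (cfg 0 b + t • cfg 1 (0 : Fin m → ℂ)),
            ‖qa β a (w - (0 + t * 0))‖ₑ *
              ‖DR R (cfg 0 b + t • cfg 1 (0 : Fin m → ℂ), w) (cfg 1 0) - 0‖ₑ ^ 2 := by
          refine lintegral_congr fun t => ?_
          rw [cfg_line, hF]
          simp only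
          rw [ENNReal.ofReal_sum_of_nonneg (fun w _ => norm_nonneg _)]
          refine Finset.sum_congr rfl fun w _ => ?_
          rw [mul_zero, add_zero, sub_zero, sub_zero, ofReal_norm, enorm_mul, enorm_pow]
      _ ≤ κ * ∫⁻ u, ‖qa β a u‖ₑ := harea
      _ = ∫⁻ u, ENNReal.ofReal (G u) := by
          rw [← lintegral_const_mul _ (measurable_qa β a).enorm]
          refine lintegral_congr fun u => ?_
          rw [hG]
          simp only
          rw [ofReal_norm, enorm_mul]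
          congr 1
          rw [← ofReal_norm]
          simp
      _ = ∫⁻ x in O, ENNReal.ofReal (G x) := by
          rw [← setLIntegral_univ]
          refine setLIntegral_congr ?_
          rw [hO]
          have h0 : volume ((Set.range b)ᶜᶜ) = 0 := by
            rw [compl_compl]
            exact hfin.measure_zero volume
          have h1 : (Set.range b)ᶜ =ᵐ[volume] (Set.univ : Set ℂ) := ae_eq_univ.2 h0
          exact h1.symm
  have hGint : ∫⁻ x in O, ENNReal.ofReal (G x) ≠ ⊤ := by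
    have h1 : Integrable (fun x => (κ : ℂ) * qa β a x) := (integrable_qa hβ a).const_mul _
    have h2 := h1.norm.integrableOn (s := O)
    have h3 := h2.lintegral_lt_top
    exact h3.ne
  have hFm : AEMeasurable (fun x => ENNReal.ofReal (F x)) (volume.restrict O) :=
    (hFc.aemeasurable hOo.measurableSet).ennreal_ofReal
  have hae : (fun x => ENNReal.ofReal (G x)) =ᵐ[volume.restrict O]
      fun x => ENNReal.ofReal (F x) := by
    refine ae_eq_of_ae_le_of_lintegral_le ?_ hGint hFm hL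
    rw [EventuallyLE, ae_restrict_iff' hOo.measurableSet]
    exact Eventually.of_forall fun x hx => ENNReal.ofReal_le_ofReal (hGF x hx)
  have hae' : F =ᵐ[volume.restrict O] G := by
    filter_upwards [hae] with x hx
    have hF0 : 0 ≤ F x := Finset.sum_nonneg fun w _ => norm_nonneg _
    have hG0 : 0 ≤ G x := norm_nonneg _
    have := congrArg ENNReal.toReal hx
    rw [ENNReal.toReal_ofReal hF0, ENNReal.toReal_ofReal hG0] at this
    exact this.symm
  have hEq := Measure.eqOn_open_of_ae_eq hae' hOo hFc hGc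
  intro x hx
  exact hEq hx

theorem DR_eq_zero_of_trace (hm : 4 ≤ m) (hR : R.Monic)
    (hsep : ∀ l : Fin (m + 1) → ℂ, Function.Injective l → (spec R l).Separable)
    (hav : ∀ l : Fin (m + 1) → ℂ, Function.Injective l → ∀ i, l i ∉ rts R l)
    (b : Fin m → ℂ) (hb : Function.Injective b) (κ : ℕ)
    (hκ : ∀ T, (xPoly R b T).natDegree ≤ κ)
    (htr : ∀ k : Fin 3 → Fin m, Function.Injective k → ∀ x ∉ Set.range b,
      ∑ w ∈ rts R (cfg x b), DR R (cfg x b, w) (cfg 1 0) ^ 2 / ∏ i, (w - b (k i)) =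
        κ / ∏ i, (x - b (k i))) :
    ∀ x ∉ Set.range b, ∀ w ∈ rts R (cfg x b), DR R (cfg x b, w) (cfg 1 0) = 0 := by
  -- four points
  set β : Fin 4 → ℂ := fun i => b (Fin.castLE hm i) with hβdef
  have hβ : Function.Injective β := hb.comp (Fin.castLE_injective hm)
  have hβb : ∀ i, β i ∈ Set.range b := fun i => ⟨_, rfl⟩
  have hinj : ∀ x ∉ Set.range b, Function.Injective (cfg x b) := fun x hx => cfg_injective hb hx
  have hwb : ∀ x ∉ Set.range b, ∀ w ∈ rts R (cfg x b), ∀ i, w ≠ β i := by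
    intro x hx w hw i h
    obtain ⟨j, hj⟩ := hβb i
    have h1 := hav _ (hinj x hx) j.succ
    have h2 : cfg x b j.succ = b j := by unfold cfg; simp
    rw [h2, hj, ← h] at h1
    exact h1 hw
  have hxβ : ∀ x ∉ Set.range b, ∀ i, x ≠ β i := by
    intro x hx i h
    exact hx (h ▸ hβb i)
  -- the trace identity for `qa`
  have htrq : ∀ a : ℂ, ∀ x ∉ Set.range b,
      ∑ w ∈ rts R (cfg x b), qa β a w * DR R (cfg x b, w) (cfg 1 0) ^ 2 = κ * qa β a x := by
    intro a x hx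
    have hk1 : Function.Injective (fun i : Fin 3 => Fin.castLE hm (![0, 1, 2] i : Fin 4)) := by
      refine (Fin.castLE_injective hm).comp ?_
      decide
    have hk2 : Function.Injective (fun i : Fin 3 => Fin.castLE hm (![0, 1, 3] i : Fin 4)) := by
      refine (Fin.castLE_injective hm).comp ?_
      decide
    have t1 := htr _ hk1 x hx
    have t2 := htr _ hk2 x hx
    simp only [Fin.prod_univ_three, Matrix.cons_val_zero, Matrix.cons_val_one,
      Matrix.cons_val_two, Matrix.head_cons, Matrix.tail_cons] at t1 t2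
    have e1 : ∀ w ∈ rts R (cfg x b), qa β a w * DR R (cfg x b, w) (cfg 1 0) ^ 2 =
        (a - β 2) / (β 3 - β 2) * (DR R (cfg x b, w) (cfg 1 0) ^ 2 /
          ((w - β 0) * (w - β 1) * (w - β 2))) +
        (β 3 - a) / (β 3 - β 2) * (DR R (cfg x b, w) (cfg 1 0) ^ 2 /
          ((w - β 0) * (w - β 1) * (w - β 3))) := by
      intro w hw
      rw [qa_eq hβ a (hwb x hx w hw), div_eq_mul_inv (DR R (cfg x b, w) (cfg 1 0) ^ 2),
        div_eq_mul_inv (DR R (cfg x b, w) (cfg 1 0) ^ 2)]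
      ring
    rw [Finset.sum_congr rfl e1, Finset.sum_add_distrib, ← Finset.mul_sum, ← Finset.mul_sum]
    rw [hβdef] at *
    simp only at t1 t2 ⊢
    rw [t1, t2, ← hβdef]
    have := qa_eq hβ a (hxβ x hx)
    rw [this]
    simp only [div_eq_mul_inv]
    ring
  intro x hx w hw
  by_contra hD
  set D := DR R (cfg x b, w) (cfg 1 0) with hDdef
  have hwx : w ≠ x := by
    intro h
    have h1 := hav _ (hinj x hx) 0
    have h2 : cfg x b 0 = x := by unfold cfg; simp
    rw [h2] at h1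
    exact h1 (h ▸ hw)
  have hwx' : w - x ≠ 0 := sub_ne_zero.2 hwx
  have ray : ∀ a : ℂ, qa β a w * D ^ 2 * (‖(κ : ℂ) * qa β a x‖ : ℝ) =
      (‖qa β a w * D ^ 2‖ : ℝ) * ((κ : ℂ) * qa β a x) := by
    intro a
    have h1 := l1_equality hR hsep hav b hb κ hκ β hβ hβb a (htrq a) x hx
    rw [← htrq a x hx] at h1
    have h2 := ray_of_norm_sum_eq _ _ h1 w hw
    rw [htrq a x hx] at h2
    exact h2
  by_cases hκ0 : κ = 0
  · -- all terms vanish
    have h1 := l1_equality hR hsep hav b hb κ hκ β hβ hβb x (htrq x) x hx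
    rw [hκ0, Nat.cast_zero, zero_mul, norm_zero] at h1
    have h2 := (Finset.sum_eq_zero_iff_of_nonneg fun w _ => norm_nonneg _).1 h1 w hw
    rw [norm_eq_zero] at h2
    have h3 := qa_ne_zero (hwb x hx w hw) hwx
    exact (mul_ne_zero h3 (pow_ne_zero 2 hD)) h2
  have hκc : (κ : ℂ) ≠ 0 := Nat.cast_ne_zero.2 hκ0
  -- denominators
  have hd4w : (w - β 0) * (w - β 1) * (w - β 2) * (w - β 3) ≠ 0 := by
    have h0 := sub_ne_zero.2 (hwb x hx w hw 0)
    have h1 := sub_ne_zero.2 (hwb x hx w hw 1)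
    have h2 := sub_ne_zero.2 (hwb x hx w hw 2)
    have h3 := sub_ne_zero.2 (hwb x hx w hw 3)
    positivity
  have hd4x : (x - β 0) * (x - β 1) * (x - β 2) * (x - β 3) ≠ 0 := by
    have h0 := sub_ne_zero.2 (hxβ x hx 0)
    have h1 := sub_ne_zero.2 (hxβ x hx 1)
    have h2 := sub_ne_zero.2 (hxβ x hx 2)
    have h3 := sub_ne_zero.2 (hxβ x hx 3)
    positivity
  set P : ℂ := (w - β 0) * (w - β 1) * (w - β 2) * (w - β 3) with hP
  set Q : ℂ := (x - β 0) * (x - β 1) * (x - β 2) * (x - β 3) with hQ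
  set g : ℂ := D ^ 2 * Q / P with hg
  -- the abstract consequence of the ray identity
  have cons : ∀ a s : ℂ, x ≠ a → w - a = s * (x - a) → s * g = ((‖s * g‖ : ℝ) : ℂ) := by
    intro a s hxa hs
    have h1 := ray a
    have hq : qa β a x ≠ 0 := qa_ne_zero (hxβ x hx) hxa
    have h2 : qa β a w * D ^ 2 = (s * g) * qa β a x := by
      unfold qa
      rw [← hP, ← hQ, hs, hg]
      field_simp
    rw [h2, norm_mul (κ : ℂ) (qa β a x), norm_mul (s * g) (qa β a x)] at h1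
    have h3 : ((‖(κ : ℂ)‖ : ℝ) : ℂ) = κ := by simp
    have h4 : ((‖qa β a x‖ : ℝ) : ℂ) ≠ 0 := by
      rw [Complex.ofReal_ne_zero]
      exact norm_ne_zero_iff.2 hq
    push_cast at h1
    rw [show ((‖(κ : ℂ)‖ : ℝ) : ℂ) = κ from h3] at h1
    have h5 : (κ : ℂ) * qa β a x * ((‖qa β a x‖ : ℝ) : ℂ) ≠ 0 :=
      mul_ne_zero (mul_ne_zero hκc hq) h4
    apply mul_right_cancel₀ h5
    linear_combination h1
  have hI : Complex.I * Complex.I = -1 := Complex.I_mul_I
  have c1 := cons (Complex.I * w + (1 - Complex.I) * x) (1 + Complex.I)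
    (by
      intro h
      have : Complex.I * (w - x) = 0 := by linear_combination -h
      exact (mul_ne_zero Complex.I_ne_zero hwx') this)
    (by linear_combination (w - x) * hI)
  have c2 := cons (-Complex.I * w + (1 + Complex.I) * x) (1 - Complex.I)
    (by
      intro h
      have : Complex.I * (w - x) = 0 := by linear_combination h
      exact (mul_ne_zero Complex.I_ne_zero hwx') this)
    (by linear_combination (w - x) * hI)
  have h1 : ((‖(1 + Complex.I) * g‖ : ℝ) : ℂ) = Complex.I * ((‖(1 - Complex.I) * g‖ : ℝ) : ℂ) := by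
    rw [← c1, ← c2]
    linear_combination g * hI
  have h2 := congrArg Complex.re h1
  rw [Complex.ofReal_re, Complex.re_mul_ofReal, Complex.I_re, zero_mul] at h2
  rw [norm_eq_zero] at h2
  have h3 : (1 + Complex.I : ℂ) ≠ 0 := by
    intro h
    have := congrArg Complex.re h
    simp at this
  have hg0 : g = 0 := by
    rcases mul_eq_zero.1 h2 with h4 | h4
    · exact absurd h4 h3
    · exact h4
  rw [hg, div_eq_zero_iff] at hg0
  rcases hg0 with h4 | h4
  · exact (mul_ne_zero (pow_ne_zero 2 hD) hd4x) h4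
  · exact hd4w h4

end main

end Pool.Agent.Helper61.LinFinal
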