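import Pool.Agent.Helper57.NS.Base

/-!
Module NS-UPPER for `MP_8fc134_al`: a numerical semigroup gives an order ideal tile of `ℤ/m`,
and a presentation of size `|minNon B|`.
-/

namespace NS57

namespace Upper

/-- value of a monomial -/
def val {e : ℕ} (g : Fin e → ℕ) (M : Multiset (Fin e)) : ℕ := (M.map g).sum

/-- residue of a monomial -/
def res {e : ℕ} (m : ℕ) (g : Fin e → ℕ) (M : Multiset (Fin e)) : ZMod m :=
  (M.map fun i => (g i : ZMod m)).sum

theorem cast_val {e m : ℕ} (g : Fin e → ℕ) (M : Multiset (Fin e)) :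
    ((val g M : ℕ) : ZMod m) = res m g M := by
  unfold val res
  induction M using Multiset.induction_on with
  | empty => simp
  | cons a M ih => simp [ih]

theorem val_add {e : ℕ} (g : Fin e → ℕ) (M N : Multiset (Fin e)) :
    val g (M + N) = val g M + val g N := by
  simp [val]

theorem res_add {e m : ℕ} (g : Fin e → ℕ) (M N : Multiset (Fin e)) :
    res m g (M + N) = res m g M + res m g N := by
  simp [res]

/-- the ordering key -/
noncomputable def key {e : ℕ} (g : Fin e → ℕ) (M : Multiset (Fin e)) :
    ℕ ×ₗ Lex (Fin e →₀ ℕ) :=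
  toLex (val g M, toLex (Multiset.toFinsupp M))

theorem key_add {e : ℕ} (g : Fin e → ℕ) (M N : Multiset (Fin e)) :
    key g (M + N) = key g M + key g N := by
  unfold key
  rw [val_add, map_add]
  rfl

theorem key_inj {e : ℕ} (g : Fin e → ℕ) {M N : Multiset (Fin e)} (h : key g M = key g N) :
    M = N := by
  unfold key at h
  have h1 := toLex.injective h
  have h2 := (Prod.mk.inj h1).2
  exact Multiset.toFinsupp.injective (toLex.injective h2)

theorem val_le_of_key_le {e : ℕ} (g : Fin e → ℕ) {M N : Multiset (Fin e)}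
    (h : key g M ≤ key g N) : val g M ≤ val g N := by
  unfold key at h
  rw [Prod.Lex.toLex_le_toLex] at h
  rcases h with h | h
  · exact h.le
  · exact h.1.le

theorem key_lt_of_val_lt {e : ℕ} (g : Fin e → ℕ) {M N : Multiset (Fin e)}
    (h : val g M < val g N) : key g M < key g N := by
  unfold key
  rw [Prod.Lex.toLex_lt_toLex]
  exact Or.inl h

/-- existence of the least monomial in a residue class -/
theorem exists_beta {e m : ℕ} (g : Fin e → ℕ)
    (hsurj : ∀ c : ZMod m, ∃ M : Multiset (Fin e), res m g M = c) :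
    ∃ β : ZMod m → Multiset (Fin e), (∀ c, res m g (β c) = c) ∧
      ∀ c N, res m g N = c → key g (β c) ≤ key g N := by
  have : ∀ c : ZMod m, ∃ M : Multiset (Fin e), res m g M = c ∧
      ∀ N, res m g N = c → key g M ≤ key g N := by
    intro c
    have hne : {k | ∃ M : Multiset (Fin e), res m g M = c ∧ key g M = k}.Nonempty := by
      obtain ⟨M, hM⟩ := hsurj c
      exact ⟨_, M, hM, rfl⟩
    obtain ⟨M, hM, hk⟩ := WellFounded.min_mem
      (wellFounded_lt : WellFounded ((· < ·) : ℕ ×ₗ Lex (Fin e →₀ ℕ) → _ → Prop)) _ hne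
    refine ⟨M, hM, fun N hN => ?_⟩
    rw [hk]
    have hNmem : key g N ∈ {k | ∃ M : Multiset (Fin e), res m g M = c ∧ key g M = k} :=
      ⟨N, hN, rfl⟩
    exact not_lt.1 (WellFounded.not_lt_min _ _ hNmem)
  choose β h1 h2 using this
  exact ⟨β, h1, h2⟩

/-- a minimal generator dividing -/
theorem exists_minNon {e : ℕ} {B : Finset (Multiset (Fin e))} (h0 : 0 ∈ B)
    (M : Multiset (Fin e)) (hM : M ∉ B) : ∃ M1 ∈ minNon B, M1 ≤ M := by
  classical
  have hex : ∃ n, ∃ N : Multiset (Fin e), N ≤ M ∧ N ∉ B ∧ N.card = n := ⟨_, M, le_rfl, hM, rfl⟩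
  obtain ⟨N, hN, hNB, hcard⟩ := Nat.find_spec hex
  have hmin : ∀ N' : Multiset (Fin e), N' ≤ M → N'.card < N.card → N' ∈ B := by
    intro N' hN' hlt
    by_contra hcon
    rw [hcard] at hlt
    exact Nat.find_min hex hlt ⟨N', hN', hcon, rfl⟩
  refine ⟨N, ?_, hN⟩
  have herase : ∀ x ∈ N, N.erase x ∈ B := by
    intro x hx
    refine hmin _ ((Multiset.erase_le x N).trans hN) ?_
    exact Multiset.card_erase_lt_of_mem hx
  unfold minNon
  rw [Finset.mem_filter]
  refine ⟨?_, hNB, herase⟩
  have hN0 : N ≠ 0 := by
    rintro rfl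
    exact hNB h0
  obtain ⟨x, hx⟩ := Multiset.exists_mem_of_ne_zero hN0
  rw [Finset.mem_image]
  refine ⟨(x, N.erase x), ?_, Multiset.cons_erase hx⟩
  rw [Finset.mem_product]
  exact ⟨Finset.mem_univ _, herase x hx⟩

theorem phi_add (S : AddSubmonoid ℕ) (v w : minGens S →₀ ℕ) :
    phi S (v + w) = phi S v + phi S w := by
  unfold phi
  rw [Finsupp.sum_add_index']
  · simp
  · intro a b c
    ring

theorem phi_zero (S : AddSubmonoid ℕ) : phi S 0 = 0 := by
  simp [phi]

theorem phi_single (S : AddSubmonoid ℕ) (s : minGens S) (n : ℕ) :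
    phi S (Finsupp.single s n) = n * (s : ℕ) := by
  simp [phi]

/-- `phi` as a homomorphism -/
noncomputable def phiHom (S : AddSubmonoid ℕ) : (minGens S →₀ ℕ) →+ ℕ where
  toFun := phi S
  map_zero' := phi_zero S
  map_add' := phi_add S

/-- the monomial in `W` -/
noncomputable def X {e : ℕ} (S : AddSubmonoid ℕ) (g : Fin e → minGens S)
    (M : Multiset (Fin e)) : minGens S →₀ ℕ :=
  (M.map fun i => Finsupp.single (g i) 1).sum

theorem X_add {e : ℕ} (S : AddSubmonoid ℕ) (g : Fin e → minGens S) (M N : Multiset (Fin e)) :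
    X S g (M + N) = X S g M + X S g N := by
  simp [X]

theorem phi_X {e : ℕ} (S : AddSubmonoid ℕ) (g : Fin e → minGens S) (M : Multiset (Fin e)) :
    phi S (X S g M) = val (fun i => (g i : ℕ)) M := by
  unfold X val
  induction M using Multiset.induction_on with
  | empty => simp [phi_zero]
  | cons a M ih =>
    rw [Multiset.map_cons, Multiset.sum_cons, Multiset.map_cons, Multiset.sum_cons, phi_add, ih,
      phi_single]
    simp

theorem phi_nsmul (S : AddSubmonoid ℕ) (k : ℕ) (w : minGens S →₀ ℕ) :
    phi S (k • w) = k * phi S w := by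
  have := map_nsmul (phiHom S) k w
  simpa [phiHom] using this

end Upper

open Upper in
theorem exists_tile (S : AddSubmonoid ℕ) (hS : (S : Set ℕ)ᶜ.Finite) {e m : ℕ}
    (hcard : (minGens S).ncard = e + 1) (hm : IsLeast {x | x ∈ S ∧ x ≠ 0} m) :
    ∃ (B : Finset (Multiset (Fin e))) (a : Fin e → ZMod m), Tile e m B a ∧
      ∃ R, Presents S R ∧ R.card ≤ (minNon B).card := by
  classical
  obtain ⟨⟨hmS, hm0⟩, hmle⟩ := hm
  have hmle' : ∀ x ∈ S, x ≠ 0 → m ≤ x := fun x hx hx0 => hmle ⟨hx, hx0⟩
  have hmpos : 0 < m := Nat.pos_of_ne_zero hm0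
  have hmgen : m ∈ minGens S := by
    refine ⟨hmS, hm0, fun a ha b hb hab => ?_⟩
    by_contra hcon
    push Not at hcon
    have h1 := hmle' a ha hcon.1
    have h2 := hmle' b hb hcon.2
    omega
  have hfin : (minGens S).Finite := Set.finite_of_ncard_ne_zero (by omega)
  -- enumeration of the other generators
  obtain ⟨g, hginj, hgrange⟩ : ∃ g : Fin e → ℕ, Function.Injective g ∧
      Set.range g = minGens S \ {m} := by
    have hfin' : (minGens S \ {m}).Finite := hfin.subset Set.sdiff_subset
    have hc : hfin'.toFinset.card = e := by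
      rw [← Set.ncard_eq_toFinset_card _ hfin', Set.ncard_sdiff_singleton_of_mem hmgen, hcard]
      rfl
    refine ⟨hfin'.toFinset.orderEmbOfFin hc, (hfin'.toFinset.orderEmbOfFin hc).injective, ?_⟩
    rw [Finset.range_orderEmbOfFin]
    simp
  have hg : ∀ i, g i ∈ minGens S ∧ g i ≠ m := by
    intro i
    have : g i ∈ minGens S \ {m} := hgrange ▸ Set.mem_range_self i
    exact this
  have hgS : ∀ i, g i ∈ S := fun i => (hg i).1.1
  have hg0 : ∀ i, g i ≠ 0 := fun i => (hg i).1.2.1
  have hgen : ∀ s ∈ minGens S, s = m ∨ ∃ i, g i = s := by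
    intro s hs
    by_cases h : s = m
    · exact Or.inl h
    · right
      have : s ∈ minGens S \ {m} := ⟨hs, h⟩
      rw [← hgrange] at this
      exact this
  have hvalS : ∀ M : Multiset (Fin e), val g M ∈ S := by
    intro M
    unfold val
    exact S.multiset_sum_mem _ (by
      intro x hx
      rw [Multiset.mem_map] at hx
      obtain ⟨i, -, rfl⟩ := hx
      exact hgS i)
  have hval0 : ∀ M : Multiset (Fin e), val g M = 0 → M = 0 := by
    intro M
    induction M using Multiset.induction_on with
    | empty => intro; rfl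
    | cons a M ih =>
      intro h
      simp only [val, Multiset.map_cons, Multiset.sum_cons] at h
      have := hg0 a
      omega
  -- sums of generators
  have hsum : ∀ x : ℕ, x ∈ S → ∃ (a : ℕ) (M : Multiset (Fin e)), x = a * m + val g M := by
    intro x
    induction x using Nat.strong_induction_on with
    | _ x ih =>
      intro hx
      by_cases h0 : x = 0
      · exact ⟨0, 0, by simp [h0, val]⟩
      by_cases hmin : x ∈ minGens S
      · rcases hgen x hmin with h | ⟨i, hi⟩
        · exact ⟨1, 0, by simp [h, val]⟩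
        · exact ⟨0, {i}, by simp [val, hi]⟩
      · have : ∃ a ∈ S, ∃ b ∈ S, a + b = x ∧ a ≠ 0 ∧ b ≠ 0 := by
          by_contra hcon
          push Not at hcon
          refine hmin ⟨hx, h0, fun a ha b hb hab => ?_⟩
          by_cases ha0 : a = 0
          · exact Or.inl ha0
          · exact Or.inr (hcon a ha b hb hab ha0)
        obtain ⟨a, ha, b, hb, hab, ha0, hb0⟩ := this
        obtain ⟨a1, M1, h1⟩ := ih a (by omega) ha
        obtain ⟨a2, M2, h2⟩ := ih b (by omega) hb
        refine ⟨a1 + a2, M1 + M2, ?_⟩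
        rw [val_add, ← hab, h1, h2]
        ring
  -- surjectivity onto residues
  have : NeZero m := ⟨hm0⟩
  have hsurj : ∀ c : ZMod m, ∃ M : Multiset (Fin e), res m g M = c := by
    intro c
    obtain ⟨n, hn⟩ := hS.bddAbove
    have hx : c.val + (n + 1) * m ∈ S := by
      by_contra hcon
      have h1 := hn hcon
      have h2 : n + 1 ≤ (n + 1) * m := Nat.le_mul_of_pos_right _ hmpos
      omega
    obtain ⟨a, M, hM⟩ := hsum _ hx
    refine ⟨M, ?_⟩
    have := congrArg (fun t : ℕ => (t : ZMod m)) hM
    simp only [Nat.cast_add, Nat.cast_mul, CharP.cast_eq_zero, mul_zero, add_zero, zero_add,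
      ZMod.natCast_val, ZMod.cast_id', id_eq] at this
    rw [this, cast_val]
  obtain ⟨β, hβ, hβmin⟩ := exists_beta g hsurj
  have hβinj : Function.Injective β := by
    intro c d hcd
    rw [← hβ c, ← hβ d, hcd]
  set B : Finset (Multiset (Fin e)) := Finset.univ.image β with hB
  have hmemB : ∀ M, M ∈ B ↔ β (res m g M) = M := by
    intro M
    rw [hB, Finset.mem_image]
    constructor
    · rintro ⟨c, -, rfl⟩
      rw [hβ]
    · intro h
      exact ⟨_, Finset.mem_univ _, h⟩
  have hmemB' : ∀ M, (∀ N, res m g N = res m g M → key g M ≤ key g N) → M ∈ B := by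
    intro M h
    rw [hmemB]
    exact key_inj g (le_antisymm (hβmin _ _ rfl) (h _ (hβ _)))
  have hBmin : ∀ M ∈ B, ∀ N, res m g N = res m g M → key g M ≤ key g N := by
    intro M hM N hN
    have h1 := hβmin _ _ hN
    rw [(hmemB M).1 hM] at h1
    exact h1
  have hB0 : (0 : Multiset (Fin e)) ∈ B := by
    apply hmemB'
    intro N _
    by_cases h : val g N = 0
    · rw [hval0 N h]
    · refine (key_lt_of_val_lt g ?_).le
      have : val g 0 = 0 := by simp [val]
      omega
  have hdown : ∀ M ∈ B, ∀ N ≤ M, N ∈ B := by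
    intro M hM N hN
    obtain ⟨P, rfl⟩ := Multiset.le_iff_exists_add.1 hN
    apply hmemB'
    intro N' hN'
    have h1 := hBmin _ hM (N' + P) (by rw [res_add, res_add, hN'])
    rw [key_add, key_add] at h1
    exact le_of_add_le_add_right h1
  have hone : ∀ i, ({i} : Multiset (Fin e)) ∈ B := by
    intro i
    apply hmemB'
    intro N hN
    have hvi : val g {i} = g i := by simp [val]
    by_cases hlt : val g {i} < val g N
    · exact (key_lt_of_val_lt g hlt).le
    push Not at hlt
    have hmod : val g N ≡ val g {i} [MOD m] := by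
      rw [← ZMod.natCast_eq_natCast_iff, cast_val, cast_val, hN]
    obtain ⟨k, hk⟩ := (Nat.modEq_iff_dvd' hlt).1 hmod
    have hk' : val g N + m * k = g i := by omega
    have hkS : m * k ∈ S := by
      have := S.nsmul_mem hmS k
      rwa [smul_eq_mul, mul_comm] at this
    rcases (hg i).1.2.2 _ (hvalS N) _ hkS hk' with h | h
    · exfalso
      rw [h, zero_add] at hk'
      rcases Nat.eq_zero_or_pos k with hk0 | hk0
      · rw [hk0, mul_zero] at hk'
        exact hg0 i hk'.symm
      · obtain ⟨k', rfl⟩ : ∃ k', k = k' + 1 := ⟨k - 1, by omega⟩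
        have h3 : m + m * k' = g i := by rw [← hk']; ring
        have hkS' : m * k' ∈ S := by
          have := S.nsmul_mem hmS k'
          rwa [smul_eq_mul, mul_comm] at this
        rcases (hg i).1.2.2 _ hmS _ hkS' h3 with h4 | h4
        · exact hm0 h4
        · rw [h4, add_zero] at h3
          exact (hg i).2 h3.symm
    · rw [h, add_zero] at hk'
      have hN0 : N ≠ 0 := by
        rintro rfl
        exact hg0 i (by rw [← hk']; simp [val])
      obtain ⟨j, hj⟩ := Multiset.exists_mem_of_ne_zero hN0
      obtain ⟨N', rfl⟩ := Multiset.exists_cons_of_mem hj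
      have h5 : g j + val g N' = g i := by
        rw [← hk']; simp [val]
      rcases (hg i).1.2.2 _ (hgS j) _ (hvalS N') h5 with h6 | h6
      · exact absurd h6 (hg0 j)
      · have h7 := hval0 N' h6
        subst h7
        rw [h6, add_zero] at h5
        have := hginj h5
        subst this
        rfl
  have hBcard : B.card = m := by
    rw [hB, Finset.card_image_of_injective _ hβinj, Finset.card_univ, ZMod.card]
  refine ⟨B, fun i => (g i : ZMod m), ⟨hdown, hB0, hone, hBcard, ?_⟩, ?_⟩
  · intro M hM N hN h
    have h' : res m g M = res m g N := h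
    exact key_inj g (le_antisymm (hBmin M hM N h'.symm) (hBmin N hN M h'))
  -- the presentation
  let g' : Fin e → minGens S := fun i => ⟨g i, (hg i).1⟩
  let c : minGens S →₀ ℕ := Finsupp.single ⟨m, hmgen⟩ 1
  have hphic : phi S c = m := by
    simp only [c, phi_single, one_mul]
  have hphiX : ∀ M, phi S (X S g' M) = val g M := fun M => phi_X S g' M
  have hkk : ∀ M : Multiset (Fin e), ∃ k, val g M = k * m + val g (β (res m g M)) := by
    intro M
    have hle := val_le_of_key_le g (hβmin _ M rfl)
    have hmod : val g (β (res m g M)) ≡ val g M [MOD m] := by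
      rw [← ZMod.natCast_eq_natCast_iff, cast_val, cast_val, hβ]
    obtain ⟨k, hk⟩ := (Nat.modEq_iff_dvd' hle).1 hmod
    refine ⟨k, ?_⟩
    rw [mul_comm]
    omega
  choose k hk using hkk
  let R : Finset ((minGens S →₀ ℕ) × (minGens S →₀ ℕ)) :=
    (minNon B).image fun M => (X S g' M, k M • c + X S g' (β (res m g M)))
  refine ⟨R, ?_, Finset.card_image_le⟩
  -- normal forms
  have hgenrel : ∀ M ∈ minNon B, addConGen (fun x y => (x, y) ∈ R) (X S g' M)
      (k M • c + X S g' (β (res m g M))) := by
    intro M hM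
    apply AddConGen.Rel.of
    exact Finset.mem_image_of_mem _ hM
  have hnf : ∀ M : Multiset (Fin e), ∃ k : ℕ, addConGen (fun x y => (x, y) ∈ R) (X S g' M)
      (k • c + X S g' (β (res m g M))) := by
    have key_wf : WellFounded fun M N : Multiset (Fin e) => key g M < key g N :=
      InvImage.wf (key g) wellFounded_lt
    intro M
    induction M using key_wf.induction with
    | _ M ih =>
      by_cases hMB : M ∈ B
      · refine ⟨0, ?_⟩
        rw [(hmemB M).1 hMB, zero_smul, zero_add]
        exact AddCon.refl _ _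
      · obtain ⟨M1, hM1, hle⟩ := exists_minNon hB0 M hMB
        obtain ⟨N, rfl⟩ := Multiset.le_iff_exists_add.1 hle
        have hM1B : M1 ∉ B := by
          unfold minNon at hM1
          exact (Finset.mem_filter.1 hM1).2.1
        have hlt : key g (β (res m g M1)) < key g M1 := by
          refine lt_of_le_of_ne (hβmin _ _ rfl) ?_
          intro h
          exact hM1B ((hmemB M1).2 (key_inj g h))
        have hlt2 : key g (β (res m g M1) + N) < key g (M1 + N) := by
          rw [key_add, key_add]
          exact add_lt_add_left hlt _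
        obtain ⟨k2, hk2⟩ := ih _ hlt2
        have hres : res m g (β (res m g M1) + N) = res m g (M1 + N) := by
          rw [res_add, res_add, hβ]
        rw [hres] at hk2
        refine ⟨k M1 + k2, ?_⟩
        have h1 : addConGen (fun x y => (x, y) ∈ R) (X S g' (M1 + N))
            (k M1 • c + X S g' (β (res m g M1) + N)) := by
          rw [X_add, X_add, ← add_assoc]
          exact AddCon.add _ (hgenrel M1 hM1) (AddCon.refl _ _)
        have h2 : addConGen (fun x y => (x, y) ∈ R)
            (k M1 • c + X S g' (β (res m g M1) + N))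
            (k M1 • c + (k2 • c + X S g' (β (res m g (M1 + N))))) :=
          AddCon.add _ (AddCon.refl _ _) hk2
        have h3 := AddCon.trans _ h1 h2
        rwa [← add_assoc, ← add_smul] at h3
  have hW : ∀ w : minGens S →₀ ℕ, ∃ (a : ℕ) (M : Multiset (Fin e)), w = a • c + X S g' M := by
    intro w
    induction w using Finsupp.induction_linear with
    | zero => exact ⟨0, 0, by simp [X]⟩
    | add v w hv hw =>
      obtain ⟨a1, M1, h1⟩ := hv
      obtain ⟨a2, M2, h2⟩ := hw
      refine ⟨a1 + a2, M1 + M2, ?_⟩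
      rw [h1, h2, X_add, add_smul]
      abel
    | single s n =>
      rcases hgen s s.2 with h | ⟨i, hi⟩
      · refine ⟨n, 0, ?_⟩
        have : s = ⟨m, hmgen⟩ := Subtype.ext h
        rw [this]
        simp [X, c]
      · refine ⟨0, Multiset.replicate n i, ?_⟩
        have : s = g' i := Subtype.ext hi.symm
        rw [this]
        simp [X]
  intro a b
  constructor
  · intro h
    have h1 : addConGen (fun x y => (x, y) ∈ R) ≤ AddCon.ker (phiHom S) := by
      rw [AddCon.addConGen_le]
      intro x y hxy
      have hxy' : (x, y) ∈ R := hxy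
      rw [Finset.mem_image] at hxy'
      obtain ⟨M, -, hM⟩ := hxy'
      obtain ⟨rfl, rfl⟩ := Prod.mk.inj hM
      change phi S _ = phi S _
      rw [phi_add, phi_nsmul, hphiX, hphiX, hphic, ← hk]
    exact h1 h
  · intro h
    obtain ⟨a1, M, rfl⟩ := hW a
    obtain ⟨b1, N, rfl⟩ := hW b
    obtain ⟨k1, hk1⟩ := hnf M
    obtain ⟨k2, hk2⟩ := hnf N
    have ha : addConGen (fun x y => (x, y) ∈ R) (a1 • c + X S g' M)
        ((a1 + k1) • c + X S g' (β (res m g M))) := by
      rw [add_smul, add_assoc]
      exact AddCon.add _ (AddCon.refl _ _) hk1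
    have hb : addConGen (fun x y => (x, y) ∈ R) (b1 • c + X S g' N)
        ((b1 + k2) • c + X S g' (β (res m g N))) := by
      rw [add_smul, add_assoc]
      exact AddCon.add _ (AddCon.refl _ _) hk2
    have hres : res m g M = res m g N := by
      have h1 := congrArg (fun t : ℕ => (t : ZMod m)) h
      simp only [phi_add, phi_nsmul, hphiX, hphic, Nat.cast_add, Nat.cast_mul,
        CharP.cast_eq_zero, mul_zero, zero_add, cast_val] at h1
      exact h1
    have hsound : ∀ x y, addConGen (fun x y => (x, y) ∈ R) x y → phi S x = phi S y := by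
      intro x y hxy
      have h1 : addConGen (fun x y => (x, y) ∈ R) ≤ AddCon.ker (phiHom S) := by
        rw [AddCon.addConGen_le]
        intro x y hxy
        have hxy' : (x, y) ∈ R := hxy
        rw [Finset.mem_image] at hxy'
        obtain ⟨M, -, hM⟩ := hxy'
        obtain ⟨rfl, rfl⟩ := Prod.mk.inj hM
        change phi S _ = phi S _
        rw [phi_add, phi_nsmul, hphiX, hphiX, hphic, ← hk]
      exact h1 hxy
    have h1 := hsound _ _ ha
    have h2 := hsound _ _ hb
    have h3 : phi S ((a1 + k1) • c + X S g' (β (res m g M))) =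
        phi S ((b1 + k2) • c + X S g' (β (res m g N))) := by
      rw [← h1, ← h2, h]
    rw [hres, phi_add, phi_add, phi_nsmul, phi_nsmul, hphiX, hphic] at h3
    have h4 : (a1 + k1) * m = (b1 + k2) * m := by omega
    have h5 := Nat.eq_of_mul_eq_mul_right hmpos h4
    rw [hres, h5] at ha
    exact AddCon.trans _ ha (AddCon.symm _ hb)

end NS57
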