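import Pool.Agent.Helper61.TriArea

/-!
# Directions of tile edges and the weighted sum of signed edge lengths
-/

set_option autoImplicit false

open MeasureTheory Set Filter Topology ComplexConjugate

namespace Pool.Agent.Helper61.BeesonDir

open Pool.Agent.Helper61.TriArea

/-- rotated version of the additivity of the signed edge lengths -/
theorem Phi_additive_rot {ι : Type*} [Fintype ι] (x y z : ι → ℂ) (X Y Z : ℂ)
    (hU : ⋃ i, tri (x i) (y i) (z i) = tri X Y Z)
    (hd : Pairwise fun i k => Disjoint (interior (tri (x i) (y i) (z i)))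
      (interior (tri (x k) (y k) (z k)))) (e : ℂ) (he : e ≠ 0) :
    Phi (e * X) (e * Y) (e * Z) = ∑ i, Phi (e * x i) (e * y i) (e * z i) := by
  have himg : ∀ p q r : ℂ, tri (e * p) (e * q) (e * r) = (Homeomorph.mulLeft₀ e he) '' tri p q r := by
    intro p q r
    have := tri_image p q r (LinearMap.mulLeft ℝ e)
    simpa using this
  apply Phi_additive
  · simp only [himg]
    rw [← Set.image_iUnion, hU]
  · intro i k hik
    show Disjoint (interior (tri (e * x i) (e * y i) (e * z i)))
      (interior (tri (e * x k) (e * y k) (e * z k)))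
    rw [himg, himg, ← Homeomorph.image_interior, ← Homeomorph.image_interior]
    exact (Set.disjoint_image_iff (Homeomorph.mulLeft₀ e he).injective).mpr (hd hik)

/-- A root of unity `u` with `u + u⁻¹` rational has `u + u⁻¹` an integer. -/
theorem int_of_root {u : ℂ} {m : ℕ} (hm : 0 < m) (hu : u ^ m = 1) (q : ℚ)
    (hq : u + u⁻¹ = (q : ℂ)) : ∃ n : ℤ, q = n := by
  have h1 : IsIntegral ℤ u := by
    refine IsIntegral.of_pow hm ?_
    rw [hu]
    exact isIntegral_one
  have h2 : IsIntegral ℤ u⁻¹ := by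
    refine IsIntegral.of_pow hm ?_
    rw [inv_pow, hu, inv_one]
    exact isIntegral_one
  have h3 : IsIntegral ℤ (u + u⁻¹) := h1.add h2
  rw [hq] at h3
  have h4 : IsIntegral ℤ q := by
    have : IsIntegral ℤ (algebraMap ℚ ℂ q) := by simpa using h3
    exact (isIntegral_algebraMap_iff (algebraMap ℚ ℂ).injective).mp this
  obtain ⟨n, hn⟩ := IsIntegrallyClosed.isIntegral_iff.mp h4
  exact ⟨n, by rw [← hn]; simp⟩

/-- `1` at `1`, `-1` at `-1`, `0` elsewhere -/
noncomputable def chi (e : ℂ) : ℤ := by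
  classical
  exact if e = 1 then 1 else if e = -1 then -1 else 0

theorem chi_one : chi 1 = 1 := by
  unfold chi
  simp

theorem chi_neg_one : chi (-1) = -1 := by
  unfold chi
  have h : (-1 : ℂ) ≠ 1 := by norm_num
  rw [if_neg h, if_pos rfl]

theorem chi_of_ne {e : ℂ} (h1 : e ≠ 1) (h2 : e ≠ -1) : chi e = 0 := by
  unfold chi
  rw [if_neg h1, if_neg h2]

theorem chi_neg (e : ℂ) : chi (-e) = -chi e := by
  by_cases h1 : e = 1
  · rw [h1, chi_one, chi_neg_one]
  · by_cases h2 : e = -1
    · rw [h2, neg_neg, chi_one, chi_neg_one]; rfl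
    · rw [chi_of_ne h1 h2, chi_of_ne]
      · rfl
      · intro h; exact h2 (by rw [← h, neg_neg])
      · intro h; exact h1 (neg_injective h)

theorem eq_pm_one_of_im {e : ℂ} (he : ‖e‖ = 1) (him : e.im = 0) : e = 1 ∨ e = -1 := by
  have h1 : e.re ^ 2 = 1 := by
    have h2 : Complex.normSq e = 1 := by rw [Complex.normSq_eq_norm_sq, he]; norm_num
    rw [Complex.normSq_apply, him] at h2
    nlinarith
  rcases (by rcases mul_eq_zero.mp (show (e.re - 1) * (e.re + 1) = 0 by linear_combination h1) with h | h <;> [left; right] <;> linarith : e.re = 1 ∨ e.re = -1) with h | h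
  · left; exact Complex.ext (by simpa using h) (by simpa using him)
  · right; exact Complex.ext (by simpa using h) (by simpa using him)

theorem flat_eq (p q r e g : ℂ) (L : ℝ) (hL : 0 < L) (he : ‖e‖ = 1) (h1 : q - p = L * e)
    (h2 : r - p = g * e) :
    flat p q r = (SignType.sign g.im : ℝ) * L * (chi e : ℝ) := by
  have hq : q.im = p.im + L * e.im := by
    have := congrArg Complex.im h1
    simp at this
    linarith
  have hqr : (q - p).re = L * e.re := by
    have := congrArg Complex.re h1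
    simpa using this
  unfold flat
  by_cases him : e.im = 0
  · rw [if_pos (by rw [hq, him]; ring), hqr]
    rcases eq_pm_one_of_im he him with rfl | rfl
    · rw [chi_one]
      have h3 : r.im - p.im = g.im := by
        have := congrArg Complex.im h2
        simpa using this
      rw [h3, Complex.one_re, mul_one, abs_of_pos hL]
      simp
    · rw [chi_neg_one]
      have h3 : r.im - p.im = -g.im := by
        have := congrArg Complex.im h2
        simpa using this
      rw [h3, Left.sign_neg]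
      simp [abs_of_pos hL]
  · rw [if_neg, chi_of_ne]
    · simp
    · rintro rfl; exact him rfl
    · rintro rfl; exact him (by simp)
    · rw [hq]
      intro h
      have : L * e.im = 0 := by linarith
      rcases mul_eq_zero.mp this with h' | h'
      · exact hL.ne' h'
      · exact him h'

/-- the signed horizontal edge length of a triangle in terms of edge directions -/
theorem Phi_eq (p q r v y U : ℂ) (a b c s : ℝ) (ha : 0 < a) (hb : 0 < b) (hc : 0 < c)
    (hv : ‖v‖ = 1) (hy : ‖y‖ = 1) (hU : ‖U‖ = 1) (h1 : q - p = a * v) (h2 : r - q = b * y * v)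
    (h3 : c * U = a + b * y) (hs : (SignType.sign y.im : ℝ) = s) :
    Phi p q r = s * (a * chi v + b * chi (y * v) - c * chi (U * v)) := by
  have hyv : ‖y * v‖ = 1 := by rw [norm_mul, hy, hv, one_mul]
  have hUv : ‖-(U * v)‖ = 1 := by rw [norm_neg, norm_mul, hU, hv, one_mul]
  have hyy : y * conj y = 1 := by rw [Complex.mul_conj, Complex.normSq_eq_norm_sq, hy]; simp
  have hUU : U * conj U = 1 := by rw [Complex.mul_conj, Complex.normSq_eq_norm_sq, hU]; simp
  have e1 : flat p q r = s * a * chi v := by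
    rw [flat_eq p q r v (a + b * y) a ha hv h1 (by linear_combination h1 + h2)]
    have : (a + b * y : ℂ).im = b * y.im := by simp
    rw [this, sign_mul, sign_pos hb, one_mul, hs]
  have e2 : flat q r p = s * b * chi (y * v) := by
    rw [flat_eq q r p (y * v) (-a * conj y) b hb hyv (by linear_combination h2)
      (by linear_combination (-1 : ℂ) * h1 + (a * v) * hyy)]
    have : (-a * conj y : ℂ).im = a * y.im := by simp
    rw [this, sign_mul, sign_pos ha, one_mul, hs]
  have e3 : flat r p q = s * c * chi (-(U * v)) := by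
    rw [flat_eq r p q (-(U * v)) (b * y * conj U) c hc hUv
      (by linear_combination (-1 : ℂ) * h1 - h2 + v * h3) 
      (by linear_combination (-1 : ℂ) * h2 + (b * y * v) * hUU)]
    have hcU : (c : ℂ) * (b * y * conj U) = (a * b : ℝ) * y + (b * b : ℝ) := by
      have : (c : ℂ) * conj U = a + b * conj y := by
        have := congrArg conj h3
        simpa using this
      push_cast
      linear_combination (b * y) * this + (b * b : ℂ) * hyy
    have him : c * (b * y * conj U).im = a * b * y.im := by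
      have := congrArg Complex.im hcU
      simpa using this
    have hsign : SignType.sign (b * y * conj U).im = SignType.sign y.im := by
      have h4 := congrArg SignType.sign him
      rw [sign_mul, sign_pos hc, one_mul, sign_mul, sign_mul, sign_pos ha, sign_pos hb] at h4
      simpa using h4
    rw [hsign, hs]
  unfold Phi
  rw [e1, e2, e3, chi_neg]
  push_cast
  ring

/-- the weight of the direction `u ^ k` -/
def wt (a c : ℕ) (k : ℤ) : ℤ := if Even k then c else a

theorem wt_step (a b c : ℕ) (h : c ^ 2 = a ^ 2 + b ^ 2 + a * b) (j τ : ℤ) (hτ : τ = 1 ∨ τ = -1) :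
    (b : ℤ) ∣ a * wt a c j - c * wt a c (j + τ) := by
  have hpar : Even (j + τ) ↔ ¬ Even j := by
    rcases hτ with rfl | rfl
    · exact Int.even_add_one
    · rw [← sub_eq_add_neg, Int.even_sub_one]
  unfold wt
  by_cases hj : Even j
  · rw [if_pos hj, if_neg (by rw [hpar]; exact not_not.mpr hj)]
    exact ⟨0, by ring⟩
  · rw [if_neg hj, if_pos (hpar.mpr hj)]
    have h' : (c : ℤ) ^ 2 = a ^ 2 + b ^ 2 + a * b := by exact_mod_cast h
    exact ⟨-(a + b), by linear_combination (-1 : ℤ) * h'⟩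

section weights

variable {u : ℂ} (hu0 : u ≠ 0) (hroot : ∀ m : ℤ, m ≠ 0 → u ^ m ≠ 1 ∧ u ^ m ≠ -1)

include hu0 hroot

theorem sum_wt_of_eq (K : Finset ℤ) (w : ℤ → ℤ) (g : ℂ) (σ : ℤ) (j : ℤ) (hj : j ∈ K)
    (hσ : σ = 1 ∨ σ = -1) (hg : g = σ * u ^ j) :
    ∑ k ∈ K, w k * chi (g * u ^ (-k)) = σ * w j := by
  have hterm : ∀ k ∈ K, w k * chi (g * u ^ (-k)) = if k = j then σ * w j else 0 := by
    intro k _
    have h1 : g * u ^ (-k) = σ * u ^ (j - k) := by
      rw [hg, mul_assoc, ← zpow_add₀ hu0, ← sub_eq_add_neg]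
    rw [h1]
    by_cases hk : k = j
    · subst hk
      rw [if_pos rfl, sub_self, zpow_zero, mul_one]
      rcases hσ with rfl | rfl
      · push_cast; rw [chi_one]; ring
      · push_cast; rw [chi_neg_one]; ring
    · rw [if_neg hk]
      have h2 := hroot (j - k) (sub_ne_zero.mpr (Ne.symm hk))
      rw [chi_of_ne, mul_zero]
      · rcases hσ with rfl | rfl
        · push_cast; rw [one_mul]; exact h2.1
        · push_cast
          intro h
          exact h2.2 (by linear_combination (-1 : ℂ) * h)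
      · rcases hσ with rfl | rfl
        · push_cast; rw [one_mul]; exact h2.2
        · push_cast
          intro h
          exact h2.1 (by linear_combination (-1 : ℂ) * h)
  rw [Finset.sum_congr rfl hterm, Finset.sum_ite_eq' K j, if_pos hj]

omit hu0 hroot in
theorem sum_wt_of_ne (K : Finset ℤ) (w : ℤ → ℤ) (g : ℂ) (hu0 : u ≠ 0)
    (hg : ∀ j : ℤ, g ≠ u ^ j ∧ g ≠ -u ^ j) :
    ∑ k ∈ K, w k * chi (g * u ^ (-k)) = 0 := by
  apply Finset.sum_eq_zero
  intro k _
  have hk : u ^ k ≠ 0 := zpow_ne_zero k hu0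
  rw [chi_of_ne, mul_zero]
  · intro h
    apply (hg k).1
    rw [zpow_neg] at h
    field_simp at h
    exact h
  · intro h
    apply (hg k).2
    rw [zpow_neg] at h
    field_simp at h
    exact h

/-- Each tile contributes a multiple of `b`. -/
theorem tile_sum (a b c : ℕ) (h : c ^ 2 = a ^ 2 + b ^ 2 + a * b) (g : ℂ) (τ : ℤ)
    (hτ : τ = 1 ∨ τ = -1) (N : ℤ) (hN : ∀ j : ℤ, (g = u ^ j ∨ g = -u ^ j) → |j| + 1 ≤ N) :
    (b : ℤ) ∣ a * (∑ k ∈ Finset.Icc (-N) N, wt a c k * chi (g * u ^ (-k))) -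
      c * (∑ k ∈ Finset.Icc (-N) N, wt a c k * chi (u ^ τ * g * u ^ (-k))) := by
  by_cases hg : ∃ j : ℤ, g = u ^ j ∨ g = -u ^ j
  · obtain ⟨j, hj⟩ := hg
    have hjN := hN j hj
    have hj1 : j ∈ Finset.Icc (-N) N := by
      rw [Finset.mem_Icc]
      exact abs_le.mp (by linarith)
    have hj2 : j + τ ∈ Finset.Icc (-N) N := by
      rw [Finset.mem_Icc]
      apply abs_le.mp
      have : |τ| = 1 := by rcases hτ with rfl | rfl <;> simp
      have := abs_add_le j τ
      linarith
    obtain ⟨σ, hσ, hgσ⟩ : ∃ σ : ℤ, (σ = 1 ∨ σ = -1) ∧ g = σ * u ^ j := by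
      rcases hj with hj | hj
      · exact ⟨1, Or.inl rfl, by rw [hj]; push_cast; ring⟩
      · exact ⟨-1, Or.inr rfl, by rw [hj]; push_cast; ring⟩
    have hgσ' : u ^ τ * g = σ * u ^ (j + τ) := by
      rw [hgσ, zpow_add₀ hu0]; ring
    rw [sum_wt_of_eq hu0 hroot _ _ g σ j hj1 hσ hgσ,
      sum_wt_of_eq hu0 hroot _ _ (u ^ τ * g) σ (j + τ) hj2 hσ hgσ']
    have := wt_step a b c h j τ hτ
    have h2 : (a : ℤ) * (σ * wt a c j) - c * (σ * wt a c (j + τ)) =
        σ * (a * wt a c j - c * wt a c (j + τ)) := by ring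
    rw [h2]
    exact Dvd.dvd.mul_left this σ
  · push Not at hg
    have hg' : ∀ j : ℤ, u ^ τ * g ≠ u ^ j ∧ u ^ τ * g ≠ -u ^ j := by
      intro j
      have hτ0 : u ^ τ ≠ 0 := zpow_ne_zero τ hu0
      have hz : u ^ j = u ^ τ * u ^ (j - τ) := by
        rw [← zpow_add₀ hu0]; congr 1; ring
      constructor
      · intro h'
        apply (hg (j - τ)).1
        rw [hz] at h'
        exact mul_left_cancel₀ hτ0 h'
      · intro h'
        apply (hg (j - τ)).2
        rw [hz, ← mul_neg] at h'
        exact mul_left_cancel₀ hτ0 h'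
    rw [sum_wt_of_ne _ _ g hu0 hg, sum_wt_of_ne _ _ (u ^ τ * g) hu0 hg']
    simp

/-- there is a bound for the exponents -/
theorem exists_bound (g : ℂ) : ∃ N : ℤ, 0 ≤ N ∧ ∀ j : ℤ, (g = u ^ j ∨ g = -u ^ j) → |j| + 1 ≤ N := by
  by_cases hg : ∃ j : ℤ, g = u ^ j ∨ g = -u ^ j
  · obtain ⟨j, hj⟩ := hg
    refine ⟨|j| + 1, by positivity, ?_⟩
    intro k hk
    have hkj : k = j := by
      by_contra hne
      have h2 := hroot (k - j) (sub_ne_zero.mpr hne)
      have hz : u ^ k = u ^ (k - j) * u ^ j := by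
        rw [← zpow_add₀ hu0]; congr 1; ring
      have hj0 : u ^ j ≠ 0 := zpow_ne_zero j hu0
      rw [hz] at hk
      rcases hj with hj | hj <;> rcases hk with hk | hk
      · apply h2.1
        apply mul_right_cancel₀ hj0
        linear_combination hj - hk
      · apply h2.2
        apply mul_right_cancel₀ hj0
        linear_combination hk - hj
      · apply h2.2
        apply mul_right_cancel₀ hj0
        linear_combination hj - hk
      · apply h2.1
        apply mul_right_cancel₀ hj0
        linear_combination hk - hj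
    rw [hkj]
  · push Not at hg
    refine ⟨0, le_rfl, fun j hj => ?_⟩
    rcases hj with hj | hj
    · exact absurd hj (hg j).1
    · exact absurd hj (hg j).2

end weights

/-- parametrisation of a triangle by edge directions -/
theorem tri_param (p q r : ℂ) (a b c : ℝ) (ha : 0 < a) (hb : 0 < b) (h1 : dist p q = a)
    (h2 : dist q r = b) (h3 : dist p r = c) :
    ∃ v y : ℂ, ‖v‖ = 1 ∧ ‖y‖ = 1 ∧ q - p = a * v ∧ r - q = b * y * v ∧
      c ^ 2 = a ^ 2 + b ^ 2 + 2 * a * b * y.re := by
  have hac : (a : ℂ) ≠ 0 := by exact_mod_cast ha.ne'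
  have hbc : (b : ℂ) ≠ 0 := by exact_mod_cast hb.ne'
  set v := (q - p) / a with hv
  have hvn : ‖v‖ = 1 := by
    rw [hv, norm_div, Complex.norm_real, Real.norm_of_nonneg ha.le, ← h1, dist_comm, dist_eq_norm]
    exact div_self (by rw [← dist_eq_norm, dist_comm, h1]; exact ha.ne')
  have hv0 : v ≠ 0 := by
    intro h
    rw [h, norm_zero] at hvn
    exact zero_ne_one hvn
  set y := (r - q) / (b * v) with hy
  have hyn : ‖y‖ = 1 := by
    rw [hy, norm_div, norm_mul, hvn, mul_one, Complex.norm_real, Real.norm_of_nonneg hb.le, ← h2,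
      dist_comm, dist_eq_norm]
    exact div_self (by rw [← dist_eq_norm, dist_comm, h2]; exact hb.ne')
  have e1 : q - p = a * v := by rw [hv]; field_simp
  have e2 : r - q = b * y * v := by rw [hy]; field_simp
  refine ⟨v, y, hvn, hyn, e1, e2, ?_⟩
  have e3 : r - p = (a + b * y) * v := by linear_combination e1 + e2
  have e4 : c = ‖(a + b * y : ℂ)‖ := by
    rw [← h3, dist_comm, dist_eq_norm, e3, norm_mul, hvn, mul_one]
  have e5 : y.re ^ 2 + y.im ^ 2 = 1 := by
    have : Complex.normSq y = 1 := by rw [Complex.normSq_eq_norm_sq, hyn]; norm_num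
    rw [Complex.normSq_apply] at this
    linarith
  rw [e4, ← Complex.normSq_eq_norm_sq, Complex.normSq_apply]
  simp only [Complex.add_re, Complex.ofReal_re, Complex.mul_re, Complex.ofReal_im, zero_mul,
    sub_zero, Complex.add_im, Complex.mul_im, add_zero, zero_add]
  linear_combination b ^ 2 * e5

/-- `exp (i π / 3)` -/
noncomputable def zeta : ℂ := ⟨1 / 2, Real.sqrt 3 / 2⟩

/-- the unit `(a + b ζ) / c` -/
noncomputable def unit (a b c : ℕ) : ℂ := (a + b * zeta) / c

theorem sqrt3_sq : Real.sqrt 3 ^ 2 = 3 := Real.sq_sqrt (by norm_num)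

theorem zeta_add_conj : zeta + conj zeta = 1 := by
  rw [Complex.add_conj]
  simp [zeta]

theorem zeta_mul_conj : zeta * conj zeta = 1 := by
  rw [Complex.mul_conj, Complex.normSq_apply]
  have h := sqrt3_sq
  have : zeta.re * zeta.re + zeta.im * zeta.im = 1 := by
    simp only [zeta]
    linear_combination (1 / 4 : ℝ) * h
  rw [this]
  simp

theorem zeta_conj (a b : ℝ) :
    ((a : ℂ) + b * zeta) * (a + b * conj zeta) = (a ^ 2 + b ^ 2 + a * b : ℝ) := by
  push_cast
  linear_combination (a * b : ℂ) * zeta_add_conj + (b ^ 2 : ℂ) * zeta_mul_conj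

section unit

variable (a b c : ℕ) (ha : 0 < a) (hb : 0 < b) (hc : 0 < c) (h : c ^ 2 = a ^ 2 + b ^ 2 + a * b)

include hc h in
theorem unit_mul_conj : unit a b c * conj (unit a b c) = 1 := by
  unfold unit
  have hcc : (c : ℂ) ≠ 0 := by exact_mod_cast hc.ne'
  have h1 := zeta_conj a b
  have h2 : (c : ℂ) ^ 2 = a ^ 2 + b ^ 2 + a * b := by exact_mod_cast h
  rw [map_div₀, map_add, map_mul, map_natCast, map_natCast, map_natCast]
  push_cast at h1
  field_simp
  rw [h1, h2]

include hc h in
theorem unit_norm : ‖unit a b c‖ = 1 := by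
  have h1 := unit_mul_conj a b c hc h
  rw [Complex.mul_conj, Complex.normSq_eq_norm_sq] at h1
  have h2 : ‖unit a b c‖ ^ 2 = 1 := by exact_mod_cast h1
  have h3 := norm_nonneg (unit a b c)
  nlinarith

include hc h in
theorem unit_ne_zero : unit a b c ≠ 0 := by
  intro h0
  have := unit_norm a b c hc h
  rw [h0, norm_zero] at this
  exact zero_ne_one this

include hc h in
theorem unit_inv : (unit a b c)⁻¹ = conj (unit a b c) := by
  rw [inv_eq_iff_eq_inv]
  exact (inv_eq_of_mul_eq_one_left (unit_mul_conj a b c hc h)).symm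

include ha hb hc h in
theorem unit_root (m : ℕ) (hm : 0 < m) : unit a b c ^ m ≠ 1 := by
  intro h1
  have hcc : (c : ℂ) ≠ 0 := by exact_mod_cast hc.ne'
  have h2 : unit a b c + (unit a b c)⁻¹ = (((2 * a + b : ℚ) / c : ℚ) : ℂ) := by
    rw [unit_inv a b c hc h, Complex.add_conj]
    unfold unit
    have : ((a + b * zeta : ℂ) / c).re = (a + b / 2 : ℝ) / c := by
      rw [Complex.div_natCast_re]
      simp [zeta]
      ring_nf
    rw [this]
    push_cast
    field_simp
  obtain ⟨n, hn⟩ := int_of_root hm h1 _ h2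
  have hcq : (0 : ℚ) < c := by exact_mod_cast hc
  have h3 : (2 * a + b : ℚ) = n * c := by
    field_simp at hn
    linarith
  have h4 : (2 * a + b : ℤ) = n * c := by exact_mod_cast h3
  have h5 : (c : ℤ) ^ 2 = a ^ 2 + b ^ 2 + a * b := by exact_mod_cast h
  have ha' : (0 : ℤ) < a := by exact_mod_cast ha
  have hb' : (0 : ℤ) < b := by exact_mod_cast hb
  have hc' : (0 : ℤ) < c := by exact_mod_cast hc
  have hlow : (c : ℤ) < 2 * a + b := by nlinarith
  have hupp : (2 * a + b : ℤ) < 2 * c := by nlinarith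
  rw [h4] at hlow hupp
  have hn1 : 1 < n := by nlinarith
  have hn2 : n < 2 := by nlinarith
  omega

include ha hb hc h in
theorem unit_zroot (m : ℤ) (hm : m ≠ 0) : unit a b c ^ m ≠ 1 := by
  intro h1
  have h2 : unit a b c ^ (m.natAbs) = 1 := by
    rcases Int.natAbs_eq m with hm' | hm'
    · rw [hm', zpow_natCast] at h1
      exact h1
    · rw [hm', zpow_neg, zpow_natCast, inv_eq_one] at h1
      exact h1
  exact unit_root a b c ha hb hc h _ (Int.natAbs_pos.mpr hm) h2

include ha hb hc h in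
theorem unit_zroot' (m : ℤ) (hm : m ≠ 0) : unit a b c ^ m ≠ 1 ∧ unit a b c ^ m ≠ -1 := by
  refine ⟨unit_zroot a b c ha hb hc h m hm, fun h1 => ?_⟩
  apply unit_zroot a b c ha hb hc h (m * 2) (by omega)
  rw [zpow_mul, h1]
  norm_num

end unit

theorem eq_zeta_of_re {y : ℂ} (hy : ‖y‖ = 1) (hre : y.re = 1 / 2) : y = zeta ∨ y = conj zeta := by
  have h1 : y.re ^ 2 + y.im ^ 2 = 1 := by
    have : Complex.normSq y = 1 := by rw [Complex.normSq_eq_norm_sq, hy]; norm_num
    rw [Complex.normSq_apply] at this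
    linarith
  have h2 : (y.im - Real.sqrt 3 / 2) * (y.im + Real.sqrt 3 / 2) = 0 := by
    have := sqrt3_sq
    rw [hre] at h1
    linear_combination h1 - (1 / 4) * this
  rcases mul_eq_zero.mp h2 with h3 | h3
  · left
    apply Complex.ext
    · rw [hre]; simp [zeta]
    · simp only [zeta]; linarith
  · right
    apply Complex.ext
    · rw [hre]; simp [zeta]
    · simp only [zeta, Complex.conj_im]; linarith

/-- data of one tile -/
theorem tile_data (a b c : ℕ) (ha : 0 < a) (hb : 0 < b) (hc : 0 < c)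
    (h : c ^ 2 = a ^ 2 + b ^ 2 + a * b) (p q r : ℂ) (h1 : dist p q = a) (h2 : dist q r = b)
    (h3 : dist p r = c) :
    ∃ (v y : ℂ) (s τ : ℤ), ‖v‖ = 1 ∧ (s = 1 ∨ s = -1) ∧ (τ = 1 ∨ τ = -1) ∧
      ∀ e : ℂ, ‖e‖ = 1 → Phi (e * p) (e * q) (e * r) =
        ((s * (a * chi (v * e) + b * chi (y * v * e) - c * chi (unit a b c ^ τ * v * e)) : ℤ) : ℝ) := by
  have ha' : (0 : ℝ) < a := by exact_mod_cast ha
  have hb' : (0 : ℝ) < b := by exact_mod_cast hb
  have hc' : (0 : ℝ) < c := by exact_mod_cast hc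
  have hcc : (c : ℂ) ≠ 0 := by exact_mod_cast hc.ne'
  obtain ⟨v, y, hv, hy, e1, e2, e3⟩ := tri_param p q r a b c ha' hb' h1 h2 h3
  have hre : y.re = 1 / 2 := by
    have h' : (c : ℝ) ^ 2 = a ^ 2 + b ^ 2 + a * b := by exact_mod_cast h
    have : (a * b : ℝ) * (2 * y.re - 1) = 0 := by linear_combination h' - e3
    rcases mul_eq_zero.mp this with h4 | h4
    · exact absurd h4 (by positivity)
    · linarith
  obtain ⟨s, τ, hs, hτ, hss, hU⟩ : ∃ s τ : ℤ, (s = 1 ∨ s = -1) ∧ (τ = 1 ∨ τ = -1) ∧
      (SignType.sign y.im : ℝ) = s ∧ (c : ℂ) * unit a b c ^ τ = a + b * y := by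
    have h3pos : (0 : ℝ) < Real.sqrt 3 / 2 := by positivity
    rcases eq_zeta_of_re hy hre with rfl | rfl
    · refine ⟨1, 1, Or.inl rfl, Or.inl rfl, ?_, ?_⟩
      · have : (0 : ℝ) < zeta.im := h3pos
        rw [sign_pos this]; simp
      · rw [zpow_one]
        unfold unit
        field_simp
    · refine ⟨-1, -1, Or.inr rfl, Or.inr rfl, ?_, ?_⟩
      · have : (conj zeta).im < 0 := by
          rw [Complex.conj_im]
          have : (0 : ℝ) < zeta.im := h3pos
          linarith
        rw [sign_neg this]; simp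
      · rw [zpow_neg_one, unit_inv a b c hc h]
        unfold unit
        rw [map_div₀, map_add, map_mul, map_natCast, map_natCast, map_natCast]
        field_simp
  refine ⟨v, y, s, τ, hv, hs, hτ, ?_⟩
  intro e he
  have hUn : ‖unit a b c ^ τ‖ = 1 := by
    rw [norm_zpow, unit_norm a b c hc h, one_zpow]
  have hve : ‖v * e‖ = 1 := by rw [norm_mul, hv, he, one_mul]
  have := Phi_eq (e * p) (e * q) (e * r) (v * e) y (unit a b c ^ τ) a b c s ha' hb' hc' hve hy hUn
    (by push_cast at e1 ⊢; linear_combination e * e1)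
    (by push_cast at e2 ⊢; linear_combination e * e2) (by push_cast; exact hU) hss
  rw [this]
  push_cast
  rw [mul_assoc y v e, mul_assoc (unit a b c ^ τ) v e]

/-- data of the big triangle -/
theorem big_data (P Q R : ℂ) (X : ℝ) (hX : 0 < X) (h1 : dist P Q = X) (h2 : dist Q R = X)
    (h3 : dist P R = X) :
    ∃ (v y : ℂ) (s : ℤ), ‖v‖ = 1 ∧ (s = 1 ∨ s = -1) ∧ y ^ 3 = 1 ∧ (1 + y) ^ 3 = -1 ∧
      (y ≠ 1 ∧ y ≠ -1) ∧ (1 + y ≠ 1 ∧ 1 + y ≠ -1) ∧
      ∀ e : ℂ, ‖e‖ = 1 → Phi (e * P) (e * Q) (e * R) =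
        X * ((s * (chi (v * e) + chi (y * (v * e)) - chi ((1 + y) * (v * e))) : ℤ) : ℝ) := by
  obtain ⟨v, y, hv, hy, e1, e2, e3⟩ := tri_param P Q R X X X hX hX h1 h2 h3
  have hre : y.re = -(1 / 2) := by
    have : X * X * (2 * y.re + 1) = 0 := by linear_combination (-1 : ℝ) * e3
    rcases mul_eq_zero.mp this with h4 | h4
    · exact absurd h4 (by positivity)
    · linarith
  have him : y.im ^ 2 = 3 / 4 := by
    have : Complex.normSq y = 1 := by rw [Complex.normSq_eq_norm_sq, hy]; norm_num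
    rw [Complex.normSq_apply, hre] at this
    linarith
  have hmin : y ^ 2 + y + 1 = 0 := by
    apply Complex.ext
    · simp only [Complex.add_re, Complex.one_re, Complex.zero_re, pow_two, Complex.mul_re]
      rw [hre]
      linarith
    · simp only [Complex.add_im, Complex.one_im, Complex.zero_im, pow_two, Complex.mul_im]
      rw [hre]
      ring
  have hUn : ‖1 + y‖ = 1 := by
    have : ‖1 + y‖ ^ 2 = 1 := by
      rw [← Complex.normSq_eq_norm_sq, Complex.normSq_apply]
      simp only [Complex.add_re, Complex.one_re, Complex.add_im, Complex.one_im]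
      rw [hre]
      linarith
    have h5 := norm_nonneg (1 + y)
    nlinarith
  obtain ⟨s, hs, hss⟩ : ∃ s : ℤ, (s = 1 ∨ s = -1) ∧ (SignType.sign y.im : ℝ) = s := by
    rcases lt_trichotomy y.im 0 with h5 | h5 | h5
    · exact ⟨-1, Or.inr rfl, by rw [sign_neg h5]; simp⟩
    · rw [h5] at him; norm_num at him
    · exact ⟨1, Or.inl rfl, by rw [sign_pos h5]; simp⟩
  refine ⟨v, y, s, hv, hs, ?_, ?_, ⟨?_, ?_⟩, ⟨?_, ?_⟩, ?_⟩
  · linear_combination (y - 1) * hmin
  · linear_combination (y + 2) * hmin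
  · rintro rfl; norm_num at hre
  · rintro rfl; norm_num at hre
  · intro h5
    have : y = 0 := by linear_combination h5
    rw [this] at hre
    norm_num at hre
  · intro h5
    have : y = -2 := by linear_combination h5
    rw [this] at hre
    norm_num at hre
  · intro e he
    have hve : ‖v * e‖ = 1 := by rw [norm_mul, hv, he, one_mul]
    have := Phi_eq (e * P) (e * Q) (e * R) (v * e) y (1 + y) X X X s hX hX hX hve hy hUn
      (by linear_combination e * e1) (by linear_combination e * e2) (by ring) hss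
    rw [this]
    push_cast
    ring

/-- Main divisibility: for a tiling of an equilateral triangle of side `X`, the side is an integer
divisible by `b`. -/
theorem main_dvd (a b c : ℕ) (ha : 0 < a) (hb : 0 < b) (hc : 0 < c) (hab : Nat.Coprime a b)
    (h : c ^ 2 = a ^ 2 + b ^ 2 + a * b) {ι : Type*} [Fintype ι] (p q r : ι → ℂ)
    (h1 : ∀ i, dist (p i) (q i) = a) (h2 : ∀ i, dist (q i) (r i) = b)
    (h3 : ∀ i, dist (p i) (r i) = c) (P Q R : ℂ) (X : ℝ) (hX : 0 < X) (g1 : dist P Q = X)
    (g2 : dist Q R = X) (g3 : dist P R = X)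
    (hU : ⋃ i, tri (p i) (q i) (r i) = tri P Q R)
    (hd : Pairwise fun i k => Disjoint (interior (tri (p i) (q i) (r i)))
      (interior (tri (p k) (q k) (r k)))) :
    ∃ n : ℤ, X = n ∧ (b : ℤ) ∣ n := by
  classical
  set u := unit a b c with hu
  have hu0 : u ≠ 0 := unit_ne_zero a b c hc h
  have hun : ‖u‖ = 1 := unit_norm a b c hc h
  have hroot := unit_zroot' a b c ha hb hc h
  rw [← hu] at hroot
  obtain ⟨v, y, s, hv, hs, hy3, hy3', hy1, hy2, hbig⟩ := big_data P Q R X hX g1 g2 g3
  choose vt yt st τt hvt hst hτt htile using fun i =>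
    tile_data a b c ha hb hc h (p i) (q i) (r i) (h1 i) (h2 i) (h3 i)
  rw [← hu] at htile
  -- the rotated directions
  have hvv : v * conj v = 1 := by
    rw [Complex.mul_conj, Complex.normSq_eq_norm_sq, hv]; simp
  have he : ∀ k : ℤ, ‖conj v * u ^ (-k)‖ = 1 := by
    intro k
    rw [norm_mul, norm_zpow, hun, one_zpow, mul_one]
    simpa using hv
  have he0 : ∀ k : ℤ, conj v * u ^ (-k) ≠ 0 := by
    intro k h0
    have := he k
    rw [h0, norm_zero] at this
    exact zero_ne_one this
  have hadd : ∀ k : ℤ, X * ((s * (chi (u ^ (-k)) + chi (y * u ^ (-k)) -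
      chi ((1 + y) * u ^ (-k))) : ℤ) : ℝ) =
      ((∑ i, st i * (a * chi (vt i * conj v * u ^ (-k)) +
        b * chi (yt i * (vt i * conj v) * u ^ (-k)) -
        c * chi (u ^ τt i * (vt i * conj v) * u ^ (-k))) : ℤ) : ℝ) := by
    intro k
    have h4 := Phi_additive_rot p q r P Q R hU hd (conj v * u ^ (-k)) (he0 k)
    rw [hbig _ (he k)] at h4
    have h5 : v * (conj v * u ^ (-k)) = u ^ (-k) := by rw [← mul_assoc, hvv, one_mul]
    rw [h5] at h4
    rw [h4]
    push_cast
    apply Finset.sum_congr rfl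
    intro i _
    rw [htile i _ (he k)]
    push_cast
    simp only [mul_assoc]
  -- evaluation of the left side
  have hpow : ∀ (k : ℤ) (t : ℂ), k ≠ 0 → t ^ 6 = 1 → t * u ^ (-k) ≠ 1 ∧ t * u ^ (-k) ≠ -1 := by
    intro k t hk ht
    have h6 : ∀ z : ℂ, t * u ^ (-k) = z → z ^ 6 = 1 → False := by
      intro z hz hz6
      have : (t * u ^ (-k)) ^ 6 = 1 := by rw [hz, hz6]
      rw [mul_pow, ht, one_mul, ← zpow_natCast, ← zpow_mul] at this
      exact (hroot (-k * (6 : ℕ)) (by push_cast; omega)).1 this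
    exact ⟨fun hz => h6 1 hz (by norm_num), fun hz => h6 (-1) hz (by norm_num)⟩
  have hL : ∀ k : ℤ, k ≠ 0 → chi (u ^ (-k)) + chi (y * u ^ (-k)) - chi ((1 + y) * u ^ (-k)) = 0 := by
    intro k hk
    have a1 := hpow k 1 hk (by norm_num)
    have a2 := hpow k y hk (by rw [show (6 : ℕ) = 3 * 2 from rfl, pow_mul, hy3]; norm_num)
    have a3 := hpow k (1 + y) hk (by rw [show (6 : ℕ) = 3 * 2 from rfl, pow_mul, hy3']; norm_num)
    rw [one_mul] at a1
    rw [chi_of_ne a1.1 a1.2, chi_of_ne a2.1 a2.2, chi_of_ne a3.1 a3.2]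
    norm_num
  have hL0 : chi (u ^ (-(0 : ℤ))) + chi (y * u ^ (-(0 : ℤ))) - chi ((1 + y) * u ^ (-(0 : ℤ))) = 1 := by
    rw [neg_zero, zpow_zero, mul_one, mul_one, chi_one, chi_of_ne hy1.1 hy1.2,
      chi_of_ne hy2.1 hy2.2]
    norm_num
  -- `X` is an integer
  have hs2 : s * s = 1 := by rcases hs with rfl | rfl <;> norm_num
  have hXint : ∃ n : ℤ, X = n := by
    have h4 := hadd 0
    rw [hL0] at h4
    obtain ⟨M, hM⟩ : ∃ M : ℤ, X * ((s * 1 : ℤ) : ℝ) = M := ⟨_, h4⟩
    refine ⟨s * M, ?_⟩
    have hs3 : (s : ℝ) * s = 1 := by exact_mod_cast hs2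
    push_cast at hM ⊢
    rw [← hM]
    linear_combination (-X) * hs3
  obtain ⟨n, hn⟩ := hXint
  refine ⟨n, hn, ?_⟩
  -- bounds on the exponents
  choose Nt hNt0 hNt using fun i => exists_bound hu0 hroot (vt i * conj v)
  set N : ℤ := ∑ i, Nt i with hN
  have hNle : ∀ i, Nt i ≤ N := fun i =>
    Finset.single_le_sum (fun j _ => hNt0 j) (Finset.mem_univ i)
  have hN0 : 0 ≤ N := Finset.sum_nonneg fun j _ => hNt0 j
  set K := Finset.Icc (-N) N with hK
  have h0K : (0 : ℤ) ∈ K := by rw [hK, Finset.mem_Icc]; constructor <;> linarith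
  -- integer identities
  have haddZ : ∀ k : ℤ, n * (s * (chi (u ^ (-k)) + chi (y * u ^ (-k)) -
      chi ((1 + y) * u ^ (-k)))) =
      ∑ i, st i * (a * chi (vt i * conj v * u ^ (-k)) +
        b * chi (yt i * (vt i * conj v) * u ^ (-k)) -
        c * chi (u ^ τt i * (vt i * conj v) * u ^ (-k))) := by
    intro k
    have h4 := hadd k
    rw [hn] at h4
    exact_mod_cast h4
  have hsumL : ∑ k ∈ K, wt a c k * (n * (s * (chi (u ^ (-k)) + chi (y * u ^ (-k)) -
      chi ((1 + y) * u ^ (-k))))) = c * n * s := by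
    rw [Finset.sum_eq_single 0]
    · rw [hL0]
      have : wt a c 0 = c := by unfold wt; simp
      rw [this]
      ring
    · intro k _ hk
      rw [hL k hk]
      ring
    · intro h'
      exact absurd h0K h'
  have hsumR : (b : ℤ) ∣ ∑ k ∈ K, wt a c k * (∑ i, st i * (a * chi (vt i * conj v * u ^ (-k)) +
        b * chi (yt i * (vt i * conj v) * u ^ (-k)) -
        c * chi (u ^ τt i * (vt i * conj v) * u ^ (-k)))) := by
    have hswap : ∑ k ∈ K, wt a c k * (∑ i, st i * (a * chi (vt i * conj v * u ^ (-k)) +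
        b * chi (yt i * (vt i * conj v) * u ^ (-k)) -
        c * chi (u ^ τt i * (vt i * conj v) * u ^ (-k)))) =
        ∑ i, st i * ((a * (∑ k ∈ K, wt a c k * chi (vt i * conj v * u ^ (-k))) -
          c * (∑ k ∈ K, wt a c k * chi (u ^ τt i * (vt i * conj v) * u ^ (-k)))) +
          b * (∑ k ∈ K, wt a c k * chi (yt i * (vt i * conj v) * u ^ (-k)))) := by
      simp only [Finset.mul_sum]
      rw [Finset.sum_comm]
      apply Finset.sum_congr rfl
      intro i _
      rw [← Finset.sum_sub_distrib, ← Finset.sum_add_distrib, Finset.mul_sum]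
      apply Finset.sum_congr rfl
      intro k _
      ring
    rw [hswap]
    apply Finset.dvd_sum
    intro i _
    apply Dvd.dvd.mul_left
    apply dvd_add
    · exact tile_sum hu0 hroot a b c h (vt i * conj v) (τt i) (hτt i) N
        (fun j hj => (hNt i j hj).trans (hNle i))
    · exact Dvd.intro _ rfl
  have hfin : (b : ℤ) ∣ c * n * s := by
    rw [← hsumL]
    rw [Finset.sum_congr rfl fun k _ => by rw [haddZ k]]
    exact hsumR
  have hfin2 : (b : ℤ) ∣ c * n := by
    have : (c : ℤ) * n = c * n * s * s := by rw [mul_assoc, hs2, mul_one]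
    rw [this]
    exact Dvd.dvd.mul_right hfin s
  have hbc : Nat.Coprime b c := by
    have h4 : Nat.Coprime b (c ^ 2) := by
      have h5 : c ^ 2 = a ^ 2 + b * (b + a) := by rw [h]; ring
      rw [h5, Nat.coprime_add_mul_left_right]
      exact (Nat.Coprime.pow_right 2 hab.symm)
    exact Nat.Coprime.coprime_dvd_right (dvd_pow_self c two_ne_zero) h4
  exact (Int.isCoprime_iff_gcd_eq_one.mpr (by simpa [Int.gcd_natCast_natCast] using hbc)).dvd_of_dvd_mul_left hfin2

/-- The full divisibility statement in the complex plane. -/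
theorem main_complex (a b c : ℕ) (ha : 0 < a) (hb : 0 < b) (hc : 0 < c) (hab : Nat.Coprime a b)
    (h : c ^ 2 = a ^ 2 + b ^ 2 + a * b) {ι : Type*} [Fintype ι] (p q r : ι → ℂ)
    (h1 : ∀ i, dist (p i) (q i) = a) (h2 : ∀ i, dist (q i) (r i) = b)
    (h3 : ∀ i, dist (p i) (r i) = c) (P Q R : ℂ) (X : ℝ) (hX : 0 < X) (g1 : dist P Q = X)
    (g2 : dist Q R = X) (g3 : dist P R = X)
    (hU : ⋃ i, tri (p i) (q i) (r i) = tri P Q R)
    (hd : Pairwise fun i k => Disjoint (interior (tri (p i) (q i) (r i)))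
      (interior (tri (p k) (q k) (r k)))) :
    ∃ m : ℕ, 0 < m ∧ X = m * (a * b) := by
  obtain ⟨n, hn, hbn⟩ := main_dvd a b c ha hb hc hab h p q r h1 h2 h3 P Q R X hX g1 g2 g3 hU hd
  have hswap : ∀ x y z : ℂ, tri x y z = tri z y x := by
    intro x y z
    rw [tri_swap12 x y z, tri_swap23 y x z, tri_swap12 y z x]
  obtain ⟨n', hn', han⟩ := main_dvd b a c hb ha hc hab.symm (by rw [h]; ring) r q p
    (fun i => by rw [dist_comm]; exact h2 i) (fun i => by rw [dist_comm]; exact h1 i)
    (fun i => by rw [dist_comm]; exact h3 i) P Q R X hX g1 g2 g3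
    (by rw [← hU]; exact Set.iUnion_congr fun i => (hswap _ _ _).symm)
    (by
      intro i k hik
      show Disjoint (interior (tri (r i) (q i) (p i))) (interior (tri (r k) (q k) (p k)))
      rw [hswap (r i) (q i) (p i), hswap (r k) (q k) (p k)]
      exact hd hik)
  have hnn : n' = n := by
    have : (n' : ℝ) = n := by rw [← hn', hn]
    exact_mod_cast this
  rw [hnn] at han
  have hcop : IsCoprime (a : ℤ) (b : ℤ) := Nat.isCoprime_iff_coprime.mpr hab
  obtain ⟨k, hk⟩ := hcop.mul_dvd han hbn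
  have hnpos : (0 : ℤ) < n := by
    rw [hn] at hX
    exact_mod_cast hX
  have hkpos : 0 < k := by
    rw [hk] at hnpos
    have hab' : (0 : ℤ) < a * b := by positivity
    by_contra hk0
    have := mul_nonpos_of_nonneg_of_nonpos hab'.le (not_lt.mp hk0)
    linarith
  refine ⟨k.toNat, by omega, ?_⟩
  have hkc : ((k.toNat : ℕ) : ℤ) = k := Int.toNat_of_nonneg hkpos.le
  have hkr : ((k.toNat : ℕ) : ℝ) = (k : ℝ) := by
    rw [← hkc]
    push_cast
    rfl
  rw [hkr, hn, hk]
  push_cast
  ring

end Pool.Agent.Helper61.BeesonDir
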