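import Pool.Agent.Helper65.Graph

/-!
# Moments of the exploration process of an ordered random graph

`U = up E {a} (m + t)`, `U' = up E {a'} (m + t)` with `E` random in `cols m (m + t)`.
-/

set_option autoImplicit false

namespace Pool.Agent.Helper61.DDMoments

open Finset Pool.Agent.Helper65

section aux

variable {p : ℝ}

lemma one_sub_pow_le (_hp0 : 0 ≤ p) (hp1 : p ≤ 1) (N : ℕ) : 1 - (1 - p) ^ N ≤ p * N := by
  have h := one_add_mul_le_pow (a := -p) (by linarith) N
  have h2 : (1 + -p) = 1 - p := by ring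
  rw [h2] at h
  linarith

lemma le_one_sub_pow (hp0 : 0 ≤ p) (hp1 : p ≤ 1) (N : ℕ) :
    p * N - p ^ 2 * (N : ℝ) ^ 2 / 2 ≤ 1 - (1 - p) ^ N := by
  induction N with
  | zero => simp
  | succ N ih =>
    have hN : (0 : ℝ) ≤ N := Nat.cast_nonneg N
    have h1 : (1 - p) ^ (N + 1) ≤ (1 - p) * (1 - p * N + p ^ 2 * (N : ℝ) ^ 2 / 2) := by
      rw [pow_succ, mul_comm]
      exact mul_le_mul_of_nonneg_left (by linarith) (by linarith)
    have h2 : 0 ≤ p ^ 3 * (N : ℝ) ^ 2 := by positivity
    have h3 : 0 ≤ p ^ 2 := by positivity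
    push_cast
    nlinarith

lemma Pr_mem {ι : Type*} [DecidableEq ι] (p : ℝ) {s : Finset ι} {e : ι} (he : e ∈ s) :
    Pr p s (fun F => e ∈ F) = p := by
  have h := Pr_disjoint p (Finset.singleton_subset_iff.mpr he)
  have h2 := Pr_not p s (fun F => Disjoint F {e})
  rw [h] at h2
  rw [Finset.card_singleton, pow_one] at h2
  have h3 : Pr p s (fun F => e ∈ F) = Pr p s (fun F => ¬ Disjoint F {e}) := by
    refine Pr_congr ?_
    intro F _
    rw [Finset.disjoint_singleton_right, not_not]
  rw [h3, h2]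
  ring

lemma Pr_mem_mem {ι : Type*} [DecidableEq ι] (p : ℝ) {s : Finset ι} {e e' : ι} (he : e ∈ s)
    (he' : e' ∈ s) (hne : e ≠ e') :
    Pr p s (fun F => e ∈ F ∧ e' ∈ F) = p * p := by
  have h := Pr_and_indep (p := p) (s := s) (t := {e}) (u := {e'})
    (P := fun F => e ∈ F) (Q := fun F => e' ∈ F)
    (Finset.singleton_subset_iff.mpr he) (Finset.singleton_subset_iff.mpr he')
    (Finset.disjoint_singleton.mpr hne) (by intro E _; simp) (by intro E _; simp)
  rw [h, Pr_mem p (Finset.mem_singleton_self e), Pr_mem p (Finset.mem_singleton_self e')]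

/-- Both exploration processes are hit. -/
lemma Pr_col_both_le (hp0 : 0 ≤ p) (hp1 : p ≤ 1) {n : ℕ} {U U' : Finset ℕ}
    (hU : U ⊆ range n) (hU' : U' ⊆ range n) :
    Pr p (col n) (fun F => (∃ u ∈ U, (u, n) ∈ F) ∧ (∃ u ∈ U', (u, n) ∈ F)) ≤
      p * (U ∩ U').card + p ^ 2 * (U.card * U'.card) := by
  have hmem : ∀ u, u < n → (u, n) ∈ col n := fun u hu => mem_col.mpr ⟨hu, rfl⟩
  have h1 : Pr p (col n) (fun F => (∃ u ∈ U, (u, n) ∈ F) ∧ (∃ u ∈ U', (u, n) ∈ F)) ≤
      Pr p (col n) (fun F => (∃ u ∈ U ∩ U', (u, n) ∈ F) ∨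
        (∃ v ∈ (U ×ˢ U').filter (fun v => v.1 ≠ v.2), (v.1, n) ∈ F ∧ (v.2, n) ∈ F)) := by
    refine Pr_mono hp0 hp1 ?_
    rintro F _ ⟨⟨u, hu, huF⟩, ⟨u', hu', hu'F⟩⟩
    by_cases h : u = u'
    · left
      exact ⟨u, Finset.mem_inter.mpr ⟨hu, h ▸ hu'⟩, huF⟩
    · right
      refine ⟨(u, u'), ?_, huF, hu'F⟩
      rw [Finset.mem_filter, Finset.mem_product]
      exact ⟨⟨hu, hu'⟩, h⟩
  refine h1.trans ((Pr_or_le hp0 hp1 _ _).trans (add_le_add ?_ ?_))
  · refine (Pr_exists_le hp0 hp1 _ _).trans ?_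
    rw [Finset.sum_congr rfl (g := fun _ => p)]
    · rw [Finset.sum_const, nsmul_eq_mul, mul_comm]
    · intro u hu
      exact Pr_mem p (hmem u (Finset.mem_range.mp (hU (Finset.mem_inter.mp hu).1)))
  · refine (Pr_exists_le hp0 hp1 _ _).trans ?_
    rw [Finset.sum_congr rfl (g := fun _ => p ^ 2)]
    · rw [Finset.sum_const, nsmul_eq_mul, mul_comm]
      refine mul_le_mul_of_nonneg_left ?_ (by positivity)
      have : ((U ×ˢ U').filter (fun v => v.1 ≠ v.2)).card ≤ U.card * U'.card := by
        rw [← Finset.card_product]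
        exact Finset.card_filter_le _ _
      exact_mod_cast this
    · intro v hv
      rw [Finset.mem_filter, Finset.mem_product] at hv
      rw [Pr_mem_mem p (hmem _ (Finset.mem_range.mp (hU hv.1.1)))
        (hmem _ (Finset.mem_range.mp (hU' hv.1.2)))]
      · ring
      · intro h
        exact hv.2 (Prod.mk.inj h).1

/-- Expectation of the hit indicator. -/
lemma Ex_col_hit_eq (p : ℝ) {n : ℕ} {U : Finset ℕ} (hU : U ⊆ range n) :
    Ex p (col n) (fun F => ind (∃ u ∈ U, (u, n) ∈ F)) = 1 - (1 - p) ^ U.card := by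
  have h := Ex_col_hit p hU 1 0
  simpa using h

end aux

section step

variable {E F : Finset (ℕ × ℕ)} {m a t : ℕ}

/-- Edges of `cols m _` do not enter vertices below `m`. -/
lemma up_start (hE : E ⊆ cols m (m + t)) (ha : a < m) : up E {a} m = {a} := by
  ext z
  rw [mem_up_iff, Finset.mem_singleton]
  constructor
  · rintro ⟨hz, h | ⟨u, _, huz⟩⟩
    · exact h
    · have := mem_cols.mp (hE huz)
      simp only at this
      omega
  · rintro rfl
    exact ⟨ha, Or.inl rfl⟩

/-- One exploration step, as sets. -/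
lemma up_union_succ (hE : E ⊆ cols m (m + t)) (hF : F ⊆ col (m + t)) (ha : a < m) :
    up (E ∪ F) {a} (m + t + 1) =
      if ∃ u ∈ up E {a} (m + t), (u, m + t) ∈ F then insert (m + t) (up E {a} (m + t))
      else up E {a} (m + t) := by
  rw [up_succ, up_union_col hF]
  have h1 : (m + t ∈ ({a} : Finset ℕ) ∨ ∃ u ∈ up E {a} (m + t), (u, m + t) ∈ E ∪ F) ↔
      ∃ u ∈ up E {a} (m + t), (u, m + t) ∈ F := by
    constructor
    · rintro (h | ⟨u, hu, huF⟩)
      · rw [Finset.mem_singleton] at h
        omega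
      · refine ⟨u, hu, ?_⟩
        rcases Finset.mem_union.mp huF with h | h
        · exact absurd h (not_mem_of_subset_cols hE le_rfl)
        · exact h
    · rintro ⟨u, hu, huF⟩
      exact Or.inr ⟨u, hu, Finset.mem_union_right _ huF⟩
  by_cases h2 : ∃ u ∈ up E {a} (m + t), (u, m + t) ∈ F
  · rw [if_pos h2, if_pos (h1.mpr h2)]
  · rw [if_neg h2, if_neg (fun h => h2 (h1.mp h))]

lemma card_step (hE : E ⊆ cols m (m + t)) (hF : F ⊆ col (m + t)) (ha : a < m) :
    ((up (E ∪ F) {a} (m + t + 1)).card : ℝ) =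
      (up E {a} (m + t)).card + ind (∃ u ∈ up E {a} (m + t), (u, m + t) ∈ F) := by
  rw [up_union_succ hE hF ha]
  by_cases h : ∃ u ∈ up E {a} (m + t), (u, m + t) ∈ F
  · rw [if_pos h, ind_pos h, Finset.card_insert_of_notMem (notMem_up_self _ _ _)]
    push_cast
    ring
  · rw [if_neg h, ind_neg h, add_zero]

lemma card_inter_step {a' : ℕ} (hE : E ⊆ cols m (m + t)) (hF : F ⊆ col (m + t)) (ha : a < m)
    (ha' : a' < m) :
    ((up (E ∪ F) {a} (m + t + 1) ∩ up (E ∪ F) {a'} (m + t + 1)).card : ℝ) =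
      (up E {a} (m + t) ∩ up E {a'} (m + t)).card +
        ind ((∃ u ∈ up E {a} (m + t), (u, m + t) ∈ F) ∧
          (∃ u ∈ up E {a'} (m + t), (u, m + t) ∈ F)) := by
  rw [up_union_succ hE hF ha, up_union_succ hE hF ha']
  by_cases h : ∃ u ∈ up E {a} (m + t), (u, m + t) ∈ F
  · by_cases h' : ∃ u ∈ up E {a'} (m + t), (u, m + t) ∈ F
    · rw [if_pos h, if_pos h', ind_pos ⟨h, h'⟩, ← Finset.insert_inter_distrib,
        Finset.card_insert_of_notMem]
      · push_cast
        ring
      · intro hm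
        exact notMem_up_self _ _ _ (Finset.mem_inter.mp hm).1
    · rw [if_pos h, if_neg h', ind_neg (fun hh => h' hh.2), add_zero,
        Finset.insert_inter_of_notMem (notMem_up_self _ _ _)]
  · rw [if_neg h, ind_neg (fun hh => h hh.1), add_zero]
    by_cases h' : ∃ u ∈ up E {a'} (m + t), (u, m + t) ∈ F
    · rw [if_pos h', Finset.inter_insert_of_notMem (notMem_up_self _ _ _)]
    · rw [if_neg h']

end step

theorem mom_upper {p : ℝ} (hp0 : 0 ≤ p) (hp1 : p ≤ 1) {m a : ℕ} (ha : a < m) (t : ℕ) :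
    Ex p (cols m (m + t)) (fun E => ((up E {a} (m + t)).card : ℝ)) ≤ (1 + p) ^ t := by
  induction t with
  | zero =>
    rw [Nat.add_zero, cols_self, Ex_empty, up_start (t := 0) (Finset.empty_subset _) ha]
    simp
  | succ t ih =>
    rw [← Nat.add_assoc, Ex_cols_succ (Nat.le_add_right m t)]
    calc Ex p (cols m (m + t)) (fun E => Ex p (col (m + t))
          (fun F => ((up (E ∪ F) {a} (m + t + 1)).card : ℝ)))
        ≤ Ex p (cols m (m + t)) (fun E => (1 + p) * ((up E {a} (m + t)).card : ℝ)) := by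
          refine Ex_mono hp0 hp1 ?_
          intro E hE
          rw [Ex_congr (fun F hF => card_step hE hF ha), Ex_add, Ex_const,
            Ex_col_hit_eq p (up_subset_range _ _ _)]
          have := one_sub_pow_le hp0 hp1 (up E {a} (m + t)).card
          linarith
      _ ≤ (1 + p) ^ (t + 1) := by
          rw [Ex_mul_left, pow_succ, mul_comm]
          exact mul_le_mul_of_nonneg_right ih (by linarith)

theorem mom_sq_aux {p : ℝ} (hp0 : 0 ≤ p) (hp1 : p ≤ 1) {m a : ℕ} (ha : a < m) (t : ℕ) :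
    Ex p (cols m (m + t)) (fun E => ((up E {a} (m + t)).card : ℝ) *
      (((up E {a} (m + t)).card : ℝ) + 1)) ≤ 2 * (1 + 2 * p) ^ t := by
  induction t with
  | zero =>
    rw [Nat.add_zero, cols_self, Ex_empty, up_start (t := 0) (Finset.empty_subset _) ha]
    norm_num
  | succ t ih =>
    rw [← Nat.add_assoc, Ex_cols_succ (Nat.le_add_right m t)]
    calc Ex p (cols m (m + t)) (fun E => Ex p (col (m + t))
          (fun F => ((up (E ∪ F) {a} (m + t + 1)).card : ℝ) *
            (((up (E ∪ F) {a} (m + t + 1)).card : ℝ) + 1)))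
        ≤ Ex p (cols m (m + t)) (fun E => (1 + 2 * p) * (((up E {a} (m + t)).card : ℝ) *
            (((up E {a} (m + t)).card : ℝ) + 1))) := by
          refine Ex_mono hp0 hp1 ?_
          intro E hE
          set N : ℝ := ((up E {a} (m + t)).card : ℝ) with hN
          have hN0 : 0 ≤ N := Nat.cast_nonneg _
          have h1 : ∀ F ⊆ col (m + t), ((up (E ∪ F) {a} (m + t + 1)).card : ℝ) *
            (((up (E ∪ F) {a} (m + t + 1)).card : ℝ) + 1) =
              N * (N + 1) + (2 * (N + 1)) * ind (∃ u ∈ up E {a} (m + t), (u, m + t) ∈ F) := by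
            intro F hF
            rw [card_step hE hF ha]
            by_cases h : ∃ u ∈ up E {a} (m + t), (u, m + t) ∈ F
            · rw [ind_pos h]; ring
            · rw [ind_neg h]; ring
          rw [Ex_congr h1, Ex_add, Ex_const, Ex_mul_left,
            Ex_col_hit_eq p (up_subset_range _ _ _)]
          have h2 := one_sub_pow_le hp0 hp1 (up E {a} (m + t)).card
          rw [← hN] at h2
          have h3 : 2 * (N + 1) * (1 - (1 - p) ^ (up E {a} (m + t)).card) ≤
              2 * (N + 1) * (p * N) := mul_le_mul_of_nonneg_left h2 (by linarith)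
          linarith
      _ ≤ 2 * (1 + 2 * p) ^ (t + 1) := by
          rw [Ex_mul_left, pow_succ]
          have := mul_le_mul_of_nonneg_left ih (by linarith : 0 ≤ 1 + 2 * p)
          linarith

theorem mom_sq {p : ℝ} (hp0 : 0 ≤ p) (hp1 : p ≤ 1) {m a : ℕ} (ha : a < m) (t : ℕ) :
    Ex p (cols m (m + t)) (fun E => ((up E {a} (m + t)).card : ℝ) ^ 2) ≤ 2 * (1 + p) ^ (2 * t) := by
  refine le_trans ?_ ((mom_sq_aux hp0 hp1 ha t).trans ?_)
  · refine Ex_mono hp0 hp1 ?_
    intro E _
    have : (0 : ℝ) ≤ ((up E {a} (m + t)).card : ℝ) := Nat.cast_nonneg _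
    nlinarith
  · rw [pow_mul]
    refine mul_le_mul_of_nonneg_left ?_ (by norm_num)
    refine pow_le_pow_left₀ (by linarith) ?_ t
    nlinarith [sq_nonneg p]

theorem mom_lower {p : ℝ} (hp0 : 0 ≤ p) (hp1 : p ≤ 1) {m a : ℕ} (ha : a < m) (t : ℕ) :
    (1 + p) ^ t - p * (1 + p) ^ (2 * t) ≤
      Ex p (cols m (m + t)) (fun E => ((up E {a} (m + t)).card : ℝ)) := by
  induction t with
  | zero =>
    rw [Nat.add_zero, cols_self, Ex_empty, up_start (t := 0) (Finset.empty_subset _) ha]
    simp only [pow_zero, mul_zero, Finset.card_singleton, Nat.cast_one]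
    linarith
  | succ t ih =>
    rw [← Nat.add_assoc, Ex_cols_succ (Nat.le_add_right m t)]
    have hsq := mom_sq hp0 hp1 ha t
    calc (1 + p) ^ (t + 1) - p * (1 + p) ^ (2 * (t + 1))
        ≤ (1 + p) * ((1 + p) ^ t - p * (1 + p) ^ (2 * t)) -
            p ^ 2 / 2 * (2 * (1 + p) ^ (2 * t)) := by
          have h1 : (1 + p) ^ (2 * (t + 1)) = (1 + p) ^ (2 * t) * (1 + p) ^ 2 := by
            rw [mul_add, pow_add]
          have h2 : 0 ≤ (1 + p) ^ (2 * t) := by positivity
          rw [h1, pow_succ]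
          nlinarith [mul_nonneg (pow_nonneg hp0 3) h2, mul_nonneg (pow_nonneg hp0 2) h2]
      _ ≤ (1 + p) * Ex p (cols m (m + t)) (fun E => ((up E {a} (m + t)).card : ℝ)) -
            p ^ 2 / 2 * Ex p (cols m (m + t)) (fun E => ((up E {a} (m + t)).card : ℝ) ^ 2) := by
          have h1 := mul_le_mul_of_nonneg_left ih (by linarith : 0 ≤ 1 + p)
          have h2 := mul_le_mul_of_nonneg_left hsq (by positivity : 0 ≤ p ^ 2 / 2)
          linarith
      _ = Ex p (cols m (m + t)) (fun E => (1 + p) * ((up E {a} (m + t)).card : ℝ) -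
            p ^ 2 / 2 * ((up E {a} (m + t)).card : ℝ) ^ 2) := by
          rw [Ex_sub, Ex_mul_left, Ex_mul_left]
      _ ≤ Ex p (cols m (m + t)) (fun E => Ex p (col (m + t))
          (fun F => ((up (E ∪ F) {a} (m + t + 1)).card : ℝ))) := by
          refine Ex_mono hp0 hp1 ?_
          intro E hE
          rw [Ex_congr (fun F hF => card_step hE hF ha), Ex_add, Ex_const,
            Ex_col_hit_eq p (up_subset_range _ _ _)]
          have := le_one_sub_pow hp0 hp1 (up E {a} (m + t)).card
          linarith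

theorem mom_pair {p : ℝ} (hp0 : 0 ≤ p) (hp1 : p ≤ 1) {m a a' : ℕ} (ha : a < m) (ha' : a' < m)
    (hne : a ≠ a') (t : ℕ) (ht : 4 * p ^ 2 * t ≤ 1) :
    Ex p (cols m (m + t)) (fun E => ((up E {a} (m + t) ∩ up E {a'} (m + t)).card : ℝ)) ≤
        4 * p * (1 + p) ^ (2 * t) ∧
    Ex p (cols m (m + t)) (fun E => ((up E {a} (m + t)).card : ℝ) * (up E {a'} (m + t)).card) ≤
        (1 + 4 * p ^ 2 * t) * (1 + p) ^ (2 * t) := by
  induction t with
  | zero =>
    rw [Nat.add_zero, cols_self, Ex_empty, Ex_empty,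
      up_start (t := 0) (Finset.empty_subset _) ha,
      up_start (t := 0) (Finset.empty_subset _) ha']
    constructor
    · rw [Finset.singleton_inter_of_notMem (by simpa using hne)]
      simp only [Finset.card_empty, Nat.cast_zero, mul_zero, pow_zero, mul_one]
      linarith
    · simp
  | succ t ih =>
    have ht' : 4 * p ^ 2 * (t : ℝ) ≤ 1 := by
      push_cast at ht
      nlinarith [sq_nonneg p]
    obtain ⟨ho, hf⟩ := ih ht'
    rw [← Nat.add_assoc, Ex_cols_succ (Nat.le_add_right m t),
      Ex_cols_succ (Nat.le_add_right m t)]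
    set O : ℝ := Ex p (cols m (m + t))
      (fun E => ((up E {a} (m + t) ∩ up E {a'} (m + t)).card : ℝ)) with hO
    set G : ℝ := Ex p (cols m (m + t))
      (fun E => ((up E {a} (m + t)).card : ℝ) * (up E {a'} (m + t)).card) with hG
    have hP : (1 + p) ^ (2 * (t + 1)) = (1 + p) ^ (2 * t) * (1 + p) ^ 2 := by
      rw [mul_add, pow_add]
    have hP0 : 0 ≤ (1 + p) ^ (2 * t) := by positivity
    have htn : (0 : ℝ) ≤ t := Nat.cast_nonneg t
    constructor
    · calc Ex p (cols m (m + t)) (fun E => Ex p (col (m + t)) (fun F =>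
            ((up (E ∪ F) {a} (m + t + 1) ∩ up (E ∪ F) {a'} (m + t + 1)).card : ℝ)))
          ≤ Ex p (cols m (m + t)) (fun E =>
              (1 + p) * ((up E {a} (m + t) ∩ up E {a'} (m + t)).card : ℝ) +
              p ^ 2 * (((up E {a} (m + t)).card : ℝ) * (up E {a'} (m + t)).card)) := by
            refine Ex_mono hp0 hp1 ?_
            intro E hE
            rw [Ex_congr (fun F hF => card_inter_step hE hF ha ha'), Ex_add, Ex_const]
            have h := Pr_col_both_le hp0 hp1 (n := m + t) (up_subset_range E {a} (m + t))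
              (up_subset_range E {a'} (m + t))
            unfold Pr at h
            linarith
        _ = (1 + p) * O + p ^ 2 * G := by
            rw [Ex_add, Ex_mul_left, Ex_mul_left]
        _ ≤ 4 * p * (1 + p) ^ (2 * (t + 1)) := by
            have h1 := mul_le_mul_of_nonneg_left ho (by linarith : 0 ≤ 1 + p)
            have h2 := mul_le_mul_of_nonneg_left hf (by positivity : 0 ≤ p ^ 2)
            have h3 : (1 + 4 * p ^ 2 * t) * (1 + p) ^ (2 * t) ≤ 2 * (1 + p) ^ (2 * t) :=
              mul_le_mul_of_nonneg_right (by linarith) hP0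
            have h4 := mul_le_mul_of_nonneg_left h3 (by positivity : 0 ≤ p ^ 2)
            rw [hP]
            have h5 : 0 ≤ p ^ 2 * (1 + p) ^ (2 * t) := by positivity
            have h6 : 0 ≤ p ^ 3 * (1 + p) ^ (2 * t) := by positivity
            nlinarith
    · calc Ex p (cols m (m + t)) (fun E => Ex p (col (m + t)) (fun F =>
            ((up (E ∪ F) {a} (m + t + 1)).card : ℝ) * (up (E ∪ F) {a'} (m + t + 1)).card))
          ≤ Ex p (cols m (m + t)) (fun E =>
              (1 + p) ^ 2 * (((up E {a} (m + t)).card : ℝ) * (up E {a'} (m + t)).card) +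
              p * ((up E {a} (m + t) ∩ up E {a'} (m + t)).card : ℝ)) := by
            refine Ex_mono hp0 hp1 ?_
            intro E hE
            set N : ℝ := ((up E {a} (m + t)).card : ℝ) with hN
            set N' : ℝ := ((up E {a'} (m + t)).card : ℝ) with hN'
            have hN0 : 0 ≤ N := Nat.cast_nonneg _
            have hN0' : 0 ≤ N' := Nat.cast_nonneg _
            have h1 : ∀ F ⊆ col (m + t), ((up (E ∪ F) {a} (m + t + 1)).card : ℝ) *
              ((up (E ∪ F) {a'} (m + t + 1)).card : ℝ) =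
                N * N' + N * ind (∃ u ∈ up E {a'} (m + t), (u, m + t) ∈ F) +
                N' * ind (∃ u ∈ up E {a} (m + t), (u, m + t) ∈ F) +
                ind ((∃ u ∈ up E {a} (m + t), (u, m + t) ∈ F) ∧
                  (∃ u ∈ up E {a'} (m + t), (u, m + t) ∈ F)) := by
              intro F hF
              rw [card_step hE hF ha, card_step hE hF ha', ind_and]
              ring
            rw [Ex_congr h1, Ex_add, Ex_add, Ex_add, Ex_const, Ex_mul_left, Ex_mul_left,
              Ex_col_hit_eq p (up_subset_range _ _ _), Ex_col_hit_eq p (up_subset_range _ _ _)]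
            have h := Pr_col_both_le hp0 hp1 (n := m + t) (up_subset_range E {a} (m + t))
              (up_subset_range E {a'} (m + t))
            unfold Pr at h
            rw [← hN, ← hN'] at h
            have h2 := one_sub_pow_le hp0 hp1 (up E {a} (m + t)).card
            have h2' := one_sub_pow_le hp0 hp1 (up E {a'} (m + t)).card
            rw [← hN] at h2
            rw [← hN'] at h2'
            have h3 := mul_le_mul_of_nonneg_left h2 hN0'
            have h3' := mul_le_mul_of_nonneg_left h2' hN0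
            nlinarith
        _ = (1 + p) ^ 2 * G + p * O := by
            rw [Ex_add, Ex_mul_left, Ex_mul_left]
        _ ≤ (1 + 4 * p ^ 2 * ((t + 1 : ℕ) : ℝ)) * (1 + p) ^ (2 * (t + 1)) := by
            have h1 := mul_le_mul_of_nonneg_left hf (by positivity : 0 ≤ (1 + p) ^ 2)
            have h2 := mul_le_mul_of_nonneg_left ho hp0
            have h5 : 0 ≤ p ^ 2 * (1 + p) ^ (2 * t) := by positivity
            have h6 : p ^ 2 * (1 + p) ^ (2 * t) ≤ p ^ 2 * (1 + p) ^ (2 * t) * (1 + p) ^ 2 := by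
              refine le_mul_of_one_le_right h5 ?_
              nlinarith
            rw [hP]
            push_cast
            nlinarith

end Pool.Agent.Helper61.DDMoments
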