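import Pool.Agent.Helper58.FL.Tools

/-! FL-10: discrete simplicial presheaves are injectively fibrant. -/

open CategoryTheory MonoidalCategory Simplicial Opposite

set_option autoImplicit false

namespace Helper61FL

open FL

/-- The discrete simplicial set on a type. -/
abbrev Dsc (T : Type) : SSet.{0} := (Functor.const SimplexCategoryᵒᵖ).obj T

/-- A map into a discrete simplicial set does not change under restriction. -/
theorem dsc_map {Z : SSet.{0}} {T : Type} (q : Z ⟶ Dsc T) {k l : SimplexCategoryᵒᵖ} (α : k ⟶ l)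
    (z : Z.obj k) : (q.app l (Z.map α z) : T) = q.app k z :=
  sset_nat q α z

theorem std_const {n : ℕ} {T : Type} (g : (Δ[n] : SSet.{0}) ⟶ Dsc T) {k k' : SimplexCategoryᵒᵖ}
    (s : (Δ[n] : SSet.{0}).obj k) (s' : (Δ[n] : SSet.{0}).obj k') :
    (g.app k s : T) = g.app k' s' := by
  have h : ∀ {k : SimplexCategoryᵒᵖ} (s : (Δ[n] : SSet.{0}).obj k),
      (g.app k s : T) = g.app (op ⦋n⦌) (SSet.stdSimplex.objEquiv.symm (𝟙 _)) := by
    intro k s
    have h1 := dsc_map g (SSet.stdSimplex.objEquiv s).op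
      (SSet.stdSimplex.objEquiv.symm (𝟙 ⦋n⦌))
    refine Eq.trans (congrArg (g.app k) ?_) h1
    obtain ⟨t, rfl⟩ := SSet.stdSimplex.objEquiv.symm.surjective s
    refine congrArg SSet.stdSimplex.objEquiv.symm (Category.comp_id t).symm
  exact (h s).trans (h s').symm

theorem dsc_kan (T : Type) : SSet.KanComplex (Dsc T) := by
  rw [SSet.KanComplex.iff]
  intro n i f hf
  have hj0 : ∃ j0 : Fin (n + 2), j0 ≠ i := exists_ne i
  obtain ⟨j0, hj0⟩ := hj0
  let c : T := (f j0 hj0).app (op ⦋n⦌) (SSet.stdSimplex.objEquiv.symm (𝟙 ⦋n⦌))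
  refine ⟨{ app := fun k => ↾ fun _ => c, naturality := fun _ _ _ => rfl }, fun j hj => ?_⟩
  ext k s
  change c = ((f j hj).app k s : T)
  rcases n with _ | n
  · have : j = j0 := by
      have h1 := j.2; have h2 := j0.2; have h3 := i.2
      rw [Ne, Fin.ext_iff] at hj hj0
      ext; omega
    subst this
    exact std_const (f j hj) _ _
  · rw [SSet.horn.isCompatible_iff] at hf
    have h1 : ∀ (m : ℕ) (g : (Δ[m] : SSet.{0}) ⟶ Δ[m + 1])
        (g' : (Δ[m] : SSet.{0}) ⟶ Δ[m + 1]) (u v : (Δ[m + 1] : SSet.{0}) ⟶ Dsc T),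
        g ≫ u = g' ≫ v → ∀ {k k' : SimplexCategoryᵒᵖ} (s : (Δ[m + 1] : SSet.{0}).obj k)
        (s' : (Δ[m + 1] : SSet.{0}).obj k'), (u.app k s : T) = v.app k' s' := by
      intro m g g' u v h k k' s s'
      have h2 := ConcreteCategory.congr_hom (NatTrans.congr_app h (op ⦋m⦌))
        (SSet.stdSimplex.objEquiv.symm (𝟙 ⦋m⦌))
      have h3 : (u.app (op ⦋m⦌) (g.app (op ⦋m⦌) (SSet.stdSimplex.objEquiv.symm (𝟙 ⦋m⦌))) : T) =
        v.app (op ⦋m⦌) (g'.app (op ⦋m⦌) (SSet.stdSimplex.objEquiv.symm (𝟙 ⦋m⦌))) := h2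
      have h4 : (u.app k s : T) =
        u.app (op ⦋m⦌) (g.app (op ⦋m⦌) (SSet.stdSimplex.objEquiv.symm (𝟙 ⦋m⦌))) :=
        std_const u s _
      have h5 : (v.app k' s' : T) =
        v.app (op ⦋m⦌) (g'.app (op ⦋m⦌) (SSet.stdSimplex.objEquiv.symm (𝟙 ⦋m⦌))) :=
        std_const v s' _
      exact h4.trans (h3.trans h5.symm)
    rcases lt_trichotomy j j0 with h | h | h
    · exact (h1 _ _ _ _ _ (hf j j0 hj hj0 h) s
        (SSet.stdSimplex.objEquiv.symm (𝟙 ⦋n + 1⦌) :
          (Δ[n + 1] : SSet.{0}).obj (op ⦋n + 1⦌))).symm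
    · subst h
      exact std_const (f j hj) _ _
    · exact h1 _ _ _ _ _ (hf j0 j hj0 hj h) _ s

/-- Homotopic maps into `Dsc T ^ X` are equal. -/
theorem eq_of_htpy {X P : SSet.{0}} {T : Type} {u v : P ⟶ (ihom X).obj (Dsc T)}
    (h : Nonempty (SSet.Homotopy u v)) : u = v := by
  obtain ⟨H⟩ := h
  obtain ⟨w, hu, hv⟩ : ∃ w : P ⊗ Δ[1] ⟶ (ihom X).obj (Dsc T), SSet.ι₀ ≫ w = u ∧
      SSet.ι₁ ≫ w = v := ⟨H.h, H.h₀, H.h₁⟩
  apply MonoidalClosed.uncurry_injective
  rw [← hu, ← hv, MonoidalClosed.uncurry_natural_left, MonoidalClosed.uncurry_natural_left]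
  generalize MonoidalClosed.uncurry w = q
  have key : ∀ (x : X.obj (op ⦋0⦌)) (p : P.obj (op ⦋0⦌)),
      (q.app (op ⦋0⦌) (x, (SSet.ι₀.app _ p : (P ⊗ Δ[1] : SSet.{0}).obj (op ⦋0⦌))) : T) =
        q.app (op ⦋0⦌) (x, (SSet.ι₁.app _ p : (P ⊗ Δ[1] : SSet.{0}).obj (op ⦋0⦌))) := by
    intro x p
    let e : (X ⊗ (P ⊗ Δ[1]) : SSet.{0}).obj (op ⦋1⦌) :=
      (X.map (SimplexCategory.σ 0).op x, (P.map (SimplexCategory.σ 0).op p,
        SSet.stdSimplex.objEquiv.symm (𝟙 ⦋1⦌)))
    have h0 := dsc_map q (SimplexCategory.δ 1).op e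
    have h1 := dsc_map q (SimplexCategory.δ 0).op e
    have e0 : (X ⊗ (P ⊗ Δ[1]) : SSet.{0}).map (SimplexCategory.δ 1).op e =
        (x, (SSet.ι₀.app _ p : (P ⊗ Δ[1] : SSet.{0}).obj (op ⦋0⦌))) := by
      refine Prod.ext ?_ (Prod.ext ?_ ?_)
      · change X.map _ (X.map _ x) = x
        rw [← sset_comp, ← op_comp, SimplexCategory.δ_comp_σ_succ' (by rfl)]
        exact sset_id X x
      · change P.map _ (P.map _ p) = p
        rw [← sset_comp, ← op_comp, SimplexCategory.δ_comp_σ_succ' (by rfl)]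
        exact sset_id P p
      · ext i
        fin_cases i
        rfl
    have e1 : (X ⊗ (P ⊗ Δ[1]) : SSet.{0}).map (SimplexCategory.δ 0).op e =
        (x, (SSet.ι₁.app _ p : (P ⊗ Δ[1] : SSet.{0}).obj (op ⦋0⦌))) := by
      refine Prod.ext ?_ (Prod.ext ?_ ?_)
      · change X.map _ (X.map _ x) = x
        rw [← sset_comp, ← op_comp, SimplexCategory.δ_comp_σ_self' (by rfl)]
        exact sset_id X x
      · change P.map _ (P.map _ p) = p
        rw [← sset_comp, ← op_comp, SimplexCategory.δ_comp_σ_self' (by rfl)]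
        exact sset_id P p
      · ext i
        fin_cases i
        rfl
    rw [e0] at h0
    rw [e1] at h1
    exact h0.trans h1.symm
  ext k ⟨x, p⟩
  change (q.app k (x, (SSet.ι₀.app _ p : (P ⊗ Δ[1] : SSet.{0}).obj k)) : T) =
    q.app k (x, (SSet.ι₁.app _ p : (P ⊗ Δ[1] : SSet.{0}).obj k))
  obtain ⟨k⟩ := k
  let v : (op k : SimplexCategoryᵒᵖ) ⟶ op ⦋0⦌ := (SimplexCategory.const ⦋0⦌ k 0).op
  have h0 := dsc_map q v (x, (SSet.ι₀.app _ p : (P ⊗ Δ[1] : SSet.{0}).obj (op k)))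
  have h1 := dsc_map q v (x, (SSet.ι₁.app _ p : (P ⊗ Δ[1] : SSet.{0}).obj (op k)))
  refine h0.symm.trans (Eq.trans ?_ h1)
  exact key (X.map v x) (P.map v p)

/-- Weak equivalences induce bijections on maps to discrete simplicial sets. -/
theorem we_bij {X Y : SSet.{0}} {i : X ⟶ Y} (hi : WE i) (T : Type) :
    Function.Bijective fun g : Y ⟶ Dsc T => i ≫ g := by
  obtain ⟨r, h1, h2⟩ := hi (Dsc T) (dsc_kan T)
  have h1 := eq_of_htpy h1
  have h2 := eq_of_htpy h2
  have key : ∀ g : Y ⟶ Dsc T, MonoidalClosed.curry ((ρ_ Y).hom ≫ g) ≫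
      (MonoidalClosed.pre i).app (Dsc T) = MonoidalClosed.curry ((ρ_ X).hom ≫ i ≫ g) := by
    intro g
    rw [MonoidalClosed.curry_pre_app]
    congr 1
  constructor
  · intro g g' hg
    have h3 := congrArg (fun t => t ≫ r) ((key g).trans ((congrArg (fun t =>
      MonoidalClosed.curry ((ρ_ X).hom ≫ t)) hg).trans (key g').symm))
    simp only [Category.assoc, h1, Category.comp_id] at h3
    have h4 := MonoidalClosed.curry_injective h3
    exact (cancel_epi (ρ_ Y).hom).1 h4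
  · intro f
    refine ⟨(ρ_ Y).inv ≫ MonoidalClosed.uncurry (MonoidalClosed.curry ((ρ_ X).hom ≫ f) ≫ r), ?_⟩
    have h3 := key ((ρ_ Y).inv ≫ MonoidalClosed.uncurry
      (MonoidalClosed.curry ((ρ_ X).hom ≫ f) ≫ r))
    rw [Iso.hom_inv_id_assoc, MonoidalClosed.curry_uncurry, Category.assoc, h2,
      Category.comp_id] at h3
    have h4 := MonoidalClosed.curry_injective h3
    exact ((cancel_epi (ρ_ X).hom).1 h4).symm

section

variable {A : Type} [SmallCategory A]

theorem disc_injFib (F : Aᵒᵖ ⥤ Type) : InjFib (disc F) := by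
  intro X Y i hi f
  have hb := fun a : Aᵒᵖ => we_bij (hi.2 a) (F.obj a)
  choose g hg using fun a : Aᵒᵖ => (hb a).2 (f.app a)
  refine ⟨{ app := g, naturality := ?_ }, ?_⟩
  · intro a b h
    apply (we_bij (hi.2 a) (F.obj b)).1
    change i.app a ≫ Y.map h ≫ g b = i.app a ≫ g a ≫ (disc F).map h
    have h1 : i.app a ≫ Y.map h = X.map h ≫ i.app b := (i.naturality h).symm
    have h2 : i.app b ≫ g b = f.app b := hg b
    have h3 : i.app a ≫ g a = f.app a := hg a
    rw [reassoc_of% h1, h2, reassoc_of% h3]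
    exact f.naturality h
  · ext a : 2
    exact hg a

/-- Simplices of the mapping space into a discrete presheaf do not depend on the simplex
coordinate. -/
theorem mps_const {X : SP A} {F : Aᵒᵖ ⥤ Type} {m : SimplexCategory} (φ : MpS X (disc F) m)
    (a : Aᵒᵖ) (k : SimplexCategoryᵒᵖ) (s s' : k.unop ⟶ m) (x : (X.obj a).obj k) :
    φ.app a k s x = φ.app a k s' x := by
  have hr : ∀ {k l : SimplexCategoryᵒᵖ} (g : k ⟶ l) (s : k.unop ⟶ m) (x : (X.obj a).obj k),
      (φ.app a l (g.unop ≫ s) ((X.obj a).map g x) : F.obj a) = φ.app a k s x :=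
    fun g s x => φ.nat_right a g s x
  have key : ∀ (y : (X.obj a).obj (op ⦋0⦌)) (e : ⦋1⦌ ⟶ m),
      (φ.app a (op ⦋0⦌) (SimplexCategory.δ 1 ≫ e) y : F.obj a) =
        φ.app a (op ⦋0⦌) (SimplexCategory.δ 0 ≫ e) y := by
    intro y e
    have h0 := hr (k := op ⦋1⦌) (l := op ⦋0⦌) (SimplexCategory.δ 1).op e
      ((X.obj a).map (SimplexCategory.σ 0).op y)
    have h1 := hr (k := op ⦋1⦌) (l := op ⦋0⦌) (SimplexCategory.δ 0).op e
      ((X.obj a).map (SimplexCategory.σ 0).op y)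
    rw [← sset_comp, ← op_comp, SimplexCategory.δ_comp_σ_succ' (by rfl), op_id, sset_id] at h0
    rw [← sset_comp, ← op_comp, SimplexCategory.δ_comp_σ_self' (by rfl), op_id, sset_id] at h1
    exact h0.trans h1.symm
  have hv : ∀ (y : (X.obj a).obj (op ⦋0⦌)) (p p' : ⦋0⦌ ⟶ m),
      (φ.app a (op ⦋0⦌) p y : F.obj a) = φ.app a (op ⦋0⦌) p' y := by
    have hle : ∀ (y : (X.obj a).obj (op ⦋0⦌)) (p p' : ⦋0⦌ ⟶ m),
        p.toOrderHom 0 ≤ p'.toOrderHom 0 →
        (φ.app a (op ⦋0⦌) p y : F.obj a) = φ.app a (op ⦋0⦌) p' y := by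
      intro y p p' h
      let e : ⦋1⦌ ⟶ m := SimplexCategory.Hom.mk
        ⟨fun i => if i = 0 then p.toOrderHom 0 else p'.toOrderHom 0, by
          intro i j hij
          dsimp only
          split_ifs with h1 h2 h2
          · exact le_rfl
          · exact h
          · exfalso
            subst h2
            exact h1 (Fin.le_zero_iff.1 hij)
          · exact le_rfl⟩
      have h1 := key y e
      have e0 : SimplexCategory.δ 1 ≫ e = p := by
        ext i : 3
        fin_cases i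
        rfl
      have e1 : SimplexCategory.δ 0 ≫ e = p' := by
        ext i : 3
        fin_cases i
        rfl
      rwa [e0, e1] at h1
    intro y p p'
    rcases le_total (p.toOrderHom 0) (p'.toOrderHom 0) with h | h
    · exact hle y p p' h
    · exact (hle y p' p h).symm
  obtain ⟨k⟩ := k
  let v : (op k : SimplexCategoryᵒᵖ) ⟶ op ⦋0⦌ := (SimplexCategory.const ⦋0⦌ k 0).op
  have h0 := hr v s x
  have h1 := hr v s' x
  exact h0.symm.trans ((hv _ _ _).trans h1)

/-- The strict map underlying a simplex of the mapping space into a discrete presheaf. -/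
def toHom {X : SP A} {F : Aᵒᵖ ⥤ Type} {m : SimplexCategory} (φ : MpS X (disc F) m) :
    X ⟶ disc F where
  app a :=
    { app := fun k => ↾ fun x => φ.app a k (SimplexCategory.const k.unop m 0) x
      naturality := fun k l α => by
        ext x
        exact (mps_const φ a l _ _ _).trans (φ.nat_right a α _ x) }
  naturality a b f := by
    ext k x
    exact φ.nat_left f k _ x

theorem ofHom_toHom {X : SP A} {F : Aᵒᵖ ⥤ Type} {m : SimplexCategory} (φ : MpS X (disc F) m) :
    MpS.ofHom m (toHom φ) = φ := by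
  refine MpS.ext ?_
  funext a k s x
  exact mps_const φ a k _ _ _

theorem toHom_ofHom {X : SP A} {F : Aᵒᵖ ⥤ Type} (m : SimplexCategory) (f : X ⟶ disc F) :
    toHom (MpS.ofHom m f) = f := rfl

theorem hoEq_of_isIso' {X Y : SSet.{0}} (f : X ⟶ Y) [IsIso f] : HoEq f :=
  ⟨inv f, by rw [IsIso.hom_inv_id]; exact ⟨SSet.RelativeMorphism.Homotopy.refl _⟩,
    by rw [IsIso.inv_hom_id]; exact ⟨SSet.RelativeMorphism.Homotopy.refl _⟩⟩

/-- Mapping spaces into discrete presheaves are discrete: if `f : X ⟶ Y` induces a bijection on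
maps to `disc F`, then it induces an isomorphism of mapping spaces. -/
theorem hoEq_disc {X Y : SP A} (f : X ⟶ Y) (F : Aᵒᵖ ⥤ Type)
    (h : Function.Bijective fun g : Y ⟶ disc F => f ≫ g) : HoEq (Mp.pre f (disc F)) := by
  have hb : ∀ k : SimplexCategoryᵒᵖ, Function.Bijective fun φ : MpS Y (disc F) k.unop =>
      (MpS.ofHom k.unop f).comp φ := by
    intro k
    constructor
    · intro φ φ' hφ
      have h1 : f ≫ toHom φ = f ≫ toHom φ' := by
        have h2 := congrArg toHom hφ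
        exact h2
      rw [← ofHom_toHom φ, ← ofHom_toHom φ', h.1 h1]
    · intro ψ
      obtain ⟨g, hg⟩ := h.2 (toHom ψ)
      refine ⟨MpS.ofHom k.unop g, ?_⟩
      rw [← ofHom_toHom ψ, ← hg]
      rfl
  have : IsIso (Mp.pre f (disc F)) := by
    have : ∀ k, IsIso ((Mp.pre f (disc F)).app k) := by
      intro k
      rw [isIso_iff_bijective]
      exact hb k
    exact NatIso.isIso_of_isIso_app _
  exact hoEq_of_isIso' _

end

end Helper61FL
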