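import Pool.Agent.Helper61.HilbFr2

/-!
# Adding a point: `t(d+1,n) ≥ t(d,n) + n`
-/

open MvPolynomial Module Matrix TopologicalSpace

namespace Pool.Agent.Hilb61

universe u

variable {k : Type u} [Field k] {n d m : ℕ}

/-- Block diagonal matrix with a first block of size one. -/
def blk1 (q : k) (M : Matrix (Fin d) (Fin d) k) : Matrix (Fin (d + 1)) (Fin (d + 1)) k :=
  Matrix.of fun r s => Fin.cases (motive := fun _ => k) (Fin.cases (motive := fun _ => k) q
    (fun _ => 0) s) (fun r' => Fin.cases (motive := fun _ => k) 0 (fun s' => M r' s') s) r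

@[simp] lemma blk1_zero_zero (q : k) (M : Matrix (Fin d) (Fin d) k) : blk1 q M 0 0 = q := rfl
@[simp] lemma blk1_zero_succ (q : k) (M : Matrix (Fin d) (Fin d) k) (s : Fin d) :
    blk1 q M 0 s.succ = 0 := rfl
@[simp] lemma blk1_succ_zero (q : k) (M : Matrix (Fin d) (Fin d) k) (s : Fin d) :
    blk1 q M s.succ 0 = 0 := rfl
@[simp] lemma blk1_succ_succ (q : k) (M : Matrix (Fin d) (Fin d) k) (r s : Fin d) :
    blk1 q M r.succ s.succ = M r s := rfl

lemma blk1_mul (q q' : k) (M M' : Matrix (Fin d) (Fin d) k) :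
    blk1 q M * blk1 q' M' = blk1 (q * q') (M * M') := by
  ext r s
  rw [Matrix.mul_apply, Fin.sum_univ_succ]
  refine Fin.cases ?_ (fun r' => ?_) r <;> refine Fin.cases ?_ (fun s' => ?_) s <;>
    simp [Matrix.mul_apply]

lemma blk1_one : blk1 (1 : k) (1 : Matrix (Fin d) (Fin d) k) = 1 := by
  ext r s
  refine Fin.cases ?_ (fun r' => ?_) r <;> refine Fin.cases ?_ (fun s' => ?_) s
  · simp
  · simp [(Fin.succ_ne_zero _).symm]
  · simp
  · simp [Matrix.one_apply]

lemma blk1_mulVec (q y : k) (M : Matrix (Fin d) (Fin d) k) (v : Fin d → k) :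
    blk1 q M *ᵥ (Fin.cons y v : Fin (d + 1) → k) = Fin.cons (q * y) (M *ᵥ v) := by
  funext r
  rw [mulVec, dotProduct, Fin.sum_univ_succ]
  refine Fin.cases ?_ (fun r' => ?_) r
  · simp
  · simp [mulVec, dotProduct]

/-- The framed tuple with an additional point. -/
def addL (k : Type u) [Field k] (n d : ℕ) :
    ((Coord n d → k) × (Fin n → k) × k) →ₗ[k] (Coord n (d + 1) → k) where
  toFun p := mk (fun i => blk1 (p.2.1 i) (mats p.1 i)) (Fin.cons p.2.2 (vect p.1))
  map_add' p p' := by
    funext x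
    rcases x with ⟨i, r, s⟩ | r
    · refine Fin.cases ?_ (fun r' => ?_) r <;> refine Fin.cases ?_ (fun s' => ?_) s <;>
        simp [mk]
    · refine Fin.cases ?_ (fun r' => ?_) r <;> simp [mk]
  map_smul' t p := by
    funext x
    rcases x with ⟨i, r, s⟩ | r
    · refine Fin.cases ?_ (fun r' => ?_) r <;> refine Fin.cases ?_ (fun s' => ?_) s <;>
        simp [mk]
    · refine Fin.cases ?_ (fun r' => ?_) r <;> simp [mk]

lemma mats_addL (c : Coord n d → k) (q : Fin n → k) (y : k) (i : Fin n) :
    mats (addL k n d (c, q, y)) i = blk1 (q i) (mats c i) := rfl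

lemma vect_addL (c : Coord n d → k) (q : Fin n → k) (y : k) :
    vect (addL k n d (c, q, y)) = Fin.cons y (vect c) := rfl

lemma addL_Rset {c : Coord n d → k} {p : Fin d → Fin n → k} (hp : Function.Injective p)
    {U U' : Matrix (Fin d) (Fin d) k} (hU : U * U' = 1)
    (h1 : ∀ a i s, p a i * U a s = (U * mats c i) a s) (h2 : ∀ a, (U *ᵥ vect c) a = 1)
    {q : Fin n → k} (hq : ∀ a, p a ≠ q) : addL k n d (c, q, 1) ∈ Rset k n (d + 1) := by
  refine ⟨Fin.cons q p, ?_, blk1 1 U, blk1 1 U', ?_, ?_, ?_⟩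
  · rw [Fin.cons_injective_iff]
    refine ⟨?_, hp⟩
    rintro ⟨a, ha⟩
    exact hq a ha
  · rw [blk1_mul, hU, one_mul, blk1_one]
  · intro a i s
    rw [mats_addL, blk1_mul]
    refine Fin.cases ?_ (fun a' => ?_) a <;> refine Fin.cases ?_ (fun s' => ?_) s
    · simp
    · simp
    · simp
    · simp [h1]
  · intro a
    rw [vect_addL, blk1_mulVec]
    refine Fin.cases ?_ (fun a' => ?_) a
    · simp
    · simp [h2]

lemma addL_curve (c : Coord n d → k) (q u : Fin n → k) (t : k) :
    (fun x => (Polynomial.C (addL k n d (c, q, 1) x) +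
      Polynomial.X * Polynomial.C (addL k n d (0, u, 0) x)).eval t) =
      addL k n d (c, q + t • u, 1) := by
  have h1 : addL k n d (c, q + t • u, 1) = addL k n d (c, q, 1) + t • addL k n d (0, u, 0) := by
    rw [← map_smul, ← map_add]
    congr 1
    simp
  rw [h1]
  funext x
  simp only [Polynomial.eval_add, Polynomial.eval_C, Polynomial.eval_mul, Polynomial.eval_X,
    Pi.add_apply, Pi.smul_apply, smul_eq_mul]

lemma addL_Zset_of_Rset [Infinite k] (i0 : Fin n) {c : Coord n d → k} (hc : c ∈ Rset k n d)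
    (q : Fin n → k) : addL k n d (c, q, 1) ∈ Zset k n (d + 1) := by
  obtain ⟨p, hp, U, U', hU, h1, h2⟩ := hc
  have h := Zset_of_curve (fun x => Polynomial.C (addL k n d (c, q, 1) x) +
      Polynomial.X * Polynomial.C (addL k n d (0, Pi.single i0 1, 0) x)) (by
    have h3 : ∀ᶠ t : k in Filter.cofinite, ∀ a : Fin d, t ≠ p a i0 - q i0 :=
      Filter.eventually_all.mpr fun a => Filter.eventually_cofinite_ne _
    filter_upwards [h3] with t ht
    rw [addL_curve]
    apply Rset_subset_Zset
    apply addL_Rset hp hU h1 h2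
    intro a ha
    apply ht a
    have := congrFun ha i0
    rw [this]
    simp) 0
  rw [addL_curve] at h
  simpa using h

lemma addL_push [Infinite k] (i0 : Fin n) (q : Fin n → k) :
    (∀ c ∈ Zset k n d, addL k n d (c, q, 1) ∈ Zset k n (d + 1)) ∧
      ∀ c w, w ∈ tanR c → addL k n d (w, 0, 0) ∈ tanR (addL k n d (c, q, 1)) := by
  have hL : ∀ c : Coord n d → k, ((addL k n d).comp (LinearMap.inl k _ _)) c +
      addL k n d (0, q, 1) = addL k n d (c, q, 1) := by
    intro c
    rw [LinearMap.comp_apply, LinearMap.inl_apply, ← map_add]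
    congr 1
    simp
  have h := affine_push ((addL k n d).comp (LinearMap.inl k _ _)) (addL k n d (0, q, 1))
    (fun c hc => by rw [hL]; exact addL_Zset_of_Rset i0 hc q)
  refine ⟨fun c hc => ?_, fun c w hw => ?_⟩
  · have := h.1 c hc
    rwa [hL] at this
  · have := h.2 c w hw
    rwa [hL] at this

lemma addL_tanR [Infinite k] (i0 : Fin n) (q u : Fin n → k) {c : Coord n d → k}
    (hc : c ∈ Zset k n d) : addL k n d (0, u, 0) ∈ tanR (addL k n d (c, q, 1)) := by
  have h := tanR_of_curve (fun x => Polynomial.C (addL k n d (c, q, 1) x) +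
      Polynomial.X * Polynomial.C (addL k n d (0, u, 0) x)) (by
    apply Filter.Eventually.of_forall
    intro t
    rw [addL_curve]
    exact (addL_push i0 _).1 c hc)
  rw [addL_curve, zero_smul, add_zero] at h
  have h1 : (fun x => (Polynomial.derivative (Polynomial.C (addL k n d (c, q, 1) x) +
      Polynomial.X * Polynomial.C (addL k n d (0, u, 0) x))).eval 0) =
      addL k n d (0, u, 0) := by
    funext x
    simp
  rwa [h1] at h

lemma addL_Cset {i0 : Fin n} {c : Coord n d → k} (hc : c ∈ Cset k n d) {q : Fin n → k}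
    {B : Matrix (Fin d) (Fin d) k} (hB : (mats c i0 - q i0 • 1) * B = 1) :
    addL k n d (c, q, 1) ∈ Cset k n (d + 1) := by
  refine ⟨?_, ?_⟩
  · intro i j
    rw [mats_addL, mats_addL, blk1_mul, blk1_mul, hc.1 i j, mul_comm]
  · intro W h0 hW
    rw [vect_addL] at h0
    have hW' : ∀ i y (x : Fin d → k), (Fin.cons y x : Fin (d + 1) → k) ∈ W →
        (Fin.cons (q i * y) (mats c i *ᵥ x) : Fin (d + 1) → k) ∈ W := by
      intro i y x hx
      have := hW i _ hx
      rwa [mats_addL, blk1_mulVec] at this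
    let ι : (Fin d → k) →ₗ[k] (Fin (d + 1) → k) :=
      { toFun := fun x => Fin.cons 0 x
        map_add' := by
          intro x y
          funext r
          refine Fin.cases ?_ (fun r' => ?_) r <;> simp
        map_smul' := by
          intro t x
          funext r
          refine Fin.cases ?_ (fun r' => ?_) r <;> simp }
    have hι : ∀ x, ι x = Fin.cons 0 x := fun x => rfl
    let T : (Fin d → k) →ₗ[k] (Fin d → k) := Matrix.toLin' (mats c i0 - q i0 • 1)
    have hT : ∀ x, T x = mats c i0 *ᵥ x - q i0 • x := by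
      intro x
      show (mats c i0 - q i0 • 1) *ᵥ x = _
      rw [sub_mulVec, smul_mulVec, one_mulVec]
    have hsmall : ∀ x, ι (T x) ∈ W := by
      have h1 := hc.2 (W.comap (ι.comp T)) (by
        show ι (T (vect c)) ∈ W
        have h2 := W.sub_mem (hW' i0 1 (vect c) h0) (W.smul_mem (q i0) h0)
        have h3 : (Fin.cons (q i0 * 1) (mats c i0 *ᵥ vect c) : Fin (d + 1) → k) -
            q i0 • (Fin.cons 1 (vect c) : Fin (d + 1) → k) = ι (T (vect c)) := by
          rw [hT, hι]
          funext r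
          refine Fin.cases ?_ (fun r' => ?_) r <;> simp
        rwa [h3] at h2) (by
        intro i x hx
        have hx' : ι (T x) ∈ W := hx
        rw [hι] at hx'
        have h2 := hW' i 0 _ hx'
        rw [mul_zero] at h2
        show ι (T (mats c i *ᵥ x)) ∈ W
        have h3 : T (mats c i *ᵥ x) = mats c i *ᵥ T x := by
          rw [hT, hT, mulVec_sub, mulVec_smul, mulVec_mulVec, mulVec_mulVec, hc.1]
        rw [h3, hι]
        exact h2)
      intro x
      have : x ∈ W.comap (ι.comp T) := by rw [h1]; trivial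
      exact this
    have hall : ∀ x, ι x ∈ W := by
      intro x
      have := hsmall (B *ᵥ x)
      have h2 : T (B *ᵥ x) = x := by
        show (mats c i0 - q i0 • 1) *ᵥ (B *ᵥ x) = x
        rw [mulVec_mulVec, hB, one_mulVec]
      rwa [h2] at this
    rw [eq_top_iff]
    intro x _
    have h1 : x = x 0 • (Fin.cons 1 (vect c) : Fin (d + 1) → k) +
        ι (fun r => x r.succ - x 0 * vect c r) := by
      rw [hι]
      funext r
      refine Fin.cases ?_ (fun r' => ?_) r <;> simp
    rw [h1]
    exact W.add_mem (W.smul_mem _ h0) (hall _)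

/-- Every framed tuple is the coordinate vector of some chart. -/
lemma exists_chart (c : Cset k n d) :
    ∃ lam : Fin d → MvPolynomial (Fin n) k, IsCoord lam (toHilb c).1 c.1 := by
  have hs : ∀ s : Fin d, ∃ f, evHom (mats c.1) c.2.1 f *ᵥ vect c.1 =
      (1 : Matrix (Fin d) (Fin d) k) *ᵥ Pi.single s 1 := by
    intro s
    obtain ⟨r, hr, hrv⟩ := exists_Alg c.2.2 (Pi.single s 1 : Fin d → k)
    obtain ⟨f, rfl⟩ := exists_evHom_of_mem c.2.1 hr
    exact ⟨f, by rw [hrv, one_mulVec]⟩
  choose lam hlam using hs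
  refine ⟨lam, ?_⟩
  have h := isCoord_Jc c.2 (g' := 1) (mul_one 1) hlam
  have e : mk (fun i => 1 * mats c.1 i * 1) (1 *ᵥ vect c.1) = c.1 := by
    simp only [Matrix.one_mul, Matrix.mul_one, one_mulVec]
    exact mk_eta _
  rw [e] at h
  exact h

/-- The tangent vectors of the scheme with an additional point. -/
def addW (lam : Fin d → MvPolynomial (Fin n) k) (c : Coord n d → k) :
    (tangent lam c × (Fin n → k)) →ₗ[k] (Coord n (d + 1) → k) where
  toFun p := addL k n d (p.1.1, p.2, 0)
  map_add' p p' := by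
    rw [← map_add]
    congr 1
    simp
  map_smul' t p := by
    rw [← map_smul]
    congr 1
    simp

lemma addW_apply (lam : Fin d → MvPolynomial (Fin n) k) (c : Coord n d → k)
    (p : tangent lam c × (Fin n → k)) : addW lam c p = addL k n d (p.1.1, p.2, 0) := rfl

lemma addL_injective : Function.Injective (addL k n d) := by
  rintro ⟨c, q, y⟩ ⟨c', q', y'⟩ h
  have h1 : ∀ i, blk1 (q i) (mats c i) = blk1 (q' i) (mats c' i) := by
    intro i
    have := congrArg (fun x => mats x i) h
    exact this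
  have h2 : (Fin.cons y (vect c) : Fin (d + 1) → k) = Fin.cons y' (vect c') :=
    congrArg vect h
  have h3 : q = q' := by
    funext i
    exact congrFun (congrFun (h1 i) 0) 0
  have h4 : y = y' := congrFun h2 0
  have h5 : c = c' := by
    funext x
    rcases x with ⟨i, r, s⟩ | r
    · exact congrFun (congrFun (h1 i) r.succ) s.succ
    · exact congrFun h2 r.succ
  rw [h3, h4, h5]

lemma addW_injective (lam : Fin d → MvPolynomial (Fin n) k) (c : Coord n d → k) :
    Function.Injective (addW lam c) := by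
  rintro ⟨⟨w, hw⟩, u⟩ ⟨⟨w', hw'⟩, u'⟩ h
  have h1 := addL_injective h
  simp only [Prod.mk.injEq] at h1
  obtain ⟨h2, h3, -⟩ := h1
  subst h2
  subst h3
  rfl

lemma addW_inf_orb {i0 : Fin n} {lam : Fin d → MvPolynomial (Fin n) k}
    {I : Ideal (MvPolynomial (Fin n) k)} {c : Coord n d → k} (h : IsCoord lam I c)
    {q : Fin n → k} {B : Matrix (Fin d) (Fin d) k} (hB : (mats c i0 - q i0 • 1) * B = 1) :
    LinearMap.range (addW lam c) ⊓ LinearMap.range (orb (addL k n d (c, q, 1))) = ⊥ := by
  have hB' : B * (mats c i0 - q i0 • 1) = 1 := mul_eq_one_comm.mp hB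
  rw [eq_bot_iff]
  rintro _ ⟨⟨⟨⟨w, hw⟩, u⟩, rfl⟩, Y, hY⟩
  rw [Submodule.mem_bot]
  rw [addW_apply] at hY ⊢
  simp only at hY ⊢
  have hm : ∀ i, Y * blk1 (q i) (mats c i) - blk1 (q i) (mats c i) * Y =
      blk1 (u i) (mats w i) := by
    intro i
    have := congrArg (fun x => mats x i) hY
    exact this
  have hv : Y *ᵥ (Fin.cons 1 (vect c) : Fin (d + 1) → k) = Fin.cons 0 (vect w) :=
    congrArg vect hY
  -- the off-diagonal blocks vanish
  have h01 : (fun s : Fin d => Y 0 s.succ) = 0 := by
    have h1 : (fun s : Fin d => Y 0 s.succ) ᵥ* (mats c i0 - q i0 • 1) = 0 := by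
      funext s
      have h2 := congrFun (congrFun (hm i0) 0) s.succ
      rw [Matrix.sub_apply, Matrix.mul_apply, Matrix.mul_apply, Fin.sum_univ_succ,
        Fin.sum_univ_succ] at h2
      simp only [blk1_zero_succ, blk1_succ_succ, blk1_zero_zero, mul_zero, zero_add, zero_mul,
        Finset.sum_const_zero, add_zero] at h2
      rw [vecMul_sub, vecMul_smul, vecMul_one]
      simp only [Pi.sub_apply, Pi.smul_apply, smul_eq_mul, Pi.zero_apply]
      exact h2
    have h2 := congrArg (fun x => x ᵥ* B) h1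
    simpa [vecMul_vecMul, hB] using h2
  have h10 : (fun r : Fin d => Y r.succ 0) = 0 := by
    have h1 : (mats c i0 - q i0 • 1) *ᵥ (fun r : Fin d => Y r.succ 0) = 0 := by
      funext r
      have h2 := congrFun (congrFun (hm i0) r.succ) 0
      rw [Matrix.sub_apply, Matrix.mul_apply, Matrix.mul_apply, Fin.sum_univ_succ,
        Fin.sum_univ_succ] at h2
      simp only [blk1_succ_zero, blk1_succ_succ, blk1_zero_zero, mul_zero, zero_add, zero_mul,
        Finset.sum_const_zero, add_zero] at h2
      rw [sub_mulVec, smul_mulVec, one_mulVec]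
      simp only [Pi.sub_apply, Pi.smul_apply, smul_eq_mul, Pi.zero_apply]
      have h3 : (mats c i0 *ᵥ fun r : Fin d => Y r.succ 0) r =
          ∑ i, mats c i0 r i * Y i.succ 0 := rfl
      rw [h3]
      linear_combination -h2
    have h2 := congrArg (fun x => B *ᵥ x) h1
    simpa [mulVec_mulVec, hB'] using h2
  have hu : u = 0 := by
    funext i
    have h2 := congrFun (congrFun (hm i) 0) 0
    rw [Matrix.sub_apply, Matrix.mul_apply, Matrix.mul_apply, Fin.sum_univ_succ,
      Fin.sum_univ_succ] at h2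
    simp only [blk1_succ_zero, blk1_zero_succ, blk1_zero_zero, mul_zero, zero_mul,
      Finset.sum_const_zero, add_zero] at h2
    rw [← h2]
    simp [mul_comm]
  let Y' : Matrix (Fin d) (Fin d) k := Matrix.of fun r s => Y r.succ s.succ
  have hw' : w = orb c Y' := by
    funext x
    rcases x with ⟨i, r, s⟩ | r
    · have h2 := congrFun (congrFun (hm i) r.succ) s.succ
      rw [Matrix.sub_apply, Matrix.mul_apply, Matrix.mul_apply, Fin.sum_univ_succ,
        Fin.sum_univ_succ] at h2
      simp only [blk1_zero_succ, blk1_succ_zero, blk1_succ_succ, mul_zero, zero_mul,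
        zero_add] at h2
      show mats w i r s = _
      rw [← h2]
      simp only [orb, LinearMap.coe_mk, AddHom.coe_mk, Sum.elim_inl, Matrix.sub_apply,
        Matrix.mul_apply]
      rfl
    · have h2 := congrFun hv r.succ
      rw [Fin.cons_succ, mulVec, dotProduct, Fin.sum_univ_succ] at h2
      have h3 := congrFun h10 r
      simp only [Pi.zero_apply] at h3
      rw [h3, zero_mul, zero_add] at h2
      show vect w r = _
      rw [← h2]
      simp only [Fin.cons_succ, orb, LinearMap.coe_mk, AddHom.coe_mk, Sum.elim_inr, mulVec,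
        dotProduct]
      rfl
  have h3 : w ∈ tangent lam c ⊓ LinearMap.range (orb c) := ⟨hw, Y', hw'.symm⟩
  rw [tangent_inf_orb h, Submodule.mem_bot] at h3
  subst h3
  subst hu
  show addL k n d 0 = 0
  exact map_zero _

/-- **Adding a point.** -/
theorem exists_add_point [Infinite k] (i0 : Fin n) {x : Hilb k n d} (hx : x ∈ smoothable k n d)
    {N : ℕ} (hN : HasTangentDim x N) :
    ∃ x' ∈ smoothable k n (d + 1), ∃ N', HasTangentDim x' N' ∧ N + n ≤ N' := by
  obtain ⟨lam, c, h, rfl⟩ := hN
  have hcZ : c ∈ Zset k n d := Zset_of_smoothable hx h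
  -- a value which is not an eigenvalue
  obtain ⟨q0, hq0⟩ : ∃ q0 : k, (mats c i0 - q0 • 1).det ≠ 0 := by
    have h1 : (mats c i0).charpoly ≠ 0 := (mats c i0).charpoly_monic.ne_zero
    have h2 : ∃ q0 : k, (mats c i0).charpoly.eval q0 ≠ 0 := by
      by_contra h3
      push Not at h3
      exact h1 (Polynomial.funext fun r => by rw [h3, Polynomial.eval_zero])
    obtain ⟨q0, hq⟩ := h2
    refine ⟨q0, ?_⟩
    intro h3
    apply hq
    rw [Matrix.eval_charpoly]
    have h4 : (scalar (Fin d)) q0 - mats c i0 = -(mats c i0 - q0 • 1) := by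
      rw [neg_sub, Matrix.smul_one_eq_diagonal]
      rfl
    rw [h4, Matrix.det_neg, h3, mul_zero]
  obtain ⟨U, hU⟩ := (Matrix.isUnit_iff_isUnit_det _).mpr (isUnit_iff_ne_zero.mpr hq0)
  let q : Fin n → k := fun _ => q0
  have hB : (mats c i0 - q i0 • 1) * (U⁻¹ : (Matrix (Fin d) (Fin d) k)ˣ).1 = 1 := by
    show (mats c i0 - q0 • 1) * _ = 1
    rw [← hU]
    exact U.mul_inv
  have hC : addL k n d (c, q, 1) ∈ Cset k n (d + 1) := addL_Cset h.mem_Cset hB
  have hZ : addL k n d (c, q, 1) ∈ Zset k n (d + 1) := (addL_push i0 q).1 c hcZ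
  obtain ⟨lam', h'⟩ := exists_chart ⟨_, hC⟩
  refine ⟨toHilb ⟨_, hC⟩, smoothable_of_Zset hZ hC, _, ⟨lam', _, h', rfl⟩, ?_⟩
  have h1 := finrank_le_tangent_of_tanR h' hZ (W := LinearMap.range (addW lam c)) (by
    rintro _ ⟨⟨⟨w, hw⟩, u⟩, rfl⟩
    rw [addW_apply]
    have h2 : addL k n d (w, u, 0) = addL k n d (w, 0, 0) + addL k n d (0, u, 0) := by
      rw [← map_add]
      congr 1
      simp
    simp only
    rw [h2]
    exact Submodule.add_mem _ ((addL_push i0 q).2 c w (tangent_le_tanR lam c hw))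
      (addL_tanR i0 q u hcZ)) (addW_inf_orb h hB)
  rw [LinearMap.finrank_range_of_inj (addW_injective lam c), Module.finrank_prod] at h1
  simpa using h1

/-- Adding several points. -/
theorem exists_add_points [Infinite k] (i0 : Fin n) {x : Hilb k n d}
    (hx : x ∈ smoothable k n d) {N : ℕ} (hN : HasTangentDim x N) (m : ℕ) :
    ∃ x' ∈ smoothable k n (d + m), ∃ N', HasTangentDim x' N' ∧ N + n * m ≤ N' := by
  induction m with
  | zero => exact ⟨x, hx, N, hN, by simp⟩
  | succ m ih =>
    obtain ⟨x', hx', N', hN', hle⟩ := ih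
    obtain ⟨x'', hx'', N'', hN'', hle'⟩ := exists_add_point i0 hx' hN'
    refine ⟨x'', hx'', N'', hN'', ?_⟩
    have : n * (m + 1) = n * m + n := by ring
    omega

end Pool.Agent.Hilb61
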