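import Pool.Agent.Helper61.HilbBI

/-!
# Asymptotics of the bound
-/

open Filter Topology Asymptotics

namespace Pool.Agent.Hilb61

lemma tendsto_choose_div (a b : ℕ) :
    Tendsto (fun r : ℕ => ((r + a).choose b : ℝ) / (r : ℝ) ^ b) atTop
      (𝓝 (1 / (b.factorial : ℝ))) := by
  have h1 := isEquivalent_choose b
  have hne : ∀ᶠ x : ℕ in atTop, ((x : ℝ) ^ b / (b.factorial : ℝ)) ≠ 0 := by
    filter_upwards [eventually_ge_atTop 1] with x hx
    have : (0 : ℝ) < x := by exact_mod_cast hx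
    positivity
  rw [isEquivalent_iff_tendsto_one hne] at h1
  have h2 : Tendsto (fun r : ℕ => r + a) atTop atTop := tendsto_add_atTop_nat a
  have h3 := h1.comp h2
  have h4 : Tendsto (fun r : ℕ => (((r + a : ℕ) : ℝ) / (r : ℝ)) ^ b) atTop (𝓝 (1 ^ b)) := by
    apply Tendsto.pow
    have h5 : Tendsto (fun r : ℕ => 1 + (a : ℝ) / (r : ℝ)) atTop (𝓝 (1 + 0)) :=
      tendsto_const_nhds.add (tendsto_const_div_atTop_nhds_zero_nat (a : ℝ))
    rw [add_zero] at h5
    refine h5.congr' ?_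
    filter_upwards [eventually_ge_atTop 1] with r hr
    have : (0 : ℝ) < r := by exact_mod_cast hr
    push_cast
    field_simp
  have h6 := (h3.mul h4).mul_const (1 / (b.factorial : ℝ))
  rw [one_pow, mul_one, one_mul] at h6
  refine h6.congr' ?_
  filter_upwards [eventually_ge_atTop 1] with r hr
  have h7 : (0 : ℝ) < r := by exact_mod_cast hr
  have h8 : (0 : ℝ) < ((r + a : ℕ) : ℝ) := by positivity
  have h9 : (0 : ℝ) < (b.factorial : ℝ) := by positivity
  simp only [Function.comp, Pi.div_apply]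
  rw [div_pow]
  field_simp

/-- The value at powers of the maximal ideal. -/
def Tr (n r : ℕ) : ℕ := (n + r - 1).choose (n - 1) * (n + r - 2).choose (n - 1)

lemma tendsto_Tr {n : ℕ} (_hn : 2 ≤ n) (a : ℕ) :
    Tendsto (fun r : ℕ => (Tr n (r + a) : ℝ) / (r : ℝ) ^ (2 * (n - 1))) atTop
      (𝓝 (1 / ((n - 1).factorial : ℝ) * (1 / ((n - 1).factorial : ℝ)))) := by
  have h1 := tendsto_choose_div (n + a - 1) (n - 1)
  have h2 := tendsto_choose_div (n + a - 2) (n - 1)
  refine (h1.mul h2).congr fun r => ?_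
  rw [Tr, show n + (r + a) - 1 = r + (n + a - 1) by omega,
    show n + (r + a) - 2 = r + (n + a - 2) by omega, two_mul, pow_add]
  push_cast
  rw [div_mul_div_comm]

lemma tendsto_Dn {n : ℕ} (hn : 1 ≤ n) (a : ℕ) :
    Tendsto (fun r : ℕ => (Dn n (r + a) : ℝ) / (r : ℝ) ^ n) atTop
      (𝓝 (1 / (n.factorial : ℝ))) := by
  refine (tendsto_choose_div (n - 1 + a) n).congr fun r => ?_
  rw [Dn, show n - 1 + (r + a) = r + (n - 1 + a) by omega]

lemma tendsto_ratio {n : ℕ} (hn : 2 ≤ n) (a b : ℕ) :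
    Tendsto (fun r : ℕ => (Tr n (r + a) : ℝ) / ((Dn n (r + b) : ℝ)) ^ ((2 : ℝ) - 2 / n)) atTop
      (𝓝 ((n : ℝ) ^ 2 / ((n.factorial : ℝ)) ^ ((2 : ℝ) / n))) := by
  have hn0 : (0 : ℝ) < n := by
    have : 0 < n := by omega
    exact_mod_cast this
  have hs : (0 : ℝ) ≤ (2 : ℝ) - 2 / n := by
    have h2 : (2 : ℝ) ≤ n := by exact_mod_cast hn
    have : (2 : ℝ) / n ≤ 2 := by
      rw [div_le_iff₀ hn0]
      nlinarith
    linarith
  have h1 := tendsto_Tr hn a
  have h2 := tendsto_Dn (show 1 ≤ n by omega) b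
  have h3 : Tendsto (fun r : ℕ => ((Dn n (r + b) : ℝ) / (r : ℝ) ^ n) ^ ((2 : ℝ) - 2 / n)) atTop
      (𝓝 ((1 / (n.factorial : ℝ)) ^ ((2 : ℝ) - 2 / n))) := by
    apply h2.rpow_const
    right
    exact hs
  have hf : (0 : ℝ) < (n.factorial : ℝ) := by positivity
  have hpos : (0 : ℝ) < (1 / (n.factorial : ℝ)) ^ ((2 : ℝ) - 2 / n) :=
    Real.rpow_pos_of_pos (by positivity) _
  have h4 := h1.div h3 hpos.ne'
  have e1 : 1 / ((n - 1).factorial : ℝ) * (1 / ((n - 1).factorial : ℝ)) /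
      (1 / (n.factorial : ℝ)) ^ ((2 : ℝ) - 2 / n) =
      (n : ℝ) ^ 2 / ((n.factorial : ℝ)) ^ ((2 : ℝ) / n) := by
    have hfac : (n.factorial : ℝ) = n * ((n - 1).factorial : ℝ) := by
      rw [← Nat.cast_mul, Nat.mul_factorial_pred (by omega)]
    have hg : (0 : ℝ) < ((n - 1).factorial : ℝ) := by positivity
    rw [one_div (n.factorial : ℝ), Real.inv_rpow hf.le, Real.rpow_sub hf, Real.rpow_two]
    have h5 : (0 : ℝ) < (n.factorial : ℝ) ^ ((2 : ℝ) / n) := Real.rpow_pos_of_pos hf _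
    field_simp
    rw [hfac]
    ring
  rw [e1] at h4
  refine h4.congr' ?_
  filter_upwards [eventually_ge_atTop 1] with r hr
  have h7 : (0 : ℝ) < r := by exact_mod_cast hr
  have h8 : ((r : ℝ) ^ n) ^ ((2 : ℝ) - 2 / n) = (r : ℝ) ^ (2 * (n - 1)) := by
    rw [← Real.rpow_natCast, ← Real.rpow_mul h7.le, ← Real.rpow_natCast]
    congr 1
    rw [Nat.cast_mul, Nat.cast_sub (by omega)]
    push_cast
    field_simp
  simp only [Pi.div_apply]
  rw [Real.div_rpow (by positivity) (by positivity), h8]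
  field_simp

/-- The asymptotic formula from the two-sided bound. -/
theorem tendsto_of_bounds {n : ℕ} (hn : 2 ≤ n) {t : ℕ → ℕ}
    (h : ∀ r d, 1 ≤ r → Dn n r ≤ d → d ≤ Dn n (r + 1) → Tr n r ≤ t d ∧ t d ≤ Tr n (r + 1)) :
    Tendsto (fun d : ℕ => (t d : ℝ) / (d : ℝ) ^ ((2 : ℝ) - 2 / n)) atTop
      (𝓝 ((n : ℝ) ^ 2 / ((n.factorial : ℝ)) ^ ((2 : ℝ) / n))) := by
  have hn1 : 1 ≤ n := by omega
  have hn0 : (0 : ℝ) < n := by exact_mod_cast hn1
  have hs : (0 : ℝ) ≤ (2 : ℝ) - 2 / n := by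
    have h2 : (2 : ℝ) ≤ n := by exact_mod_cast hn
    have : (2 : ℝ) / n ≤ 2 := by
      rw [div_le_iff₀ hn0]
      nlinarith
    linarith
  choose p hp1 hp2 using fun d : ℕ => exists_level hn1 d
  have hp : Tendsto p atTop atTop := by
    rw [tendsto_atTop]
    intro R
    filter_upwards [eventually_ge_atTop (Dn n R)] with d hd
    by_contra hc
    have : Dn n (p d + 1) ≤ Dn n R := (Dn_mono hn1).monotone (by omega)
    have := hp2 d
    omega
  have hlo := (tendsto_ratio hn 0 1).comp hp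
  have hhi := (tendsto_ratio hn 1 0).comp hp
  refine tendsto_of_tendsto_of_tendsto_of_le_of_le' hlo hhi ?_ ?_
  · filter_upwards [eventually_ge_atTop 1] with d hd
    have hpd : 1 ≤ p d := by
      by_contra hc
      have h0 : p d = 0 := by omega
      have h1 := hp2 d
      rw [h0, Dn, Nat.sub_add_cancel hn1, Nat.choose_self] at h1
      omega
    obtain ⟨h1, h2⟩ := h (p d) d hpd (hp1 d) (hp2 d).le
    have hd0 : (0 : ℝ) < d := by exact_mod_cast hd
    simp only [Function.comp, add_zero]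
    apply div_le_div₀ (by positivity) (by exact_mod_cast h1) (Real.rpow_pos_of_pos hd0 _)
    exact Real.rpow_le_rpow hd0.le (by exact_mod_cast (hp2 d).le) hs
  · filter_upwards [eventually_ge_atTop 1] with d hd
    have hpd : 1 ≤ p d := by
      by_contra hc
      have h0 : p d = 0 := by omega
      have h1 := hp2 d
      rw [h0, Dn, Nat.sub_add_cancel hn1, Nat.choose_self] at h1
      omega
    obtain ⟨h1, h2⟩ := h (p d) d hpd (hp1 d) (hp2 d).le
    have hDpos : (0 : ℝ) < (Dn n (p d) : ℝ) := by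
      have : 0 < Dn n (p d) := lt_of_lt_of_le hpd (le_Dn hn1 _)
      exact_mod_cast this
    simp only [Function.comp, add_zero]
    apply div_le_div₀ (by positivity) (by exact_mod_cast h2) (Real.rpow_pos_of_pos hDpos _)
    exact Real.rpow_le_rpow hDpos.le (by exact_mod_cast hp1 d) hs

end Pool.Agent.Hilb61
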