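import Pool.Agent.Helper61.HilbCoord

open MvPolynomial Module Matrix

namespace Pool.Agent.Hilb61

variable {k : Type*} [Field k] {n d : ℕ}

section dd

variable {σ : Type*} [Fintype σ] (a w : σ → k)

lemma dd_add (f g : MvPolynomial σ k) : dd a (f + g) w = dd a f w + dd a g w := by
  simp [dd, add_mul, Finset.sum_add_distrib]

lemma dd_sub (f g : MvPolynomial σ k) : dd a (f - g) w = dd a f w - dd a g w := by
  simp [dd, sub_mul, Finset.sum_sub_distrib]

lemma dd_C (t : k) : dd a (C t) w = 0 := by
  simp [dd]

lemma dd_X (x : σ) : dd a (X x) w = w x := by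
  classical
  unfold dd
  rw [Finset.sum_eq_single x]
  · simp
  · intro y _ hy
    rw [pderiv_X_of_ne hy.symm]
    simp
  · intro h; exact absurd (Finset.mem_univ x) h

lemma dd_mul (f g : MvPolynomial σ k) :
    dd a (f * g) w = eval a f * dd a g w + eval a g * dd a f w := by
  unfold dd
  rw [Finset.mul_sum, Finset.mul_sum, ← Finset.sum_add_distrib]
  apply Finset.sum_congr rfl
  intro x _
  rw [Derivation.leibniz]
  simp only [smul_eq_mul, map_add, map_mul]
  ring

lemma dd_sum {τ : Type*} (s : Finset τ) (f : τ → MvPolynomial σ k) :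
    dd a (∑ i ∈ s, f i) w = ∑ i ∈ s, dd a (f i) w := by
  unfold dd
  simp only [map_sum, Finset.sum_mul]
  exact Finset.sum_comm

omit [Fintype σ] in
lemma aeval_self (c : σ → k) (p : MvPolynomial σ k) : aeval c p = eval c p := by
  rw [← coe_aeval_eq_eval]; rfl

omit [Fintype σ] in
lemma tsz_mul (a b a' b' : k) :
    (TrivSqZeroExt.inl a + TrivSqZeroExt.inr b : TrivSqZeroExt k k) *
      (TrivSqZeroExt.inl a' + TrivSqZeroExt.inr b') =
      TrivSqZeroExt.inl (a * a') + TrivSqZeroExt.inr (a * b' + b * a') := by
  ext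
  · simp
  · simp only [TrivSqZeroExt.snd_mul, TrivSqZeroExt.fst_add, TrivSqZeroExt.fst_inl,
      TrivSqZeroExt.fst_inr, TrivSqZeroExt.snd_add, TrivSqZeroExt.snd_inl, TrivSqZeroExt.snd_inr,
      smul_eq_mul, MulOpposite.smul_eq_mul_unop, MulOpposite.unop_op]
    ring

omit [Fintype σ] in
lemma tsz_sum {τ : Type*} (s : Finset τ) (a b : τ → k) :
    ∑ i ∈ s, (TrivSqZeroExt.inl (a i) + TrivSqZeroExt.inr (b i) : TrivSqZeroExt k k) =
      TrivSqZeroExt.inl (∑ i ∈ s, a i) + TrivSqZeroExt.inr (∑ i ∈ s, b i) := by
  classical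
  induction s using Finset.induction_on with
  | empty => simp
  | insert x s hx ih =>
    rw [Finset.sum_insert hx, Finset.sum_insert hx, Finset.sum_insert hx, ih,
      TrivSqZeroExt.inl_add, TrivSqZeroExt.inr_add]
    abel

/-- dual numbers compute differentials -/
lemma aeval_dual (f : MvPolynomial σ k) :
    aeval (fun x => (TrivSqZeroExt.inl (a x) + TrivSqZeroExt.inr (w x) : TrivSqZeroExt k k)) f =
      TrivSqZeroExt.inl (eval a f) + TrivSqZeroExt.inr (dd a f w) := by
  induction f using MvPolynomial.induction_on with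
  | C t =>
    rw [dd_C, algHom_C]
    simp [TrivSqZeroExt.algebraMap_eq_inl]
  | add p q hp hq =>
    rw [map_add, hp, hq, map_add, dd_add, TrivSqZeroExt.inl_add, TrivSqZeroExt.inr_add]
    abel
  | mul_X p x hp =>
    rw [map_mul, hp, aeval_X, dd_mul, dd_X, map_mul, eval_X, tsz_mul]
    congr 2
    ring

/-- chain rule for polynomial curves -/
lemma derivative_aeval (c : σ → Polynomial k) (f : MvPolynomial σ k) :
    Polynomial.derivative (aeval c f) =
      ∑ x, aeval c (pderiv x f) * Polynomial.derivative (c x) := by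
  classical
  induction f using MvPolynomial.induction_on with
  | C t => simp [algHom_C, Polynomial.algebraMap_eq]
  | add p q hp hq =>
    simp only [map_add, hp, hq, add_mul, Finset.sum_add_distrib]
  | mul_X p x hp =>
    rw [map_mul, Polynomial.derivative_mul, hp, aeval_X]
    simp only [Derivation.leibniz, smul_eq_mul, map_add, map_mul, aeval_X, add_mul,
      Finset.sum_add_distrib]
    rw [add_comm]
    congr 1
    · rw [Finset.sum_eq_single x]
      · simp
      · intro y _ hy
        rw [pderiv_X_of_ne hy.symm]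
        simp
      · intro h; exact absurd (Finset.mem_univ x) h
    · rw [Finset.sum_mul]
      apply Finset.sum_congr rfl
      intro y _
      ring

omit [Fintype σ] in
lemma eval_aeval_poly (c : σ → Polynomial k) (f : MvPolynomial σ k) (t : k) :
    (aeval c f).eval t = eval (fun x => (c x).eval t) f := by
  induction f using MvPolynomial.induction_on with
  | C a => simp [algHom_C, Polynomial.algebraMap_eq]
  | add p q hp hq => simp [hp, hq]
  | mul_X p x hp => simp [hp]

/-- **Tangent vectors from curves.** -/
lemma dd_curve [Infinite k] (c : σ → Polynomial k) (f : MvPolynomial σ k)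
    (h : ∀ᶠ t : k in Filter.cofinite, eval (fun x => (c x).eval t) f = 0) :
    dd (fun x => (c x).eval 0) f (fun x => (Polynomial.derivative (c x)).eval 0) = 0 := by
  have h0 : aeval c f = 0 := by
    apply Polynomial.eq_zero_of_infinite_isRoot
    rw [Filter.eventually_cofinite] at h
    have : {t | (aeval c f).IsRoot t} = {t | ¬ eval (fun x => (c x).eval t) f = 0}ᶜ := by
      ext t
      simp [Polynomial.IsRoot, eval_aeval_poly]
    rw [this]
    exact h.infinite_compl
  have h1 := derivative_aeval c f
  rw [h0, map_zero] at h1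
  have h2 := congrArg (Polynomial.eval 0) h1
  rw [Polynomial.eval_zero, Polynomial.eval_finsetSum] at h2
  simp only [Polynomial.eval_mul, eval_aeval_poly] at h2
  exact h2.symm

end dd

/-! ### The upper bound for the tangent space in a chart -/

section upper

variable {lam : Fin d → MvPolynomial (Fin n) k} {I : Ideal (MvPolynomial (Fin n) k)}
  {c : Coord n d → k}

/-- Coordinate vectors as pairs. -/
def splitL (k : Type*) [Field k] (n d : ℕ) :
    (Coord n d → k) ≃ₗ[k] (Fin n → Matrix (Fin d) (Fin d) k) × (Fin d → k) where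
  toFun w := (mats w, vect w)
  invFun p := Sum.elim (fun x => p.1 x.1 x.2.1 x.2.2) p.2
  left_inv w := by
    funext x
    rcases x with ⟨i, r, s⟩ | r <;> rfl
  right_inv p := rfl
  map_add' _ _ := rfl
  map_smul' _ _ := rfl

/-- The tangent directions of the base change orbit. -/
def orb (c : Coord n d → k) : Matrix (Fin d) (Fin d) k →ₗ[k] (Coord n d → k) where
  toFun Y := Sum.elim (fun x => (Y * mats c x.1 - mats c x.1 * Y) x.2.1 x.2.2) (Y *ᵥ vect c)
  map_add' Y Z := by
    funext x
    rcases x with ⟨i, r, s⟩ | r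
    · simp only [Sum.elim_inl, Pi.add_apply, add_mul, mul_add, Matrix.sub_apply, Matrix.add_apply]
      ring
    · simp [add_mulVec]
  map_smul' t Y := by
    funext x
    rcases x with ⟨i, r, s⟩ | r
    · simp [mul_sub]
    · simp [smul_mulVec]

/-- the commutator polynomials -/
noncomputable def commPoly (k : Type*) [Field k] {n d : ℕ} (i j : Fin n) (r s : Fin d) :
    MvPolynomial (Coord n d) k :=
  ∑ u, X (Sum.inl (i, r, u)) * X (Sum.inl (j, u, s)) -
    ∑ u, X (Sum.inl (j, r, u)) * X (Sum.inl (i, u, s))

lemma commPoly_mem (lam : Fin d → MvPolynomial (Fin n) k) (i j : Fin n) (r s : Fin d) :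
    commPoly k i j r s ∈ eqns lam := by
  intro p _ c h
  have h1 := congrFun (congrFun (coords_comm h i j) r) s
  rw [Matrix.mul_apply, Matrix.mul_apply] at h1
  simp only [mats_apply] at h1
  simp only [commPoly, map_sub, map_sum, map_mul, eval_X]
  rw [h1, sub_self]

lemma tangent_mem_ZC {w : Coord n d → k} (hw : w ∈ tangent lam c) : mats w ∈ ZC (mats c) := by
  intro i j
  ext r s
  have h := hw _ (commPoly_mem lam i j r s)
  simp only [commPoly, dd_sub, dd_sum, dd_mul, dd_X, eval_X, Finset.sum_add_distrib] at h
  simp only [Matrix.sub_apply, Matrix.mul_apply, mats_apply]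
  have e1 : ∑ u, c (Sum.inl (j, u, s)) * w (Sum.inl (i, r, u)) =
      ∑ u, w (Sum.inl (i, r, u)) * c (Sum.inl (j, u, s)) :=
    Finset.sum_congr rfl fun u _ => mul_comm _ _
  have e2 : ∑ u, c (Sum.inl (i, u, s)) * w (Sum.inl (j, r, u)) =
      ∑ u, w (Sum.inl (j, r, u)) * c (Sum.inl (i, u, s)) :=
    Finset.sum_congr rfl fun u _ => mul_comm _ _
  rw [e1, e2] at h
  linear_combination h

lemma orb_mem_ZC (hc : ∀ i j, mats c i * mats c j = mats c j * mats c i)
    (Y : Matrix (Fin d) (Fin d) k) : mats (orb c Y) ∈ ZC (mats c) := by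
  have e : ∀ i, mats (orb c Y) i = Y * mats c i - mats c i * Y := fun i => rfl
  intro i j
  rw [e, e]
  have h1 := hc i j
  calc mats c i * (Y * mats c j - mats c j * Y) - (Y * mats c j - mats c j * Y) * mats c i
      = mats c i * Y * mats c j - (mats c i * mats c j) * Y - Y * (mats c j * mats c i)
        + mats c j * Y * mats c i := by noncomm_ring
    _ = mats c i * Y * mats c j - (mats c j * mats c i) * Y - Y * (mats c i * mats c j)
        + mats c j * Y * mats c i := by rw [h1]
    _ = _ := by noncomm_ring

lemma orb_injective (h : IsCoord lam I c) : Function.Injective (orb c) := by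
  rw [← LinearMap.ker_eq_bot, LinearMap.ker_eq_bot']
  intro Y hY
  apply Alg_inj (coords_cyclic h) (A := mats c)
  · intro i
    have : mats (orb c Y) i = 0 := by rw [hY]; rfl
    exact sub_eq_zero.mp this
  · have : vect (orb c Y) = 0 := by rw [hY]; rfl
    exact this

/-- The tangent space of the chart is transverse to the orbit. -/
lemma tangent_inf_orb (h : IsCoord lam I c) :
    tangent lam c ⊓ LinearMap.range (orb c) = ⊥ := by
  rw [eq_bot_iff]
  rintro w ⟨hw, Y, rfl⟩
  rw [Submodule.mem_bot]
  suffices hY : Y = 0 by rw [hY, map_zero]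
  ext r s
  obtain ⟨P, hP⟩ := exists_univ (d := d) (lam s)
  have hmem : P r - C ((Pi.single s 1 : Fin d → k) r) ∈ eqns lam := by
    intro p _ c' h'
    have h1 := hP k c' (coef h') (fun a => by
        rw [← mul_one (C a), coef_C_mul, coef_one]; rfl) (coef_add h') (fun f i => by
        rw [mul_comm, coef_X_mul]) r
    rw [coef_lam] at h1
    rw [map_sub, eval_C, ← h1, aeval_self, sub_self]
  have h2 := hw _ hmem
  rw [dd_sub, dd_C, sub_zero] at h2
  have h3 := hP (TrivSqZeroExt k k)
    (fun x => TrivSqZeroExt.inl (c x) + TrivSqZeroExt.inr (orb c Y x))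
    (fun f r => TrivSqZeroExt.inl (coef h f r) + TrivSqZeroExt.inr ((Y *ᵥ coef h f) r))
    (by
      intro a
      funext r
      rw [← mul_one (C a), coef_C_mul, coef_one]
      simp only [Pi.smul_apply, vect_apply, smul_eq_mul]
      rw [mulVec_smul]
      ext
      · simp [TrivSqZeroExt.algebraMap_eq_inl]
      · simp [TrivSqZeroExt.algebraMap_eq_inl, orb])
    (by
      intro f g
      funext r
      rw [coef_add, mulVec_add]
      simp only [Pi.add_apply, TrivSqZeroExt.inl_add, TrivSqZeroExt.inr_add]
      abel)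
    (by
      intro f i
      funext r
      rw [mul_comm, coef_X_mul]
      have e1 : (mats (fun x => (TrivSqZeroExt.inl (c x) + TrivSqZeroExt.inr (orb c Y x) :
          TrivSqZeroExt k k)) i *ᵥ fun r => TrivSqZeroExt.inl (coef h f r) +
            TrivSqZeroExt.inr ((Y *ᵥ coef h f) r)) r =
          TrivSqZeroExt.inl ((mats c i *ᵥ coef h f) r) +
          TrivSqZeroExt.inr ((mats c i *ᵥ (Y *ᵥ coef h f)) r +
            (mats (orb c Y) i *ᵥ coef h f) r) := by
        rw [mulVec, dotProduct]
        simp only [mats_apply, tsz_mul]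
        rw [tsz_sum, Finset.sum_add_distrib]
        rfl
      rw [e1]
      congr 2
      have e2 : mats (orb c Y) i = Y * mats c i - mats c i * Y := rfl
      rw [e2, sub_mulVec, mulVec_mulVec, mulVec_mulVec]
      simp) r
  rw [aeval_dual] at h3
  have h4 := congrArg TrivSqZeroExt.snd h3
  simp only [TrivSqZeroExt.snd_add, TrivSqZeroExt.snd_inl, TrivSqZeroExt.snd_inr, zero_add] at h4
  rw [h2, coef_lam, mulVec_single_one] at h4
  exact h4.symm

lemma finrank_comap_ZC (c : Coord n d → k) :
    finrank k ((ZC (mats c)).comap ((LinearMap.fst k _ _).comp (splitL k n d).toLinearMap)) =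
      finrank k (ZC (mats c)) + d := by
  let e : (ZC (mats c)).comap ((LinearMap.fst k _ _).comp (splitL k n d).toLinearMap) ≃ₗ[k]
      (ZC (mats c)) × (Fin d → k) :=
    { toFun := fun w => (⟨mats w.1, w.2⟩, vect w.1)
      invFun := fun p => ⟨(splitL k n d).symm (p.1.1, p.2), p.1.2⟩
      left_inv := by
        intro w
        exact Subtype.ext ((splitL k n d).symm_apply_apply w.1)
      right_inv := fun p => rfl
      map_add' := fun _ _ => rfl
      map_smul' := fun _ _ => rfl }
  rw [e.finrank_eq, Module.finrank_prod]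
  simp

/-- **Upper bound** for the tangent space in a chart by first-order commuting deformations. -/
theorem finrank_tangent_add_le (h : IsCoord lam I c) :
    finrank k (tangent lam c) + d ^ 2 ≤ finrank k (ZC (mats c)) + d := by
  set V := (ZC (mats c)).comap ((LinearMap.fst k _ _).comp (splitL k n d).toLinearMap) with hV
  have h1 : tangent lam c ≤ V := fun w hw => tangent_mem_ZC hw
  have h2 : LinearMap.range (orb c) ≤ V := by
    rintro _ ⟨Y, rfl⟩
    exact orb_mem_ZC (coords_comm h) Y
  have h3 := Submodule.finrank_sup_add_finrank_inf_eq (tangent lam c) (LinearMap.range (orb c))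
  rw [tangent_inf_orb h, finrank_bot, add_zero, LinearMap.finrank_range_of_inj (orb_injective h)]
    at h3
  have h4 := Submodule.finrank_mono (sup_le h1 h2)
  rw [h3, hV, finrank_comap_ZC] at h4
  rw [Module.finrank_matrix] at h4
  simp only [Fintype.card_fin, finrank_self, mul_one] at h4
  rw [sq]
  exact h4

end upper

end Pool.Agent.Hilb61
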