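import Pool.Agent.Helper61.HilbStab2
import Pool.Agent.Helper61.HilbTan

/-!
# The bound of Briançon and Iarrobino in any number of variables
-/

open Module Matrix

namespace Pool.Agent.Hilb61

variable {k : Type*} [Field k] {n d : ℕ}

/-- Reduction to strongly stable monomial algebras. -/
theorem exists_stable_of_cyclic [Infinite k] (hd : 1 ≤ d)
    {A : Fin n → Matrix (Fin d) (Fin d) k} (hA : ∀ i j, A i * A j = A j * A i) {v : Fin d → k}
    (hv : Cyclic A v) :
    ∃ mon : Fin d → (Fin n →₀ ℕ), IsOrd mon ∧ Stable (Dlt mon) ∧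
      finrank k (ZC A) ≤ finrank ℚ (ZC (Amon ℚ mon)) := by
  obtain ⟨w, hw1, -, hw3⟩ := exists_weight n d
  let V : (Fin n →₀ ℕ) → (Fin d → k) := fun B => evHom A hA (MvPolynomial.monomial B 1) *ᵥ v
  have hV : ∀ B i, V (B + Finsupp.single i 1) = A i *ᵥ V B := by
    intro B i
    show evHom A hA (MvPolynomial.monomial (B + Finsupp.single i 1) 1) *ᵥ v =
      A i *ᵥ (evHom A hA (MvPolynomial.monomial B 1) *ᵥ v)
    have h1 : (MvPolynomial.monomial (B + Finsupp.single i 1) (1 : k)) =
        MvPolynomial.X i * MvPolynomial.monomial B 1 := by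
      rw [add_comm B, MvPolynomial.monomial_single_add, pow_one]
    rw [h1, map_mul, evHom_X, mulVec_mulVec]
  have hspan : Submodule.span k (Set.range V) = ⊤ := by
    apply hv
    · have h0 : V 0 = v := by
        show evHom A hA (MvPolynomial.monomial 0 1) *ᵥ v = v
        have : (MvPolynomial.monomial (0 : Fin n →₀ ℕ) (1 : k)) = 1 := rfl
        rw [this, map_one, one_mulVec]
      rw [← h0]
      exact Submodule.subset_span ⟨0, rfl⟩
    · intro i x hx
      induction hx using Submodule.span_induction with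
      | mem x hx =>
        obtain ⟨B, rfl⟩ := hx
        rw [← hV]
        exact Submodule.subset_span ⟨_, rfl⟩
      | zero => rw [mulVec_zero]; exact zero_mem _
      | add x y _ _ hx hy => rw [mulVec_add]; exact add_mem hx hy
      | smul t x _ hx => rw [mulVec_smul]; exact Submodule.smul_mem _ t hx
  obtain ⟨mon, b, h1, h2, h3, h4⟩ := exists_std hV hspan hw1 hw3
  have h5 := finrank_ZC_le_Amon hV h2 h3 h4
  have h6 := finrank_ZC_Amon_eq k ℚ h1 hd
  obtain ⟨mon', h7, h8, h9⟩ := exists_stable ℚ h1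
  exact ⟨mon', h7, h8, h5.trans (h6.le.trans h9)⟩

/-- **The bound for first-order deformations of a commuting tuple with a cyclic vector.** -/
theorem finrank_ZC_le_Theta [Infinite k] (hn : 3 ≤ n) (hd : 1 ≤ d)
    {A : Fin n → Matrix (Fin d) (Fin d) k} (hA : ∀ i j, A i * A j = A j * A i) {v : Fin d → k}
    (hv : Cyclic A v) :
    finrank k (ZC A) ≤ d ^ 2 + Theta n (n - 3) d + ∑ l ∈ Finset.range (n - 2), Theta n l d := by
  obtain ⟨mon, h1, h2, h3⟩ := exists_stable_of_cyclic hd hA hv
  have h4 := finrank_ZC_le_flag (by omega) (Amon ℚ mon)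
  have h5 : ∀ l, 1 ≤ l → l < n → finrank ℚ (CentGe (Amon ℚ mon) l) ≤ Theta n (l - 1) d := by
    intro l hl hln
    have h6 := finrank_CentGe_le (k := ℚ) h1 ⟨l, hln⟩
    have h7 := G_le h2 ⟨l, hln⟩ hl
    rw [h1.card_Dlt] at h7
    exact h6.trans h7
  have h6 : ∑ l ∈ Finset.range (n - 2), finrank ℚ (CentGe (Amon ℚ mon) (l + 1)) ≤
      ∑ l ∈ Finset.range (n - 2), Theta n l d := by
    apply Finset.sum_le_sum
    intro l hl
    rw [Finset.mem_range] at hl
    exact h5 (l + 1) (by omega) (by omega)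
  have h7 := h5 (n - 2) (by omega) (by omega)
  rw [show n - 2 - 1 = n - 3 by omega] at h7
  rw [Fintype.card_fin] at h4
  omega

/-- The bound as a function of `n` and `d`. -/
noncomputable def TB (n d : ℕ) : ℕ := d + Theta n (n - 3) d + ∑ l ∈ Finset.range (n - 2), Theta n l d

lemma TB_succ (n d : ℕ) : TB n (d + 1) = TB n d +
    (1 + wt n (n - 3) d + ∑ l ∈ Finset.range (n - 2), wt n l d) := by
  have h : ∀ a, Theta n a (d + 1) = Theta n a d + wt n a d := fun a => Finset.sum_range_succ _ _
  simp only [TB, h, Finset.sum_add_distrib]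
  ring

lemma hockey (p m : ℕ) : 1 + ∑ l ∈ Finset.range m, (l + p + 1).choose (l + 1) =
    (m + p + 1).choose m := by
  induction m with
  | zero => simp
  | succ m ih =>
    rw [Finset.sum_range_succ, ← add_assoc, ih,
      show m + 1 + p + 1 = (m + p + 1) + 1 by ring]
    exact (Nat.choose_succ_succ (m + p + 1) m).symm

lemma TB_add_of_level (hn : 3 ≤ n) (r m : ℕ) (hm : m ≤ (n - 1 + r).choose (n - 1)) :
    TB n (Dn n r + m) = TB n (Dn n r) +
      m * ((n + r - 1).choose (n - 2) + (n + r - 2).choose (n - 2)) := by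
  obtain ⟨N, rfl⟩ : ∃ N, n = N + 3 := ⟨n - 3, by omega⟩
  induction m with
  | zero => simp
  | succ m ih =>
    rw [← add_assoc, TB_succ, ih (by omega)]
    have h1 : Dn (N + 3) r ≤ Dn (N + 3) r + m := by omega
    have h2 : Dn (N + 3) r + m < Dn (N + 3) (r + 1) := by
      rw [Dn_succ (by omega)]
      omega
    have h3 : ∀ a, wt (N + 3) a (Dn (N + 3) r + m) = (a + r + 1).choose (a + 1) := fun a =>
      wt_eq (by omega) a h1 h2
    simp only [h3]
    rw [show N + 3 - 2 = N + 1 by omega, show N + 3 - 3 = N by omega]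
    have h4 := hockey r (N + 1)
    rw [show N + 3 + r - 1 = N + 1 + r + 1 by omega, show N + 3 + r - 2 = N + r + 1 by omega]
    rw [add_right_comm 1, h4]
    ring

lemma TB_zero (n : ℕ) : TB n 0 = 0 := by
  simp [TB, Theta]

/-- The value of the bound at `d = C(n+r-1,n)`. -/
lemma TB_Dn (hn : 3 ≤ n) (r : ℕ) : TB n (Dn n r) =
    (n + r - 1).choose (n - 1) * (n + r - 2).choose (n - 1) := by
  induction r with
  | zero =>
    rw [Dn_zero (by omega), TB_zero, Nat.choose_eq_zero_of_lt (show n + 0 - 2 < n - 1 by omega),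
      mul_zero]
  | succ r ih =>
    have h1 := TB_add_of_level hn r _ le_rfl
    rw [← Dn_succ (by omega)] at h1
    rw [h1, ih]
    obtain ⟨N, rfl⟩ : ∃ N, n = N + 3 := ⟨n - 3, by omega⟩
    rw [show N + 3 + (r + 1) - 1 = (N + r + 1 + 1) + 1 by omega,
      show N + 3 + (r + 1) - 2 = N + r + 1 + 1 by omega,
      show N + 3 + r - 1 = N + r + 1 + 1 by omega,
      show N + 3 + r - 2 = N + r + 1 by omega, show N + 3 - 1 = N + 1 + 1 by omega,
      show N + 3 - 2 = N + 1 by omega, show N + 1 + 1 + r = N + r + 1 + 1 by ring]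
    rw [Nat.choose_succ_succ (N + r + 1 + 1) (N + 1)]
    rw [show (N + r + 1 + 1).choose (N + 1).succ = (N + r + 1 + 1).choose (N + 1 + 1) from rfl]
    have h2 : (N + r + 1 + 1).choose (N + 1 + 1) =
      (N + r + 1).choose (N + 1) + (N + r + 1).choose (N + 1 + 1) := Nat.choose_succ_succ _ _
    rw [h2]
    ring

/-- **The bound for tangent spaces in charts.** -/
theorem finrank_tangent_le_TB [Infinite k] (hn : 3 ≤ n) (hd : 1 ≤ d)
    {lam : Fin d → MvPolynomial (Fin n) k} {I : Ideal (MvPolynomial (Fin n) k)}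
    {c : Coord n d → k} (h : IsCoord lam I c) : finrank k (tangent lam c) ≤ TB n d := by
  have h1 := finrank_tangent_add_le h
  have h2 := finrank_ZC_le_Theta hn hd (coords_comm h) (coords_cyclic h)
  rw [TB]
  omega

end Pool.Agent.Hilb61
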