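import Pool.Agent.Helper61.HilbNum

/-!
# Strongly stable sets of exponents
-/

open Finset

namespace Pool.Agent.Hilb61

variable {n : ℕ}

/-- Strongly stable sets: closed under division and under replacing a variable by a later one. -/
def Stable (Δ : Finset (Fin n →₀ ℕ)) : Prop :=
  ∀ (u : Fin n →₀ ℕ) (i : Fin n), u + Finsupp.single i 1 ∈ Δ →
    u ∈ Δ ∧ ∀ j, i < j → u + Finsupp.single j 1 ∈ Δ

/-- Elements with prescribed coordinates of index at least `l`. -/
def slc (Δ : Finset (Fin n →₀ ℕ)) (l : ℕ) (c : ℕ → ℕ) : Finset (Fin n →₀ ℕ) :=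
  Δ.filter (fun s => ∀ m : Fin n, l ≤ (m : ℕ) → s m = c m)

lemma mem_slc {Δ : Finset (Fin n →₀ ℕ)} {l : ℕ} {c : ℕ → ℕ} {s : Fin n →₀ ℕ} :
    s ∈ slc Δ l c ↔ s ∈ Δ ∧ ∀ m : Fin n, l ≤ (m : ℕ) → s m = c m := by
  rw [slc, mem_filter]

lemma sub_add_single {s : Fin n →₀ ℕ} {i : Fin n} (h : 1 ≤ s i) :
    s - Finsupp.single i 1 + Finsupp.single i 1 = s := by
  apply tsub_add_cancel_of_le
  intro m
  by_cases hm : m = i
  · subst hm; simpa using h
  · rw [Finsupp.single_eq_of_ne hm]; exact Nat.zero_le _

lemma slc_rate {Δ : Finset (Fin n →₀ ℕ)} (hΔ : Stable Δ) {a : ℕ} (ha : a + 1 < n) (c : ℕ → ℕ)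
    (m : ℕ) :
    (slc Δ (a + 1) (Function.update c (a + 1) m)).card ≤
      (slc Δ a (Function.update (Function.update c (a + 1) m) a 0)).card +
        (slc Δ (a + 1) (Function.update c (a + 1) (m + 1))).card := by
  classical
  let ia : Fin n := ⟨a, by omega⟩
  let ib : Fin n := ⟨a + 1, ha⟩
  have hab : ia < ib := by
    rw [Fin.lt_def]
    show a < a + 1
    omega
  rw [← card_filter_add_card_filter_not (s := slc Δ (a + 1) (Function.update c (a + 1) m))
    (fun s => s ia = 0)]
  apply add_le_add
  · apply card_le_card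
    intro s hs
    rw [mem_filter, mem_slc] at hs
    rw [mem_slc]
    refine ⟨hs.1.1, fun m' hm' => ?_⟩
    by_cases h1 : (m' : ℕ) = a
    · have : m' = ia := Fin.ext h1
      rw [h1, Function.update_self, this]
      exact hs.2
    · rw [Function.update_of_ne h1]
      exact hs.1.2 m' (by omega)
  · apply card_le_card_of_injOn (fun s => s - Finsupp.single ia 1 + Finsupp.single ib 1)
    · intro s hs
      have hs' : s ∈ filter (fun s => ¬ s ia = 0) (slc Δ (a + 1) (Function.update c (a + 1) m)) := hs
      rw [mem_filter, mem_slc] at hs'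
      obtain ⟨⟨h1, h2⟩, h3⟩ := hs'
      have h4 := sub_add_single (s := s) (i := ia) (by omega)
      show s - Finsupp.single ia 1 + Finsupp.single ib 1 ∈ slc Δ (a + 1) _
      rw [mem_slc]
      refine ⟨(hΔ _ ia (by rw [h4]; exact h1)).2 ib hab, fun m' hm' => ?_⟩
      have h5 : m' ≠ ia := by
        intro h
        rw [h] at hm'
        have : a + 1 ≤ a := hm'
        omega
      have h6 := h2 m' hm'
      by_cases h7 : m' = ib
      · subst h7
        have e : ((ib : Fin n) : ℕ) = a + 1 := rfl
        rw [e, Function.update_self] at h6 ⊢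
        rw [Finsupp.add_apply, Finsupp.tsub_apply, Finsupp.single_eq_same,
          Finsupp.single_eq_of_ne h5, h6]
        omega
      · have h8 : (m' : ℕ) ≠ a + 1 := fun h => h7 (Fin.ext h)
        rw [Function.update_of_ne h8] at h6 ⊢
        rw [Finsupp.add_apply, Finsupp.tsub_apply, Finsupp.single_eq_of_ne h7,
          Finsupp.single_eq_of_ne h5, h6]
        omega
    · intro s hs s' hs' hss
      have hs1 : s ∈ filter (fun s => ¬ s ia = 0) (slc Δ (a + 1) (Function.update c (a + 1) m)) := hs
      have hs2 : s' ∈ filter (fun s => ¬ s ia = 0) (slc Δ (a + 1) (Function.update c (a + 1) m)) :=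
        hs'
      rw [mem_filter] at hs1 hs2
      have h1 : s - Finsupp.single ia 1 = s' - Finsupp.single ia 1 := add_right_cancel hss
      rw [← sub_add_single (s := s) (i := ia) (by omega), h1,
        sub_add_single (s := s') (i := ia) (by omega)]

lemma slc_sum (Δ : Finset (Fin n →₀ ℕ)) {M : ℕ} (hM : ∀ s ∈ Δ, ∀ i, s i < M) {a : ℕ} (ha : a < n)
    (c : ℕ → ℕ) :
    (slc Δ (a + 1) c).card = ∑ m ∈ range M, (slc Δ a (Function.update c a m)).card := by
  classical
  let ia : Fin n := ⟨a, ha⟩
  rw [card_eq_sum_card_fiberwise (f := fun s => s ia) (t := range M)]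
  · apply sum_congr rfl
    intro m _
    congr 1
    ext s
    rw [mem_filter, mem_slc, mem_slc]
    constructor
    · rintro ⟨⟨h1, h2⟩, h3⟩
      refine ⟨h1, fun m' hm' => ?_⟩
      by_cases h4 : (m' : ℕ) = a
      · have : m' = ia := Fin.ext h4
        rw [h4, Function.update_self, this]
        exact h3
      · rw [Function.update_of_ne h4]
        exact h2 m' (by omega)
    · rintro ⟨h1, h2⟩
      refine ⟨⟨h1, fun m' hm' => ?_⟩, ?_⟩
      · have h4 : (m' : ℕ) ≠ a := by omega
        have := h2 m' (by omega)
        rwa [Function.update_of_ne h4] at this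
      · have := h2 ia (le_refl _)
        rwa [show ((ia : Fin n) : ℕ) = a from rfl, Function.update_self] at this
  · intro s hs
    have hs' : s ∈ slc Δ (a + 1) c := hs
    rw [mem_slc] at hs'
    exact mem_coe.mpr (mem_range.mpr (hM s hs'.1 ia))

/-- **Sections of strongly stable sets.** -/
lemma slice_ineq {Δ : Finset (Fin n →₀ ℕ)} (hΔ : Stable Δ) {M : ℕ} (hM : ∀ s ∈ Δ, ∀ i, s i < M) :
    ∀ a, a < n → ∀ (c : ℕ → ℕ) (q : ℕ),
      (a + q) * (slc Δ a (Function.update c a 0)).card ≤
        a * (slc Δ (a + 1) c).card + (a + q).choose (a + 1) := by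
  classical
  intro a
  induction a with
  | zero =>
    intro _ c q
    have h1 : (slc Δ 0 (Function.update c 0 0)).card ≤ 1 := by
      rw [card_le_one]
      intro s hs s' hs'
      rw [mem_slc] at hs hs'
      ext m
      rw [hs.2 m (by omega), hs'.2 m (by omega)]
    simp only [zero_add, Nat.choose_one_right, zero_mul]
    nlinarith
  | succ a ih =>
    intro ha c q
    let u : ℕ → ℕ := fun m => (slc Δ (a + 1) (Function.update c (a + 1) m)).card
    have hu : ∀ m, M ≤ m → u m = 0 := by
      intro m hm
      apply card_eq_zero.mpr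
      rw [eq_empty_iff_forall_notMem]
      intro s hs
      rw [mem_slc] at hs
      have h1 := hs.2 ⟨a + 1, ha⟩ (le_refl _)
      rw [show ((⟨a + 1, ha⟩ : Fin n) : ℕ) = a + 1 from rfl, Function.update_self] at h1
      have := hM s hs.1 ⟨a + 1, ha⟩
      omega
    have hrate : Rate a u := by
      intro q m
      have h1 := ih (by omega) (Function.update c (a + 1) m) q
      have h2 := slc_rate hΔ ha c m
      have h3 : (a + q) * u m ≤ (a + q) * ((slc Δ a
          (Function.update (Function.update c (a + 1) m) a 0)).card + u (m + 1)) :=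
        Nat.mul_le_mul_left _ h2
      rw [mul_add] at h3
      have h4 : (a + q) * u m = a * u m + q * u m := by ring
      have h5 : a * (slc Δ (a + 1) (Function.update c (a + 1) m)).card = a * u m := rfl
      omega
    have h1 := hrate.conc hu q 0
    have h2 : TS M u 0 = (slc Δ (a + 1 + 1) c).card := by
      rw [slc_sum Δ hM ha c, TS]
      simp only [zero_add]
      rfl
    rw [h2] at h1
    exact h1

lemma Stable.add_single {Δ : Finset (Fin n →₀ ℕ)} (hΔ : Stable Δ) {i j : Fin n} (hij : i < j)
    (m : ℕ) : ∀ u : Fin n →₀ ℕ, u + Finsupp.single i m ∈ Δ → u + Finsupp.single j m ∈ Δ := by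
  induction m with
  | zero => intro u h; simpa using h
  | succ m ih =>
    intro u h
    rw [Finsupp.single_add, ← add_assoc] at h ⊢
    have h1 := (hΔ _ i h).2 j hij
    rw [add_right_comm] at h1
    have h2 := ih _ h1
    rw [add_right_comm] at h2
    exact h2

lemma Stable.of_add {Δ : Finset (Fin n →₀ ℕ)} (hΔ : Stable Δ) {i : Fin n}
    (m : ℕ) : ∀ u : Fin n →₀ ℕ, u + Finsupp.single i m ∈ Δ → u ∈ Δ := by
  induction m with
  | zero => intro u h; simpa using h
  | succ m ih =>
    intro u h
    rw [Finsupp.single_add, ← add_assoc] at h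
    exact ih _ (hΔ _ i h).1

lemma sub_add_single' {s : Fin n →₀ ℕ} {i : Fin n} {m : ℕ} (h : m ≤ s i) :
    s - Finsupp.single i m + Finsupp.single i m = s := by
  apply tsub_add_cancel_of_le
  intro m'
  by_cases hm : m' = i
  · subst hm; simpa using h
  · rw [Finsupp.single_eq_of_ne hm]; exact Nat.zero_le _

/-- **The count for strongly stable sets.** -/
theorem G_le {Δ : Finset (Fin n →₀ ℕ)} (hΔ : Stable Δ) (l : Fin n) (hl : 1 ≤ (l : ℕ)) :
    ∑ u ∈ Δ, (Δ.filter (fun s => s l = u l ∧ ∀ m, l < m → s m = 0)).card ≤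
      Theta n ((l : ℕ) - 1) Δ.card := by
  classical
  obtain ⟨M, hM⟩ : ∃ M, ∀ s ∈ Δ, ∀ i, s i < M := by
    refine ⟨(∑ s ∈ Δ, ∑ i, s i) + 1, fun s hs i => ?_⟩
    have h1 : s i ≤ ∑ i, s i := single_le_sum (fun _ _ => Nat.zero_le _) (mem_univ i)
    have h2 : ∑ i, s i ≤ ∑ s ∈ Δ, ∑ i, s i :=
      single_le_sum (f := fun s : Fin n →₀ ℕ => ∑ i, s i) (fun _ _ => Nat.zero_le _) hs
    omega
  obtain ⟨a, ha⟩ : ∃ a, (l : ℕ) = a + 1 := ⟨(l : ℕ) - 1, by omega⟩
  have hln := l.isLt
  obtain ⟨b, hb⟩ : ∃ b, n = a + b + 2 := ⟨n - 2 - a, by omega⟩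
  let α : ℕ → ℕ := fun i => (Δ.filter (fun s => s l = i ∧ ∀ m, l < m → s m = 0)).card
  have hslc : ∀ i, α i = (slc Δ (a + 1) (Function.update 0 (a + 1) i)).card := by
    intro i
    show (Δ.filter _).card = _
    congr 1
    ext s
    rw [mem_filter, mem_slc]
    refine and_congr_right fun _ => ?_
    constructor
    · rintro ⟨h1, h2⟩ m hm
      by_cases h3 : (m : ℕ) = a + 1
      · rw [h3, Function.update_self]
        have : m = l := Fin.ext (by omega)
        rw [this, h1]
      · rw [Function.update_of_ne h3]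
        exact h2 m (by rw [Fin.lt_def]; omega)
    · intro h
      constructor
      · have := h l (by omega)
        rwa [ha, Function.update_self] at this
      · intro m hm
        rw [Fin.lt_def] at hm
        have := h m (by omega)
        rwa [Function.update_of_ne (by omega)] at this
  have hα0 : ∀ m, M ≤ m → α m = 0 := by
    intro m hm
    apply card_eq_zero.mpr
    rw [eq_empty_iff_forall_notMem]
    intro s hs
    rw [mem_filter] at hs
    have := hM s hs.1 l
    omega
  have hrate : Rate a α := by
    intro q m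
    have h1 := slice_ineq hΔ hM a (by omega) (Function.update 0 (a + 1) m) q
    have h2 := slc_rate hΔ (a := a) (by omega) 0 m
    rw [← hslc] at h1 h2
    rw [← hslc] at h2
    have h3 : (a + q) * α m ≤ (a + q) * ((slc Δ a
        (Function.update (Function.update 0 (a + 1) m) a 0)).card + α (m + 1)) :=
      Nat.mul_le_mul_left _ h2
    rw [mul_add] at h3
    have h4 : (a + q) * α m = a * α m + q * α m := by ring
    omega
  have hαle : ∀ i, α i ≤ α 0 := by
    intro i
    apply card_le_card_of_injOn (fun s => s - Finsupp.single l i)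
    · intro s hs
      have hs' : s ∈ filter (fun s => s l = i ∧ ∀ m, l < m → s m = 0) Δ := hs
      rw [mem_filter] at hs'
      obtain ⟨h1, h2, h3⟩ := hs'
      show s - Finsupp.single l i ∈ filter (fun s => s l = 0 ∧ ∀ m, l < m → s m = 0) Δ
      rw [mem_filter]
      refine ⟨hΔ.of_add (i := l) i _ ?_, ?_, ?_⟩
      · rw [sub_add_single' (by omega)]
        exact h1
      · rw [Finsupp.tsub_apply, Finsupp.single_eq_same]
        omega
      · intro m hm
        rw [Finsupp.tsub_apply, h3 m hm]
        omega
    · intro s hs s' hs' hss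
      have hs1 : s ∈ filter (fun s => s l = i ∧ ∀ m, l < m → s m = 0) Δ := hs
      have hs2 : s' ∈ filter (fun s => s l = i ∧ ∀ m, l < m → s m = 0) Δ := hs'
      rw [mem_filter] at hs1 hs2
      have h1 : s - Finsupp.single l i = s' - Finsupp.single l i := hss
      rw [← sub_add_single' (s := s) (i := l) (m := i) (by omega), h1,
        sub_add_single' (s := s') (i := l) (m := i) (by omega)]
  -- the number of elements with given coordinate
  let H : ℕ → ℕ → ℕ := fun c i => (Δ.filter (fun s => s l = i ∧ ∀ m : Fin n,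
    (l : ℕ) + c < (m : ℕ) → s m = 0)).card
  have hH : ∀ c, c ≤ b → ∀ i, IT M α c i ≤ H c i := by
    intro c
    induction c with
    | zero =>
      intro _ i
      apply le_of_eq
      show α i = H 0 i
      show (Δ.filter _).card = (Δ.filter _).card
      congr 1
    | succ c ih =>
      intro hc i
      have ih' := ih (by omega)
      let y : Fin n := ⟨(l : ℕ) + c + 1, by omega⟩
      have hly : l < y := by
        rw [Fin.lt_def]
        show (l : ℕ) < (l : ℕ) + c + 1
        omega
      have h1 : IT M α (c + 1) i ≤ ∑ m ∈ range M, H c (i + m) := by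
        show ∑ m ∈ range M, IT M α c (i + m) ≤ _
        exact sum_le_sum fun m _ => ih' (i + m)
      refine h1.trans ?_
      have h2 : ∀ m, H c (i + m) ≤ ((Δ.filter (fun s => s l = i ∧ ∀ m : Fin n,
          (l : ℕ) + (c + 1) < (m : ℕ) → s m = 0)).filter (fun s => s y = m)).card := by
        intro m
        apply card_le_card_of_injOn (fun s => s - Finsupp.single l m + Finsupp.single y m)
        · intro s hs
          have hs' : s ∈ Δ.filter (fun s => s l = i + m ∧ ∀ m : Fin n,
            (l : ℕ) + c < (m : ℕ) → s m = 0) := hs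
          rw [mem_filter] at hs'
          obtain ⟨h3, h4, h5⟩ := hs'
          rw [mem_coe, mem_filter, mem_filter]
          have hyl : y ≠ l := ne_of_gt hly
          have h6 : s y = 0 := h5 y (by show (l : ℕ) + c < (l : ℕ) + c + 1; omega)
          refine ⟨⟨hΔ.add_single hly m _ ?_, ?_, ?_⟩, ?_⟩
          · rw [sub_add_single' (by omega)]
            exact h3
          · rw [Finsupp.add_apply, Finsupp.tsub_apply, Finsupp.single_eq_same,
              Finsupp.single_eq_of_ne hyl.symm]
            omega
          · intro m' hm'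
            have h7 : m' ≠ l := by
              intro h
              rw [h] at hm'
              omega
            have h8 : m' ≠ y := by
              intro h
              rw [h] at hm'
              have : (l : ℕ) + (c + 1) < (l : ℕ) + c + 1 := hm'
              omega
            rw [Finsupp.add_apply, Finsupp.tsub_apply, Finsupp.single_eq_of_ne h7,
              Finsupp.single_eq_of_ne h8, h5 m' (by omega)]
            rfl
          · rw [Finsupp.add_apply, Finsupp.tsub_apply, Finsupp.single_eq_same,
              Finsupp.single_eq_of_ne hyl, h6]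
            omega
        · intro s hs s' hs' hss
          have hs1 : s ∈ Δ.filter (fun s => s l = i + m ∧ ∀ m : Fin n,
            (l : ℕ) + c < (m : ℕ) → s m = 0) := hs
          have hs2 : s' ∈ Δ.filter (fun s => s l = i + m ∧ ∀ m : Fin n,
            (l : ℕ) + c < (m : ℕ) → s m = 0) := hs'
          rw [mem_filter] at hs1 hs2
          have h1 : s - Finsupp.single l m = s' - Finsupp.single l m := add_right_cancel hss
          rw [← sub_add_single' (s := s) (i := l) (m := m) (by omega), h1,
            sub_add_single' (s := s') (i := l) (m := m) (by omega)]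
      refine (sum_le_sum fun m _ => h2 m).trans ?_
      rw [← card_eq_sum_card_fiberwise]
      · intro s hs
        have hs' : s ∈ Δ.filter (fun s => s l = i ∧ ∀ m : Fin n,
          (l : ℕ) + (c + 1) < (m : ℕ) → s m = 0) := hs
        rw [mem_filter] at hs'
        exact mem_coe.mpr (mem_range.mpr (hM s hs'.1 y))
  let h : ℕ → ℕ := fun i => (Δ.filter (fun s => s l = i)).card
  have hh : ∀ i, IT M α b i ≤ h i := by
    intro i
    refine (hH b le_rfl i).trans ?_
    apply card_le_card
    intro s hs
    rw [mem_filter] at hs ⊢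
    exact ⟨hs.1, hs.2.1⟩
  have hd : ∑ i ∈ range M, h i = Δ.card := by
    rw [← card_eq_sum_card_fiberwise]
    intro s hs
    exact mem_coe.mpr (mem_range.mpr (hM s hs l))
  have key := sum_le_Theta (a := a) (b := b) (M := M) (n := n) hb hα0 hrate hαle hh hd.le
  have hsum : ∑ u ∈ Δ, (Δ.filter (fun s => s l = u l ∧ ∀ m, l < m → s m = 0)).card =
      ∑ i ∈ range M, α i * h i := by
    rw [← sum_fiberwise_of_maps_to (g := fun s : Fin n →₀ ℕ => s l) (t := range M)
      (fun s hs => mem_range.mpr (hM s hs l))]
    apply sum_congr rfl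
    intro i _
    rw [mul_comm]
    show _ = (Δ.filter (fun s => s l = i)).card * α i
    rw [← smul_eq_mul, ← sum_const]
    apply sum_congr rfl
    intro u hu
    rw [mem_filter] at hu
    rw [hu.2]
  rw [hsum, show (l : ℕ) - 1 = a by omega]
  exact key

end Pool.Agent.Hilb61
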