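import Pool.Agent.Helper61.HilbMon
import Pool.Agent.Helper61.HilbComb

/-!
# First-order deformations and centralizers of flags of coordinates
-/

open Module Matrix

namespace Pool.Agent.Hilb61

section lin

variable {k M E : Type*} [Field k] [AddCommGroup M] [Module k M] [AddCommGroup E] [Module k E]
  [FiniteDimensional k M] [FiniteDimensional k E]

lemma finrank_le_add (K K' : Submodule k M) (C : Submodule k E) (f : M →ₗ[k] E)
    (hC : ∀ x ∈ K, f x ∈ C) (hK : ∀ x ∈ K, f x = 0 → x ∈ K') :
    finrank k K ≤ finrank k K' + finrank k C := by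
  have h1 := LinearMap.finrank_range_add_finrank_ker (f.domRestrict K)
  have h2 : finrank k (LinearMap.range (f.domRestrict K)) ≤ finrank k C := by
    apply Submodule.finrank_mono
    rintro _ ⟨x, rfl⟩
    exact hC x.1 x.2
  have h3 : finrank k (LinearMap.ker (f.domRestrict K)) ≤ finrank k K' := by
    have h4 : finrank k ((LinearMap.ker (f.domRestrict K)).map K.subtype) =
        finrank k (LinearMap.ker (f.domRestrict K)) :=
      (Submodule.equivMapOfInjective K.subtype K.injective_subtype _).finrank_eq.symm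
    rw [← h4]
    apply Submodule.finrank_mono
    rintro _ ⟨x, hx, rfl⟩
    exact hK x.1 x.2 hx
  omega

end lin

variable {k : Type*} [Field k] {n : ℕ} {κ : Type*} [Fintype κ] [DecidableEq κ]

/-- The matrices commuting with `A_i`, `i ≥ l`. -/
def CentGe (A : Fin n → Matrix κ κ k) (l : ℕ) : Submodule k (Matrix κ κ k) where
  carrier := {W | ∀ i : Fin n, l ≤ (i : ℕ) → W * A i = A i * W}
  add_mem' := by
    intro W W' h h' i hi
    rw [add_mul, mul_add, h i hi, h' i hi]
  zero_mem' := by intro i _; simp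
  smul_mem' := by
    intro t W h i hi
    rw [smul_mul_assoc, mul_smul_comm, h i hi]

/-- The first-order deformations with `B_i = 0` for `i ≥ l`. -/
def ZCl (A : Fin n → Matrix κ κ k) (l : ℕ) : Submodule k (Fin n → Matrix κ κ k) where
  carrier := {B | B ∈ ZC A ∧ ∀ i : Fin n, l ≤ (i : ℕ) → B i = 0}
  add_mem' := by
    rintro B B' ⟨h1, h2⟩ ⟨h3, h4⟩
    exact ⟨add_mem h1 h3, fun i hi => by rw [Pi.add_apply, h2 i hi, h4 i hi, add_zero]⟩
  zero_mem' := ⟨zero_mem _, fun i _ => rfl⟩
  smul_mem' := by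
    rintro t B ⟨h1, h2⟩
    exact ⟨Submodule.smul_mem _ t h1, fun i hi => by rw [Pi.smul_apply, h2 i hi, smul_zero]⟩

lemma finrank_ZCl_zero (A : Fin n → Matrix κ κ k) : finrank k (ZCl A 0) = 0 := by
  have : ZCl A 0 = ⊥ := by
    rw [eq_bot_iff]
    rintro B ⟨_, h⟩
    rw [Submodule.mem_bot]
    funext i
    exact h i (Nat.zero_le _)
  rw [this, finrank_bot]

lemma finrank_ZCl_succ (A : Fin n → Matrix κ κ k) {l : ℕ} (hl : l < n) :
    finrank k (ZCl A (l + 1)) ≤ finrank k (ZCl A l) + finrank k (CentGe A (l + 1)) := by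
  apply finrank_le_add _ _ _ (LinearMap.proj (⟨l, hl⟩ : Fin n))
  · rintro B ⟨h1, h2⟩ i hi
    have h3 := h1 i ⟨l, hl⟩
    rw [h2 i hi, mul_zero, zero_mul, sub_zero, sub_eq_zero] at h3
    exact h3.symm
  · rintro B ⟨h1, h2⟩ h3
    refine ⟨h1, fun i hi => ?_⟩
    rcases Nat.eq_or_lt_of_le hi with h | h
    · have : i = ⟨l, hl⟩ := Fin.ext h.symm
      rw [this]
      exact h3
    · exact h2 i h

/-- **Bound by centralizers of flags.** -/
theorem finrank_ZC_le_flag (hn : 2 ≤ n) (A : Fin n → Matrix κ κ k) :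
    finrank k (ZC A) ≤ Fintype.card κ ^ 2 + finrank k (CentGe A (n - 2)) +
      ∑ l ∈ Finset.range (n - 2), finrank k (CentGe A (l + 1)) := by
  let i0 : Fin n := ⟨n - 2, by omega⟩
  let i1 : Fin n := ⟨n - 1, by omega⟩
  have h1 : finrank k (ZC A) ≤ finrank k (ZCl A (n - 2)) +
      finrank k (LinearMap.ker (PhiYZ (A i0) (A i1))) := by
    apply finrank_le_add _ _ _ ((LinearMap.proj i0).prod (LinearMap.proj i1))
    · intro B hB
      rw [LinearMap.mem_ker]
      show (A i0 * B i1 - B i1 * A i0) - (A i1 * B i0 - B i0 * A i1) = 0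
      rw [hB i0 i1, sub_self]
    · intro B hB h
      have ha : B i0 = 0 := congrArg Prod.fst h
      have hb : B i1 = 0 := congrArg Prod.snd h
      refine ⟨hB, fun i hi => ?_⟩
      have h2 := i.isLt
      rcases Nat.eq_or_lt_of_le hi with h3 | h3
      · have : i = i0 := Fin.ext h3.symm
        rw [this, ha]
      · have : i = i1 := Fin.ext (by show (i : ℕ) = n - 1; omega)
        rw [this, hb]
  have h2 := finrank_ker_Phi_le (A i0) (A i1)
  have h3 : finrank k (Cent (A i0) (A i1)) ≤ finrank k (CentGe A (n - 2)) := by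
    apply Submodule.finrank_mono
    rintro W ⟨hW1, hW2⟩ i hi
    have h2 := i.isLt
    rcases Nat.eq_or_lt_of_le hi with h3 | h3
    · have : i = i0 := Fin.ext h3.symm
      rw [this, hW1]
    · have : i = i1 := Fin.ext (by show (i : ℕ) = n - 1; omega)
      rw [this, hW2]
  have h4 : ∀ l, l ≤ n - 2 → finrank k (ZCl A l) ≤
      ∑ l ∈ Finset.range l, finrank k (CentGe A (l + 1)) := by
    intro l
    induction l with
    | zero => intro _; rw [finrank_ZCl_zero]; exact Nat.zero_le _
    | succ l ih =>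
      intro hl
      rw [Finset.sum_range_succ]
      have := ih (by omega)
      have h5 := finrank_ZCl_succ A (l := l) (by omega)
      omega
  have h5 := h4 (n - 2) le_rfl
  omega

end Pool.Agent.Hilb61
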