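import Pool.Agent.Helper61.HilbCent

/-!
# Centralizers in monomial algebras
-/

open Module Matrix Finset

namespace Pool.Agent.Hilb61

variable {k : Type*} [Field k] {n d : ℕ} {mon : Fin d → (Fin n →₀ ℕ)}

/-- The set of exponents. -/
noncomputable def Dlt (mon : Fin d → (Fin n →₀ ℕ)) : Finset (Fin n →₀ ℕ) :=
  (univ : Finset (Fin d)).map ⟨fun s => s, Function.injective_id⟩ |>.image mon

lemma mem_Dlt {B : Fin n →₀ ℕ} : B ∈ Dlt mon ↔ ∃ s, mon s = B := by
  simp [Dlt]

lemma IsOrd.card_Dlt (h : IsOrd mon) : (Dlt mon).card = d := by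
  rw [Dlt, card_image_of_injective _ h.inj, card_map, card_univ, Fintype.card_fin]

lemma IsOrd.low_single (h : IsOrd mon) (i : Fin n) (m : ℕ) :
    ∀ (B : Fin n →₀ ℕ) (s : Fin d), B + Finsupp.single i m = mon s → ∃ r, mon r = B := by
  induction m with
  | zero =>
    intro B s hs
    exact ⟨s, by rw [← hs]; simp⟩
  | succ m ih =>
    intro B s hs
    rw [Finsupp.single_add, ← add_assoc] at hs
    obtain ⟨r, hr⟩ := h.low s i _ hs
    exact ih B r hr.symm

lemma comm_shift (h : IsOrd mon) {W : Matrix (Fin d) (Fin d) k} {l : Fin n}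
    (hW : W * Amon k mon l = Amon k mon l * W) (c : ℕ) :
    ∀ s t u r : Fin d, mon t = mon s + Finsupp.single l c → mon r = mon u + Finsupp.single l c →
      W u s = W r t := by
  induction c with
  | zero =>
    intro s t u r ht hr
    have h1 : t = s := h.inj (by rw [ht]; simp)
    have h2 : r = u := h.inj (by rw [hr]; simp)
    rw [h1, h2]
  | succ c ih =>
    intro s t u r ht hr
    rw [Finsupp.single_add, ← add_assoc] at ht hr
    obtain ⟨t', ht'⟩ := h.low t l _ ht.symm
    obtain ⟨r', hr'⟩ := h.low r l _ hr.symm
    rw [ih s t' u r' ht' hr']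
    rw [← ht'] at ht
    rw [← hr'] at hr
    have h1 := congrFun (congrFun hW r) t'
    rw [mul_Amon h W l r t' t ht, Amon_mul h W l r t' r' hr] at h1
    exact h1.symm

/-- **Centralizer bound for monomial algebras.** -/
theorem finrank_CentGe_le (h : IsOrd mon) (l : Fin n) :
    finrank k (CentGe (Amon k mon) (l : ℕ)) ≤
      ∑ u ∈ Dlt mon, ((Dlt mon).filter (fun s => s l = u l ∧ ∀ m, l < m → s m = 0)).card := by
  classical
  have hex : ∀ μ : Fin d, ∃ i, ¬ ∃ r, mon r = mon μ + Finsupp.single l i := by
    intro μ
    by_contra hc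
    push Not at hc
    choose f hf using hc
    have hinj : Function.Injective f := by
      intro i j hij
      have h1 := hf i
      rw [hij, hf j] at h1
      have h2 := add_left_cancel h1
      have h3 := DFunLike.congr_fun h2 l
      simpa using h3.symm
    exact not_injective_infinite_finite f hinj
  let b : Fin d → ℕ := fun μ => Nat.find (hex μ)
  have hb1 : ∀ μ, ¬ ∃ r, mon r = mon μ + Finsupp.single l (b μ) := fun μ => Nat.find_spec (hex μ)
  have hb2 : ∀ μ i, i < b μ → ∃ r, mon r = mon μ + Finsupp.single l i := by
    intro μ i hi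
    have := Nat.find_min (hex μ) hi
    push Not at this
    exact this
  let gen : Fin d → Prop := fun μ => ∀ m : Fin n, l ≤ m → mon μ m = 0
  let PF : Finset (Fin d × Fin d) := univ.filter
    (fun p => gen p.1 ∧ ¬ ∃ r, mon r = mon p.2 + Finsupp.single l (b p.1))
  let f : CentGe (Amon k mon) (l : ℕ) →ₗ[k] (PF → k) :=
    { toFun := fun W p => W.1 p.1.2 p.1.1
      map_add' := by intro W W'; rfl
      map_smul' := by intro t W; rfl }
  have hf : Function.Injective f := by
    rw [← LinearMap.ker_eq_bot, LinearMap.ker_eq_bot']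
    intro W hW
    have hW0 : ∀ μ u, gen μ → (¬ ∃ r, mon r = mon u + Finsupp.single l (b μ)) → W.1 u μ = 0 := by
      intro μ u h1 h2
      exact congrFun hW ⟨(μ, u), mem_filter.mpr ⟨mem_univ _, h1, h2⟩⟩
    have hcl : W.1 * Amon k mon l = Amon k mon l * W.1 := W.2 l le_rfl
    -- columns of generators
    have hgen : ∀ μ, gen μ → ∀ u, W.1 u μ = 0 := by
      intro μ hμ u
      by_cases hr : ∃ r, mon r = mon u + Finsupp.single l (b μ)
      · obtain ⟨r, hr⟩ := hr
        have hb0 : b μ ≠ 0 := by
          intro h0
          apply hb1 μ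
          rw [h0]
          exact ⟨μ, by simp⟩
        obtain ⟨c, hc⟩ := Nat.exists_eq_succ_of_ne_zero hb0
        obtain ⟨t, ht⟩ := hb2 μ c (by omega)
        rw [hc, Nat.succ_eq_add_one, Finsupp.single_add, ← add_assoc] at hr
        obtain ⟨r', hr'⟩ := h.low r l _ hr.symm
        rw [comm_shift h hcl c μ t u r' ht hr']
        rw [← hr'] at hr
        have h1 := congrFun (congrFun hcl r) t
        rw [Amon_mul h W.1 l r t r' hr, mul_Amon_zero] at h1
        · exact h1.symm
        · intro t' ht'
          apply hb1 μ
          refine ⟨t', ?_⟩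
          rw [ht', ht, hc, Nat.succ_eq_add_one, Finsupp.single_add, ← add_assoc]
      · exact hW0 μ u hμ hr
    have hall : ∀ N, ∀ s, (mon s).degree = N → ∀ u, W.1 u s = 0 := by
      intro N
      induction N with
      | zero =>
        intro s hs
        apply hgen
        intro m _
        have : mon s = 0 := (Finsupp.degree_eq_zero_iff _).mp hs
        rw [this]
        rfl
      | succ N ih =>
        intro s hs u
        by_cases hg : gen s
        · exact hgen s hg u
        · have hg' : ∃ m, l ≤ m ∧ mon s m ≠ 0 := by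
            by_contra hc
            push Not at hc
            exact hg hc
          obtain ⟨m, hm, hm0⟩ := hg'
          have h1 := sub_add_single (s := mon s) (i := m) (by omega)
          obtain ⟨s', hs'⟩ := h.low s m _ h1
          have h2 : mon s = mon s' + Finsupp.single m 1 := by rw [hs', h1]
          have h3 : (mon s').degree = N := by
            have := congrArg Finsupp.degree h2
            rw [map_add, Finsupp.degree_single, hs] at this
            omega
          have h4 : W.1 * Amon k mon m = Amon k mon m * W.1 := W.2 m hm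
          have h5 := congrFun (congrFun h4 u) s'
          rw [mul_Amon h W.1 m u s' s h2] at h5
          rw [h5]
          by_cases h6 : ∃ t, mon u = mon t + Finsupp.single m 1
          · obtain ⟨t, ht⟩ := h6
            rw [Amon_mul h W.1 m u s' t ht]
            exact ih s' h3 t
          · push Not at h6
            exact Amon_mul_zero W.1 m u s' h6
    apply Subtype.ext
    ext u s
    exact hall _ s rfl u
  have h1 := LinearMap.finrank_le_finrank_of_injective hf
  rw [Module.finrank_fintype_fun_eq_card, Fintype.card_coe] at h1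
  refine h1.trans ?_
  -- counting
  have h2 : PF.card = ∑ μ ∈ univ.filter gen,
      (univ.filter (fun u : Fin d => ¬ ∃ r, mon r = mon u + Finsupp.single l (b μ))).card := by
    have : PF = ((univ.filter gen).sigma (fun μ => univ.filter
        (fun u : Fin d => ¬ ∃ r, mon r = mon u + Finsupp.single l (b μ)))).map
        (Equiv.sigmaEquivProd (Fin d) (Fin d)).toEmbedding := by
      ext ⟨μ, u⟩
      simp [PF]
    rw [this, card_map, card_sigma]
  have h3 : ∀ μ, (univ.filter (fun u : Fin d => ¬ ∃ r, mon r = mon u +
      Finsupp.single l (b μ))).card ≤ (univ.filter (fun u : Fin d => mon u l < b μ)).card := by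
    intro μ
    have e1 := card_filter_add_card_filter_not (s := (univ : Finset (Fin d)))
      (fun u => ∃ r, mon r = mon u + Finsupp.single l (b μ))
    have e2 := card_filter_add_card_filter_not (s := (univ : Finset (Fin d)))
      (fun u => mon u l < b μ)
    have e3 : (univ.filter (fun u : Fin d => ¬ mon u l < b μ)).card ≤
        (univ.filter (fun u : Fin d => ∃ r, mon r = mon u + Finsupp.single l (b μ))).card := by
      have hch : ∀ r : Fin d, ∃ u : Fin d, b μ ≤ mon r l → mon r = mon u + Finsupp.single l (b μ) := by
        intro r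
        by_cases hr : b μ ≤ mon r l
        · obtain ⟨u, hu⟩ := h.low_single l (b μ) _ r (sub_add_single' hr)
          exact ⟨u, fun _ => by rw [hu, sub_add_single' hr]⟩
        · exact ⟨r, fun h' => absurd h' hr⟩
      choose g hg using hch
      apply card_le_card_of_injOn g
      · intro r hr
        have hr' : r ∈ univ.filter (fun u : Fin d => ¬ mon u l < b μ) := hr
        rw [mem_filter] at hr'
        rw [mem_coe, mem_filter]
        exact ⟨mem_univ _, r, hg r (by omega)⟩
      · intro r hr r' hr' hrr
        have h4 : r ∈ univ.filter (fun u : Fin d => ¬ mon u l < b μ) := hr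
        have h5 : r' ∈ univ.filter (fun u : Fin d => ¬ mon u l < b μ) := hr'
        rw [mem_filter] at h4 h5
        apply h.inj
        rw [hg r (by omega), hg r' (by omega), hrr]
    omega
  have h4 : ∑ u ∈ Dlt mon, ((Dlt mon).filter (fun s => s l = u l ∧ ∀ m, l < m → s m = 0)).card =
      ∑ u : Fin d, ((Dlt mon).filter (fun s => s l = mon u l ∧ ∀ m, l < m → s m = 0)).card := by
    rw [Dlt, sum_image (fun x _ y _ hxy => h.inj hxy), sum_map]
    rfl
  rw [h2, h4]
  refine (sum_le_sum fun μ _ => h3 μ).trans ?_
  have h5 : ∑ μ ∈ univ.filter gen, (univ.filter (fun u : Fin d => mon u l < b μ)).card =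
      ∑ u : Fin d, ((univ.filter gen).filter (fun μ => mon u l < b μ)).card :=
    sum_card_bipartiteAbove_eq_sum_card_bipartiteBelow (fun μ u => mon u l < b μ)
  rw [h5]
  apply sum_le_sum
  intro u _
  apply card_le_card_of_injOn (fun μ => mon μ + Finsupp.single l (mon u l))
  · intro μ hμ
    have hμ' : μ ∈ (univ.filter gen).filter (fun μ => mon u l < b μ) := hμ
    rw [mem_filter, mem_filter] at hμ'
    obtain ⟨⟨_, hg⟩, hlt⟩ := hμ'
    rw [mem_coe, mem_filter]
    refine ⟨mem_Dlt.mpr (hb2 μ _ hlt), ?_, ?_⟩
    · rw [Finsupp.add_apply, hg l le_rfl, Finsupp.single_eq_same, zero_add]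
    · intro m hm
      rw [Finsupp.add_apply, hg m hm.le, Finsupp.single_eq_of_ne (ne_of_gt hm), zero_add]
  · intro μ _ μ' _ hμ
    exact h.inj (add_right_cancel hμ)

end Pool.Agent.Hilb61
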