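import Mathlib

open Module Matrix

namespace Pool.Agent.Hilb61

variable {k : Type*} [Field k] {ι μ κ : Type*} [Fintype κ] [DecidableEq κ]

/-- First-order deformations `B` of the tuple `A` of matrices which keep it commuting to first
order: `[A i, B j] = [A j, B i]`. -/
def ZC (A : ι → Matrix κ κ k) : Submodule k (ι → Matrix κ κ k) where
  carrier := {B | ∀ i j, A i * B j - B j * A i = A j * B i - B i * A j}
  add_mem' := by
    intro B C hB hC i j
    have h1 := hB i j
    have h2 := hC i j
    simp only [Pi.add_apply, mul_add, add_mul]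
    calc A i * B j + A i * C j - (B j * A i + C j * A i)
        = (A i * B j - B j * A i) + (A i * C j - C j * A i) := by abel
      _ = (A j * B i - B i * A j) + (A j * C i - C i * A j) := by rw [h1, h2]
      _ = _ := by abel
  zero_mem' := by intro i j; simp
  smul_mem' := by
    intro c B hB i j
    have h1 := hB i j
    simp only [Pi.smul_apply, mul_smul_comm, smul_mul_assoc, ← smul_sub, h1]

lemma mem_ZC {A B : ι → Matrix κ κ k} :
    B ∈ ZC A ↔ ∀ i j, A i * B j - B j * A i = A j * B i - B i * A j := Iff.rfl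

/-- `v` is a cyclic vector for the tuple `A`. -/
def Cyclic (A : ι → Matrix κ κ k) (v : κ → k) : Prop :=
  ∀ W : Submodule k (κ → k), v ∈ W → (∀ i, ∀ w ∈ W, A i *ᵥ w ∈ W) → W = ⊤

/-- The unital algebra generated by a tuple. -/
abbrev Alg (A : ι → Matrix κ κ k) : Subalgebra k (Matrix κ κ k) :=
  Algebra.adjoin k (Set.range A)

lemma self_mem_Alg (A : ι → Matrix κ κ k) (i : ι) : A i ∈ Alg A :=
  Algebra.subset_adjoin ⟨i, rfl⟩

lemma comm_Alg_of {A : ι → Matrix κ κ k} {X : Matrix κ κ k} (hX : ∀ i, X * A i = A i * X)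
    {r : Matrix κ κ k} (hr : r ∈ Alg A) : X * r = r * X := by
  have : Commute X r := by
    apply Algebra.commute_of_mem_adjoin_of_forall_mem_commute hr
    rintro _ ⟨i, rfl⟩
    exact hX i
  exact this

lemma comm_Alg {A : ι → Matrix κ κ k} (hA : ∀ i j, A i * A j = A j * A i)
    {r s : Matrix κ κ k} (hr : r ∈ Alg A) (hs : s ∈ Alg A) : r * s = s * r := by
  apply comm_Alg_of _ hs
  intro i
  exact (comm_Alg_of (fun j => hA i j) hr).symm

lemma exists_Alg {A : ι → Matrix κ κ k} {v : κ → k} (hv : Cyclic A v) (w : κ → k) :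
    ∃ r ∈ Alg A, r *ᵥ v = w := by
  let W : Submodule k (κ → k) :=
    { carrier := {w | ∃ r ∈ Alg A, r *ᵥ v = w}
      add_mem' := by
        rintro _ _ ⟨r, hr, rfl⟩ ⟨s, hs, rfl⟩
        exact ⟨r + s, add_mem hr hs, add_mulVec _ _ _⟩
      zero_mem' := ⟨0, zero_mem _, zero_mulVec _⟩
      smul_mem' := by
        rintro c _ ⟨r, hr, rfl⟩
        exact ⟨c • r, Subalgebra.smul_mem _ hr c, smul_mulVec _ _ _⟩ }
  have hW : W = ⊤ := by
    apply hv
    · exact ⟨1, one_mem _, one_mulVec _⟩
    · rintro i _ ⟨r, hr, rfl⟩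
      exact ⟨A i * r, mul_mem (self_mem_Alg A i) hr, by rw [mulVec_mulVec]⟩
  have : w ∈ W := by rw [hW]; trivial
  exact this

lemma Alg_inj {A : ι → Matrix κ κ k} {v : κ → k} (hv : Cyclic A v)
    {X : Matrix κ κ k} (hX : ∀ i, X * A i = A i * X) (h0 : X *ᵥ v = 0) : X = 0 := by
  have : ∀ w : κ → k, X *ᵥ w = 0 := by
    intro w
    obtain ⟨r, hr, rfl⟩ := exists_Alg hv w
    rw [mulVec_mulVec, comm_Alg_of hX hr, ← mulVec_mulVec, h0, mulVec_zero]
  ext i j
  have := congrFun (this (Pi.single j 1)) i
  simpa using this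

/-- The centraliser of a commuting tuple with a cyclic vector is the algebra it generates. -/
lemma centralizer_eq {A : ι → Matrix κ κ k} {v : κ → k} (hA : ∀ i j, A i * A j = A j * A i)
    (hv : Cyclic A v) {X : Matrix κ κ k} (hX : ∀ i, X * A i = A i * X) : X ∈ Alg A := by
  obtain ⟨r, hr, hrv⟩ := exists_Alg hv (X *ᵥ v)
  have : X - r = 0 := by
    apply Alg_inj hv (A := A)
    · intro i
      rw [sub_mul, mul_sub, hX i, comm_Alg hA hr (self_mem_Alg A i)]
    · rw [sub_mulVec, hrv, sub_self]
  rw [sub_eq_zero] at this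
  rw [this]; exact hr

/-- `Alg A ≃ k^κ` via the cyclic vector. -/
noncomputable def algEquiv {A : ι → Matrix κ κ k} {v : κ → k} (hA : ∀ i j, A i * A j = A j * A i)
    (hv : Cyclic A v) : Alg A ≃ₗ[k] (κ → k) :=
  LinearEquiv.ofBijective
    ({ toFun := fun r => (r : Matrix κ κ k) *ᵥ v
       map_add' := fun r s => add_mulVec _ _ _
       map_smul' := fun c r => smul_mulVec _ _ _ } : Alg A →ₗ[k] (κ → k))
    (by
      constructor
      · intro r s hrs
        have hrs' : (r : Matrix κ κ k) *ᵥ v = (s : Matrix κ κ k) *ᵥ v := hrs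
        have : (r : Matrix κ κ k) - s = 0 := by
          apply Alg_inj hv (A := A)
          · intro i
            exact comm_Alg hA (sub_mem r.2 s.2) (self_mem_Alg A i)
          · rw [sub_mulVec, hrs', sub_self]
        exact Subtype.ext (sub_eq_zero.mp this)
      · intro w
        obtain ⟨r, hr, hrv⟩ := exists_Alg hv w
        exact ⟨⟨r, hr⟩, hrv⟩)

lemma finrank_Alg {A : ι → Matrix κ κ k} {v : κ → k} (hA : ∀ i j, A i * A j = A j * A i)
    (hv : Cyclic A v) : finrank k (Alg A) = Fintype.card κ := by
  rw [(algEquiv hA hv).finrank_eq]; simp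

/-! ### Extension of the tuple by elements of the algebra -/

/-- every element of the algebra is the first component of a derivation pair -/
lemma exists_pair {A B : ι → Matrix κ κ k} (hA : ∀ i j, A i * A j = A j * A i)
    (hB : B ∈ ZC A) {r : Matrix κ κ k} (hr : r ∈ Alg A) :
    ∃ X : Matrix κ κ k, (∀ i, A i * X - X * A i = r * B i - B i * r) ∧
      ∀ s ∈ Alg A, ∀ Y : Matrix κ κ k, (∀ i, A i * Y - Y * A i = s * B i - B i * s) →
        r * Y - Y * r = s * X - X * s := by
  induction hr using Algebra.adjoin_induction with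
  | mem x hx =>
    obtain ⟨j, rfl⟩ := hx
    refine ⟨B j, fun i => hB i j, fun s hs Y hY => hY j⟩
  | algebraMap c =>
    refine ⟨0, fun i => ?_, fun s hs Y hY => ?_⟩
    · rw [mul_zero, zero_mul, sub_zero, Algebra.commutes, sub_self]
    · rw [mul_zero, zero_mul, sub_zero, Algebra.commutes, sub_self]
  | add x y hx hy ihx ihy =>
    obtain ⟨X, hX, hX'⟩ := ihx
    obtain ⟨Y, hY, hY'⟩ := ihy
    refine ⟨X + Y, fun i => ?_, fun s hs Z hZ => ?_⟩
    · have h1 := hX i
      have h2 := hY i
      calc A i * (X + Y) - (X + Y) * A i = (A i * X - X * A i) + (A i * Y - Y * A i) := by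
            noncomm_ring
        _ = _ := by rw [h1, h2]; noncomm_ring
    · have h1 := hX' s hs Z hZ
      have h2 := hY' s hs Z hZ
      calc (x + y) * Z - Z * (x + y) = (x * Z - Z * x) + (y * Z - Z * y) := by noncomm_ring
        _ = _ := by rw [h1, h2]; noncomm_ring
  | mul x y hx hy ihx ihy =>
    obtain ⟨X, hX, hX'⟩ := ihx
    obtain ⟨Y, hY, hY'⟩ := ihy
    refine ⟨x * Y + X * y, fun i => ?_, fun s hs Z hZ => ?_⟩
    · have h1 := hX i
      have h2 := hY i
      have hc1 := comm_Alg hA hx (self_mem_Alg A i)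
      have hc2 := comm_Alg hA hy (self_mem_Alg A i)
      calc A i * (x * Y + X * y) - (x * Y + X * y) * A i
          = (A i * x) * Y + (A i * X) * y - x * (Y * A i) - X * (y * A i) := by noncomm_ring
        _ = x * (A i * Y - Y * A i) + (A i * X - X * A i) * y := by
            rw [← hc1, hc2]; noncomm_ring
        _ = x * (y * B i - B i * y) + (x * B i - B i * x) * y := by rw [h1, h2]
        _ = _ := by noncomm_ring
    · have h1 := hX' s hs Z hZ
      have h2 := hY' s hs Z hZ
      have hc1 := comm_Alg hA hx hs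
      have hc2 := comm_Alg hA hy hs
      calc x * y * Z - Z * (x * y) = x * (y * Z - Z * y) + (x * Z - Z * x) * y := by noncomm_ring
        _ = x * (s * Y - Y * s) + (s * X - X * s) * y := by rw [h1, h2]
        _ = (x * s) * Y + s * (X * y) - x * (Y * s) - X * (s * y) := by noncomm_ring
        _ = _ := by rw [hc1, ← hc2]; noncomm_ring

/-- restriction of tuples -/
def resL : (ι ⊕ μ → Matrix κ κ k) →ₗ[k] (ι → Matrix κ κ k) where
  toFun B i := B (Sum.inl i)
  map_add' _ _ := rfl
  map_smul' _ _ := rfl

/-- **Extension formula.** Adding `μ` elements of the algebra to the tuple increases the dimension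
of the space of first-order deformations by `|μ| · |κ|`. -/
theorem finrank_ZC_sum [Fintype ι] [Fintype μ] {A : ι → Matrix κ κ k} {a : μ → Matrix κ κ k}
    {v : κ → k}
    (hA : ∀ i j, A i * A j = A j * A i) (hv : Cyclic A v) (ha : ∀ j, a j ∈ Alg A) :
    finrank k (ZC (Sum.elim A a)) = finrank k (ZC A) + Fintype.card μ * Fintype.card κ := by
  classical
  let φ : ZC (Sum.elim A a) →ₗ[k] ZC A :=
    LinearMap.codRestrict _ (resL.comp (Submodule.subtype _)) (by
      intro B i j
      exact B.2 (Sum.inl i) (Sum.inl j))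
  have hsurj : Function.Surjective φ := by
    intro B
    have h : ∀ j : μ, ∃ X : Matrix κ κ k, (∀ i, A i * X - X * A i = a j * B.1 i - B.1 i * a j) ∧
      ∀ s ∈ Alg A, ∀ Y : Matrix κ κ k, (∀ i, A i * Y - Y * A i = s * B.1 i - B.1 i * s) →
        a j * Y - Y * a j = s * X - X * s := fun j => exists_pair hA B.2 (ha j)
    choose b hb hb' using h
    refine ⟨⟨Sum.elim B.1 b, ?_⟩, ?_⟩
    · rintro (i | i) (j | j)
      · exact B.2 i j
      · exact hb j i
      · exact (hb i j).symm
      · exact hb' i (a j) (ha j) (b j) (hb j)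
    · ext i : 2
      rfl
  have hker : finrank k (LinearMap.ker φ) = Fintype.card μ * Fintype.card κ := by
    let ψ : (μ → Alg A) →ₗ[k] LinearMap.ker φ :=
      { toFun := fun b => ⟨⟨Sum.elim (fun _ => 0) (fun j => (b j : Matrix κ κ k)), by
            rintro (i | i) (j | j)
            · simp
            · simp only [Sum.elim_inl, Sum.elim_inr, mul_zero, zero_mul, sub_self]
              rw [comm_Alg hA (b j).2 (self_mem_Alg A i), sub_self]
            · simp only [Sum.elim_inl, Sum.elim_inr, mul_zero, zero_mul, sub_self]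
              rw [comm_Alg hA (b i).2 (self_mem_Alg A j), sub_self]
            · simp only [Sum.elim_inr]
              rw [comm_Alg hA (b j).2 (ha i), comm_Alg hA (b i).2 (ha j), sub_self, sub_self]⟩, by
          rw [LinearMap.mem_ker]
          ext i : 2
          rfl⟩
        map_add' := by
          intro b c
          ext x : 3
          rcases x with x | x
          · simp
          · rfl
        map_smul' := by
          intro b c
          ext x : 3
          rcases x with x | x
          · simp
          · rfl }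
    have hψ : Function.Bijective ψ := by
      constructor
      · intro b c hbc
        funext j
        apply Subtype.ext
        have := congrArg (fun z : LinearMap.ker φ => (z.1.1 (Sum.inr j) : Matrix κ κ k)) hbc
        exact this
      · rintro ⟨⟨B, hB⟩, hBφ⟩
        rw [LinearMap.mem_ker] at hBφ
        have h0 : ∀ i, B (Sum.inl i) = 0 := by
          intro i
          have := congrArg (fun z : ZC A => z.1 i) hBφ
          exact this
        have h1 : ∀ j, B (Sum.inr j) ∈ Alg A := by
          intro j
          apply centralizer_eq hA hv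
          intro i
          have := hB (Sum.inl i) (Sum.inr j)
          simp only [Sum.elim_inl, Sum.elim_inr, h0, mul_zero, zero_mul, sub_self] at this
          exact (sub_eq_zero.mp this).symm
        refine ⟨fun j => ⟨B (Sum.inr j), h1 j⟩, ?_⟩
        ext x : 3
        rcases x with x | x
        · exact (h0 x).symm
        · rfl
    rw [← (LinearEquiv.ofBijective ψ hψ).finrank_eq, Module.finrank_pi_fintype]
    simp [finrank_Alg hA hv]
  have := LinearMap.finrank_range_add_finrank_ker φ
  rw [hker, LinearMap.range_eq_top.mpr hsurj, finrank_top] at this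
  omega

lemma Cyclic.of_Alg {A : ι → Matrix κ κ k} {a : μ → Matrix κ κ k} {v : κ → k}
    (hv : Cyclic A v) (h : ∀ i, A i ∈ Alg a) : Cyclic a v := by
  intro W hvW hW
  apply hv W hvW
  intro i w hw
  have : ∀ r ∈ Alg a, ∀ w ∈ W, r *ᵥ w ∈ W := by
    intro r hr
    induction hr using Algebra.adjoin_induction with
    | mem x hx =>
      obtain ⟨j, rfl⟩ := hx
      exact hW j
    | algebraMap c =>
      intro w hw
      rw [Algebra.algebraMap_eq_smul_one, smul_mulVec, one_mulVec]
      exact W.smul_mem c hw
    | add x y hx hy ihx ihy =>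
      intro w hw
      rw [add_mulVec]
      exact W.add_mem (ihx w hw) (ihy w hw)
    | mul x y hx hy ihx ihy =>
      intro w hw
      rw [← mulVec_mulVec]
      exact ihx _ (ihy w hw)
  exact this _ (h i) w hw

/-- Reindexing of the tuple. -/
lemma finrank_ZC_reindex (e : ι ≃ μ) (A : ι → Matrix κ κ k) :
    finrank k (ZC (fun j => A (e.symm j))) = finrank k (ZC A) := by
  let f : (ι → Matrix κ κ k) ≃ₗ[k] (μ → Matrix κ κ k) := LinearEquiv.funCongrLeft k _ e.symm
  have : (ZC A).map (f : (ι → Matrix κ κ k) →ₗ[k] (μ → Matrix κ κ k)) =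
      ZC (fun j => A (e.symm j)) := by
    ext B
    simp only [Submodule.mem_map]
    constructor
    · rintro ⟨C, hC, rfl⟩
      intro i j
      exact hC (e.symm i) (e.symm j)
    · intro hB
      refine ⟨f.symm B, ?_, f.apply_symm_apply B⟩
      intro i j
      have := hB (e i) (e j)
      simp only [Equiv.symm_apply_apply] at this
      exact this
  rw [← this]
  exact LinearEquiv.finrank_map_eq f (ZC A)

/-- **Comparison formula.** Two generating tuples of the same commutative algebra. -/
theorem finrank_ZC_compare [Fintype ι] [Fintype μ] {A : ι → Matrix κ κ k} {a : μ → Matrix κ κ k}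
    {v : κ → k} (hA : ∀ i j, A i * A j = A j * A i) (hv : Cyclic A v)
    (ha : ∀ j, a j ∈ Alg A) (hA' : ∀ i, A i ∈ Alg a) :
    finrank k (ZC A) + Fintype.card μ * Fintype.card κ =
      finrank k (ZC a) + Fintype.card ι * Fintype.card κ := by
  have hac : ∀ i j, a i * a j = a j * a i := fun i j => comm_Alg hA (ha i) (ha j)
  have h1 := finrank_ZC_sum hA hv ha
  have h2 := finrank_ZC_sum hac (hv.of_Alg hA') hA'
  have h3 := finrank_ZC_reindex (Equiv.sumComm ι μ) (Sum.elim A a)
  have h4 : (fun j => Sum.elim A a ((Equiv.sumComm ι μ).symm j)) = Sum.elim a A := by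
    funext j
    rcases j with j | j <;> rfl
  rw [h4] at h3
  omega

end Pool.Agent.Hilb61
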