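import Pool.Agent.Helper61.HilbMon
import Pool.Agent.Helper61.HilbZC

/-!
# The dimension of the space of first-order commuting deformations of a monomial algebra does not
depend on the field
-/

open Module Matrix

namespace Pool.Agent.Hilb61

namespace HChar

/-! ### Functions constant on classes -/

section General

variable {Y : Type*} (y0 : Y) (E : Y → Y → Prop)

/-- functions respecting a relation and vanishing at a base point -/
def WQ (k : Type*) [Field k] : Submodule k (Y → k) where
  carrier := {c | c y0 = 0 ∧ ∀ a b, E a b → c a = c b}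
  add_mem' := by
    rintro f g ⟨h1, h2⟩ ⟨h3, h4⟩
    refine ⟨by rw [Pi.add_apply, h1, h3, add_zero], fun a b hab => ?_⟩
    rw [Pi.add_apply, Pi.add_apply, h2 a b hab, h4 a b hab]
  zero_mem' := ⟨rfl, fun _ _ _ => rfl⟩
  smul_mem' := by
    rintro c f ⟨h1, h2⟩
    refine ⟨by rw [Pi.smul_apply, h1, smul_zero], fun a b hab => ?_⟩
    rw [Pi.smul_apply, Pi.smul_apply, h2 a b hab]

open Classical in
/-- they are the functions on the classes different from the class of the base point -/
noncomputable def WQequiv (k : Type*) [Field k] :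
    WQ y0 E k ≃ₗ[k] ({q : Quot E // q ≠ Quot.mk E y0} → k) where
  toFun c q := Quot.lift c.1 c.2.2 q.1
  map_add' c e := by
    funext ⟨q, hq⟩
    induction q using Quot.ind
    rfl
  map_smul' r c := by
    funext ⟨q, hq⟩
    induction q using Quot.ind
    rfl
  invFun f := ⟨fun y => if h : Quot.mk E y ≠ Quot.mk E y0 then f ⟨Quot.mk E y, h⟩ else 0, by
    refine ⟨dif_neg (not_not.2 rfl), fun a b hab => ?_⟩
    have h1 : Quot.mk E a = Quot.mk E b := Quot.sound hab
    simp only [h1]⟩
  left_inv c := by
    apply Subtype.ext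
    funext y
    dsimp only
    split_ifs with h
    · rfl
    · rw [not_not] at h
      have h1 : Quot.lift c.1 c.2.2 (Quot.mk E y) = Quot.lift c.1 c.2.2 (Quot.mk E y0) := by rw [h]
      have h2 : c.1 y = c.1 y0 := h1
      rw [h2]
      exact c.2.1.symm
  right_inv f := by
    funext ⟨q, hq⟩
    induction q using Quot.ind with
    | _ y => exact dif_pos hq

lemma finrank_WQ [Finite Y] (k : Type*) [Field k] :
    finrank k (WQ y0 E k) = Nat.card {q : Quot E // q ≠ Quot.mk E y0} := by
  classical
  have : Fintype {q : Quot E // q ≠ Quot.mk E y0} := Fintype.ofFinite _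
  rw [(WQequiv y0 E k).finrank_eq, Module.finrank_fintype_fun_eq_card, Nat.card_eq_fintype_card]

end General

variable {n d : ℕ} (mon : Fin d → (Fin n →₀ ℕ))

/-- labels of the entries of a tuple of matrices -/
abbrev X (n d : ℕ) : Type := Fin n × Fin d × Fin d

/-- the monomial `s + e_j` is in the order ideal -/
def In (s : Fin d) (j : Fin n) : Prop := ∃ t, mon t = mon s + Finsupp.single j 1

open Classical in
/-- label of the entry `(A_i B_j) (u, s)` -/
noncomputable def L1 (i j : Fin n) (u s : Fin d) : Option (X n d) :=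
  if h : ∃ t, mon u = mon t + Finsupp.single i 1 then some (j, h.choose, s) else none

open Classical in
/-- label of the entry `(B_i A_j) (u, s)` -/
noncomputable def R1 (i j : Fin n) (u s : Fin d) : Option (X n d) :=
  if h : In mon s j then some (i, u, h.choose) else none

/-- the equations -/
inductive Eqn : Option (X n d) → Option (X n d) → Prop
  | vanish (j : Fin n) (u s : Fin d) (h : In mon s j) : Eqn (some (j, u, s)) none
  | both (i j : Fin n) (u s : Fin d) (hi : In mon s i) (hj : In mon s j) :
      Eqn (R1 mon i j u s) (R1 mon j i u s)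
  | one (i j : Fin n) (u s : Fin d) (hi : In mon s i) (hj : ¬ In mon s j) :
      Eqn (L1 mon i j u s) (R1 mon j i u s)
  | neither (i j : Fin n) (u s : Fin d) (hi : ¬ In mon s i) (hj : ¬ In mon s j) :
      Eqn (L1 mon i j u s) (L1 mon j i u s)

variable {mon}

/-- the entries of a tuple -/
def ent {k : Type*} [Field k] (B : Fin n → Matrix (Fin d) (Fin d) k) : Option (X n d) → k
  | none => 0
  | some (j, u, s) => B j u s

lemma ent_L1 {k : Type*} [Field k] (h : IsOrd mon) (B : Fin n → Matrix (Fin d) (Fin d) k)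
    (i j : Fin n) (u s : Fin d) : (Amon k mon i * B j) u s = ent B (L1 mon i j u s) := by
  unfold L1
  split_ifs with hx
  · exact Amon_mul h (B j) i u s _ hx.choose_spec
  · push Not at hx
    exact Amon_mul_zero (B j) i u s hx

lemma ent_R1 {k : Type*} [Field k] (h : IsOrd mon) (B : Fin n → Matrix (Fin d) (Fin d) k)
    (i j : Fin n) (u s : Fin d) : (B i * Amon k mon j) u s = ent B (R1 mon i j u s) := by
  unfold R1
  split_ifs with hx
  · exact mul_Amon h (B i) j u s _ hx.choose_spec
  · unfold In at hx
    push Not at hx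
    exact mul_Amon_zero (B i) j u s hx

variable (mon) in
/-- normalised deformations -/
def ZC0 (k : Type*) [Field k] : Submodule k (Fin n → Matrix (Fin d) (Fin d) k) where
  carrier := {B | B ∈ ZC (Amon k mon) ∧ ∀ j u s, In mon s j → B j u s = 0}
  add_mem' := by
    rintro B C ⟨h1, h2⟩ ⟨h3, h4⟩
    refine ⟨add_mem h1 h3, fun j u s hs => ?_⟩
    rw [Pi.add_apply, Matrix.add_apply, h2 j u s hs, h4 j u s hs, add_zero]
  zero_mem' := ⟨zero_mem _, fun _ _ _ _ => rfl⟩
  smul_mem' := by
    rintro c B ⟨h1, h2⟩
    refine ⟨Submodule.smul_mem _ c h1, fun j u s hs => ?_⟩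
    rw [Pi.smul_apply, Matrix.smul_apply, h2 j u s hs, smul_zero]

lemma ZC_iff {k : Type*} [Field k] (h : IsOrd mon) (B : Fin n → Matrix (Fin d) (Fin d) k) :
    B ∈ ZC (Amon k mon) ↔ ∀ i j u s, ent B (L1 mon i j u s) + ent B (R1 mon i j u s) =
      ent B (L1 mon j i u s) + ent B (R1 mon j i u s) := by
  rw [mem_ZC]
  constructor
  · intro hB i j u s
    have h1 := congrFun (congrFun (hB i j) u) s
    rw [Matrix.sub_apply, Matrix.sub_apply, ent_L1 h, ent_R1 h, ent_L1 h, ent_R1 h] at h1
    linear_combination h1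
  · intro hB i j
    ext u s
    have h1 := hB i j u s
    rw [Matrix.sub_apply, Matrix.sub_apply, ent_L1 h, ent_R1 h, ent_L1 h, ent_R1 h]
    linear_combination h1

lemma ent_L1_zero {k : Type*} [Field k] {B : Fin n → Matrix (Fin d) (Fin d) k}
    (hB : ∀ j u s, In mon s j → B j u s = 0) (i j : Fin n) (u s : Fin d) (hj : In mon s j) :
    ent B (L1 mon i j u s) = 0 := by
  unfold L1
  split_ifs with hx
  · exact hB j _ s hj
  · rfl

lemma ent_R1_zero {k : Type*} [Field k] (B : Fin n → Matrix (Fin d) (Fin d) k)
    (i j : Fin n) (u s : Fin d) (hj : ¬ In mon s j) :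
    ent B (R1 mon i j u s) = 0 := by
  unfold R1
  rw [dif_neg hj]
  rfl

lemma ZC0_iff {k : Type*} [Field k] (h : IsOrd mon) (B : Fin n → Matrix (Fin d) (Fin d) k) :
    B ∈ ZC0 mon k ↔ ∀ a b, Eqn mon a b → ent B a = ent B b := by
  constructor
  · rintro ⟨h1, h2⟩ a b hab
    rw [ZC_iff h] at h1
    cases hab with
    | vanish j u s hs => exact h2 j u s hs
    | both i j u s hi hj =>
      have h3 := h1 i j u s
      rw [ent_L1_zero h2 i j u s hj, ent_L1_zero h2 j i u s hi, zero_add, zero_add] at h3
      exact h3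
    | one i j u s hi hj =>
      have h3 := h1 i j u s
      rw [ent_R1_zero B i j u s hj, ent_L1_zero h2 j i u s hi, zero_add, add_zero] at h3
      exact h3
    | neither i j u s hi hj =>
      have h3 := h1 i j u s
      rw [ent_R1_zero B i j u s hj, ent_R1_zero B j i u s hi, add_zero, add_zero] at h3
      exact h3
  · intro hE
    have h2 : ∀ j u s, In mon s j → B j u s = 0 := fun j u s hs => hE _ _ (Eqn.vanish j u s hs)
    refine ⟨?_, h2⟩
    rw [ZC_iff h]
    intro i j u s
    by_cases hi : In mon s i <;> by_cases hj : In mon s j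
    · rw [ent_L1_zero h2 i j u s hj, ent_L1_zero h2 j i u s hi,
        hE _ _ (Eqn.both i j u s hi hj)]
    · rw [ent_R1_zero B i j u s hj, ent_L1_zero h2 j i u s hi, zero_add, add_zero]
      exact hE _ _ (Eqn.one i j u s hi hj)
    · rw [ent_R1_zero B j i u s hi, ent_L1_zero h2 i j u s hj, zero_add, add_zero]
      exact (hE _ _ (Eqn.one j i u s hj hi)).symm
    · rw [ent_R1_zero B i j u s hj, ent_R1_zero B j i u s hi, add_zero, add_zero]
      exact hE _ _ (Eqn.neither i j u s hi hj)

/-- the normalised deformations are the functions on the labels -/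
noncomputable def ZC0equiv (k : Type*) [Field k] (h : IsOrd mon) :
    ZC0 mon k ≃ₗ[k] WQ (none : Option (X n d)) (Eqn mon) k where
  toFun B := ⟨ent B.1, rfl, (ZC0_iff h B.1).1 B.2⟩
  map_add' B C := by
    apply Subtype.ext
    funext x
    rcases x with _ | ⟨j, u, s⟩
    · exact (add_zero (0 : k)).symm
    · rfl
  map_smul' c B := by
    apply Subtype.ext
    funext x
    rcases x with _ | ⟨j, u, s⟩
    · exact (mul_zero c).symm
    · rfl
  invFun c := ⟨fun j => Matrix.of fun u s => c.1 (some (j, u, s)), by
    rw [ZC0_iff h]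
    have : ent (fun j => Matrix.of fun u s => c.1 (some (j, u, s))) = c.1 := by
      funext x
      rcases x with _ | ⟨j, u, s⟩
      · exact c.2.1.symm
      · rfl
    rw [this]
    exact c.2.2⟩
  left_inv B := by
    apply Subtype.ext
    rfl
  right_inv c := by
    apply Subtype.ext
    funext x
    rcases x with _ | ⟨j, u, s⟩
    · exact c.2.1.symm
    · rfl

lemma finrank_ZC0 (k : Type*) [Field k] (h : IsOrd mon) : finrank k (ZC0 mon k) =
    Nat.card {q : Quot (Eqn mon) // q ≠ Quot.mk (Eqn mon) (none : Option (X n d))} := by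
  rw [(ZC0equiv k h).finrank_eq, finrank_WQ]


/-! ### The gauge part -/

variable {k : Type*} [Field k]

lemma ord_induct (h : IsOrd mon) {P : Fin d → Prop} (h0 : ∀ z, mon z = 0 → P z)
    (hs : ∀ s t i, mon t = mon s + Finsupp.single i 1 → P s → P t) (s : Fin d) : P s := by
  suffices H : ∀ (N : ℕ) (s : Fin d), Finsupp.degree (mon s) = N → P s from H _ s rfl
  intro N
  induction N with
  | zero =>
    intro s hN
    exact h0 s ((Finsupp.degree_eq_zero_iff _).1 hN)
  | succ N ih =>
    intro s hN
    have hne : mon s ≠ 0 := by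
      intro h1
      rw [h1, map_zero] at hN
      omega
    obtain ⟨i, hi⟩ : ∃ i, mon s i ≠ 0 := by
      by_contra hcon
      push Not at hcon
      exact hne (Finsupp.ext hcon)
    have h1 : (mon s - Finsupp.single i 1) + Finsupp.single i 1 = mon s := by
      apply tsub_add_cancel_of_le
      rw [Finsupp.single_le_iff]
      omega
    obtain ⟨r, hr⟩ := h.low s i _ h1
    have h2 : mon s = mon r + Finsupp.single i 1 := by rw [hr, h1]
    refine hs r s i h2 (ih r ?_)
    rw [h2, map_add, Finsupp.degree_single] at hN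
    omega

lemma exists_zero (h : IsOrd mon) (s : Fin d) : ∃ z, mon z = 0 :=
  ord_induct h (P := fun _ => ∃ z, mon z = 0) (fun z hz => ⟨z, hz⟩) (fun _ _ _ _ hs => hs) s

lemma Amon_mulVec (h : IsOrd mon) {i : Fin n} {s t : Fin d}
    (ht : mon t = mon s + Finsupp.single i 1) :
    Amon k mon i *ᵥ Pi.single s 1 = Pi.single t 1 := by
  classical
  ext u
  rw [Matrix.mulVec_single_one, Matrix.col_apply, Amon_apply, Pi.single_apply]
  have : mon u = mon s + Finsupp.single i 1 ↔ u = t := by
    rw [← ht]
    exact h.inj.eq_iff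
  simp only [this]

lemma cyclic_Amon (h : IsOrd mon) {z : Fin d} (hz : mon z = 0) :
    Cyclic (Amon k mon) (Pi.single z 1) := by
  intro W hv hW
  have h1 : ∀ s, (Pi.single s 1 : Fin d → k) ∈ W := by
    refine ord_induct h (fun z' hz' => ?_) (fun s t i ht hs => ?_)
    · have : z' = z := h.inj (hz'.trans hz.symm)
      rw [this]; exact hv
    · rw [← Amon_mulVec h ht]
      exact hW i _ hs
  rw [eq_top_iff]
  intro w _
  have h2 : w = ∑ s, w s • (Pi.single s 1 : Fin d → k) := by
    ext u
    simp [Finset.sum_apply, Pi.single_apply]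
  rw [h2]
  exact sum_mem fun s _ => W.smul_mem _ (h1 s)

variable (mon k) in
/-- the infinitesimal conjugation -/
noncomputable def orb (G : Matrix (Fin d) (Fin d) k) : Fin n → Matrix (Fin d) (Fin d) k :=
  fun j => G * Amon k mon j - Amon k mon j * G

lemma orb_mem (h : IsOrd mon) (G : Matrix (Fin d) (Fin d) k) : orb mon k G ∈ ZC (Amon k mon) := by
  intro i j
  have hc := Amon_comm (k := k) h i j
  unfold orb
  have e1 : Amon k mon i * (G * Amon k mon j - Amon k mon j * G) -
      (G * Amon k mon j - Amon k mon j * G) * Amon k mon i =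
      Amon k mon i * G * Amon k mon j + Amon k mon j * G * Amon k mon i -
        (Amon k mon i * Amon k mon j) * G - G * (Amon k mon j * Amon k mon i) := by
    noncomm_ring
  have e2 : Amon k mon j * (G * Amon k mon i - Amon k mon i * G) -
      (G * Amon k mon i - Amon k mon i * G) * Amon k mon j =
      Amon k mon i * G * Amon k mon j + Amon k mon j * G * Amon k mon i -
        (Amon k mon j * Amon k mon i) * G - G * (Amon k mon i * Amon k mon j) := by
    noncomm_ring
  rw [e1, e2, hc]

lemma comm_of_orb (h : IsOrd mon) {G : Matrix (Fin d) (Fin d) k}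
    (hG : orb mon k G ∈ ZC0 mon k) (j : Fin n) : G * Amon k mon j = Amon k mon j * G := by
  rcases isEmpty_or_nonempty (Fin d) with he | ⟨⟨s0⟩⟩
  · ext u
    exact (he.false u).elim
  obtain ⟨z, hz⟩ := exists_zero h s0
  have hcyc := cyclic_Amon (k := k) h hz
  obtain ⟨r, hr, hrv⟩ := exists_Alg hcyc (G *ᵥ Pi.single z 1)
  have hcom : ∀ i, Amon k mon i * r = r * Amon k mon i := fun i =>
    comm_Alg (fun i j => Amon_comm h i j) (self_mem_Alg _ i) hr
  have key : ∀ s, G *ᵥ Pi.single s 1 = r *ᵥ (Pi.single s 1 : Fin d → k) := by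
    refine ord_induct h (fun z' hz' => ?_) (fun s t i ht hs => ?_)
    · have : z' = z := h.inj (hz'.trans hz.symm)
      rw [this, hrv]
    · have h1 : (G * Amon k mon i) *ᵥ (Pi.single s 1 : Fin d → k) =
          (Amon k mon i * G) *ᵥ (Pi.single s 1 : Fin d → k) := by
        ext u
        have h2 := hG.2 i u s ⟨t, ht⟩
        unfold orb at h2
        rw [Matrix.sub_apply, sub_eq_zero] at h2
        rw [Matrix.mulVec_single_one, Matrix.mulVec_single_one]
        exact h2
      rw [← Amon_mulVec h ht, mulVec_mulVec, h1, ← mulVec_mulVec, hs, mulVec_mulVec, hcom,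
        ← mulVec_mulVec]
  have hGr : G = r := by
    ext u s
    have h1 := congrFun (key s) u
    rw [Matrix.mulVec_single_one, Matrix.mulVec_single_one] at h1
    exact h1
  rw [hGr, hcom]

section Lift

variable (mon) in
/-- the action on pairs of vectors -/
noncomputable def T (B : Fin n → Matrix (Fin d) (Fin d) k) (i : Fin n) :
    Module.End k ((Fin d → k) × (Fin d → k)) :=
  LinearMap.prod ((Amon k mon i).mulVecLin ∘ₗ LinearMap.fst k _ _)
    ((Amon k mon i).mulVecLin ∘ₗ LinearMap.snd k _ _ + (B i).mulVecLin ∘ₗ LinearMap.fst k _ _)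

lemma T_apply (B : Fin n → Matrix (Fin d) (Fin d) k) (i : Fin n) (x : (Fin d → k) × (Fin d → k)) :
    T mon B i x = (Amon k mon i *ᵥ x.1, Amon k mon i *ᵥ x.2 + B i *ᵥ x.1) := rfl

lemma T_comm (h : IsOrd mon) {B : Fin n → Matrix (Fin d) (Fin d) k} (hB : B ∈ ZC (Amon k mon))
    (i j : Fin n) : T mon B i * T mon B j = T mon B j * T mon B i := by
  refine LinearMap.ext fun x => ?_
  have hc := Amon_comm (k := k) h i j
  have h1 : Amon k mon i * B j + B i * Amon k mon j = Amon k mon j * B i + B j * Amon k mon i := by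
    have := hB i j
    have h2 := congrArg (fun M => M + B j * Amon k mon i + B i * Amon k mon j) this
    simp only [sub_add_cancel] at h2
    rw [h2]
    abel
  change T mon B i (T mon B j x) = T mon B j (T mon B i x)
  rw [T_apply, T_apply, T_apply, T_apply]
  refine Prod.ext ?_ ?_
  · dsimp only
    rw [mulVec_mulVec, mulVec_mulVec, hc]
  · dsimp only
    rw [mulVec_add, mulVec_add, mulVec_mulVec, mulVec_mulVec, mulVec_mulVec, mulVec_mulVec,
      mulVec_mulVec, mulVec_mulVec, hc, add_assoc, add_assoc, ← add_mulVec, ← add_mulVec, h1]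

/-- ordered products -/
noncomputable def pw (B : Fin n → Matrix (Fin d) (Fin d) k) (m : Fin n →₀ ℕ) :
    Module.End k ((Fin d → k) × (Fin d → k)) :=
  ((Finsupp.toMultiset m).toList.map (T mon B)).prod

lemma pw_zero (B : Fin n → Matrix (Fin d) (Fin d) k) : pw (mon := mon) B 0 = 1 := by
  unfold pw
  simp

lemma pw_add (h : IsOrd mon) {B : Fin n → Matrix (Fin d) (Fin d) k} (hB : B ∈ ZC (Amon k mon))
    (m : Fin n →₀ ℕ) (i : Fin n) :
    pw (mon := mon) B (m + Finsupp.single i 1) = T mon B i * pw (mon := mon) B m := by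
  unfold pw
  have hp : (Finsupp.toMultiset (m + Finsupp.single i 1)).toList.Perm
      (i :: (Finsupp.toMultiset m).toList) := by
    rw [← Multiset.coe_eq_coe, Multiset.coe_toList, map_add, Finsupp.toMultiset_single, one_smul,
      ← Multiset.cons_coe, Multiset.coe_toList, add_comm, Multiset.singleton_add]
  rw [List.Perm.prod_eq' (hp.map (T mon B)), List.map_cons, List.prod_cons]
  rw [List.pairwise_map]
  exact List.pairwise_of_forall (fun a b => T_comm h hB a b)

end Lift

lemma exists_gauge (h : IsOrd mon) {B : Fin n → Matrix (Fin d) (Fin d) k}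
    (hB : B ∈ ZC (Amon k mon)) : ∃ G : Matrix (Fin d) (Fin d) k, B - orb mon k G ∈ ZC0 mon k := by
  rcases isEmpty_or_nonempty (Fin d) with he | ⟨⟨s0⟩⟩
  · exact ⟨0, sub_mem hB (orb_mem h 0), fun j u => (he.false u).elim⟩
  obtain ⟨z, hz⟩ := exists_zero h s0
  let γ : Fin d → (Fin d → k) × (Fin d → k) := fun s =>
    pw (mon := mon) B (mon s) (Pi.single z 1, 0)
  have hstep : ∀ s t i, mon t = mon s + Finsupp.single i 1 → γ t = T mon B i (γ s) := by
    intro s t i ht
    change pw (mon := mon) B (mon t) _ = _
    rw [ht, pw_add h hB]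
    rfl
  have hfst : ∀ s, (γ s).1 = Pi.single s 1 := by
    refine ord_induct h (fun z' hz' => ?_) (fun s t i ht hs => ?_)
    · have : z' = z := h.inj (hz'.trans hz.symm)
      change (pw (mon := mon) B (mon z') _).1 = _
      rw [hz', pw_zero, this]
      rfl
    · rw [hstep s t i ht, T_apply]
      dsimp only
      rw [hs, Amon_mulVec h ht]
  refine ⟨Matrix.of fun u s => (γ s).2 u, sub_mem hB (orb_mem h _), ?_⟩
  rintro j u s ⟨t, ht⟩
  have h1 : (γ t).2 = Amon k mon j *ᵥ (γ s).2 + B j *ᵥ Pi.single s 1 := by
    rw [hstep s t j ht, T_apply]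
    dsimp only
    rw [hfst]
  have h2 := congrFun h1 u
  rw [Pi.add_apply, Matrix.mulVec_single_one] at h2
  rw [Pi.sub_apply, Matrix.sub_apply]
  unfold orb
  rw [Matrix.sub_apply, mul_Amon h _ j u s t ht, Matrix.of_apply, h2]
  have h3 : (Amon k mon j * Matrix.of fun u s => (γ s).2 u) u s = (Amon k mon j *ᵥ (γ s).2) u := rfl
  have h4 : (B j).col s u = B j u s := rfl
  rw [h3, h4]
  ring

/-- the dimension in terms of the normalised deformations -/
theorem finrank_ZC_add (h : IsOrd mon) (hd : 1 ≤ d) :
    finrank k (ZC (Amon k mon)) + d = finrank k (ZC0 mon k) + d * d := by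
  obtain ⟨z, hz⟩ := exists_zero h ⟨0, hd⟩
  have hcyc := cyclic_Amon (k := k) h hz
  let Φ : (ZC0 mon k × Matrix (Fin d) (Fin d) k) →ₗ[k] ZC (Amon k mon) :=
    { toFun := fun x => ⟨x.1.1 + orb mon k x.2, add_mem x.1.2.1 (orb_mem h x.2)⟩
      map_add' := by
        intro x y
        apply Subtype.ext
        funext j
        change x.1.1 j + y.1.1 j + ((x.2 + y.2) * Amon k mon j - Amon k mon j * (x.2 + y.2)) =
          x.1.1 j + (x.2 * Amon k mon j - Amon k mon j * x.2) +
            (y.1.1 j + (y.2 * Amon k mon j - Amon k mon j * y.2))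
        rw [add_mul, mul_add]
        abel
      map_smul' := by
        intro c x
        apply Subtype.ext
        funext j
        change c • x.1.1 j + ((c • x.2) * Amon k mon j - Amon k mon j * (c • x.2)) =
          c • (x.1.1 j + (x.2 * Amon k mon j - Amon k mon j * x.2))
        rw [smul_mul_assoc, mul_smul_comm, smul_add, smul_sub] }
  have hsurj : Function.Surjective Φ := by
    intro B
    obtain ⟨G, hG⟩ := exists_gauge h B.2
    refine ⟨(⟨_, hG⟩, G), ?_⟩
    apply Subtype.ext
    exact sub_add_cancel _ _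
  let ψ : Alg (Amon k mon) →ₗ[k] LinearMap.ker Φ :=
    { toFun := fun r => ⟨(0, r.1), by
        rw [LinearMap.mem_ker]
        apply Subtype.ext
        funext j
        change (0 : Matrix (Fin d) (Fin d) k) + (r.1 * Amon k mon j - Amon k mon j * r.1) = 0
        rw [comm_Alg (fun i j => Amon_comm h i j) r.2 (self_mem_Alg _ j), sub_self, add_zero]⟩
      map_add' := by
        intro r s
        apply Subtype.ext
        exact Prod.ext (add_zero _).symm rfl
      map_smul' := by
        intro c r
        apply Subtype.ext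
        exact Prod.ext (smul_zero _).symm rfl }
  have hψ : Function.Bijective ψ := by
    constructor
    · intro r s hrs
      have := congrArg (fun x : LinearMap.ker Φ => x.1.2) hrs
      exact Subtype.ext this
    · rintro ⟨⟨B, G⟩, hBG⟩
      rw [LinearMap.mem_ker] at hBG
      have h1 : B.1 + orb mon k G = 0 := congrArg Subtype.val hBG
      have h2 : orb mon k G = -B.1 := (neg_eq_of_add_eq_zero_right h1).symm
      have h3 : orb mon k G ∈ ZC0 mon k := by
        rw [h2]; exact neg_mem B.2
      have h4 := comm_of_orb h h3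
      have h5 : G ∈ Alg (Amon k mon) :=
        centralizer_eq (fun i j => Amon_comm h i j) hcyc h4
      have h6 : orb mon k G = 0 := by
        funext j
        change G * Amon k mon j - Amon k mon j * G = 0
        rw [h4 j, sub_self]
      have h7 : B = 0 := by
        apply Subtype.ext
        rw [h6, add_zero] at h1
        exact h1
      refine ⟨⟨G, h5⟩, ?_⟩
      apply Subtype.ext
      exact Prod.ext h7.symm rfl
  have hker : finrank k (LinearMap.ker Φ) = d := by
    rw [← (LinearEquiv.ofBijective ψ hψ).finrank_eq,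
      finrank_Alg (fun i j => Amon_comm h i j) hcyc, Fintype.card_fin]
  have hr := LinearMap.finrank_range_add_finrank_ker Φ
  rw [hker, LinearMap.range_eq_top.mpr hsurj, finrank_top, Module.finrank_prod,
    Module.finrank_matrix, Fintype.card_fin, Module.finrank_self, mul_one] at hr
  exact hr

end HChar

/-- **Independence of the field.** -/
theorem finrank_ZC_Amon_eq {n d : Nat} (k K : Type*) [Field k] [Field K]
    {mon : Fin d → (Fin n →₀ Nat)} (h : IsOrd mon) (hd : 1 ≤ d) :
    Module.finrank k (ZC (Amon k mon)) = Module.finrank K (ZC (Amon K mon)) := by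
  have h1 := HChar.finrank_ZC_add (k := k) h hd
  have h2 := HChar.finrank_ZC_add (k := K) h hd
  rw [HChar.finrank_ZC0 k h] at h1
  rw [HChar.finrank_ZC0 K h] at h2
  omega

end Pool.Agent.Hilb61
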