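import Pool.Agent.Helper61.HilbFat

open MvPolynomial Module Matrix TopologicalSpace

namespace Pool.Agent.Hilb61

variable {k : Type*} [Field k] {n d m : ℕ}

/-- Base change does not change the ideal. -/
lemma evHom_conj {ι κ : Type*} [Fintype κ] [DecidableEq κ] {A A' : ι → Matrix κ κ k}
    (hA : ∀ i j, A i * A j = A j * A i) (hA' : ∀ i j, A' i * A' j = A' j * A' i)
    {G Q : Matrix κ κ k} (hGQ : G * Q = 1) (hQG : Q * G = 1)
    (h : ∀ i, A' i = Q * A i * G) (f : MvPolynomial ι k) :
    evHom A' hA' f = Q * evHom A hA f * G := by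
  induction f using MvPolynomial.induction_on with
  | C a =>
    rw [evHom_C, evHom_C, Matrix.mul_smul, Matrix.smul_mul, Matrix.mul_one, hQG]
  | add p q hp hq => rw [map_add, map_add, hp, hq, Matrix.mul_add, Matrix.add_mul]
  | mul_X p i hp =>
    rw [map_mul, map_mul, hp, evHom_X, evHom_X, h]
    calc Q * evHom A hA p * G * (Q * A i * G) = Q * evHom A hA p * (G * Q) * A i * G := by
          noncomm_ring
      _ = _ := by rw [hGQ]; noncomm_ring

lemma toHilb_conj {c c' : Cset k n d} {G Q : Matrix (Fin d) (Fin d) k} (hGQ : G * Q = 1)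
    (hQG : Q * G = 1) (h : ∀ i, mats c'.1 i = Q * mats c.1 i * G)
    (hv : vect c'.1 = Q *ᵥ vect c.1) : toHilb c' = toHilb c := by
  apply Subtype.ext
  ext f
  show evHom (mats c'.1) c'.2.1 f *ᵥ vect c'.1 = 0 ↔ evHom (mats c.1) c.2.1 f *ᵥ vect c.1 = 0
  rw [evHom_conj c.2.1 c'.2.1 hGQ hQG h, hv, mulVec_mulVec, Matrix.mul_assoc, hGQ, Matrix.mul_one,
    ← mulVec_mulVec]
  constructor
  · intro h1
    have h2 := congrArg (fun y => G *ᵥ y) h1
    simpa only [mulVec_mulVec, hGQ, Matrix.one_mul, ← Matrix.mul_assoc, mulVec_zero] using h2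
  · intro h1
    rw [h1, mulVec_zero]

/-- **Every nonempty open subset of the Hilbert scheme has the fat point in its closure**
(`n ≥ d - 1`). -/
theorem x0_mem_closure [Infinite k] (hn : m ≤ n) {o : Set (Hilb k n (m + 1))} (ho : IsOpen o)
    (hne : o.Nonempty) : x0 k hn ∈ closure o := by
  rw [mem_closure_iff]
  intro U hU hxU
  obtain ⟨x, hx⟩ := hne
  obtain ⟨c, rfl⟩ := toHilb_surjective x
  obtain ⟨G, Q, hGQ, hQG, hG, a, ha, hac, haA, -⟩ := exists_normal c.2.1 c.2.2
  -- the target tuple and the given one in the new basis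
  let A' : Fin n → Matrix (Fin (m + 1)) (Fin (m + 1)) k := fun i => Q * mats c.1 i * G
  let a' : Fin n → Matrix (Fin (m + 1)) (Fin (m + 1)) k := fun i =>
    if h : (i : ℕ) < m then a ⟨i, h⟩ else 0
  have hA'A' : ∀ i j, A' i * A' j = A' j * A' i := by
    intro i j
    have key : ∀ X Y : Matrix (Fin (m + 1)) (Fin (m + 1)) k,
        Q * X * G * (Q * Y * G) = Q * (X * Y) * G := by
      intro X Y
      calc Q * X * G * (Q * Y * G) = Q * X * (G * Q) * Y * G := by noncomm_ring
        _ = _ := by rw [hGQ]; noncomm_ring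
    show Q * mats c.1 i * G * (Q * mats c.1 j * G) = Q * mats c.1 j * G * (Q * mats c.1 i * G)
    rw [key, key, c.2.1]
  have ha'a' : ∀ i j, a' i * a' j = a' j * a' i := by
    intro i j
    by_cases hi : (i : ℕ) < m <;> by_cases hj : (j : ℕ) < m <;> simp [a', hi, hj, hac]
  have ha'A' : ∀ i j, a' i * A' j = A' j * a' i := by
    intro i j
    by_cases hi : (i : ℕ) < m
    · simp only [a', hi, dif_pos]; exact haA _ _
    · simp [a', hi]
  have ha'0 : ∀ i r, a' i r 0 = a0 k n m (Sum.inl (i, r, 0)) := by
    intro i r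
    by_cases hi : (i : ℕ) < m
    · simp [a', hi, a0, ha, eps]
    · simp [a', hi, a0]
  -- the curve
  let w : Fin (m + 1) → Fin (m + 1) → ℕ := fun r s =>
    (if r = 0 then 1 else 0) + (if s = 0 then 0 else 1)
  let cv : Coord n (m + 1) → Polynomial k := Sum.elim
    (fun x => Polynomial.X ^ (w x.2.1 x.2.2) * (Polynomial.C (a' x.1 x.2.1 x.2.2) +
      Polynomial.X * Polynomial.C ((A' x.1 - a' x.1) x.2.1 x.2.2)))
    (fun r => Polynomial.C (if r = 0 then 1 else 0))
  let L : k → Fin n → Matrix (Fin (m + 1)) (Fin (m + 1)) k := fun t i =>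
    a' i + t • (A' i - a' i)
  have hLL : ∀ t i j, L t i * L t j = L t j * L t i := by
    intro t i j
    simp only [L, Matrix.add_mul, Matrix.mul_add, Matrix.smul_mul, Matrix.mul_smul,
      Matrix.sub_mul, Matrix.mul_sub, ha'a' i j, hA'A' i j, ha'A' i j, ha'A' j i]
    module
  have hmats : ∀ t i r s, mats (fun x => (cv x).eval t) i r s = t ^ (w r s) * L t i r s := by
    intro t i r s
    simp [cv, L]
  have hvect : ∀ t, vect (fun x => (cv x).eval t) = Pi.single 0 1 := by
    intro t
    funext r
    by_cases hr : r = 0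
    · simp [cv, hr]
    · simp [cv, hr]
  have hev0 : (fun x => (cv x).eval 0) = a0 k n m := by
    funext x
    rcases x with ⟨i, r, s⟩ | r
    · have h1 := hmats 0 i r s
      rw [mats_apply] at h1
      rw [h1]
      by_cases hs : s = 0
      · by_cases hr : r = 0
        · subst hs; subst hr
          simp [w, a0, eps]
        · subst hs
          simp [w, hr, L, ha'0]
      · have : w r s ≠ 0 := by simp [w, hs]
        rw [zero_pow this, zero_mul]
        by_cases hi : (i : ℕ) < m <;> simp [a0, hi, eps, hs]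
    · by_cases hr : r = 0
      · simp [cv, a0, hr]
      · simp [cv, a0, hr]
  have hcomm : ∀ t : k, t ≠ 0 → ∀ i j, mats (fun x => (cv x).eval t) i *
      mats (fun x => (cv x).eval t) j = mats (fun x => (cv x).eval t) j *
        mats (fun x => (cv x).eval t) i := by
    intro t ht
    let P : Matrix (Fin (m + 1)) (Fin (m + 1)) k :=
      Matrix.diagonal fun r => if r = 0 then t else 1
    let P' : Matrix (Fin (m + 1)) (Fin (m + 1)) k :=
      Matrix.diagonal fun r => if r = 0 then t⁻¹ else 1
    have hP'P : P' * P = 1 := by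
      simp only [P, P', diagonal_mul_diagonal]
      rw [← diagonal_one]
      congr 1
      funext r
      by_cases hr : r = 0 <;> simp [hr, ht]
    have he : ∀ i, mats (fun x => (cv x).eval t) i = P * (t • L t i) * P' := by
      intro i
      ext r s
      rw [hmats]
      simp only [P, P', Matrix.mul_diagonal, Matrix.diagonal_mul, Matrix.smul_apply, smul_eq_mul, w]
      by_cases hr : r = 0 <;> by_cases hs : s = 0 <;> simp only [hr, hs, if_true, if_false]
      · field_simp
        ring
      · ring
      · field_simp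
        simp
      · ring
    intro i j
    rw [he, he]
    calc P * (t • L t i) * P' * (P * (t • L t j) * P')
        = P * (t • L t i) * (P' * P) * (t • L t j) * P' := by noncomm_ring
      _ = P * ((t • L t i) * (t • L t j)) * P' := by rw [hP'P]; noncomm_ring
      _ = P * ((t • L t j) * (t • L t i)) * P' := by
          rw [smul_mul_smul_comm, hLL, ← smul_mul_smul_comm]
      _ = P * (t • L t j) * (P' * P) * (t • L t i) * P' := by rw [hP'P]; noncomm_ring
      _ = _ := by noncomm_ring
  -- value at 1
  have hmats1 : mats (fun x => (cv x).eval 1) = A' := by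
    funext i
    ext r s
    rw [hmats]
    simp [L]
  have hc1 : (fun x => (cv x).eval 1) ∈ Cset k n (m + 1) := by
    refine ⟨hcomm 1 one_ne_zero, ?_⟩
    rw [hmats1, hvect]
    have := c.2.2.conj hGQ hQG
    rwa [← hG, mulVec_mulVec, hQG, one_mulVec] at this
  have hx1 : toHilb ⟨_, hc1⟩ = toHilb c := by
    apply toHilb_conj hGQ hQG
    · intro i
      show mats (fun x => (cv x).eval 1) i = _
      rw [hmats1]
    · show vect (fun x => (cv x).eval 1) = _
      rw [hvect, ← hG, mulVec_mulVec, hQG, one_mulVec]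
  have hc0 : (fun x => (cv x).eval 0) ∈ Cset k n (m + 1) := by rw [hev0]; exact a0_mem hn
  have hx0' : toHilb ⟨_, hc0⟩ = x0 k hn := by
    unfold x0
    congr 1
    exact Subtype.ext hev0
  -- cyclicity for almost all t
  have hcyc : ∀ᶠ t : k in Filter.cofinite, Cyclic (mats (fun x => (cv x).eval t))
      (vect (fun x => (cv x).eval t)) := by
    let D := (krylov hn (fun x => (X x : MvPolynomial (Coord n (m + 1)) k))).det
    have hD : aeval cv D ≠ 0 := by
      intro h
      have h1 := eval_aeval_poly cv D 0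
      rw [h, Polynomial.eval_zero, hev0, eval_krylov, krylov_a0, det_one] at h1
      exact zero_ne_one h1
    rw [Filter.eventually_cofinite]
    apply (Polynomial.finite_setOfPred_isRoot hD).subset
    intro t ht
    rw [Set.mem_ofPred_eq] at ht ⊢
    by_contra hr
    apply ht
    apply cyclic_of_krylov hn
    rw [← eval_krylov, ← eval_aeval_poly]
    exact hr
  have h1 := curve_open hU cv 0 hc0 (by rw [hx0']; exact hxU)
  have h2 := curve_open ho cv 1 hc1 (by rw [hx1]; exact hx)
  obtain ⟨t, ⟨ht1, ht2⟩, ht3, ht4⟩ :=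
    ((h1.and h2).and (hcyc.and (Filter.eventually_cofinite_ne (0 : k)))).exists
  have hct : (fun x => (cv x).eval t) ∈ Cset k n (m + 1) := ⟨hcomm t ht4, ht3⟩
  exact ⟨_, ht1 hct, ht2 hct⟩

/-- The fat point lies on every irreducible component. -/
theorem x0_mem_component [Infinite k] (hn : m ≤ n) {Z : Set (Hilb k n (m + 1))}
    (hZ : Z ∈ irreducibleComponents (Hilb k n (m + 1))) : x0 k hn ∈ Z := by
  obtain ⟨o, ho, hne, hoZ⟩ :=
    NoetherianSpace.exists_isOpen_nonempty_subset_irreducibleComponent Z hZ
  exact (isClosed_of_mem_irreducibleComponents Z hZ).closure_subset_iff.mpr hoZ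
    (x0_mem_closure hn ho hne)

/-- The upper bound in a chart, for all `n`. -/
theorem finrank_tangent_bound [Infinite k] (hm : 2 ≤ m) {lam : Fin (m + 1) → MvPolynomial (Fin n) k}
    {I : Ideal (MvPolynomial (Fin n) k)} {c : Coord n (m + 1) → k} (h : IsCoord lam I c) :
    finrank k (tangent lam c) + m * (m + 1) ≤ m * (m + 1).choose 2 + n * (m + 1) := by
  have h1 := finrank_tangent_add_le h
  have h2 := finrank_ZC_le hm (coords_comm h) (coords_cyclic h)
  rw [Fintype.card_fin] at h2
  have h3 : (m + 1) ^ 2 = m * (m + 1) + (m + 1) := by ring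
  have h4 : m + m ^ 2 = m * (m + 1) := by ring
  rw [h3] at h1
  rw [h4] at h2
  omega

end Pool.Agent.Hilb61
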