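import Pool.Agent.Helper61.HilbEps

open Module Matrix

namespace Pool.Agent.Hilb61

variable {k : Type*} [Field k] {ι : Type*} {m : ℕ}

lemma Cyclic.ne_zero {κ : Type*} [Fintype κ] [DecidableEq κ] [Nonempty κ]
    {A : ι → Matrix κ κ k} {v : κ → k} (hv : Cyclic A v) : v ≠ 0 := by
  rintro rfl
  have := hv ⊥ (Submodule.zero_mem _) (by
    intro i w hw
    rw [Submodule.mem_bot] at hw ⊢
    rw [hw, mulVec_zero])
  exact bot_ne_top this

/-- A basis change sending the first basis vector to a given nonzero vector. -/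
lemma exists_basis_change (v : Fin (m + 1) → k) (hv : v ≠ 0) :
    ∃ G Q : Matrix (Fin (m + 1)) (Fin (m + 1)) k, G * Q = 1 ∧ Q * G = 1 ∧
      G *ᵥ (Pi.single 0 1) = v := by
  obtain ⟨i0, hi0⟩ : ∃ i, v i ≠ 0 := by
    by_contra h
    push Not at h
    exact hv (funext h)
  let G : Matrix (Fin (m + 1)) (Fin (m + 1)) k :=
    Matrix.of fun r s => Fin.cases (motive := fun _ => k) (v r)
      (fun j => if r = i0.succAbove j then 1 else 0) s
  have hG0 : ∀ x : Fin (m + 1) → k, ∀ r, (G *ᵥ x) r =
      v r * x 0 + ∑ j : Fin m, (if r = i0.succAbove j then 1 else 0) * x j.succ := by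
    intro x r
    rw [mulVec, dotProduct, Fin.sum_univ_succ]
    rfl
  have hinj : Function.Injective (Matrix.toLin' G) := by
    rw [← LinearMap.ker_eq_bot, LinearMap.ker_eq_bot']
    intro x hx
    have hx' : ∀ r, (G *ᵥ x) r = 0 := fun r => congrFun hx r
    have h0 : x 0 = 0 := by
      have := hx' i0
      rw [hG0, Finset.sum_eq_zero] at this
      · simpa [hi0] using this
      · intro j _
        simp [(Fin.succAbove_ne i0 j).symm]
    funext s
    refine Fin.cases ?_ (fun j => ?_) s
    · exact h0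
    · have := hx' (i0.succAbove j)
      rw [hG0, h0] at this
      simpa [Fin.succAbove_right_inj] using this
  have hunit : IsUnit G := by
    rw [← Matrix.mulVec_injective_iff_isUnit]
    exact hinj
  obtain ⟨u, hu⟩ := hunit
  refine ⟨G, (u⁻¹ : (Matrix (Fin (m + 1)) (Fin (m + 1)) k)ˣ).1, ?_, ?_, ?_⟩
  · rw [← hu]; exact u.mul_inv
  · rw [← hu]; exact u.inv_mul
  · funext r
    rw [hG0]
    simp

/-- A tuple with `a_j e_0 = e_{j+1}` has `ZC` at most as large as `ZC ε`. -/
theorem finrank_ZC_le_eps [Infinite k] (a : Fin m → Matrix (Fin (m + 1)) (Fin (m + 1)) k)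
    (ha : ∀ j r, a j r 0 = if r = j.succ then 1 else 0) :
    finrank k (ZC a) ≤ finrank k (ZC (eps k (m := m))) := by
  let M1 : Fin m → Matrix (Fin (m + 1)) (Fin (m + 1)) k := fun j =>
    Matrix.of fun r s => if r ≠ 0 ∧ s ≠ 0 then a j r s else 0
  let M2 : Fin m → Matrix (Fin (m + 1)) (Fin (m + 1)) k := fun j =>
    Matrix.of fun r s => if r = 0 ∧ s ≠ 0 then a j r s else 0
  have h := (ZC_semicont (eps k) M1 M2).and (Filter.eventually_cofinite_ne (0 : k))
  obtain ⟨t, ht, ht0⟩ := h.exists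
  refine le_trans (le_of_eq ?_) ht
  rw [← ZC_smul a ht0]
  symm
  let P : Matrix (Fin (m + 1)) (Fin (m + 1)) k := Matrix.diagonal fun r => if r = 0 then t else 1
  let Q : Matrix (Fin (m + 1)) (Fin (m + 1)) k :=
    Matrix.diagonal fun r => if r = 0 then t⁻¹ else 1
  apply finrank_ZC_conj _ _ P Q
  · simp only [P, Q, diagonal_mul_diagonal]
    rw [← diagonal_one]
    congr 1
    funext r
    by_cases hr : r = 0 <;> simp [hr, ht0]
  · simp only [P, Q, diagonal_mul_diagonal]
    rw [← diagonal_one]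
    congr 1
    funext r
    by_cases hr : r = 0 <;> simp [hr, ht0]
  · intro j
    ext r s
    simp only [P, Q, Matrix.mul_diagonal, Matrix.diagonal_mul, Matrix.add_apply,
      Matrix.smul_apply, smul_eq_mul, M1, M2, Matrix.of_apply, eps]
    by_cases hr : r = 0
    · subst hr
      by_cases hs : s = 0
      · subst hs
        simp [ha, (Fin.succ_ne_zero _).symm]
      · simp [hs]
        ring
    · by_cases hs : s = 0
      · subst hs
        simp only [hr, ha]
        by_cases hrj : r = j.succ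
        · simp [hrj, ht0]
        · simp [hrj]
      · simp [hr, hs]

/-- Simultaneous data: after a base change, any commuting tuple with cyclic vector has cyclic
vector `e_0`, and its algebra is generated by a tuple `a` with `a_j e_0 = e_{j+1}`. -/
lemma exists_normal {A : ι → Matrix (Fin (m + 1)) (Fin (m + 1)) k} {v : Fin (m + 1) → k}
    (hA : ∀ i j, A i * A j = A j * A i) (hv : Cyclic A v) :
    ∃ G Q : Matrix (Fin (m + 1)) (Fin (m + 1)) k, G * Q = 1 ∧ Q * G = 1 ∧
      G *ᵥ (Pi.single 0 1) = v ∧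
      ∃ a : Fin m → Matrix (Fin (m + 1)) (Fin (m + 1)) k,
        (∀ j r, a j r 0 = if r = j.succ then 1 else 0) ∧
        (∀ i j, a i * a j = a j * a i) ∧
        (∀ i j, a i * (Q * A j * G) = (Q * A j * G) * a i) ∧
        (∀ j, G * a j * Q ∈ Alg A) := by
  obtain ⟨G, Q, hGQ, hQG, hG⟩ := exists_basis_change v hv.ne_zero
  have h1 : ∀ j : Fin m, ∃ r ∈ Alg A, r *ᵥ v = G *ᵥ (Pi.single j.succ 1) :=
    fun j => exists_Alg hv _
  choose b hbA hbv using h1
  have key : ∀ X Y : Matrix (Fin (m + 1)) (Fin (m + 1)) k,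
      Q * X * G * (Q * Y * G) = Q * (X * Y) * G := by
    intro X Y
    calc Q * X * G * (Q * Y * G) = Q * X * (G * Q) * Y * G := by noncomm_ring
      _ = _ := by rw [hGQ]; noncomm_ring
  refine ⟨G, Q, hGQ, hQG, hG, fun j => Q * b j * G, ?_, ?_, ?_, ?_⟩
  · intro j r
    have h2 : (Q * b j * G) *ᵥ (Pi.single 0 1) = Pi.single j.succ 1 := by
      rw [← mulVec_mulVec, hG, ← mulVec_mulVec, hbv, mulVec_mulVec, hQG, one_mulVec]
    have h3 := congrFun h2 r
    rw [mulVec_single_one] at h3
    rw [Matrix.col_apply] at h3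
    show (Q * b j * G) r 0 = _
    rw [h3, Pi.single_apply]
  · intro i j
    rw [key, key, comm_Alg hA (hbA i) (hbA j)]
  · intro i j
    rw [key, key, comm_Alg hA (hbA i) (self_mem_Alg A j)]
  · intro j
    have : G * (Q * b j * G) * Q = b j := by
      calc G * (Q * b j * G) * Q = (G * Q) * b j * (G * Q) := by noncomm_ring
        _ = _ := by rw [hGQ]; simp
    rw [this]
    exact hbA j

lemma cyclic_of_norm {a : Fin m → Matrix (Fin (m + 1)) (Fin (m + 1)) k}
    (ha : ∀ j r, a j r 0 = if r = j.succ then 1 else 0) :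
    Cyclic a (Pi.single 0 1) := by
  intro W h0 hW
  have hs : ∀ s : Fin (m + 1), (Pi.single s 1 : Fin (m + 1) → k) ∈ W := by
    intro s
    refine Fin.cases h0 (fun j => ?_) s
    have := hW j _ h0
    rw [mulVec_single_one] at this
    have h2 : (a j).col 0 = (Pi.single j.succ 1 : Fin (m + 1) → k) := by
      funext r
      rw [Matrix.col_apply, ha, Pi.single_apply]
    rwa [h2] at this
  rw [eq_top_iff]
  intro x _
  rw [pi_eq_sum_univ x]
  apply Submodule.sum_mem
  intro i _
  apply Submodule.smul_mem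
  have := hs i
  convert this using 1
  funext j
  simp [Pi.single_apply, eq_comm]

lemma Cyclic.conj {κ : Type*} [Fintype κ] [DecidableEq κ] {A : ι → Matrix κ κ k} {v : κ → k}
    (hv : Cyclic A v) {G Q : Matrix κ κ k} (hGQ : G * Q = 1) (hQG : Q * G = 1) :
    Cyclic (fun i => Q * A i * G) (Q *ᵥ v) := by
  intro W h0 hW
  have h1 := hv (W.comap (Matrix.toLin' Q)) h0 (by
    intro i w hw
    have h2 : Q *ᵥ w ∈ W := hw
    have := hW i _ h2
    show Q *ᵥ (A i *ᵥ w) ∈ W
    rw [mulVec_mulVec, Matrix.mul_assoc (Q * A i) G Q, hGQ, Matrix.mul_one] at this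
    rw [mulVec_mulVec]
    exact this)
  rw [eq_top_iff]
  intro x _
  have h3 : G *ᵥ x ∈ W.comap (Matrix.toLin' Q) := by rw [h1]; trivial
  have h4 : Q *ᵥ (G *ᵥ x) ∈ W := h3
  rwa [mulVec_mulVec, hQG, one_mulVec] at h4

/-- **The upper bound** for the space of first-order deformations of a commuting `n`-tuple of
`d × d` matrices with a cyclic vector, `d = m + 1 ≥ 3`. -/
theorem finrank_ZC_le [Infinite k] [Fintype ι] (hm : 2 ≤ m)
    {A : ι → Matrix (Fin (m + 1)) (Fin (m + 1)) k} {v : Fin (m + 1) → k}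
    (hA : ∀ i j, A i * A j = A j * A i) (hv : Cyclic A v) :
    finrank k (ZC A) + m * (m + 1) ≤
      m + m ^ 2 + m * (m + 1).choose 2 + Fintype.card ι * (m + 1) := by
  obtain ⟨G, Q, hGQ, hQG, hG, a, ha, hac, haA, -⟩ := exists_normal hA hv
  have hcyc := cyclic_of_norm ha
  have hconj : finrank k (ZC (fun i => Q * A i * G)) = finrank k (ZC A) :=
    finrank_ZC_conj A _ Q G hQG hGQ (fun i => rfl)
  have hcomm : ∀ i j, (Q * A i * G) * (Q * A j * G) = (Q * A j * G) * (Q * A i * G) := by
    intro i j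
    calc Q * A i * G * (Q * A j * G) = Q * A i * (G * Q) * A j * G := by noncomm_ring
      _ = Q * (A i * A j) * G := by rw [hGQ]; noncomm_ring
      _ = Q * A j * (G * Q) * A i * G := by rw [hA, hGQ]; noncomm_ring
      _ = _ := by noncomm_ring
  have hcyc' : Cyclic (fun i => Q * A i * G) (Pi.single 0 1) := by
    have := hv.conj hGQ hQG
    rwa [← hG, mulVec_mulVec, hQG, one_mulVec] at this
  have h1 := finrank_ZC_compare (A := fun i => Q * A i * G) (a := a) hcomm hcyc'
    (fun j => centralizer_eq hcomm hcyc' (fun i => haA j i))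
    (fun i => centralizer_eq hac hcyc (fun j => (haA j i).symm))
  have h2 := finrank_ZC_le_eps a ha
  rw [finrank_ZC_eps hm] at h2
  simp only [Fintype.card_fin] at h1
  rw [hconj] at h1
  omega

end Pool.Agent.Hilb61
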