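import Pool.Agent.Helper61.HilbDef
import Pool.Agent.Helper61.HilbUpper

open MvPolynomial Module Matrix

namespace Pool.Agent.Hilb61

variable {k : Type*} [Field k] {n d : ℕ}

/-- The matrices in a list of coordinates. -/
def mats {R : Type*} (c : Coord n d → R) (i : Fin n) : Matrix (Fin d) (Fin d) R :=
  Matrix.of fun r s => c (Sum.inl (i, r, s))

/-- The vector in a list of coordinates. -/
def vect {R : Type*} (c : Coord n d → R) : Fin d → R := fun r => c (Sum.inr r)

@[simp] lemma mats_apply {R : Type*} (c : Coord n d → R) (i : Fin n) (r s : Fin d) :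
    mats c i r s = c (Sum.inl (i, r, s)) := rfl

@[simp] lemma vect_apply {R : Type*} (c : Coord n d → R) (r : Fin d) :
    vect c r = c (Sum.inr r) := rfl

section coef

variable {lam : Fin d → MvPolynomial (Fin n) k} {I : Ideal (MvPolynomial (Fin n) k)}
  {c : Coord n d → k}

/-- The coefficients of a polynomial modulo `I` in the basis `lam`. -/
noncomputable def coef (h : IsCoord lam I c) (f : MvPolynomial (Fin n) k) : Fin d → k :=
  (h.1 f).choose

lemma coef_spec (h : IsCoord lam I c) (f : MvPolynomial (Fin n) k) :
    f - ∑ s, C (coef h f s) * lam s ∈ I := (h.1 f).choose_spec.1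

lemma coef_unique (h : IsCoord lam I c) {f : MvPolynomial (Fin n) k} {a : Fin d → k}
    (ha : f - ∑ s, C (a s) * lam s ∈ I) : coef h f = a :=
  ((h.1 f).choose_spec.2 a ha).symm

lemma coef_add (h : IsCoord lam I c) (f g : MvPolynomial (Fin n) k) :
    coef h (f + g) = coef h f + coef h g := by
  apply coef_unique
  have := I.add_mem (coef_spec h f) (coef_spec h g)
  convert this using 1
  simp only [Pi.add_apply, map_add, add_mul, Finset.sum_add_distrib]
  ring

lemma coef_C_mul (h : IsCoord lam I c) (a : k) (f : MvPolynomial (Fin n) k) :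
    coef h (C a * f) = a • coef h f := by
  apply coef_unique
  have := I.mul_mem_left (C a) (coef_spec h f)
  convert this using 1
  simp only [Pi.smul_apply, smul_eq_mul, map_mul, mul_sub, Finset.mul_sum, mul_assoc]

lemma coef_one (h : IsCoord lam I c) : coef h 1 = vect c := coef_unique h h.2.2

lemma coef_lam (h : IsCoord lam I c) (s : Fin d) : coef h (lam s) = Pi.single s 1 := by
  apply coef_unique
  have : lam s - ∑ r, C ((Pi.single s 1 : Fin d → k) r) * lam r = 0 := by
    rw [Finset.sum_eq_single s]
    · simp
    · intro b _ hb; simp [hb]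
    · intro hs; exact absurd (Finset.mem_univ s) hs
  rw [this]
  exact I.zero_mem

lemma coef_eq_zero (h : IsCoord lam I c) (f : MvPolynomial (Fin n) k) :
    coef h f = 0 ↔ f ∈ I := by
  constructor
  · intro h0
    have := coef_spec h f
    rw [h0] at this
    simpa using this
  · intro hf
    apply coef_unique
    simpa using hf

lemma coef_sum_lam (h : IsCoord lam I c) (a : Fin d → k) :
    coef h (∑ s, C (a s) * lam s) = a := by
  apply coef_unique
  simp

lemma coef_X_mul (h : IsCoord lam I c) (i : Fin n) (f : MvPolynomial (Fin n) k) :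
    coef h (X i * f) = mats c i *ᵥ coef h f := by
  apply coef_unique
  have h1 := I.mul_mem_left (X i) (coef_spec h f)
  have h2 : ∑ s, C (coef h f s) * (X i * lam s - ∑ r, C (c (Sum.inl (i, r, s))) * lam r) ∈ I :=
    I.sum_mem fun s _ => I.mul_mem_left _ (h.2.1 i s)
  have h3 := I.add_mem h1 h2
  convert h3 using 1
  simp only [mulVec, dotProduct, map_sum, Finset.sum_mul, mul_sub, Finset.mul_sum,
    Finset.sum_sub_distrib, mats_apply, map_mul]
  rw [Finset.sum_comm]
  have e1 : ∀ s, X i * (C (coef h f s) * lam s) = C (coef h f s) * (X i * lam s) := by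
    intro s; ring
  simp only [e1]
  have e2 : ∀ s r, C (c (Sum.inl (i, r, s))) * C (coef h f s) * lam r =
      C (coef h f s) * (C (c (Sum.inl (i, r, s))) * lam r) := by
    intro s r; ring
  simp only [e2]
  ring

lemma coords_comm (h : IsCoord lam I c) (i j : Fin n) :
    mats c i * mats c j = mats c j * mats c i := by
  apply Matrix.ext_of_mulVec_single
  intro s
  rw [← mulVec_mulVec, ← mulVec_mulVec, ← coef_lam h s, ← coef_X_mul, ← coef_X_mul, ← coef_X_mul,
    ← coef_X_mul]
  congr 1
  ring

lemma coords_cyclic (h : IsCoord lam I c) : Cyclic (mats c) (vect c) := by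
  intro W h1 hW
  have h2 : ∀ f : MvPolynomial (Fin n) k, coef h f ∈ W := by
    intro f
    induction f using MvPolynomial.induction_on with
    | C a =>
      rw [← mul_one (C a), coef_C_mul, coef_one]
      exact W.smul_mem _ h1
    | add p q hp hq =>
      rw [coef_add]
      exact W.add_mem hp hq
    | mul_X p i hp =>
      rw [mul_comm, coef_X_mul]
      exact hW i _ hp
  rw [eq_top_iff]
  intro x _
  rw [← coef_sum_lam h x]
  exact h2 _

/-- coordinates are unique -/
lemma coords_unique (h : IsCoord lam I c) {c' : Coord n d → k} (h' : IsCoord lam I c') :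
    c = c' := by
  have e : ∀ f, coef h f = coef h' f := fun f => coef_unique h (coef_spec h' f)
  funext x
  rcases x with ⟨i, r, s⟩ | r
  · have h1 := coef_X_mul h i (lam s)
    have h2 := coef_X_mul h' i (lam s)
    rw [e, coef_lam] at h1
    rw [coef_lam] at h2
    have := congrFun (h1.symm.trans h2) r
    rw [mulVec_single_one, mulVec_single_one] at this
    exact this
  · have h1 := coef_one h
    have h2 := coef_one h'
    rw [e] at h1
    exact congrFun (h1.symm.trans h2) r

end coef

/-! ### Universal coefficient polynomials -/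

/-- For every polynomial `f` there are polynomials in the coordinates which compute
`f(A) v` in any situation. -/
lemma exists_univ (f : MvPolynomial (Fin n) k) :
    ∃ P : Fin d → MvPolynomial (Coord n d) k, ∀ (R : Type _) [CommRing R] [Algebra k R]
      (c : Coord n d → R) (E : MvPolynomial (Fin n) k → Fin d → R),
      (∀ a, E (C a) = algebraMap k R a • vect c) → (∀ f g, E (f + g) = E f + E g) →
      (∀ f i, E (f * X i) = mats c i *ᵥ E f) → ∀ r, aeval c (P r) = E f r := by
  induction f using MvPolynomial.induction_on with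
  | C a =>
    refine ⟨fun r => C a * X (Sum.inr r), ?_⟩
    intro R _ _ c E h1 h2 h3 r
    rw [h1]
    simp
  | add p q hp hq =>
    obtain ⟨P, hP⟩ := hp
    obtain ⟨Q, hQ⟩ := hq
    refine ⟨fun r => P r + Q r, ?_⟩
    intro R _ _ c E h1 h2 h3 r
    rw [h2, map_add, hP R c E h1 h2 h3, hQ R c E h1 h2 h3]
    rfl
  | mul_X p i hp =>
    obtain ⟨P, hP⟩ := hp
    refine ⟨fun r => ∑ s, X (Sum.inl (i, r, s)) * P s, ?_⟩
    intro R _ _ c E h1 h2 h3 r
    rw [h3, map_sum, mulVec, dotProduct]
    apply Finset.sum_congr rfl
    intro s _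
    rw [map_mul, aeval_X, hP R c E h1 h2 h3]
    rfl

end Pool.Agent.Hilb61
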