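import Mathlib

/-!
# The Hilbert scheme of `d` points of affine `n`-space: closed points, Zariski topology,
# smoothable component and its Zariski tangent spaces

`S = k[x_1, …, x_n] = MvPolynomial (Fin n) k`.
-/

open MvPolynomial Module

namespace Pool.Agent.Hilb61

/-- Index set for the coordinates of a pair (an `n`-tuple of `d × d` matrices, a vector of
length `d`). -/
abbrev Coord (n d : ℕ) : Type := (Fin n × Fin d × Fin d) ⊕ Fin d

section Defs

variable (k : Type*) [Field k] (n d : ℕ)

/-- The closed points of `Hilb^d(𝔸^n)`: ideals `I` of `S` with `dim_k S/I = d`. -/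
def Hilb : Type _ :=
  {I : Ideal (MvPolynomial (Fin n) k) // Module.Finite k (MvPolynomial (Fin n) k ⧸ I) ∧
    Module.finrank k (MvPolynomial (Fin n) k ⧸ I) = d}

variable {k n d}

/-- Chart coordinates. `IsCoord lam I c` says that the classes of `lam 0, …, lam (d-1)` form a
`k`-basis of `S/I` and that `c` is the list of coordinates of `I` in the chart of `lam`: the
entries of the matrices of multiplication by `x_1, …, x_n` on `S/I` in this basis, and the
coordinates of `1`. The set of all `I` for which `lam` is a basis is an affine open subscheme of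
`Hilb^d(𝔸^n)`, embedded by `c` as a closed subscheme of affine space. -/
def IsCoord (lam : Fin d → MvPolynomial (Fin n) k) (I : Ideal (MvPolynomial (Fin n) k))
    (c : Coord n d → k) : Prop :=
  (∀ f : MvPolynomial (Fin n) k, ∃! a : Fin d → k, f - ∑ s, C (a s) * lam s ∈ I) ∧
  (∀ i s, X i * lam s - ∑ r, C (c (Sum.inl (i, r, s))) * lam r ∈ I) ∧
  (1 - ∑ r, C (c (Sum.inr r)) * lam r ∈ I)

/-- The Zariski topology: generated by the principal open subsets of the charts. -/
instance : TopologicalSpace (Hilb k n d) :=
  TopologicalSpace.generateFrom
    {U | ∃ (lam : Fin d → MvPolynomial (Fin n) k) (f : MvPolynomial (Coord n d) k),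
      U = {x | ∃ c, IsCoord lam x.1 c ∧ eval c f ≠ 0}}

/-- The reduced subschemes: the ideals of `d` distinct points. -/
def reduced (k : Type*) [Field k] (n d : ℕ) : Set (Hilb k n d) :=
  {x | ∃ p : Fin d → Fin n → k, Function.Injective p ∧ x.1 = vanishingIdeal k (Set.range p)}

/-- The smoothable component `H_{d,n}`. -/
def smoothable (k : Type*) [Field k] (n d : ℕ) : Set (Hilb k n d) := closure (reduced k n d)

/-- The polynomials in the coordinates of the chart of `lam` which vanish at (the coordinates of)
all reduced subschemes in this chart, i.e. which vanish on the part of `H_{d,n}` in the chart. -/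
def eqns (lam : Fin d → MvPolynomial (Fin n) k) : Set (MvPolynomial (Coord n d) k) :=
  {f | ∀ p : Fin d → Fin n → k, Function.Injective p →
    ∀ c, IsCoord lam (vanishingIdeal k (Set.range p)) c → eval c f = 0}

/-- The differential of `f` at the point `a` in direction `w`. -/
noncomputable def dd {σ : Type*} [Fintype σ] (a : σ → k) (f : MvPolynomial σ k) (w : σ → k) : k :=
  ∑ x, eval a (pderiv x f) * w x

/-- The Zariski tangent space, at the point with coordinates `c`, of the affine variety
`H_{d,n} ∩ (chart of lam)`: the vectors killed by the differentials of all its equations. -/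
noncomputable def tangent (lam : Fin d → MvPolynomial (Fin n) k) (c : Coord n d → k) :
    Submodule k (Coord n d → k) where
  carrier := {w | ∀ f ∈ eqns lam, dd c f w = 0}
  add_mem' := by
    intro v w hv hw f hf
    have h1 := hv f hf
    have h2 := hw f hf
    simp only [dd, Pi.add_apply, mul_add, Finset.sum_add_distrib] at *
    rw [h1, h2, add_zero]
  zero_mem' := by intro f _; simp [dd]
  smul_mem' := by
    intro t w hw f hf
    have h1 := hw f hf
    simp only [dd, Pi.smul_apply, smul_eq_mul, mul_left_comm _ t, ← Finset.mul_sum] at *
    rw [h1, mul_zero]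

/-- `dim_k T_x H_{d,n} = N`, computed in a chart. -/
def HasTangentDim (x : Hilb k n d) (N : ℕ) : Prop :=
  ∃ (lam : Fin d → MvPolynomial (Fin n) k) (c : Coord n d → k),
    IsCoord lam x.1 c ∧ finrank k (tangent lam c) = N

end Defs

end Pool.Agent.Hilb61
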