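import Pool.Agent.Helper61.HilbCent2

/-!
# Degeneration of a cyclic commuting tuple to a monomial algebra
-/

open Module Matrix

namespace Pool.Agent.Hilb61

/-! ### Semicontinuity along polynomial families -/

theorem rank_semicont_poly {k : Type*} [Field k] [Infinite k] {V W : Type*} [AddCommGroup V]
    [Module k V] [AddCommGroup W] [Module k W] [FiniteDimensional k V] [FiniteDimensional k W]
    (T : ℕ → V →ₗ[k] W) (m : ℕ) :
    ∀ᶠ t : k in Filter.cofinite, finrank k (LinearMap.range (T 0)) ≤
      finrank k (LinearMap.range (∑ j ∈ Finset.range (m + 1), t ^ j • T j)) := by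
  classical
  set r := finrank k (LinearMap.range (T 0)) with hr
  let b : Basis (Fin r) k (LinearMap.range (T 0)) := Module.finBasisOfFinrankEq k _ rfl
  have hpre : ∀ i, ∃ u : V, T 0 u = (b i : W) := fun i => (b i).2
  choose u hu using hpre
  let U : (Fin r → k) →ₗ[k] V := Fintype.linearCombination k u
  obtain ⟨L, hL⟩ := LinearMap.exists_leftInverse_of_injective
    ((Submodule.subtype (LinearMap.range (T 0))).comp (b.equivFun.symm : (Fin r → k) →ₗ[k] _))
    (by
      rw [LinearMap.ker_eq_bot]
      exact (Submodule.subtype_injective _).comp b.equivFun.symm.injective)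
  have hTU : (T 0).comp U =
      (Submodule.subtype (LinearMap.range (T 0))).comp
        (b.equivFun.symm : (Fin r → k) →ₗ[k] _) := by
    apply LinearMap.pi_ext'
    intro i
    ext
    simp [U, Fintype.linearCombination_apply_single, hu, Basis.equivFun_symm_apply]
  have h0 : L.comp ((T 0).comp U) = LinearMap.id := by rw [hTU]; exact hL
  let N : Matrix (Fin r) (Fin r) (Polynomial k) :=
    ∑ j ∈ Finset.range (m + 1), (Polynomial.X ^ j : Polynomial k) •
      (LinearMap.toMatrix' (L.comp ((T j).comp U))).map Polynomial.C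
  have hN : ∀ t : k, N.map (Polynomial.eval t) = LinearMap.toMatrix'
      (L.comp ((∑ j ∈ Finset.range (m + 1), t ^ j • T j).comp U)) := by
    intro t
    have e1 : L.comp ((∑ j ∈ Finset.range (m + 1), t ^ j • T j).comp U) =
        ∑ j ∈ Finset.range (m + 1), t ^ j • L.comp ((T j).comp U) := by
      apply LinearMap.ext
      intro x
      simp only [LinearMap.comp_apply, LinearMap.sum_apply, LinearMap.smul_apply, map_sum,
        map_smul]
    rw [e1, map_sum]
    ext i j
    simp only [N, Matrix.map_apply, Matrix.sum_apply, Matrix.smul_apply, smul_eq_mul,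
      Polynomial.eval_finsetSum, Polynomial.eval_mul, Polynomial.eval_X, Polynomial.eval_C,
      Polynomial.eval_pow, map_smul]
  have hdet : ∀ t : k, (N.det).eval t =
      (LinearMap.toMatrix' (L.comp ((∑ j ∈ Finset.range (m + 1), t ^ j • T j).comp U))).det := by
    intro t
    rw [← hN t]
    have := RingHom.map_det (Polynomial.evalRingHom t) N
    simpa [RingHom.mapMatrix_apply] using this
  have hne : N.det ≠ 0 := by
    intro h
    have := hdet 0
    have e0 : (∑ j ∈ Finset.range (m + 1), (0 : k) ^ j • T j) = T 0 := by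
      rw [Finset.sum_range_succ']
      simp
    rw [h, e0, h0] at this
    simp at this
  have hfin : {t : k | (N.det).IsRoot t}.Finite := Polynomial.finite_setOfPred_isRoot hne
  rw [Filter.eventually_cofinite]
  apply hfin.subset
  intro t ht
  rw [Set.mem_ofPred_eq] at ht ⊢
  by_contra hroot
  apply ht
  have hd : (LinearMap.toMatrix' (L.comp ((∑ j ∈ Finset.range (m + 1), t ^ j • T j).comp U))).det
      ≠ 0 := by
    rw [← hdet t]
    exact hroot
  have hinj : Function.Injective (L.comp ((∑ j ∈ Finset.range (m + 1), t ^ j • T j).comp U)) := by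
    rw [LinearMap.det_toMatrix'] at hd
    exact (LinearEquiv.ofIsUnitDet (f := L.comp ((∑ j ∈ Finset.range (m + 1), t ^ j • T j).comp U))
      (v := Pi.basisFun k (Fin r)) (v' := Pi.basisFun k (Fin r)) (by
        rw [← LinearMap.det_toMatrix (Pi.basisFun k (Fin r))] at hd
        exact isUnit_iff_ne_zero.mpr hd)).injective
  have hinj2 : Function.Injective ((∑ j ∈ Finset.range (m + 1), t ^ j • T j).comp U) := by
    intro x y hxy
    apply hinj
    show L _ = L _
    rw [hxy]
  calc r = finrank k (Fin r → k) := by simp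
    _ = finrank k (LinearMap.range ((∑ j ∈ Finset.range (m + 1), t ^ j • T j).comp U)) :=
        (LinearMap.finrank_range_of_inj hinj2).symm
    _ ≤ _ := Submodule.finrank_mono (LinearMap.range_comp_le_range _ _)

section

variable {k : Type*} [Field k] {ι κ : Type*} [Fintype κ] [DecidableEq κ]

lemma commL_sum (A : ℕ → ι → Matrix κ κ k) (t : k) (m : ℕ) :
    commL (fun i => ∑ j ∈ Finset.range m, t ^ j • A j i) =
      ∑ j ∈ Finset.range m, t ^ j • commL (A j) := by
  induction m with
  | zero =>
    ext B i j : 3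
    simp [commL]
  | succ m ih =>
    rw [Finset.sum_range_succ, ← ih]
    ext B i j : 3
    simp only [commL, LinearMap.coe_mk, AddHom.coe_mk, LinearMap.add_apply, LinearMap.smul_apply,
      Pi.add_apply, Pi.smul_apply, Finset.sum_range_succ, add_mul, mul_add, smul_mul_assoc,
      mul_smul_comm, smul_sub]
    abel

/-- Semicontinuity of `ZC` along a polynomial family. -/
theorem ZC_semicont_poly [Infinite k] [Finite ι] (A : ℕ → ι → Matrix κ κ k) (m : ℕ) :
    ∀ᶠ t : k in Filter.cofinite,
      finrank k (ZC (fun i => ∑ j ∈ Finset.range (m + 1), t ^ j • A j i)) ≤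
        finrank k (ZC (A 0)) := by
  have := Fintype.ofFinite ι
  filter_upwards [rank_semicont_poly (fun j => commL (A j)) m] with t ht
  have h1 := LinearMap.finrank_range_add_finrank_ker (commL (A 0))
  have h2 := LinearMap.finrank_range_add_finrank_ker
    (commL (fun i => ∑ j ∈ Finset.range (m + 1), t ^ j • A j i))
  rw [ker_commL] at h1 h2
  rw [commL_sum] at h2
  omega

lemma finrank_ZC_smul (A : ι → Matrix κ κ k) (c : ι → k) (hc : ∀ i, c i ≠ 0) :
    finrank k (ZC (fun i => c i • A i)) = finrank k (ZC A) := by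
  let f : (ι → Matrix κ κ k) ≃ₗ[k] (ι → Matrix κ κ k) :=
    { toFun := fun B i => c i • B i
      invFun := fun B i => (c i)⁻¹ • B i
      left_inv := by
        intro B
        funext i
        show (c i)⁻¹ • c i • B i = B i
        rw [smul_smul, inv_mul_cancel₀ (hc i), one_smul]
      right_inv := by
        intro B
        funext i
        show c i • (c i)⁻¹ • B i = B i
        rw [smul_smul, mul_inv_cancel₀ (hc i), one_smul]
      map_add' := by
        intro B C
        funext i
        simp
      map_smul' := by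
        intro t B
        funext i
        simp only [Pi.smul_apply, RingHom.id_apply]
        rw [smul_comm] }
  have key : ∀ B : ι → Matrix κ κ k, B ∈ ZC A ↔ f B ∈ ZC (fun i => c i • A i) := by
    intro B
    have h1 : ∀ i j, (c i • A i) * (c j • B j) - (c j • B j) * (c i • A i) =
        (c i * c j) • (A i * B j - B j * A i) := by
      intro i j
      rw [smul_mul_smul_comm, smul_mul_smul_comm, mul_comm (c j) (c i), smul_sub]
    constructor
    · intro h i j
      show (c i • A i) * (c j • B j) - (c j • B j) * (c i • A i) =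
        (c j • A j) * (c i • B i) - (c i • B i) * (c j • A j)
      rw [h1, h1, h i j, mul_comm]
    · intro h i j
      have h2 : (c i • A i) * (c j • B j) - (c j • B j) * (c i • A i) =
        (c j • A j) * (c i • B i) - (c i • B i) * (c j • A j) := h i j
      rw [h1, h1, mul_comm (c j)] at h2
      exact smul_right_injective _ (mul_ne_zero (hc i) (hc j)) h2
  have h2 : (ZC A).map (f : (ι → Matrix κ κ k) →ₗ[k] (ι → Matrix κ κ k)) =
      ZC (fun i => c i • A i) := by
    ext B
    constructor
    · rintro ⟨C, hC, rfl⟩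
      exact (key C).mp hC
    · intro hB
      refine ⟨f.symm B, (key _).mpr ?_, f.apply_symm_apply B⟩
      rw [f.apply_symm_apply]
      exact hB
  rw [← h2]
  exact LinearEquiv.finrank_map_eq f (ZC A)

end

/-! ### Standard monomials -/

section std

variable {k : Type*} [Field k] {n d : ℕ} (V : (Fin n →₀ ℕ) → (Fin d → k)) (w : Fin n → ℕ)

/-- The weight of an exponent. -/
def phi (B : Fin n →₀ ℕ) : ℕ := ∑ i, w i * B i

lemma phi_add (B C : Fin n →₀ ℕ) : phi w (B + C) = phi w B + phi w C := by
  simp only [phi, Finsupp.add_apply, mul_add, Finset.sum_add_distrib]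

lemma phi_single (i : Fin n) (m : ℕ) : phi w (Finsupp.single i m) = w i * m := by
  rw [phi, Finset.sum_eq_single i]
  · rw [Finsupp.single_eq_same]
  · intro j _ hj
    rw [Finsupp.single_eq_of_ne hj, mul_zero]
  · intro h; exact absurd (Finset.mem_univ i) h

/-- The span of the vectors of weight less than `T`. -/
def FF (T : ℕ) : Submodule k (Fin d → k) := Submodule.span k {x | ∃ C, phi w C < T ∧ V C = x}

/-- Standard exponents. -/
def Std (B : Fin n →₀ ℕ) : Prop := V B ∉ FF V w (phi w B)

variable {V w}

lemma mem_FF {C : Fin n →₀ ℕ} {T : ℕ} (h : phi w C < T) : V C ∈ FF V w T :=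
  Submodule.subset_span ⟨C, h, rfl⟩

lemma span_Std (B : Fin n →₀ ℕ) :
    V B ∈ Submodule.span k {x | ∃ C, Std V w C ∧ phi w C ≤ phi w B ∧ V C = x} := by
  induction hT : phi w B using Nat.strong_induction_on generalizing B with
  | _ T ih =>
    subst hT
    by_cases h : Std V w B
    · exact Submodule.subset_span ⟨B, h, le_rfl, rfl⟩
    · rw [Std, not_not] at h
      have h1 : FF V w (phi w B) ≤
          Submodule.span k {x | ∃ C, Std V w C ∧ phi w C ≤ phi w B ∧ V C = x} := by
        rw [FF, Submodule.span_le]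
        rintro _ ⟨C, hC, rfl⟩
        have h2 := ih (phi w C) hC C rfl
        refine Submodule.span_mono ?_ h2
        rintro _ ⟨D, hD, hD', rfl⟩
        exact ⟨D, hD, by omega, rfl⟩
      exact h1 h

lemma FF_eq (T : ℕ) :
    FF V w T = Submodule.span k {x | ∃ C, Std V w C ∧ phi w C < T ∧ V C = x} := by
  apply le_antisymm
  · rw [FF, Submodule.span_le]
    rintro _ ⟨C, hC, rfl⟩
    refine Submodule.span_mono ?_ (span_Std (V := V) (w := w) C)
    rintro _ ⟨D, hD, hD', rfl⟩
    exact ⟨D, hD, by omega, rfl⟩
  · apply Submodule.span_mono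
    rintro _ ⟨C, _, hC, rfl⟩
    exact ⟨C, hC, rfl⟩

lemma indep_Std {ι : Type*} [Finite ι] (x : ι → (Fin n →₀ ℕ)) (hx : ∀ s, Std V w (x s))
    (hinj : Function.Injective fun s => phi w (x s)) :
    LinearIndependent k (fun s => V (x s)) := by
  classical
  have := Fintype.ofFinite ι
  rw [Fintype.linearIndependent_iff]
  intro g hg
  by_contra hc
  push Not at hc
  let S : Finset ι := Finset.univ.filter (fun s => g s ≠ 0)
  have hS : S.Nonempty := by
    obtain ⟨s, hs⟩ := hc
    exact ⟨s, Finset.mem_filter.mpr ⟨Finset.mem_univ _, hs⟩⟩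
  obtain ⟨s, hs, hmax⟩ := S.exists_max_image (fun s => phi w (x s)) hS
  rw [Finset.mem_filter] at hs
  apply hx s
  have h1 : g s • V (x s) = -∑ s' ∈ Finset.univ.erase s, g s' • V (x s') := by
    rw [← Finset.add_sum_erase _ _ (Finset.mem_univ s)] at hg
    exact eq_neg_of_add_eq_zero_left hg
  have h2 : V (x s) = (g s)⁻¹ • -∑ s' ∈ Finset.univ.erase s, g s' • V (x s') := by
    rw [← h1, smul_smul, inv_mul_cancel₀ hs.2, one_smul]
  rw [h2]
  apply Submodule.smul_mem
  apply Submodule.neg_mem
  apply Submodule.sum_mem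
  intro s' hs'
  by_cases h3 : g s' = 0
  · rw [h3, zero_smul]
    exact Submodule.zero_mem _
  · apply Submodule.smul_mem
    apply mem_FF
    have h4 := hmax s' (Finset.mem_filter.mpr ⟨Finset.mem_univ _, h3⟩)
    have h5 : phi w (x s') ≠ phi w (x s) := by
      intro h
      exact (Finset.mem_erase.mp hs').1 (hinj h)
    omega

variable {A : Fin n → Matrix (Fin d) (Fin d) k}

lemma FF_mulVec (hV : ∀ B i, V (B + Finsupp.single i 1) = A i *ᵥ V B) {T : ℕ} (i : Fin n)
    {x : Fin d → k} (hx : x ∈ FF V w T) : A i *ᵥ x ∈ FF V w (T + w i) := by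
  rw [FF] at hx
  induction hx using Submodule.span_induction with
  | mem x hx =>
    obtain ⟨C, hC, rfl⟩ := hx
    rw [← hV]
    apply mem_FF
    rw [phi_add, phi_single]
    omega
  | zero => rw [mulVec_zero]; exact Submodule.zero_mem _
  | add x y _ _ hx hy => rw [mulVec_add]; exact Submodule.add_mem _ hx hy
  | smul a x _ hx => rw [mulVec_smul]; exact Submodule.smul_mem _ _ hx

lemma Std_low (hV : ∀ B i, V (B + Finsupp.single i 1) = A i *ᵥ V B) {B : Fin n →₀ ℕ} {i : Fin n}
    (h : Std V w (B + Finsupp.single i 1)) : Std V w B := by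
  intro h1
  apply h
  rw [hV, phi_add, phi_single, mul_one]
  exact FF_mulVec hV i h1

lemma Std_low' (hV : ∀ B i, V (B + Finsupp.single i 1) = A i *ᵥ V B) (i : Fin n) (m : ℕ) :
    ∀ B : Fin n →₀ ℕ, Std V w (B + Finsupp.single i m) → Std V w B := by
  induction m with
  | zero => intro B h; simpa using h
  | succ m ih =>
    intro B h
    rw [Finsupp.single_add, ← add_assoc] at h
    exact ih B (Std_low hV h)

lemma Std_coord (hV : ∀ B i, V (B + Finsupp.single i 1) = A i *ᵥ V B) (hw : ∀ i, 1 ≤ w i)
    {B : Fin n →₀ ℕ} (h : Std V w B) (i : Fin n) : B i < d := by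
  let B0 := B - Finsupp.single i (B i)
  have hB0 : B0 + Finsupp.single i (B i) = B := sub_add_single' le_rfl
  have h1 : ∀ c : Fin (B i + 1), Std V w (B0 + Finsupp.single i (c : ℕ)) := by
    intro c
    apply Std_low' hV i (B i - c)
    rw [add_assoc, ← Finsupp.single_add, show (c : ℕ) + (B i - c) = B i by omega, hB0]
    exact h
  have h2 := indep_Std (V := V) (w := w) (fun c : Fin (B i + 1) => B0 + Finsupp.single i (c : ℕ))
    h1 (by
      intro c c' hcc
      have : phi w (B0 + Finsupp.single i (c : ℕ)) = phi w (B0 + Finsupp.single i (c' : ℕ)) := hcc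
      rw [phi_add, phi_add, phi_single, phi_single] at this
      have h3 : w i * (c : ℕ) = w i * (c' : ℕ) := by omega
      have h4 := Nat.eq_of_mul_eq_mul_left (by have := hw i; omega) h3
      exact Fin.ext h4)
  have h3 := h2.fintype_card_le_finrank
  rw [Fintype.card_fin, finrank_fin_fun] at h3
  omega

/-- **Standard monomials.** -/
theorem exists_std (hV : ∀ B i, V (B + Finsupp.single i 1) = A i *ᵥ V B)
    (hspan : Submodule.span k (Set.range V) = ⊤) (hw : ∀ i, 1 ≤ w i)
    (hinj : ∀ B C : Fin n →₀ ℕ, (∀ i, B i < d) → (∀ i, C i < d) → phi w B = phi w C → B = C) :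
    ∃ (mon : Fin d → (Fin n →₀ ℕ)) (b : Basis (Fin d) k (Fin d → k)), IsOrd mon ∧
      (∀ s, Std V w (mon s)) ∧ (∀ B, Std V w B → ∃ s, mon s = B) ∧ ∀ s, b s = V (mon s) := by
  classical
  have hphi : ∀ B C, Std V w B → Std V w C → phi w B = phi w C → B = C := fun B C hB hC h =>
    hinj B C (Std_coord hV hw hB) (Std_coord hV hw hC) h
  have hfin : ∀ S : Finset {B // Std V w B}, S.card ≤ d := by
    intro S
    have h1 := indep_Std (V := V) (w := w) (fun s : S => s.1.1) (fun s => s.1.2) (by
      intro s s' hss
      exact Subtype.ext (Subtype.ext (hphi _ _ s.1.2 s'.1.2 hss)))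
    have h2 := h1.fintype_card_le_finrank
    rwa [Fintype.card_coe, finrank_fin_fun] at h2
  have : Finite {B // Std V w B} := by
    by_contra hinf
    rw [not_finite_iff_infinite] at hinf
    obtain ⟨S, hS⟩ := Infinite.exists_subset_card_eq {B // Std V w B} (d + 1)
    have := hfin S
    omega
  have hli := indep_Std (V := V) (w := w) (fun s : {B // Std V w B} => s.1) (fun s => s.2) (by
      intro s s' hss
      exact Subtype.ext (hphi _ _ s.2 s'.2 hss))
  have hsp : ⊤ ≤ Submodule.span k (Set.range fun s : {B // Std V w B} => V s.1) := by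
    rw [← hspan, Submodule.span_le]
    rintro _ ⟨B, rfl⟩
    refine Submodule.span_mono ?_ (span_Std (V := V) (w := w) B)
    rintro _ ⟨C, hC, _, rfl⟩
    exact ⟨⟨C, hC⟩, rfl⟩
  let b0 : Basis {B // Std V w B} k (Fin d → k) := Basis.mk hli hsp
  have := Fintype.ofFinite {B // Std V w B}
  have hcard : Fintype.card {B // Std V w B} = d := by
    rw [← Module.finrank_eq_card_basis b0, finrank_fin_fun]
  let e := Fintype.equivFinOfCardEq hcard
  refine ⟨fun s => (e.symm s).1, b0.reindex e, ⟨?_, ?_⟩, fun s => (e.symm s).2, ?_, ?_⟩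
  · intro s s' h
    exact e.symm.injective (Subtype.ext h)
  · intro s i B hB
    have h1 : Std V w B := by
      apply Std_low hV (i := i)
      rw [hB]
      exact (e.symm s).2
    exact ⟨e ⟨B, h1⟩, by simp⟩
  · intro B hB
    exact ⟨e ⟨B, hB⟩, by simp⟩
  · intro s
    rw [Basis.reindex_apply, Basis.mk_apply]

end std

end Pool.Agent.Hilb61
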