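import Pool.Agent.Helper61.HilbDeg

/-!
# The degeneration
-/

open Module Matrix

namespace Pool.Agent.Hilb61

variable {k : Type*} [Field k] {n d : ℕ} {V : (Fin n →₀ ℕ) → (Fin d → k)} {w : Fin n → ℕ}
  {A : Fin n → Matrix (Fin d) (Fin d) k}

theorem finrank_ZC_le_Amon [Infinite k] (hV : ∀ B i, V (B + Finsupp.single i 1) = A i *ᵥ V B)
    {mon : Fin d → (Fin n →₀ ℕ)} {b : Basis (Fin d) k (Fin d → k)}
    (hstd : ∀ s, Std V w (mon s)) (hall : ∀ B, Std V w B → ∃ s, mon s = B)
    (hb : ∀ s, b s = V (mon s)) :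
    finrank k (ZC A) ≤ finrank k (ZC (Amon k mon)) := by
  classical
  -- supports
  have hsupp : ∀ (C : Fin n →₀ ℕ) (r : Fin d), b.repr (V C) r ≠ 0 → phi w (mon r) ≤ phi w C := by
    intro C r hr
    have h1 : V C ∈ Submodule.span k (b '' {s | phi w (mon s) ≤ phi w C}) := by
      refine Submodule.span_mono ?_ (span_Std (V := V) (w := w) C)
      rintro _ ⟨D, hD, hD', rfl⟩
      obtain ⟨s, rfl⟩ := hall D hD
      exact ⟨s, hD', hb s⟩
    rw [Basis.mem_span_image] at h1
    exact h1 (Finsupp.mem_support_iff.mpr hr)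
  have hsupp' : ∀ (C : Fin n →₀ ℕ) (r : Fin d), ¬ Std V w C → b.repr (V C) r ≠ 0 →
      phi w (mon r) < phi w C := by
    intro C r hC hr
    have h1 : V C ∈ Submodule.span k (b '' {s | phi w (mon s) < phi w C}) := by
      rw [Std, not_not, FF_eq] at hC
      refine Submodule.span_mono ?_ hC
      rintro _ ⟨D, hD, hD', rfl⟩
      obtain ⟨s, rfl⟩ := hall D hD
      exact ⟨s, hD', hb s⟩
    rw [Basis.mem_span_image] at h1
    exact h1 (Finsupp.mem_support_iff.mpr hr)
  have hlead : ∀ (C : Fin n →₀ ℕ) (r : Fin d), phi w (mon r) = phi w C →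
      b.repr (V C) r = if mon r = C then 1 else 0 := by
    intro C r hr
    by_cases hC : Std V w C
    · obtain ⟨s, rfl⟩ := hall C hC
      rw [← hb s, Basis.repr_self, Finsupp.single_apply]
      by_cases hsr : s = r
      · rw [if_pos hsr, if_pos (by rw [hsr])]
      · rw [if_neg hsr, if_neg]
        intro h
        apply hsr
        have h1 := hb s
        rw [← h, ← hb r] at h1
        exact b.injective h1
    · rw [if_neg]
      · by_contra hne
        have := hsupp' C r hC hne
        omega
      · intro h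
        rw [← h] at hC
        exact hC (hstd r)
  -- conjugate matrices
  let A' : Fin n → Matrix (Fin d) (Fin d) k := fun i => Matrix.of fun r s =>
    b.repr (V (mon s + Finsupp.single i 1)) r
  let P : Matrix (Fin d) (Fin d) k := Matrix.of fun r s => V (mon s) r
  let Q : Matrix (Fin d) (Fin d) k := b.toMatrix (Pi.basisFun k (Fin d))
  have hP : P = (Pi.basisFun k (Fin d)).toMatrix b := by
    ext r s
    rw [Basis.toMatrix_apply, Pi.basisFun_repr, hb s]
    rfl
  have hPQ : P * Q = 1 := by
    rw [hP]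
    exact Basis.toMatrix_mul_toMatrix_flip _ _
  have hQP : Q * P = 1 := by
    rw [hP]
    exact Basis.toMatrix_mul_toMatrix_flip _ _
  have hPA : ∀ i, P * A' i = A i * P := by
    intro i
    ext r s
    rw [Matrix.mul_apply, Matrix.mul_apply]
    have h1 : A i *ᵥ V (mon s) = ∑ q, b.repr (V (mon s + Finsupp.single i 1)) q • b q := by
      rw [b.sum_repr, hV]
    have h2 := congrFun h1 r
    rw [Finset.sum_apply] at h2
    have h3 : (A i *ᵥ V (mon s)) r = ∑ q, A i r q * P q s := rfl
    rw [← h3, h2]
    apply Finset.sum_congr rfl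
    intro q _
    rw [Pi.smul_apply, smul_eq_mul, hb q, mul_comm]
    rfl
  have hA' : ∀ i, A i = P * A' i * Q := by
    intro i
    rw [hPA, Matrix.mul_assoc, hPQ, Matrix.mul_one]
  have e1 : finrank k (ZC A) = finrank k (ZC A') := finrank_ZC_conj A' A P Q hPQ hQP hA'
  -- the family
  let ex : Fin n → Fin d → Fin d → ℕ := fun i r s => phi w (mon s) + w i - phi w (mon r)
  let Aj : ℕ → Fin n → Matrix (Fin d) (Fin d) k := fun j i => Matrix.of fun r s =>
    if ex i r s = j then A' i r s else 0
  obtain ⟨L, hL⟩ : ∃ L, ∀ i r s, ex i r s < L := by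
    refine ⟨(∑ i, ∑ r, ∑ s, ex i r s) + 1, fun i r s => ?_⟩
    have h1 : ex i r s ≤ ∑ s, ex i r s :=
      Finset.single_le_sum (fun _ _ => Nat.zero_le _) (Finset.mem_univ s)
    have h2 : ∑ s, ex i r s ≤ ∑ r, ∑ s, ex i r s :=
      Finset.single_le_sum (f := fun r => ∑ s, ex i r s) (fun _ _ => Nat.zero_le _)
        (Finset.mem_univ r)
    have h3 : ∑ r, ∑ s, ex i r s ≤ ∑ i, ∑ r, ∑ s, ex i r s :=
      Finset.single_le_sum (f := fun i => ∑ r, ∑ s, ex i r s) (fun _ _ => Nat.zero_le _)
        (Finset.mem_univ i)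
    omega
  have hfam : ∀ t : k, (fun i => ∑ j ∈ Finset.range (L + 1), t ^ j • Aj j i) =
      fun i => Matrix.of fun r s => t ^ (ex i r s) * A' i r s := by
    intro t
    funext i
    ext r s
    rw [Matrix.sum_apply, Matrix.of_apply, Finset.sum_eq_single (ex i r s)]
    · rw [Matrix.smul_apply, smul_eq_mul]
      show _ * (if ex i r s = ex i r s then A' i r s else 0) = _
      rw [if_pos rfl]
    · intro j _ hj
      rw [Matrix.smul_apply, smul_eq_mul]
      show _ * (if ex i r s = j then A' i r s else 0) = _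
      rw [if_neg hj.symm, mul_zero]
    · intro h
      exact absurd (Finset.mem_range.mpr (by have := hL i r s; omega)) h
  have h0 : Aj 0 = Amon k mon := by
    funext i
    ext r s
    show (if ex i r s = 0 then A' i r s else 0) = Amon k mon i r s
    rw [Amon_apply]
    have hph : phi w (mon s + Finsupp.single i 1) = phi w (mon s) + w i := by
      rw [phi_add, phi_single, mul_one]
    by_cases h1 : ex i r s = 0
    · rw [if_pos h1]
      have h2 : phi w (mon s) + w i ≤ phi w (mon r) := by
        have : phi w (mon s) + w i - phi w (mon r) = 0 := h1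
        omega
      by_cases h3 : phi w (mon r) = phi w (mon s) + w i
      · exact hlead _ r (by rw [hph, h3])
      · rw [if_neg]
        · by_contra hne
          have := hsupp _ r hne
          omega
        · intro h4
          rw [h4, hph] at h3
          exact h3 rfl
    · rw [if_neg h1, if_neg]
      intro h4
      apply h1
      show phi w (mon s) + w i - phi w (mon r) = 0
      rw [h4, hph]
      omega
  -- a good value of the parameter
  have hev := ZC_semicont_poly Aj L
  have hne : ∀ᶠ t : k in Filter.cofinite, t ≠ 0 := by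
    rw [Filter.eventually_cofinite]
    simp
  obtain ⟨t, ht1, ht2⟩ := (hev.and hne).exists
  rw [h0, hfam t] at ht1
  rw [e1]
  refine le_trans (le_of_eq ?_) ht1
  -- scaling
  let Dg : Matrix (Fin d) (Fin d) k := Matrix.diagonal fun s => t ^ (phi w (mon s))
  let Di : Matrix (Fin d) (Fin d) k := Matrix.diagonal fun s => (t ^ (phi w (mon s)))⁻¹
  have hDD : Di * Dg = 1 := by
    rw [Matrix.diagonal_mul_diagonal]
    rw [← Matrix.diagonal_one]
    congr 1
    funext s
    exact inv_mul_cancel₀ (pow_ne_zero _ ht2)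
  have hDD' : Dg * Di = 1 := by
    rw [Matrix.diagonal_mul_diagonal]
    rw [← Matrix.diagonal_one]
    congr 1
    funext s
    exact mul_inv_cancel₀ (pow_ne_zero _ ht2)
  have e2 : (fun i => Matrix.of fun r s => t ^ (ex i r s) * A' i r s) =
      fun i => t ^ (w i) • (Di * A' i * Dg) := by
    funext i
    ext r s
    rw [Matrix.of_apply, Matrix.smul_apply, smul_eq_mul, Matrix.mul_diagonal,
      Matrix.diagonal_mul]
    by_cases hz : A' i r s = 0
    · rw [hz]; simp
    · have h1 := hsupp _ r hz
      rw [phi_add, phi_single, mul_one] at h1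
      have h2 : ex i r s + phi w (mon r) = phi w (mon s) + w i := by
        show phi w (mon s) + w i - phi w (mon r) + phi w (mon r) = _
        omega
      have h3 : t ^ (ex i r s) * t ^ (phi w (mon r)) = t ^ (phi w (mon s)) * t ^ (w i) := by
        rw [← pow_add, ← pow_add, h2]
      have h4 : t ^ (phi w (mon r)) ≠ 0 := pow_ne_zero _ ht2
      have h5 : t ^ (ex i r s) = t ^ (w i) * t ^ (phi w (mon s)) * (t ^ (phi w (mon r)))⁻¹ := by
        rw [eq_mul_inv_iff_mul_eq₀ h4, h3, mul_comm]
      rw [h5]
      ring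
  rw [e2, finrank_ZC_smul _ _ (fun i => pow_ne_zero _ ht2)]
  exact (finrank_ZC_conj A' (fun i => Di * A' i * Dg) Di Dg hDD hDD' (fun i => rfl)).symm

end Pool.Agent.Hilb61
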