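import Pool.Agent.Helper61.HilbDeg2
import Pool.Agent.Helper61.HilbChar

/-!
# Stabilisation of monomial algebras in characteristic zero
-/

open Module Matrix

namespace Pool.Agent.Hilb61

/-! ### Weights -/

lemma exists_weight (n d : ℕ) : ∃ w : Fin n → ℕ, (∀ i, 1 ≤ w i) ∧ (∀ i j, i < j → w j < w i) ∧
    ∀ B C : Fin n →₀ ℕ, (∀ i, B i < d) → (∀ i, C i < d) → phi w B = phi w C → B = C := by
  refine ⟨fun i => (d + 2) ^ (n - 1 - (i : ℕ)), fun i => Nat.one_le_pow _ _ (by omega), ?_, ?_⟩
  · intro i j hij
    rw [Fin.lt_def] at hij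
    have := j.isLt
    exact Nat.pow_lt_pow_right (by omega) (by omega)
  · intro B C hB hC h
    have key : ∀ (m : ℕ) (x y : Fin m → ℕ), (∀ i, x i < d) → (∀ i, y i < d) →
        ∑ i : Fin m, (d + 2) ^ (m - 1 - (i : ℕ)) * x i =
          ∑ i : Fin m, (d + 2) ^ (m - 1 - (i : ℕ)) * y i → x = y := by
      intro m
      induction m with
      | zero =>
        intro x y _ _ _
        funext i
        exact i.elim0
      | succ m ih =>
        intro x y hx hy hxy
        have e : ∀ z : Fin (m + 1) → ℕ, ∑ i : Fin (m + 1), (d + 2) ^ (m + 1 - 1 - (i : ℕ)) * z i =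
            (d + 2) * (∑ i : Fin m, (d + 2) ^ (m - 1 - (i : ℕ)) * z i.castSucc) +
              z (Fin.last m) := by
          intro z
          rw [Fin.sum_univ_castSucc, Finset.mul_sum]
          congr 1
          · apply Finset.sum_congr rfl
            intro i _
            have hi := i.isLt
            rw [Fin.val_castSucc, show m + 1 - 1 - (i : ℕ) = (m - 1 - (i : ℕ)) + 1 by omega,
              pow_succ]
            ring
          · rw [Fin.val_last]
            simp
        rw [e x, e y] at hxy
        have hx1 := hx (Fin.last m)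
        have hy1 := hy (Fin.last m)
        have h1 : x (Fin.last m) = y (Fin.last m) := by
          have h2 := congrArg (· % (d + 2)) hxy
          simp only [Nat.mul_add_mod] at h2
          rwa [Nat.mod_eq_of_lt (by omega), Nat.mod_eq_of_lt (by omega)] at h2
        have h2 : (d + 2) * (∑ i : Fin m, (d + 2) ^ (m - 1 - (i : ℕ)) * x i.castSucc) =
            (d + 2) * (∑ i : Fin m, (d + 2) ^ (m - 1 - (i : ℕ)) * y i.castSucc) := by omega
        have h3 := Nat.eq_of_mul_eq_mul_left (by omega) h2
        have h4 := ih (fun i => x i.castSucc) (fun i => y i.castSucc)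
          (fun i => hx _) (fun i => hy _) h3
        funext i
        refine Fin.lastCases h1 (fun i => ?_) i
        exact congrFun h4 i
    have h1 := key n B C hB hC h
    exact DFunLike.coe_injective h1

/-! ### Counting -/

lemma sum_lt_of_count {d : ℕ} {f g : Fin d → ℕ}
    (h : ∀ T, (Finset.univ.filter (fun s => f s < T)).card ≤
      (Finset.univ.filter (fun s => g s < T)).card)
    {T0 : ℕ} (h0 : (Finset.univ.filter (fun s => f s < T0)).card <
      (Finset.univ.filter (fun s => g s < T0)).card) :
    ∑ s, g s < ∑ s, f s := by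
  classical
  let L := T0 + ∑ s, f s + ∑ s, g s
  have hf : ∀ s, f s ≤ L := by
    intro s
    have : f s ≤ ∑ s, f s := Finset.single_le_sum (fun _ _ => Nat.zero_le _) (Finset.mem_univ s)
    show f s ≤ T0 + ∑ s, f s + ∑ s, g s
    omega
  have hg : ∀ s, g s ≤ L := by
    intro s
    have : g s ≤ ∑ s, g s := Finset.single_le_sum (fun _ _ => Nat.zero_le _) (Finset.mem_univ s)
    show g s ≤ T0 + ∑ s, f s + ∑ s, g s
    omega
  have key : ∀ u : Fin d → ℕ, (∀ s, u s ≤ L) → ∑ s, u s +
      ∑ T ∈ Finset.range L, (Finset.univ.filter (fun s => u s < T + 1)).card = d * L := by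
    intro u hu
    have h1 : ∑ T ∈ Finset.range L, (Finset.univ.filter (fun s => u s < T + 1)).card =
        ∑ s : Fin d, ((Finset.range L).filter (fun T => u s < T + 1)).card :=
      Finset.sum_card_bipartiteAbove_eq_sum_card_bipartiteBelow (fun T s => u s < T + 1)
    rw [h1, ← Finset.sum_add_distrib]
    have h2 : ∀ s : Fin d, u s + ((Finset.range L).filter (fun T => u s < T + 1)).card = L := by
      intro s
      have h3 := Finset.card_filter_add_card_filter_not (s := Finset.range L)
        (fun T => u s < T + 1)
      have h4 : (Finset.range L).filter (fun T => ¬ u s < T + 1) = Finset.range (u s) := by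
        ext T
        simp only [Finset.mem_filter, Finset.mem_range]
        have := hu s
        omega
      rw [h4, Finset.card_range, Finset.card_range] at h3
      omega
    simp only [h2, Finset.sum_const, Finset.card_univ, Fintype.card_fin, smul_eq_mul]
  have k1 := key f hf
  have k2 := key g hg
  have hT0 : T0 ≠ 0 := by
    rintro rfl
    simp at h0
  obtain ⟨T1, hT1⟩ := Nat.exists_eq_succ_of_ne_zero hT0
  have h3 : ∑ T ∈ Finset.range L, (Finset.univ.filter (fun s => f s < T + 1)).card <
      ∑ T ∈ Finset.range L, (Finset.univ.filter (fun s => g s < T + 1)).card := by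
    apply Finset.sum_lt_sum (fun T _ => h (T + 1))
    refine ⟨T1, ?_, ?_⟩
    · rw [Finset.mem_range]
      show T1 < T0 + ∑ s, f s + ∑ s, g s
      omega
    · rw [hT1] at h0
      exact h0
  omega

section step

variable {K : Type*} [Field K] {n d : ℕ} {mon : Fin d → (Fin n →₀ ℕ)}

/-- The class of a monomial. -/
noncomputable def V0 (K : Type*) [Field K] (mon : Fin d → (Fin n →₀ ℕ)) (B : Fin n →₀ ℕ) :
    Fin d → K := by
  classical exact fun r => if mon r = B then 1 else 0

lemma V0_apply (B : Fin n →₀ ℕ) (r : Fin d) [Decidable (mon r = B)] :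
    V0 K mon B r = if mon r = B then 1 else 0 := by
  rw [V0]
  split_ifs <;> rfl

lemma V0_mul (h : IsOrd mon) (B : Fin n →₀ ℕ) (i : Fin n) :
    V0 K mon (B + Finsupp.single i 1) = Amon K mon i *ᵥ V0 K mon B := by
  classical
  funext r
  rw [V0_apply]
  show _ = ∑ s, Amon K mon i r s * V0 K mon B s
  by_cases h1 : mon r = B + Finsupp.single i 1
  · obtain ⟨s, hs⟩ := h.low r i B h1.symm
    rw [if_pos h1, Finset.sum_eq_single s]
    · rw [V0_apply, if_pos hs, Amon_apply, if_pos (by rw [h1, hs]), mul_one]
    · intro s' _ hs'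
      rw [V0_apply, if_neg, mul_zero]
      intro h2
      exact hs' (h.inj (h2.trans hs.symm))
    · intro h'; exact absurd (Finset.mem_univ s) h'
  · rw [if_neg h1]
    symm
    apply Finset.sum_eq_zero
    intro s _
    rw [V0_apply, Amon_apply]
    by_cases h2 : mon s = B
    · rw [if_pos h2, if_neg, zero_mul]
      intro h3
      exact h1 (by rw [h3, h2])
    · rw [if_neg h2, mul_zero]

/-- The transformed matrices. -/
noncomputable def At (mon : Fin d → (Fin n →₀ ℕ)) (i j : Fin n) (t : K) :
    Fin n → Matrix (Fin d) (Fin d) K :=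
  Function.update (Amon K mon) j (Amon K mon j + t • Amon K mon i)

/-- The transformed vectors. -/
noncomputable def Vt (mon : Fin d → (Fin n →₀ ℕ)) (i j : Fin n) (t : K) (C : Fin n →₀ ℕ) :
    Fin d → K :=
  ∑ q ∈ Finset.range (C j + 1), ((C j).choose q * t ^ q) •
    V0 K mon (C - Finsupp.single j q + Finsupp.single i q)

lemma Vt_mul (h : IsOrd mon) {i j : Fin n} (hij : i ≠ j) (t : K) (C : Fin n →₀ ℕ) (m : Fin n) :
    Vt mon i j t (C + Finsupp.single m 1) = At mon i j t m *ᵥ Vt mon i j t C := by
  classical
  by_cases hm : m = j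
  · subst hm
    have e1 : (C + Finsupp.single m 1 : Fin n →₀ ℕ) m = C m + 1 := by simp
    have e2 : At mon i m t m = Amon K mon m + t • Amon K mon i := by
      rw [At, Function.update_self]
    let f : ℕ → (Fin d → K) := fun q =>
      V0 K mon (C + Finsupp.single m 1 - Finsupp.single m q + Finsupp.single i q)
    have hf1 : ∀ q, q ≤ C m → Amon K mon m *ᵥ V0 K mon (C - Finsupp.single m q +
        Finsupp.single i q) = f q := by
      intro q hq
      rw [← V0_mul h]
      show _ = V0 K mon _
      congr 1
      ext l
      simp only [Finsupp.add_apply, Finsupp.tsub_apply]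
      by_cases hl : l = m
      · subst hl
        rw [Finsupp.single_eq_same, Finsupp.single_eq_same, Finsupp.single_eq_of_ne hij.symm]
        omega
      · rw [Finsupp.single_eq_of_ne hl, Finsupp.single_eq_of_ne hl]
        omega
    have hf2 : ∀ q, q ≤ C m → Amon K mon i *ᵥ V0 K mon (C - Finsupp.single m q +
        Finsupp.single i q) = f (q + 1) := by
      intro q hq
      rw [← V0_mul h]
      show _ = V0 K mon _
      congr 1
      ext l
      simp only [Finsupp.add_apply, Finsupp.tsub_apply]
      by_cases hl : l = m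
      · subst hl
        simp only [Finsupp.single_eq_same, Finsupp.single_eq_of_ne hij.symm]
        omega
      · by_cases hl' : l = i
        · subst hl'
          simp only [Finsupp.single_eq_same, Finsupp.single_eq_of_ne hl]
          omega
        · simp only [Finsupp.single_eq_of_ne hl, Finsupp.single_eq_of_ne hl']
          omega
    rw [e2, add_mulVec, Vt, Vt, e1, mulVec_sum, smul_mulVec, mulVec_sum, Finset.smul_sum]
    have s1 : ∑ q ∈ Finset.range (C m + 1), Amon K mon m *ᵥ (((C m).choose q * t ^ q) •
        V0 K mon (C - Finsupp.single m q + Finsupp.single i q)) =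
        ∑ q ∈ Finset.range (C m + 1), ((C m).choose q * t ^ q) • f q := by
      apply Finset.sum_congr rfl
      intro q hq
      rw [mulVec_smul, hf1 q (by rw [Finset.mem_range] at hq; omega)]
    have s2 : ∑ q ∈ Finset.range (C m + 1), t • Amon K mon i *ᵥ (((C m).choose q * t ^ q) •
        V0 K mon (C - Finsupp.single m q + Finsupp.single i q)) =
        ∑ q ∈ Finset.range (C m + 1), ((C m).choose q * t ^ (q + 1)) • f (q + 1) := by
      apply Finset.sum_congr rfl
      intro q hq
      rw [mulVec_smul, hf2 q (by rw [Finset.mem_range] at hq; omega), smul_smul]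
      congr 1
      ring
    rw [s1, s2]
    show ∑ q ∈ Finset.range (C m + 1 + 1), ((C m + 1).choose q * t ^ q) • f q = _
    rw [Finset.sum_range_succ']
    have s3 : ∑ q ∈ Finset.range (C m + 1), (((C m + 1).choose (q + 1) : ℕ) * t ^ (q + 1)) •
        f (q + 1) = ∑ q ∈ Finset.range (C m + 1), ((C m).choose q * t ^ (q + 1)) • f (q + 1) +
        ∑ q ∈ Finset.range (C m + 1), ((C m).choose (q + 1) * t ^ (q + 1)) • f (q + 1) := by
      rw [← Finset.sum_add_distrib]
      apply Finset.sum_congr rfl
      intro q _
      rw [← add_smul, Nat.choose_succ_succ]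
      congr 1
      push_cast
      ring
    rw [s3]
    have s4 : ∑ q ∈ Finset.range (C m + 1), ((C m).choose q * t ^ q) • f q =
        ∑ q ∈ Finset.range (C m + 1), ((C m).choose (q + 1) * t ^ (q + 1)) • f (q + 1) +
          ((C m).choose 0 * t ^ 0) • f 0 := by
      have h1 := Finset.sum_range_succ' (fun q => (((C m).choose q : K) * t ^ q) • f q) (C m + 1)
      have h2 := Finset.sum_range_succ (fun q => (((C m).choose q : K) * t ^ q) • f q) (C m + 1)
      rw [h1] at h2
      rw [Nat.choose_eq_zero_of_lt (show C m < C m + 1 by omega)] at h2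
      simp only [Nat.cast_zero, zero_mul, zero_smul, add_zero] at h2
      exact h2.symm
    rw [s4]
    simp only [Nat.choose_zero_right]
    abel
  · have e1 : (C + Finsupp.single m 1 : Fin n →₀ ℕ) j = C j := by
      rw [Finsupp.add_apply, Finsupp.single_eq_of_ne (fun h => hm h.symm), add_zero]
    rw [Vt, Vt, e1, At, Function.update_of_ne hm, mulVec_sum]
    apply Finset.sum_congr rfl
    intro q hq
    rw [Finset.mem_range] at hq
    rw [mulVec_smul, ← V0_mul h]
    congr 2
    ext l
    simp only [Finsupp.add_apply, Finsupp.tsub_apply]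
    by_cases hl : l = j
    · subst hl
      simp only [Finsupp.single_eq_same, Finsupp.single_eq_of_ne (fun h => hm h.symm)]
      omega
    · simp only [Finsupp.single_eq_of_ne hl]
      omega

end step

end Pool.Agent.Hilb61
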