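import Pool.Agent.Helper61.HilbSemi
import Pool.Agent.Helper61.HilbStab

/-!
# Degeneration to monomial points inside the smoothable component
-/

open Module Matrix

namespace Pool.Agent.Hilb61

universe u

variable {k : Type u} [Field k] {n d : ℕ} {V : (Fin n →₀ ℕ) → (Fin d → k)} {w : Fin n → ℕ}
  {A : Fin n → Matrix (Fin d) (Fin d) k}

theorem std_data (hV : ∀ B i, V (B + Finsupp.single i 1) = A i *ᵥ V B)
    {mon : Fin d → (Fin n →₀ ℕ)} {b : Basis (Fin d) k (Fin d → k)}
    (hstd : ∀ s, Std V w (mon s)) (hall : ∀ B, Std V w B → ∃ s, mon s = B)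
    (hb : ∀ s, b s = V (mon s)) :
    ∃ (P Q : Matrix (Fin d) (Fin d) k) (A' : Fin n → Matrix (Fin d) (Fin d) k),
      P * Q = 1 ∧ Q * P = 1 ∧ (∀ i, P * A' i = A i * P) ∧
      (∀ i r s, A' i r s ≠ 0 → phi w (mon r) ≤ phi w (mon s) + w i) ∧
      (∀ i r s, phi w (mon r) = phi w (mon s) + w i → A' i r s = Amon k mon i r s) ∧
      Q *ᵥ V 0 = V0 k mon 0 := by
  classical
  -- supports
  have hsupp : ∀ (C : Fin n →₀ ℕ) (r : Fin d), b.repr (V C) r ≠ 0 → phi w (mon r) ≤ phi w C := by
    intro C r hr
    have h1 : V C ∈ Submodule.span k (b '' {s | phi w (mon s) ≤ phi w C}) := by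
      refine Submodule.span_mono ?_ (span_Std (V := V) (w := w) C)
      rintro _ ⟨D, hD, hD', rfl⟩
      obtain ⟨s, rfl⟩ := hall D hD
      exact ⟨s, hD', hb s⟩
    rw [Basis.mem_span_image] at h1
    exact h1 (Finsupp.mem_support_iff.mpr hr)
  have hsupp' : ∀ (C : Fin n →₀ ℕ) (r : Fin d), ¬ Std V w C → b.repr (V C) r ≠ 0 →
      phi w (mon r) < phi w C := by
    intro C r hC hr
    have h1 : V C ∈ Submodule.span k (b '' {s | phi w (mon s) < phi w C}) := by
      rw [Std, not_not, FF_eq] at hC
      refine Submodule.span_mono ?_ hC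
      rintro _ ⟨D, hD, hD', rfl⟩
      obtain ⟨s, rfl⟩ := hall D hD
      exact ⟨s, hD', hb s⟩
    rw [Basis.mem_span_image] at h1
    exact h1 (Finsupp.mem_support_iff.mpr hr)
  have hlead : ∀ (C : Fin n →₀ ℕ) (r : Fin d), phi w (mon r) = phi w C →
      b.repr (V C) r = if mon r = C then 1 else 0 := by
    intro C r hr
    by_cases hC : Std V w C
    · obtain ⟨s, rfl⟩ := hall C hC
      rw [← hb s, Basis.repr_self, Finsupp.single_apply]
      by_cases hsr : s = r
      · rw [if_pos hsr, if_pos (by rw [hsr])]
      · rw [if_neg hsr, if_neg]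
        intro h
        apply hsr
        have h1 := hb s
        rw [← h, ← hb r] at h1
        exact b.injective h1
    · rw [if_neg]
      · by_contra hne
        have := hsupp' C r hC hne
        omega
      · intro h
        rw [← h] at hC
        exact hC (hstd r)
  -- conjugate matrices
  let A' : Fin n → Matrix (Fin d) (Fin d) k := fun i => Matrix.of fun r s =>
    b.repr (V (mon s + Finsupp.single i 1)) r
  let P : Matrix (Fin d) (Fin d) k := Matrix.of fun r s => V (mon s) r
  let Q : Matrix (Fin d) (Fin d) k := b.toMatrix (Pi.basisFun k (Fin d))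
  have hP : P = (Pi.basisFun k (Fin d)).toMatrix b := by
    ext r s
    rw [Basis.toMatrix_apply, Pi.basisFun_repr, hb s]
    rfl
  have hPQ : P * Q = 1 := by
    rw [hP]
    exact Basis.toMatrix_mul_toMatrix_flip _ _
  have hQP : Q * P = 1 := by
    rw [hP]
    exact Basis.toMatrix_mul_toMatrix_flip _ _
  have hPA : ∀ i, P * A' i = A i * P := by
    intro i
    ext r s
    rw [Matrix.mul_apply, Matrix.mul_apply]
    have h1 : A i *ᵥ V (mon s) = ∑ q, b.repr (V (mon s + Finsupp.single i 1)) q • b q := by
      rw [b.sum_repr, hV]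
    have h2 := congrFun h1 r
    rw [Finset.sum_apply] at h2
    have h3 : (A i *ᵥ V (mon s)) r = ∑ q, A i r q * P q s := rfl
    rw [← h3, h2]
    apply Finset.sum_congr rfl
    intro q _
    rw [Pi.smul_apply, smul_eq_mul, hb q, mul_comm]
    rfl
  have hQ : ∀ x : Fin d → k, Q *ᵥ x = b.repr x := by
    intro x
    have h1 := (Pi.basisFun k (Fin d)).toMatrix_mulVec_repr b x
    exact h1
  refine ⟨P, Q, A', hPQ, hQP, hPA, ?_, ?_, ?_⟩
  · intro i r s h
    have h1 := hsupp _ r h
    rwa [phi_add, phi_single, mul_one] at h1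
  · intro i r s h
    rw [Amon_apply]
    apply hlead
    rw [phi_add, phi_single, mul_one, h]
  · rw [hQ]
    funext r
    rw [V0_apply]
    have h0 : phi w (0 : Fin n →₀ ℕ) = 0 := by simp [phi]
    by_cases h1 : phi w (mon r) = 0
    · exact hlead 0 r (by rw [h1, h0])
    · rw [if_neg]
      · by_contra hne
        have := hsupp 0 r hne
        omega
      · intro h2
        rw [h2] at h1
        exact h1 h0

/-- **Degeneration of a framed tuple to a monomial one** inside the closure of the reduced
tuples. -/
theorem degen_c00 [Infinite k] {c : Coord n d → k} (hc : c ∈ Zset k n d)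
    (hV : ∀ B i, V (B + Finsupp.single i 1) = mats c i *ᵥ V B) (hv : V 0 = vect c)
    {mon : Fin d → (Fin n →₀ ℕ)} {b : Basis (Fin d) k (Fin d → k)}
    (hstd : ∀ s, Std V w (mon s)) (hall : ∀ B, Std V w B → ∃ s, mon s = B)
    (hb : ∀ s, b s = V (mon s)) :
    c00 k mon ∈ Zset k n d ∧ finrank k (tanR c) ≤ finrank k (tanR (c00 k mon)) := by
  classical
  obtain ⟨P, Q, A', hPQ, hQP, hPA, hsupp, hlead, hQV⟩ := std_data hV hstd hall hb
  -- first conjugation
  obtain ⟨h1, h2⟩ := tanR_push (fun b hb => conjL_Rset hPQ hb) (conjL_injective hPQ) hc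
  have hc1 : conjL P Q c = mk A' (V0 k mon 0) := by
    rw [conjL_apply]
    congr 1
    · funext i
      rw [Matrix.mul_assoc, ← hPA, ← Matrix.mul_assoc, hQP, Matrix.one_mul]
    · rw [← hv, hQV]
  rw [hc1] at h1 h2
  set c1 : Coord n d → k := mk A' (V0 k mon 0) with hc1def
  -- the curve
  let ex : Fin n → Fin d → Fin d → ℕ := fun i r s => phi w (mon s) + w i - phi w (mon r)
  let cv : Coord n d → Polynomial k := Sum.elim
    (fun x => Polynomial.X ^ (ex x.1 x.2.1 x.2.2) * Polynomial.C (A' x.1 x.2.1 x.2.2))
    (fun r => Polynomial.C (V0 k mon 0 r))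
  have hcv : ∀ t : k, (fun x => (cv x).eval t) =
      mk (fun i => Matrix.of fun r s => t ^ (ex i r s) * A' i r s) (V0 k mon 0) := by
    intro t
    funext x
    rcases x with ⟨i, r, s⟩ | r
    · simp only [cv, Sum.elim_inl, Polynomial.eval_mul, Polynomial.eval_pow, Polynomial.eval_X,
        Polynomial.eval_C, mk, Matrix.of_apply]
    · simp only [cv, Sum.elim_inr, Polynomial.eval_C, mk]
  have h0 : (fun x => (cv x).eval 0) = c00 k mon := by
    rw [hcv]
    have e0 : c00 k mon = mk (Amon k mon) (V0 k mon 0) := by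
      funext x
      rcases x with ⟨i, r, s⟩ | r
      · show _ = Amon k mon i r s
        rw [Amon_apply]
        rfl
      · show _ = V0 k mon 0 r
        rw [V0_apply]
        rfl
    rw [e0]
    congr 1
    funext i
    ext r s
    rw [Matrix.of_apply]
    by_cases hex : ex i r s = 0
    · rw [hex, pow_zero, one_mul]
      have h3 : phi w (mon s) + w i ≤ phi w (mon r) := by
        have : phi w (mon s) + w i - phi w (mon r) = 0 := hex
        omega
      by_cases h4 : phi w (mon r) = phi w (mon s) + w i
      · exact hlead i r s h4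
      · have h5 : A' i r s = 0 := by
          by_contra hne
          have := hsupp i r s hne
          omega
        rw [h5, Amon_apply, if_neg]
        intro h6
        apply h4
        rw [h6, phi_add, phi_single, mul_one]
    · rw [zero_pow hex, zero_mul, Amon_apply, if_neg]
      intro h6
      apply hex
      show phi w (mon s) + w i - phi w (mon r) = 0
      rw [h6, phi_add, phi_single, mul_one]
      omega
  have key : ∀ t : k, t ≠ 0 → (fun x => (cv x).eval t) ∈ Zset k n d ∧
      finrank k (tanR c1) ≤ finrank k (tanR (fun x => (cv x).eval t)) := by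
    intro t ht
    let Dg : Matrix (Fin d) (Fin d) k := Matrix.diagonal fun s => t ^ (phi w (mon s))
    let Di : Matrix (Fin d) (Fin d) k := Matrix.diagonal fun s => (t ^ (phi w (mon s)))⁻¹
    have hDD' : Dg * Di = 1 := by
      rw [Matrix.diagonal_mul_diagonal]
      rw [← Matrix.diagonal_one]
      congr 1
      funext s
      exact mul_inv_cancel₀ (pow_ne_zero _ ht)
    let g : Matrix (Fin n) (Fin n) k := Matrix.diagonal fun i => t ^ (w i)
    let g' : Matrix (Fin n) (Fin n) k := Matrix.diagonal fun i => (t ^ (w i))⁻¹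
    have hgg : g' * g = 1 := by
      rw [Matrix.diagonal_mul_diagonal]
      rw [← Matrix.diagonal_one]
      congr 1
      funext s
      exact inv_mul_cancel₀ (pow_ne_zero _ ht)
    obtain ⟨h3, h4⟩ := tanR_push (fun b hb => glL_Rset hgg hb) (glL_injective hgg) h1
    obtain ⟨h5, h6⟩ := tanR_push (fun b hb => conjL_Rset hDD' hb) (conjL_injective hDD') h3
    have e1 : conjL Dg Di (glL g c1) = fun x => (cv x).eval t := by
      rw [hcv, conjL_apply]
      congr 1
      · funext i
        have h7 : mats (glL g c1) i = t ^ (w i) • A' i := by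
          rw [mats_glL, Finset.sum_eq_single i]
          · show Matrix.diagonal _ i i • A' i = _
            rw [Matrix.diagonal_apply_eq]
          · intro j _ hj
            show Matrix.diagonal _ i j • _ = _
            rw [Matrix.diagonal_apply_ne _ hj.symm, zero_smul]
          · intro h; exact absurd (Finset.mem_univ i) h
        rw [h7]
        ext r s
        rw [Matrix.mul_diagonal, Matrix.diagonal_mul, Matrix.smul_apply, smul_eq_mul,
          Matrix.of_apply]
        by_cases hz : A' i r s = 0
        · rw [hz]; simp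
        · have h1 := hsupp i r s hz
          have h2 : ex i r s + phi w (mon r) = phi w (mon s) + w i := by
            show phi w (mon s) + w i - phi w (mon r) + phi w (mon r) = _
            omega
          have h3 : t ^ (ex i r s) * t ^ (phi w (mon r)) = t ^ (phi w (mon s)) * t ^ (w i) := by
            rw [← pow_add, ← pow_add, h2]
          have h4 : t ^ (phi w (mon r)) ≠ 0 := pow_ne_zero _ ht
          have h5 : t ^ (ex i r s) = t ^ (w i) * t ^ (phi w (mon s)) * (t ^ (phi w (mon r)))⁻¹ := by
            rw [eq_mul_inv_iff_mul_eq₀ h4, h3, mul_comm]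
          rw [h5]
          ring
      · show Di *ᵥ V0 k mon 0 = V0 k mon 0
        funext r
        rw [Matrix.mulVec_diagonal, V0_apply]
        by_cases h7 : mon r = 0
        · rw [if_pos h7, h7]
          simp [phi]
        · rw [if_neg h7, mul_zero]
    rw [e1] at h5 h6
    exact ⟨h5, h4.trans h6⟩
  have hne : ∀ᶠ t : k in Filter.cofinite, t ≠ 0 := Filter.eventually_cofinite_ne 0
  constructor
  · rw [← h0]
    apply Zset_of_curve cv
    filter_upwards [hne] with t ht
    exact (key t ht).1
  · obtain ⟨t, ht1, ht2⟩ := ((tanR_semicont cv).and hne).exists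
    rw [h0] at ht1
    exact h2.trans ((key t ht2).2.trans ht1)

end Pool.Agent.Hilb61
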