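import Pool.Agent.Helper61.HilbFr2

/-!
# The dimension of the smoothable component: algebraic dependence of chart coordinates
-/

open MvPolynomial Module Matrix

namespace Pool.Agent.Hilb61

universe u

variable {k : Type u} [Field k] {n d : ℕ}

/-- More than `#τ` rational functions in the variables `τ` are algebraically dependent. -/
lemma exists_dep {ι τ : Type} [Fintype ι] [Fintype τ] (P : ι → MvPolynomial τ k)
    {D : MvPolynomial τ k} (hD : D ≠ 0) (hcard : Fintype.card τ < Fintype.card ι) :
    ∃ Q : MvPolynomial ι k, Q ≠ 0 ∧ ∀ y : τ → k, eval y D ≠ 0 →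
      eval (fun i => eval y (P i) / eval y D) Q = 0 := by
  classical
  let R := MvPolynomial τ k
  let K := FractionRing R
  let φ : τ → K := fun x => algebraMap R K (X x)
  have hφ : ∀ f : R, aeval φ f = algebraMap R K f := by
    intro f
    have : aeval φ = (IsScalarTower.toAlgHom k R K) := by
      apply MvPolynomial.algHom_ext
      intro i
      rw [aeval_X]
      rfl
    rw [this]
    rfl
  have hD' : algebraMap R K D ≠ 0 := by
    intro h
    exact hD ((IsFractionRing.injective R K) (h.trans (map_zero _).symm))
  let z : ι → K := fun i => algebraMap R K (P i) * (algebraMap R K D)⁻¹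
  have hdep : ¬ AlgebraicIndependent k z := by
    intro hind
    have h1 := hind.lift_cardinalMk_le_trdeg
    have h2 : Algebra.trdeg k R + Algebra.trdeg R K = Algebra.trdeg k K := trdeg_add_eq k R (A := K)
    have halg : Algebra.IsAlgebraic R K := IsLocalization.isAlgebraic K (nonZeroDivisors R)
    have h3 : Algebra.trdeg R K = 0 := trdeg_eq_zero
    rw [h3, add_zero, MvPolynomial.trdeg_of_isDomain] at h2
    rw [← h2] at h1
    simp only [Cardinal.mk_fintype, Cardinal.lift_natCast] at h1
    have h4 : Fintype.card ι ≤ Fintype.card τ := by exact_mod_cast h1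
    omega
  obtain ⟨Q, hQ0, hQ⟩ : ∃ Q : MvPolynomial ι k, aeval z Q = 0 ∧ Q ≠ 0 := by
    rw [algebraicIndependent_iff] at hdep
    push Not at hdep
    exact hdep
  refine ⟨Q, hQ, ?_⟩
  obtain ⟨N, h, hN⟩ := exists_clear_alg (k := k) P D Q
  have h1 := hN K φ (algebraMap R K D)⁻¹ (by rw [hφ]; exact mul_inv_cancel₀ hD')
  have h2 : (fun x => aeval φ (P x) * (algebraMap R K D)⁻¹) = z := by
    funext i
    rw [hφ]
  rw [h2, hQ0, mul_zero, hφ] at h1
  have h3 : h = 0 := (IsFractionRing.injective R K) (h1.trans (map_zero _).symm)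
  intro y hy
  have h4 := hN k y (eval y D)⁻¹ (by rw [aeval_self]; exact mul_inv_cancel₀ hy)
  rw [h3, map_zero, aeval_self, aeval_self] at h4
  have h5 : (fun x => aeval y (P x) * (eval y D)⁻¹) = fun i => eval y (P i) / eval y D := by
    funext i
    rw [aeval_self, div_eq_mul_inv]
  rw [h5] at h4
  exact (mul_eq_zero.mp h4.symm).resolve_left (pow_ne_zero _ hy)

/-- The generic evaluation matrix. -/
noncomputable def genU (lam : Fin d → MvPolynomial (Fin n) k) :
    Matrix (Fin d) (Fin d) (MvPolynomial (Fin d × Fin n) k) :=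
  Matrix.of fun a s => aeval (fun i => (X (a, i) : MvPolynomial (Fin d × Fin n) k)) (lam s)

lemma eval_genU (lam : Fin d → MvPolynomial (Fin n) k) (p : Fin d → Fin n → k) :
    (genU lam).map (eval (fun x : Fin d × Fin n => p x.1 x.2)) =
      Matrix.of fun a s => eval (p a) (lam s) := by
  ext a s
  rw [Matrix.map_apply]
  show eval _ (aeval _ (lam s)) = eval (p a) (lam s)
  have := (MvPolynomial.comp_aeval (φ := aeval (R := k) (fun x : Fin d × Fin n => p x.1 x.2))
    (fun i => (X (a, i) : MvPolynomial (Fin d × Fin n) k)))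
  have h2 := congrArg (fun φ => φ (lam s)) this
  simp only [AlgHom.comp_apply, aeval_X] at h2
  rw [aeval_self, aeval_self] at h2
  exact h2

/-- The evaluation matrix of a reduced scheme in a chart is invertible. -/
lemma chart_eval {p : Fin d → Fin n → k} {lam : Fin d → MvPolynomial (Fin n) k}
    {c : Coord n d → k} (h : IsCoord lam (vanishingIdeal k (Set.range p)) c) :
    (Matrix.of fun a s => eval (p a) (lam s) : Matrix (Fin d) (Fin d) k).det ≠ 0 ∧
      ∀ i, Matrix.diagonal (fun a => p a i) * (Matrix.of fun a s => eval (p a) (lam s)) =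
        (Matrix.of fun a s => eval (p a) (lam s)) * mats c i := by
  set U : Matrix (Fin d) (Fin d) k := Matrix.of fun a s => eval (p a) (lam s) with hU
  have hinj : Function.Injective U.mulVec := by
    have : Function.Injective (Matrix.toLin' U) := by
      rw [← LinearMap.ker_eq_bot, LinearMap.ker_eq_bot']
      intro x hx
      have hx' : ∀ a, (U *ᵥ x) a = 0 := fun a => congrFun hx a
      rw [← coef_sum_lam h x]
      apply (coef_eq_zero h _).mpr
      rintro _ ⟨a, rfl⟩
      rw [aeval_self, map_sum]
      refine Eq.trans ?_ (hx' a)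
      rw [mulVec, dotProduct]
      apply Finset.sum_congr rfl
      intro s _
      rw [map_mul, eval_C, mul_comm]
      rfl
    exact this
  rw [Matrix.mulVec_injective_iff_isUnit] at hinj
  refine ⟨((Matrix.isUnit_iff_isUnit_det _).mp hinj).ne_zero, fun i => ?_⟩
  ext a s
  rw [Matrix.diagonal_mul, Matrix.mul_apply]
  have h1 := h.2.1 i s (p a) ⟨a, rfl⟩
  rw [aeval_self, map_sub, map_mul, eval_X, map_sum, sub_eq_zero] at h1
  refine h1.trans ?_
  apply Finset.sum_congr rfl
  intro r _
  rw [map_mul, eval_C, mul_comm]
  rfl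

/-- **Chart coordinates of reduced schemes are algebraically dependent** if there are more than
`nd` of them. -/
theorem exists_dep_coord (lam : Fin d → MvPolynomial (Fin n) k) {ι : Type} [Fintype ι]
    (y : ι → Fin n × Fin d × Fin d) (hcard : n * d < Fintype.card ι) :
    ∃ Q : MvPolynomial ι k, Q ≠ 0 ∧ rename (fun i => (Sum.inl (y i) : Coord n d)) Q ∈ eqns lam := by
  classical
  have hdet : ∀ p : Fin d → Fin n → k, eval (fun x : Fin d × Fin n => p x.1 x.2) (genU lam).det =
      (Matrix.of fun a s => eval (p a) (lam s) : Matrix (Fin d) (Fin d) k).det := by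
    intro p
    have h4 : eval (fun x : Fin d × Fin n => p x.1 x.2) (genU lam).det =
        ((genU lam).map (eval (fun x : Fin d × Fin n => p x.1 x.2))).det :=
      RingHom.map_det _ _
    rw [h4, eval_genU]
  by_cases hD : (genU lam).det = 0
  · have : Nonempty ι := by
      rw [← Fintype.card_pos_iff]
      omega
    refine ⟨1, one_ne_zero, ?_⟩
    intro p hp c hc
    exfalso
    apply (chart_eval hc).1
    rw [← hdet, hD, map_zero]
  · let τ := Fin d × Fin n
    let P : ι → MvPolynomial τ k := fun i =>
      ∑ a, (genU lam).adjugate (y i).2.1 a * (X (a, (y i).1) * genU lam a (y i).2.2)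
    obtain ⟨Q, hQ, hQ'⟩ := exists_dep P hD (by
      rw [Fintype.card_prod, Fintype.card_fin, Fintype.card_fin, mul_comm]
      exact hcard)
    refine ⟨Q, hQ, ?_⟩
    intro p hp c hc
    obtain ⟨h1, h2⟩ := chart_eval hc
    have h3 := hQ' (fun x : Fin d × Fin n => p x.1 x.2) (by rw [hdet]; exact h1)
    rw [eval_rename]
    have h4 : (c ∘ fun i => (Sum.inl (y i) : Coord n d)) = fun i =>
        eval (fun x : Fin d × Fin n => p x.1 x.2) (P i) /
          eval (fun x : Fin d × Fin n => p x.1 x.2) (genU lam).det := by
      funext i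
      rw [hdet, eq_div_iff h1]
      set U : Matrix (Fin d) (Fin d) k := Matrix.of fun a s => eval (p a) (lam s) with hU
      have h5 : U.adjugate * (Matrix.diagonal (fun a => p a (y i).1) * U) =
          U.det • mats c (y i).1 := by
        rw [h2, ← Matrix.mul_assoc, Matrix.adjugate_mul, Matrix.smul_mul, Matrix.one_mul]
      have h6 := congrFun (congrFun h5 (y i).2.1) (y i).2.2
      rw [Matrix.mul_apply] at h6
      simp only [Matrix.diagonal_mul] at h6
      have h7 : (U.det • mats c (y i).1) (y i).2.1 (y i).2.2 =
          (c ∘ fun i => (Sum.inl (y i) : Coord n d)) i * U.det := mul_comm _ _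
      rw [h7] at h6
      rw [← h6]
      have h8 : ∀ r a, U.adjugate r a = eval (fun x : Fin d × Fin n => p x.1 x.2)
          ((genU lam).adjugate r a) := by
        intro r a
        have h9 := RingHom.map_adjugate (eval (fun x : Fin d × Fin n => p x.1 x.2)) (genU lam)
        have h10 : (eval (fun x : Fin d × Fin n => p x.1 x.2)).mapMatrix (genU lam) = U := by
          rw [RingHom.mapMatrix_apply]
          exact eval_genU lam p
        rw [h10] at h9
        rw [← h9]
        rfl
      have h9 : ∀ a s, U a s = eval (fun x : Fin d × Fin n => p x.1 x.2) (genU lam a s) := by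
        intro a s
        have h10 := congrFun (congrFun (eval_genU lam p) a) s
        exact h10.symm
      simp only [P, map_sum, map_mul, eval_X]
      apply Finset.sum_congr rfl
      intro a _
      rw [h8, h9]
    rw [h4]
    exact h3

end Pool.Agent.Hilb61
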