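import Pool.Agent.Helper61.HilbSC

open Module Matrix

namespace Pool.Agent.Hilb61

variable {k : Type*} [Field k] {ι : Type*} {m : ℕ}

/-- The matrix unit `E_{i+1,0}`. -/
def eps (k : Type*) [Field k] {m : ℕ} (i : Fin m) : Matrix (Fin (m + 1)) (Fin (m + 1)) k :=
  Matrix.of fun r s => if r = i.succ ∧ s = 0 then 1 else 0

lemma eps_mul_apply (i : Fin m) (B : Matrix (Fin (m + 1)) (Fin (m + 1)) k) (r s : Fin (m + 1)) :
    (eps k i * B) r s = if r = i.succ then B 0 s else 0 := by
  rw [Matrix.mul_apply]
  by_cases h : r = i.succ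
  · simp [eps, h]
  · simp [eps, h]

lemma mul_eps_apply (i : Fin m) (B : Matrix (Fin (m + 1)) (Fin (m + 1)) k) (r s : Fin (m + 1)) :
    (B * eps k i) r s = if s = 0 then B r i.succ else 0 := by
  rw [Matrix.mul_apply]
  by_cases h : s = 0
  · simp [eps, h]
  · simp [eps, h]

/-- Parameters of `ZC ε`. -/
abbrev Params (k : Type*) (m : ℕ) : Type _ :=
  (Fin m → k) × (Fin m → Fin m → k) × (Fin m → Sym2 (Fin m) → k)

/-- The parametrisation of `ZC ε`. -/
def toB (k : Type*) [Field k] (m : ℕ) :
    Params k m →ₗ[k] (Fin m → Matrix (Fin (m + 1)) (Fin (m + 1)) k) where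
  toFun p j := Matrix.of fun r s =>
    Fin.cases (motive := fun _ => k) (Fin.cases (motive := fun _ => k) (p.1 j) (fun _ => 0) s)
      (fun r' => Fin.cases (motive := fun _ => k) (p.2.1 j r')
        (fun s' => p.2.2 r' s(s', j) + if r' = s' then p.1 j else 0) s) r
  map_add' := by
    intro p q
    funext j
    ext r s
    refine Fin.cases ?_ (fun r' => ?_) r <;> refine Fin.cases ?_ (fun s' => ?_) s
    · simp
    · simp
    · simp
    · by_cases h : r' = s'
      · simp [h]; ring
      · simp [h]
  map_smul' := by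
    intro c p
    funext j
    ext r s
    refine Fin.cases ?_ (fun r' => ?_) r <;> refine Fin.cases ?_ (fun s' => ?_) s
    · simp
    · simp
    · simp
    · by_cases h : r' = s'
      · simp [h]; ring
      · simp [h]

@[simp] lemma toB_00 (p : Params k m) (j : Fin m) : toB k m p j 0 0 = p.1 j := rfl
@[simp] lemma toB_0s (p : Params k m) (j : Fin m) (s : Fin m) : toB k m p j 0 s.succ = 0 := rfl
@[simp] lemma toB_r0 (p : Params k m) (j : Fin m) (r : Fin m) :
    toB k m p j r.succ 0 = p.2.1 j r := rfl
@[simp] lemma toB_rs (p : Params k m) (j : Fin m) (r s : Fin m) :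
    toB k m p j r.succ s.succ = p.2.2 r s(s, j) + if r = s then p.1 j else 0 := rfl

lemma mem_ZC_eps {B : Fin m → Matrix (Fin (m + 1)) (Fin (m + 1)) k} :
    B ∈ ZC (eps k) ↔ ∀ i j r s,
      (if r = i.succ then B j 0 s else 0) - (if s = 0 then B j r i.succ else 0) =
      (if r = j.succ then B i 0 s else 0) - (if s = 0 then B i r j.succ else 0) := by
  rw [mem_ZC]
  constructor
  · intro h i j r s
    have := congrFun (congrFun (h i j) r) s
    simp only [Matrix.sub_apply, eps_mul_apply, mul_eps_apply] at this
    exact this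
  · intro h i j
    ext r s
    simp only [Matrix.sub_apply, eps_mul_apply, mul_eps_apply]
    exact h i j r s

lemma toB_injective : Function.Injective (toB k m) := by
  intro p q h
  have hb : p.1 = q.1 := by
    funext j
    have := congrFun (congrFun (congrFun h j) 0) 0
    exact this
  refine Prod.ext hb (Prod.ext ?_ ?_)
  · funext j r
    have := congrFun (congrFun (congrFun h j) r.succ) 0
    exact this
  · funext r z
    induction z using Sym2.ind with
    | _ s j =>
    have := congrFun (congrFun (congrFun h j) r.succ) s.succ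
    simp only [toB_rs, hb] at this
    exact add_right_cancel this

lemma toB_mem (p : Params k m) : toB k m p ∈ ZC (eps k) := by
  rw [mem_ZC_eps]
  intro i j r s
  refine Fin.cases ?_ (fun r' => ?_) r <;> refine Fin.cases ?_ (fun s' => ?_) s
  · simp [(Fin.succ_ne_zero _).symm]
  · simp [(Fin.succ_ne_zero _).symm]
  · simp only [Fin.succ_inj, toB_00, if_true, toB_rs]
    rw [Sym2.eq_swap (a := i) (b := j)]
    ring
  · simp

lemma mem_range_toB (hm : 2 ≤ m) {B : Fin m → Matrix (Fin (m + 1)) (Fin (m + 1)) k}
    (hB : B ∈ ZC (eps k)) : B ∈ LinearMap.range (toB k m) := by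
  rw [mem_ZC_eps] at hB
  have h0 : ∀ j s, B j 0 (Fin.succ s) = 0 := by
    intro j s
    obtain ⟨i, hi⟩ : ∃ i : Fin m, i ≠ j := by
      have : Nontrivial (Fin m) := Fin.nontrivial_iff_two_le.mpr hm
      exact exists_ne j
    have := hB i j i.succ s.succ
    simpa [Fin.succ_ne_zero, hi] using this
  have hsym : ∀ r i j : Fin m, B j r.succ i.succ - (if r = i then B j 0 0 else 0) =
      B i r.succ j.succ - (if r = j then B i 0 0 else 0) := by
    intro r i j
    have := hB i j r.succ 0
    simp only [Fin.succ_inj, if_true] at this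
    linear_combination -this
  refine ⟨(fun j => B j 0 0, fun j r => B j r.succ 0,
    fun r z => Sym2.lift ⟨fun i j => B j r.succ i.succ - (if r = i then B j 0 0 else 0),
      fun i j => hsym r i j⟩ z), ?_⟩
  funext j
  ext r s
  refine Fin.cases ?_ (fun r' => ?_) r <;> refine Fin.cases ?_ (fun s' => ?_) s
  · rfl
  · rw [toB_0s, h0]
  · rfl
  · rw [toB_rs]
    simp

theorem finrank_ZC_eps (hm : 2 ≤ m) :
    finrank k (ZC (eps k (m := m))) = m + m ^ 2 + m * (m + 1).choose 2 := by
  have h1 : LinearMap.range (toB k m) = ZC (eps k) := by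
    apply le_antisymm
    · rintro _ ⟨p, rfl⟩
      exact toB_mem p
    · intro B hB
      exact mem_range_toB hm hB
  rw [← h1, LinearMap.finrank_range_of_inj toB_injective]
  simp only [Module.finrank_prod, Module.finrank_pi_fintype, Module.finrank_self, Sym2.card,
    Finset.sum_const, Finset.card_univ, Fintype.card_fin, smul_eq_mul, mul_one]
  ring

/-- The commutator map whose kernel is `ZC A`. -/
def commL {κ : Type*} [Fintype κ] [DecidableEq κ] (A : ι → Matrix κ κ k) :
    (ι → Matrix κ κ k) →ₗ[k] (ι → ι → Matrix κ κ k) where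
  toFun B i j := (A i * B j - B j * A i) - (A j * B i - B i * A j)
  map_add' := by
    intro B C
    funext i j
    simp only [Pi.add_apply]
    noncomm_ring
  map_smul' := by
    intro c B
    funext i j
    simp only [Pi.smul_apply, mul_smul_comm, smul_mul_assoc, smul_sub, RingHom.id_apply]

lemma ker_commL {κ : Type*} [Fintype κ] [DecidableEq κ] (A : ι → Matrix κ κ k) :
    LinearMap.ker (commL A) = ZC A := by
  ext B
  rw [LinearMap.mem_ker, mem_ZC]
  constructor
  · intro h i j
    have := congrFun (congrFun h i) j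
    exact sub_eq_zero.mp this
  · intro h
    funext i j
    exact sub_eq_zero.mpr (h i j)

lemma commL_quad {κ : Type*} [Fintype κ] [DecidableEq κ] (A0 A1 A2 : ι → Matrix κ κ k) (t : k) :
    commL (fun i => A0 i + t • A1 i + t ^ 2 • A2 i) =
      commL A0 + t • commL A1 + t ^ 2 • commL A2 := by
  ext B i j : 3
  simp only [commL, LinearMap.coe_mk, AddHom.coe_mk, LinearMap.add_apply, LinearMap.smul_apply,
    Pi.add_apply, Pi.smul_apply, add_mul, mul_add, smul_mul_assoc, mul_smul_comm, smul_sub]
  abel

/-- Semicontinuity of `ZC` along a quadratic family. -/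
theorem ZC_semicont [Infinite k] {κ : Type*} [Fintype κ] [DecidableEq κ] [Finite ι]
    (A0 A1 A2 : ι → Matrix κ κ k) :
    ∀ᶠ t : k in Filter.cofinite,
      finrank k (ZC (fun i => A0 i + t • A1 i + t ^ 2 • A2 i)) ≤ finrank k (ZC A0) := by
  have := Fintype.ofFinite ι
  filter_upwards [rank_semicont (commL A0) (commL A1) (commL A2)] with t ht
  have h1 := LinearMap.finrank_range_add_finrank_ker (commL A0)
  have h2 := LinearMap.finrank_range_add_finrank_ker
    (commL (fun i => A0 i + t • A1 i + t ^ 2 • A2 i))
  rw [ker_commL] at h1 h2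
  rw [commL_quad] at h2
  omega

end Pool.Agent.Hilb61
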