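import Pool.Agent.Helper61.HilbPow5

/-!
# Components through `𝔪^r`
-/

open MvPolynomial Module Matrix TopologicalSpace

namespace Pool.Agent.Hilb61

universe u

variable {k : Type u} [Field k] {n d r : ℕ}

section comp

variable {mon : Fin d → (Fin n →₀ ℕ)} (hm : IsEnum r mon)

include hm in
lemma Lt_Cset (hr : 1 ≤ r) {I : Ideal (MvPolynomial (Fin n) k)} {c : Coord n d → k}
    (h : IsCoord (lamD k mon) I c) {t : k} (ht : t ≠ 0) : Lt r mon t c ∈ Cset k n d := by
  let D : Matrix (Fin d) (Fin d) k := Matrix.diagonal fun s => t ^ (mon s).degree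
  let D' : Matrix (Fin d) (Fin d) k := Matrix.diagonal fun s => (t ^ (mon s).degree)⁻¹
  have hDD' : D * D' = 1 := by
    simp only [D, D', diagonal_mul_diagonal]
    rw [← diagonal_one]
    congr 1
    funext s
    exact mul_inv_cancel₀ (pow_ne_zero _ ht)
  have hD'D : D' * D = 1 := mul_eq_one_comm.mp hDD'
  have hmats : ∀ l, mats (Lt r mon t c) l = t • (D' * mats c l * D) := by
    intro l
    ext r' s
    have h1 : mats (Lt r mon t c) l r' s =
      (if (mon s).degree + 1 = r then t ^ (r - (mon r').degree) else 1) *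
        c (Sum.inl (l, r', s)) := rfl
    rw [h1, Matrix.smul_apply, smul_eq_mul]
    simp only [D, D', Matrix.mul_diagonal, Matrix.diagonal_mul, mats_apply]
    have h2 := hm.lt r'
    have hp := pow_ne_zero (mon r').degree ht
    by_cases hs : (mon s).degree + 1 = r
    · rw [if_pos hs]
      have h3 : t ^ (r - (mon r').degree) * t ^ (mon r').degree = t ^ (mon s).degree * t := by
        rw [← pow_add, ← pow_succ]
        congr 1
        omega
      have h4 : t ^ (r - (mon r').degree) = t ^ (mon s).degree * t * (t ^ (mon r').degree)⁻¹ := by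
        rw [← h3, mul_assoc, mul_inv_cancel₀ hp, mul_one]
      rw [h4]
      ring
    · have h5 := hm.lt s
      rw [if_neg hs, coord_low hm h l r' s (by omega)]
      split_ifs with h6
      · rw [h6, degree_add_single]
        have := pow_ne_zero (mon s).degree ht
        field_simp
        rw [pow_succ, mul_comm]
      · ring
  have hvect : vect (Lt r mon t c) = D' *ᵥ vect c := by
    funext r'
    have h1 : vect (Lt r mon t c) r' = c (Sum.inr r') := rfl
    rw [h1]
    simp only [D', mulVec_diagonal, vect_apply]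
    rw [coord_vect hm hr h r']
    split_ifs with h6
    · rw [h6]; simp
    · ring
  refine ⟨?_, ?_⟩
  · intro i j
    rw [hmats, hmats]
    have key : ∀ X Y : Matrix (Fin d) (Fin d) k, D' * X * D * (D' * Y * D) = D' * (X * Y) * D := by
      intro X Y
      calc D' * X * D * (D' * Y * D) = D' * X * (D * D') * Y * D := by noncomm_ring
        _ = _ := by rw [hDD']; noncomm_ring
    rw [smul_mul_smul_comm, smul_mul_smul_comm, key, key, coords_comm h]
  · rw [hvect]
    have hcyc := (coords_cyclic h).conj hDD' hD'D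
    intro W h0 hW
    apply hcyc W h0
    intro i w hw
    have h1 := hW i w hw
    rw [hmats, smul_mulVec] at h1
    have h2 := W.smul_mem t⁻¹ h1
    rwa [smul_smul, inv_mul_cancel₀ ht, one_smul] at h2

/-- the curve of scalings -/
noncomputable def cvL (r : ℕ) (mon : Fin d → (Fin n →₀ ℕ)) (c : Coord n d → k) :
    Coord n d → Polynomial k := Sum.elim
    (fun x => (if (mon x.2.2).degree + 1 = r then
      Polynomial.X ^ (r - (mon x.2.1).degree) else 1) * Polynomial.C (c (Sum.inl x)))
    (fun r' => Polynomial.C (c (Sum.inr r')))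

lemma cvL_eval (c : Coord n d → k) (t : k) :
    (fun x => (cvL r mon c x).eval t) = Lt r mon t c := by
  funext x
  rcases x with ⟨l, r', s⟩ | r'
  · rw [Lt_inl]
    simp only [cvL, Sum.elim_inl, Polynomial.eval_mul, Polynomial.eval_C]
    split_ifs <;> simp
  · rw [Lt_inr]
    simp only [cvL, Sum.elim_inr, Polynomial.eval_C]

lemma Lt_one (c : Coord n d → k) : Lt r mon 1 c = c := by
  funext x
  rcases x with ⟨l, r', s⟩ | r'
  · rw [Lt_inl]
    simp
  · rw [Lt_inr]

include hm in
/-- `𝔪^r` is in the closure of every open set which meets its chart. -/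
theorem xpow_mem_closure [Infinite k] (hr : 1 ≤ r) {o : Set (Hilb k n d)} (ho : IsOpen o)
    {x : Hilb k n d} (hxo : x ∈ o) {c : Coord n d → k} (h : IsCoord (lamD k mon) x.1 c) :
    xpow (k := k) hm hr ∈ closure o := by
  rw [mem_closure_iff]
  intro U hU hxU
  have h0 : (fun x => (cvL r mon c x).eval 0) = c00 k mon := by
    rw [cvL_eval, Lt_zero hm hr h]
  have h1 : (fun x => (cvL r mon c x).eval 1) = c := by rw [cvL_eval, Lt_one]
  have hc0 : (fun x => (cvL r mon c x).eval 0) ∈ Cset k n d := by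
    rw [h0]; exact (isCoord_pow (k := k) hm hr).mem_Cset
  have hc1 : (fun x => (cvL r mon c x).eval 1) ∈ Cset k n d := by
    rw [h1]; exact h.mem_Cset
  have e0 : toHilb ⟨_, hc0⟩ = xpow (k := k) hm hr := by
    rw [← toHilb_eq (x := xpow (k := k) hm hr) (isCoord_pow (k := k) hm hr)]
    congr 1
    exact Subtype.ext h0
  have e1 : toHilb ⟨_, hc1⟩ = x := by
    rw [← toHilb_eq h]
    congr 1
    exact Subtype.ext h1
  have g0 := curve_open hU (cvL r mon c) 0 hc0 (by rw [e0]; exact hxU)
  have g1 := curve_open ho (cvL r mon c) 1 hc1 (by rw [e1]; exact hxo)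
  obtain ⟨t, ⟨ht1, ht2⟩, ht0⟩ :=
    ((g0.and g1).and (Filter.eventually_cofinite_ne (0 : k))).exists
  have hct : (fun x => (cvL r mon c x).eval t) ∈ Cset k n d := by
    rw [cvL_eval]; exact Lt_Cset hm hr h ht0
  exact ⟨_, ht1 hct, ht2 hct⟩

include hm in
/-- `𝔪^r` lies on every irreducible component which meets its chart. -/
theorem xpow_mem_component [Infinite k] (hr : 1 ≤ r) {Z : Set (Hilb k n d)}
    (hZ : Z ∈ irreducibleComponents (Hilb k n d)) {x : Hilb k n d} (hxZ : x ∈ Z)
    {c : Coord n d → k} (h : IsCoord (lamD k mon) x.1 c) : xpow (k := k) hm hr ∈ Z := by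
  obtain ⟨o, ho, hne, hoZ⟩ :=
    NoetherianSpace.exists_isOpen_nonempty_subset_irreducibleComponent Z hZ
  let V : Set (Hilb k n d) := {x | ∃ c, IsCoord (lamD k mon) x.1 c ∧
    eval c (1 : MvPolynomial (Coord n d) k) ≠ 0}
  have hV : IsOpen V := TopologicalSpace.isOpen_generateFrom_of_mem ⟨lamD k mon, 1, rfl⟩
  have hxV : x ∈ V := ⟨c, h, by rw [map_one]; exact one_ne_zero⟩
  have hirr : IsPreirreducible Z := hZ.1.2
  obtain ⟨y, hy⟩ := hne
  obtain ⟨z, hzZ, hzo, hzV⟩ := hirr o V ho hV ⟨y, hoZ hy, hy⟩ ⟨x, hxZ, hxV⟩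
  obtain ⟨c', hc', -⟩ := hzV
  exact (isClosed_of_mem_irreducibleComponents Z hZ).closure_subset_iff.mpr hoZ
    (xpow_mem_closure hm hr ho hzo hc')

end comp

end Pool.Agent.Hilb61
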