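import Pool.Agent.Helper61.HilbDim
import Pool.Agent.Helper61.HilbStab
import Pool.Agent.Helper61.HilbPow6

/-!
# Linear families through monomial points and other components
-/

open MvPolynomial Module Matrix TopologicalSpace

namespace Pool.Agent.Hilb61

universe u

variable {k : Type u} [Field k] {n d : ℕ}

/-- Admissible pair: `K` is a set of socle monomials, `Gn` a set of minimal generators, such that
no element of `Gn` is a multiple of an element of `K`. -/
structure Adm (mon : Fin d → (Fin n →₀ ℕ)) (K : Finset (Fin d)) (Gn : Finset (Fin n →₀ ℕ)) :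
    Prop where
  soc : ∀ a ∈ K, ∀ (l : Fin n) (r : Fin d), mon r ≠ mon a + Finsupp.single l 1
  out : ∀ g ∈ Gn, ∀ r, mon r ≠ g
  min : ∀ g ∈ Gn, ∀ (i : Fin n) (B : Fin n →₀ ℕ), B + Finsupp.single i 1 = g → ∃ r, mon r = B
  sep : ∀ a ∈ K, ∀ l : Fin n, mon a + Finsupp.single l 1 ∉ Gn

open Classical in
/-- The class of a monomial in the family. -/
noncomputable def XF (mon : Fin d → (Fin n →₀ ℕ)) (K : Finset (Fin d))
    (Gn : Finset (Fin n →₀ ℕ)) (φ : (Fin n →₀ ℕ) → Fin d → k) (E : Fin n →₀ ℕ) : Fin d → k :=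
  fun r => if E ∈ Gn then (if r ∈ K then φ E r else 0) else V0 k mon E r

/-- The matrices of the family. -/
noncomputable def AF (mon : Fin d → (Fin n →₀ ℕ)) (K : Finset (Fin d))
    (Gn : Finset (Fin n →₀ ℕ)) (φ : (Fin n →₀ ℕ) → Fin d → k) (i : Fin n) :
    Matrix (Fin d) (Fin d) k :=
  Matrix.of fun r s => XF mon K Gn φ (mon s + Finsupp.single i 1) r

/-- The framed tuples of the family. -/
noncomputable def cF (mon : Fin d → (Fin n →₀ ℕ)) (K : Finset (Fin d))
    (Gn : Finset (Fin n →₀ ℕ)) (φ : (Fin n →₀ ℕ) → Fin d → k) : Coord n d → k :=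
  mk (AF mon K Gn φ) (XF mon K Gn φ 0)

lemma finsupp_induct {P : (Fin n →₀ ℕ) → Prop} (h0 : P 0)
    (h1 : ∀ B i, P B → P (B + Finsupp.single i 1)) : ∀ B, P B := by
  intro B
  induction hm : B.degree using Nat.strong_induction_on generalizing B with
  | _ m ih =>
    by_cases hB : B = 0
    · rw [hB]; exact h0
    · obtain ⟨i, hi⟩ : ∃ i, B i ≠ 0 := by
        by_contra hc
        push Not at hc
        exact hB (Finsupp.ext hc)
      have h2 := sub_add_single (s := B) (i := i) (by omega)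
      rw [← h2]
      apply h1
      refine ih _ ?_ _ rfl
      have h3 := congrArg Finsupp.degree h2
      rw [map_add, Finsupp.degree_single] at h3
      omega

variable {mon : Fin d → (Fin n →₀ ℕ)} {K : Finset (Fin d)} {Gn : Finset (Fin n →₀ ℕ)}

lemma XF_mon (hA : Adm mon K Gn) (h : IsOrd mon) (φ : (Fin n →₀ ℕ) → Fin d → k) (s : Fin d) :
    XF mon K Gn φ (mon s) = Pi.single s 1 := by
  classical
  funext r
  rw [XF, if_neg (fun hs => hA.out _ hs s rfl), V0_apply, Pi.single_apply]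
  simp only [h.inj.eq_iff]

lemma XF_mul (hA : Adm mon K Gn) (h : IsOrd mon) (φ : (Fin n →₀ ℕ) → Fin d → k)
    (E : Fin n →₀ ℕ) (i : Fin n) :
    XF mon K Gn φ (E + Finsupp.single i 1) = AF mon K Gn φ i *ᵥ XF mon K Gn φ E := by
  classical
  by_cases hE : ∃ s, mon s = E
  · obtain ⟨s, rfl⟩ := hE
    rw [XF_mon hA h, mulVec_single_one]
    rfl
  · have h1 : XF mon K Gn φ (E + Finsupp.single i 1) = 0 := by
      funext r
      rw [XF, if_neg, V0_apply, if_neg]
      · rfl
      · intro h2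
        exact hE (h.low r i E h2.symm)
      · intro h2
        exact hE (hA.min _ h2 i E rfl)
    rw [h1]
    symm
    funext r
    show ∑ s, AF mon K Gn φ i r s * XF mon K Gn φ E s = 0
    apply Finset.sum_eq_zero
    intro s _
    by_cases hEG : E ∈ Gn
    · by_cases hs : s ∈ K
      · have h3 : AF mon K Gn φ i r s = 0 := by
          show XF mon K Gn φ (mon s + Finsupp.single i 1) r = 0
          rw [XF, if_neg (hA.sep s hs i), V0_apply, if_neg (hA.soc s hs i r)]
        rw [h3, zero_mul]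
      · have h3 : XF mon K Gn φ E s = 0 := by
          rw [XF, if_pos hEG, if_neg hs]
        rw [h3, mul_zero]
    · have h3 : XF mon K Gn φ E s = 0 := by
        rw [XF, if_neg hEG, V0_apply, if_neg (fun h' => hE ⟨s, h'⟩)]
      rw [h3, mul_zero]

lemma cF_mem (hA : Adm mon K Gn) (h : IsOrd mon) (φ : (Fin n →₀ ℕ) → Fin d → k) :
    cF mon K Gn φ ∈ Cset k n d := by
  refine ⟨fun i j => ?_, ?_⟩
  · show AF mon K Gn φ i * AF mon K Gn φ j = AF mon K Gn φ j * AF mon K Gn φ i
    apply Matrix.ext_of_mulVec_single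
    intro s
    rw [← mulVec_mulVec, ← mulVec_mulVec, ← XF_mon hA h φ s, ← XF_mul hA h, ← XF_mul hA h,
      ← XF_mul hA h, ← XF_mul hA h, add_right_comm]
  · intro W h1 hW
    have h1' : XF mon K Gn φ 0 ∈ W := h1
    have h2 : ∀ B, XF mon K Gn φ B ∈ W := by
      refine finsupp_induct (P := fun B => XF mon K Gn φ B ∈ W) h1' ?_
      intro B i hB
      rw [XF_mul hA h]
      exact hW i _ hB
    rw [eq_top_iff]
    intro x _
    rw [pi_eq_sum_univ' x]
    apply W.sum_mem
    intro s _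
    apply W.smul_mem
    rw [← XF_mon hA h φ s]
    exact h2 _

lemma evHom_XF (hA : Adm mon K Gn) (h : IsOrd mon) (φ : (Fin n →₀ ℕ) → Fin d → k) :
    ∀ B, evHom (mats (cF mon K Gn φ)) (cF_mem hA h φ).1 (monomial B 1) *ᵥ
      vect (cF mon K Gn φ) = XF mon K Gn φ B := by
  refine finsupp_induct (P := fun B => evHom (mats (cF mon K Gn φ)) (cF_mem hA h φ).1
    (monomial B 1) *ᵥ vect (cF mon K Gn φ) = XF mon K Gn φ B) ?_ ?_
  · have : (MvPolynomial.monomial (0 : Fin n →₀ ℕ) (1 : k)) = 1 := rfl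
    rw [this, map_one, one_mulVec]
    rfl
  · intro B i hB
    have h1 : (MvPolynomial.monomial (B + Finsupp.single i 1) (1 : k)) =
        MvPolynomial.X i * MvPolynomial.monomial B 1 := by
      rw [add_comm B, MvPolynomial.monomial_single_add, pow_one]
    rw [h1, map_mul, evHom_X, ← mulVec_mulVec, hB, XF_mul hA h]
    rfl

lemma isCoord_cF (hA : Adm mon K Gn) (h : IsOrd mon) (φ : (Fin n →₀ ℕ) → Fin d → k) :
    IsCoord (lamD k mon) (toHilb ⟨cF mon K Gn φ, cF_mem hA h φ⟩).1 (cF mon K Gn φ) := by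
  have h1 := isCoord_Jc (cF_mem hA h φ) (lam := lamD k mon) (g := 1) (g' := 1) (mul_one 1) (by
    intro s
    rw [lamD, evHom_XF hA h φ, XF_mon hA h, one_mulVec])
  have e : mk (fun i => 1 * mats (cF mon K Gn φ) i * 1) (1 *ᵥ vect (cF mon K Gn φ)) =
      cF mon K Gn φ := by
    simp only [Matrix.one_mul, Matrix.mul_one, one_mulVec]
    exact mk_eta _
  rw [e] at h1
  exact h1

/-- The family is affine in the parameters. -/
lemma cF_smul (φ : (Fin n →₀ ℕ) → Fin d → k) (t : k) :
    cF mon K Gn (t • φ) = cF mon K Gn 0 + t • (cF mon K Gn φ - cF mon K Gn 0) := by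
  classical
  have key : ∀ E r, XF mon K Gn (t • φ) E r =
      XF mon K Gn 0 E r + t * (XF mon K Gn φ E r - XF mon K Gn 0 E r) := by
    intro E r
    simp only [XF]
    split_ifs <;> simp
  funext x
  rcases x with ⟨i, r, s⟩ | r
  · exact key _ _
  · exact key _ _

lemma cF_zero (hA : Adm mon K Gn) (h : IsOrd mon) (hd : 1 ≤ d) :
    cF mon K Gn (0 : (Fin n →₀ ℕ) → Fin d → k) = c00 k mon := by
  classical
  have h0 : (0 : Fin n →₀ ℕ) ∉ Gn := by
    intro h0
    obtain ⟨z, hz⟩ := HChar.exists_zero h ⟨0, hd⟩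
    exact hA.out _ h0 z hz
  have key : ∀ E r, XF mon K Gn (0 : (Fin n →₀ ℕ) → Fin d → k) E r = V0 k mon E r := by
    intro E r
    rw [XF]
    split_ifs with h1 h2
    · rw [V0_apply, if_neg (hA.out _ h1 r)]
      rfl
    · rw [V0_apply, if_neg (hA.out _ h1 r)]
    · rfl
  funext x
  rcases x with ⟨i, r, s⟩ | r
  · refine (key _ _).trans ?_
    rw [V0_apply]
    rfl
  · refine (key _ _).trans ?_
    rw [V0_apply]
    rfl

/-- **Monomial points with large linear families lie on another component.** -/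
theorem exists_component_of_adm [Infinite k] (h : IsOrd mon) (hd : 1 ≤ d) (hA : Adm mon K Gn)
    (hcard : n * d < Gn.card * K.card) {x : Hilb k n d}
    (hx : IsCoord (lamD k mon) x.1 (c00 k mon)) :
    ∃ Z ∈ irreducibleComponents (Hilb k n d), x ∈ Z ∧ ¬ Z ⊆ smoothable k n d := by
  classical
  -- the coordinates
  have hy : ∀ g : Gn, ∃ (i : Fin n) (s : Fin d), mon s + Finsupp.single i 1 = g.1 := by
    rintro ⟨g, hg⟩
    have hg0 : g ≠ 0 := by
      rintro rfl
      obtain ⟨z, hz⟩ := HChar.exists_zero h ⟨0, hd⟩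
      exact hA.out _ hg z hz
    obtain ⟨i, hi⟩ : ∃ i, g i ≠ 0 := by
      by_contra hc
      push Not at hc
      exact hg0 (Finsupp.ext hc)
    have h2 := sub_add_single (s := g) (i := i) (by omega)
    obtain ⟨s, hs⟩ := hA.min g hg i _ h2
    exact ⟨i, s, by rw [hs, h2]⟩
  choose ig sg hg using hy
  let y : Gn × K → Fin n × Fin d × Fin d := fun p => (ig p.1, p.2.1, sg p.1)
  obtain ⟨Q, hQ0, hQ⟩ := exists_dep_coord (k := k) (lamD k mon) y (by
    rw [Fintype.card_prod, Fintype.card_coe, Fintype.card_coe]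
    exact hcard)
  obtain ⟨ψ, hψ⟩ : ∃ ψ : Gn × K → k, eval ψ Q ≠ 0 := by
    by_contra hc
    push Not at hc
    apply hQ0
    apply MvPolynomial.funext
    intro ψ
    rw [hc, map_zero]
  let φ : (Fin n →₀ ℕ) → Fin d → k := fun E r =>
    if hE : E ∈ Gn then (if hr : r ∈ K then ψ (⟨E, hE⟩, ⟨r, hr⟩) else 0) else 0
  have hcoord : ∀ p : Gn × K, cF mon K Gn φ (Sum.inl (y p)) = ψ p := by
    rintro ⟨g, a⟩
    show XF mon K Gn φ (mon (sg g) + Finsupp.single (ig g) 1) a.1 = ψ (g, a)
    rw [hg, XF, if_pos g.2, if_pos a.2]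
    simp only [φ]
    rw [dif_pos g.2, dif_pos a.2]
  have hmem := cF_mem (k := k) hA h
  have hns : toHilb ⟨cF mon K Gn φ, hmem φ⟩ ∉ smoothable k n d := by
    intro hs
    have h1 := eqns_vanish hs (isCoord_cF hA h φ) hQ
    rw [eval_rename] at h1
    apply hψ
    rw [← h1]
    congr 1
    congr 1
    funext p
    exact (hcoord p).symm
  -- the curve
  let cv : Coord n d → Polynomial k := fun x =>
    Polynomial.C (cF mon K Gn 0 x) +
      Polynomial.X * Polynomial.C (cF mon K Gn φ x - cF mon K Gn 0 x)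
  have hcv : ∀ t : k, (fun x => (cv x).eval t) = cF mon K Gn (t • φ) := by
    intro t
    rw [cF_smul]
    funext x
    simp only [cv, Polynomial.eval_add, Polynomial.eval_C, Polynomial.eval_mul, Polynomial.eval_X,
      Pi.add_apply, Pi.smul_apply, Pi.sub_apply, smul_eq_mul]
  let f : k → Hilb k n d := fun t => toHilb ⟨cF mon K Gn (t • φ), hmem _⟩
  have hopen : ∀ U : Set (Hilb k n d), IsOpen U → ∀ t0, f t0 ∈ U →
      ∀ᶠ t : k in Filter.cofinite, f t ∈ U := by
    intro U hU t0 ht0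
    have h0 : (fun x => (cv x).eval t0) ∈ Cset k n d := by rw [hcv]; exact hmem _
    have e0 : toHilb ⟨_, h0⟩ = f t0 := by
      show toHilb _ = toHilb _
      congr 1
      exact Subtype.ext (hcv t0)
    filter_upwards [curve_open hU cv t0 h0 (by rw [e0]; exact ht0)] with t ht
    have h1 : (fun x => (cv x).eval t) ∈ Cset k n d := by rw [hcv]; exact hmem _
    have e1 : toHilb ⟨_, h1⟩ = f t := by
      show toHilb _ = toHilb _
      congr 1
      exact Subtype.ext (hcv t)
    rw [← e1]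
    exact ht h1
  have hirr : IsIrreducible (Set.range f) := by
    refine ⟨⟨f 0, 0, rfl⟩, ?_⟩
    rintro U V hU hV ⟨_, ⟨t1, rfl⟩, h1⟩ ⟨_, ⟨t2, rfl⟩, h2⟩
    obtain ⟨t, ht1, ht2⟩ := ((hopen U hU t1 h1).and (hopen V hV t2 h2)).exists
    exact ⟨f t, ⟨t, rfl⟩, ht1, ht2⟩
  obtain ⟨Z, hZ, hZ'⟩ := exists_mem_irreducibleComponents_subset_of_isIrreducible _ hirr
  refine ⟨Z, hZ, ?_, ?_⟩
  · have h0 : f 0 = x := by
      rw [← toHilb_eq hx]
      show toHilb _ = toHilb _
      congr 1
      apply Subtype.ext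
      show cF mon K Gn ((0 : k) • φ) = c00 k mon
      rw [zero_smul, cF_zero hA h hd]
    rw [← h0]
    exact hZ' ⟨0, rfl⟩
  · intro hsub
    apply hns
    have h1 : f 1 = toHilb ⟨cF mon K Gn φ, hmem φ⟩ := by
      show toHilb _ = toHilb _
      congr 1
      apply Subtype.ext
      show cF mon K Gn ((1 : k) • φ) = cF mon K Gn φ
      rw [one_smul]
    rw [← h1]
    exact hsub (hZ' ⟨1, rfl⟩)

end Pool.Agent.Hilb61
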