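import Pool.Agent.Helper61.HilbTop

open MvPolynomial Module Matrix TopologicalSpace

namespace Pool.Agent.Hilb61

variable {k : Type*} [Field k] {n d m : ℕ}

/-! ### The cyclicity polynomial -/

/-- The matrix with columns `v, A_1 v, …, A_m v`. -/
def krylov {R : Type*} [CommRing R] (hn : m ≤ n) (c : Coord n (m + 1) → R) :
    Matrix (Fin (m + 1)) (Fin (m + 1)) R :=
  Matrix.of fun r s => Fin.cases (motive := fun _ => R) (vect c r)
    (fun j => (mats c (Fin.castLE hn j) *ᵥ vect c) r) s

lemma cyclic_of_krylov (hn : m ≤ n) {c : Coord n (m + 1) → k} (h : (krylov hn c).det ≠ 0) :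
    Cyclic (mats c) (vect c) := by
  have hu : IsUnit (krylov hn c) := (Matrix.isUnit_iff_isUnit_det _).mpr (isUnit_iff_ne_zero.mpr h)
  obtain ⟨u, hu⟩ := hu
  intro W h0 hW
  have hs : ∀ s : Fin (m + 1), krylov hn c *ᵥ (Pi.single s 1) ∈ W := by
    intro s
    rw [mulVec_single_one]
    refine Fin.cases ?_ (fun j => ?_) s
    · exact h0
    · exact hW _ _ h0
  rw [eq_top_iff]
  intro x _
  have h1 : x = krylov hn c *ᵥ ((u⁻¹ : (Matrix (Fin (m + 1)) (Fin (m + 1)) k)ˣ).1 *ᵥ x) := by
    rw [mulVec_mulVec, ← hu, u.mul_inv, one_mulVec]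
  rw [h1, pi_eq_sum_univ' ((u⁻¹ : (Matrix (Fin (m + 1)) (Fin (m + 1)) k)ˣ).1 *ᵥ x), mulVec_sum]
  apply Submodule.sum_mem
  intro s _
  rw [mulVec_smul]
  exact W.smul_mem _ (hs s)

lemma eval_krylov (hn : m ≤ n) (c : Coord n (m + 1) → k) :
    eval c (krylov hn (fun x => (X x : MvPolynomial (Coord n (m + 1)) k))).det =
      (krylov hn c).det := by
  have h1 : (krylov hn (fun x => (X x : MvPolynomial (Coord n (m + 1)) k))).map (eval c) =
      krylov hn c := by
    ext r s
    refine Fin.cases ?_ (fun j => ?_) s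
    · simp [krylov]
    · simp [krylov, mulVec, dotProduct]
  rw [← h1]
  exact RingHom.map_det (eval c) _

lemma krylov_a0 (hn : m ≤ n) : krylov hn (a0 k n m) = 1 := by
  ext r s
  refine Fin.cases ?_ (fun j => ?_) s
  · simp [krylov, a0, Matrix.one_apply]
  · have h1 : vect (a0 k n m) = Pi.single 0 1 := by
      funext r; simp [a0, Pi.single_apply]
    have h2 : mats (a0 k n m) (Fin.castLE hn j) = eps k j := by
      ext r s; simp [a0]
    simp only [krylov, Matrix.of_apply, Fin.cases_succ]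
    rw [h1, h2, mulVec_single_one]
    simp [eps, Matrix.one_apply]

lemma a0_mem (hn : m ≤ n) : a0 k n m ∈ Cset k n (m + 1) := by
  refine ⟨?_, ?_⟩
  · have key : ∀ i j, mats (a0 k n m) i * mats (a0 k n m) j = 0 := by
      intro i j
      by_cases hi : (i : ℕ) < m
      · by_cases hj : (j : ℕ) < m
        · have e1 : mats (a0 k n m) i = eps k ⟨i, hi⟩ := by ext r s; simp [a0, hi]
          have e2 : mats (a0 k n m) j = eps k ⟨j, hj⟩ := by ext r s; simp [a0, hj]
          rw [e1, e2]
          ext r s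
          rw [eps_mul_apply]
          simp [eps]
        · have e2 : mats (a0 k n m) j = 0 := by ext r s; simp [a0, hj]
          rw [e2, mul_zero]
      · have e1 : mats (a0 k n m) i = 0 := by ext r s; simp [a0, hi]
        rw [e1, zero_mul]
    intro i j
    rw [key, key]
  · apply cyclic_of_krylov hn
    rw [krylov_a0, det_one]
    exact one_ne_zero

/-- The fat point as a point of the Hilbert scheme. -/
noncomputable def x0 (k : Type*) [Field k] {n m : ℕ} (hn : m ≤ n) : Hilb k n (m + 1) :=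
  toHilb ⟨a0 k n m, a0_mem hn⟩

lemma x0_isCoord (hn : m ≤ n) : IsCoord (lam0 k hn) (x0 k hn).1 (a0 k n m) := by
  have h := isCoord_Jc (a0_mem (k := k) hn) (g := 1) (g' := 1) (mul_one 1) (lam := lam0 k hn) (by
    intro s
    rw [one_mulVec]
    have h1 : vect (a0 k n m) = Pi.single 0 1 := by
      funext r; simp [a0, Pi.single_apply]
    refine Fin.cases ?_ (fun j => ?_) s
    · rw [lam0_zero, map_one, one_mulVec, h1]
    · have h2 : mats (a0 k n m) (Fin.castLE hn j) = eps k j := by
        ext r s; simp [a0]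
      rw [lam0_succ, evHom_X, h1, h2, mulVec_single_one]
      funext r
      simp [eps, Pi.single_apply])
  have e : mk (fun i => 1 * mats (a0 k n m) i * 1) (1 *ᵥ vect (a0 k n m)) = a0 k n m := by
    simp only [Matrix.one_mul, Matrix.mul_one, one_mulVec]
    exact mk_eta _
  rw [e] at h
  exact h

/-- The ideal `(x_1, …, x_m)² + (x_{m+1}, …, x_n)`. -/
noncomputable def fatIdeal (k : Type*) [Field k] (n m : ℕ) : Ideal (MvPolynomial (Fin n) k) :=
  Ideal.span ({f | ∃ i j : Fin n, (i : ℕ) < m ∧ (j : ℕ) < m ∧ f = X i * X j} ∪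
    {f | ∃ i : Fin n, m ≤ (i : ℕ) ∧ f = X i})

lemma x0_ideal (hn : m ≤ n) : (x0 k hn).1 = fatIdeal k n m := by
  have hle : fatIdeal k n m ≤ (x0 k hn).1 := by
    apply Ideal.span_le.mpr
    rintro f (⟨i, j, hi, hj, rfl⟩ | ⟨i, hi, rfl⟩)
    · show evHom (mats (a0 k n m)) (a0_mem hn).1 _ *ᵥ vect (a0 k n m) = 0
      have e1 : mats (a0 k n m) i = eps k ⟨i, hi⟩ := by ext r s; simp [a0, hi]
      have e2 : mats (a0 k n m) j = eps k ⟨j, hj⟩ := by ext r s; simp [a0, hj]
      rw [map_mul, evHom_X, evHom_X, e1, e2]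
      have : eps k (⟨i, hi⟩ : Fin m) * eps k ⟨j, hj⟩ = 0 := by
        ext r s
        rw [eps_mul_apply]
        simp [eps]
      rw [this, zero_mulVec]
    · show evHom (mats (a0 k n m)) (a0_mem hn).1 _ *ᵥ vect (a0 k n m) = 0
      have e1 : mats (a0 k n m) i = 0 := by ext r s; simp [a0, not_lt.mpr hi]
      rw [evHom_X, e1, zero_mulVec]
  apply le_antisymm _ hle
  have hred : ∀ f : MvPolynomial (Fin n) k, ∃ a : Fin (m + 1) → k,
      f - ∑ s, C (a s) * lam0 k hn s ∈ fatIdeal k n m := by
    intro f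
    induction f using MvPolynomial.induction_on with
    | C a =>
      refine ⟨Pi.single 0 a, ?_⟩
      rw [Fin.sum_univ_succ]
      simp
    | add p q hp hq =>
      obtain ⟨a, ha⟩ := hp
      obtain ⟨b, hb⟩ := hq
      refine ⟨a + b, ?_⟩
      have := Ideal.add_mem _ ha hb
      convert this using 1
      simp only [Pi.add_apply, map_add, add_mul, Finset.sum_add_distrib]
      ring
    | mul_X p i hp =>
      obtain ⟨a, ha⟩ := hp
      have h1 := Ideal.mul_mem_right (X i) _ ha
      have h2 : ∑ j : Fin m, C (a j.succ) * (X (Fin.castLE hn j) * X i) ∈ fatIdeal k n m := by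
        apply Ideal.sum_mem
        intro j _
        apply Ideal.mul_mem_left
        by_cases hi : (i : ℕ) < m
        · exact Ideal.subset_span (Or.inl ⟨_, _, by simp, hi, rfl⟩)
        · exact Ideal.mul_mem_left _ _ (Ideal.subset_span (Or.inr ⟨i, not_lt.mp hi, rfl⟩))
      by_cases hi : (i : ℕ) < m
      · refine ⟨Pi.single (Fin.succ ⟨i, hi⟩) (a 0), ?_⟩
        have h3 : ∑ s, C ((Pi.single (Fin.succ ⟨i, hi⟩) (a 0) : Fin (m + 1) → k) s) *
            lam0 k hn s = C (a 0) * X i := by
          rw [Finset.sum_eq_single (Fin.succ ⟨i, hi⟩)]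
          · rw [Pi.single_eq_same, lam0_succ]; rfl
          · intro b _ hb; rw [Pi.single_eq_of_ne hb, map_zero, zero_mul]
          · intro h; exact absurd (Finset.mem_univ _) h
        rw [h3]
        have := Ideal.add_mem _ h1 h2
        convert this using 1
        rw [Fin.sum_univ_succ]
        simp only [lam0_zero, lam0_succ, mul_one, sub_mul, add_mul, Finset.sum_mul, mul_assoc]
        ring
      · refine ⟨0, ?_⟩
        have h4 : C (a 0) * X i ∈ fatIdeal k n m :=
          Ideal.mul_mem_left _ _ (Ideal.subset_span (Or.inr ⟨i, not_lt.mp hi, rfl⟩))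
        have := Ideal.add_mem _ (Ideal.add_mem _ h1 h2) h4
        convert this using 1
        simp only [Pi.zero_apply, map_zero, zero_mul, Finset.sum_const_zero, sub_zero]
        rw [Fin.sum_univ_succ]
        simp only [lam0_zero, lam0_succ, mul_one, sub_mul, add_mul, Finset.sum_mul, mul_assoc]
        ring
  intro f hf
  obtain ⟨a, ha⟩ := hred f
  have h1 : ∑ s, C (a s) * lam0 k hn s ∈ (x0 k hn).1 := by
    have := Ideal.sub_mem _ hf (hle ha)
    simpa using this
  have h2 : a = 0 := by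
    rw [← coef_sum_lam (x0_isCoord hn) a]
    exact (coef_eq_zero _ _).mpr h1
  rw [h2] at ha
  simpa using ha

/-- The fat point is smoothable. -/
lemma x0_mem_smoothable [Infinite k] (hn : m ≤ n) : x0 k hn ∈ smoothable k n (m + 1) := by
  rw [smoothable, mem_closure_iff]
  intro U hU hx
  let N : Fin m → Matrix (Fin m) (Fin m) k := Nmat 1 1 1
  let cv : Coord n (m + 1) → Polynomial k := fun x => Polynomial.C (a0 k n m x) +
    Polynomial.X * Polynomial.C (b0 n N 0 x) + Polynomial.X ^ 2 * Polynomial.C (e0 n N 0 x)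
  have hev : ∀ t : k, (fun x => (cv x).eval t) = a0 k n m + t • b0 n N 0 + t ^ 2 • e0 n N 0 := by
    intro t
    funext x
    simp only [cv, Polynomial.eval_add, Polynomial.eval_C, Polynomial.eval_mul, Polynomial.eval_X,
      Polynomial.eval_pow, Pi.add_apply, Pi.smul_apply, smul_eq_mul]
  have h0 : (fun x => (cv x).eval 0) = a0 k n m := by rw [hev]; simp
  have h0' : (fun x => (cv x).eval 0) ∈ Cset k n (m + 1) := by rw [h0]; exact a0_mem hn
  have hx' : toHilb ⟨_, h0'⟩ ∈ U := by
    have : toHilb ⟨_, h0'⟩ = x0 k hn := by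
      unfold x0
      congr 1
      exact Subtype.ext h0
    rw [this]; exact hx
  obtain ⟨t, ht, ht0⟩ := ((curve_open hU cv 0 h0' hx').and
    (Filter.eventually_cofinite_ne (0 : k))).exists
  obtain ⟨p, hp, hc⟩ := family_isCoord hn (V := (1 : Matrix (Fin m) (Fin m) k)) (W := 1)
    (mul_one 1) (τ := 1) (fun _ => one_ne_zero) (0 : Fin n → Fin (m + 1) → k) ht0
  have hc' : IsCoord (lam0 k hn) (vanishingIdeal k (Set.range p)) (fun x => (cv x).eval t) := by
    rw [hev]; exact hc
  refine ⟨_, ht hc'.mem_Cset, p, hp, ?_⟩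
  exact hc'.eq_Jc.symm

end Pool.Agent.Hilb61
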