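import Pool.Agent.Helper61.HilbComp

/-!
# Framed tuples

`Rset` is the set of framed commuting tuples (`n` commuting matrices and a cyclic vector) of the
reduced schemes; `Zset` its Zariski closure, `tanR` the Zariski tangent spaces of `Zset`.
-/

open MvPolynomial Module Matrix TopologicalSpace

namespace Pool.Agent.Hilb61

variable {k : Type*} [Field k] {n d m : ℕ}

/-- The framed tuples of reduced schemes. -/
def Rset (k : Type*) [Field k] (n d : ℕ) : Set (Coord n d → k) :=
  {c | ∃ p : Fin d → Fin n → k, Function.Injective p ∧ ∃ U U' : Matrix (Fin d) (Fin d) k,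
    U * U' = 1 ∧ (∀ a i s, p a i * U a s = (U * mats c i) a s) ∧ ∀ a, (U *ᵥ vect c) a = 1}

/-- The polynomials vanishing on the framed tuples of reduced schemes. -/
def eqR (k : Type*) [Field k] (n d : ℕ) : Set (MvPolynomial (Coord n d) k) :=
  {f | ∀ c ∈ Rset k n d, eval c f = 0}

/-- The closure of the set of framed tuples of reduced schemes. -/
def Zset (k : Type*) [Field k] (n d : ℕ) : Set (Coord n d → k) :=
  {c | ∀ f ∈ eqR k n d, eval c f = 0}

/-- The Zariski tangent space of this closure. -/
noncomputable def tanR (c : Coord n d → k) : Submodule k (Coord n d → k) where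
  carrier := {w | ∀ f ∈ eqR k n d, dd c f w = 0}
  add_mem' := by
    intro v w hv hw f hf
    have h1 := hv f hf
    have h2 := hw f hf
    simp only [dd, Pi.add_apply, mul_add, Finset.sum_add_distrib] at *
    rw [h1, h2, add_zero]
  zero_mem' := by intro f _; simp [dd]
  smul_mem' := by
    intro t w hw f hf
    have h1 := hw f hf
    simp only [dd, Pi.smul_apply, smul_eq_mul, mul_left_comm _ t, ← Finset.mul_sum] at *
    rw [h1, mul_zero]

lemma mem_tanR {c w : Coord n d → k} : w ∈ tanR c ↔ ∀ f ∈ eqR k n d, dd c f w = 0 := Iff.rfl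

lemma Rset_subset_Zset : Rset k n d ⊆ Zset k n d := fun _ hc _ hf => hf _ hc

/-- Interpolation. -/
lemma exists_interp {p : Fin d → Fin n → k} (hp : Function.Injective p) (y : Fin d → k) :
    ∃ f : MvPolynomial (Fin n) k, ∀ a, eval (p a) f = y a := by
  classical
  have h1 : ∀ a b : Fin d, ∃ g : MvPolynomial (Fin n) k, eval (p a) g = 1 ∧
      (a ≠ b → eval (p b) g = 0) := by
    intro a b
    by_cases hab : a = b
    · exact ⟨1, map_one _, fun h => absurd hab h⟩
    · obtain ⟨i, hi⟩ : ∃ i, p a i ≠ p b i := by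
        by_contra h
        push Not at h
        exact hab (hp (funext h))
      refine ⟨C (p a i - p b i)⁻¹ * (X i - C (p b i)), ?_, fun _ => ?_⟩
      · simp [inv_mul_cancel₀ (sub_ne_zero.mpr hi)]
      · simp
  choose g hg1 hg2 using h1
  refine ⟨∑ a, C (y a) * ∏ b, g a b, fun a => ?_⟩
  rw [map_sum, Finset.sum_eq_single a]
  · rw [map_mul, eval_C, map_prod, Finset.prod_eq_one (fun b _ => hg1 a b), mul_one]
  · intro b _ hb
    rw [map_mul, map_prod, Finset.prod_eq_zero (Finset.mem_univ a) (hg2 b a hb), mul_zero]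
  · intro h; exact absurd (Finset.mem_univ a) h

lemma exists_isCoord_of_Rset {c : Coord n d → k} (hc : c ∈ Rset k n d) :
    ∃ p : Fin d → Fin n → k, Function.Injective p ∧ ∃ lam : Fin d → MvPolynomial (Fin n) k,
      IsCoord lam (vanishingIdeal k (Set.range p)) c := by
  obtain ⟨p, hp, U, U', hUU', h1, h2⟩ := hc
  choose lam hlam using fun s => exists_interp hp (fun a => U a s)
  exact ⟨p, hp, lam, isCoord_of_points U U' (fun a r => (hlam r a).symm) hUU' h1 h2⟩

lemma Rset_of_isCoord {p : Fin d → Fin n → k} (hp : Function.Injective p)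
    {lam : Fin d → MvPolynomial (Fin n) k} {c : Coord n d → k}
    (h : IsCoord lam (vanishingIdeal k (Set.range p)) c) : c ∈ Rset k n d := by
  let U : Matrix (Fin d) (Fin d) k := Matrix.of fun a s => eval (p a) (lam s)
  have hinj : Function.Injective U.mulVec := by
    have : Function.Injective (Matrix.toLin' U) := by
      rw [← LinearMap.ker_eq_bot, LinearMap.ker_eq_bot']
      intro x hx
      have hx' : ∀ a, (U *ᵥ x) a = 0 := fun a => congrFun hx a
      rw [← coef_sum_lam h x]
      apply (coef_eq_zero h _).mpr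
      rintro _ ⟨a, rfl⟩
      rw [aeval_self, map_sum]
      refine Eq.trans ?_ (hx' a)
      rw [mulVec, dotProduct]
      apply Finset.sum_congr rfl
      intro s _
      rw [map_mul, eval_C, mul_comm]
      rfl
    exact this
  rw [Matrix.mulVec_injective_iff_isUnit] at hinj
  obtain ⟨u, hu⟩ := hinj
  refine ⟨p, hp, U, (u⁻¹ : (Matrix (Fin d) (Fin d) k)ˣ).1, by rw [← hu]; exact u.mul_inv, ?_, ?_⟩
  · intro a i s
    have h1 := h.2.1 i s (p a) ⟨a, rfl⟩
    rw [aeval_self, map_sub, map_mul, eval_X, map_sum, sub_eq_zero] at h1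
    refine h1.trans ?_
    rw [Matrix.mul_apply]
    apply Finset.sum_congr rfl
    intro r _
    rw [map_mul, eval_C, mul_comm]
    rfl
  · intro a
    have h1 := h.2.2 (p a) ⟨a, rfl⟩
    rw [aeval_self, map_sub, map_one, map_sum, sub_eq_zero] at h1
    refine Eq.trans ?_ h1.symm
    rw [mulVec, dotProduct]
    apply Finset.sum_congr rfl
    intro r _
    rw [map_mul, eval_C, mul_comm]
    rfl

lemma eqR_subset_eqns (lam : Fin d → MvPolynomial (Fin n) k) : eqR k n d ⊆ eqns lam :=
  fun _ hf _ hp _ hc => hf _ (Rset_of_isCoord hp hc)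

lemma tangent_le_tanR (lam : Fin d → MvPolynomial (Fin n) k) (c : Coord n d → k) :
    tangent lam c ≤ tanR c := fun _ hw f hf => hw f (eqR_subset_eqns lam hf)

/-- Equations vanish at smoothable points. -/
lemma eqns_vanish {x : Hilb k n d} (hx : x ∈ smoothable k n d)
    {lam : Fin d → MvPolynomial (Fin n) k} {c : Coord n d → k} (h : IsCoord lam x.1 c)
    {f : MvPolynomial (Coord n d) k} (hf : f ∈ eqns lam) : eval c f = 0 := by
  by_contra hne
  rw [smoothable, mem_closure_iff] at hx
  obtain ⟨y, ⟨c', hc', hf'⟩, p, hp, hy⟩ := hx {x | ∃ c, IsCoord lam x.1 c ∧ eval c f ≠ 0}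
    (TopologicalSpace.isOpen_generateFrom_of_mem ⟨lam, f, rfl⟩) ⟨c, h, hne⟩
  rw [hy] at hc'
  exact hf' (hf p hp c' hc')

lemma Zset_of_smoothable {x : Hilb k n d} (hx : x ∈ smoothable k n d)
    {lam : Fin d → MvPolynomial (Fin n) k} {c : Coord n d → k} (h : IsCoord lam x.1 c) :
    c ∈ Zset k n d := fun _ hf => eqns_vanish hx h (eqR_subset_eqns lam hf)

lemma smoothable_of_Zset {c : Coord n d → k} (hc : c ∈ Zset k n d) (hc' : c ∈ Cset k n d) :
    toHilb ⟨c, hc'⟩ ∈ smoothable k n d := by
  rw [smoothable, mem_closure_iff]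
  intro U hU hx
  obtain ⟨h, h1, h2⟩ := (isOpen_Cset_iff _).mp (hU.preimage continuous_toHilb) ⟨c, hc'⟩ hx
  have h3 : h ∉ eqR k n d := fun h4 => h1 (hc h h4)
  have h4 : ∃ b ∈ Rset k n d, eval b h ≠ 0 := by
    by_contra h5
    push Not at h5
    exact h3 h5
  obtain ⟨b, hb, hbh⟩ := h4
  obtain ⟨p, hp, lam, hlam⟩ := exists_isCoord_of_Rset hb
  refine ⟨_, h2 ⟨b, hlam.mem_Cset⟩ hbh, p, hp, ?_⟩
  exact hlam.eq_Jc.symm

/-! ### Curves and linear maps -/

lemma Zset_of_curve [Infinite k] (c : Coord n d → Polynomial k)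
    (h : ∀ᶠ t : k in Filter.cofinite, (fun x => (c x).eval t) ∈ Zset k n d) (t : k) :
    (fun x => (c x).eval t) ∈ Zset k n d := by
  intro f hf
  have h0 : aeval c f = 0 := by
    apply Polynomial.eq_zero_of_infinite_isRoot
    rw [Filter.eventually_cofinite] at h
    have : {t | ¬ (fun x => (c x).eval t) ∈ Zset k n d}ᶜ ⊆ {t | (aeval c f).IsRoot t} := by
      intro t ht
      have ht' : (fun x => (c x).eval t) ∈ Zset k n d := by
        by_contra h; exact ht h
      show (aeval c f).eval t = 0
      rw [eval_aeval_poly]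
      exact ht' f hf
    exact h.infinite_compl.mono this
  rw [← eval_aeval_poly, h0, Polynomial.eval_zero]

lemma tanR_of_curve [Infinite k] (c : Coord n d → Polynomial k)
    (h : ∀ᶠ t : k in Filter.cofinite, (fun x => (c x).eval t) ∈ Zset k n d) :
    (fun x => (Polynomial.derivative (c x)).eval 0) ∈ tanR (fun x => (c x).eval 0) := by
  intro f hf
  apply dd_curve
  filter_upwards [h] with t ht
  exact ht f hf

/-- The chain rule. -/
lemma dd_comp {σ τ : Type*} [Fintype σ] [Fintype τ] (p : τ → MvPolynomial σ k) (c w : σ → k)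
    (f : MvPolynomial τ k) :
    dd c (aeval p f) w = dd (fun x => eval c (p x)) f (fun x => dd c (p x) w) := by
  have h1 := aeval_dual (fun x => eval c (p x)) (fun x => dd c (p x) w) f
  have h2 := aeval_dual c w (aeval p f)
  have h3 : (fun x => (TrivSqZeroExt.inl (eval c (p x)) + TrivSqZeroExt.inr (dd c (p x) w) :
      TrivSqZeroExt k k)) = fun x => aeval (fun y => (TrivSqZeroExt.inl (c y) +
        TrivSqZeroExt.inr (w y) : TrivSqZeroExt k k)) (p x) := by
    funext x
    rw [aeval_dual]
  rw [h3] at h1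
  have h4 : aeval (fun y => (TrivSqZeroExt.inl (c y) + TrivSqZeroExt.inr (w y) :
      TrivSqZeroExt k k)) (aeval p f) = aeval (fun x => aeval (fun y =>
        (TrivSqZeroExt.inl (c y) + TrivSqZeroExt.inr (w y) : TrivSqZeroExt k k)) (p x)) f := by
    rw [← AlgHom.comp_apply, MvPolynomial.comp_aeval]
  rw [h2, h1] at h4
  have h5 := congrArg TrivSqZeroExt.snd h4
  simpa using h5

/-- The polynomials of an affine map. -/
noncomputable def affP {σ τ : Type*} [Fintype σ] [DecidableEq σ] (L : (σ → k) →ₗ[k] (τ → k))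
    (b : τ → k) (x : τ) : MvPolynomial σ k :=
  ∑ y, C (L (Pi.single y 1) x) * X y + C (b x)

lemma lin_apply {σ τ : Type*} [Fintype σ] [DecidableEq σ] (L : (σ → k) →ₗ[k] (τ → k))
    (c : σ → k) (x : τ) : L c x = ∑ y, L (Pi.single y 1) x * c y := by
  have h1 : c = ∑ y, c y • (Pi.single y 1 : σ → k) := by
    funext z
    rw [Finset.sum_apply]
    simp [Pi.single_apply]
  conv_lhs => rw [h1, map_sum, Finset.sum_apply]
  apply Finset.sum_congr rfl
  intro y _
  rw [map_smul, Pi.smul_apply, smul_eq_mul, mul_comm]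

lemma eval_affP {σ τ : Type*} [Fintype σ] [DecidableEq σ] (L : (σ → k) →ₗ[k] (τ → k))
    (b : τ → k) (c : σ → k) (x : τ) : eval c (affP L b x) = L c x + b x := by
  rw [affP, map_add, eval_C, map_sum, lin_apply L c x]
  simp

lemma dd_affP {σ τ : Type*} [Fintype σ] [DecidableEq σ] (L : (σ → k) →ₗ[k] (τ → k))
    (b : τ → k) (c w : σ → k) (x : τ) : dd c (affP L b x) w = L w x := by
  rw [affP, dd_add, dd_C, add_zero, dd_sum, lin_apply L w x]
  apply Finset.sum_congr rfl
  intro y _
  rw [dd_mul, dd_C, dd_X, eval_C, mul_zero, add_zero]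

/-- Affine maps preserving the closure. -/
lemma affine_push {n' d' : ℕ} (L : (Coord n d → k) →ₗ[k] (Coord n' d' → k))
    (b : Coord n' d' → k) (h : ∀ c ∈ Rset k n d, L c + b ∈ Zset k n' d') :
    (∀ c ∈ Zset k n d, L c + b ∈ Zset k n' d') ∧
      ∀ c w, w ∈ tanR c → L w ∈ tanR (L c + b) := by
  have hev : ∀ c : Coord n d → k, (fun x => eval c (affP L b x)) = L c + b := by
    intro c; funext x; exact eval_affP L b c x
  have key : ∀ f ∈ eqR k n' d', aeval (affP L b) f ∈ eqR k n d := by
    intro f hf c hc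
    have h1 : eval c (aeval (affP L b) f) = eval (fun x => eval c (affP L b x)) f := by
      have := (MvPolynomial.comp_aeval (φ := aeval (R := k) c) (affP L b))
      have h2 := congrArg (fun φ => φ f) this
      simp only [AlgHom.comp_apply] at h2
      rw [aeval_self] at h2
      rw [h2]
      rw [← aeval_self]
      congr 1
    rw [h1, hev]
    exact h c hc f hf
  refine ⟨fun c hc f hf => ?_, fun c w hw f hf => ?_⟩
  · have h1 := hc _ (key f hf)
    have h2 : eval c (aeval (affP L b) f) = eval (fun x => eval c (affP L b x)) f := by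
      have := (MvPolynomial.comp_aeval (φ := aeval (R := k) c) (affP L b))
      have h2 := congrArg (fun φ => φ f) this
      simp only [AlgHom.comp_apply] at h2
      rw [aeval_self] at h2
      rw [h2, ← aeval_self]
      congr 1
    rw [h2, hev] at h1
    exact h1
  · have h1 := hw _ (key f hf)
    rw [dd_comp, hev] at h1
    have h2 : (fun x => dd c (affP L b x) w) = L w := by
      funext x; exact dd_affP L b c w x
    rwa [h2] at h1

end Pool.Agent.Hilb61
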