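import Pool.Agent.Helper61.HilbFr

/-!
# Base change, tangent vectors in charts, and adding a point
-/

open MvPolynomial Module Matrix TopologicalSpace

namespace Pool.Agent.Hilb61

universe u

variable {k : Type u} [Field k] {n d m : ℕ}

/-- The base change map. -/
def conjL (g g' : Matrix (Fin d) (Fin d) k) : (Coord n d → k) →ₗ[k] (Coord n d → k) where
  toFun c := mk (fun i => g' * mats c i * g) (g' *ᵥ vect c)
  map_add' c c' := by
    have e1 : ∀ i, mats (c + c') i = mats c i + mats c' i := fun i => rfl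
    have e2 : vect (c + c') = vect c + vect c' := rfl
    funext x
    rcases x with ⟨i, r, s⟩ | r
    · simp only [mk, Sum.elim_inl, Pi.add_apply, e1, Matrix.mul_add, Matrix.add_mul,
        Matrix.add_apply]
    · simp only [mk, Sum.elim_inr, Pi.add_apply, e2, mulVec_add]
  map_smul' t c := by
    have e1 : ∀ i, mats (t • c) i = t • mats c i := fun i => rfl
    have e2 : vect (t • c) = t • vect c := rfl
    funext x
    rcases x with ⟨i, r, s⟩ | r
    · simp only [mk, Sum.elim_inl, Pi.smul_apply, e1, Matrix.mul_smul, Matrix.smul_mul,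
        Matrix.smul_apply, RingHom.id_apply]
    · simp only [mk, Sum.elim_inr, Pi.smul_apply, e2, mulVec_smul, RingHom.id_apply]

lemma conjL_apply (g g' : Matrix (Fin d) (Fin d) k) (c : Coord n d → k) :
    conjL g g' c = mk (fun i => g' * mats c i * g) (g' *ᵥ vect c) := rfl

lemma conjL_Rset {g g' : Matrix (Fin d) (Fin d) k} (h : g * g' = 1) {c : Coord n d → k}
    (hc : c ∈ Rset k n d) : conjL g g' c ∈ Rset k n d := by
  obtain ⟨p, hp, U, U', hU, h1, h2⟩ := hc
  have hD : ∀ i, U * mats c i = Matrix.diagonal (fun a => p a i) * U := by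
    intro i
    ext a s
    rw [← h1, Matrix.diagonal_mul]
  refine ⟨p, hp, U * g, g' * U', ?_, ?_, ?_⟩
  · calc U * g * (g' * U') = U * (g * g') * U' := by noncomm_ring
      _ = 1 := by rw [h, Matrix.mul_one, hU]
  · intro a i s
    rw [conjL_apply, mats_mk]
    have h3 : U * g * (g' * mats c i * g) = Matrix.diagonal (fun a => p a i) * (U * g) := by
      calc U * g * (g' * mats c i * g) = U * (g * g') * mats c i * g := by noncomm_ring
        _ = (U * mats c i) * g := by rw [h, Matrix.mul_one]
        _ = _ := by rw [hD, Matrix.mul_assoc]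
    rw [h3, Matrix.diagonal_mul]
  · intro a
    rw [conjL_apply, vect_mk, mulVec_mulVec, Matrix.mul_assoc, h, Matrix.mul_one, h2]

lemma Zset_conj {g g' : Matrix (Fin d) (Fin d) k} (h : g * g' = 1) {c c' : Coord n d → k}
    (hc : c ∈ Zset k n d) (h1 : ∀ i, mats c i * g = g * mats c' i)
    (h2 : vect c = g *ᵥ vect c') : c' ∈ Zset k n d := by
  have h3 := (affine_push (conjL (n := n) g g') 0 (fun b hb => by
    rw [add_zero]; exact Rset_subset_Zset (conjL_Rset h hb))).1 c hc
  rw [add_zero] at h3
  have hg : g' * g = 1 := mul_eq_one_comm.mp h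
  have h4 : conjL g g' c = c' := by
    rw [conjL_apply, ← mk_eta c']
    congr 1
    · funext i
      rw [Matrix.mul_assoc, h1, ← Matrix.mul_assoc, hg, Matrix.one_mul]
    · rw [h2, mulVec_mulVec, hg, one_mulVec]
  rwa [h4] at h3

/-- Clearing denominators in arbitrary algebras. -/
lemma exists_clear_alg {σ τ : Type*} (p : σ → MvPolynomial τ k) (q : MvPolynomial τ k)
    (f : MvPolynomial σ k) :
    ∃ (N : ℕ) (h : MvPolynomial τ k), ∀ (A : Type u) [CommRing A] [Algebra k A] (y : τ → A)
      (v : A), aeval y q * v = 1 →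
      aeval y h = aeval y q ^ N * aeval (fun x => aeval y (p x) * v) f := by
  induction f using MvPolynomial.induction_on with
  | C a => exact ⟨0, C a, fun A _ _ y v _ => by rw [algHom_C, algHom_C]; simp⟩
  | add f g hf hg =>
    obtain ⟨N1, h1, e1⟩ := hf
    obtain ⟨N2, h2, e2⟩ := hg
    refine ⟨N1 + N2, h1 * q ^ N2 + h2 * q ^ N1, fun A _ _ y v hy => ?_⟩
    rw [map_add, map_mul, map_mul, e1 A y v hy, e2 A y v hy, map_pow, map_pow, map_add]
    ring
  | mul_X f x hf =>
    obtain ⟨N, h, e⟩ := hf
    refine ⟨N + 1, h * p x, fun A _ _ y v hy => ?_⟩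
    rw [map_mul, e A y v hy, map_mul, aeval_X]
    linear_combination (-(aeval y q ^ N * (aeval (fun x => aeval y (p x) * v)) f *
      aeval y (p x))) * hy

/-! ### Matrices over the dual numbers -/

/-- A matrix over the dual numbers from its two parts. -/
def dm {ι κ : Type*} (M N : Matrix ι κ k) : Matrix ι κ (TrivSqZeroExt k k) :=
  Matrix.of fun r s => TrivSqZeroExt.inl (M r s) + TrivSqZeroExt.inr (N r s)

lemma dm_mul {ι κ ρ : Type*} [Fintype κ] (M N : Matrix ι κ k) (M' N' : Matrix κ ρ k) :
    dm M N * dm M' N' = dm (M * M') (M * N' + N * M') := by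
  apply Matrix.ext
  intro r s
  rw [Matrix.mul_apply]
  simp only [dm, Matrix.of_apply, tsz_mul]
  rw [tsz_sum, Finset.sum_add_distrib]
  simp only [Matrix.mul_apply, Matrix.add_apply]

lemma dm_one {κ : Type*} [DecidableEq κ] : dm (1 : Matrix κ κ k) 0 = 1 := by
  apply Matrix.ext
  intro r s
  by_cases h : r = s
  · subst h
    simp [dm]
  · simp [dm, h]

lemma dm_inj {ι κ : Type*} {M N M' N' : Matrix ι κ k} (h : dm M N = dm M' N') :
    M = M' ∧ N = N' := by
  constructor
  · ext r s
    have := congrArg TrivSqZeroExt.fst (congrFun (congrFun h r) s)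
    simpa [dm] using this
  · ext r s
    have := congrArg TrivSqZeroExt.snd (congrFun (congrFun h r) s)
    simpa [dm] using this

/-- `gmat` is the identity at chart coordinates. -/
lemma gmat_eq_one {lam : Fin d → MvPolynomial (Fin n) k} {I : Ideal (MvPolynomial (Fin n) k)}
    {c : Coord n d → k} (h : IsCoord lam I c) : gmat lam ⟨c, h.mem_Cset⟩ = 1 := by
  ext r s
  have h1 := coef_eq_ev h (lam s)
  rw [coef_lam] at h1
  have h2 := congrFun h1 r
  rw [Pi.single_apply] at h2
  rw [Matrix.one_apply]
  exact h2.symm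

/-- A tangent vector of the framed closure is a tangent vector of the chart plus a tangent vector
of the orbit. -/
theorem exists_orb_sub {lam : Fin d → MvPolynomial (Fin n) k}
    {I : Ideal (MvPolynomial (Fin n) k)} {c : Coord n d → k} (h : IsCoord lam I c)
    (hc : c ∈ Zset k n d) {w : Coord n d → k} (hw : w ∈ tanR c) :
    ∃ Y, w - orb c Y ∈ tangent lam c := by
  obtain ⟨G, hG⟩ := exists_gpoly (k := k) (n := n) lam
  let Y : Matrix (Fin d) (Fin d) k := Matrix.of fun r s => dd c (G r s) w
  refine ⟨Y, ?_⟩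
  intro f hf
  let pm : Fin n → Matrix (Fin d) (Fin d) (MvPolynomial (Coord n d) k) := fun i =>
    G.adjugate * mats (fun x => X x) i * G
  let pv : Fin d → MvPolynomial (Coord n d) k := G.adjugate *ᵥ vect (fun x => X x)
  let p : Coord n d → MvPolynomial (Coord n d) k := Sum.elim (fun x => pm x.1 x.2.1 x.2.2) pv
  obtain ⟨N, Q, hQ⟩ := exists_clear_alg p G.det f
  -- general evaluation of p
  have hp1 : ∀ (A : Type u) [CommRing A] [Algebra k A] (y : Coord n d → A) (i : Fin n)
      (r s : Fin d), aeval y (p (Sum.inl (i, r, s))) =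
        ((G.map (aeval y)).adjugate * mats y i * G.map (aeval y)) r s := by
    intro A _ _ y i r s
    show aeval y (pm i r s) = _
    have e1 : aeval y (pm i r s) = ((G.adjugate * mats (fun x =>
      (X x : MvPolynomial (Coord n d) k)) i * G : Matrix (Fin d) (Fin d)
        (MvPolynomial (Coord n d) k)).map (aeval y)) r s := rfl
    rw [e1, Matrix.map_mul, Matrix.map_mul]
    have e2 : (mats (fun x => (X x : MvPolynomial (Coord n d) k)) i).map (aeval y) =
        mats y i := by
      ext r s
      simp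
    have e3 : G.adjugate.map (aeval y) = (G.map (aeval y)).adjugate :=
      RingHom.map_adjugate (aeval y : MvPolynomial (Coord n d) k →ₐ[k] A).toRingHom G
    rw [e2, e3]
  have hp2 : ∀ (A : Type u) [CommRing A] [Algebra k A] (y : Coord n d → A) (r : Fin d),
      aeval y (p (Sum.inr r)) = ((G.map (aeval y)).adjugate *ᵥ vect y) r := by
    intro A _ _ y r
    have e3 : G.adjugate.map (aeval y) = (G.map (aeval y)).adjugate :=
      RingHom.map_adjugate (aeval y : MvPolynomial (Coord n d) k →ₐ[k] A).toRingHom G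
    show aeval y ((G.adjugate *ᵥ vect (fun x => (X x : MvPolynomial (Coord n d) k))) r) = _
    rw [← e3, mulVec, mulVec, dotProduct, dotProduct, map_sum]
    simp
  have hdet : ∀ (A : Type u) [CommRing A] [Algebra k A] (y : Coord n d → A),
      aeval y G.det = (G.map (aeval y)).det := by
    intro A _ _ y
    exact RingHom.map_det (aeval y : MvPolynomial (Coord n d) k →ₐ[k] A).toRingHom G
  -- the product lies in the ideal
  have hmem : Q * G.det ∈ eqR k n d := by
    intro b hb
    obtain ⟨pp, hpp, lam', hlam'⟩ := exists_isCoord_of_Rset hb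
    rw [map_mul]
    by_cases hz : eval b G.det = 0
    · rw [hz, mul_zero]
    have hbC : b ∈ Cset k n d := hlam'.mem_Cset
    have hGb : G.map (aeval b) = gmat lam ⟨b, hbC⟩ := by
      rw [← hG ⟨b, hbC⟩]
      ext r s
      simp only [Matrix.map_apply, aeval_self]
    have hdetb : (gmat lam ⟨b, hbC⟩).det = eval b G.det := by
      rw [← hGb, ← hdet k b, aeval_self]
    have h0 := hQ k b (eval b G.det)⁻¹ (by rw [aeval_self]; exact mul_inv_cancel₀ hz)
    rw [aeval_self, aeval_self, aeval_self] at h0
    have hinv : gmat lam ⟨b, hbC⟩ * ((eval b G.det)⁻¹ • (gmat lam ⟨b, hbC⟩).adjugate) = 1 := by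
      rw [Matrix.mul_smul, Matrix.mul_adjugate, smul_smul, hdetb, inv_mul_cancel₀ hz, one_smul]
    have h2 := isCoord_Jc hbC hinv (gmat_mulVec lam ⟨b, hbC⟩)
    have h3 : (fun x => aeval b (p x) * (eval b G.det)⁻¹) =
        mk (fun i => ((eval b G.det)⁻¹ • (gmat lam ⟨b, hbC⟩).adjugate) * mats b i *
          gmat lam ⟨b, hbC⟩)
          (((eval b G.det)⁻¹ • (gmat lam ⟨b, hbC⟩).adjugate) *ᵥ vect b) := by
      funext x
      rcases x with ⟨i, r, s⟩ | r
      · rw [hp1 k b i r s, hGb, mul_comm]
        simp only [mk, Sum.elim_inl, Matrix.smul_mul, Matrix.smul_apply, smul_eq_mul]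
      · rw [hp2 k b r, hGb, mul_comm]
        simp only [mk, Sum.elim_inr, smul_mulVec, Pi.smul_apply, smul_eq_mul]
    have h4 : Jc b hbC = vanishingIdeal k (Set.range pp) := hlam'.eq_Jc.symm
    rw [h4] at h2
    have h5 := hf pp hpp _ h2
    rw [h3, h5, mul_zero] at h0
    rw [h0, zero_mul]
  -- the dual number point
  have hGc : ∀ r s, eval c (G r s) = (1 : Matrix (Fin d) (Fin d) k) r s := by
    intro r s
    have := congrFun (congrFun (hG ⟨c, h.mem_Cset⟩) r) s
    rw [gmat_eq_one h] at this
    exact this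
  let T := TrivSqZeroExt k k
  let y : Coord n d → T := fun x => TrivSqZeroExt.inl (c x) + TrivSqZeroExt.inr (w x)
  have hGy : G.map (aeval y) = dm 1 Y := by
    apply Matrix.ext
    intro r s
    rw [Matrix.map_apply, aeval_dual, hGc]
    rfl
  have hinv1 : dm 1 Y * dm 1 (-Y) = 1 := by
    rw [dm_mul, Matrix.one_mul, Matrix.one_mul, Matrix.mul_one, neg_add_cancel, dm_one]
  have hinv2 : dm 1 (-Y) * dm 1 Y = 1 := by
    rw [dm_mul, Matrix.one_mul, Matrix.one_mul, Matrix.mul_one, add_neg_cancel, dm_one]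
  let v : T := (dm (1 : Matrix (Fin d) (Fin d) k) (-Y)).det
  have hdv : aeval y G.det * v = 1 := by
    rw [hdet T y, hGy, ← Matrix.det_mul, hinv1, Matrix.det_one]
  have hadj : v • (dm (1 : Matrix (Fin d) (Fin d) k) Y).adjugate = dm 1 (-Y) := by
    have h1 : (dm (1 : Matrix (Fin d) (Fin d) k) Y).adjugate =
        (dm (1 : Matrix (Fin d) (Fin d) k) Y).det • dm 1 (-Y) := by
      calc (dm (1 : Matrix (Fin d) (Fin d) k) Y).adjugate
          = (dm (1 : Matrix (Fin d) (Fin d) k) Y).adjugate * (dm 1 Y * dm 1 (-Y)) := by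
            rw [hinv1, Matrix.mul_one]
        _ = ((dm (1 : Matrix (Fin d) (Fin d) k) Y).adjugate * dm 1 Y) * dm 1 (-Y) := by
            rw [Matrix.mul_assoc]
        _ = _ := by rw [Matrix.adjugate_mul, Matrix.smul_mul, Matrix.one_mul]
    have h2 : v * (dm (1 : Matrix (Fin d) (Fin d) k) Y).det = 1 := by
      rw [mul_comm, ← hGy, ← hdet T y]
      exact hdv
    rw [h1, smul_smul, h2, one_smul]
  have hmats : ∀ i, mats y i = dm (mats c i) (mats w i) := fun i => rfl
  have h6 : (fun x => aeval y (p x) * v) = fun x => (TrivSqZeroExt.inl (c x) +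
      TrivSqZeroExt.inr ((w - orb c Y) x) : T) := by
    funext x
    rcases x with ⟨i, r, s⟩ | r
    · rw [hp1 T y i r s, hGy, mul_comm]
      have e1 : v * ((dm 1 Y).adjugate * mats y i * dm 1 Y) r s =
          ((v • (dm 1 Y).adjugate) * mats y i * dm 1 Y) r s := by
        rw [Matrix.smul_mul, Matrix.smul_mul, Matrix.smul_apply, smul_eq_mul]
      rw [e1, hadj, hmats, dm_mul, dm_mul]
      simp only [dm, Matrix.of_apply, Matrix.one_mul, Matrix.mul_one]
      congr 2
      simp only [Pi.sub_apply, orb, LinearMap.coe_mk, AddHom.coe_mk, Sum.elim_inl,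
        Matrix.add_apply, Matrix.sub_apply, Matrix.neg_mul, Matrix.neg_apply, mats_apply]
      ring
    · rw [hp2 T y r, hGy, mul_comm]
      have e1 : v * ((dm 1 Y).adjugate *ᵥ vect y) r =
          ((v • (dm 1 Y).adjugate) *ᵥ vect y) r := by
        rw [smul_mulVec, Pi.smul_apply, smul_eq_mul]
      rw [e1, hadj, mulVec, dotProduct]
      have e2 : ∀ s, dm (1 : Matrix (Fin d) (Fin d) k) (-Y) r s * vect y s =
          TrivSqZeroExt.inl ((1 : Matrix (Fin d) (Fin d) k) r s * vect c s) +
          TrivSqZeroExt.inr ((1 : Matrix (Fin d) (Fin d) k) r s * vect w s +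
            (-Y) r s * vect c s) := by
        intro s
        exact tsz_mul _ _ _ _
      rw [Finset.sum_congr rfl (fun s _ => e2 s), tsz_sum, Finset.sum_add_distrib]
      have e3 : ∑ s, (1 : Matrix (Fin d) (Fin d) k) r s * vect c s = c (Sum.inr r) := by
        have := congrFun (one_mulVec (vect c)) r
        exact this
      have e4 : ∑ s, (1 : Matrix (Fin d) (Fin d) k) r s * vect w s = w (Sum.inr r) := by
        have := congrFun (one_mulVec (vect w)) r
        exact this
      rw [e3, e4]
      congr 2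
      simp only [Pi.sub_apply, orb, LinearMap.coe_mk, AddHom.coe_mk, Sum.elim_inr,
        mulVec, dotProduct, Matrix.neg_apply, neg_mul, Finset.sum_neg_distrib]
      ring
  have h7 : aeval y (Q * G.det) = 0 := by
    rw [aeval_dual, hc _ hmem, hw _ hmem]
    simp
  rw [map_mul] at h7
  have h8 : aeval y Q = 0 := by
    calc aeval y Q = aeval y Q * aeval y G.det * v := by rw [mul_assoc, hdv, mul_one]
      _ = 0 := by rw [h7, zero_mul]
  have h12 := hQ T y v hdv
  rw [h6, h8, aeval_dual c (w - orb c Y) f] at h12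
  have h9 : aeval y G.det ^ N * v ^ N = 1 := by rw [← mul_pow, hdv, one_pow]
  have h10 : (TrivSqZeroExt.inl (eval c f) + TrivSqZeroExt.inr (dd c f (w - orb c Y)) : T) = 0 := by
    calc (TrivSqZeroExt.inl (eval c f) + TrivSqZeroExt.inr (dd c f (w - orb c Y)) : T)
        = v ^ N * (aeval y G.det ^ N * (TrivSqZeroExt.inl (eval c f) +
            TrivSqZeroExt.inr (dd c f (w - orb c Y)))) := by
          rw [← mul_assoc, mul_comm (v ^ N), h9, one_mul]
      _ = 0 := by rw [← h12, mul_zero]
  have h11 := congrArg TrivSqZeroExt.snd h10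
  rw [TrivSqZeroExt.snd_add, TrivSqZeroExt.snd_inl, TrivSqZeroExt.snd_inr, zero_add] at h11
  exact h11

/-- Lower bounds for the tangent space of a chart. -/
theorem finrank_le_tangent_of_tanR {lam : Fin d → MvPolynomial (Fin n) k}
    {I : Ideal (MvPolynomial (Fin n) k)} {c : Coord n d → k} (h : IsCoord lam I c)
    (hc : c ∈ Zset k n d) {W : Submodule k (Coord n d → k)} (hW : W ≤ tanR c)
    (hW' : W ⊓ LinearMap.range (orb c) = ⊥) :
    finrank k W ≤ finrank k (tangent lam c) := by
  have h1 : W ⊔ LinearMap.range (orb c) ≤ tangent lam c ⊔ LinearMap.range (orb c) := by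
    apply sup_le _ le_sup_right
    intro w hw
    obtain ⟨Y, hY⟩ := exists_orb_sub h hc (hW hw)
    have h2 : w = (w - orb c Y) + orb c Y := by abel
    rw [h2]
    exact Submodule.add_mem_sup hY ⟨Y, rfl⟩
  have h2 := Submodule.finrank_mono h1
  have h3 := Submodule.finrank_sup_add_finrank_inf_eq W (LinearMap.range (orb c))
  have h4 := Submodule.finrank_sup_add_finrank_inf_eq (tangent lam c) (LinearMap.range (orb c))
  rw [hW', finrank_bot, add_zero] at h3
  rw [tangent_inf_orb h, finrank_bot, add_zero] at h4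
  omega

end Pool.Agent.Hilb61
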