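import Pool.Agent.Helper61.HilbTan

open MvPolynomial Module Matrix

namespace Pool.Agent.Hilb61

variable {k : Type*} [Field k] {n d m : ℕ}

/-- Coordinates of a set of `d` points with invertible evaluation matrix. -/
lemma isCoord_of_points {lam : Fin d → MvPolynomial (Fin n) k} {p : Fin d → Fin n → k}
    {c : Coord n d → k} (U U' : Matrix (Fin d) (Fin d) k) (hU : ∀ a r, U a r = eval (p a) (lam r))
    (hUU' : U * U' = 1) (h1 : ∀ a i s, p a i * U a s = (U * mats c i) a s)
    (h2 : ∀ a, (U *ᵥ vect c) a = 1) :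
    IsCoord lam (vanishingIdeal k (Set.range p)) c := by
  have hU'U : U' * U = 1 := mul_eq_one_comm.mp hUU'
  have hev : ∀ (g : MvPolynomial (Fin n) k) (a : Fin d → k) (b : Fin d),
      aeval (p b) (g - ∑ s, C (a s) * lam s) = eval (p b) g - (U *ᵥ a) b := by
    intro g a b
    rw [aeval_self, map_sub, map_sum, mulVec, dotProduct]
    congr 1
    apply Finset.sum_congr rfl
    intro s _
    rw [map_mul, eval_C, hU, mul_comm]
  refine ⟨?_, ?_, ?_⟩
  · intro f
    refine ⟨U' *ᵥ (fun b => eval (p b) f), ?_, ?_⟩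
    · rintro _ ⟨b, rfl⟩
      rw [hev, mulVec_mulVec, hUU', one_mulVec, sub_self]
    · intro a ha
      have h3 : (fun b => eval (p b) f) = U *ᵥ a := by
        funext b
        have := ha (p b) ⟨b, rfl⟩
        rw [hev] at this
        exact sub_eq_zero.mp this
      rw [h3, mulVec_mulVec, hU'U, one_mulVec]
  · rintro i s _ ⟨b, rfl⟩
    rw [hev (X i * lam s) (fun r => c (Sum.inl (i, r, s))) b, map_mul, eval_X, ← hU, h1]
    rw [sub_eq_zero, Matrix.mul_apply, mulVec, dotProduct]
    rfl
  · rintro _ ⟨b, rfl⟩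
    rw [hev 1 (fun r => c (Sum.inr r)) b, map_one, sub_eq_zero]
    exact (h2 b).symm

/-- Tangent vectors from quadratic curves of reduced schemes. -/
lemma mem_tangent_of_quad [Infinite k] {lam : Fin d → MvPolynomial (Fin n) k}
    (a b e : Coord n d → k)
    (h : ∀ t : k, t ≠ 0 → ∃ p : Fin d → Fin n → k, Function.Injective p ∧
      IsCoord lam (vanishingIdeal k (Set.range p)) (a + t • b + t ^ 2 • e)) :
    b ∈ tangent lam a := by
  intro f hf
  have h1 := dd_curve (k := k) (fun x => Polynomial.C (a x) + Polynomial.X * Polynomial.C (b x) +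
    Polynomial.X ^ 2 * Polynomial.C (e x)) f (by
      filter_upwards [Filter.eventually_cofinite_ne (0 : k)] with t ht
      obtain ⟨p, hp, hc⟩ := h t ht
      have h2 : (fun x => Polynomial.eval t (Polynomial.C (a x) + Polynomial.X *
          Polynomial.C (b x) + Polynomial.X ^ 2 * Polynomial.C (e x))) =
          a + t • b + t ^ 2 • e := by
        funext x
        simp only [Polynomial.eval_add, Polynomial.eval_C, Polynomial.eval_mul, Polynomial.eval_X,
          Polynomial.eval_pow, Pi.add_apply, Pi.smul_apply, smul_eq_mul]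
      rw [h2]
      exact hf p hp _ hc)
  convert h1 using 2
  · simp
  · simp

lemma injective_of_unit {lam : Fin d → MvPolynomial (Fin n) k} {p : Fin d → Fin n → k}
    (U U' : Matrix (Fin d) (Fin d) k) (hU : ∀ a r, U a r = eval (p a) (lam r))
    (hUU' : U * U' = 1) : Function.Injective p := by
  intro a b hab
  by_contra hne
  have h1 : ∀ r, U a r = U b r := by intro r; rw [hU, hU, hab]
  have h2 : (U * U') a a = (U * U') b a := by
    rw [Matrix.mul_apply, Matrix.mul_apply]
    exact Finset.sum_congr rfl fun r _ => by rw [h1]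
  rw [hUU', Matrix.one_apply_eq, Matrix.one_apply_ne (Ne.symm hne)] at h2
  exact one_ne_zero h2

/-! ### The family degenerating to the fat point -/

/-- The chart `1, x_1, …, x_m`. -/
noncomputable def lam0 (k : Type*) [Field k] {n m : ℕ} (hn : m ≤ n) :
    Fin (m + 1) → MvPolynomial (Fin n) k :=
  Fin.cases 1 (fun j => X (Fin.castLE hn j))

@[simp] lemma lam0_zero (hn : m ≤ n) : lam0 k hn 0 = 1 := rfl
@[simp] lemma lam0_succ (hn : m ≤ n) (j : Fin m) : lam0 k hn j.succ = X (Fin.castLE hn j) := rfl

/-- Block matrix. -/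
def blk (K : Matrix (Fin m) (Fin m) k) : Matrix (Fin (m + 1)) (Fin (m + 1)) k :=
  Matrix.of fun r s => Fin.cases (motive := fun _ => k) 0
    (fun r' => Fin.cases (motive := fun _ => k) 0 (fun s' => K r' s') s) r

@[simp] lemma blk_zero_left (K : Matrix (Fin m) (Fin m) k) (s : Fin (m + 1)) :
    blk K 0 s = 0 := rfl
@[simp] lemma blk_succ_zero (K : Matrix (Fin m) (Fin m) k) (r : Fin m) :
    blk K r.succ 0 = 0 := rfl
@[simp] lemma blk_succ_succ (K : Matrix (Fin m) (Fin m) k) (r s : Fin m) :
    blk K r.succ s.succ = K r s := rfl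

/-- coordinates of the fat point -/
def a0 (k : Type*) [Field k] (n m : ℕ) : Coord n (m + 1) → k :=
  Sum.elim (fun x => if h : (x.1 : ℕ) < m then eps k ⟨x.1, h⟩ x.2.1 x.2.2 else 0)
    (fun r => if r = 0 then 1 else 0)

/-- first order part -/
def b0 (n : ℕ) (N : Fin m → Matrix (Fin m) (Fin m) k) (g : Fin n → Fin (m + 1) → k) :
    Coord n (m + 1) → k :=
  Sum.elim (fun x => if h : (x.1 : ℕ) < m then blk (N ⟨x.1, h⟩) x.2.1 x.2.2 else
      (if x.2.1 = x.2.2 then g x.1 0 else 0) + ∑ l : Fin m, g x.1 l.succ * eps k l x.2.1 x.2.2)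
    (fun _ => 0)

/-- second order part -/
def e0 (n : ℕ) (N : Fin m → Matrix (Fin m) (Fin m) k) (g : Fin n → Fin (m + 1) → k) :
    Coord n (m + 1) → k :=
  Sum.elim (fun x => if (x.1 : ℕ) < m then 0 else
      ∑ l : Fin m, g x.1 l.succ * blk (N l) x.2.1 x.2.2)
    (fun _ => 0)

/-- The block matrices of the family. -/
def Nmat (V W : Matrix (Fin m) (Fin m) k) (τ : Fin m → k) (j : Fin m) : Matrix (Fin m) (Fin m) k :=
  W * Matrix.diagonal (fun b => τ b * V b j) * V

/-- The evaluation matrix of the family. -/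
def Umat (V : Matrix (Fin m) (Fin m) k) (τ : Fin m → k) (t : k) :
    Matrix (Fin (m + 1)) (Fin (m + 1)) k :=
  Matrix.of fun a s => Fin.cases (motive := fun _ => k) (if s = 0 then 1 else 0)
    (fun a' => Fin.cases (motive := fun _ => k) 1 (fun s' => t * τ a' * V a' s') s) a

/-- The points of the family. -/
def Pts (n : ℕ) (V : Matrix (Fin m) (Fin m) k) (τ : Fin m → k) (g : Fin n → Fin (m + 1) → k)
    (t : k) : Fin (m + 1) → Fin n → k :=
  fun a i => if h : (i : ℕ) < m then Umat V τ t a (Fin.succ ⟨i, h⟩) else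
    t * (g i 0 + ∑ l : Fin m, g i l.succ * Umat V τ t a l.succ)

lemma Umat_inv {V W : Matrix (Fin m) (Fin m) k} (hVW : V * W = 1) {τ : Fin m → k}
    (hτ : ∀ a, τ a ≠ 0) {t : k} (ht : t ≠ 0) :
    ∃ U' : Matrix (Fin (m + 1)) (Fin (m + 1)) k, Umat V τ t * U' = 1 := by
  have hinj : Function.Injective (Umat V τ t).mulVec := by
    have : Function.Injective (Matrix.toLin' (Umat V τ t)) := by
      rw [← LinearMap.ker_eq_bot, LinearMap.ker_eq_bot']
      intro x hx
      have hx' : ∀ a, ((Umat V τ t) *ᵥ x) a = 0 := fun a => congrFun hx a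
      have h0 : x 0 = 0 := by
        have := hx' 0
        rw [mulVec, dotProduct, Fin.sum_univ_succ] at this
        simpa [Umat, Fin.succ_ne_zero] using this
      have h1 : V *ᵥ (fun s => x s.succ) = 0 := by
        funext a
        have := hx' a.succ
        rw [mulVec, dotProduct, Fin.sum_univ_succ, h0, mul_zero, zero_add] at this
        simp only [Umat, Matrix.of_apply, Fin.cases_succ, mul_assoc, ← Finset.mul_sum] at this
        rw [mul_eq_zero] at this
        rcases this with h | h
        · exact absurd h ht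
        · rw [mul_eq_zero] at h
          rcases h with h | h
          · exact absurd h (hτ a)
          · exact h
      have h2 : (fun s : Fin m => x s.succ) = 0 := by
        have hWV : W * V = 1 := mul_eq_one_comm.mp hVW
        have := congrArg (fun y => W *ᵥ y) h1
        simpa [mulVec_mulVec, hWV] using this
      funext s
      refine Fin.cases h0 (fun j => ?_) s
      exact congrFun h2 j
    exact this
  rw [Matrix.mulVec_injective_iff_isUnit] at hinj
  obtain ⟨u, hu⟩ := hinj
  exact ⟨(u⁻¹ : (Matrix (Fin (m + 1)) (Fin (m + 1)) k)ˣ).1, by rw [← hu]; exact u.mul_inv⟩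

lemma Umat_eps (V : Matrix (Fin m) (Fin m) k) (τ : Fin m → k) (t : k) (l : Fin m)
    (a s : Fin (m + 1)) :
    (Umat V τ t * eps k l) a s = if s = 0 then Umat V τ t a l.succ else 0 :=
  mul_eps_apply l _ a s

lemma Umat_blk {V W : Matrix (Fin m) (Fin m) k} (hVW : V * W = 1) (τ : Fin m → k) (t : k)
    (l : Fin m) (a s : Fin (m + 1)) :
    t * (Umat V τ t * blk (Nmat V W τ l)) a s =
      if s = 0 then 0 else Umat V τ t a l.succ * Umat V τ t a s := by
  rw [Matrix.mul_apply, Fin.sum_univ_succ]
  refine Fin.cases ?_ (fun s' => ?_) s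
  · simp
  · refine Fin.cases ?_ (fun a' => ?_) a
    · simp [Umat, Fin.succ_ne_zero]
    · simp only [blk_zero_left, mul_zero, zero_add, blk_succ_succ, Fin.succ_ne_zero, if_false]
      have h1 : ∑ r : Fin m, V a' r * Nmat V W τ l r s' = τ a' * V a' l * V a' s' := by
        have : (V * Nmat V W τ l) a' s' = (Matrix.diagonal (fun b => τ b * V b l) * V) a' s' := by
          unfold Nmat
          rw [← Matrix.mul_assoc, ← Matrix.mul_assoc, hVW, Matrix.one_mul]
        rw [Matrix.mul_apply, Matrix.diagonal_mul] at this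
        exact this
      have h2 : ∑ r : Fin m, Umat V τ t a'.succ r.succ * Nmat V W τ l r s' =
          t * τ a' * ∑ r : Fin m, V a' r * Nmat V W τ l r s' := by
        rw [Finset.mul_sum]
        apply Finset.sum_congr rfl
        intro r _
        simp only [Umat, Matrix.of_apply, Fin.cases_succ]
        ring
      rw [h2, h1]
      simp only [Umat, Matrix.of_apply, Fin.cases_succ]
      ring

/-- The family consists of coordinates of reduced schemes. -/
lemma family_isCoord (hn : m ≤ n) {V W : Matrix (Fin m) (Fin m) k} (hVW : V * W = 1)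
    {τ : Fin m → k} (hτ : ∀ a, τ a ≠ 0) (g : Fin n → Fin (m + 1) → k) {t : k} (ht : t ≠ 0) :
    ∃ p : Fin (m + 1) → Fin n → k, Function.Injective p ∧
      IsCoord (lam0 k hn) (vanishingIdeal k (Set.range p))
        (a0 k n m + t • b0 n (Nmat V W τ) g + t ^ 2 • e0 n (Nmat V W τ) g) := by
  obtain ⟨U', hU'⟩ := Umat_inv hVW hτ ht
  have hU : ∀ a r, Umat V τ t a r = eval (Pts n V τ g t a) (lam0 k hn r) := by
    intro a r
    refine Fin.cases ?_ (fun j => ?_) r
    · rw [lam0_zero, map_one]
      refine Fin.cases ?_ (fun a' => ?_) a <;> simp [Umat]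
    · rw [lam0_succ, eval_X]
      simp [Pts]
  refine ⟨Pts n V τ g t, injective_of_unit _ U' hU hU', ?_⟩
  apply isCoord_of_points (Umat V τ t) U' hU hU'
  · intro a i s
    have hlow : ∀ l : Fin m, (Umat V τ t * (eps k l + t • blk (Nmat V W τ l))) a s =
        Umat V τ t a l.succ * Umat V τ t a s := by
      intro l
      rw [Matrix.mul_add, Matrix.add_apply, Umat_eps, Matrix.mul_smul, Matrix.smul_apply,
        smul_eq_mul, Umat_blk hVW]
      by_cases hs : s = 0
      · subst hs
        have : Umat V τ t a 0 = 1 := by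
          refine Fin.cases ?_ (fun a' => ?_) a <;> simp [Umat]
        simp [this]
      · simp [hs]
    by_cases hi : (i : ℕ) < m
    · have e1 : mats (a0 k n m + t • b0 n (Nmat V W τ) g + t ^ 2 • e0 n (Nmat V W τ) g) i =
          eps k ⟨i, hi⟩ + t • blk (Nmat V W τ ⟨i, hi⟩) := by
        ext r s
        simp [mats, a0, b0, e0, hi]
      rw [e1, hlow]
      simp [Pts, hi]
    · have e1 : mats (a0 k n m + t • b0 n (Nmat V W τ) g + t ^ 2 • e0 n (Nmat V W τ) g) i =
          (t * g i 0) • (1 : Matrix (Fin (m + 1)) (Fin (m + 1)) k) +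
            ∑ l : Fin m, (t * g i l.succ) • (eps k l + t • blk (Nmat V W τ l)) := by
        ext r s
        simp only [mats, a0, b0, e0, hi, Matrix.of_apply, Pi.add_apply, Sum.elim_inl, dif_neg,
          not_false_eq_true, Pi.smul_apply, smul_eq_mul, if_false, Matrix.add_apply,
          Matrix.smul_apply, Matrix.sum_apply, Matrix.one_apply, zero_add, mul_add, Finset.mul_sum,
          Finset.sum_add_distrib]
        rw [add_assoc]
        congr 1
        · by_cases hrs : r = s <;> simp [hrs]
        · congr 1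
          · apply Finset.sum_congr rfl; intro l _; ring
          · apply Finset.sum_congr rfl; intro l _; ring
      rw [e1, Matrix.mul_add, Matrix.mul_sum, Matrix.add_apply, Matrix.sum_apply]
      simp only [Matrix.mul_smul, Matrix.smul_apply, hlow, smul_eq_mul, Matrix.mul_one]
      simp only [Pts, hi, dif_neg, not_false_eq_true]
      rw [mul_add, add_mul, Finset.mul_sum, Finset.sum_mul]
      congr 1
      apply Finset.sum_congr rfl
      intro l _
      ring
  · intro a
    have e1 : vect (a0 k n m + t • b0 n (Nmat V W τ) g + t ^ 2 • e0 n (Nmat V W τ) g) =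
        Pi.single 0 1 := by
      funext r
      simp [a0, b0, e0, Pi.single_apply]
    rw [e1, mulVec_single_one]
    refine Fin.cases ?_ (fun a' => ?_) a <;> simp [Umat]

lemma b0_mem (hn : m ≤ n) [Infinite k] {V W : Matrix (Fin m) (Fin m) k} (hVW : V * W = 1)
    {τ : Fin m → k} (hτ : ∀ a, τ a ≠ 0) (g : Fin n → Fin (m + 1) → k) :
    b0 n (Nmat V W τ) g ∈ tangent (lam0 k hn) (a0 k n m) :=
  mem_tangent_of_quad _ _ _ fun _ ht => family_isCoord hn hVW hτ g ht

end Pool.Agent.Hilb61
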