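import Pool.Agent.Helper61.HilbLow

open MvPolynomial Module Matrix

namespace Pool.Agent.Hilb61

variable {k : Type*} [Field k] {n m : ℕ}

lemma b0_add (N N' : Fin m → Matrix (Fin m) (Fin m) k) (g g' : Fin n → Fin (m + 1) → k) :
    b0 n (N + N') (g + g') = b0 n N g + b0 n N' g' := by
  funext x
  rcases x with ⟨i, r, s⟩ | r
  · simp only [b0, Sum.elim_inl, Pi.add_apply]
    by_cases h : (i : ℕ) < m
    · simp only [h, dif_pos]
      refine Fin.cases ?_ (fun r' => ?_) r <;> refine Fin.cases ?_ (fun s' => ?_) s <;> simp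
    · simp only [h, dif_neg, not_false_eq_true, add_mul, Finset.sum_add_distrib]
      by_cases hrs : r = s
      · simp only [hrs, if_true]; ring
      · simp only [hrs, if_false]; ring
  · simp [b0]

lemma b0_smul (t : k) (N : Fin m → Matrix (Fin m) (Fin m) k) (g : Fin n → Fin (m + 1) → k) :
    b0 n (t • N) (t • g) = t • b0 n N g := by
  funext x
  rcases x with ⟨i, r, s⟩ | r
  · simp only [b0, Sum.elim_inl, Pi.smul_apply, smul_eq_mul]
    by_cases h : (i : ℕ) < m
    · simp only [h, dif_pos]
      refine Fin.cases ?_ (fun r' => ?_) r <;> refine Fin.cases ?_ (fun s' => ?_) s <;> simp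
    · simp only [h, dif_neg, not_false_eq_true, mul_add, Finset.mul_sum, mul_assoc]
      by_cases hrs : r = s
      · simp only [hrs, if_true]
      · simp only [hrs, if_false, mul_zero]
  · simp [b0]

/-- The linear parametrisation of tangent vectors. -/
def b0L (k : Type*) [Field k] (n m : ℕ) :
    ((Fin m → Matrix (Fin m) (Fin m) k) × (Fin n → Fin (m + 1) → k)) →ₗ[k]
      (Coord n (m + 1) → k) where
  toFun p := b0 n p.1 p.2
  map_add' _ _ := b0_add _ _ _ _
  map_smul' _ _ := b0_smul _ _ _

/-- symmetric tensors -/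
def symL (k : Type*) [Field k] (m : ℕ) :
    (Fin m → Sym2 (Fin m) → k) →ₗ[k] (Fin m → Matrix (Fin m) (Fin m) k) where
  toFun S j := Matrix.of fun r s => S r s(s, j)
  map_add' S T := by funext j; ext r s; rfl
  map_smul' t S := by funext j; ext r s; rfl

/-- The final parametrisation. -/
def PsiL (k : Type*) [Field k] (n m : ℕ) :
    ((Fin m → Sym2 (Fin m) → k) × (Fin (n - m) → Fin (m + 1) → k)) →ₗ[k]
      (Coord n (m + 1) → k) :=
  (b0L k n m).comp (LinearMap.prodMap (symL k m)
    { toFun := fun g i => if h : (i : ℕ) < m then 0 else g ⟨i - m, by omega⟩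
      map_add' := by
        intro g g'
        funext i
        by_cases h : (i : ℕ) < m <;> simp [h]
      map_smul' := by
        intro t g
        funext i
        by_cases h : (i : ℕ) < m <;> simp [h] })

lemma PsiL_apply (p : (Fin m → Sym2 (Fin m) → k) × (Fin (n - m) → Fin (m + 1) → k)) :
    PsiL k n m p = b0 n (symL k m p.1)
      (fun i => if h : (i : ℕ) < m then 0 else p.2 ⟨i - m, by omega⟩) := rfl

lemma PsiL_injective (hn : m ≤ n) : Function.Injective (PsiL k n m) := by
  rw [← LinearMap.ker_eq_bot, LinearMap.ker_eq_bot']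
  rintro ⟨S, g⟩ h
  rw [PsiL_apply] at h
  have hS : S = 0 := by
    funext r z
    induction z using Sym2.ind with
    | _ s j =>
    have := congrFun h (Sum.inl (Fin.castLE hn j, r.succ, s.succ))
    simp only [b0, Sum.elim_inl, Fin.val_castLE, j.isLt, dif_pos, blk_succ_succ] at this
    exact this
  have hg : g = 0 := by
    funext i s
    have hi : ¬ (m + (i : ℕ)) < m := by omega
    have hi' : m + (i : ℕ) < n := by have := i.isLt; omega
    refine Fin.cases ?_ (fun l => ?_) s
    · have := congrFun h (Sum.inl (⟨m + i, hi'⟩, 0, 0))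
      simp only [b0, Sum.elim_inl, hi, dif_neg, not_false_eq_true, if_true, eps,
        Matrix.of_apply, (Fin.succ_ne_zero _).symm, false_and, if_false, mul_zero,
        Finset.sum_const_zero, add_zero] at this
      simpa using this
    · have := congrFun h (Sum.inl (⟨m + i, hi'⟩, l.succ, 0))
      simp only [b0, Sum.elim_inl, hi, dif_neg, not_false_eq_true, Fin.succ_ne_zero, if_false,
        eps, Matrix.of_apply, Fin.succ_inj, and_true, mul_ite, mul_one, mul_zero, zero_add,
        Finset.sum_ite_eq, Finset.mem_univ, if_true] at this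
      simpa using this
  rw [hS, hg]
  rfl

section

variable (hn : m ≤ n) [Infinite k]

/-- The submodule of the `N`'s occurring. -/
noncomputable def Nsub (k : Type*) [Field k] {n m : ℕ} (hn : m ≤ n) :
    Submodule k (Fin m → Matrix (Fin m) (Fin m) k) :=
  (tangent (lam0 k hn) (a0 k n m)).comap ((b0L k n m).comp (LinearMap.inl k _ _))

omit [Infinite k] in
lemma mem_Nsub {N : Fin m → Matrix (Fin m) (Fin m) k} :
    N ∈ Nsub k hn ↔ b0 n N 0 ∈ tangent (lam0 k hn) (a0 k n m) := Iff.rfl

/-- The `N` attached to `v, w`. -/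
def Nvw (v w : Fin m → k) : Fin m → Matrix (Fin m) (Fin m) k :=
  fun j => v j • Matrix.vecMulVec w v

lemma Nmat_mem {V W : Matrix (Fin m) (Fin m) k} (hVW : V * W = 1)
    {τ : Fin m → k} (hτ : ∀ a, τ a ≠ 0) : (fun j => Nmat V W τ j) ∈ Nsub k hn := by
  rw [mem_Nsub]
  exact b0_mem hn hVW hτ 0

omit [Infinite k] in
lemma Nmat_sub (V W : Matrix (Fin m) (Fin m) k) (a : Fin m) (t : k) :
    (fun j => Nmat V W (Function.update 1 a t) j) - (fun j => Nmat V W 1 j) =
      (t - 1) • Nvw (V a) (fun r => W r a) := by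
  funext j
  ext r s
  simp only [Pi.sub_apply, Matrix.sub_apply, Pi.smul_apply, Matrix.smul_apply, Nvw, smul_eq_mul,
    Matrix.vecMulVec_apply, Nmat]
  rw [Matrix.mul_apply, Matrix.mul_apply, ← Finset.sum_sub_distrib]
  simp only [Matrix.mul_diagonal]
  rw [Finset.sum_eq_single a]
  · simp
    ring
  · intro b _ hb
    simp [Function.update_of_ne hb]
  · intro h; exact absurd (Finset.mem_univ a) h

lemma Nvw_mem_of_row {V W : Matrix (Fin m) (Fin m) k} (hVW : V * W = 1) (a : Fin m) :
    Nvw (V a) (fun r => W r a) ∈ Nsub k hn := by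
  classical
  obtain ⟨t, ht⟩ := Infinite.exists_notMem_finset ({0, 1} : Finset k)
  have ht0 : t ≠ 0 := by rintro rfl; simp at ht
  have ht1 : t ≠ 1 := by rintro rfl; simp at ht
  have h1 := Nmat_mem (k := k) hn hVW (τ := Function.update 1 a t) (by
    intro b
    by_cases hb : b = a
    · subst hb; simpa using ht0
    · rw [Function.update_of_ne hb]; exact one_ne_zero)
  have h2 := Nmat_mem (k := k) hn hVW (τ := 1) (fun _ => one_ne_zero)
  have h3 := (Nsub k hn).sub_mem h1 h2
  rw [Nmat_sub] at h3
  have h4 := (Nsub k hn).smul_mem (t - 1)⁻¹ h3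
  rwa [smul_smul, inv_mul_cancel₀ (sub_ne_zero.mpr ht1), one_smul] at h4

omit [Infinite k] in
/-- dual bases through a given pair -/
lemma exists_dual (v w : Fin m → k) (h : v ⬝ᵥ w = 1) :
    ∃ (V W : Matrix (Fin m) (Fin m) k) (a : Fin m), V * W = 1 ∧ V a = v ∧
      (fun r => W r a) = w := by
  obtain ⟨i0, hi0⟩ : ∃ i, v i ≠ 0 := by
    by_contra h'
    push Not at h'
    have : v = 0 := funext h'
    rw [this, zero_dotProduct] at h
    exact zero_ne_one h
  let V : Matrix (Fin m) (Fin m) k := Matrix.of fun r s =>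
    if r = i0 then v s else (if r = s then 1 else 0) - w r * v s
  have hV : ∀ (x : Fin m → k) (r : Fin m), (V *ᵥ x) r =
      if r = i0 then v ⬝ᵥ x else x r - w r * (v ⬝ᵥ x) := by
    intro x r
    by_cases hr : r = i0
    · simp [V, mulVec, dotProduct, hr]
    · simp only [V, mulVec, dotProduct, hr, if_false, Matrix.of_apply, sub_mul,
        Finset.sum_sub_distrib, mul_assoc, ← Finset.mul_sum]
      simp
  have hinj : Function.Injective V.mulVec := by
    have : Function.Injective (Matrix.toLin' V) := by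
      rw [← LinearMap.ker_eq_bot, LinearMap.ker_eq_bot']
      intro x hx
      have hx' : ∀ a, (V *ᵥ x) a = 0 := fun a => congrFun hx a
      have h0 : v ⬝ᵥ x = 0 := by
        have := hx' i0
        rwa [hV, if_pos rfl] at this
      have h1 : ∀ r, r ≠ i0 → x r = 0 := by
        intro r hr
        have := hx' r
        rw [hV, if_neg hr, h0] at this
        simpa using this
      have h2 : x i0 = 0 := by
        rw [dotProduct, Finset.sum_eq_single i0 (fun b _ hb => by rw [h1 b hb, mul_zero])
          (fun h => absurd (Finset.mem_univ _) h)] at h0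
        exact (mul_eq_zero.mp h0).resolve_left hi0
      funext r
      by_cases hr : r = i0
      · rw [hr, h2]; rfl
      · exact h1 r hr
    exact this
  rw [Matrix.mulVec_injective_iff_isUnit] at hinj
  obtain ⟨u, hu⟩ := hinj
  have hWV : (u⁻¹ : (Matrix (Fin m) (Fin m) k)ˣ).1 * V = 1 := by rw [← hu]; exact u.inv_mul
  refine ⟨V, (u⁻¹ : (Matrix (Fin m) (Fin m) k)ˣ).1, i0, by rw [← hu]; exact u.mul_inv, ?_, ?_⟩
  · funext s
    simp [V]
  · have h1 : V *ᵥ w = Pi.single i0 1 := by
      funext r
      rw [hV, h, Pi.single_apply]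
      by_cases hr : r = i0 <;> simp [hr]
    have h2 := congrArg (fun y => (u⁻¹ : (Matrix (Fin m) (Fin m) k)ˣ).1 *ᵥ y) h1
    simp only [mulVec_mulVec, hWV, one_mulVec, mulVec_single_one] at h2
    rw [h2]
    rfl

lemma Nvw_mem_of_dot {v w : Fin m → k} (h : v ⬝ᵥ w = 1) : Nvw v w ∈ Nsub k hn := by
  obtain ⟨V, W, a, hVW, hv, hw⟩ := exists_dual v w h
  have := Nvw_mem_of_row hn hVW a
  rwa [hv, hw] at this

omit [Infinite k] in
lemma Nvw_smul (t : k) (v w : Fin m → k) : Nvw v (t • w) = t • Nvw v w := by
  funext j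
  ext r s
  simp only [Nvw, Pi.smul_apply, Matrix.smul_apply, Matrix.vecMulVec_apply, smul_eq_mul]
  ring

omit [Infinite k] in
lemma Nvw_sub (v w w' : Fin m → k) : Nvw v (w - w') = Nvw v w - Nvw v w' := by
  funext j
  ext r s
  simp only [Nvw, Pi.sub_apply, Matrix.sub_apply, Matrix.smul_apply, Matrix.vecMulVec_apply,
    smul_eq_mul]
  ring

lemma Nvw_mem (v w : Fin m → k) : Nvw v w ∈ Nsub k hn := by
  by_cases hv : v = 0
  · have : Nvw v w = 0 := by
      funext j
      ext r s
      simp [Nvw, hv]
    rw [this]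
    exact Submodule.zero_mem _
  · obtain ⟨i0, hi0⟩ : ∃ i, v i ≠ 0 := by
      by_contra h'
      push Not at h'
      exact hv (funext h')
    have h0 : v ⬝ᵥ (Pi.single i0 (v i0)⁻¹) = 1 := by
      rw [dotProduct_single, mul_inv_cancel₀ hi0]
    by_cases hc : v ⬝ᵥ w = 0
    · have h1 : v ⬝ᵥ (w + Pi.single i0 (v i0)⁻¹) = 1 := by
        rw [dotProduct_add, hc, h0, zero_add]
      have h2 := (Nsub k hn).sub_mem (Nvw_mem_of_dot hn h1) (Nvw_mem_of_dot hn h0)
      rw [← Nvw_sub] at h2
      simpa using h2
    · have h1 : v ⬝ᵥ ((v ⬝ᵥ w)⁻¹ • w) = 1 := by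
        rw [dotProduct_smul, smul_eq_mul, inv_mul_cancel₀ hc]
      have h2 := (Nsub k hn).smul_mem (v ⬝ᵥ w) (Nvw_mem_of_dot hn h1)
      rw [← Nvw_smul, smul_smul, mul_inv_cancel₀ hc, one_smul] at h2
      exact h2

lemma symL_mem (S : Fin m → Sym2 (Fin m) → k) : symL k m S ∈ Nsub k hn := by
  have key : ∀ (r : Fin m) (z : Sym2 (Fin m)),
      symL k m (Pi.single r (Pi.single z 1)) ∈ Nsub k hn := by
    intro r z
    induction z using Sym2.ind with
    | _ i j =>
    by_cases hij : i = j
    · subst hij
      have : symL k m (Pi.single r (Pi.single s(i, i) 1)) = Nvw (Pi.single i 1) (Pi.single r 1) := by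
        funext l
        ext r' s'
        simp only [symL, LinearMap.coe_mk, AddHom.coe_mk, Matrix.of_apply, Nvw, Matrix.smul_apply,
          Matrix.vecMulVec_apply, smul_eq_mul, Pi.single_apply]
        by_cases h1 : r' = r
        · subst h1
          simp only [if_true, Pi.single_apply, Sym2.eq_iff]
          by_cases h2 : s' = i <;> by_cases h3 : l = i <;> simp [h2, h3]
        · simp [h1]
      rw [this]
      exact Nvw_mem hn _ _
    · have : symL k m (Pi.single r (Pi.single s(i, j) 1)) =
          Nvw (Pi.single i 1 + Pi.single j 1) (Pi.single r 1) - Nvw (Pi.single i 1) (Pi.single r 1)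
            - Nvw (Pi.single j 1) (Pi.single r 1) := by
        funext l
        ext r' s'
        simp only [symL, LinearMap.coe_mk, AddHom.coe_mk, Matrix.of_apply, Nvw, Matrix.smul_apply,
          Matrix.vecMulVec_apply, smul_eq_mul, Pi.single_apply, Pi.sub_apply, Matrix.sub_apply,
          Pi.add_apply]
        by_cases h1 : r' = r
        · subst h1
          simp only [if_true, Pi.single_apply, Sym2.eq_iff]
          by_cases h2 : s' = i
          · subst h2
            by_cases h3 : l = s'
            · subst h3; simp [hij]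
            · by_cases h4 : l = j
              · subst h4; simp [hij, Ne.symm hij]
              · simp [h3, h4, hij]
          · by_cases h2' : s' = j
            · subst h2'
              by_cases h3 : l = s'
              · subst h3; simp [Ne.symm hij]
              · by_cases h4 : l = i
                · subst h4; simp [hij, Ne.symm hij]
                · simp [h3, h4, h2]
            · simp [h2, h2']
        · simp [h1]
      rw [this]
      exact (Nsub k hn).sub_mem ((Nsub k hn).sub_mem (Nvw_mem hn _ _) (Nvw_mem hn _ _))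
        (Nvw_mem hn _ _)
  have h1 : S = ∑ r, ∑ z, S r z • (Pi.single r (Pi.single z 1) : Fin m → Sym2 (Fin m) → k) := by
    funext r z
    simp only [Finset.sum_apply, Pi.smul_apply, smul_eq_mul]
    rw [Finset.sum_eq_single r, Finset.sum_eq_single z]
    · simp
    · intro z' _ hz'
      simp [hz'.symm]
    · intro h; exact absurd (Finset.mem_univ z) h
    · intro r' _ hr'
      apply Finset.sum_eq_zero
      intro z' _
      simp [hr'.symm]
    · intro h; exact absurd (Finset.mem_univ r) h
  rw [h1, map_sum]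
  apply Submodule.sum_mem
  intro r _
  rw [map_sum]
  apply Submodule.sum_mem
  intro z _
  rw [map_smul]
  exact Submodule.smul_mem _ _ (key r z)

lemma PsiL_mem (p : (Fin m → Sym2 (Fin m) → k) × (Fin (n - m) → Fin (m + 1) → k)) :
    PsiL k n m p ∈ tangent (lam0 k hn) (a0 k n m) := by
  have h1 : ∀ g : Fin n → Fin (m + 1) → k, b0 n (0 : Fin m → Matrix (Fin m) (Fin m) k) g ∈
      tangent (lam0 k hn) (a0 k n m) := by
    intro g
    have h2 := b0_mem (k := k) hn (V := 1) (W := 1) (mul_one 1) (τ := 1) (fun _ => one_ne_zero) g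
    have h3 := b0_mem (k := k) hn (V := 1) (W := 1) (mul_one 1) (τ := 1) (fun _ => one_ne_zero) 0
    have h4 := Submodule.sub_mem _ h2 h3
    have h5 : b0 n (Nmat (1 : Matrix (Fin m) (Fin m) k) 1 1) g -
        b0 n (Nmat (1 : Matrix (Fin m) (Fin m) k) 1 1) 0 = b0 n 0 g := by
      rw [sub_eq_iff_eq_add, ← b0_add, zero_add, add_zero]
    rwa [h5] at h4
  obtain ⟨S, g⟩ := p
  show b0 n (symL k m S) (fun i => if h : (i : ℕ) < m then 0 else g ⟨i - m, _⟩) ∈ _
  have h2 := Submodule.add_mem _ ((mem_Nsub hn).mp (symL_mem hn S))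
    (h1 (fun i => if h : (i : ℕ) < m then 0 else g ⟨i - m, by omega⟩))
  rw [← b0_add, add_zero, zero_add] at h2
  exact h2

/-- **Lower bound** for the tangent space at the fat point. -/
theorem le_finrank_tangent :
    m * (m + 1).choose 2 + (n - m) * (m + 1) ≤
      finrank k (tangent (lam0 k hn) (a0 k n m)) := by
  have h1 : LinearMap.range (PsiL k n m) ≤ tangent (lam0 k hn) (a0 k n m) := by
    rintro _ ⟨p, rfl⟩
    exact PsiL_mem hn p
  have h2 := Submodule.finrank_mono h1
  rw [LinearMap.finrank_range_of_inj (PsiL_injective hn)] at h2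
  refine le_trans (le_of_eq ?_) h2
  simp only [Module.finrank_prod, Module.finrank_pi_fintype, Module.finrank_self, Sym2.card,
    Finset.sum_const, Finset.card_univ, Fintype.card_fin, smul_eq_mul, mul_one]

end

end Pool.Agent.Hilb61
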