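import Pool.Agent.Helper61.HilbSemi

/-!
# The base change orbit is tangent to the closure of the framed reduced tuples
-/

open MvPolynomial Module Matrix TopologicalSpace

namespace Pool.Agent.Hilb61

universe u

variable {k : Type u} [Field k] {n d : ℕ}

lemma tanR_of_quad [Infinite k] {c o q : Coord n d → k}
    (h : ∀ᶠ t : k in Filter.cofinite, c + t • o + t ^ 2 • q ∈ Zset k n d) : o ∈ tanR c := by
  let cv : Coord n d → Polynomial k := fun x =>
    Polynomial.C (c x) + Polynomial.X * Polynomial.C (o x) +
      Polynomial.X ^ 2 * Polynomial.C (q x)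
  have hcv : ∀ t : k, (fun x => (cv x).eval t) = c + t • o + t ^ 2 • q := by
    intro t
    funext x
    simp only [cv, Polynomial.eval_add, Polynomial.eval_C, Polynomial.eval_mul, Polynomial.eval_X,
      Polynomial.eval_pow, Pi.add_apply, Pi.smul_apply, smul_eq_mul]
  have h1 := tanR_of_curve cv (by
    filter_upwards [h] with t ht
    rw [hcv]
    exact ht)
  have h2 : (fun x => (cv x).eval 0) = c := by
    rw [hcv]
    simp
  have h3 : (fun x => (Polynomial.derivative (cv x)).eval 0) = o := by
    funext x
    simp [cv, Polynomial.derivative_pow]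
  rw [h2, h3] at h1
  exact h1

lemma Zset_conjL {g g' : Matrix (Fin d) (Fin d) k} (h : g * g' = 1) {c : Coord n d → k}
    (hc : c ∈ Zset k n d) : conjL g g' c ∈ Zset k n d :=
  (tanR_push (fun _ hb => conjL_Rset h hb) (conjL_injective h) hc).1

lemma Zset_glL {g g' : Matrix (Fin n) (Fin n) k} (h : g' * g = 1) {c : Coord n d → k}
    (hc : c ∈ Zset k n d) : glL g c ∈ Zset k n d :=
  (tanR_push (fun _ hb => glL_Rset h hb) (glL_injective h) hc).1

lemma mk_add (A B : Fin n → Matrix (Fin d) (Fin d) k) (v v' : Fin d → k) :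
    mk A v + mk B v' = mk (A + B) (v + v') := by
  funext x
  rcases x with ⟨i, r, s⟩ | r <;> rfl

lemma mk_smul (t : k) (A : Fin n → Matrix (Fin d) (Fin d) k) (v : Fin d → k) :
    t • mk A v = mk (t • A) (t • v) := by
  funext x
  rcases x with ⟨i, r, s⟩ | r <;> rfl

lemma orb_eq (c : Coord n d → k) (Y : Matrix (Fin d) (Fin d) k) :
    orb c Y = mk (fun i => Y * mats c i - mats c i * Y) (Y *ᵥ vect c) := rfl

/-- Scaling of the matrices. -/
lemma Zset_scale {c : Coord n d → k} (hc : c ∈ Zset k n d) {s : k} (hs : s ≠ 0) :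
    mk (fun i => s • mats c i) (vect c) ∈ Zset k n d := by
  have h1 : (s⁻¹ • (1 : Matrix (Fin n) (Fin n) k)) * (s • 1) = 1 := by
    rw [Matrix.smul_mul, Matrix.one_mul, smul_smul, inv_mul_cancel₀ hs, one_smul]
  have h2 := Zset_glL h1 hc
  have h3 : glL (s • (1 : Matrix (Fin n) (Fin n) k)) c = mk (fun i => s • mats c i) (vect c) := by
    rw [← mk_eta (glL (s • (1 : Matrix (Fin n) (Fin n) k)) c)]
    congr 1
    funext i
    rw [mats_glL, Finset.sum_eq_single i]
    · simp
    · intro j _ hj
      simp [hj.symm]
    · intro h; exact absurd (Finset.mem_univ i) h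
  rwa [h3] at h2

lemma orb_mem_tanR_sq [Infinite k] {c : Coord n d → k} (hc : c ∈ Zset k n d)
    {E : Matrix (Fin d) (Fin d) k} (hE : E * E = 0) : orb c E ∈ tanR c := by
  apply tanR_of_quad (q := mk (fun i => -(E * mats c i * E)) 0)
  apply Filter.Eventually.of_forall
  intro t
  have h1 : (1 - t • E) * (1 + t • E) = 1 := by
    simp only [sub_mul, mul_add, Matrix.smul_mul, Matrix.mul_smul, hE, one_mul, mul_one, smul_zero]
    abel
  have h2 := Zset_conjL h1 hc
  convert h2 using 1
  rw [conjL_apply, orb_eq]
  conv_lhs => rw [← mk_eta c]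
  rw [mk_smul, mk_smul, mk_add, mk_add]
  congr 1
  · funext i
    simp only [Pi.add_apply, Pi.smul_apply]
    show mats c i + t • (E * mats c i - mats c i * E) + t ^ 2 • -(E * mats c i * E) =
      (1 + t • E) * mats c i * (1 - t • E)
    simp only [mul_sub, add_mul, mul_one, one_mul, Matrix.mul_smul, Matrix.smul_mul, smul_smul,
      smul_sub, smul_neg, pow_two]
    abel
  · rw [smul_zero, add_zero]
    show vect c + t • (E *ᵥ vect c) = (1 + t • E) *ᵥ vect c
    rw [add_mulVec, one_mulVec, smul_mulVec]

lemma orb_mem_tanR_idem [Infinite k] {c : Coord n d → k} (hc : c ∈ Zset k n d)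
    {E : Matrix (Fin d) (Fin d) k} (hE : E * E = E) : orb c E ∈ tanR c := by
  have hne : ∀ᶠ t : k in Filter.cofinite, t ≠ -1 := Filter.eventually_cofinite_ne _
  have h0 : mk (mats c) 0 ∈ tanR c := by
    apply tanR_of_quad (q := 0)
    filter_upwards [hne] with t ht
    have ht' : 1 + t ≠ 0 := fun h => ht (by linear_combination h)
    have h2 := Zset_scale hc ht'
    convert h2 using 1
    conv_lhs => rw [← mk_eta c]
    rw [smul_zero, add_zero]
    show mk (mats c) (vect c) + t • mk (mats c) 0 = _
    rw [mk_smul, mk_add, smul_zero, add_zero]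
    congr 1
    funext i
    show mats c i + t • mats c i = (1 + t) • mats c i
    rw [add_smul, one_smul]
  have h1 : mk (mats c) 0 + orb c E ∈ tanR c := by
    apply tanR_of_quad (q := mk (fun i => E * mats c i * (1 - E)) 0)
    filter_upwards [hne] with t ht
    have ht' : 1 + t ≠ 0 := fun h => ht (by linear_combination h)
    have h3 : (1 - (t / (1 + t)) • E) * (1 + t • E) = 1 := by
      simp only [sub_mul, mul_add, Matrix.smul_mul, Matrix.mul_smul, hE, one_mul, mul_one,
        smul_smul]
      have h5 : t - (t / (1 + t) + t * (t / (1 + t))) = 0 := by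
        field_simp
        ring
      have h6 : (1 : Matrix (Fin d) (Fin d) k) - (t / (1 + t)) • E +
          (t • E - (t * (t / (1 + t))) • E) =
          1 + (t - (t / (1 + t) + t * (t / (1 + t)))) • E := by module
      rw [h6, h5, zero_smul, add_zero]
    have h4 := Zset_scale (Zset_conjL h3 hc) ht'
    convert h4 using 1
    rw [conjL_apply, orb_eq]
    conv_lhs => rw [← mk_eta c]
    rw [mk_add, mk_smul, mk_smul, mk_add, mk_add]
    congr 1
    · funext i
      show mats (mk (mats c) (vect c)) i + t • (mats (mk (mats c) (vect c)) i +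
        (E * mats (mk (mats c) (vect c)) i - mats (mk (mats c) (vect c)) i * E)) +
        t ^ 2 • (E * mats (mk (mats c) (vect c)) i * (1 - E)) =
        (1 + t) • ((1 + t • E) * mats c i * (1 - (t / (1 + t)) • E))
      rw [mats_mk]
      have e1 : (1 + t) • ((1 + t • E) * mats c i * (1 - (t / (1 + t)) • E)) =
          (1 + t • E) * mats c i * ((1 + t) • 1 - t • E) := by
        rw [← Matrix.mul_smul, smul_sub, smul_smul, mul_div_cancel₀ _ ht']
      rw [e1]
      simp only [add_mul, mul_sub, mul_add, one_mul, mul_one, Matrix.mul_smul, Matrix.smul_mul,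
        smul_smul, smul_sub, smul_add, add_smul, one_smul, Matrix.mul_assoc]
      module
    · rw [smul_zero, add_zero, zero_add]
      show vect c + t • (E *ᵥ vect c) = (1 + t • E) *ᵥ vect c
      rw [add_mulVec, one_mulVec, smul_mulVec]
  have h2 := Submodule.sub_mem _ h1 h0
  rwa [add_sub_cancel_left] at h2

/-- **The orbit directions are tangent.** -/
theorem orb_mem_tanR [Infinite k] {c : Coord n d → k} (hc : c ∈ Zset k n d)
    (Y : Matrix (Fin d) (Fin d) k) : orb c Y ∈ tanR c := by
  classical
  rw [Matrix.matrix_eq_sum_single Y, map_sum]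
  apply Submodule.sum_mem
  intro i _
  rw [map_sum]
  apply Submodule.sum_mem
  intro j _
  have h1 : Matrix.single i j (Y i j) = Y i j • Matrix.single i j (1 : k) := by
    rw [Matrix.smul_single, smul_eq_mul, mul_one]
  rw [h1, map_smul]
  apply Submodule.smul_mem
  by_cases hij : i = j
  · subst hij
    apply orb_mem_tanR_idem hc
    rw [Matrix.single_mul_single_same, mul_one]
  · apply orb_mem_tanR_sq hc
    rw [Matrix.single_mul_single_of_ne _ _ _ _ (Ne.symm hij)]

/-- The tangent space of a chart and the tangent space of the closure of the framed tuples. -/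
theorem finrank_tanR_eq [Infinite k] {x : Hilb k n d} (hx : x ∈ smoothable k n d)
    {lam : Fin d → MvPolynomial (Fin n) k} {c : Coord n d → k} (h : IsCoord lam x.1 c) :
    finrank k (tanR c) = finrank k (tangent lam c) + d ^ 2 := by
  have hc := Zset_of_smoothable hx h
  have horb : finrank k (LinearMap.range (orb c)) = d ^ 2 := by
    rw [LinearMap.finrank_range_of_inj (orb_injective h), Module.finrank_matrix]
    simp [sq]
  apply le_antisymm
  · -- a complement
    obtain ⟨W, hW1, hW2⟩ := Submodule.exists_isCompl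
      ((LinearMap.range (orb c)).comap (tanR c).subtype)
    let W' : Submodule k (Coord n d → k) := W.map (tanR c).subtype
    have h1 : W' ≤ tanR c := by
      rintro _ ⟨w, _, rfl⟩
      exact w.2
    have h2 : W' ⊓ LinearMap.range (orb c) = ⊥ := by
      rw [eq_bot_iff]
      rintro _ ⟨⟨w, hw, rfl⟩, hw'⟩
      have h3 : w ∈ W ⊓ (LinearMap.range (orb c)).comap (tanR c).subtype := ⟨hw, hw'⟩
      have h4 : w ∈ (⊥ : Submodule k (tanR c)) := hW1.le_bot ⟨h3.2, h3.1⟩
      rw [Submodule.mem_bot] at h4
      rw [h4]
      exact Submodule.zero_mem _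
    have h3 := finrank_le_tangent_of_tanR h hc h1 h2
    have h4 : finrank k W' = finrank k W :=
      (Submodule.equivMapOfInjective (tanR c).subtype (Submodule.subtype_injective _) W).finrank_eq.symm
    have h5 := Submodule.finrank_add_eq_of_isCompl (IsCompl.mk hW1 hW2)
    have h6 : finrank k ((LinearMap.range (orb c)).comap (tanR c).subtype) ≤ d ^ 2 := by
      rw [← horb]
      have h7 := (Submodule.equivMapOfInjective (tanR c).subtype
        (Submodule.subtype_injective _) ((LinearMap.range (orb c)).comap (tanR c).subtype)).finrank_eq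
      rw [h7]
      apply Submodule.finrank_mono
      rintro _ ⟨w, hw, rfl⟩
      exact hw
    omega
  · have h1 := Submodule.finrank_sup_add_finrank_inf_eq (tangent lam c) (LinearMap.range (orb c))
    rw [tangent_inf_orb h, finrank_bot, add_zero, horb] at h1
    rw [← h1]
    apply Submodule.finrank_mono
    apply sup_le (tangent_le_tanR lam c)
    rintro _ ⟨Y, rfl⟩
    exact orb_mem_tanR hc Y

end Pool.Agent.Hilb61
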