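import Pool.Agent.Helper61.HilbStabH
import Pool.Agent.Helper61.HilbOrb
import Pool.Agent.Helper61.HilbFam
import Pool.Agent.Helper61.HilbBI

/-!
# The maximum is attained at strongly stable monomial points
-/

open MvPolynomial Module Matrix TopologicalSpace Finset

namespace Pool.Agent.Hilb61

universe u

variable {k : Type u} [Field k] {n d : ℕ}

/-- The monomial point. -/
lemma exists_isCoord_c00 (k : Type u) [Field k] {mon : Fin d → (Fin n →₀ ℕ)} (h : IsOrd mon)
    (hd : 1 ≤ d) : ∃ x : Hilb k n d, IsCoord (lamD k mon) x.1 (c00 k mon) := by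
  have hA : Adm mon (∅ : Finset (Fin d)) (∅ : Finset (Fin n →₀ ℕ)) :=
    ⟨by simp, by simp, by simp, by simp⟩
  have h1 := isCoord_cF (k := k) hA h 0
  refine ⟨toHilb ⟨cF mon ∅ ∅ 0, cF_mem hA h 0⟩, ?_⟩
  have h2 := cF_zero (k := k) hA h hd
  rw [← h2]
  exact h1

/-- **Degeneration to a strongly stable monomial point inside the smoothable component.** -/
theorem exists_stable_max [Infinite k] (hK : ∀ m : ℕ, 1 ≤ m → m ≤ d → (m : k) ≠ 0) (hd : 1 ≤ d)
    {x : Hilb k n d} (hx : x ∈ smoothable k n d) {N : ℕ} (hN : HasTangentDim x N) :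
    ∃ mon : Fin d → (Fin n →₀ ℕ), IsOrd mon ∧ Stable (Dlt mon) ∧
      ∃ x' ∈ smoothable k n d, IsCoord (lamD k mon) x'.1 (c00 k mon) ∧
        N ≤ finrank k (tangent (lamD k mon) (c00 k mon)) := by
  obtain ⟨lam, c, hc, rfl⟩ := hN
  obtain ⟨w, hw1, -, hw3⟩ := exists_weight n d
  have hcomm := coords_comm hc
  have hcyc := coords_cyclic hc
  let V : (Fin n →₀ ℕ) → (Fin d → k) := fun B =>
    evHom (mats c) hcomm (MvPolynomial.monomial B 1) *ᵥ vect c
  have hV : ∀ B i, V (B + Finsupp.single i 1) = mats c i *ᵥ V B := by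
    intro B i
    show evHom (mats c) hcomm (MvPolynomial.monomial (B + Finsupp.single i 1) 1) *ᵥ vect c =
      mats c i *ᵥ (evHom (mats c) hcomm (MvPolynomial.monomial B 1) *ᵥ vect c)
    have h1 : (MvPolynomial.monomial (B + Finsupp.single i 1) (1 : k)) =
        MvPolynomial.X i * MvPolynomial.monomial B 1 := by
      rw [add_comm B, MvPolynomial.monomial_single_add, pow_one]
    rw [h1, map_mul, evHom_X, mulVec_mulVec]
  have h0 : V 0 = vect c := by
    show evHom (mats c) hcomm (MvPolynomial.monomial 0 1) *ᵥ vect c = vect c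
    have : (MvPolynomial.monomial (0 : Fin n →₀ ℕ) (1 : k)) = 1 := rfl
    rw [this, map_one, one_mulVec]
  have hspan : Submodule.span k (Set.range V) = ⊤ := by
    apply hcyc
    · rw [← h0]
      exact Submodule.subset_span ⟨0, rfl⟩
    · intro i x hx
      induction hx using Submodule.span_induction with
      | mem x hx =>
        obtain ⟨B, rfl⟩ := hx
        rw [← hV]
        exact Submodule.subset_span ⟨_, rfl⟩
      | zero => rw [mulVec_zero]; exact zero_mem _
      | add x y _ _ hx hy => rw [mulVec_add]; exact add_mem hx hy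
      | smul t x _ hx => rw [mulVec_smul]; exact Submodule.smul_mem _ t hx
  obtain ⟨mon, b, h1, h2, h3, h4⟩ := exists_std hV hspan hw1 hw3
  obtain ⟨h5, h6⟩ := degen_c00 (Zset_of_smoothable hx hc) hV h0 h2 h3 h4
  obtain ⟨mon', h7, h8, h9, h10⟩ := exists_stable_H hK h1 h5
  obtain ⟨x', hx'⟩ := exists_isCoord_c00 k h7 hd
  have hs : x' ∈ smoothable k n d := by
    rw [← toHilb_eq hx']
    exact smoothable_of_Zset h9 _
  refine ⟨mon', h7, h8, x', hs, hx', ?_⟩
  have e1 := finrank_tanR_eq hx hc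
  have e2 := finrank_tanR_eq hs hx'
  omega

/-! ### The numbers `τ` and `σ` -/

/-- The number of elements whose coordinates of index at least `j` vanish. -/
def tauF (Δ : Finset (Fin n →₀ ℕ)) (j : ℕ) : ℕ := (slc Δ j 0).card

lemma tauF_mono (Δ : Finset (Fin n →₀ ℕ)) {j j' : ℕ} (h : j ≤ j') : tauF Δ j ≤ tauF Δ j' := by
  apply card_le_card
  intro s hs
  rw [mem_slc] at hs ⊢
  exact ⟨hs.1, fun m hm => hs.2 m (by omega)⟩

lemma card_section_le {Δ : Finset (Fin n →₀ ℕ)} (hΔ : Stable Δ) (l : Fin n) (c : ℕ) :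
    (Δ.filter (fun s => s l = c ∧ ∀ m, l < m → s m = 0)).card ≤ tauF Δ l := by
  classical
  apply card_le_card_of_injOn (fun s => s - Finsupp.single l c)
  · intro s hs
    have hs' : s ∈ Δ.filter (fun s => s l = c ∧ ∀ m, l < m → s m = 0) := hs
    rw [mem_filter] at hs'
    obtain ⟨h1, h2, h3⟩ := hs'
    show s - Finsupp.single l c ∈ slc Δ l 0
    rw [mem_slc]
    have h4 := sub_add_single' (s := s) (i := l) (m := c) (by omega)
    refine ⟨hΔ.of_add c _ (by rw [h4]; exact h1), fun m hm => ?_⟩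
    rw [Finsupp.tsub_apply]
    by_cases h5 : m = l
    · subst h5
      rw [Finsupp.single_eq_same, h2]
      simp
    · have h6 : l < m := lt_of_le_of_ne hm (fun h => h5 h.symm)
      rw [h3 m h6]
      simp
  · intro s hs s' hs' hss
    have hs1 : s ∈ Δ.filter (fun s => s l = c ∧ ∀ m, l < m → s m = 0) := hs
    have hs2 : s' ∈ Δ.filter (fun s => s l = c ∧ ∀ m, l < m → s m = 0) := hs'
    rw [mem_filter] at hs1 hs2
    have hss' : s - Finsupp.single l c = s' - Finsupp.single l c := hss
    rw [← sub_add_single' (s := s) (i := l) (m := c) (by omega), hss',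
      sub_add_single' (s := s') (i := l) (m := c) (by omega)]

/-- **Bound of the tangent space of a strongly stable point by `τ`.** -/
theorem finrank_tangent_le_tau (hn : 3 ≤ n) {mon : Fin d → (Fin n →₀ ℕ)} (h : IsOrd mon)
    (hst : Stable (Dlt mon)) {x : Hilb k n d} (hx : IsCoord (lamD k mon) x.1 (c00 k mon)) :
    finrank k (tangent (lamD k mon) (c00 k mon)) ≤
      d + (n - 1) * (d * tauF (Dlt mon) (n - 2)) := by
  classical
  have h1 := finrank_tangent_add_le hx
  have h2 : mats (c00 k mon) = Amon k mon := by rw [c00_eq, mats_mk]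
  rw [h2] at h1
  have h3 := finrank_ZC_le_flag (by omega) (Amon k mon)
  rw [Fintype.card_fin] at h3
  have h4 : ∀ l, 1 ≤ l → l ≤ n - 2 →
      finrank k (CentGe (Amon k mon) l) ≤ d * tauF (Dlt mon) (n - 2) := by
    intro l hl hln
    have h5 := finrank_CentGe_le (k := k) h ⟨l, by omega⟩
    refine h5.trans ?_
    have h7 := sum_le_card_nsmul (Dlt mon) (fun u => ((Dlt mon).filter
      (fun s => s (⟨l, by omega⟩ : Fin n) = u ⟨l, by omega⟩ ∧
        ∀ m, (⟨l, by omega⟩ : Fin n) < m → s m = 0)).card) (tauF (Dlt mon) (n - 2)) (by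
      intro u _
      exact (card_section_le hst _ _).trans (tauF_mono _ hln))
    rw [h.card_Dlt, smul_eq_mul] at h7
    exact h7
  have h5 : ∑ l ∈ Finset.range (n - 2), finrank k (CentGe (Amon k mon) (l + 1)) ≤
      (n - 2) * (d * tauF (Dlt mon) (n - 2)) := by
    have h6 := sum_le_card_nsmul (Finset.range (n - 2))
      (fun l => finrank k (CentGe (Amon k mon) (l + 1))) (d * tauF (Dlt mon) (n - 2)) (by
        intro l hl
        rw [Finset.mem_range] at hl
        exact h4 (l + 1) (by omega) (by omega))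
    rwa [card_range, smul_eq_mul] at h6
  have h6 := h4 (n - 2) (by omega) le_rfl
  have h7 : (n - 1) * (d * tauF (Dlt mon) (n - 2)) =
      (n - 2) * (d * tauF (Dlt mon) (n - 2)) + d * tauF (Dlt mon) (n - 2) := by
    obtain ⟨N, rfl⟩ : ∃ N, n = N + 3 := ⟨n - 3, by omega⟩
    rw [show N + 3 - 1 = N + 2 by omega, show N + 3 - 2 = N + 1 by omega]
    ring
  omega

end Pool.Agent.Hilb61
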