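import Pool.Agent.Helper61.HilbUpA

/-!
# Monomial algebras
-/

open Module Matrix Finsupp

namespace Pool.Agent.Hilb61

variable {n d : ℕ}

/-- `mon` enumerates an order ideal (a lower set) of exponents, without repetition. -/
structure IsOrd (mon : Fin d → (Fin n →₀ ℕ)) : Prop where
  inj : Function.Injective mon
  low : ∀ (s : Fin d) (i : Fin n) (B : Fin n →₀ ℕ), B + single i 1 = mon s → ∃ r, mon r = B

open Classical in
/-- The matrix of multiplication by `x_i` on the algebra with basis the monomials `mon s`, all
other monomials being zero. -/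
noncomputable def Amon (k : Type*) [Field k] (mon : Fin d → (Fin n →₀ ℕ)) (i : Fin n) :
    Matrix (Fin d) (Fin d) k :=
  Matrix.of fun r s => if mon r = mon s + single i 1 then 1 else 0

variable {k : Type*} [Field k] {mon : Fin d → (Fin n →₀ ℕ)}

lemma Amon_apply (i : Fin n) (r s : Fin d) [Decidable (mon r = mon s + single i 1)] :
    Amon k mon i r s = if mon r = mon s + single i 1 then 1 else 0 := by
  rw [Amon, Matrix.of_apply]
  split_ifs <;> rfl

/-- the columns of `W A_i` -/
lemma mul_Amon (h : IsOrd mon) (W : Matrix (Fin d) (Fin d) k) (i : Fin n) (u s t : Fin d)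
    (ht : mon t = mon s + single i 1) : (W * Amon k mon i) u s = W u t := by
  classical
  rw [Matrix.mul_apply, Finset.sum_eq_single t]
  · rw [Amon_apply, if_pos ht, mul_one]
  · intro r _ hr
    rw [Amon_apply, if_neg, mul_zero]
    intro h'
    exact hr (h.inj (h'.trans ht.symm))
  · intro h'; exact absurd (Finset.mem_univ t) h'

lemma mul_Amon_zero (W : Matrix (Fin d) (Fin d) k) (i : Fin n) (u s : Fin d)
    (ht : ∀ t, mon t ≠ mon s + single i 1) : (W * Amon k mon i) u s = 0 := by
  classical
  rw [Matrix.mul_apply]
  apply Finset.sum_eq_zero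
  intro r _
  rw [Amon_apply, if_neg (ht r), mul_zero]

lemma Amon_mul (h : IsOrd mon) (W : Matrix (Fin d) (Fin d) k) (i : Fin n) (u s t : Fin d)
    (ht : mon u = mon t + single i 1) : (Amon k mon i * W) u s = W t s := by
  classical
  rw [Matrix.mul_apply, Finset.sum_eq_single t]
  · rw [Amon_apply, if_pos ht, one_mul]
  · intro r _ hr
    rw [Amon_apply, if_neg, zero_mul]
    intro h'
    rw [ht] at h'
    exact hr (h.inj (add_right_cancel h')).symm
  · intro h'; exact absurd (Finset.mem_univ t) h'

lemma Amon_mul_zero (W : Matrix (Fin d) (Fin d) k) (i : Fin n) (u s : Fin d)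
    (ht : ∀ t, mon u ≠ mon t + single i 1) : (Amon k mon i * W) u s = 0 := by
  classical
  rw [Matrix.mul_apply]
  apply Finset.sum_eq_zero
  intro r _
  rw [Amon_apply, if_neg (ht r), zero_mul]

/-- the matrices of a monomial algebra commute -/
lemma Amon_comm (h : IsOrd mon) (i j : Fin n) :
    Amon k mon i * Amon k mon j = Amon k mon j * Amon k mon i := by
  classical
  have key : ∀ (i j : Fin n) (u s : Fin d), (Amon k mon i * Amon k mon j) u s =
      if mon u = mon s + single i 1 + single j 1 then 1 else 0 := by
    intro i j u s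
    by_cases h1 : ∃ t, mon u = mon t + single i 1
    · obtain ⟨t, ht⟩ := h1
      rw [Amon_mul h _ i u s t ht, Amon_apply]
      have : mon t = mon s + single j 1 ↔ mon u = mon s + single i 1 + single j 1 := by
        rw [ht, add_right_comm]
        exact (add_left_inj _).symm
      simp only [this]
    · push Not at h1
      rw [Amon_mul_zero _ i u s h1, if_neg]
      intro h2
      obtain ⟨t, ht⟩ := h.low u i (mon s + single j 1) (by rw [h2, add_right_comm])
      apply h1 t
      rw [ht, h2, add_right_comm]
  ext u s
  rw [key i j, key j i, add_right_comm]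

end Pool.Agent.Hilb61
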