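import Mathlib

/-!
# Numerical inequalities for chains of sections
-/

open Finset

namespace Pool.Agent.Hilb61

/-- Tail sums. -/
def TS (M : ℕ) (u : ℕ → ℕ) (i : ℕ) : ℕ := ∑ m ∈ range M, u (i + m)

/-- The growth condition at level `a + 1`. -/
def Rate (a : ℕ) (u : ℕ → ℕ) : Prop :=
  ∀ q m, q * u m ≤ (a + q) * u (m + 1) + (a + q).choose (a + 1)

lemma TS_succ {M : ℕ} {u : ℕ → ℕ} (hu : ∀ m, M ≤ m → u m = 0) (i : ℕ) :
    TS M u i = u i + TS M u (i + 1) := by
  have h1 : ∑ m ∈ range (M + 1), u (i + m) = TS M u i := by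
    rw [sum_range_succ, hu (i + M) (by omega), add_zero]
    rfl
  rw [← h1, sum_range_succ', add_zero, add_comm]
  congr 1
  apply sum_congr rfl
  intro m _
  congr 1
  omega

lemma TS_zero {M : ℕ} {u : ℕ → ℕ} (hu : ∀ m, M ≤ m → u m = 0) :
    ∀ m, M ≤ m → TS M u m = 0 := by
  intro m hm
  apply sum_eq_zero
  intro j _
  exact hu _ (by omega)

lemma Rate.conc {a M : ℕ} {u : ℕ → ℕ} (hu : ∀ m, M ≤ m → u m = 0) (h : Rate a u) :
    ∀ q i, (a + 1 + q) * u i ≤ (a + 1) * TS M u i + (a + 1 + q).choose (a + 2) := by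
  intro q
  induction q with
  | zero =>
    intro i
    rw [TS_succ hu, add_zero]
    nlinarith [Nat.zero_le ((a + 1).choose (a + 2))]
  | succ q ih =>
    intro i
    have h1 := ih (i + 1)
    have h2 := h (q + 1) i
    rw [TS_succ hu i]
    have h3 : (a + 1 + (q + 1)).choose (a + 2) =
        (a + (q + 1)).choose (a + 1) + (a + 1 + q).choose (a + 2) := by
      rw [show a + 1 + (q + 1) = (a + 1 + q) + 1 by ring, show a + 2 = (a + 1) + 1 by ring,
        Nat.choose_succ_succ, show a + (q + 1) = a + 1 + q by ring]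
    rw [h3]
    nlinarith [h1, h2]

lemma Rate.tail {a M : ℕ} {u : ℕ → ℕ} (hu : ∀ m, M ≤ m → u m = 0) (h : Rate a u) :
    Rate (a + 1) (TS M u) := by
  intro q m
  have h1 := h.conc hu q m
  have h2 := TS_succ hu m
  rw [show a + 1 + 1 = a + 2 by ring]
  have h3 : (a + 1 + q) * TS M u m = (a + 1 + q) * u m + (a + 1 + q) * TS M u (m + 1) := by
    rw [h2]; ring
  nlinarith [h1, h3]

/-- Iterated tail sums. -/
def IT (M : ℕ) (u : ℕ → ℕ) : ℕ → ℕ → ℕ
  | 0 => u
  | b + 1 => TS M (IT M u b)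

lemma IT_zero {M : ℕ} {u : ℕ → ℕ} (hu : ∀ m, M ≤ m → u m = 0) (b : ℕ) :
    ∀ m, M ≤ m → IT M u b m = 0 := by
  induction b with
  | zero => exact hu
  | succ b ih => exact TS_zero ih

lemma IT_rate {a M : ℕ} {u : ℕ → ℕ} (hu : ∀ m, M ≤ m → u m = 0) (h : Rate a u) (b : ℕ) :
    Rate (a + b) (IT M u b) := by
  induction b with
  | zero => exact h
  | succ b ih => exact ih.tail (IT_zero hu b)

/-- `D_p`, the number of monomials of degree less than `p` in `n` variables. -/
def Dn (n p : ℕ) : ℕ := (n - 1 + p).choose n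

lemma Dn_zero {n : ℕ} (hn : 1 ≤ n) : Dn n 0 = 0 := by
  rw [Dn, add_zero]
  exact Nat.choose_eq_zero_of_lt (by omega)

lemma Dn_succ {n : ℕ} (hn : 1 ≤ n) (p : ℕ) :
    Dn n (p + 1) = Dn n p + (n - 1 + p).choose (n - 1) := by
  obtain ⟨m, rfl⟩ : ∃ m, n = m + 1 := ⟨n - 1, by omega⟩
  simp only [Dn, Nat.add_sub_cancel]
  rw [show m + (p + 1) = (m + p) + 1 by ring, Nat.choose_succ_succ, add_comm]

lemma Dn_lt_succ {n : ℕ} (hn : 1 ≤ n) (p : ℕ) : Dn n p < Dn n (p + 1) := by
  rw [Dn_succ hn]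
  have : 0 < (n - 1 + p).choose (n - 1) := Nat.choose_pos (by omega)
  omega

lemma Dn_mono {n : ℕ} (hn : 1 ≤ n) : StrictMono (Dn n) := strictMono_nat_of_lt_succ (Dn_lt_succ hn)

lemma le_Dn {n : ℕ} (hn : 1 ≤ n) (p : ℕ) : p ≤ Dn n p := (Dn_mono hn).le_apply

lemma exists_lt_Dn {n : ℕ} (hn : 1 ≤ n) (s : ℕ) : ∃ p, s < Dn n p :=
  ⟨s + 1, (le_Dn hn (s + 1))⟩

open Classical in
/-- The level of the `s`-th unit. -/
noncomputable def qidx (n s : ℕ) : ℕ := if h : ∃ p, s < Dn n p then Nat.find h else 0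

lemma qidx_eq {n : ℕ} (hn : 1 ≤ n) {s p : ℕ} (h1 : Dn n p ≤ s) (h2 : s < Dn n (p + 1)) :
    qidx n s = p + 1 := by
  classical
  rw [qidx, dif_pos ⟨p + 1, h2⟩, Nat.find_eq_iff]
  refine ⟨h2, fun m hm hs => ?_⟩
  have : Dn n m ≤ Dn n p := (Dn_mono hn).monotone (by omega)
  omega

lemma exists_level {n : ℕ} (hn : 1 ≤ n) (s : ℕ) : ∃ p, Dn n p ≤ s ∧ s < Dn n (p + 1) := by
  classical
  have h := exists_lt_Dn hn s
  have h1 := Nat.find_spec h
  have h2 : Nat.find h ≠ 0 := by
    intro h0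
    rw [h0, Dn_zero hn] at h1
    omega
  obtain ⟨p, hp⟩ := Nat.exists_eq_succ_of_ne_zero h2
  refine ⟨p, ?_, ?_⟩
  · have := Nat.find_min h (m := p) (by omega)
    omega
  · rw [hp] at h1
    exact h1

/-- The weight of the `s`-th unit. -/
noncomputable def wt (n a s : ℕ) : ℕ := (a + qidx n s).choose (a + 1)

lemma wt_eq {n : ℕ} (hn : 1 ≤ n) (a : ℕ) {s p : ℕ} (h1 : Dn n p ≤ s) (h2 : s < Dn n (p + 1)) :
    wt n a s = (a + p + 1).choose (a + 1) := by
  rw [wt, qidx_eq hn h1 h2]
  rfl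

/-- The bound. -/
noncomputable def Theta (n a t : ℕ) : ℕ := ∑ s ∈ range t, wt n a s

lemma Theta_ge {n a x v : ℕ} : ∀ y, x ≤ y → (∀ s, x ≤ s → s < y → v ≤ wt n a s) →
    Theta n a x + (y - x) * v ≤ Theta n a y := by
  intro y
  induction y with
  | zero =>
    intro h _
    obtain rfl : x = 0 := by omega
    simp
  | succ y ih =>
    intro h hv
    rcases Nat.lt_or_ge x (y + 1) with h1 | h1
    · have h2 := ih (by omega) (fun s hs hs' => hv s hs (by omega))
      have h3 := hv y (by omega) (by omega)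
      have h4 : Theta n a (y + 1) = Theta n a y + wt n a y := sum_range_succ _ _
      have h5 : (y + 1 - x) * v = (y - x) * v + v := by
        rw [show y + 1 - x = (y - x) + 1 by omega, add_mul, one_mul]
      rw [h4, h5]
      omega
    · obtain rfl : x = y + 1 := by omega
      simp

/-- Comparison of the excess at different levels. -/
lemma chain_ineq {a M : ℕ} {u : ℕ → ℕ} (hu : ∀ m, M ≤ m → u m = 0) (h : Rate a u) (q i : ℕ) :
    ∀ c, ((u i : ℤ) - (a + q).choose (a + 1)) * (a + c + q).choose (a + c) ≤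
      ((IT M u c i : ℤ) - (a + c + q).choose (a + c + 1)) * (a + q).choose a := by
  intro c
  induction c with
  | zero => exact le_refl _
  | succ c ih =>
    have h1 := (IT_rate hu h c).conc (IT_zero hu c) q i
    have h1' : ((a + c + 1 + q : ℕ) : ℤ) * IT M u c i ≤
        ((a + c + 1 : ℕ) : ℤ) * IT M u (c + 1) i + ((a + c + 1 + q).choose (a + c + 2) : ℕ) := by
      exact_mod_cast h1
    have e1 : ((a + c + 1 + q : ℕ) : ℤ) * ((a + c + q).choose (a + c + 1) : ℕ) =
        ((a + c + 1 + q).choose (a + c + 2) : ℕ) * ((a + c + 2 : ℕ) : ℤ) := by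
      have := Nat.add_one_mul_choose_eq (a + c + q) (a + c + 1)
      rw [show a + c + 1 + q = (a + c + q) + 1 by ring]
      exact_mod_cast this
    have e2 : ((a + c + 1 + q : ℕ) : ℤ) * ((a + c + q).choose (a + c) : ℕ) =
        ((a + c + 1 + q).choose (a + c + 1) : ℕ) * ((a + c + 1 : ℕ) : ℤ) := by
      have := Nat.add_one_mul_choose_eq (a + c + q) (a + c)
      rw [show a + c + 1 + q = (a + c + q) + 1 by ring]
      exact_mod_cast this
    set E0 : ℤ := (u i : ℤ) - (a + q).choose (a + 1)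
    set B0 : ℤ := (((a + q).choose a : ℕ) : ℤ)
    set Ec : ℤ := (IT M u c i : ℤ) - (a + c + q).choose (a + c + 1)
    set Bc : ℤ := (((a + c + q).choose (a + c) : ℕ) : ℤ)
    have h2 : ((a + c + 1 + q : ℕ) : ℤ) * Ec ≤ ((a + c + 1 : ℕ) : ℤ) *
        ((IT M u (c + 1) i : ℤ) - ((a + c + 1 + q).choose (a + c + 2) : ℕ)) := by
      have : ((a + c + 2 : ℕ) : ℤ) = ((a + c + 1 : ℕ) : ℤ) + 1 := by push_cast; ring
      rw [this] at e1
      show ((a + c + 1 + q : ℕ) : ℤ) * ((IT M u c i : ℤ) - (a + c + q).choose (a + c + 1)) ≤ _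
      rw [mul_sub, e1]
      linarith
    have hB0 : 0 ≤ B0 := Int.natCast_nonneg _
    have hpos : (0 : ℤ) < ((a + c + 1 : ℕ) : ℤ) := by positivity
    have hq : (0 : ℤ) ≤ ((a + c + 1 + q : ℕ) : ℤ) := Int.natCast_nonneg _
    have h3 : E0 * (((a + c + 1 + q).choose (a + c + 1) : ℕ) : ℤ) * ((a + c + 1 : ℕ) : ℤ) ≤
        ((IT M u (c + 1) i : ℤ) - ((a + c + 1 + q).choose (a + c + 2) : ℕ)) * B0 *
          ((a + c + 1 : ℕ) : ℤ) := by
      calc E0 * (((a + c + 1 + q).choose (a + c + 1) : ℕ) : ℤ) * ((a + c + 1 : ℕ) : ℤ)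
          = ((a + c + 1 + q : ℕ) : ℤ) * (E0 * Bc) := by
            rw [mul_assoc, ← e2]; ring
        _ ≤ ((a + c + 1 + q : ℕ) : ℤ) * (Ec * B0) := mul_le_mul_of_nonneg_left ih hq
        _ = (((a + c + 1 + q : ℕ) : ℤ) * Ec) * B0 := by ring
        _ ≤ (((a + c + 1 : ℕ) : ℤ) *
            ((IT M u (c + 1) i : ℤ) - ((a + c + 1 + q).choose (a + c + 2) : ℕ))) * B0 :=
            mul_le_mul_of_nonneg_right h2 hB0
        _ = _ := by ring
    have h4 := le_of_mul_le_mul_right h3 hpos
    rw [show a + (c + 1) + q = a + c + 1 + q by ring, show a + (c + 1) = a + c + 1 by ring]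
    exact h4

/-- The weight of a row is at most the weight of the units it covers. -/
lemma row_ineq {a b M n : ℕ} (hn : n = a + b + 2) {u : ℕ → ℕ} (hu : ∀ m, M ≤ m → u m = 0)
    (h : Rate a u) (i : ℕ) :
    IT M u b i * u i + Theta n a (IT M u (b + 1) (i + 1)) ≤ Theta n a (IT M u (b + 1) i) := by
  have hn1 : 1 ≤ n := by omega
  set w := IT M u b i with hw
  set t' := IT M u (b + 1) (i + 1) with ht'
  have htw : IT M u (b + 1) i = w + t' := TS_succ (IT_zero hu b) i
  have F2 := (IT_rate hu h b).conc (IT_zero hu b)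
  have F3 := fun q => chain_ineq hu h q i (b + 1)
  have F2' : ∀ q, (n - 1 + q) * w ≤ (n - 1) * (w + t') + Dn n q := by
    intro q
    have := F2 q i
    have e : TS M (IT M u b) i = w + t' := htw
    rw [e] at this
    rw [Dn, hn, show a + b + 2 - 1 = a + b + 1 by omega]
    exact this
  rw [htw]
  rcases Nat.eq_zero_or_pos (w + t') with h0 | h0
  · have h1 : w = 0 := by omega
    have h2 : t' = 0 := by omega
    rw [h1, h2]
    simp
  obtain ⟨p, hp1, hp2⟩ := exists_level hn1 (w + t' - 1)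
  have hp2' : w + t' ≤ Dn n (p + 1) := by omega
  -- the value at the top
  have hα : u i ≤ (a + p + 1).choose (a + 1) := by
    have h1 := F3 (p + 1)
    rw [htw] at h1
    have h2 : ((w + t' : ℕ) : ℤ) - ((a + (b + 1) + (p + 1)).choose (a + (b + 1) + 1) : ℕ) ≤ 0 := by
      have : Dn n (p + 1) = (a + (b + 1) + (p + 1)).choose (a + (b + 1) + 1) := by
        rw [Dn, hn]
        congr 1
      rw [← this]
      have : ((w + t' : ℕ) : ℤ) ≤ (Dn n (p + 1) : ℕ) := by exact_mod_cast hp2'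
      linarith
    have h3 : (0 : ℤ) < ((a + (b + 1) + (p + 1)).choose (a + (b + 1)) : ℕ) := by
      have : 0 < (a + (b + 1) + (p + 1)).choose (a + (b + 1)) := Nat.choose_pos (by omega)
      exact_mod_cast this
    have h4 : (0 : ℤ) ≤ ((a + (p + 1)).choose a : ℕ) := Int.natCast_nonneg _
    have h5 : ((u i : ℤ) - ((a + (p + 1)).choose (a + 1) : ℕ)) *
        ((a + (b + 1) + (p + 1)).choose (a + (b + 1)) : ℕ) ≤ 0 :=
      h1.trans (mul_nonpos_of_nonpos_of_nonneg h2 h4)
    have h6 : (u i : ℤ) - ((a + (p + 1)).choose (a + 1) : ℕ) ≤ 0 := by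
      by_contra hc
      push Not at hc
      have := mul_pos hc h3
      linarith
    have h7 : (u i : ℤ) ≤ ((a + (p + 1)).choose (a + 1) : ℕ) := by linarith
    exact_mod_cast h7
  by_cases hA : Dn n p ≤ t'
  · -- all units have the top weight
    have h1 := Theta_ge (n := n) (a := a) (x := t') (v := u i) (w + t') (by omega) (by
      intro s hs hs'
      rw [wt_eq hn1 a (p := p) (by omega) (by omega)]
      exact hα)
    rw [Nat.add_sub_cancel] at h1
    omega
  · push Not at hA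
    obtain ⟨p', rfl⟩ : ∃ p', p = p' + 1 := by
      rcases Nat.eq_zero_or_pos p with h1 | h1
      · rw [h1, Dn_zero hn1] at hA
        omega
      · exact ⟨p - 1, by omega⟩
    -- the lower end
    have hlow : Dn n p' ≤ t' := by
      have h1 := F2' (p' + 1)
      have e1 : (n - 1 + (p' + 1)) * Dn n p' = p' * Dn n (p' + 1) := by
        have := Nat.choose_mul_succ_eq (n - 1 + p') n
        rw [Dn, Dn, show n - 1 + (p' + 1) = n - 1 + p' + 1 by ring, mul_comm, this, mul_comm]
        congr 1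
        omega
      have h2 : p' * Dn n (p' + 1) ≤ (n - 1 + (p' + 1)) * t' := by
        have h3 : (n - 1 + (p' + 1)) * (w + t') = (n - 1 + (p' + 1)) * w +
          (n - 1 + (p' + 1)) * t' := by ring
        have h4 : (n - 1 + (p' + 1)) * (w + t') = (n - 1) * (w + t') + (p' + 1) * (w + t') := by
          ring
        have h5 : (p' + 1) * Dn n (p' + 1) ≤ (p' + 1) * (w + t') :=
          Nat.mul_le_mul_left _ (by omega)
        have h6 : (p' + 1) * Dn n (p' + 1) = p' * Dn n (p' + 1) + Dn n (p' + 1) := by ring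
        omega
      rw [← e1] at h2
      exact Nat.le_of_mul_le_mul_left h2 (by omega)
    have hT1 := Theta_ge (n := n) (a := a) (x := t') (v := (a + p' + 1).choose (a + 1))
      (Dn n (p' + 1)) (by omega) (by
        intro s hs hs'
        rw [wt_eq hn1 a (p := p') (by omega) hs'])
    have hT2 := Theta_ge (n := n) (a := a) (x := Dn n (p' + 1))
      (v := (a + (p' + 1) + 1).choose (a + 1)) (w + t') (by omega) (by
        intro s hs hs'
        rw [wt_eq hn1 a (p := p' + 1) hs (by omega)])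
    -- the width of the row
    have hwid : w ≤ (a + (b + 1) + (p' + 1)).choose (a + (b + 1)) := by
      have h1 := F2' (p' + 1 + 1)
      have h2 : (n - 1) * (w + t') + Dn n (p' + 1 + 1) ≤ n * Dn n (p' + 1 + 1) := by
        have h3 : (n - 1) * (w + t') ≤ (n - 1) * Dn n (p' + 1 + 1) := Nat.mul_le_mul_left _ hp2'
        have h4 : n * Dn n (p' + 1 + 1) = (n - 1) * Dn n (p' + 1 + 1) + Dn n (p' + 1 + 1) := by
          obtain ⟨m, hm⟩ : ∃ m, n = m + 1 := ⟨n - 1, by omega⟩
          rw [hm, Nat.add_sub_cancel]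
          ring
        omega
      have e1 : n * Dn n (p' + 1 + 1) =
          (n - 1 + (p' + 1 + 1)) * (a + (b + 1) + (p' + 1)).choose (a + (b + 1)) := by
        have := Nat.add_one_mul_choose_eq (a + (b + 1) + (p' + 1)) (a + (b + 1))
        have e2 : a + (b + 1) + (p' + 1) + 1 = n - 1 + (p' + 1 + 1) := by omega
        have e3 : a + (b + 1) + 1 = n := by omega
        rw [e2, e3] at this
        rw [Dn, this, mul_comm]
      rw [e1] at h2
      exact Nat.le_of_mul_le_mul_left (h1.trans h2) (by omega)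
    have h3 := F3 (p' + 1)
    rw [htw] at h3
    have hD : Dn n (p' + 1) = (a + (b + 1) + (p' + 1)).choose (a + (b + 1) + 1) := by
      rw [Dn, hn]
      congr 1
    rw [← hD] at h3
    have hP : (a + (p' + 1) + 1).choose (a + 1) =
        (a + p' + 1).choose (a + 1) + (a + (p' + 1)).choose a := by
      rw [Nat.choose_succ_succ, show a + p' + 1 = a + (p' + 1) by ring, add_comm]
    -- conclude over the integers
    have hT1' : (Theta n a t' : ℤ) + ((Dn n (p' + 1) : ℤ) - t') * (a + p' + 1).choose (a + 1) ≤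
        Theta n a (Dn n (p' + 1)) := by
      have : ((Dn n (p' + 1) - t' : ℕ) : ℤ) = (Dn n (p' + 1) : ℤ) - t' := by
        rw [Nat.cast_sub (by omega)]
      rw [← this]
      exact_mod_cast hT1
    have hT2' : (Theta n a (Dn n (p' + 1)) : ℤ) + (((w : ℤ) + t') - Dn n (p' + 1)) *
        ((a + p' + 1).choose (a + 1) + (a + (p' + 1)).choose a : ℕ) ≤ Theta n a (w + t') := by
      have : ((w + t' - Dn n (p' + 1) : ℕ) : ℤ) = ((w : ℤ) + t') - Dn n (p' + 1) := by
        rw [Nat.cast_sub (by omega)]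
        push_cast
        ring
      rw [← this, ← hP]
      exact_mod_cast hT2
    have hkey : (w : ℤ) * ((u i : ℤ) - (a + p' + 1).choose (a + 1)) ≤
        (((w : ℤ) + t') - Dn n (p' + 1)) * (a + (p' + 1)).choose a := by
      rcases le_or_gt (u i : ℤ) ((a + p' + 1).choose (a + 1) : ℕ) with h4 | h4
      · have h5 : (w : ℤ) * ((u i : ℤ) - (a + p' + 1).choose (a + 1)) ≤ 0 :=
          mul_nonpos_of_nonneg_of_nonpos (Int.natCast_nonneg _) (by linarith)
        have h6 : (0 : ℤ) ≤ (((w : ℤ) + t') - Dn n (p' + 1)) * (a + (p' + 1)).choose a := by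
          apply mul_nonneg
          · have : ((Dn n (p' + 1) : ℕ) : ℤ) ≤ ((w + t' : ℕ) : ℤ) := by
              exact_mod_cast (by omega : Dn n (p' + 1) ≤ w + t')
            push_cast at this
            linarith
          · exact Int.natCast_nonneg _
        linarith
      · have h5 : (w : ℤ) * ((u i : ℤ) - (a + p' + 1).choose (a + 1)) ≤
            ((a + (b + 1) + (p' + 1)).choose (a + (b + 1)) : ℕ) *
              ((u i : ℤ) - (a + p' + 1).choose (a + 1)) := by
          apply mul_le_mul_of_nonneg_right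
          · exact_mod_cast hwid
          · linarith
        have h6 : ((u i : ℤ) - ((a + (p' + 1)).choose (a + 1) : ℕ)) *
            ((a + (b + 1) + (p' + 1)).choose (a + (b + 1)) : ℕ) ≤
            (((w + t' : ℕ) : ℤ) - (Dn n (p' + 1) : ℕ)) * ((a + (p' + 1)).choose a : ℕ) := h3
        rw [show a + (p' + 1) = a + p' + 1 by ring] at h6 ⊢
        push_cast at h6
        calc (w : ℤ) * ((u i : ℤ) - (a + p' + 1).choose (a + 1)) ≤ _ := h5
          _ = ((u i : ℤ) - ((a + p' + 1).choose (a + 1) : ℕ)) *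
            ((a + (b + 1) + (p' + 1)).choose (a + (b + 1)) : ℕ) := by ring
          _ ≤ _ := h6
    have hfin : ((w * u i + Theta n a t' : ℕ) : ℤ) ≤ (Theta n a (w + t') : ℕ) := by
      push_cast
      push_cast at hT2'
      nlinarith [hT1', hT2', hkey]
    exact_mod_cast hfin

/-- **The numerical theorem.** -/
theorem sum_le_Theta {a b M n d : ℕ} (hn : n = a + b + 2) {u h : ℕ → ℕ}
    (hu : ∀ m, M ≤ m → u m = 0) (hr : Rate a u) (hu0 : ∀ i, u i ≤ u 0)
    (hh : ∀ i, IT M u b i ≤ h i) (hd : ∑ i ∈ range M, h i ≤ d) :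
    ∑ i ∈ range M, u i * h i ≤ Theta n a d := by
  have hn1 : 1 ≤ n := by omega
  -- telescoping
  have h1 : ∀ K, ∑ i ∈ range K, IT M u b i * u i + Theta n a (IT M u (b + 1) K) ≤
      Theta n a (IT M u (b + 1) 0) := by
    intro K
    induction K with
    | zero => simp
    | succ K ih =>
      rw [sum_range_succ]
      have := row_ineq hn hu hr K
      omega
  have h2 := h1 M
  have h3 : IT M u (b + 1) 0 = ∑ i ∈ range M, IT M u b i := by
    show TS M (IT M u b) 0 = _
    rw [TS]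
    simp only [zero_add]
  have h4 : IT M u (b + 1) 0 ≤ d := by
    rw [h3]
    exact (sum_le_sum fun i _ => hh i).trans hd
  -- the extra units
  have h5 := Theta_ge (n := n) (a := a) (x := IT M u (b + 1) 0) (v := u 0) d h4 (by
    intro s hs _
    obtain ⟨p, hp1, hp2⟩ := exists_level hn1 s
    rw [wt_eq hn1 a hp1 hp2]
    have h1 := chain_ineq hu hr (p + 1) 0 (b + 1)
    have hD : Dn n (p + 1) = (a + (b + 1) + (p + 1)).choose (a + (b + 1) + 1) := by
      rw [Dn, hn]
      congr 1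
    rw [← hD] at h1
    have h2 : ((IT M u (b + 1) 0 : ℕ) : ℤ) - (Dn n (p + 1) : ℕ) ≤ 0 := by
      have : ((IT M u (b + 1) 0 : ℕ) : ℤ) ≤ (Dn n (p + 1) : ℕ) := by exact_mod_cast (by omega)
      linarith
    have h3 : (0 : ℤ) < ((a + (b + 1) + (p + 1)).choose (a + (b + 1)) : ℕ) := by
      have : 0 < (a + (b + 1) + (p + 1)).choose (a + (b + 1)) := Nat.choose_pos (by omega)
      exact_mod_cast this
    have h4 : (0 : ℤ) ≤ ((a + (p + 1)).choose a : ℕ) := Int.natCast_nonneg _
    have h5 := h1.trans (mul_nonpos_of_nonpos_of_nonneg h2 h4)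
    have h6 : (u 0 : ℤ) - ((a + (p + 1)).choose (a + 1) : ℕ) ≤ 0 := by
      by_contra hc
      push Not at hc
      have := mul_pos hc h3
      linarith
    have h7 : (u 0 : ℤ) ≤ ((a + (p + 1)).choose (a + 1) : ℕ) := by linarith
    exact_mod_cast h7)
  -- replace the heights by the minimal ones
  have h6 : ∑ i ∈ range M, u i * h i ≤ ∑ i ∈ range M, IT M u b i * u i +
      (∑ i ∈ range M, h i - ∑ i ∈ range M, IT M u b i) * u 0 := by
    have h7 : ∑ i ∈ range M, h i - ∑ i ∈ range M, IT M u b i =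
        ∑ i ∈ range M, (h i - IT M u b i) := by
      rw [← sum_tsub_distrib _ (fun i _ => hh i)]
    rw [h7, sum_mul, ← sum_add_distrib]
    apply sum_le_sum
    intro i _
    have h8 := hh i
    obtain ⟨e, he⟩ := Nat.exists_eq_add_of_le h8
    rw [he, Nat.add_sub_cancel_left]
    nlinarith [hu0 i]
  have h7 : (∑ i ∈ range M, h i - ∑ i ∈ range M, IT M u b i) * u 0 ≤
      (d - IT M u (b + 1) 0) * u 0 := by
    apply Nat.mul_le_mul_right
    rw [h3]
    omega
  have h8 : Theta n a (IT M u (b + 1) M) = 0 := by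
    rw [IT_zero hu (b + 1) M (le_refl _)]
    simp [Theta]
  omega

end Pool.Agent.Hilb61
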