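import Pool.Agent.Helper61.HilbMax

/-!
# Large families through strongly stable points
-/

open Finset

namespace Pool.Agent.Hilb61

universe u

variable {n d : ℕ}

lemma exists_upset (V : Finset (Fin n →₀ ℕ)) (m : ℕ) (hm : m ≤ V.card) :
    ∃ W ⊆ V, W.card = m ∧ ∀ v ∈ W, ∀ v' ∈ V, v ≤ v' → v' ∈ W := by
  classical
  obtain ⟨j, hj⟩ : ∃ j, m + j = V.card := ⟨V.card - m, by omega⟩
  induction j generalizing m with
  | zero => exact ⟨V, Subset.refl _, by omega, fun v _ v' hv' _ => hv'⟩
  | succ j ih =>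
    obtain ⟨W, h1, h2, h3⟩ := ih (m + 1) (by omega) (by omega)
    have hne : W.Nonempty := by
      rw [← card_pos]
      omega
    obtain ⟨x, hx, hmin⟩ := W.exists_minimal hne
    refine ⟨W.erase x, (erase_subset _ _).trans h1, ?_, ?_⟩
    · rw [card_erase_of_mem hx, h2]
      rfl
    · intro v hv v' hv' hle
      rw [mem_erase] at hv ⊢
      refine ⟨?_, h3 v hv.2 v' hv' hle⟩
      rintro rfl
      exact hv.1 (le_antisymm hle (hmin hv.2 hle))

/-- The admissible pairs of a strongly stable set. -/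
theorem exists_adm {mon : Fin d → (Fin n →₀ ℕ)} (hst : Stable (Dlt mon)) (h : IsOrd mon)
    (hn : 1 ≤ n) {a b : ℕ} (hab : a + b = tauF (Dlt mon) (n - 1)) :
    ∃ (K : Finset (Fin d)) (Gn : Finset (Fin n →₀ ℕ)), Adm mon K Gn ∧ K.card = a ∧ Gn.card = b := by
  classical
  let il : Fin n := ⟨n - 1, by omega⟩
  have hlt : ∀ l : Fin n, l ≠ il → l < il := by
    intro l hl
    rw [Fin.lt_def]
    have h1 := l.isLt
    have h2 : (l : ℕ) ≠ n - 1 := fun h => hl (Fin.ext h)
    show (l : ℕ) < n - 1
    omega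
  set Δ := Dlt mon with hΔ
  let V := slc Δ (n - 1) 0
  have hV : ∀ v, v ∈ V ↔ v ∈ Δ ∧ v il = 0 := by
    intro v
    show v ∈ slc Δ (n - 1) 0 ↔ _
    rw [mem_slc]
    constructor
    · rintro ⟨h1, h2⟩
      exact ⟨h1, h2 il le_rfl⟩
    · rintro ⟨h1, h2⟩
      refine ⟨h1, fun m hm => ?_⟩
      have : m = il := by
        by_contra hne
        have := hlt m hne
        rw [Fin.lt_def] at this
        have h3 : (m : ℕ) < n - 1 := this
        omega
      rw [this, h2]
      rfl
  -- tops
  have hex : ∀ v : Fin n →₀ ℕ, ∃ m, v + Finsupp.single il (m + 1) ∉ Δ := by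
    intro v
    by_contra hc
    push Not at hc
    have hinj : Function.Injective (fun m : ℕ => (⟨_, hc m⟩ : Δ)) := by
      intro m m' hmm
      have h1 := congrArg Subtype.val hmm
      have h2 := add_left_cancel h1
      have h3 := DFunLike.congr_fun h2 il
      rw [Finsupp.single_eq_same, Finsupp.single_eq_same] at h3
      omega
    exact not_injective_infinite_finite _ hinj
  let ht : (Fin n →₀ ℕ) → ℕ := fun v => Nat.find (hex v)
  let bt : (Fin n →₀ ℕ) → (Fin n →₀ ℕ) := fun v => v + Finsupp.single il (ht v)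
  have hbt1 : ∀ v ∈ Δ, bt v ∈ Δ := by
    intro v hv
    show v + Finsupp.single il (ht v) ∈ Δ
    rcases Nat.eq_zero_or_pos (ht v) with h0 | h0
    · rw [h0]; simpa using hv
    · obtain ⟨m, hm⟩ : ∃ m, ht v = m + 1 := ⟨ht v - 1, by omega⟩
      rw [hm]
      by_contra hc
      have : ht v ≤ m := Nat.find_min' (hex v) hc
      omega
  have hbt2 : ∀ v, bt v + Finsupp.single il 1 ∉ Δ := by
    intro v
    have h1 := Nat.find_spec (hex v)
    show v + Finsupp.single il (ht v) + Finsupp.single il 1 ∉ Δ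
    rw [add_assoc, ← Finsupp.single_add]
    exact h1
  have hbt3 : ∀ v, ∀ m, m ≠ il → bt v m = v m := by
    intro v m hm
    show (v + Finsupp.single il (ht v)) m = v m
    rw [Finsupp.add_apply, Finsupp.single_eq_of_ne hm, add_zero]
  have hinj : Set.InjOn bt (V : Set (Fin n →₀ ℕ)) := by
    intro v hv v' hv' hvv
    have h1 := (hV v).mp hv
    have h2 := (hV v').mp hv'
    ext m
    by_cases hm : m = il
    · rw [hm, h1.2, h2.2]
    · rw [← hbt3 v m hm, ← hbt3 v' m hm, hvv]
  -- socle property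
  have hsoc : ∀ v, ∀ l : Fin n, bt v + Finsupp.single l 1 ∉ Δ := by
    intro v l hl
    by_cases hll : l = il
    · rw [hll] at hl
      exact hbt2 v hl
    · exact hbt2 v ((hst _ l hl).2 il (hlt l hll))
  obtain ⟨W, hWV, hWc, hWup⟩ := exists_upset V a (by
    show a ≤ tauF Δ (n - 1)
    omega)
  refine ⟨univ.filter (fun s => mon s ∈ W.image bt),
    (V \ W).image (fun v => bt v + Finsupp.single il 1), ⟨?_, ?_, ?_, ?_⟩, ?_, ?_⟩
  · intro s hs l r hr
    rw [mem_filter, mem_image] at hs
    obtain ⟨-, v, hv, hvs⟩ := hs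
    apply hsoc v l
    rw [hvs, ← hr]
    exact mem_Dlt.mpr ⟨r, rfl⟩
  · intro g hg r hr
    rw [mem_image] at hg
    obtain ⟨v, hv, rfl⟩ := hg
    exact hbt2 v (mem_Dlt.mpr ⟨r, hr⟩)
  · intro g hg i B hB
    rw [mem_image] at hg
    obtain ⟨v, hv, rfl⟩ := hg
    rw [mem_sdiff] at hv
    have hvΔ := ((hV v).mp hv.1).1
    apply mem_Dlt.mp
    by_cases hi : i = il
    · rw [hi] at hB
      rw [add_right_cancel hB]
      exact hbt1 v hvΔ
    · have h1 := DFunLike.congr_fun hB i
      rw [Finsupp.add_apply, Finsupp.add_apply, Finsupp.single_eq_same,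
        Finsupp.single_eq_of_ne hi] at h1
      have h2 := sub_add_single (s := bt v) (i := i) (by omega)
      have h3 := (hst (bt v - Finsupp.single i 1) i (by rw [h2]; exact hbt1 v hvΔ)).2 il (hlt i hi)
      have h4 : B = bt v - Finsupp.single i 1 + Finsupp.single il 1 := by
        apply add_right_cancel (b := Finsupp.single i 1)
        rw [hB, add_right_comm (bt v - Finsupp.single i 1), h2]
      rw [h4]
      exact h3
  · intro s hs l hl
    rw [mem_filter, mem_image] at hs
    obtain ⟨-, v, hv, hvs⟩ := hs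
    rw [mem_image] at hl
    obtain ⟨v', hv', hvv⟩ := hl
    rw [mem_sdiff] at hv'
    rw [← hvs] at hvv
    have h1 := (hV v).mp (hWV hv)
    by_cases hll : l = il
    · rw [hll] at hvv
      have h2 := hinj hv'.1 (hWV hv) (add_right_cancel hvv)
      rw [h2] at hv'
      exact hv'.2 hv
    · apply hv'.2
      apply hWup v hv v' hv'.1
      intro m
      by_cases hm : m = il
      · rw [hm, h1.2]
        exact Nat.zero_le _
      · have h2 : bt v' m + (Finsupp.single il 1 : Fin n →₀ ℕ) m =
            bt v m + (Finsupp.single l 1 : Fin n →₀ ℕ) m := DFunLike.congr_fun hvv m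
        rw [Finsupp.single_eq_of_ne hm, hbt3 v' m hm, hbt3 v m hm] at h2
        omega
  · have h1 : (univ.filter (fun s => mon s ∈ W.image bt)).image mon = W.image bt := by
      ext B
      rw [mem_image]
      constructor
      · rintro ⟨s, hs, rfl⟩
        rw [mem_filter] at hs
        exact hs.2
      · intro hB
        have hB' := hB
        rw [mem_image] at hB'
        obtain ⟨v, hv, rfl⟩ := hB'
        obtain ⟨s, hs⟩ := mem_Dlt.mp (hbt1 v ((hV v).mp (hWV hv)).1)
        refine ⟨s, ?_, hs⟩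
        rw [mem_filter, hs]
        exact ⟨mem_univ _, hB⟩
    rw [← card_image_of_injective _ h.inj, h1, card_image_of_injOn (hinj.mono hWV), hWc]
  · rw [card_image_of_injOn]
    · rw [card_sdiff_of_subset hWV, hWc]
      have : V.card = tauF Δ (n - 1) := rfl
      omega
    · intro v hv v' hv' hvv
      have hv1 : v ∈ V \ W := hv
      have hv2 : v' ∈ V \ W := hv'
      rw [mem_sdiff] at hv1 hv2
      exact hinj hv1.1 hv2.1 (add_right_cancel hvv)

end Pool.Agent.Hilb61
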