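import Pool.Agent.Helper61.HilbAdd

/-!
# The tangent space of the smoothable component at a power of the maximal ideal
-/

open MvPolynomial Module Matrix TopologicalSpace

namespace Pool.Agent.Hilb61

universe u

variable {k : Type u} [Field k] {n d r : ℕ}

/-- Exponents of degree `r`. -/
def Dset (n r : ℕ) : Finset (Fin n →₀ ℕ) := Finset.univ.finsuppAntidiag r

lemma mem_Dset {c : Fin n →₀ ℕ} : c ∈ Dset n r ↔ c.degree = r := by
  simp [Dset, Finset.mem_finsuppAntidiag, Finsupp.degree_eq_sum]

lemma card_Dset : (Dset n r).card = n.multichoose r := by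
  rw [Dset, Finset.card_finsuppAntidiag_nat_eq_multichoose, Finset.card_univ, Fintype.card_fin]

/-- Enumeration of the exponents of degree less than `r`. -/
structure IsEnum (r : ℕ) (mon : Fin d → (Fin n →₀ ℕ)) : Prop where
  inj : Function.Injective mon
  lt : ∀ s, (mon s).degree < r
  ex : ∀ b : Fin n →₀ ℕ, b.degree < r → ∃ s, mon s = b

/-- The number of exponents of degree less than `r`. -/
lemma card_biUnion (n r : ℕ) (hr : 1 ≤ r) :
    ((Finset.range r).biUnion (Dset n)).card = (n + r - 1).choose n := by
  rw [Finset.card_biUnion]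
  · simp only [card_Dset]
    obtain ⟨m, rfl⟩ : ∃ m, r = m + 1 := ⟨r - 1, by omega⟩
    rw [Nat.sum_range_multichoose]
    congr 1
    omega
  · intro i _ j _ hij
    rw [Function.onFun, Finset.disjoint_left]
    intro c hc hc'
    rw [mem_Dset] at hc hc'
    exact hij (hc.symm.trans hc')

lemma exists_enum (n r : ℕ) (hr : 1 ≤ r) :
    ∃ mon : Fin ((n + r - 1).choose n) → (Fin n →₀ ℕ), IsEnum r mon := by
  let e := Finset.equivFinOfCardEq (card_biUnion n r hr)
  refine ⟨fun s => (e.symm s).1, ?_, ?_, ?_⟩
  · intro s s' h
    exact e.symm.injective (Subtype.ext h)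
  · intro s
    have h := (e.symm s).2
    rw [Finset.mem_biUnion] at h
    obtain ⟨i, hi, hc⟩ := h
    rw [mem_Dset] at hc
    rw [hc]
    exact Finset.mem_range.mp hi
  · intro b hb
    have h : b ∈ (Finset.range r).biUnion (Dset n) := by
      rw [Finset.mem_biUnion]
      exact ⟨b.degree, Finset.mem_range.mpr hb, mem_Dset.mpr rfl⟩
    exact ⟨e ⟨b, h⟩, by simp⟩

/-- Monomials evaluated at a point. -/
def pw (q : Fin n → k) (c : Fin n →₀ ℕ) : k := ∏ i, q i ^ c i

lemma pw_zero (q : Fin n → k) : pw q 0 = 1 := by simp [pw]

lemma pw_add_single (q : Fin n → k) (c : Fin n →₀ ℕ) (l : Fin n) :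
    pw q (c + Finsupp.single l 1) = pw q c * q l := by
  unfold pw
  simp only [Finsupp.add_apply, pow_add, Finset.prod_mul_distrib]
  congr 1
  rw [Finset.prod_eq_single l]
  · simp
  · intro b _ hb
    rw [Finsupp.single_eq_of_ne hb, pow_zero]
  · intro h; exact absurd (Finset.mem_univ l) h

lemma pw_ne_zero {q : Fin n → k} (hq : ∀ i, q i ≠ 0) (c : Fin n →₀ ℕ) : pw q c ≠ 0 :=
  Finset.prod_ne_zero_iff.mpr fun i _ => pow_ne_zero _ (hq i)

lemma pw_smul (t : k) (q : Fin n → k) (c : Fin n →₀ ℕ) :
    pw (t • q) c = t ^ c.degree * pw q c := by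
  unfold pw
  rw [Finsupp.degree_eq_sum, ← Finset.prod_pow_eq_pow_sum, ← Finset.prod_mul_distrib]
  apply Finset.prod_congr rfl
  intro i _
  rw [Pi.smul_apply, smul_eq_mul, mul_pow]

/-- Coordinates of the power of the maximal ideal. -/
noncomputable def c00 (k : Type u) [Field k] (mon : Fin d → (Fin n →₀ ℕ)) : Coord n d → k :=
  Sum.elim (fun x => if mon x.2.1 = mon x.2.2 + Finsupp.single x.1 1 then 1 else 0)
    (fun r' => if mon r' = 0 then 1 else 0)

/-- Tangent vectors. -/
noncomputable def bL (k : Type u) [Field k] (r : ℕ) (mon : Fin d → (Fin n →₀ ℕ)) (a : Fin d) :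
    ((Fin n →₀ ℕ) → k) →ₗ[k] (Coord n d → k) where
  toFun φ := Sum.elim (fun x => if (mon x.2.2).degree + 1 = r ∧ x.2.1 = a then
    φ (mon x.2.2 + Finsupp.single x.1 1) else 0) (fun _ => 0)
  map_add' φ ψ := by
    funext x
    rcases x with ⟨i, r', s⟩ | r'
    · simp only [Sum.elim_inl, Pi.add_apply]
      split_ifs <;> simp
    · simp
  map_smul' t φ := by
    funext x
    rcases x with ⟨i, r', s⟩ | r'
    · simp only [Sum.elim_inl, Pi.smul_apply, RingHom.id_apply, smul_eq_mul]
      split_ifs <;> simp
    · simp

/-! ### Degree facts -/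

lemma degree_add_single (b : Fin n →₀ ℕ) (l : Fin n) :
    (b + Finsupp.single l 1).degree = b.degree + 1 := by
  rw [map_add, Finsupp.degree_single]

lemma eq_of_le_of_degree {b c : Fin n →₀ ℕ} (h : b ≤ c) (h2 : c.degree ≤ b.degree) : b = c := by
  have h3 : b + (c - b) = c := add_tsub_cancel_of_le h
  have h4 : b.degree + (c - b).degree = c.degree := by rw [← map_add, h3]
  have h5 : (c - b).degree = 0 := by omega
  rw [Finsupp.degree_eq_zero_iff] at h5
  rw [h5, add_zero] at h3
  exact h3

/-! ### The distraction -/

section dist

variable [Infinite k]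

/-- Distinct nodes. -/
noncomputable def nu (k : Type u) [Field k] [Infinite k] : ℕ ↪ k := Infinite.natEmbedding k

/-- The values of the Newton basis. -/
noncomputable def Gv (τ : k) (b c : Fin n →₀ ℕ) : k :=
  ∏ l, ∏ j ∈ Finset.range (b l), (τ * nu k (c l) - τ * nu k j)

lemma Gv_zero (τ : k) (c : Fin n →₀ ℕ) : Gv τ 0 c = 1 := by simp [Gv]

lemma Gv_le {τ : k} {b c : Fin n →₀ ℕ} (h : Gv τ b c ≠ 0) : b ≤ c := by
  intro l
  by_contra hl
  push Not at hl
  apply h
  apply Finset.prod_eq_zero (Finset.mem_univ l)
  apply Finset.prod_eq_zero (Finset.mem_range.mpr hl)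
  rw [sub_self]

lemma Gv_self {τ : k} (hτ : τ ≠ 0) (c : Fin n →₀ ℕ) : Gv τ c c ≠ 0 := by
  apply Finset.prod_ne_zero_iff.mpr
  intro l _
  apply Finset.prod_ne_zero_iff.mpr
  intro j hj
  rw [← mul_sub]
  apply mul_ne_zero hτ
  rw [sub_ne_zero]
  intro h
  have := (nu k).injective h
  rw [Finset.mem_range] at hj
  omega

lemma Gv_add_single (τ : k) (b c : Fin n →₀ ℕ) (l : Fin n) :
    Gv τ (b + Finsupp.single l 1) c = Gv τ b c * (τ * nu k (c l) - τ * nu k (b l)) := by
  unfold Gv
  rw [← Finset.mul_prod_erase Finset.univ _ (Finset.mem_univ l),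
    ← Finset.mul_prod_erase Finset.univ (fun l => ∏ j ∈ Finset.range (b l), _)
      (Finset.mem_univ l)]
  have h1 : (b + Finsupp.single l 1 : Fin n →₀ ℕ) l = b l + 1 := by simp
  have h2 : ∏ x ∈ Finset.univ.erase l, ∏ j ∈ Finset.range ((b + Finsupp.single l 1 :
      Fin n →₀ ℕ) x), (τ * nu k (c x) - τ * nu k j) =
      ∏ x ∈ Finset.univ.erase l, ∏ j ∈ Finset.range (b x), (τ * nu k (c x) - τ * nu k j) := by
    apply Finset.prod_congr rfl
    intro x hx
    have h3 : (b + Finsupp.single l 1 : Fin n →₀ ℕ) x = b x := by
      rw [Finsupp.add_apply, Finsupp.single_eq_of_ne (Finset.ne_of_mem_erase hx), add_zero]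
    rw [h3]
  rw [h1, h2, Finset.prod_range_succ]
  ring

/-- The block framed tuple: the distraction of `𝔪^r + (x^a)` and a point `q`. -/
noncomputable def BB (mon : Fin d → (Fin n →₀ ℕ)) (a : Fin d) (q : Fin n → k) (τ : k) :
    Coord n d → k :=
  Sum.elim (fun x => if x.2.2 = a then (if x.2.1 = a then q x.1 else 0) else
      (if x.2.1 = x.2.2 then τ * nu k (mon x.2.2 x.1) else 0) +
      (if mon x.2.1 = mon x.2.2 + Finsupp.single x.1 1 ∧ x.2.1 ≠ a then 1 else 0))
    (fun r' => (if r' = a then 1 else 0) + (if mon r' = 0 ∧ r' ≠ a then 1 else 0))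

/-- The evaluation matrix. -/
noncomputable def UB (mon : Fin d → (Fin n →₀ ℕ)) (a : Fin d) (τ : k) :
    Matrix (Fin d) (Fin d) k :=
  Matrix.of fun r' s => if r' = a then (if s = a then 1 else 0) else
    (if s = a then 0 else Gv τ (mon s) (mon r'))

lemma UB_inv {mon : Fin d → (Fin n →₀ ℕ)} (hm : IsEnum r mon) (a : Fin d) {τ : k}
    (hτ : τ ≠ 0) : ∃ U' : Matrix (Fin d) (Fin d) k, UB mon a τ * U' = 1 := by
  have hinj : Function.Injective (UB mon a τ).mulVec := by
    have : Function.Injective (Matrix.toLin' (UB mon a τ)) := by
      rw [← LinearMap.ker_eq_bot, LinearMap.ker_eq_bot']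
      intro x hx
      have hx' : ∀ s, ∑ s', UB mon a τ s s' * x s' = 0 := fun s => congrFun hx s
      have ha : x a = 0 := by
        have := hx' a
        rw [Finset.sum_eq_single a] at this
        · simpa [UB] using this
        · intro b _ hb; simp [UB, hb]
        · intro h; exact absurd (Finset.mem_univ a) h
      have key : ∀ N, ∀ s, (mon s).degree < N → x s = 0 := by
        intro N
        induction N with
        | zero => intro s hs; exact absurd hs (Nat.not_lt_zero _)
        | succ N ih =>
          intro s hs
          by_cases hsa : s = a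
          · rw [hsa]; exact ha
          have h1 := hx' s
          rw [Finset.sum_eq_single s] at h1
          · have h2 : UB mon a τ s s ≠ 0 := by
              simp only [UB, Matrix.of_apply, hsa, if_false]
              exact Gv_self hτ _
            rcases mul_eq_zero.mp h1 with h3 | h3
            · exact absurd h3 h2
            · exact h3
          · intro b _ hb
            by_cases hba : b = a
            · rw [hba, ha, mul_zero]
            by_cases hG : Gv τ (mon b) (mon s) = 0
            · simp only [UB, Matrix.of_apply, hsa, if_false, hba, hG, zero_mul]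
            · have hle := Gv_le hG
              have hlt : (mon b).degree < (mon s).degree := by
                by_contra h5
                push Not at h5
                exact hb (hm.inj (eq_of_le_of_degree hle h5))
              rw [ih b (by omega), mul_zero]
          · intro h; exact absurd (Finset.mem_univ s) h
      funext s
      exact key r s (hm.lt s)
    exact this
  rw [Matrix.mulVec_injective_iff_isUnit] at hinj
  obtain ⟨u, hu⟩ := hinj
  exact ⟨(u⁻¹ : (Matrix (Fin d) (Fin d) k)ˣ).1, by rw [← hu]; exact u.mul_inv⟩

lemma BB_Rset {mon : Fin d → (Fin n →₀ ℕ)} (hm : IsEnum r mon) {a : Fin d}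
    (ha : (mon a).degree + 1 = r) {q : Fin n → k} {τ : k} (hτ : τ ≠ 0) (i0 : Fin n)
    (hq : ∀ s, q i0 ≠ τ * nu k (mon s i0)) : BB mon a q τ ∈ Rset k n d := by
  obtain ⟨U', hU'⟩ := UB_inv hm a hτ
  refine ⟨fun r' => if r' = a then q else fun l => τ * nu k (mon r' l), ?_, UB mon a τ, U', hU',
    ?_, ?_⟩
  · intro s s' h
    by_cases hs : s = a <;> by_cases hs' : s' = a
    · rw [hs, hs']
    · simp only [hs, hs', if_true, if_false] at h
      exact absurd (congrFun h i0) (hq s')
    · simp only [hs, hs', if_true, if_false] at h
      exact absurd (congrFun h i0).symm (hq s)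
    · simp only [hs, hs', if_false] at h
      apply hm.inj
      ext l
      have := congrFun h l
      exact (nu k).injective (mul_left_cancel₀ hτ this)
  · intro r' l s
    rw [Matrix.mul_apply]
    by_cases hs : s = a
    · subst hs
      have e1 : ∀ r'', mats (BB mon s q τ) l r'' s = if r'' = s then q l else 0 := by
        intro r''; simp [BB]
      simp only [e1, mul_ite, mul_zero, Finset.sum_ite_eq', Finset.mem_univ, if_true]
      by_cases hr : r' = s
      · simp [UB, hr]
      · simp [UB, hr]
    · have e1 : ∀ r'', mats (BB mon a q τ) l r'' s =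
          (if r'' = s then τ * nu k (mon s l) else 0) +
          (if mon r'' = mon s + Finsupp.single l 1 ∧ r'' ≠ a then 1 else 0) := by
        intro r''; simp [BB, hs]
      simp only [e1, mul_add, Finset.sum_add_distrib, mul_ite, mul_zero, mul_one,
        Finset.sum_ite_eq', Finset.mem_univ, if_true]
      by_cases hr : r' = a
      · subst hr
        have e2 : UB mon r' τ r' s = 0 := by simp [UB, hs]
        rw [e2, mul_zero, zero_mul, zero_add, eq_comm]
        apply Finset.sum_eq_zero
        intro r'' _
        split_ifs with h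
        · simp [UB, h.2]
        · rfl
      · have e2 : UB mon a τ r' s = Gv τ (mon s) (mon r') := by simp [UB, hs, hr]
        simp only [hr, if_false]
        rw [e2]
        have e3 : ∑ r'', (if mon r'' = mon s + Finsupp.single l 1 ∧ r'' ≠ a then
            UB mon a τ r' r'' else 0) = Gv τ (mon s + Finsupp.single l 1) (mon r') := by
          by_cases hex : ∃ r'', mon r'' = mon s + Finsupp.single l 1 ∧ r'' ≠ a
          · obtain ⟨r0, h1, h2⟩ := hex
            rw [Finset.sum_eq_single r0]
            · rw [if_pos ⟨h1, h2⟩]
              simp [UB, hr, h2, h1]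
            · intro b _ hb
              rw [if_neg]
              rintro ⟨h3, -⟩
              exact hb (hm.inj (h3.trans h1.symm))
            · intro h; exact absurd (Finset.mem_univ r0) h
          · rw [Finset.sum_eq_zero]
            · symm
              by_contra hG
              have hle := Gv_le hG
              have hdeg : (mon s + Finsupp.single l 1).degree < r :=
                lt_of_le_of_lt (Finsupp.degree_mono hle) (hm.lt r')
              obtain ⟨r0, hr0⟩ := hm.ex _ hdeg
              have hr0a : r0 = a := by
                by_contra hne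
                exact hex ⟨r0, hr0, hne⟩
              subst hr0a
              rw [← hr0] at hle
              have h4 := eq_of_le_of_degree hle (by have := hm.lt r'; omega)
              exact hr (hm.inj h4).symm
            · intro b _
              rw [if_neg]
              intro h
              exact hex ⟨b, h⟩
        rw [e3, Gv_add_single]
        ring
  · intro r'
    rw [mulVec, dotProduct]
    have e1 : ∀ s, vect (BB mon a q τ) s = (if s = a then 1 else 0) +
        (if mon s = 0 ∧ s ≠ a then 1 else 0) := by
      intro s; simp [BB]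
    simp only [e1, mul_add, Finset.sum_add_distrib, mul_ite, mul_zero, mul_one,
      Finset.sum_ite_eq', Finset.mem_univ, if_true]
    by_cases hr : r' = a
    · subst hr
      rw [Finset.sum_eq_zero, add_zero]
      · simp [UB]
      · intro s _
        split_ifs with h
        · simp [UB, h.2]
        · rfl
    · obtain ⟨z, hz⟩ := hm.ex 0 (by simp; omega)
      have hza : z ≠ a := by
        intro hza
        subst hza
        rw [hz] at ha
        simp only [map_zero, zero_add] at ha
        have h1 := hm.lt r'
        have h2 : (mon r').degree = 0 := by omega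
        rw [Finsupp.degree_eq_zero_iff] at h2
        exact hr (hm.inj (h2.trans hz.symm))
      rw [Finset.sum_eq_single z]
      · rw [if_pos ⟨hz, hza⟩]
        simp [UB, hr, hza, hz, Gv_zero]
      · intro s _ hs
        rw [if_neg]
        rintro ⟨h3, -⟩
        exact hs (hm.inj (h3.trans hz.symm))
      · intro h; exact absurd (Finset.mem_univ z) h

lemma BB_Zset {mon : Fin d → (Fin n →₀ ℕ)} (hm : IsEnum r mon) {a : Fin d}
    (ha : (mon a).degree + 1 = r) {q : Fin n → k} (i0 : Fin n) (hq : q i0 ≠ 0) :
    BB mon a q 0 ∈ Zset k n d := by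
  have h := Zset_of_curve (fun x => Polynomial.C (BB mon a q 0 x) +
      Polynomial.X * Polynomial.C ((BB mon a q 1 - BB mon a q 0) x)) (by
    have h1 : ∀ᶠ t : k in Filter.cofinite, ∀ s : Fin d, q i0 ≠ t * nu k (mon s i0) := by
      apply Filter.eventually_all.mpr
      intro s
      by_cases hs : nu k (mon s i0) = 0
      · apply Filter.Eventually.of_forall
        intro t
        rw [hs, mul_zero]
        exact hq
      · filter_upwards [Filter.eventually_cofinite_ne (q i0 / nu k (mon s i0))] with t ht h
        apply ht
        rw [h, mul_div_cancel_right₀ _ hs]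
    filter_upwards [h1, Filter.eventually_cofinite_ne (0 : k)] with t ht ht0
    have h2 : (fun x => (Polynomial.C (BB mon a q 0 x) +
      Polynomial.X * Polynomial.C ((BB mon a q 1 - BB mon a q 0) x)).eval t) =
        BB mon a q t := by
      funext x
      simp only [Polynomial.eval_add, Polynomial.eval_C, Polynomial.eval_mul, Polynomial.eval_X,
        Pi.sub_apply]
      rcases x with ⟨l, r', s⟩ | r'
      · simp only [BB, Sum.elim_inl]
        split_ifs <;> ring
      · simp only [BB, Sum.elim_inr]
        ring
    rw [h2]
    exact Rset_subset_Zset (BB_Rset hm ha ht0 i0 ht)) 0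
  have h2 : (fun x => (Polynomial.C (BB mon a q 0 x) +
      Polynomial.X * Polynomial.C ((BB mon a q 1 - BB mon a q 0) x)).eval 0) =
        BB mon a q 0 := by
    funext x
    simp
  rwa [h2] at h

/-- The schemes `(𝔪^r + (x^a)) ∩ 𝔪_q` are smoothable. -/
lemma family_Zset {mon : Fin d → (Fin n →₀ ℕ)} (hm : IsEnum r mon) {a : Fin d}
    (ha : (mon a).degree + 1 = r) {q : Fin n → k} (i0 : Fin n) (hq : ∀ i, q i ≠ 0) :
    c00 k mon + bL k r mon a (fun c => pw q c * (pw q (mon a))⁻¹) ∈ Zset k n d := by
  have hqa := pw_ne_zero hq (mon a)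
  let g : Matrix (Fin d) (Fin d) k := Matrix.of fun r' s =>
    if r' = a then pw q (mon s) else (if r' = s then 1 else 0)
  let g' : Matrix (Fin d) (Fin d) k := Matrix.of fun r' s =>
    if r' = a then (if s = a then (pw q (mon a))⁻¹ else - pw q (mon s) * (pw q (mon a))⁻¹)
      else (if r' = s then 1 else 0)
  have hgg : g * g' = 1 := by
    ext r' s
    rw [Matrix.mul_apply]
    by_cases hr : r' = a
    · subst hr
      have e1 : ∀ j, g r' j * g' j s = pw q (mon j) * g' j s := by
        intro j; simp [g]
      rw [Finset.sum_congr rfl (fun j _ => e1 j),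
        ← Finset.add_sum_erase Finset.univ _ (Finset.mem_univ r')]
      have e2 : ∀ j ∈ Finset.univ.erase r', pw q (mon j) * g' j s =
          if j = s then pw q (mon j) else 0 := by
        intro j hj
        have := Finset.ne_of_mem_erase hj
        simp [g', this]
      rw [Finset.sum_congr rfl e2]
      by_cases hs : s = r'
      · subst hs
        rw [Finset.sum_eq_zero]
        · simp [g', hqa]
        · intro j hj
          rw [if_neg (Finset.ne_of_mem_erase hj)]
      · rw [Finset.sum_ite_eq', if_pos (Finset.mem_erase.mpr ⟨hs, Finset.mem_univ s⟩),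
          Matrix.one_apply_ne (Ne.symm hs)]
        simp only [g', Matrix.of_apply, if_true, hs, if_false]
        field_simp
        ring
    · have e1 : ∀ j, g r' j * g' j s = if r' = j then g' j s else 0 := by
        intro j; simp [g, hr]
      rw [Finset.sum_congr rfl (fun j _ => e1 j), Finset.sum_ite_eq, if_pos (Finset.mem_univ r')]
      simp [g', hr, Matrix.one_apply]
  apply Zset_conj hgg (BB_Zset hm ha i0 (hq i0))
  · intro l
    ext r' s
    rw [Matrix.mul_apply, Matrix.mul_apply]
    have e1 : ∀ j, mats (BB mon a q 0) l r' j = if j = a then (if r' = a then q l else 0) else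
        (if mon r' = mon j + Finsupp.single l 1 ∧ r' ≠ a then 1 else 0) := by
      intro j; simp [BB]
    have e2 : ∀ j, mats (c00 k mon + bL k r mon a (fun c => pw q c * (pw q (mon a))⁻¹)) l j s =
        (if mon j = mon s + Finsupp.single l 1 then 1 else 0) +
        (if (mon s).degree + 1 = r ∧ j = a then
          pw q (mon s + Finsupp.single l 1) * (pw q (mon a))⁻¹ else 0) := by
      intro j; simp [c00, bL]
    simp only [e1, e2]
    by_cases hr : r' = a
    · subst hr
      have e3 : ∀ j, (if j = r' then (if r' = r' then q l else 0) else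
        (if mon r' = mon j + Finsupp.single l 1 ∧ r' ≠ r' then 1 else 0)) * g j s =
          if j = r' then q l * pw q (mon s) else 0 := by
        intro j
        by_cases hj : j = r'
        · simp [hj, g]
        · simp [hj]
      rw [Finset.sum_congr rfl (fun j _ => e3 j), Finset.sum_ite_eq', if_pos (Finset.mem_univ _)]
      have e4 : ∀ j, g r' j = pw q (mon j) := by intro j; simp [g]
      simp only [e4, mul_add, Finset.sum_add_distrib, mul_ite, mul_one, mul_zero]
      by_cases hdeg : (mon s).degree + 1 = r
      · have e5 : ∀ j, mon j ≠ mon s + Finsupp.single l 1 := by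
          intro j hj
          have h1 := hm.lt j
          rw [hj, degree_add_single] at h1
          omega
        simp only [e5, if_false, Finset.sum_const_zero, zero_add, hdeg, true_and,
          Finset.sum_ite_eq', Finset.mem_univ, if_true]
        rw [pw_add_single]
        field_simp
      · obtain ⟨j0, hj0⟩ := hm.ex (mon s + Finsupp.single l 1) (by
          rw [degree_add_single]
          have := hm.lt s
          omega)
        simp only [hdeg, false_and, if_false, Finset.sum_const_zero, add_zero]
        rw [Finset.sum_eq_single j0]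
        · rw [if_pos hj0, hj0, pw_add_single, mul_comm]
        · intro b _ hb
          rw [if_neg]
          intro h3
          exact hb (hm.inj (h3.trans hj0.symm))
        · intro h; exact absurd (Finset.mem_univ j0) h
    · have e3 : ∀ j, g r' j = if r' = j then 1 else 0 := by intro j; simp [g, hr]
      simp only [e3, hr, if_false, ite_mul, one_mul, zero_mul, Finset.sum_ite_eq,
        Finset.mem_univ, if_true, and_false, add_zero, ne_eq, not_false_eq_true, and_true]
      have e4 : ∀ j, (if j = a then 0 else if mon r' = mon j + Finsupp.single l 1 then g j s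
          else 0) = if j = s then (if mon r' = mon s + Finsupp.single l 1 then 1 else 0) else 0 := by
        intro j
        by_cases hj : j = a
        · subst hj
          rw [if_pos rfl]
          by_cases hjs : j = s
          · rw [if_pos hjs, if_neg]
            intro h
            have h1 := hm.lt r'
            rw [h, degree_add_single, ← hjs] at h1
            omega
          · rw [if_neg hjs]
        · rw [if_neg hj]
          by_cases hjs : j = s
          · subst hjs
            simp [g, hj]
          · simp [g, hj, hjs]
      rw [Finset.sum_congr rfl (fun j _ => e4 j), Finset.sum_ite_eq', if_pos (Finset.mem_univ s)]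
  · funext r'
    rw [mulVec, dotProduct]
    obtain ⟨z, hz⟩ := hm.ex 0 (by simp; omega)
    have e1 : ∀ j, vect (c00 k mon + bL k r mon a (fun c => pw q c * (pw q (mon a))⁻¹)) j =
        if j = z then 1 else 0 := by
      intro j
      have : vect (c00 k mon + bL k r mon a (fun c => pw q c * (pw q (mon a))⁻¹)) j =
          if mon j = 0 then 1 else 0 := by simp [c00, bL]
      rw [this]
      by_cases hj : j = z
      · rw [if_pos hj, hj, if_pos hz]
      · rw [if_neg hj, if_neg]
        intro h
        exact hj (hm.inj (h.trans hz.symm))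
    simp only [e1, mul_ite, mul_one, mul_zero, Finset.sum_ite_eq', Finset.mem_univ, if_true]
    by_cases hr : r' = a
    · simp [BB, g, hr, hz, pw_zero]
    · by_cases hrz : r' = z
      · have hza : z ≠ a := fun h => hr (hrz.trans h)
        simp [BB, g, hrz, hz, hza]
      · have : mon r' ≠ 0 := fun h => hrz (hm.inj (h.trans hz.symm))
        simp [BB, g, hr, hrz, this]

end dist

end Pool.Agent.Hilb61
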