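import Pool.Agent.Helper61.HilbPow

/-!
# Powers of the maximal ideal: the lower bound
-/

open MvPolynomial Module Matrix TopologicalSpace

namespace Pool.Agent.Hilb61

universe u

variable {k : Type u} [Field k] {n d r : ℕ}

lemma bL_apply_inl (r : ℕ) (mon : Fin d → (Fin n →₀ ℕ)) (a : Fin d) (φ : (Fin n →₀ ℕ) → k)
    (l : Fin n) (r' s : Fin d) : bL k r mon a φ (Sum.inl (l, r', s)) =
      if (mon s).degree + 1 = r ∧ r' = a then φ (mon s + Finsupp.single l 1) else 0 := rfl

lemma bL_congr (mon : Fin d → (Fin n →₀ ℕ)) (a : Fin d) {φ ψ : (Fin n →₀ ℕ) → k}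
    (h : ∀ c : Fin n →₀ ℕ, c.degree = r → φ c = ψ c) : bL k r mon a φ = bL k r mon a ψ := by
  funext x
  rcases x with ⟨l, r', s⟩ | r'
  · rw [bL_apply_inl, bL_apply_inl]
    split_ifs with h1
    · exact h _ (by rw [degree_add_single]; exact h1.1)
    · rfl
  · rfl

section low

variable [Infinite k]

lemma line_eq {mon : Fin d → (Fin n →₀ ℕ)} {a : Fin d} (ha : (mon a).degree + 1 = r)
    (v : Fin n → k) {t : k} (ht : t ≠ 0) :
    (fun x => (Polynomial.C (c00 k mon x) + Polynomial.X *
      Polynomial.C (bL k r mon a (fun c => pw v c * (pw v (mon a))⁻¹) x)).eval t) =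
    c00 k mon + bL k r mon a (fun c => pw (t • v) c * (pw (t • v) (mon a))⁻¹) := by
  have h1 : bL k r mon a (fun c => pw (t • v) c * (pw (t • v) (mon a))⁻¹) =
      t • bL k r mon a (fun c => pw v c * (pw v (mon a))⁻¹) := by
    rw [← map_smul]
    apply bL_congr
    intro c hc
    rw [Pi.smul_apply, smul_eq_mul, pw_smul, pw_smul, hc, ← ha, pow_succ]
    have : t ^ (mon a).degree ≠ 0 := pow_ne_zero _ ht
    rw [mul_inv]
    field_simp
  rw [h1]
  funext x
  simp only [Polynomial.eval_add, Polynomial.eval_C, Polynomial.eval_mul, Polynomial.eval_X,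
    Pi.add_apply, Pi.smul_apply, smul_eq_mul]

lemma line_Zset {mon : Fin d → (Fin n →₀ ℕ)} (hm : IsEnum r mon) {a : Fin d}
    (ha : (mon a).degree + 1 = r) (i0 : Fin n) {v : Fin n → k} (hv : ∀ i, v i ≠ 0) :
    ∀ᶠ t : k in Filter.cofinite, (fun x => (Polynomial.C (c00 k mon x) + Polynomial.X *
      Polynomial.C (bL k r mon a (fun c => pw v c * (pw v (mon a))⁻¹) x)).eval t) ∈
        Zset k n d := by
  filter_upwards [Filter.eventually_cofinite_ne (0 : k)] with t ht
  rw [line_eq ha v ht]
  apply family_Zset hm ha i0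
  intro i
  rw [Pi.smul_apply, smul_eq_mul]
  exact mul_ne_zero ht (hv i)

lemma exists_top {mon : Fin d → (Fin n →₀ ℕ)} (hm : IsEnum r mon) (hr : 1 ≤ r) (i0 : Fin n) :
    ∃ a, (mon a).degree + 1 = r := by
  obtain ⟨a, ha⟩ := hm.ex (Finsupp.single i0 (r - 1)) (by
    rw [Finsupp.degree_single]; omega)
  refine ⟨a, ?_⟩
  rw [ha, Finsupp.degree_single]
  omega

lemma c00_Zset {mon : Fin d → (Fin n →₀ ℕ)} (hm : IsEnum r mon) (hr : 1 ≤ r) (i0 : Fin n) :
    c00 k mon ∈ Zset k n d := by
  obtain ⟨a, ha⟩ := exists_top hm hr i0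
  have h := Zset_of_curve _ (line_Zset (k := k) hm ha i0 (v := fun _ => 1)
    (fun _ => one_ne_zero)) 0
  have h2 : (fun x => (Polynomial.C (c00 k mon x) + Polynomial.X *
      Polynomial.C (bL k r mon a (fun c => pw (fun _ => (1 : k)) c *
        (pw (fun _ => (1 : k)) (mon a))⁻¹) x)).eval 0) = c00 k mon := by
    funext x
    simp
  rwa [h2] at h

lemma bL_pw_mem {mon : Fin d → (Fin n →₀ ℕ)} (hm : IsEnum r mon) {a : Fin d}
    (ha : (mon a).degree + 1 = r) (i0 : Fin n) {v : Fin n → k} (hv : ∀ i, v i ≠ 0) :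
    bL k r mon a (pw v) ∈ tanR (c00 k mon) := by
  have h := tanR_of_curve _ (line_Zset (k := k) hm ha i0 hv)
  have h2 : (fun x => (Polynomial.C (c00 k mon x) + Polynomial.X *
      Polynomial.C (bL k r mon a (fun c => pw v c * (pw v (mon a))⁻¹) x)).eval 0) =
      c00 k mon := by
    funext x
    simp
  have h3 : (fun x => (Polynomial.derivative (Polynomial.C (c00 k mon x) + Polynomial.X *
      Polynomial.C (bL k r mon a (fun c => pw v c * (pw v (mon a))⁻¹) x))).eval 0) =
      bL k r mon a (fun c => pw v c * (pw v (mon a))⁻¹) := by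
    funext x
    simp
  rw [h2, h3] at h
  have h4 := (tanR (c00 k mon)).smul_mem (pw v (mon a)) h
  rw [← map_smul] at h4
  have h5 : (pw v (mon a) • fun c => pw v c * (pw v (mon a))⁻¹) = pw v := by
    funext c
    have := pw_ne_zero hv (mon a)
    rw [Pi.smul_apply, smul_eq_mul]
    field_simp
  rwa [h5] at h4

/-- Extension by zero from the exponents of degree `r`. -/
noncomputable def extD (k : Type u) [Field k] (n r : ℕ) :
    ((Dset n r) → k) →ₗ[k] ((Fin n →₀ ℕ) → k) := by
  classical
  exact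
    { toFun := fun φ c => if h : c ∈ Dset n r then φ ⟨c, h⟩ else 0
      map_add' := by
        intro φ ψ
        funext c
        by_cases h : c ∈ Dset n r <;> simp [h]
      map_smul' := by
        intro t φ
        funext c
        by_cases h : c ∈ Dset n r <;> simp [h] }

lemma extD_apply_mem (φ : (Dset n r) → k) {c : Fin n →₀ ℕ} (h : c ∈ Dset n r) :
    extD k n r φ c = φ ⟨c, h⟩ := by
  show (if h : c ∈ Dset n r then φ ⟨c, h⟩ else 0) = _
  rw [dif_pos h]

/-- The monomials of degree `r` span the dual of the evaluations. -/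
lemma span_pw (W : Submodule k ((Dset n r) → k))
    (hW : ∀ v : Fin n → k, (∀ i, v i ≠ 0) → (fun c : Dset n r => pw v c.1) ∈ W) : W = ⊤ := by
  by_contra hne
  obtain ⟨f, hf, hle⟩ := Submodule.exists_le_ker_of_lt_top W (lt_top_iff_ne_top.mpr hne)
  apply hf
  let P : MvPolynomial (Fin n) k := ∑ c : Dset n r, monomial c.1 (f (Pi.single c 1))
  have hfx : ∀ x : (Dset n r) → k, f x = ∑ c, x c * f (Pi.single c 1) := by
    intro x
    have h1 : x = ∑ c, x c • (Pi.single c 1 : (Dset n r) → k) := by
      funext z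
      rw [Finset.sum_apply]
      simp [Pi.single_apply]
    conv_lhs => rw [h1, map_sum]
    apply Finset.sum_congr rfl
    intro c _
    rw [map_smul, smul_eq_mul]
  have hev : ∀ v : Fin n → k, (∀ i, v i ≠ 0) → eval v P = 0 := by
    intro v hv
    have h1 : f (fun c : Dset n r => pw v c.1) = 0 := hle (hW v hv)
    rw [hfx] at h1
    rw [← h1, map_sum]
    apply Finset.sum_congr rfl
    intro c _
    rw [eval_monomial, mul_comm]
    congr 1
    rw [Finsupp.prod_fintype _ _ (fun i => pow_zero _)]
    rfl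
  have hP : P = 0 := by
    have h1 : P * ∏ i, X i = 0 := by
      apply MvPolynomial.funext
      intro v
      rw [map_mul, map_prod, map_zero]
      by_cases hv : ∀ i, v i ≠ 0
      · rw [hev v hv, zero_mul]
      · push Not at hv
        obtain ⟨i, hi⟩ := hv
        rw [Finset.prod_eq_zero (Finset.mem_univ i) (by rw [eval_X, hi]), mul_zero]
    rcases mul_eq_zero.mp h1 with h | h
    · exact h
    · exfalso
      rw [Finset.prod_eq_zero_iff] at h
      obtain ⟨i, -, hi⟩ := h
      exact X_ne_zero i hi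
  apply LinearMap.ext
  intro x
  rw [hfx, LinearMap.zero_apply]
  apply Finset.sum_eq_zero
  intro c _
  have h1 : coeff c.1 P = f (Pi.single c 1) := by
    show coeff c.1 (∑ c : Dset n r, monomial c.1 (f (Pi.single c 1))) = _
    rw [coeff_sum, Finset.sum_eq_single c]
    · rw [coeff_monomial, if_pos rfl]
    · intro b _ hb
      rw [coeff_monomial, if_neg]
      intro h
      exact hb (Subtype.ext h)
    · intro h; exact absurd (Finset.mem_univ c) h
  rw [← h1, hP, coeff_zero, mul_zero]

lemma bL_mem {mon : Fin d → (Fin n →₀ ℕ)} (hm : IsEnum r mon) {a : Fin d}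
    (ha : (mon a).degree + 1 = r) (i0 : Fin n) (φ : (Fin n →₀ ℕ) → k) :
    bL k r mon a φ ∈ tanR (c00 k mon) := by
  let W : Submodule k ((Dset n r) → k) :=
    (tanR (c00 k mon)).comap ((bL k r mon a).comp (extD k n r))
  have hW : W = ⊤ := by
    apply span_pw
    intro v hv
    show bL k r mon a (extD k n r _) ∈ tanR (c00 k mon)
    have h1 : bL k r mon a (extD k n r (fun c : Dset n r => pw v c.1)) =
        bL k r mon a (pw v) := by
      apply bL_congr
      intro c hc
      rw [extD_apply_mem _ (mem_Dset.mpr hc)]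
    rw [h1]
    exact bL_pw_mem hm ha i0 hv
  have h1 : (fun c : Dset n r => φ c.1) ∈ W := by rw [hW]; trivial
  have h2 : bL k r mon a (extD k n r (fun c : Dset n r => φ c.1)) ∈ tanR (c00 k mon) := h1
  have h3 : bL k r mon a (extD k n r (fun c : Dset n r => φ c.1)) = bL k r mon a φ := by
    apply bL_congr
    intro c hc
    rw [extD_apply_mem _ (mem_Dset.mpr hc)]
  rwa [h3] at h2

end low

/-! ### The space of tangent vectors -/

/-- The tangent vector of a linear map from forms of degree `r` to forms of degree `r - 1`. -/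
noncomputable def PsiD (k : Type u) [Field k] (r : ℕ) (mon : Fin d → (Fin n →₀ ℕ)) :
    ((Dset n r) × (Dset n (r - 1)) → k) →ₗ[k] (Coord n d → k) := by
  classical
  exact
    { toFun := fun φ => Sum.elim (fun x => if h : mon x.2.2 + Finsupp.single x.1 1 ∈ Dset n r ∧
        mon x.2.1 ∈ Dset n (r - 1) then φ (⟨_, h.1⟩, ⟨_, h.2⟩) else 0) (fun _ => 0)
      map_add' := by
        intro φ ψ
        funext x
        rcases x with ⟨l, r', s⟩ | r'
        · simp only [Sum.elim_inl, Pi.add_apply]
          split_ifs <;> simp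
        · simp
      map_smul' := by
        intro t φ
        funext x
        rcases x with ⟨l, r', s⟩ | r'
        · simp only [Sum.elim_inl, Pi.smul_apply, RingHom.id_apply, smul_eq_mul]
          split_ifs <;> simp
        · simp }

lemma PsiD_inl (mon : Fin d → (Fin n →₀ ℕ)) (φ : (Dset n r) × (Dset n (r - 1)) → k)
    (l : Fin n) (r' s : Fin d) (h1 : mon s + Finsupp.single l 1 ∈ Dset n r)
    (h2 : mon r' ∈ Dset n (r - 1)) :
    PsiD k r mon φ (Sum.inl (l, r', s)) = φ (⟨_, h1⟩, ⟨_, h2⟩) := by
  show (if h : mon s + Finsupp.single l 1 ∈ Dset n r ∧ mon r' ∈ Dset n (r - 1) then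
    φ (⟨_, h.1⟩, ⟨_, h.2⟩) else 0) = _
  rw [dif_pos ⟨h1, h2⟩]

lemma PsiD_inl_neg (mon : Fin d → (Fin n →₀ ℕ)) (φ : (Dset n r) × (Dset n (r - 1)) → k)
    (l : Fin n) (r' s : Fin d)
    (h : ¬ (mon s + Finsupp.single l 1 ∈ Dset n r ∧ mon r' ∈ Dset n (r - 1))) :
    PsiD k r mon φ (Sum.inl (l, r', s)) = 0 := by
  show (if h : mon s + Finsupp.single l 1 ∈ Dset n r ∧ mon r' ∈ Dset n (r - 1) then
    φ (⟨_, h.1⟩, ⟨_, h.2⟩) else 0) = _
  rw [dif_neg h]

lemma PsiD_inr (mon : Fin d → (Fin n →₀ ℕ)) (φ : (Dset n r) × (Dset n (r - 1)) → k)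
    (r' : Fin d) : PsiD k r mon φ (Sum.inr r') = 0 := rfl

/-- A nonzero exponent is a sum of a smaller one and a unit vector. -/
lemma exists_pred {c : Fin n →₀ ℕ} (hc : 1 ≤ c.degree) :
    ∃ (l : Fin n) (b : Fin n →₀ ℕ), b + Finsupp.single l 1 = c := by
  have h1 : c ≠ 0 := by
    rintro rfl
    simp at hc
  obtain ⟨l, hl⟩ : ∃ l, c l ≠ 0 := by
    by_contra h
    push Not at h
    exact h1 (Finsupp.ext h)
  refine ⟨l, c - Finsupp.single l 1, ?_⟩
  apply tsub_add_cancel_of_le
  intro i
  by_cases hi : i = l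
  · subst hi
    rw [Finsupp.single_eq_same]
    omega
  · rw [Finsupp.single_eq_of_ne hi]
    omega

lemma PsiD_injective {mon : Fin d → (Fin n →₀ ℕ)} (hm : IsEnum r mon) (hr : 1 ≤ r) :
    Function.Injective (PsiD k r mon) := by
  rw [← LinearMap.ker_eq_bot, LinearMap.ker_eq_bot']
  intro φ hφ
  funext ⟨⟨c, hc⟩, ⟨a, ha⟩⟩
  have hc' := mem_Dset.mp hc
  have ha' := mem_Dset.mp ha
  obtain ⟨l, b, rfl⟩ := exists_pred (c := c) (by omega)
  rw [degree_add_single] at hc'
  obtain ⟨s, rfl⟩ := hm.ex b (by omega)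
  obtain ⟨r', rfl⟩ := hm.ex a (by omega)
  have h1 := congrFun hφ (Sum.inl (l, r', s))
  rw [PsiD_inl mon φ l r' s hc ha] at h1
  exact h1

lemma PsiD_mem [Infinite k] {mon : Fin d → (Fin n →₀ ℕ)} (hm : IsEnum r mon) (hr : 1 ≤ r)
    (i0 : Fin n) (φ : (Dset n r) × (Dset n (r - 1)) → k) :
    PsiD k r mon φ ∈ tanR (c00 k mon) := by
  classical
  have h1 : PsiD k r mon φ = ∑ a : Fin d, if h : (mon a).degree + 1 = r then
      bL k r mon a (fun c => if hc : c ∈ Dset n r then
        φ (⟨c, hc⟩, ⟨mon a, mem_Dset.mpr (by omega)⟩) else 0) else 0 := by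
    funext x
    rw [Finset.sum_apply]
    rcases x with ⟨l, r', s⟩ | r'
    · rw [Finset.sum_eq_single r']
      · by_cases hr' : (mon r').degree + 1 = r
        · rw [dif_pos hr', bL_apply_inl]
          by_cases hs : (mon s).degree + 1 = r
          · have h2 : mon s + Finsupp.single l 1 ∈ Dset n r := by
              rw [mem_Dset, degree_add_single]; exact hs
            have h3 : mon r' ∈ Dset n (r - 1) := by rw [mem_Dset]; omega
            rw [PsiD_inl mon φ l r' s h2 h3, if_pos ⟨hs, rfl⟩, dif_pos h2]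
          · rw [PsiD_inl_neg, if_neg]
            · rintro ⟨h, -⟩; exact hs h
            · rintro ⟨h, -⟩
              rw [mem_Dset, degree_add_single] at h
              exact hs h
        · rw [dif_neg hr', Pi.zero_apply, PsiD_inl_neg]
          rintro ⟨-, h⟩
          rw [mem_Dset] at h
          omega
      · intro a _ ha
        by_cases ha' : (mon a).degree + 1 = r
        · rw [dif_pos ha', bL_apply_inl, if_neg]
          rintro ⟨-, h⟩
          exact ha h.symm
        · rw [dif_neg ha', Pi.zero_apply]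
      · intro h; exact absurd (Finset.mem_univ r') h
    · rw [PsiD_inr, Finset.sum_eq_zero]
      intro a _
      by_cases ha' : (mon a).degree + 1 = r
      · rw [dif_pos ha']; rfl
      · rw [dif_neg ha']; rfl
  rw [h1]
  apply Submodule.sum_mem
  intro a _
  by_cases ha : (mon a).degree + 1 = r
  · rw [dif_pos ha]
    exact bL_mem hm ha i0 _
  · rw [dif_neg ha]
    exact Submodule.zero_mem _

lemma PsiD_inf_orb {mon : Fin d → (Fin n →₀ ℕ)} (hm : IsEnum r mon) (hr : 1 ≤ r) :
    LinearMap.range (PsiD k r mon) ⊓ LinearMap.range (orb (c00 k mon)) = ⊥ := by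
  rw [eq_bot_iff]
  rintro _ ⟨⟨φ, rfl⟩, Y, hY⟩
  rw [Submodule.mem_bot]
  suffices h : Y = 0 by rw [← hY, h, map_zero]
  obtain ⟨z, hz⟩ := hm.ex 0 (by simp; omega)
  have hcol0 : ∀ r', Y r' z = 0 := by
    intro r'
    have h1 := congrFun hY (Sum.inr r')
    rw [PsiD_inr] at h1
    have h2 : orb (c00 k mon) Y (Sum.inr r') = ∑ j, Y r' j * c00 k mon (Sum.inr j) := rfl
    rw [h2, Finset.sum_eq_single z] at h1
    · simpa [c00, hz] using h1
    · intro j _ hj
      have : mon j ≠ 0 := fun h => hj (hm.inj (h.trans hz.symm))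
      simp [c00, this]
    · intro h; exact absurd (Finset.mem_univ z) h
  have key : ∀ N, ∀ s, (mon s).degree < N → ∀ r', Y r' s = 0 := by
    intro N
    induction N with
    | zero => intro s hs; exact absurd hs (Nat.not_lt_zero _)
    | succ N ih =>
      intro s hs r'
      by_cases hs0 : (mon s).degree = 0
      · rw [Finsupp.degree_eq_zero_iff] at hs0
        have : s = z := hm.inj (hs0.trans hz.symm)
        rw [this]
        exact hcol0 r'
      · obtain ⟨l, b, hb⟩ := exists_pred (c := mon s) (by omega)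
        have hdeg : (mon s).degree = b.degree + 1 := by rw [← hb, degree_add_single]
        have hslt := hm.lt s
        obtain ⟨s', hs'⟩ := hm.ex b (by omega)
        have h1 := congrFun hY (Sum.inl (l, r', s'))
        rw [PsiD_inl_neg] at h1
        · have h2 : orb (c00 k mon) Y (Sum.inl (l, r', s')) =
              (Y * mats (c00 k mon) l) r' s' - (mats (c00 k mon) l * Y) r' s' := rfl
          rw [h2, Matrix.mul_apply, Matrix.mul_apply] at h1
          have h3 : ∑ j, mats (c00 k mon) l r' j * Y j s' = 0 := by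
            apply Finset.sum_eq_zero
            intro j _
            rw [ih s' (by rw [hs']; omega), mul_zero]
          rw [h3, sub_zero, Finset.sum_eq_single s] at h1
          · simpa [c00, hs', hb] using h1
          · intro j _ hj
            have : mon j ≠ b + Finsupp.single l 1 := fun h => hj (hm.inj (h.trans hb))
            simp [c00, hs', this]
          · intro h; exact absurd (Finset.mem_univ s) h
        · rintro ⟨h, -⟩
          rw [mem_Dset, hs', hb] at h
          omega
  ext r' s
  exact key r s (hm.lt s) r'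

/-! ### The ideal -/

/-- The chart of the monomials. -/
noncomputable def lamD (k : Type u) [Field k] (mon : Fin d → (Fin n →₀ ℕ)) (s : Fin d) :
    MvPolynomial (Fin n) k := monomial (mon s) 1

lemma coeff_sum_lamD {mon : Fin d → (Fin n →₀ ℕ)} (a : Fin d → k) (x : Fin n →₀ ℕ) :
    coeff x (∑ s, C (a s) * lamD k mon s) = ∑ s, if mon s = x then a s else 0 := by
  rw [coeff_sum]
  apply Finset.sum_congr rfl
  intro s _
  rw [coeff_C_mul, lamD, coeff_monomial, mul_ite, mul_one, mul_zero]

lemma isCoord_pow {mon : Fin d → (Fin n →₀ ℕ)} (hm : IsEnum r mon) (hr : 1 ≤ r) :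
    IsCoord (lamD k mon) (idealOfVars (Fin n) k ^ r) (c00 k mon) := by
  refine ⟨?_, ?_, ?_⟩
  · intro f
    refine ⟨fun s => coeff (mon s) f, ?_, ?_⟩
    · show f - ∑ s, C (coeff (mon s) f) * lamD k mon s ∈ idealOfVars (Fin n) k ^ r
      rw [mem_pow_idealOfVars_iff']
      intro x hx
      obtain ⟨s, hs⟩ := hm.ex x hx
      rw [coeff_sub, coeff_sum_lamD, Finset.sum_eq_single s]
      · rw [if_pos hs, hs, sub_self]
      · intro b _ hb
        rw [if_neg]
        intro h
        exact hb (hm.inj (h.trans hs.symm))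
      · intro h; exact absurd (Finset.mem_univ s) h
    · intro a ha
      have ha' : f - ∑ s, C (a s) * lamD k mon s ∈ idealOfVars (Fin n) k ^ r := ha
      rw [mem_pow_idealOfVars_iff'] at ha'
      funext s
      have h1 := ha' (mon s) (hm.lt s)
      rw [coeff_sub, coeff_sum_lamD, Finset.sum_eq_single s, if_pos rfl] at h1
      · exact (sub_eq_zero.mp h1).symm
      · intro b _ hb
        rw [if_neg]
        intro h
        exact hb (hm.inj h)
      · intro h; exact absurd (Finset.mem_univ s) h
  · intro i s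
    rw [mem_pow_idealOfVars_iff']
    intro x hx
    have h1 : X i * lamD k mon s = monomial (mon s + Finsupp.single i 1) 1 := by
      rw [lamD, X, monomial_mul, one_mul, add_comm]
    have h2 : ∀ j, c00 k mon (Sum.inl (i, j, s)) =
        if mon j = mon s + Finsupp.single i 1 then 1 else 0 := fun j => rfl
    rw [coeff_sub, coeff_sum_lamD, h1, coeff_monomial]
    simp only [h2]
    by_cases hxs : mon s + Finsupp.single i 1 = x
    · obtain ⟨j, hj⟩ := hm.ex x hx
      rw [if_pos hxs, Finset.sum_eq_single j]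
      · rw [if_pos hj, if_pos (hj.trans hxs.symm), sub_self]
      · intro b _ hb
        rw [if_neg]
        intro h
        exact hb (hm.inj (h.trans hj.symm))
      · intro h; exact absurd (Finset.mem_univ j) h
    · rw [if_neg hxs, Finset.sum_eq_zero, sub_zero]
      intro j _
      by_cases hj : mon j = x
      · rw [if_pos hj, if_neg]
        intro h
        exact hxs (h.symm.trans hj)
      · rw [if_neg hj]
  · rw [mem_pow_idealOfVars_iff']
    intro x hx
    have h2 : ∀ j, c00 k mon (Sum.inr j) = if mon j = 0 then 1 else 0 := fun j => rfl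
    rw [coeff_sub, coeff_sum_lamD, coeff_one]
    simp only [h2]
    by_cases hx0 : 0 = x
    · obtain ⟨j, hj⟩ := hm.ex x hx
      rw [if_pos hx0, Finset.sum_eq_single j]
      · rw [if_pos hj, if_pos (hj.trans hx0.symm), sub_self]
      · intro b _ hb
        rw [if_neg]
        intro h
        exact hb (hm.inj (h.trans hj.symm))
      · intro h; exact absurd (Finset.mem_univ j) h
    · rw [if_neg hx0, Finset.sum_eq_zero, sub_zero]
      intro j _
      by_cases hj : mon j = x
      · rw [if_pos hj, if_neg]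
        intro h
        exact hx0 (h.symm.trans hj)
      · rw [if_neg hj]

/-- The point `𝔪^r`. -/
noncomputable def xpow {mon : Fin d → (Fin n →₀ ℕ)} (hm : IsEnum r mon) (hr : 1 ≤ r) :
    Hilb k n d := ⟨idealOfVars (Fin n) k ^ r, (isCoord_pow hm hr).mem_Hilb⟩

lemma xpow_smoothable [Infinite k] {mon : Fin d → (Fin n →₀ ℕ)} (hm : IsEnum r mon)
    (hr : 1 ≤ r) (i0 : Fin n) : xpow (k := k) hm hr ∈ smoothable k n d := by
  have h := isCoord_pow (k := k) hm hr
  have h1 := toHilb_eq (x := xpow (k := k) hm hr) h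
  rw [← h1]
  exact smoothable_of_Zset (c00_Zset hm hr i0) _

/-- **Lower bound** for the tangent space at `𝔪^r`. -/
theorem le_finrank_pow [Infinite k] {mon : Fin d → (Fin n →₀ ℕ)} (hm : IsEnum r mon)
    (hr : 1 ≤ r) (i0 : Fin n) :
    n.multichoose r * n.multichoose (r - 1) ≤
      finrank k (tangent (lamD k mon) (c00 k mon)) := by
  have h1 := finrank_le_tangent_of_tanR (isCoord_pow (k := k) hm hr) (c00_Zset hm hr i0)
    (W := LinearMap.range (PsiD k r mon)) (by
      rintro _ ⟨φ, rfl⟩
      exact PsiD_mem hm hr i0 φ) (PsiD_inf_orb hm hr)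
  rw [LinearMap.finrank_range_of_inj (PsiD_injective hm hr)] at h1
  simpa [card_Dset] using h1

end Pool.Agent.Hilb61
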