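import Pool.Agent.Helper61.HilbPow2

/-!
# Powers of the maximal ideal: the upper bound
-/

open MvPolynomial Module Matrix TopologicalSpace

namespace Pool.Agent.Hilb61

universe u

variable {k : Type u} [Field k] {n d r : ℕ}

section up

variable {mon : Fin d → (Fin n →₀ ℕ)} (hm : IsEnum r mon) (hr : 1 ≤ r)
  {w : Coord n d → k} (hw : w ∈ tangent (lamD k mon) (c00 k mon))

lemma lamD_zero {z : Fin d} (hz : mon z = 0) : lamD k mon z = 1 := by
  rw [lamD, hz]; rfl

include hm hr hw in
lemma tan_inr (r' : Fin d) : w (Sum.inr r') = 0 := by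
  obtain ⟨z, hz⟩ := hm.ex 0 (by simp; omega)
  have hmem : (X (Sum.inr r') - C (c00 k mon (Sum.inr r')) : MvPolynomial (Coord n d) k) ∈
      eqns (lamD k mon) := by
    intro p _ c' h'
    have h1 := coef_lam h' z
    rw [lamD_zero hz, coef_one] at h1
    have h2 := congrFun h1 r'
    rw [vect_apply] at h2
    rw [map_sub, eval_X, eval_C, h2, sub_eq_zero]
    by_cases h : r' = z
    · subst h
      simp [c00, hz]
    · have : mon r' ≠ 0 := fun h3 => h (hm.inj (h3.trans hz.symm))
      simp [c00, this, h]
  have h1 := hw _ hmem
  rwa [dd_sub, dd_C, dd_X, sub_zero] at h1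

include hm hw in
lemma tan_low (l : Fin n) (r' s : Fin d) (hs : (mon s).degree + 1 < r) :
    w (Sum.inl (l, r', s)) = 0 := by
  obtain ⟨j0, hj0⟩ := hm.ex (mon s + Finsupp.single l 1) (by rw [degree_add_single]; exact hs)
  have hmem : (X (Sum.inl (l, r', s)) - C (c00 k mon (Sum.inl (l, r', s))) :
      MvPolynomial (Coord n d) k) ∈ eqns (lamD k mon) := by
    intro p _ c' h'
    have h1 := coef_X_mul h' l (lamD k mon s)
    have h2 : X l * lamD k mon s = lamD k mon j0 := by
      rw [lamD, lamD, X, monomial_mul, one_mul, add_comm, hj0]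
    rw [h2, coef_lam, coef_lam, mulVec_single_one] at h1
    have h3 := congrFun h1 r'
    rw [Matrix.col_apply, mats_apply] at h3
    rw [map_sub, eval_X, eval_C, ← h3, sub_eq_zero]
    by_cases h : r' = j0
    · subst h
      simp [c00, hj0]
    · have : mon r' ≠ mon s + Finsupp.single l 1 := fun h3 => h (hm.inj (h3.trans hj0.symm))
      simp [c00, this, h]
  have h1 := hw _ hmem
  rwa [dd_sub, dd_C, dd_X, sub_zero] at h1

include hm in
/-- columns of the shift matrices -/
lemma shift_col (B : Matrix (Fin d) (Fin d) k) (i : Fin n) (r' s j0 : Fin d)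
    (hj0 : mon j0 = mon s + Finsupp.single i 1) :
    (B * mats (c00 k mon) i) r' s = B r' j0 := by
  rw [Matrix.mul_apply, Finset.sum_eq_single j0]
  · simp [c00, hj0]
  · intro j _ hj
    have : mon j ≠ mon s + Finsupp.single i 1 := fun h => hj (hm.inj (h.trans hj0.symm))
    simp [c00, this]
  · intro h; exact absurd (Finset.mem_univ j0) h

include hm in
lemma shift_col_zero (B : Matrix (Fin d) (Fin d) k) (i : Fin n) (r' s : Fin d)
    (hs : (mon s).degree + 1 = r) : (B * mats (c00 k mon) i) r' s = 0 := by
  rw [Matrix.mul_apply, Finset.sum_eq_zero]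
  intro j _
  have : mon j ≠ mon s + Finsupp.single i 1 := by
    intro h
    have h1 := hm.lt j
    rw [h, degree_add_single] at h1
    omega
  simp [c00, this]

include hm in
/-- rows of the shift matrices -/
lemma shift_row (B : Matrix (Fin d) (Fin d) k) (i : Fin n) (r' s j0 : Fin d)
    (hj0 : mon r' = mon j0 + Finsupp.single i 1) :
    (mats (c00 k mon) i * B) r' s = B j0 s := by
  rw [Matrix.mul_apply, Finset.sum_eq_single j0]
  · simp [c00, hj0]
  · intro j _ hj
    have : mon r' ≠ mon j + Finsupp.single i 1 := by
      intro h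
      rw [hj0] at h
      exact hj (hm.inj (add_right_cancel h)).symm
    simp [c00, this]
  · intro h; exact absurd (Finset.mem_univ j0) h

lemma shift_row_zero (B : Matrix (Fin d) (Fin d) k) (i : Fin n) (r' s : Fin d)
    (h0 : mon r' i = 0) : (mats (c00 k mon) i * B) r' s = 0 := by
  rw [Matrix.mul_apply, Finset.sum_eq_zero]
  intro j _
  have : mon r' ≠ mon j + Finsupp.single i 1 := by
    intro h
    rw [h] at h0
    simp at h0
  simp [c00, this]

include hm hw in
/-- first consequence of commutation -/
lemma tan_S1 (i j : Fin n) (r' s si sj : Fin d) (hs : (mon s).degree + 1 < r)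
    (hi : mon si = mon s + Finsupp.single i 1) (hj : mon sj = mon s + Finsupp.single j 1) :
    w (Sum.inl (j, r', si)) = w (Sum.inl (i, r', sj)) := by
  have h := tangent_mem_ZC hw i j
  have h1 := congrFun (congrFun h r') s
  rw [Matrix.sub_apply, Matrix.sub_apply, shift_col hm _ i r' s si hi,
    shift_col hm _ j r' s sj hj, Matrix.mul_apply, Matrix.mul_apply] at h1
  have h2 : ∀ (a b : Fin n), ∑ x, mats (c00 k mon) a r' x * mats w b x s = 0 := by
    intro a b
    apply Finset.sum_eq_zero
    intro x _
    rw [mats_apply w, tan_low hm hw b x s hs, mul_zero]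
  rw [h2, h2, zero_sub, zero_sub, neg_inj] at h1
  exact h1

include hm hw in
/-- second consequence of commutation -/
lemma tan_S2 (i j : Fin n) (y s : Fin d) (hs : (mon s).degree + 1 = r) :
    (mats (c00 k mon) i * mats w j) y s = (mats (c00 k mon) j * mats w i) y s := by
  have h := tangent_mem_ZC hw i j
  have h1 := congrFun (congrFun h y) s
  rw [Matrix.sub_apply, Matrix.sub_apply, shift_col_zero hm _ i y s hs,
    shift_col_zero hm _ j y s hs, sub_zero, sub_zero] at h1
  exact h1

include hm hw in
/-- the components of degree less than `r - 1` vanish -/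
lemma tan_deg (hn : ∀ j : Fin n, ∃ i : Fin n, i ≠ j) (m : ℕ) :
    ∀ (l j : Fin n) (r' s : Fin d), (mon s).degree + 1 = r → (mon r').degree + 1 < r →
      mon r' j = m → m < (mon s + Finsupp.single l 1 : Fin n →₀ ℕ) j →
      w (Sum.inl (l, r', s)) = 0 := by
  -- the case `l = j` reduces to a smaller value
  have main : ∀ m : ℕ, (∀ (l j : Fin n) (r' s : Fin d), (mon s).degree + 1 = r →
      (mon r').degree + 1 < r → mon r' j + 1 = m → m ≤ mon s j →
      w (Sum.inl (l, r', s)) = 0) → ∀ (j : Fin n) (r' s : Fin d),
      (mon s).degree + 1 = r → (mon r').degree + 1 < r → mon r' j = m → m ≤ mon s j →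
      w (Sum.inl (j, r', s)) = 0 := by
    intro m ih j r' s hs hr' hm' hle
    obtain ⟨i, hij⟩ := hn j
    obtain ⟨y, hy⟩ := hm.ex (mon r' + Finsupp.single i 1) (by
      rw [degree_add_single]; exact hr')
    have h1 := tan_S2 hm hw i j y s hs
    rw [shift_row hm _ i y s r' hy] at h1
    have hyj : mon y j = mon r' j := by
      rw [hy, Finsupp.add_apply, Finsupp.single_eq_of_ne hij.symm, add_zero]
    by_cases h0 : mon y j = 0
    · rw [shift_row_zero _ j y s h0] at h1
      exact h1
    · -- predecessor
      have hle2 : Finsupp.single j 1 ≤ mon y := by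
        intro x
        by_cases hx : x = j
        · subst hx
          rw [Finsupp.single_eq_same]
          omega
        · rw [Finsupp.single_eq_of_ne hx]
          omega
      have hyb : mon y - Finsupp.single j 1 + Finsupp.single j 1 = mon y :=
        tsub_add_cancel_of_le hle2
      have hdb : (mon y - Finsupp.single j 1).degree + 1 = (mon y).degree := by
        rw [← degree_add_single _ j, hyb]
      have hylt := hm.lt y
      have hdy : (mon y).degree = (mon r').degree + 1 := by rw [hy, degree_add_single]
      obtain ⟨u, hu⟩ := hm.ex (mon y - Finsupp.single j 1) (by omega)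
      rw [shift_row hm _ j y s u (by rw [hu, hyb])] at h1
      have huj : mon u j + 1 = m := by
        have h2 : (mon y - Finsupp.single j 1 : Fin n →₀ ℕ) j + 1 = mon y j := by
          have := congrFun (congrArg DFunLike.coe hyb) j
          rw [Finsupp.add_apply, Finsupp.single_eq_same] at this
          exact this
        rw [hu, h2, hyj, hm']
      have hu2 : (mon u).degree + 1 < r := by rw [hu]; omega
      rw [mats_apply, mats_apply] at h1
      rw [h1]
      exact ih i j u s hs hu2 huj hle
  -- reduction of general `l` to `l = j`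
  have red : ∀ m : ℕ, (∀ (j : Fin n) (r' s : Fin d),
      (mon s).degree + 1 = r → (mon r').degree + 1 < r → mon r' j = m → m ≤ mon s j →
      w (Sum.inl (j, r', s)) = 0) → ∀ (l j : Fin n) (r' s : Fin d), (mon s).degree + 1 = r →
      (mon r').degree + 1 < r → mon r' j = m →
      m < (mon s + Finsupp.single l 1 : Fin n →₀ ℕ) j → w (Sum.inl (l, r', s)) = 0 := by
    intro m h l j r' s hs hr' hm' hlt
    by_cases hlj : l = j
    · subst hlj
      rw [Finsupp.add_apply, Finsupp.single_eq_same] at hlt
      exact h l r' s hs hr' hm' (by omega)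
    · rw [Finsupp.add_apply, Finsupp.single_eq_of_ne (Ne.symm hlj), add_zero] at hlt
      have hle2 : Finsupp.single j 1 ≤ mon s := by
        intro x
        by_cases hx : x = j
        · subst hx
          rw [Finsupp.single_eq_same]
          omega
        · rw [Finsupp.single_eq_of_ne hx]
          omega
      have hyb : mon s - Finsupp.single j 1 + Finsupp.single j 1 = mon s :=
        tsub_add_cancel_of_le hle2
      have hdb : (mon s - Finsupp.single j 1).degree + 1 = (mon s).degree := by
        rw [← degree_add_single _ j, hyb]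
      obtain ⟨b, hb⟩ := hm.ex (mon s - Finsupp.single j 1) (by omega)
      obtain ⟨s', hs'⟩ := hm.ex (mon b + Finsupp.single l 1) (by
        rw [degree_add_single, hb]; omega)
      have h1 := tan_S1 hm hw j l r' b s s' (by rw [hb]; omega) (by rw [hb, hyb]) hs'
      rw [h1]
      apply h j r' s' _ hr' hm'
      · have h2 : (mon s - Finsupp.single j 1 : Fin n →₀ ℕ) j + 1 = mon s j := by
          have := congrFun (congrArg DFunLike.coe hyb) j
          rw [Finsupp.add_apply, Finsupp.single_eq_same] at this
          exact this
        rw [hs', Finsupp.add_apply, Finsupp.single_eq_of_ne (Ne.symm hlj), add_zero, hb]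
        omega
      · rw [hs', degree_add_single, hb]
        omega
  induction m with
  | zero =>
    apply red
    apply main
    intro l j r' s _ _ h
    omega
  | succ m ih =>
    apply red
    apply main
    intro l j r' s hs hr' hm' hle
    apply ih l j r' s hs hr' (by omega)
    rw [Finsupp.add_apply]
    omega

include hm hr hw in
lemma tan_range (hn : ∀ j : Fin n, ∃ i : Fin n, i ≠ j) :
    w ∈ LinearMap.range (PsiD k r mon) := by
  classical
  have hpred : ∀ c : Dset n r, ∃ x : Fin n × Fin d, mon x.2 + Finsupp.single x.1 1 = c.1 := by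
    intro c
    have hc := mem_Dset.mp c.2
    obtain ⟨l, b, hb⟩ := exists_pred (c := c.1) (by omega)
    obtain ⟨s, hs⟩ := hm.ex b (by rw [← hb, degree_add_single] at hc; omega)
    exact ⟨(l, s), by rw [hs, hb]⟩
  choose X hX using hpred
  have hidx : ∀ a : Dset n (r - 1), ∃ r', mon r' = a.1 := by
    intro a
    have ha := mem_Dset.mp a.2
    exact hm.ex a.1 (by omega)
  choose Y hY using hidx
  refine ⟨fun p => w (Sum.inl ((X p.1).1, Y p.2, (X p.1).2)), ?_⟩
  funext x
  rcases x with ⟨l, r', s⟩ | r'
  · by_cases h : mon s + Finsupp.single l 1 ∈ Dset n r ∧ mon r' ∈ Dset n (r - 1)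
    · rw [PsiD_inl mon _ l r' s h.1 h.2]
      have hYr : Y ⟨mon r', h.2⟩ = r' := hm.inj (hY _)
      have hXc := hX ⟨mon s + Finsupp.single l 1, h.1⟩
      simp only at hXc
      show w (Sum.inl ((X ⟨mon s + Finsupp.single l 1, h.1⟩).1, Y ⟨mon r', h.2⟩,
        (X ⟨mon s + Finsupp.single l 1, h.1⟩).2)) = w (Sum.inl (l, r', s))
      rw [hYr]
      generalize X ⟨mon s + Finsupp.single l 1, h.1⟩ = p at hXc
      obtain ⟨l', s'⟩ := p
      simp only at hXc ⊢
      by_cases hl : l' = l
      · subst hl
        rw [hm.inj (add_right_cancel hXc)]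
      · -- common predecessor
        have hdeg := mem_Dset.mp h.1
        rw [degree_add_single] at hdeg
        have hpos : 1 ≤ mon s l' := by
          have := congrFun (congrArg DFunLike.coe hXc) l'
          rw [Finsupp.add_apply, Finsupp.add_apply, Finsupp.single_eq_same,
            Finsupp.single_eq_of_ne hl, add_zero] at this
          omega
        have hle2 : Finsupp.single l' 1 ≤ mon s := by
          intro x
          by_cases hx : x = l'
          · subst hx
            rw [Finsupp.single_eq_same]
            omega
          · rw [Finsupp.single_eq_of_ne hx]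
            omega
        have hyb : mon s - Finsupp.single l' 1 + Finsupp.single l' 1 = mon s :=
          tsub_add_cancel_of_le hle2
        have hdb : (mon s - Finsupp.single l' 1).degree + 1 = (mon s).degree := by
          rw [← degree_add_single _ l', hyb]
        obtain ⟨b, hb⟩ := hm.ex (mon s - Finsupp.single l' 1) (by omega)
        have hs1 : mon s = mon b + Finsupp.single l' 1 := by rw [hb, hyb]
        have hs2 : mon s' = mon b + Finsupp.single l 1 := by
          rw [hs1] at hXc
          have : mon s' + Finsupp.single l' 1 =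
              mon b + Finsupp.single l 1 + Finsupp.single l' 1 := by
            rw [hXc]; abel
          exact add_right_cancel this
        exact tan_S1 hm hw l l' r' b s' s (by rw [hb]; omega) hs2 hs1
    · rw [PsiD_inl_neg mon _ l r' s h]
      symm
      have hslt := hm.lt s
      have hrlt := hm.lt r'
      by_cases hs : (mon s).degree + 1 = r
      · have hr'' : (mon r').degree + 1 < r := by
          by_contra hcon
          apply h
          constructor
          · rw [mem_Dset, degree_add_single]; exact hs
          · rw [mem_Dset]; omega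
        obtain ⟨j, hj⟩ : ∃ j, mon r' j < (mon s + Finsupp.single l 1 : Fin n →₀ ℕ) j := by
          by_contra hcon
          push Not at hcon
          have hle : mon s + Finsupp.single l 1 ≤ mon r' := hcon
          have := Finsupp.degree_mono hle
          rw [degree_add_single] at this
          omega
        exact tan_deg hm hw hn _ l j r' s hs hr'' rfl hj
      · exact tan_low hm hw l r' s (by omega)
  · rw [PsiD_inr]
    exact (tan_inr hm hr hw r').symm

end up

/-- **Upper bound** for the tangent space at `𝔪^r`, `n ≥ 2`. -/
theorem finrank_pow_le {mon : Fin d → (Fin n →₀ ℕ)} (hm : IsEnum r mon)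
    (hr : 1 ≤ r) (hn : 2 ≤ n) :
    finrank k (tangent (lamD k mon) (c00 k mon)) ≤
      n.multichoose r * n.multichoose (r - 1) := by
  have hn' : ∀ j : Fin n, ∃ i : Fin n, i ≠ j := by
    intro j
    have : Nontrivial (Fin n) := Fin.nontrivial_iff_two_le.mpr hn
    exact exists_ne j
  have h1 : tangent (lamD k mon) (c00 k mon) ≤ LinearMap.range (PsiD k r mon) :=
    fun w hw => tan_range hm hr hw hn'
  have h2 := Submodule.finrank_mono h1
  rw [LinearMap.finrank_range_of_inj (PsiD_injective hm hr)] at h2
  simpa [card_Dset] using h2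

end Pool.Agent.Hilb61
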