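import Pool.Agent.Helper61.HilbPow3

/-!
# Independence of the chart, and semicontinuity in the chart of the monomials
-/

open MvPolynomial Module Matrix TopologicalSpace

namespace Pool.Agent.Hilb61

universe u

variable {k : Type u} [Field k] {n d r : ℕ}

/-! ### Independence of the chart -/

lemma coef_sum_C {lam : Fin d → MvPolynomial (Fin n) k} {I : Ideal (MvPolynomial (Fin n) k)}
    {c : Coord n d → k} (h : IsCoord lam I c) (a : Fin d → k)
    (f : Fin d → MvPolynomial (Fin n) k) :
    coef h (∑ s, C (a s) * f s) = ∑ s, a s • coef h (f s) := by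
  classical
  have key : ∀ t : Finset (Fin d), coef h (∑ s ∈ t, C (a s) * f s) =
      ∑ s ∈ t, a s • coef h (f s) := by
    intro t
    induction t using Finset.induction_on with
    | empty =>
      rw [Finset.sum_empty, Finset.sum_empty]
      exact (coef_eq_zero h 0).mpr I.zero_mem
    | insert s t hs ih =>
      rw [Finset.sum_insert hs, Finset.sum_insert hs, coef_add, coef_C_mul, ih]
  exact key Finset.univ

lemma coef_congr {lam : Fin d → MvPolynomial (Fin n) k} {I : Ideal (MvPolynomial (Fin n) k)}
    {c : Coord n d → k} (h : IsCoord lam I c) {f g : MvPolynomial (Fin n) k}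
    (hfg : f - g ∈ I) : coef h f = coef h g := by
  apply coef_unique
  have h1 := I.add_mem hfg (coef_spec h g)
  convert h1 using 1
  ring

lemma sum_smul_eq_mulVec (g : Matrix (Fin d) (Fin d) k) (a : Fin d → k) :
    ∑ s, a s • (fun r => g r s) = g *ᵥ a := by
  funext r
  rw [Finset.sum_apply, mulVec, dotProduct]
  apply Finset.sum_congr rfl
  intro s _
  rw [Pi.smul_apply, smul_eq_mul, mul_comm]

/-- base change of charts -/
lemma exists_chart_change {lam lam' : Fin d → MvPolynomial (Fin n) k}
    {I : Ideal (MvPolynomial (Fin n) k)} {c c' : Coord n d → k} (h : IsCoord lam I c)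
    (h' : IsCoord lam' I c') :
    ∃ g g' : Matrix (Fin d) (Fin d) k, g * g' = 1 ∧ g' * g = 1 ∧ c' = conjL g g' c := by
  let g : Matrix (Fin d) (Fin d) k := Matrix.of fun r s => coef h (lam' s) r
  let g' : Matrix (Fin d) (Fin d) k := Matrix.of fun r s => coef h' (lam s) r
  have e1 : ∀ f, coef h f = g *ᵥ coef h' f := by
    intro f
    rw [coef_congr h (coef_spec h' f), coef_sum_C, ← sum_smul_eq_mulVec]
    rfl
  have e2 : ∀ f, coef h' f = g' *ᵥ coef h f := by
    intro f
    rw [coef_congr h' (coef_spec h f), coef_sum_C, ← sum_smul_eq_mulVec]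
    rfl
  have hgg' : g * g' = 1 := by
    apply Matrix.ext_of_mulVec_single
    intro s
    rw [one_mulVec, ← mulVec_mulVec, ← coef_lam h s, ← e2, ← e1]
  have hg'g : g' * g = 1 := mul_eq_one_comm.mp hgg'
  refine ⟨g, g', hgg', hg'g, ?_⟩
  rw [conjL_apply, ← mk_eta c']
  congr 1
  · funext i
    apply Matrix.ext_of_mulVec_single
    intro s
    rw [← coef_lam h' s, ← coef_X_mul, e2, coef_X_mul, e1, mulVec_mulVec, mulVec_mulVec]
  · rw [← coef_one h', e2, coef_one]

lemma conjL_conjL {g g' : Matrix (Fin d) (Fin d) k} (h : g * g' = 1) (w : Coord n d → k) :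
    conjL g' g (conjL g g' w) = w := by
  rw [conjL_apply, conjL_apply, ← mk_eta w]
  simp only [mats_mk, vect_mk]
  congr 1
  · funext i
    calc g * (g' * mats w i * g) * g' = (g * g') * mats w i * (g * g') := by noncomm_ring
      _ = mats w i := by rw [h, Matrix.one_mul, Matrix.mul_one]
  · rw [mulVec_mulVec, h, one_mulVec]

lemma conjL_orb {g g' : Matrix (Fin d) (Fin d) k} (h' : g' * g = 1)
    (c : Coord n d → k) (Y : Matrix (Fin d) (Fin d) k) :
    orb (conjL g g' c) Y = conjL g g' (orb c (g * Y * g')) := by
  have e1 : mats (orb (conjL g g' c) Y) = fun i => g' * mats (orb c (g * Y * g')) i * g := by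
    funext i
    have e1 : mats (orb (conjL g g' c) Y) i =
        Y * (g' * mats c i * g) - (g' * mats c i * g) * Y := rfl
    have e2 : mats (orb c (g * Y * g')) i =
        (g * Y * g') * mats c i - mats c i * (g * Y * g') := rfl
    rw [e1, e2]
    calc Y * (g' * mats c i * g) - (g' * mats c i * g) * Y
        = (g' * g) * Y * (g' * mats c i * g) - (g' * mats c i * g) * Y * (g' * g) := by
          rw [h', Matrix.one_mul, Matrix.mul_one]
      _ = _ := by noncomm_ring
  have e2 : vect (orb (conjL g g' c) Y) = g' *ᵥ vect (orb c (g * Y * g')) := by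
    have e1 : vect (orb (conjL g g' c) Y) = Y *ᵥ (g' *ᵥ vect c) := rfl
    have e2 : vect (orb c (g * Y * g')) = (g * Y * g') *ᵥ vect c := rfl
    rw [e1, e2, mulVec_mulVec, mulVec_mulVec]
    congr 1
    calc Y * g' = (g' * g) * Y * g' := by rw [h', Matrix.one_mul]
      _ = _ := by noncomm_ring
  rw [← mk_eta (orb (conjL g g' c) Y), e1, e2]
  rfl

lemma finrank_tangent_le_of_charts {lam lam' : Fin d → MvPolynomial (Fin n) k}
    {I : Ideal (MvPolynomial (Fin n) k)} {c c' : Coord n d → k} (h : IsCoord lam I c)
    (h' : IsCoord lam' I c') (hc' : c' ∈ Zset k n d) :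
    finrank k (tangent lam c) ≤ finrank k (tangent lam' c') := by
  obtain ⟨g, g', hgg', hg'g, rfl⟩ := exists_chart_change h h'
  have hinj : Function.Injective (conjL (n := n) g g') :=
    Function.LeftInverse.injective (conjL_conjL hgg')
  have h1 : finrank k ((tangent lam c).map (conjL g g')) = finrank k (tangent lam c) :=
    (Submodule.equivMapOfInjective _ hinj _).finrank_eq.symm
  rw [← h1]
  apply finrank_le_tangent_of_tanR h' hc'
  · rintro _ ⟨w, hw, rfl⟩
    have h2 := (affine_push (conjL (n := n) g g') 0 (fun b hb => by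
      rw [add_zero]; exact Rset_subset_Zset (conjL_Rset hgg' hb))).2 c w
      (tangent_le_tanR lam c hw)
    rwa [add_zero] at h2
  · rw [eq_bot_iff]
    rintro _ ⟨⟨w, hw, rfl⟩, Y, hY⟩
    rw [conjL_orb hg'g] at hY
    have h2 := hinj hY
    have h3 : w ∈ tangent lam c ⊓ LinearMap.range (orb c) := ⟨hw, _, h2⟩
    rw [tangent_inf_orb h, Submodule.mem_bot] at h3
    rw [h3, map_zero]
    exact Submodule.zero_mem _

/-- **The dimension of the tangent space does not depend on the chart.** -/
theorem HasTangentDim_unique {x : Hilb k n d} (hx : x ∈ smoothable k n d) {N N' : ℕ}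
    (h : HasTangentDim x N) (h' : HasTangentDim x N') : N = N' := by
  obtain ⟨lam, c, hc, rfl⟩ := h
  obtain ⟨lam', c', hc', rfl⟩ := h'
  exact le_antisymm (finrank_tangent_le_of_charts hc hc' (Zset_of_smoothable hx hc'))
    (finrank_tangent_le_of_charts hc' hc (Zset_of_smoothable hx hc))

/-! ### Scaling -/

/-- The action of the scalars on the coordinates of the chart of the monomials. -/
noncomputable def Lt (r : ℕ) (mon : Fin d → (Fin n →₀ ℕ)) (t : k) :
    (Coord n d → k) →ₗ[k] (Coord n d → k) where
  toFun w := Sum.elim (fun x => (if (mon x.2.2).degree + 1 = r then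
    t ^ (r - (mon x.2.1).degree) else 1) * w (Sum.inl x)) (fun r' => w (Sum.inr r'))
  map_add' v w := by
    funext x
    rcases x with x | r'
    · simp only [Sum.elim_inl, Pi.add_apply, mul_add]
    · simp
  map_smul' a w := by
    funext x
    rcases x with x | r'
    · simp only [Sum.elim_inl, Pi.smul_apply, smul_eq_mul, RingHom.id_apply]
      ring
    · simp

lemma Lt_inl (mon : Fin d → (Fin n →₀ ℕ)) (t : k) (w : Coord n d → k) (l : Fin n)
    (r' s : Fin d) : Lt r mon t w (Sum.inl (l, r', s)) =
      (if (mon s).degree + 1 = r then t ^ (r - (mon r').degree) else 1) *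
        w (Sum.inl (l, r', s)) := rfl

lemma Lt_inr (mon : Fin d → (Fin n →₀ ℕ)) (t : k) (w : Coord n d → k) (r' : Fin d) :
    Lt r mon t w (Sum.inr r') = w (Sum.inr r') := rfl

lemma Lt_injective (mon : Fin d → (Fin n →₀ ℕ)) {t : k} (ht : t ≠ 0) :
    Function.Injective (Lt (k := k) r mon t) := by
  rw [← LinearMap.ker_eq_bot, LinearMap.ker_eq_bot']
  intro w hw
  funext x
  rcases x with ⟨l, r', s⟩ | r'
  · have h1 := congrFun hw (Sum.inl (l, r', s))
    rw [Lt_inl] at h1
    rcases mul_eq_zero.mp h1 with h2 | h2
    · exfalso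
      split_ifs at h2
      · exact pow_ne_zero _ ht h2
      · exact one_ne_zero h2
    · exact h2
  · have h1 := congrFun hw (Sum.inr r')
    exact h1

section scale

variable {mon : Fin d → (Fin n →₀ ℕ)} (hm : IsEnum r mon)

include hm in
/-- forced coordinates -/
lemma coord_low {I : Ideal (MvPolynomial (Fin n) k)} {c : Coord n d → k}
    (h : IsCoord (lamD k mon) I c) (l : Fin n) (r' s : Fin d) (hs : (mon s).degree + 1 < r) :
    c (Sum.inl (l, r', s)) = if mon r' = mon s + Finsupp.single l 1 then 1 else 0 := by
  obtain ⟨j0, hj0⟩ := hm.ex (mon s + Finsupp.single l 1) (by rw [degree_add_single]; exact hs)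
  have h1 := coef_X_mul h l (lamD k mon s)
  have h2 : X l * lamD k mon s = lamD k mon j0 := by
    rw [lamD, lamD, X, monomial_mul, one_mul, add_comm, hj0]
  rw [h2, coef_lam, coef_lam, mulVec_single_one] at h1
  have h3 := congrFun h1 r'
  rw [Matrix.col_apply, mats_apply] at h3
  rw [← h3, Pi.single_apply]
  by_cases h : r' = j0
  · subst h
    rw [if_pos rfl, if_pos hj0]
  · rw [if_neg h, if_neg]
    intro h4
    exact h (hm.inj (h4.trans hj0.symm))

include hm in
lemma coord_vect (hr : 1 ≤ r) {I : Ideal (MvPolynomial (Fin n) k)} {c : Coord n d → k}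
    (h : IsCoord (lamD k mon) I c) (r' : Fin d) :
    c (Sum.inr r') = if mon r' = 0 then 1 else 0 := by
  obtain ⟨z, hz⟩ := hm.ex 0 (by simp; omega)
  have h1 := coef_lam h z
  rw [lamD_zero hz, coef_one] at h1
  have h2 := congrFun h1 r'
  rw [vect_apply] at h2
  rw [h2, Pi.single_apply]
  by_cases h : r' = z
  · subst h
    rw [if_pos rfl, if_pos hz]
  · rw [if_neg h, if_neg]
    intro h4
    exact h (hm.inj (h4.trans hz.symm))

include hm in
/-- the limit of the scaling -/
lemma Lt_zero (hr : 1 ≤ r) {I : Ideal (MvPolynomial (Fin n) k)} {c : Coord n d → k}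
    (h : IsCoord (lamD k mon) I c) : Lt r mon 0 c = c00 k mon := by
  funext x
  rcases x with ⟨l, r', s⟩ | r'
  · rw [Lt_inl]
    by_cases hs : (mon s).degree + 1 = r
    · have h1 := hm.lt r'
      rw [if_pos hs, zero_pow (by omega), zero_mul]
      have h2 : mon r' ≠ mon s + Finsupp.single l 1 := by
        intro h3
        rw [h3, degree_add_single] at h1
        omega
      simp [c00, h2]
    · have h1 := hm.lt s
      rw [if_neg hs, one_mul, coord_low hm h l r' s (by omega)]
      rfl
  · rw [Lt_inr, coord_vect hm hr h]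
    rfl

include hm in
/-- scaling of reduced schemes -/
lemma scale_points (hr : 1 ≤ r) {p : Fin d → Fin n → k} (hp : Function.Injective p)
    {c : Coord n d → k} (h : IsCoord (lamD k mon) (vanishingIdeal k (Set.range p)) c) {t : k}
    (ht : t ≠ 0) :
    Function.Injective (fun a => t • p a) ∧
      IsCoord (lamD k mon) (vanishingIdeal k (Set.range fun a => t • p a)) (Lt r mon t c) := by
  have hev : ∀ (q : Fin n → k) s, eval q (lamD k mon s) = pw q (mon s) := by
    intro q s
    rw [lamD, eval_monomial, one_mul, Finsupp.prod_fintype _ _ (fun i => pow_zero _)]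
    rfl
  let U : Matrix (Fin d) (Fin d) k := Matrix.of fun a s => pw (p a) (mon s)
  have h1 : ∀ a i s, p a i * U a s = (U * mats c i) a s := by
    intro a i s
    have h1 := h.2.1 i s (p a) ⟨a, rfl⟩
    rw [aeval_self, map_sub, map_mul, eval_X, map_sum, sub_eq_zero, hev] at h1
    refine h1.trans ?_
    rw [Matrix.mul_apply]
    apply Finset.sum_congr rfl
    intro r' _
    rw [map_mul, eval_C, mul_comm, hev]
    rfl
  have hUinj : ∀ x : Fin d → k, U *ᵥ x = 0 → x = 0 := by
    intro x hx
    have hx' : ∀ a, (U *ᵥ x) a = 0 := fun a => congrFun hx a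
    rw [← coef_sum_lam h x]
    apply (coef_eq_zero h _).mpr
    rintro _ ⟨a, rfl⟩
    rw [aeval_self, map_sum]
    refine Eq.trans ?_ (hx' a)
    rw [mulVec, dotProduct]
    apply Finset.sum_congr rfl
    intro s _
    rw [map_mul, eval_C, mul_comm, hev]
    rfl
  let V : Matrix (Fin d) (Fin d) k := Matrix.of fun a s => t ^ (mon s).degree * U a s
  have hV : ∀ a s, V a s = eval (t • p a) (lamD k mon s) := by
    intro a s
    rw [hev, pw_smul]
    rfl
  have hVu : ∃ V', V * V' = 1 := by
    have hinj : Function.Injective V.mulVec := by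
      have : Function.Injective (Matrix.toLin' V) := by
        rw [← LinearMap.ker_eq_bot, LinearMap.ker_eq_bot']
        intro x hx
        have h2 : U *ᵥ (fun s => t ^ (mon s).degree * x s) = 0 := by
          funext a
          have h3 : (V *ᵥ x) a = 0 := congrFun hx a
          refine Eq.trans ?_ h3
          rw [mulVec, mulVec, dotProduct, dotProduct]
          apply Finset.sum_congr rfl
          intro s _
          show U a s * (t ^ (mon s).degree * x s) = t ^ (mon s).degree * U a s * x s
          ring
        have h3 := hUinj _ h2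
        funext s
        have h4 := congrFun h3 s
        rcases mul_eq_zero.mp h4 with h5 | h5
        · exact absurd h5 (pow_ne_zero _ ht)
        · exact h5
      exact this
    rw [Matrix.mulVec_injective_iff_isUnit] at hinj
    obtain ⟨u, hu⟩ := hinj
    exact ⟨(u⁻¹ : (Matrix (Fin d) (Fin d) k)ˣ).1, by rw [← hu]; exact u.mul_inv⟩
  obtain ⟨V', hV'⟩ := hVu
  refine ⟨fun a b hab => hp (smul_right_injective _ ht hab), ?_⟩
  apply isCoord_of_points V V' hV hV'
  · intro a i s
    have h2 : (V * mats (Lt r mon t c) i) a s = ∑ r', t ^ (mon r').degree * U a r' *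
        ((if (mon s).degree + 1 = r then t ^ (r - (mon r').degree) else 1) *
          c (Sum.inl (i, r', s))) := by
      rw [Matrix.mul_apply]
      rfl
    have h3 : (t • p a) i * V a s = t ^ ((mon s).degree + 1) * (p a i * U a s) := by
      show t * p a i * (t ^ (mon s).degree * U a s) = _
      ring
    have h4 : (U * mats c i) a s = ∑ r', U a r' * c (Sum.inl (i, r', s)) := by
      rw [Matrix.mul_apply]
      rfl
    show (t • p a) i * V a s = _
    rw [h2, h3, h1, h4, Finset.mul_sum]
    apply Finset.sum_congr rfl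
    intro r' _
    by_cases hs : (mon s).degree + 1 = r
    · rw [if_pos hs, hs]
      have h5 : t ^ r = t ^ (mon r').degree * t ^ (r - (mon r').degree) := by
        rw [← pow_add]
        congr 1
        have := hm.lt r'
        omega
      rw [h5]
      ring
    · have h5 := hm.lt s
      rw [if_neg hs, coord_low hm h i r' s (by omega)]
      split_ifs with h6
      · rw [h6, degree_add_single]
        ring
      · ring
  · intro a
    have h2 := h.2.2 (p a) ⟨a, rfl⟩
    rw [aeval_self, map_sub, map_one, map_sum, sub_eq_zero] at h2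
    rw [h2, mulVec, dotProduct]
    apply Finset.sum_congr rfl
    intro r' _
    rw [map_mul, eval_C, hev]
    show t ^ (mon r').degree * U a r' * c (Sum.inr r') = c (Sum.inr r') * U a r'
    rw [coord_vect hm hr h r']
    split_ifs with h3
    · rw [h3, map_zero, pow_zero]; ring
    · ring

include hm in
/-- tangent vectors under scaling -/
lemma scale_tangent (hr : 1 ≤ r) {c w : Coord n d → k} (hw : w ∈ tangent (lamD k mon) c) {t : k}
    (ht : t ≠ 0) : Lt r mon t w ∈ tangent (lamD k mon) (Lt r mon t c) := by
  intro f hf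
  have hev : ∀ c : Coord n d → k, (fun x => eval c (affP (Lt r mon t) 0 x)) = Lt r mon t c := by
    intro c; funext x; rw [eval_affP, Pi.zero_apply, add_zero]
  have key : aeval (affP (Lt r mon t) 0) f ∈ eqns (lamD k mon) := by
    intro p hp c' h'
    obtain ⟨hp', h''⟩ := scale_points hm hr hp h' ht
    have h2 : eval c' (aeval (affP (Lt r mon t) 0) f) =
        eval (fun x => eval c' (affP (Lt r mon t) 0 x)) f := by
      have := (MvPolynomial.comp_aeval (φ := aeval (R := k) c') (affP (Lt r mon t) 0))
      have h2 := congrArg (fun φ => φ f) this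
      simp only [AlgHom.comp_apply] at h2
      rw [aeval_self] at h2
      rw [h2, ← aeval_self]
      congr 1
    rw [h2, hev]
    exact hf _ hp' _ h''
  have h1 := hw _ key
  rw [dd_comp, hev] at h1
  have h2 : (fun x => dd c (affP (Lt r mon t) 0 x) w) = Lt r mon t w := by
    funext x; exact dd_affP (Lt r mon t) 0 c w x
  rwa [h2] at h1

end scale

end Pool.Agent.Hilb61
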