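import Pool.Agent.Helper61.HilbPow4

/-!
# The maximum over the chart of the monomials
-/

open MvPolynomial Module Matrix TopologicalSpace

namespace Pool.Agent.Hilb61

universe u

variable {k : Type u} [Field k] {n d r : ℕ}

/-- The differential as a linear form. -/
noncomputable def ddL (c : Coord n d → k) (f : MvPolynomial (Coord n d) k) :
    Module.Dual k (Coord n d → k) where
  toFun w := dd c f w
  map_add' v w := by
    simp only [dd, Pi.add_apply, mul_add, Finset.sum_add_distrib]
  map_smul' t w := by
    simp only [dd, Pi.smul_apply, smul_eq_mul, RingHom.id_apply, Finset.mul_sum]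
    apply Finset.sum_congr rfl
    intro x _
    ring

lemma ddL_apply (c : Coord n d → k) (f : MvPolynomial (Coord n d) k) (w : Coord n d → k) :
    ddL c f w = dd c f w := rfl

lemma exists_forms (lam : Fin d → MvPolynomial (Fin n) k) (c0 : Coord n d → k) :
    ∃ (m : ℕ) (F : Fin m → MvPolynomial (Coord n d) k) (u : Fin m → Coord n d → k),
      (∀ i, F i ∈ eqns lam) ∧ (∀ i j, dd c0 (F i) (u j) = if i = j then 1 else 0) ∧
      m + finrank k (tangent lam c0) = finrank k (Coord n d → k) := by
  classical
  let s : Set (Module.Dual k (Coord n d → k)) := {l | ∃ f ∈ eqns lam, l = ddL c0 f}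
  obtain ⟨f, hf, hspan, -⟩ := Submodule.exists_fun_fin_finrank_span_eq k s
  choose F hF hfF using hf
  have htan : (Submodule.span k s).dualCoannihilator = tangent lam c0 := by
    ext w
    rw [Submodule.mem_dualCoannihilator]
    constructor
    · intro h g hg
      exact h (ddL c0 g) (Submodule.subset_span ⟨g, hg, rfl⟩)
    · intro hw φ hφ
      induction hφ using Submodule.span_induction with
      | mem x hx =>
        obtain ⟨g, hg, rfl⟩ := hx
        exact hw g hg
      | zero => rfl
      | add x y _ _ hx hy => rw [LinearMap.add_apply, hx, hy, add_zero]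
      | smul a x _ hx => rw [LinearMap.smul_apply, hx, smul_zero]
  have hdim := Subspace.finrank_add_finrank_dualCoannihilator_eq (Submodule.span k s)
  rw [htan] at hdim
  let T : (Coord n d → k) →ₗ[k] (Fin (finrank k (Submodule.span k s)) → k) := LinearMap.pi f
  have htan' : (Submodule.span k (Set.range f)).dualCoannihilator = tangent lam c0 := by
    rw [hspan]; exact htan
  have hker : LinearMap.ker T = tangent lam c0 := by
    rw [← htan']
    ext w
    rw [LinearMap.mem_ker, Submodule.mem_dualCoannihilator]
    constructor
    · intro h φ hφ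
      induction hφ using Submodule.span_induction with
      | mem x hx =>
        obtain ⟨i, rfl⟩ := hx
        exact congrFun h i
      | zero => rfl
      | add x y _ _ hx hy => rw [LinearMap.add_apply, hx, hy, add_zero]
      | smul a x _ hx => rw [LinearMap.smul_apply, hx, smul_zero]
    · intro h
      funext i
      exact h (f i) (Submodule.subset_span ⟨i, rfl⟩)
  have hrange : LinearMap.range T = ⊤ := by
    apply Submodule.eq_top_of_finrank_eq
    have h1 := LinearMap.finrank_range_add_finrank_ker T
    rw [hker] at h1
    have h2 : finrank k (Fin (finrank k (Submodule.span k s)) → k) =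
        finrank k (Submodule.span k s) := by simp
    rw [h2]
    omega
  have hsurj := LinearMap.range_eq_top.mp hrange
  choose u hu using fun j => hsurj (Pi.single j 1)
  refine ⟨_, F, u, hF, ?_, hdim⟩
  intro i j
  have h1 := congrFun (hu j) i
  rw [Pi.single_apply] at h1
  rw [← h1]
  show _ = f i (u j)
  rw [hfF i]
  rfl

/-- Semicontinuity along a polynomial curve. -/
lemma tangent_semicont [Infinite k] (lam : Fin d → MvPolynomial (Fin n) k)
    (cv : Coord n d → Polynomial k) :
    ∀ᶠ t : k in Filter.cofinite, finrank k (tangent lam (fun x => (cv x).eval t)) ≤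
      finrank k (tangent lam (fun x => (cv x).eval 0)) := by
  classical
  obtain ⟨m, F, u, hF, hu, hdim⟩ := exists_forms lam (fun x => (cv x).eval 0)
  let D : Matrix (Fin m) (Fin m) (Polynomial k) := Matrix.of fun i j =>
    ∑ x, aeval cv (pderiv x (F i)) * Polynomial.C (u j x)
  have hD : ∀ t : k, D.map (Polynomial.eval t) =
      Matrix.of fun i j => dd (fun x => (cv x).eval t) (F i) (u j) := by
    intro t
    ext i j
    rw [Matrix.map_apply]
    show Polynomial.eval t (∑ x, aeval cv (pderiv x (F i)) * Polynomial.C (u j x)) = _
    rw [Polynomial.eval_finsetSum]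
    simp only [Polynomial.eval_mul, eval_aeval_poly, Polynomial.eval_C]
    rfl
  have hdet : ∀ t : k, D.det.eval t =
      (Matrix.of fun i j => dd (fun x => (cv x).eval t) (F i) (u j)).det := by
    intro t
    rw [← hD t]
    exact RingHom.map_det (Polynomial.evalRingHom t) D
  have h0 : D.det.eval 0 = 1 := by
    rw [hdet 0]
    have : (Matrix.of fun i j => dd (fun x => (cv x).eval 0) (F i) (u j)) =
        (1 : Matrix (Fin m) (Fin m) k) := by
      ext i j
      rw [Matrix.of_apply, hu, Matrix.one_apply]
    rw [this, Matrix.det_one]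
  have hne : D.det ≠ 0 := by
    intro h
    rw [h, Polynomial.eval_zero] at h0
    exact zero_ne_one h0
  rw [Filter.eventually_cofinite]
  apply (Polynomial.finite_setOfPred_isRoot hne).subset
  intro t ht
  rw [Set.mem_ofPred_eq] at ht ⊢
  by_contra hroot
  apply ht
  have hdt : (Matrix.of fun i j => dd (fun x => (cv x).eval t) (F i) (u j)).det ≠ 0 := by
    rw [← hdet t]
    exact hroot
  let c : Coord n d → k := fun x => (cv x).eval t
  let T : (Coord n d → k) →ₗ[k] (Fin m → k) := LinearMap.pi fun i => ddL c (F i)
  have hsurj : Function.Surjective T := by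
    intro y
    have hu1 := (Matrix.isUnit_iff_isUnit_det _).mpr (isUnit_iff_ne_zero.mpr hdt)
    obtain ⟨V, hV⟩ := hu1
    let x : Fin m → k := (V⁻¹ : (Matrix (Fin m) (Fin m) k)ˣ).1 *ᵥ y
    have hx : (Matrix.of fun i j => dd c (F i) (u j)) *ᵥ x = y := by
      show (Matrix.of fun i j => dd (fun x => (cv x).eval t) (F i) (u j)) *ᵥ
        ((V⁻¹ : (Matrix (Fin m) (Fin m) k)ˣ).1 *ᵥ y) = y
      rw [mulVec_mulVec, ← hV, V.mul_inv, one_mulVec]
    refine ⟨∑ j, x j • u j, ?_⟩
    rw [← hx]
    funext i
    show ddL c (F i) (∑ j, x j • u j) = _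
    rw [map_sum, mulVec, dotProduct]
    apply Finset.sum_congr rfl
    intro j _
    rw [map_smul, smul_eq_mul, mul_comm]
    rfl
  have hle : tangent lam c ≤ LinearMap.ker T := by
    intro w hw
    rw [LinearMap.mem_ker]
    funext i
    exact hw (F i) (hF i)
  have h1 := Submodule.finrank_mono hle
  have h2 := LinearMap.finrank_range_add_finrank_ker T
  rw [LinearMap.range_eq_top.mpr hsurj, finrank_top] at h2
  have h3 : finrank k (Fin m → k) = m := by simp
  rw [h3] at h2
  show finrank k (tangent lam c) ≤ _
  omega

/-- **The tangent space at `𝔪^r` is the largest one in its chart.** -/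
theorem finrank_chart_le [Infinite k] {mon : Fin d → (Fin n →₀ ℕ)} (hm : IsEnum r mon)
    (hr : 1 ≤ r) {I : Ideal (MvPolynomial (Fin n) k)} {c : Coord n d → k}
    (h : IsCoord (lamD k mon) I c) :
    finrank k (tangent (lamD k mon) c) ≤ finrank k (tangent (lamD k mon) (c00 k mon)) := by
  let cv : Coord n d → Polynomial k := Sum.elim
    (fun x => (if (mon x.2.2).degree + 1 = r then
      Polynomial.X ^ (r - (mon x.2.1).degree) else 1) * Polynomial.C (c (Sum.inl x)))
    (fun r' => Polynomial.C (c (Sum.inr r')))
  have hcv : ∀ t : k, (fun x => (cv x).eval t) = Lt r mon t c := by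
    intro t
    funext x
    rcases x with ⟨l, r', s⟩ | r'
    · rw [Lt_inl]
      simp only [cv, Sum.elim_inl, Polynomial.eval_mul, Polynomial.eval_C]
      split_ifs <;> simp
    · rw [Lt_inr]
      simp only [cv, Sum.elim_inr, Polynomial.eval_C]
  obtain ⟨t, ht, ht0⟩ := ((tangent_semicont (lamD k mon) cv).and
    (Filter.eventually_cofinite_ne (0 : k))).exists
  rw [hcv, hcv, Lt_zero hm hr h] at ht
  refine le_trans ?_ ht
  have h1 : finrank k ((tangent (lamD k mon) c).map (Lt r mon t)) =
      finrank k (tangent (lamD k mon) c) :=
    (Submodule.equivMapOfInjective _ (Lt_injective mon ht0) _).finrank_eq.symm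
  rw [← h1]
  apply Submodule.finrank_mono
  rintro _ ⟨w, hw, rfl⟩
  exact scale_tangent hm hr hw ht0

/-- Ideals without nonzero elements of degree less than `r` are in the chart. -/
lemma exists_chart_mon {mon : Fin d → (Fin n →₀ ℕ)} (hm : IsEnum r mon) (x : Hilb k n d)
    (hx : ∀ f ∈ x.1, f ≠ 0 → r ≤ f.totalDegree) : ∃ c, IsCoord (lamD k mon) x.1 c := by
  obtain ⟨lam', c', h'⟩ := exists_isCoord x
  let g : Matrix (Fin d) (Fin d) k := Matrix.of fun r' s => coef h' (lamD k mon s) r'
  have hinj : Function.Injective g.mulVec := by
    have : Function.Injective (Matrix.toLin' g) := by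
      rw [← LinearMap.ker_eq_bot, LinearMap.ker_eq_bot']
      intro a ha
      have h1 : coef h' (∑ s, C (a s) * lamD k mon s) = 0 := by
        rw [coef_sum_C]
        refine Eq.trans ?_ ha
        exact sum_smul_eq_mulVec g a
      have h2 := (coef_eq_zero h' _).mp h1
      have h3 : ∑ s, C (a s) * lamD k mon s = 0 := by
        by_contra hne
        have h4 := hx _ h2 hne
        have hr0 : 0 < r := by
          rcases Nat.eq_zero_or_pos r with h0 | h0
          · exfalso
            apply hne
            apply Finset.sum_eq_zero
            intro s _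
            have := hm.lt s
            omega
          · exact h0
        have h5 : (∑ s, C (a s) * lamD k mon s).totalDegree < r := by
          show ((∑ s, C (a s) * lamD k mon s).support.sup fun s => s.sum fun _ e => e) < r
          rw [Finset.sup_lt_iff (by simpa using hr0)]
          intro b hb
          rw [MvPolynomial.mem_support_iff, coeff_sum_lamD] at hb
          obtain ⟨s, -, hs⟩ := Finset.exists_ne_zero_of_sum_ne_zero hb
          have hsb : mon s = b := by
            by_contra hcon
            rw [if_neg hcon] at hs
            exact hs rfl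
          rw [← hsb]
          exact hm.lt s
        omega
      funext s
      have h4 := congrArg (coeff (mon s)) h3
      rw [coeff_sum_lamD, coeff_zero, Finset.sum_eq_single s] at h4
      · simpa using h4
      · intro b _ hb
        rw [if_neg]
        intro h
        exact hb (hm.inj h)
      · intro h; exact absurd (Finset.mem_univ s) h
    exact this
  rw [Matrix.mulVec_injective_iff_isUnit] at hinj
  obtain ⟨V, hV⟩ := hinj
  have hgg' : g * (V⁻¹ : (Matrix (Fin d) (Fin d) k)ˣ).1 = 1 := by
    rw [← hV]; exact V.mul_inv
  have h1 := isCoord_Jc h'.mem_Cset hgg' (lam := lamD k mon) (by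
    intro s
    rw [← coef_eq_ev h', mulVec_single_one]
    rfl)
  rw [← h'.eq_Jc] at h1
  exact ⟨_, h1⟩

end Pool.Agent.Hilb61
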