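import Pool.Agent.Helper61.HilbFam
import Pool.Agent.Helper61.HilbNum

/-!
# Powers of the maximal ideal lie on other components
-/

open MvPolynomial Module Matrix TopologicalSpace Finset

namespace Pool.Agent.Hilb61

universe u

variable {k : Type u} [Field k] {n d r : ℕ}

lemma IsEnum.isOrd {mon : Fin d → (Fin n →₀ ℕ)} (hm : IsEnum r mon) : IsOrd mon := by
  refine ⟨hm.inj, fun s i B hB => ?_⟩
  apply hm.ex
  have h1 := hm.lt s
  rw [← hB, map_add, Finsupp.degree_single] at h1
  omega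

/-- Families through `𝔪^r`. -/
theorem pow_other [Infinite k] {mon : Fin d → (Fin n →₀ ℕ)} (hm : IsEnum r mon) (hr : 1 ≤ r)
    (hd : 1 ≤ d) (F : (Fin n →₀ ℕ) → Prop) [DecidablePred F]
    (hF : ∀ B (l : Fin n), F B → F (B + Finsupp.single l 1))
    (hcard : n * d < ((Dset n r).filter (fun u => ¬ F u)).card *
      ((Dset n (r - 1)).filter F).card) :
    ∃ Z ∈ irreducibleComponents (Hilb k n d), xpow (k := k) hm hr ∈ Z ∧
      ¬ Z ⊆ smoothable k n d := by
  classical
  have hord := hm.isOrd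
  have hA : Adm mon (univ.filter (fun s => mon s ∈ (Dset n (r - 1)).filter F))
      ((Dset n r).filter (fun u => ¬ F u)) := by
    refine ⟨?_, ?_, ?_, ?_⟩
    · intro a ha l s hs
      rw [mem_filter, mem_filter, mem_Dset] at ha
      have h1 := hm.lt s
      rw [hs, map_add, Finsupp.degree_single] at h1
      omega
    · intro g hg s hs
      rw [mem_filter, mem_Dset] at hg
      have h1 := hm.lt s
      rw [hs] at h1
      omega
    · intro g hg i B hB
      rw [mem_filter, mem_Dset] at hg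
      apply hm.ex
      have h1 := hg.1
      rw [← hB, map_add, Finsupp.degree_single] at h1
      omega
    · intro a ha l hl
      rw [mem_filter, mem_filter] at ha
      rw [mem_filter] at hl
      exact hl.2 (hF _ l ha.2.2)
  have hK : (univ.filter (fun s => mon s ∈ (Dset n (r - 1)).filter F)).card =
      ((Dset n (r - 1)).filter F).card := by
    rw [← card_image_of_injective _ hm.inj]
    congr 1
    ext B
    rw [mem_image]
    constructor
    · rintro ⟨s, hs, rfl⟩
      rw [mem_filter] at hs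
      exact hs.2
    · intro hB
      have hB' := hB
      rw [mem_filter, mem_Dset] at hB'
      obtain ⟨s, hs⟩ := hm.ex B (by omega)
      refine ⟨s, ?_, hs⟩
      rw [mem_filter, hs]
      exact ⟨mem_univ _, hB⟩
  exact exists_component_of_adm hord hd hA (by rw [hK]; exact hcard) (isCoord_pow (k := k) hm hr)

/-- Cards for the filter `j ≤ u i0`. -/
lemma card_filter_ge (i0 : Fin n) {j m : ℕ} (hj : j ≤ m) :
    n.multichoose (m - j) ≤ ((Dset n m).filter (fun u => j ≤ u i0)).card := by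
  rw [← card_Dset]
  apply card_le_card_of_injOn (fun u => u + Finsupp.single i0 j)
  · intro u hu
    have hu' : u ∈ Dset n (m - j) := hu
    rw [mem_Dset] at hu'
    have h1 : u + Finsupp.single i0 j ∈ (Dset n m).filter (fun u => j ≤ u i0) := by
      rw [mem_filter, mem_Dset, map_add, Finsupp.degree_single, hu', Finsupp.add_apply,
        Finsupp.single_eq_same]
      omega
    exact h1
  · intro u _ u' _ h
    exact add_right_cancel h

lemma card_filter_le (i0 : Fin n) {j m : ℕ} :
    ((Dset n m).filter (fun u => j ≤ u i0)).card ≤ n.multichoose (m - j) := by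
  rw [← card_Dset]
  apply card_le_card_of_injOn (fun u => u - Finsupp.single i0 j)
  · intro u hu
    have hu' : u ∈ (Dset n m).filter (fun u => j ≤ u i0) := hu
    rw [mem_filter, mem_Dset] at hu'
    have h1 := sub_add_single' (s := u) (i := i0) (m := j) hu'.2
    have h2 := congrArg Finsupp.degree h1
    rw [map_add, Finsupp.degree_single, hu'.1] at h2
    have h3 : u - Finsupp.single i0 j ∈ Dset n (m - j) := by
      rw [mem_Dset]
      omega
    exact h3
  · intro u hu u' hu' h
    have hu1 : u ∈ (Dset n m).filter (fun u => j ≤ u i0) := hu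
    have hu2 : u' ∈ (Dset n m).filter (fun u => j ≤ u i0) := hu'
    rw [mem_filter] at hu1 hu2
    have h' : u - Finsupp.single i0 j = u' - Finsupp.single i0 j := h
    rw [← sub_add_single' (s := u) (i := i0) (m := j) hu1.2, h',
      sub_add_single' (s := u') (i := i0) (m := j) hu2.2]

lemma card_filter_not (i0 : Fin n) {j m : ℕ} :
    n.multichoose m - n.multichoose (m - j) ≤
      ((Dset n m).filter (fun u => ¬ j ≤ u i0)).card := by
  have h1 := card_filter_add_card_filter_not (s := Dset n m) (fun u => j ≤ u i0)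
  rw [card_Dset] at h1
  have h2 := card_filter_le (n := n) i0 (j := j) (m := m)
  omega

/-- Families through `𝔪^r` given by a power of a variable. -/
theorem pow_other_var [Infinite k] {mon : Fin d → (Fin n →₀ ℕ)} (hm : IsEnum r mon) (hr : 1 ≤ r)
    (hd : 1 ≤ d) (i0 : Fin n) {j : ℕ} (hj : j ≤ r - 1)
    (hcard : n * d < (n.multichoose r - n.multichoose (r - j)) * n.multichoose (r - 1 - j)) :
    ∃ Z ∈ irreducibleComponents (Hilb k n d), xpow (k := k) hm hr ∈ Z ∧
      ¬ Z ⊆ smoothable k n d := by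
  apply pow_other hm hr hd (fun u => j ≤ u i0)
  · intro B l h
    rw [Finsupp.add_apply]
    omega
  · exact lt_of_lt_of_le hcard (Nat.mul_le_mul (card_filter_not i0) (card_filter_ge i0 hj))

/-! ### Numerical conditions -/

lemma le_choose_self : ∀ k M : ℕ, 1 ≤ k → k + 1 ≤ M → M ≤ M.choose k := by
  intro k
  induction k with
  | zero => intro M h; omega
  | succ k ih =>
    intro M _ hM
    rcases Nat.eq_zero_or_pos k with h0 | h0
    · subst h0
      simp
    · obtain ⟨M', rfl⟩ : ∃ M', M = M' + 1 := ⟨M - 1, by omega⟩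
      rw [Nat.choose_succ_succ]
      have h1 := ih M' h0 (by omega)
      have h2 : 0 < M'.choose (k + 1) := Nat.choose_pos (by omega)
      have h3 : M'.choose k.succ = M'.choose (k + 1) := rfl
      omega

lemma num_key {n : ℕ} : ∀ r, ((4 ≤ n ∧ 4 ≤ r) ∨ (6 ≤ n ∧ 3 ≤ r)) →
    r * (n + r - 1) < (n - 1) * (n + r - 3).choose (r - 2) := by
  intro r
  induction r with
  | zero => intro h; omega
  | succ r ih =>
    intro h
    by_cases h1 : (4 ≤ n ∧ 4 ≤ r) ∨ (6 ≤ n ∧ 3 ≤ r)
    · have h2 := ih h1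
      have hr3 : 3 ≤ r := by omega
      have hn4 : 4 ≤ n := by omega
      obtain ⟨N, rfl⟩ : ∃ N, n = N + 4 := ⟨n - 4, by omega⟩
      obtain ⟨s, rfl⟩ : ∃ s, r = s + 3 := ⟨r - 3, by omega⟩
      rw [show N + 4 + (s + 3 + 1) - 1 = N + s + 7 by omega,
        show N + 4 + (s + 3 + 1) - 3 = (N + s + 4) + 1 by omega,
        show s + 3 + 1 - 2 = (s + 1) + 1 by omega, show N + 4 - 1 = N + 3 by omega]
      have e : (N + s + 4 + 1).choose (s + 1 + 1) =
        (N + s + 4).choose (s + 1) + (N + s + 4).choose (s + 2) := Nat.choose_succ_succ _ _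
      rw [e]
      rw [show N + 4 + (s + 3) - 1 = N + s + 6 by omega,
        show N + 4 + (s + 3) - 3 = N + s + 4 by omega, show s + 3 - 2 = s + 1 by omega,
        show N + 4 - 1 = N + 3 by omega] at h2
      have h3 := le_choose_self (s + 2) (N + s + 4) (by omega) (by omega)
      have h4 : (N + 3) * (N + s + 4) ≤ (N + 3) * (N + s + 4).choose (s + 2) :=
        Nat.mul_le_mul_left _ h3
      nlinarith
    · rcases h with ⟨h2, h3⟩ | ⟨h2, h3⟩
      · have hr : r = 3 := by omega
        subst hr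
        have hn : n = 4 ∨ n = 5 := by omega
        rcases hn with rfl | rfl <;> decide
      · have hr : r = 2 := by omega
        subst hr
        rw [show n + (2 + 1) - 3 = n by omega, show 2 + 1 - 2 = 1 by omega, Nat.choose_one_right]
        obtain ⟨N, rfl⟩ : ∃ N, n = N + 6 := ⟨n - 6, by omega⟩
        rw [show N + 6 + (2 + 1) - 1 = N + 8 by omega, show N + 6 - 1 = N + 5 by omega]
        nlinarith

lemma num_four {n r : ℕ} (h : (4 ≤ n ∧ 4 ≤ r) ∨ (6 ≤ n ∧ 3 ≤ r)) :
    n * Dn n r < (n.multichoose r - n.multichoose (r - 1)) * n.multichoose (r - 1 - 1) := by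
  have hk := num_key r h
  obtain ⟨N, rfl⟩ : ∃ N, n = N + 4 := ⟨n - 4, by omega⟩
  obtain ⟨s, rfl⟩ : ∃ s, r = s + 3 := ⟨r - 3, by omega⟩
  have e1 : (N + 4).multichoose (s + 3) - (N + 4).multichoose (s + 3 - 1) =
      (N + s + 5).choose (s + 3) := by
    have h1 := Nat.multichoose_succ_succ (N + 3) (s + 2)
    rw [show N + 3 + 1 = N + 4 by omega, show s + 2 + 1 = s + 3 by omega] at h1
    rw [show s + 3 - 1 = s + 2 by omega, h1, Nat.add_sub_cancel, Nat.multichoose_eq]
    congr 1
    omega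
  have e2 : (N + 4).multichoose (s + 3 - 1 - 1) = (N + s + 4).choose (s + 1) := by
    rw [Nat.multichoose_eq]
    congr 1
    omega
  have e3 : (N + 4) * Dn (N + 4) (s + 3) = (N + s + 6) * (N + s + 5).choose (s + 2) := by
    have h1 := Nat.add_one_mul_choose_eq (N + s + 5) (N + 3)
    rw [Dn, show N + 4 - 1 + (s + 3) = N + s + 5 + 1 by omega, mul_comm, ← h1]
    congr 1
    rw [← Nat.choose_symm_of_eq_add (show N + s + 5 = (N + 3) + (s + 2) by omega)]
  have e4 : (N + s + 5).choose (s + 3) * (s + 3) = (N + s + 5).choose (s + 2) * (N + 3) := by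
    have h1 := Nat.choose_succ_right_eq (N + s + 5) (s + 2)
    rw [show N + s + 5 - (s + 2) = N + 3 by omega] at h1
    exact h1
  rw [e1, e2, e3]
  rw [show N + 4 + (s + 3) - 1 = N + s + 6 by omega,
    show N + 4 + (s + 3) - 3 = N + s + 4 by omega, show s + 3 - 2 = s + 1 by omega,
    show N + 4 - 1 = N + 3 by omega] at hk
  have hc : 0 < (N + s + 5).choose (s + 2) := Nat.choose_pos (by omega)
  refine Nat.lt_of_mul_lt_mul_left (a := s + 3) ?_
  calc (s + 3) * ((N + s + 6) * (N + s + 5).choose (s + 2))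
      = ((s + 3) * (N + s + 6)) * (N + s + 5).choose (s + 2) := by ring
    _ < ((N + 3) * (N + s + 4).choose (s + 1)) * (N + s + 5).choose (s + 2) :=
      Nat.mul_lt_mul_of_pos_right hk hc
    _ = ((N + s + 5).choose (s + 2) * (N + 3)) * (N + s + 4).choose (s + 1) := by ring
    _ = (s + 3) * ((N + s + 5).choose (s + 3) * (N + s + 4).choose (s + 1)) := by
      rw [← e4]; ring

lemma num_three {r : ℕ} (hr : 9 ≤ r) :
    3 * Dn 3 r < (Nat.multichoose 3 r - Nat.multichoose 3 (r - 3)) *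
      Nat.multichoose 3 (r - 1 - 3) := by
  obtain ⟨s, rfl⟩ : ∃ s, r = s + 9 := ⟨r - 9, by omega⟩
  have hm : ∀ a, 2 * Nat.multichoose 3 a = (a + 2) * (a + 1) := by
    intro a
    rw [Nat.multichoose_eq, show 3 + a - 1 = a + 1 + 1 by omega,
      ← Nat.choose_symm_of_eq_add (show a + 1 + 1 = 2 + a by omega)]
    have h1 := Nat.add_one_mul_choose_eq (a + 1) 1
    rw [Nat.choose_one_right] at h1
    rw [mul_comm 2, ← h1]
  have hD : 6 * Dn 3 (s + 9) = (s + 11) * (s + 10) * (s + 9) := by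
    rw [Dn, show 3 - 1 + (s + 9) = s + 10 + 1 by omega]
    have h1 := Nat.add_one_mul_choose_eq (s + 10) 2
    have h2 := Nat.add_one_mul_choose_eq (s + 9) 1
    rw [Nat.choose_one_right] at h2
    calc 6 * (s + 10 + 1).choose 3 = 2 * ((s + 10 + 1).choose (2 + 1) * (2 + 1)) := by ring
      _ = 2 * ((s + 10 + 1) * (s + 10).choose 2) := by rw [h1]
      _ = (s + 10 + 1) * ((s + 9 + 1).choose (1 + 1) * (1 + 1)) := by ring
      _ = _ := by rw [← h2]; ring
  have h1 := hm (s + 9)
  have h2 := hm (s + 6)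
  have h3 := hm (s + 5)
  rw [show s + 9 - 3 = s + 6 by omega, show s + 9 - 1 - 3 = s + 5 by omega]
  have h4 : Nat.multichoose 3 (s + 9) - Nat.multichoose 3 (s + 6) = 3 * s + 27 := by
    have : 2 * Nat.multichoose 3 (s + 9) = 2 * Nat.multichoose 3 (s + 6) + 2 * (3 * s + 27) := by
      rw [h1, h2]; ring
    omega
  rw [h4]
  refine Nat.lt_of_mul_lt_mul_left (a := 2) ?_
  calc 2 * (3 * Dn 3 (s + 9)) = 6 * Dn 3 (s + 9) := by ring
    _ = (s + 11) * (s + 10) * (s + 9) := hD
    _ < (3 * s + 27) * ((s + 5 + 2) * (s + 5 + 1)) := by nlinarith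
    _ = 2 * ((3 * s + 27) * Nat.multichoose 3 (s + 5)) := by rw [← h3]; ring

/-- The case `n = 3`, `r = 8`. -/
lemma num_eight :
    3 * 120 < ((Dset 3 8).filter (fun u => ¬ (3 ≤ u 0 ∨ (2 ≤ u 0 ∧ 2 ≤ u 1)))).card *
      ((Dset 3 7).filter (fun u => 3 ≤ u 0 ∨ (2 ≤ u 0 ∧ 2 ≤ u 1))).card := by
  classical
  have key : ∀ (m : ℕ) (P : ℕ → ℕ → Prop) [DecidableRel P],
      (((Finset.range 9 ×ˢ Finset.range 9).filter
        (fun p : ℕ × ℕ => p.1 + p.2 ≤ m ∧ P p.1 p.2)).card) ≤
        ((Dset 3 m).filter (fun u => P (u 0) (u 1))).card := by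
    intro m P _
    apply card_le_card_of_injOn (fun p : ℕ × ℕ =>
      (Finsupp.single 0 p.1 + Finsupp.single 1 p.2 + Finsupp.single 2 (m - p.1 - p.2) :
        Fin 3 →₀ ℕ))
    · intro p hp
      have hp' : p ∈ (Finset.range 9 ×ˢ Finset.range 9).filter
        (fun p : ℕ × ℕ => p.1 + p.2 ≤ m ∧ P p.1 p.2) := hp
      rw [mem_filter] at hp'
      have h1 : (Finsupp.single 0 p.1 + Finsupp.single 1 p.2 + Finsupp.single 2 (m - p.1 - p.2) :
        Fin 3 →₀ ℕ) ∈ (Dset 3 m).filter (fun u => P (u 0) (u 1)) := by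
        rw [mem_filter, mem_Dset]
        constructor
        · rw [map_add, map_add, Finsupp.degree_single, Finsupp.degree_single,
            Finsupp.degree_single]
          omega
        · simpa using hp'.2.2
      exact h1
    · intro p _ q _ hpq
      have h0 := DFunLike.congr_fun hpq 0
      have h1 := DFunLike.congr_fun hpq 1
      simp at h0 h1
      exact Prod.ext h0 h1
  have h1 := key 8 (fun a b => ¬ (3 ≤ a ∨ (2 ≤ a ∧ 2 ≤ b)))
  have h2 := key 7 (fun a b => 3 ≤ a ∨ (2 ≤ a ∧ 2 ≤ b))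
  have e1 : (((Finset.range 9 ×ˢ Finset.range 9).filter
        (fun p : ℕ × ℕ => p.1 + p.2 ≤ 8 ∧ ¬ (3 ≤ p.1 ∨ (2 ≤ p.1 ∧ 2 ≤ p.2)))).card) = 19 := by
    decide
  have e2 : (((Finset.range 9 ×ˢ Finset.range 9).filter
        (fun p : ℕ × ℕ => p.1 + p.2 ≤ 7 ∧ (3 ≤ p.1 ∨ (2 ≤ p.1 ∧ 2 ≤ p.2)))).card) = 19 := by
    decide
  rw [e1] at h1
  rw [e2] at h2
  calc 3 * 120 < 19 * 19 := by norm_num
    _ ≤ _ := Nat.mul_le_mul h1 h2

/-- **Powers of the maximal ideal on other components.** -/
theorem pow_other_component (k : Type u) [Field k] [Infinite k]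
    (h : (n = 3 ∧ 8 ≤ r) ∨ (4 ≤ n ∧ 4 ≤ r) ∨ (6 ≤ n ∧ 3 ≤ r))
    {mon : Fin d → (Fin n →₀ ℕ)} (hm : IsEnum r mon) (hr : 1 ≤ r) (hd : d = Dn n r) :
    ∃ Z ∈ irreducibleComponents (Hilb k n d), xpow (k := k) hm hr ∈ Z ∧
      ¬ Z ⊆ smoothable k n d := by
  classical
  have hd1 : 1 ≤ d := by
    have := le_Dn (show 1 ≤ n by omega) r
    omega
  rcases h with ⟨hn, h8⟩ | h4
  · subst hn
    rcases Nat.eq_or_lt_of_le h8 with h9 | h9
    · subst h9
      apply pow_other hm hr hd1 (fun u : Fin 3 →₀ ℕ => 3 ≤ u 0 ∨ (2 ≤ u 0 ∧ 2 ≤ u 1))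
      · intro B l hB
        rw [Finsupp.add_apply, Finsupp.add_apply]
        omega
      · have h10 : d = 120 := by
          rw [hd, Dn]
          decide
        rw [h10]
        exact num_eight
    · apply pow_other_var hm hr hd1 (0 : Fin 3) (j := 3) (by omega)
      rw [hd]
      exact num_three (by omega)
  · have i0 : Fin n := ⟨0, by omega⟩
    apply pow_other_var hm hr hd1 i0 (j := 1) (by omega)
    rw [hd]
    exact num_four h4

end Pool.Agent.Hilb61
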