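import Pool.Agent.Helper61.HilbLow2

open MvPolynomial Module Matrix

namespace Pool.Agent.Hilb61

variable {k : Type*} [Field k] {n d m : ℕ}

/-! ### Evaluation at a commuting tuple of matrices -/

section ev

variable {ι κ : Type*} [Fintype κ] [DecidableEq κ]

/-- Evaluation of polynomials at a commuting tuple of matrices. -/
noncomputable def evHom (A : ι → Matrix κ κ k) (hA : ∀ i j, A i * A j = A j * A i) :
    MvPolynomial ι k →ₐ[k] Matrix κ κ k :=
  letI : CommRing (Alg A) := Algebra.adjoinCommRingOfComm k (by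
    rintro _ ⟨i, rfl⟩ _ ⟨j, rfl⟩
    exact hA i j)
  (Alg A).val.comp (MvPolynomial.aeval (fun i => (⟨A i, self_mem_Alg A i⟩ : Alg A)))

@[simp] lemma evHom_X (A : ι → Matrix κ κ k) (hA : ∀ i j, A i * A j = A j * A i) (i : ι) :
    evHom A hA (X i) = A i := by
  simp [evHom]

lemma evHom_C (A : ι → Matrix κ κ k) (hA : ∀ i j, A i * A j = A j * A i) (a : k) :
    evHom A hA (C a) = a • 1 := by
  rw [algHom_C, Algebra.algebraMap_eq_smul_one]

/-- The ideal of a framed commuting tuple. -/
noncomputable def Jid (A : ι → Matrix κ κ k) (hA : ∀ i j, A i * A j = A j * A i) (v : κ → k) :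
    Ideal (MvPolynomial ι k) where
  carrier := {f | evHom A hA f *ᵥ v = 0}
  add_mem' := by
    intro f g hf hg
    have h1 : evHom A hA f *ᵥ v = 0 := hf
    have h2 : evHom A hA g *ᵥ v = 0 := hg
    show evHom A hA (f + g) *ᵥ v = 0
    rw [map_add, add_mulVec, h1, h2, add_zero]
  zero_mem' := by
    show evHom A hA 0 *ᵥ v = 0
    rw [map_zero, zero_mulVec]
  smul_mem' := by
    intro f g hg
    have h2 : evHom A hA g *ᵥ v = 0 := hg
    show evHom A hA (f * g) *ᵥ v = 0
    rw [map_mul, ← mulVec_mulVec, h2, mulVec_zero]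

lemma mem_Jid {A : ι → Matrix κ κ k} {hA : ∀ i j, A i * A j = A j * A i} {v : κ → k}
    {f : MvPolynomial ι k} : f ∈ Jid A hA v ↔ evHom A hA f *ᵥ v = 0 := Iff.rfl

lemma evHom_mem (A : ι → Matrix κ κ k) (hA : ∀ i j, A i * A j = A j * A i)
    (f : MvPolynomial ι k) : evHom A hA f ∈ Alg A := by
  simp [evHom]

lemma exists_evHom_of_mem {A : ι → Matrix κ κ k} (hA : ∀ i j, A i * A j = A j * A i)
    {r : Matrix κ κ k} (hr : r ∈ Alg A) : ∃ f, evHom A hA f = r := by
  induction hr using Algebra.adjoin_induction with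
  | mem x hx =>
    obtain ⟨i, rfl⟩ := hx
    exact ⟨X i, evHom_X A hA i⟩
  | algebraMap c => exact ⟨C c, by rw [algHom_C]⟩
  | add x y _ _ ihx ihy =>
    obtain ⟨f, rfl⟩ := ihx
    obtain ⟨g, rfl⟩ := ihy
    exact ⟨f + g, map_add _ _ _⟩
  | mul x y _ _ ihx ihy =>
    obtain ⟨f, rfl⟩ := ihx
    obtain ⟨g, rfl⟩ := ihy
    exact ⟨f * g, map_mul _ _ _⟩

end ev

/-- The commuting framed tuples, as coordinates. -/
def Cset (k : Type*) [Field k] (n d : ℕ) : Set (Coord n d → k) :=
  {c | (∀ i j, mats c i * mats c j = mats c j * mats c i) ∧ Cyclic (mats c) (vect c)}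

lemma IsCoord.mem_Cset {lam : Fin d → MvPolynomial (Fin n) k}
    {I : Ideal (MvPolynomial (Fin n) k)} {c : Coord n d → k} (h : IsCoord lam I c) :
    c ∈ Cset k n d := ⟨coords_comm h, coords_cyclic h⟩

/-- the ideal of a framed tuple given by coordinates -/
noncomputable def Jc (c : Coord n d → k) (hc : c ∈ Cset k n d) : Ideal (MvPolynomial (Fin n) k) :=
  Jid (mats c) hc.1 (vect c)

/-- Coordinates from matrices and vector. -/
def mk (A : Fin n → Matrix (Fin d) (Fin d) k) (v : Fin d → k) : Coord n d → k :=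
  Sum.elim (fun x => A x.1 x.2.1 x.2.2) v

omit [Field k] in
@[simp] lemma mats_mk (A : Fin n → Matrix (Fin d) (Fin d) k) (v : Fin d → k) :
    mats (mk A v) = A := rfl

omit [Field k] in
@[simp] lemma vect_mk (A : Fin n → Matrix (Fin d) (Fin d) k) (v : Fin d → k) :
    vect (mk A v) = v := rfl

omit [Field k] in
lemma mk_eta (c : Coord n d → k) : mk (mats c) (vect c) = c := by
  funext x
  rcases x with ⟨i, r, s⟩ | r <;> rfl

lemma isCoord_Jc {c : Coord n d → k} (hc : c ∈ Cset k n d)
    {lam : Fin d → MvPolynomial (Fin n) k} {g g' : Matrix (Fin d) (Fin d) k} (hgg' : g * g' = 1)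
    (hg : ∀ s, evHom (mats c) hc.1 (lam s) *ᵥ vect c = g *ᵥ Pi.single s 1) :
    IsCoord lam (Jc c hc) (mk (fun i => g' * mats c i * g) (g' *ᵥ vect c)) := by
  have hg'g : g' * g = 1 := mul_eq_one_comm.mp hgg'
  have hE : ∀ (f : MvPolynomial (Fin n) k) (a : Fin d → k),
      evHom (mats c) hc.1 (f - ∑ s, C (a s) * lam s) *ᵥ vect c =
        evHom (mats c) hc.1 f *ᵥ vect c - g *ᵥ a := by
    intro f a
    rw [map_sub, sub_mulVec]
    congr 1
    rw [map_sum, Matrix.sum_mulVec]
    conv_rhs => rw [pi_eq_sum_univ' a, mulVec_sum]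
    apply Finset.sum_congr rfl
    intro s _
    rw [map_mul, evHom_C, smul_mul_assoc, one_mul, smul_mulVec, hg, mulVec_smul]
  refine ⟨?_, ?_, ?_⟩
  · intro f
    refine ⟨g' *ᵥ (evHom (mats c) hc.1 f *ᵥ vect c), ?_, ?_⟩
    · show evHom (mats c) hc.1 _ *ᵥ vect c = 0
      rw [hE, mulVec_mulVec _ g g', hgg', one_mulVec, sub_self]
    · intro a ha
      have ha' : evHom (mats c) hc.1 (f - ∑ s, C (a s) * lam s) *ᵥ vect c = 0 := ha
      rw [hE, sub_eq_zero] at ha'
      rw [ha', mulVec_mulVec, hg'g, one_mulVec]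
  · intro i s
    show evHom (mats c) hc.1 _ *ᵥ vect c = 0
    have h1 := hE (X i * lam s) (fun r => (g' * mats c i * g) r s)
    refine h1.trans ?_
    have h2 : (fun r => (g' * mats c i * g) r s) = (g' * mats c i * g) *ᵥ Pi.single s 1 := by
      rw [mulVec_single_one]; rfl
    rw [h2, map_mul, evHom_X, ← mulVec_mulVec, hg, mulVec_mulVec, mulVec_mulVec,
      ← Matrix.mul_assoc, ← Matrix.mul_assoc, hgg', Matrix.one_mul, sub_self]
  · show evHom (mats c) hc.1 _ *ᵥ vect c = 0
    have h1 := hE 1 (g' *ᵥ vect c)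
    refine h1.trans ?_
    rw [map_one, one_mulVec, mulVec_mulVec, hgg', one_mulVec, sub_self]

lemma coef_eq_ev {lam : Fin d → MvPolynomial (Fin n) k}
    {I : Ideal (MvPolynomial (Fin n) k)} {c : Coord n d → k} (h : IsCoord lam I c)
    (f : MvPolynomial (Fin n) k) :
    coef h f = evHom (mats c) h.mem_Cset.1 f *ᵥ vect c := by
  induction f using MvPolynomial.induction_on with
  | C a => rw [← mul_one (C a), coef_C_mul, coef_one, map_mul, evHom_C, map_one, mul_one,
      smul_mulVec, one_mulVec]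
  | add p q hp hq => rw [coef_add, map_add, add_mulVec, hp, hq]
  | mul_X p i hp => rw [mul_comm, coef_X_mul, map_mul, evHom_X, ← mulVec_mulVec, hp]

lemma IsCoord.eq_Jc {lam : Fin d → MvPolynomial (Fin n) k}
    {I : Ideal (MvPolynomial (Fin n) k)} {c : Coord n d → k} (h : IsCoord lam I c) :
    I = Jc c h.mem_Cset := by
  ext f
  rw [← coef_eq_zero h f, coef_eq_ev h f]
  rfl

lemma mkq_C_mul (I : Ideal (MvPolynomial (Fin n) k)) (a : k) (f : MvPolynomial (Fin n) k) :
    Ideal.Quotient.mk I (C a * f) = a • Ideal.Quotient.mk I f := by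
  rw [MvPolynomial.C_mul']
  exact map_smul (Ideal.Quotient.mkₐ k I) a f

/-- An ideal with chart coordinates is a point of the Hilbert scheme. -/
lemma IsCoord.mem_Hilb {lam : Fin d → MvPolynomial (Fin n) k}
    {I : Ideal (MvPolynomial (Fin n) k)} {c : Coord n d → k} (h : IsCoord lam I c) :
    Module.Finite k (MvPolynomial (Fin n) k ⧸ I) ∧
      Module.finrank k (MvPolynomial (Fin n) k ⧸ I) = d := by
  let φ : (Fin d → k) →ₗ[k] MvPolynomial (Fin n) k ⧸ I :=
    { toFun := fun a => Ideal.Quotient.mk I (∑ s, C (a s) * lam s)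
      map_add' := by
        intro a b
        rw [← map_add]
        congr 1
        simp [add_mul, Finset.sum_add_distrib]
      map_smul' := by
        intro t a
        rw [RingHom.id_apply, ← mkq_C_mul]
        congr 1
        simp [Finset.mul_sum, mul_assoc] }
  have hφ : Function.Bijective φ := by
    constructor
    · intro a b hab
      have h1 : Ideal.Quotient.mk I (∑ s, C (a s) * lam s) =
        Ideal.Quotient.mk I (∑ s, C (b s) * lam s) := hab
      rw [Ideal.Quotient.eq] at h1
      exact (coef_sum_lam h a).symm.trans (coef_unique h h1)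
    · intro y
      obtain ⟨f, rfl⟩ := Ideal.Quotient.mk_surjective y
      refine ⟨coef h f, ?_⟩
      show Ideal.Quotient.mk I _ = Ideal.Quotient.mk I f
      symm
      rw [Ideal.Quotient.eq]
      exact coef_spec h f
  let e := LinearEquiv.ofBijective φ hφ
  exact ⟨Module.Finite.equiv e, by rw [← e.finrank_eq]; simp⟩

/-- Every point of the Hilbert scheme has chart coordinates. -/
lemma exists_isCoord (x : Hilb k n d) :
    ∃ (lam : Fin d → MvPolynomial (Fin n) k) (c : Coord n d → k), IsCoord lam x.1 c := by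
  obtain ⟨I, hfin, hrank⟩ := x
  let b : Basis (Fin d) k (MvPolynomial (Fin n) k ⧸ I) := Module.finBasisOfFinrankEq k _ hrank
  choose lam hlam using fun s => Ideal.Quotient.mk_surjective (b s)
  have key : ∀ a : Fin d → k, Ideal.Quotient.mk I (∑ s, C (a s) * lam s) = ∑ s, a s • b s := by
    intro a
    rw [map_sum]
    apply Finset.sum_congr rfl
    intro s _
    rw [mkq_C_mul, hlam]
  refine ⟨lam, mk (fun i => Matrix.of fun r s => b.repr (Ideal.Quotient.mk I (X i * lam s)) r)
    (fun r => b.repr 1 r), ?_, ?_, ?_⟩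
  · intro f
    refine ⟨fun s => b.repr (Ideal.Quotient.mk I f) s, ?_, ?_⟩
    · show _ ∈ I
      rw [← Ideal.Quotient.eq, key, b.sum_repr]
    · intro a ha
      have ha' : f - ∑ s, C (a s) * lam s ∈ I := ha
      rw [← Ideal.Quotient.eq, key] at ha'
      funext s
      rw [ha', b.repr_sum_self]
  · intro i s
    rw [← Ideal.Quotient.eq]
    exact (b.sum_repr _).symm.trans (key _).symm
  · rw [← Ideal.Quotient.eq, map_one]
    exact (b.sum_repr _).symm.trans (key _).symm

end Pool.Agent.Hilb61
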