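import Pool.Agent.Helper61.HilbAsym

/-!
# Numerical estimates for the second question
-/

namespace Pool.Agent.Hilb61

/-- The numerical estimate. -/
theorem exists_large (m : ℕ) (hm : 1 ≤ m) : ∃ R : ℕ, ∀ r d τ σ : ℕ, R ≤ r →
    d < Dn (m + 2) (r + 1) → 1 ≤ τ → Tr (m + 2) r ≤ d + (m + 1) * (d * τ) →
    (∀ q, (m + q) * τ ≤ m * σ + (m + q).choose (m + 1)) →
    (m + 2) * d < (σ / 2) * (σ - σ / 2) := by
  obtain ⟨F, hF⟩ : ∃ F, F = 2 * (m + 1).factorial := ⟨_, rfl⟩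
  have hF1 : 1 ≤ F := by
    have := Nat.factorial_pos (m + 1)
    omega
  obtain ⟨B, hB⟩ : ∃ B, B = 8 * F ^ 2 * m := ⟨_, rfl⟩
  obtain ⟨G, hG⟩ : ∃ G, G = B ^ 2 * (4 * (m + 2) * 2 ^ (m + 2)) := ⟨_, rfl⟩
  refine ⟨(m + 2) + 2 * F * (m + 1) + (G + 1), ?_⟩
  intro r d τ σ hR hd hτ hT hs
  have hr1 : m + 2 ≤ r := by omega
  have hr2 : 2 * F * (m + 1) ≤ r := by omega
  have hr3 : G < r := by omega
  have hr0 : 0 < r := by omega
  -- step 1
  have hD : Dn (m + 2) (r + 1) = (m + 2 + r).choose (m + 2) := by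
    rw [Dn]
    congr 1
    omega
  have hDpos : 0 < Dn (m + 2) (r + 1) := by omega
  have h1 : (m + 2) * Dn (m + 2) (r + 1) * (m + r).choose (m + 1) =
      (m + 2 + r) * Tr (m + 2) r := by
    rw [hD, Tr, show m + 2 + r - 1 = m + 1 + r by omega, show m + 2 + r - 2 = m + r by omega,
      show m + 2 - 1 = m + 1 by omega]
    have h2 := Nat.add_one_mul_choose_eq (m + 1 + r) (m + 1)
    have e1 : m + 1 + r + 1 = m + 2 + r := by omega
    have e2 : m + 1 + 1 = m + 2 := rfl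
    rw [e1, e2] at h2
    calc (m + 2) * (m + 2 + r).choose (m + 2) * (m + r).choose (m + 1)
        = ((m + 2 + r).choose (m + 2) * (m + 2)) * (m + r).choose (m + 1) := by ring
      _ = (m + 2 + r) * ((m + 1 + r).choose (m + 1) * (m + r).choose (m + 1)) := by
        rw [← h2]; ring
  have h2 : Tr (m + 2) r ≤ Dn (m + 2) (r + 1) * (1 + (m + 1) * τ) := by
    refine hT.trans ?_
    have : d + (m + 1) * (d * τ) = d * (1 + (m + 1) * τ) := by ring
    rw [this]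
    exact Nat.mul_le_mul_right _ hd.le
  have h3 : (m + 2) * (m + r).choose (m + 1) ≤ (m + 2 + r) * (1 + (m + 1) * τ) := by
    refine Nat.le_of_mul_le_mul_left (c := Dn (m + 2) (r + 1)) ?_ hDpos
    calc Dn (m + 2) (r + 1) * ((m + 2) * (m + r).choose (m + 1))
        = (m + 2) * Dn (m + 2) (r + 1) * (m + r).choose (m + 1) := by ring
      _ = (m + 2 + r) * Tr (m + 2) r := h1
      _ ≤ (m + 2 + r) * (Dn (m + 2) (r + 1) * (1 + (m + 1) * τ)) := Nat.mul_le_mul_left _ h2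
      _ = _ := by ring
  -- step 2
  have h4 : r ^ (m + 1) ≤ (m + 1).factorial * (m + r).choose (m + 1) := by
    have h5 := Nat.ascFactorial_eq_factorial_mul_choose' r (m + 1)
    have h6 : r ^ (m + 1) ≤ r.ascFactorial (m + 1) := Nat.pow_succ_le_ascFactorial r (m + 1)
    rw [h5, show r + (m + 1) - 1 = m + r by omega] at h6
    exact h6
  -- step 3
  have h5 : r ^ m ≤ F * τ := by
    have h6 : (m + 2 + r) * (1 + (m + 1) * τ) ≤ (2 * r) * ((m + 2) * τ) := by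
      apply Nat.mul_le_mul
      · omega
      · have : (m + 2) * τ = τ + (m + 1) * τ := by ring
        omega
    have h7 : (r * (m + 2)) * r ^ m ≤ (r * (m + 2)) * (F * τ) := by
      calc (r * (m + 2)) * r ^ m = (m + 2) * r ^ (m + 1) := by ring
        _ ≤ (m + 2) * ((m + 1).factorial * (m + r).choose (m + 1)) := Nat.mul_le_mul_left _ h4
        _ = (m + 1).factorial * ((m + 2) * (m + r).choose (m + 1)) := by ring
        _ ≤ (m + 1).factorial * ((2 * r) * ((m + 2) * τ)) :=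
          Nat.mul_le_mul_left _ (h3.trans h6)
        _ = (r * (m + 2)) * (F * τ) := by rw [hF]; ring
    exact Nat.le_of_mul_le_mul_left h7 (by positivity)
  -- step 4
  obtain ⟨Q, hQ⟩ : ∃ Q, Q = r / (2 * F) := ⟨_, rfl⟩
  have hQ1 : 2 * F * Q ≤ r := by
    rw [hQ]
    exact Nat.mul_div_le r (2 * F)
  have hQ2 : r < 2 * F * (Q + 1) := by
    rw [hQ]
    exact Nat.lt_mul_div_succ r (by omega)
  have hQm : m + 1 ≤ Q := by
    by_contra hc
    have h6 : 2 * F * (Q + 1) ≤ 2 * F * (m + 1) := Nat.mul_le_mul_left _ (by omega)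
    omega
  have hQ3 : r ≤ 4 * F * Q := by
    have h6 : 2 * F * (Q + 1) ≤ 2 * F * (Q + Q) := Nat.mul_le_mul_left _ (by omega)
    have h7 : 2 * F * (Q + Q) = 4 * F * Q := by ring
    omega
  have hQ4 : 2 * Q ^ m ≤ τ := by
    have h6 : (2 * F) ^ m * Q ^ m ≤ F * τ := by
      rw [← mul_pow]
      exact (Nat.pow_le_pow_left hQ1 m).trans h5
    have h7 : 2 * F ≤ (2 * F) ^ m := by
      calc 2 * F = (2 * F) ^ 1 := (pow_one _).symm
        _ ≤ (2 * F) ^ m := Nat.pow_le_pow_right (by omega) hm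
    have h8 : F * (2 * Q ^ m) ≤ F * τ := by
      calc F * (2 * Q ^ m) = 2 * F * Q ^ m := by ring
        _ ≤ (2 * F) ^ m * Q ^ m := Nat.mul_le_mul_right _ h7
        _ ≤ F * τ := h6
    exact Nat.le_of_mul_le_mul_left h8 (by omega)
  -- step 5
  have h6 : Q * τ ≤ 2 * m * σ := by
    have h7 := hs (Q - m)
    rw [show m + (Q - m) = Q by omega] at h7
    have h8 : Q.choose (m + 1) ≤ Q ^ (m + 1) := Nat.choose_le_pow Q (m + 1)
    have h9 : 2 * Q ^ (m + 1) ≤ Q * τ := by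
      calc 2 * Q ^ (m + 1) = Q * (2 * Q ^ m) := by ring
        _ ≤ Q * τ := Nat.mul_le_mul_left _ hQ4
    have h10 : 2 * m * σ = 2 * (m * σ) := by ring
    omega
  -- step 6
  have h7 : r ^ (m + 1) ≤ B * σ := by
    calc r ^ (m + 1) = r * r ^ m := by ring
      _ ≤ (4 * F * Q) * (F * τ) := Nat.mul_le_mul hQ3 h5
      _ = 4 * F ^ 2 * (Q * τ) := by ring
      _ ≤ 4 * F ^ 2 * (2 * m * σ) := Nat.mul_le_mul_left _ h6
      _ = B * σ := by rw [hB]; ring
  -- step 7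
  by_contra hc
  push Not at hc
  have h8 : σ ^ 2 ≤ 4 * (m + 2) * Dn (m + 2) (r + 1) := by
    have h9 : σ ^ 2 ≤ 4 * ((σ / 2) * (σ - σ / 2)) + 1 := by
      obtain ⟨a, ha | ha⟩ : ∃ a, σ = 2 * a ∨ σ = 2 * a + 1 := ⟨σ / 2, by omega⟩
      · rw [ha, show 2 * a / 2 = a by omega, show 2 * a - a = a by omega]
        nlinarith
      · rw [ha, show (2 * a + 1) / 2 = a by omega, show 2 * a + 1 - a = a + 1 by omega]
        nlinarith
    have h10 : 4 * ((m + 2) * d) + 1 ≤ 4 * (m + 2) * Dn (m + 2) (r + 1) := by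
      calc 4 * ((m + 2) * d) + 1 ≤ 4 * (m + 2) * (d + 1) := by nlinarith
        _ ≤ _ := Nat.mul_le_mul_left _ hd
    omega
  have h9 : Dn (m + 2) (r + 1) ≤ 2 ^ (m + 2) * r ^ (m + 2) := by
    rw [hD, ← mul_pow]
    exact (Nat.choose_le_pow _ _).trans (Nat.pow_le_pow_left (by omega) _)
  have h10 : r ^ (m + 2) * r ^ m ≤ r ^ (m + 2) * G := by
    calc r ^ (m + 2) * r ^ m = (r ^ (m + 1)) ^ 2 := by ring
      _ ≤ (B * σ) ^ 2 := Nat.pow_le_pow_left h7 2
      _ = B ^ 2 * σ ^ 2 := by ring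
      _ ≤ B ^ 2 * (4 * (m + 2) * Dn (m + 2) (r + 1)) := Nat.mul_le_mul_left _ h8
      _ ≤ B ^ 2 * (4 * (m + 2) * (2 ^ (m + 2) * r ^ (m + 2))) :=
        Nat.mul_le_mul_left _ (Nat.mul_le_mul_left _ h9)
      _ = r ^ (m + 2) * G := by rw [hG]; ring
  have h11 : r ^ m ≤ G := Nat.le_of_mul_le_mul_left h10 (by positivity)
  have h12 : r ≤ r ^ m := by
    calc r = r ^ 1 := (pow_one r).symm
      _ ≤ r ^ m := Nat.pow_le_pow_right (by omega) hm
  omega

end Pool.Agent.Hilb61
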