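import Pool.Agent.Helper61.HilbPair
import Pool.Agent.Helper61.HilbQ2Num
import Pool.Agent.Helper61.HilbAdd

/-!
# The maximum is attained on another component, for all large `d`
-/

open MvPolynomial Module Matrix TopologicalSpace Finset

namespace Pool.Agent.Hilb61

universe u

lemma exists_pow_point (k : Type u) [Field k] [Infinite k] {n r : ℕ} (hn : 2 ≤ n) (hr : 1 ≤ r) :
    ∃ x ∈ smoothable k n (Dn n r), HasTangentDim x (Tr n r) := by
  have i0 : Fin n := ⟨0, by omega⟩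
  obtain ⟨mon, hm⟩ := exists_enum n r hr
  have e1 : n.multichoose r = (n + r - 1).choose (n - 1) := by
    rw [Nat.multichoose_eq, ← Nat.choose_symm_of_eq_add (show n + r - 1 = (n - 1) + r by omega)]
  have e2 : n.multichoose (r - 1) = (n + r - 2).choose (n - 1) := by
    rw [Nat.multichoose_eq, show n + (r - 1) - 1 = n + r - 2 by omega,
      ← Nat.choose_symm_of_eq_add (show n + r - 2 = (n - 1) + (r - 1) by omega)]
  have hfin : finrank k (tangent (lamD k mon) (c00 k mon)) = Tr n r := by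
    rw [Tr, ← e1, ← e2]
    exact le_antisymm (finrank_pow_le hm hr (by omega)) (le_finrank_pow hm hr i0)
  have hD : (n + r - 1).choose n = Dn n r := by
    rw [Dn]
    congr 1
    omega
  have hex : ∃ x ∈ smoothable k n ((n + r - 1).choose n), HasTangentDim x (Tr n r) :=
    ⟨_, xpow_smoothable (k := k) hm hr i0, lamD k mon, c00 k mon, isCoord_pow hm hr, hfin⟩
  rw [hD] at hex
  exact hex

lemma exists_lower (k : Type u) [Field k] [Infinite k] {n r : ℕ} (hn : 2 ≤ n) (hr : 1 ≤ r)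
    {d : ℕ} (hd : Dn n r ≤ d) :
    ∃ x ∈ smoothable k n d, ∃ N, HasTangentDim x N ∧ Tr n r ≤ N := by
  have i0 : Fin n := ⟨0, by omega⟩
  obtain ⟨e, rfl⟩ : ∃ e, d = Dn n r + e := ⟨d - Dn n r, by omega⟩
  obtain ⟨x, hx, hN⟩ := exists_pow_point k hn hr
  obtain ⟨x', hx', N', hN', hle⟩ := exists_add_points i0 hx hN e
  exact ⟨x', hx', N', hN', by omega⟩

/-- **Second question for large `d`.** -/
theorem exists_other_component (n : ℕ) (hn : 3 ≤ n) : ∃ d₀ : ℕ, ∀ d, d₀ ≤ d →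
    ∀ (k : Type u) [Field k] [Infinite k], (∀ m : ℕ, 1 ≤ m → m ≤ d → (m : k) ≠ 0) →
    ∀ t, IsGreatest {N : ℕ | ∃ x ∈ smoothable k n d, HasTangentDim x N} t →
    ∃ x ∈ smoothable k n d, HasTangentDim x t ∧
      ∃ Z ∈ irreducibleComponents (Hilb k n d), x ∈ Z ∧ ¬ Z ⊆ smoothable k n d := by
  obtain ⟨m, rfl⟩ : ∃ m, n = m + 2 := ⟨n - 2, by omega⟩
  obtain ⟨R, hR⟩ := exists_large m (by omega)
  refine ⟨Dn (m + 2) (R + 1), ?_⟩
  intro d hd k _ _ hK t ht
  obtain ⟨r, hr1, hr2⟩ := exists_level (show 1 ≤ m + 2 by omega) d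
  have hRr : R + 1 ≤ r := by
    by_contra hc
    have h1 : Dn (m + 2) (r + 1) ≤ Dn (m + 2) (R + 1) :=
      (Dn_mono (show 1 ≤ m + 2 by omega)).monotone (by omega)
    omega
  have hd1 : 1 ≤ d := by
    have := le_Dn (show 1 ≤ m + 2 by omega) r
    omega
  -- lower bound for `t`
  obtain ⟨x0, hx0, N0, hN0, hle0⟩ := exists_lower k (show 2 ≤ m + 2 by omega)
    (show 1 ≤ r by omega) hr1
  have ht0 : Tr (m + 2) r ≤ t := hle0.trans (ht.2 ⟨x0, hx0, hN0⟩)
  -- a strongly stable maximiser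
  obtain ⟨x1, hx1, hN1⟩ := ht.1
  obtain ⟨mon, hord, hst, x, hx, hxc, hle⟩ := exists_stable_max hK hd1 hx1 hN1
  have hT : HasTangentDim x (finrank k (tangent (lamD k mon) (c00 k mon))) :=
    ⟨lamD k mon, c00 k mon, hxc, rfl⟩
  have heq : finrank k (tangent (lamD k mon) (c00 k mon)) = t :=
    le_antisymm (ht.2 ⟨x, hx, hT⟩) hle
  rw [heq] at hT
  have hup := finrank_tangent_le_tau (k := k) hn hord hst hxc
  rw [heq, show m + 2 - 2 = m by omega, show m + 2 - 1 = m + 1 by omega] at hup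
  -- the numbers
  have hτ : 1 ≤ tauF (Dlt mon) m := by
    obtain ⟨z, hz⟩ := HChar.exists_zero hord ⟨0, hd1⟩
    rw [tauF, Nat.one_le_iff_ne_zero, ← Nat.pos_iff_ne_zero, card_pos]
    refine ⟨0, ?_⟩
    rw [mem_slc]
    exact ⟨mem_Dlt.mpr ⟨z, hz⟩, fun _ _ => rfl⟩
  obtain ⟨M, hM⟩ : ∃ M, ∀ s ∈ Dlt mon, ∀ i, s i < M := by
    refine ⟨(∑ s ∈ Dlt mon, ∑ i, s i) + 1, fun s hs i => ?_⟩
    have h1 : s i ≤ ∑ i, s i := single_le_sum (fun _ _ => Nat.zero_le _) (mem_univ i)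
    have h2 : ∑ i, s i ≤ ∑ s ∈ Dlt mon, ∑ i, s i :=
      single_le_sum (f := fun s : Fin (m + 2) →₀ ℕ => ∑ i, s i) (fun _ _ => Nat.zero_le _) hs
    omega
  have hsl : ∀ q, (m + q) * tauF (Dlt mon) m ≤
      m * tauF (Dlt mon) (m + 1) + (m + q).choose (m + 1) := by
    intro q
    have h1 := slice_ineq hst hM m (by omega) 0 q
    have h2 : Function.update (0 : ℕ → ℕ) m 0 = 0 := by
      funext i
      by_cases hi : i = m
      · rw [hi, Function.update_self]; rfl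
      · rw [Function.update_of_ne hi]
    rw [h2] at h1
    exact h1
  have hlarge := hR r d _ _ (by omega) hr2 hτ (ht0.trans hup) hsl
  obtain ⟨K, Gn, hA, hKc, hGc⟩ := exists_adm (a := tauF (Dlt mon) (m + 1) / 2)
    (b := tauF (Dlt mon) (m + 1) - tauF (Dlt mon) (m + 1) / 2) hst hord (by omega) (by
      rw [show m + 2 - 1 = m + 1 by omega]
      omega)
  obtain ⟨Z, hZ, hxZ, hZs⟩ := exists_component_of_adm hord hd1 hA (by
    rw [hKc, hGc, mul_comm _ (tauF (Dlt mon) (m + 1) / 2)]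
    exact hlarge) hxc
  exact ⟨x, hx, hT, Z, hZ, hxZ, hZs⟩

end Pool.Agent.Hilb61
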