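import Pool.Agent.Helper61.HilbZC

open Module Matrix

namespace Pool.Agent.Hilb61

variable {k : Type*} [Field k] {ι μ κ : Type*} [Fintype κ] [DecidableEq κ]

/-- Conjugation invariance. -/
lemma finrank_ZC_conj (A A' : ι → Matrix κ κ k) (P Q : Matrix κ κ k) (hPQ : P * Q = 1)
    (hQP : Q * P = 1) (h : ∀ i, A' i = P * A i * Q) :
    finrank k (ZC A') = finrank k (ZC A) := by
  let f : (ι → Matrix κ κ k) ≃ₗ[k] (ι → Matrix κ κ k) :=
    { toFun := fun B i => P * B i * Q
      invFun := fun B i => Q * B i * P
      left_inv := by
        intro B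
        funext i
        show Q * (P * B i * Q) * P = B i
        calc Q * (P * B i * Q) * P = (Q * P) * B i * (Q * P) := by noncomm_ring
          _ = B i := by rw [hQP]; simp
      right_inv := by
        intro B
        funext i
        show P * (Q * B i * P) * Q = B i
        calc P * (Q * B i * P) * Q = (P * Q) * B i * (P * Q) := by noncomm_ring
          _ = B i := by rw [hPQ]; simp
      map_add' := by
        intro B C
        funext i
        simp [mul_add, add_mul]
      map_smul' := by
        intro c B
        funext i
        simp }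
  have key : ∀ X Y : Matrix κ κ k, P * X * Q * (P * Y * Q) = P * (X * Y) * Q := by
    intro X Y
    calc P * X * Q * (P * Y * Q) = P * X * (Q * P) * Y * Q := by noncomm_ring
      _ = _ := by rw [hQP]; noncomm_ring
  have hf : ∀ B : ι → Matrix κ κ k, B ∈ ZC A → f B ∈ ZC A' := by
    intro B hB i j
    show A' i * (P * B j * Q) - P * B j * Q * A' i = A' j * (P * B i * Q) - P * B i * Q * A' j
    rw [h i, h j, key, key, key, key]
    have := hB i j
    calc P * (A i * B j) * Q - P * (B j * A i) * Q = P * (A i * B j - B j * A i) * Q := by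
          noncomm_ring
      _ = _ := by rw [this]; noncomm_ring
  have : (ZC A).map (f : (ι → Matrix κ κ k) →ₗ[k] (ι → Matrix κ κ k)) = ZC A' := by
    ext B
    simp only [Submodule.mem_map]
    constructor
    · rintro ⟨C, hC, rfl⟩
      exact hf C hC
    · intro hB
      refine ⟨f.symm B, ?_, f.apply_symm_apply B⟩
      have hAi : ∀ i, A i = Q * A' i * P := by
        intro i
        rw [h i]
        calc A i = (Q * P) * A i * (Q * P) := by rw [hQP]; simp
          _ = _ := by noncomm_ring
      have key' : ∀ X Y : Matrix κ κ k, Q * X * P * (Q * Y * P) = Q * (X * Y) * P := by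
        intro X Y
        calc Q * X * P * (Q * Y * P) = Q * X * (P * Q) * Y * P := by noncomm_ring
          _ = _ := by rw [hPQ]; noncomm_ring
      intro i j
      show A i * (Q * B j * P) - Q * B j * P * A i = A j * (Q * B i * P) - Q * B i * P * A j
      rw [hAi i, hAi j, key', key', key', key']
      have := hB i j
      calc Q * (A' i * B j) * P - Q * (B j * A' i) * P = Q * (A' i * B j - B j * A' i) * P := by
            noncomm_ring
        _ = _ := by rw [this]; noncomm_ring
  rw [← this]
  exact LinearEquiv.finrank_map_eq f (ZC A)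

lemma ZC_smul (A : ι → Matrix κ κ k) {t : k} (ht : t ≠ 0) : ZC (fun i => t • A i) = ZC A := by
  ext B
  simp only [mem_ZC, smul_mul_assoc, mul_smul_comm, ← smul_sub]
  constructor
  · intro h i j
    exact smul_right_injective _ ht (h i j)
  · intro h i j
    rw [h i j]

/-! ### Semicontinuity of the rank along a quadratic family of linear maps -/

theorem rank_semicont [Infinite k] {V W : Type*} [AddCommGroup V] [Module k V] [AddCommGroup W]
    [Module k W] [FiniteDimensional k V] [FiniteDimensional k W] (T0 T1 T2 : V →ₗ[k] W) :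
    ∀ᶠ t : k in Filter.cofinite,
      finrank k (LinearMap.range T0) ≤ finrank k (LinearMap.range (T0 + t • T1 + t ^ 2 • T2)) := by
  classical
  set r := finrank k (LinearMap.range T0) with hr
  let b : Basis (Fin r) k (LinearMap.range T0) := Module.finBasisOfFinrankEq k _ rfl
  have hpre : ∀ i, ∃ u : V, T0 u = (b i : W) := fun i => (b i).2
  choose u hu using hpre
  let U : (Fin r → k) →ₗ[k] V := Fintype.linearCombination k u
  obtain ⟨L, hL⟩ := LinearMap.exists_leftInverse_of_injective
    ((Submodule.subtype (LinearMap.range T0)).comp (b.equivFun.symm : (Fin r → k) →ₗ[k] _))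
    (by
      rw [LinearMap.ker_eq_bot]
      exact (Submodule.subtype_injective _).comp b.equivFun.symm.injective)
  have hTU : T0.comp U =
      (Submodule.subtype (LinearMap.range T0)).comp (b.equivFun.symm : (Fin r → k) →ₗ[k] _) := by
    apply LinearMap.pi_ext'
    intro i
    ext
    simp [U, Fintype.linearCombination_apply_single, hu, Basis.equivFun_symm_apply]
  have h0 : L.comp (T0.comp U) = LinearMap.id := by rw [hTU]; exact hL
  let N1 : Matrix (Fin r) (Fin r) k := LinearMap.toMatrix' (L.comp (T1.comp U))
  let N2 : Matrix (Fin r) (Fin r) k := LinearMap.toMatrix' (L.comp (T2.comp U))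
  let N : Matrix (Fin r) (Fin r) (Polynomial k) :=
    1 + (Polynomial.X : Polynomial k) • N1.map Polynomial.C +
      (Polynomial.X ^ 2 : Polynomial k) • N2.map Polynomial.C
  have hN : ∀ t : k, N.map (Polynomial.eval t) =
      LinearMap.toMatrix' (L.comp ((T0 + t • T1 + t ^ 2 • T2).comp U)) := by
    intro t
    have e1 : L.comp ((T0 + t • T1 + t ^ 2 • T2).comp U) =
        LinearMap.id + t • L.comp (T1.comp U) + t ^ 2 • L.comp (T2.comp U) := by
      rw [← h0]
      ext i
      simp
    rw [e1, map_add, map_add, map_smul, map_smul, LinearMap.toMatrix'_id]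
    ext i j
    simp only [N, Matrix.map_apply, Matrix.add_apply, Matrix.smul_apply, smul_eq_mul,
      Polynomial.eval_add, Polynomial.eval_mul, Polynomial.eval_X, Polynomial.eval_C,
      Polynomial.eval_pow]
    congr 2
    by_cases h : i = j
    · subst h; simp
    · simp [h]
  have hdet : ∀ t : k, (N.det).eval t =
      (LinearMap.toMatrix' (L.comp ((T0 + t • T1 + t ^ 2 • T2).comp U))).det := by
    intro t
    rw [← hN t]
    have := RingHom.map_det (Polynomial.evalRingHom t) N
    simpa [RingHom.mapMatrix_apply] using this
  have hne : N.det ≠ 0 := by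
    intro h
    have := hdet 0
    rw [h] at this
    simp only [zero_smul, add_zero, Polynomial.eval_zero, ne_eq, OfNat.ofNat_ne_zero,
      not_false_eq_true, zero_pow, h0, LinearMap.toMatrix'_id, det_one] at this
    exact zero_ne_one this
  have hfin : {t : k | (N.det).IsRoot t}.Finite := Polynomial.finite_setOfPred_isRoot hne
  rw [Filter.eventually_cofinite]
  apply hfin.subset
  intro t ht
  rw [Set.mem_ofPred_eq] at ht ⊢
  by_contra hroot
  apply ht
  have hd : (LinearMap.toMatrix' (L.comp ((T0 + t • T1 + t ^ 2 • T2).comp U))).det ≠ 0 := by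
    rw [← hdet t]
    exact hroot
  have hinj : Function.Injective (L.comp ((T0 + t • T1 + t ^ 2 • T2).comp U)) := by
    rw [← LinearMap.ker_eq_bot]
    rw [LinearMap.det_toMatrix'] at hd
    exact LinearMap.ker_eq_bot.mpr ((LinearEquiv.ofIsUnitDet (f := L.comp ((T0 + t • T1 + t ^ 2 • T2).comp U)) (v := Pi.basisFun k (Fin r)) (v' := Pi.basisFun k (Fin r)) (by
      rw [← LinearMap.det_toMatrix (Pi.basisFun k (Fin r))] at hd
      exact isUnit_iff_ne_zero.mpr hd)).injective)
  have hinj2 : Function.Injective ((T0 + t • T1 + t ^ 2 • T2).comp U) := by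
    intro x y hxy
    apply hinj
    show L _ = L _
    rw [hxy]
  calc r = finrank k (Fin r → k) := by simp
    _ = finrank k (LinearMap.range ((T0 + t • T1 + t ^ 2 • T2).comp U)) :=
        (LinearMap.finrank_range_of_inj hinj2).symm
    _ ≤ _ := Submodule.finrank_mono (LinearMap.range_comp_le_range _ _)

end Pool.Agent.Hilb61
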