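import Pool.Agent.Helper61.HilbPow5
import Pool.Agent.Helper61.HilbDeg2

/-!
# Semicontinuity for the closure of the framed reduced tuples, and linear changes of coordinates
-/

open MvPolynomial Module Matrix TopologicalSpace

namespace Pool.Agent.Hilb61

universe u

variable {k : Type u} [Field k] {n d : ℕ}

lemma exists_forms_R (c0 : Coord n d → k) :
    ∃ (m : ℕ) (F : Fin m → MvPolynomial (Coord n d) k) (u : Fin m → Coord n d → k),
      (∀ i, F i ∈ eqR k n d) ∧ (∀ i j, dd c0 (F i) (u j) = if i = j then 1 else 0) ∧
      m + finrank k (tanR c0) = finrank k (Coord n d → k) := by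
  classical
  let s : Set (Module.Dual k (Coord n d → k)) := {l | ∃ f ∈ eqR k n d, l = ddL c0 f}
  obtain ⟨f, hf, hspan, -⟩ := Submodule.exists_fun_fin_finrank_span_eq k s
  choose F hF hfF using hf
  have htan : (Submodule.span k s).dualCoannihilator = tanR c0 := by
    ext w
    rw [Submodule.mem_dualCoannihilator]
    constructor
    · intro h g hg
      exact h (ddL c0 g) (Submodule.subset_span ⟨g, hg, rfl⟩)
    · intro hw φ hφ
      induction hφ using Submodule.span_induction with
      | mem x hx =>
        obtain ⟨g, hg, rfl⟩ := hx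
        exact hw g hg
      | zero => rfl
      | add x y _ _ hx hy => rw [LinearMap.add_apply, hx, hy, add_zero]
      | smul a x _ hx => rw [LinearMap.smul_apply, hx, smul_zero]
  have hdim := Subspace.finrank_add_finrank_dualCoannihilator_eq (Submodule.span k s)
  rw [htan] at hdim
  let T : (Coord n d → k) →ₗ[k] (Fin (finrank k (Submodule.span k s)) → k) := LinearMap.pi f
  have htan' : (Submodule.span k (Set.range f)).dualCoannihilator = tanR c0 := by
    rw [hspan]; exact htan
  have hker : LinearMap.ker T = tanR c0 := by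
    rw [← htan']
    ext w
    rw [LinearMap.mem_ker, Submodule.mem_dualCoannihilator]
    constructor
    · intro h φ hφ
      induction hφ using Submodule.span_induction with
      | mem x hx =>
        obtain ⟨i, rfl⟩ := hx
        exact congrFun h i
      | zero => rfl
      | add x y _ _ hx hy => rw [LinearMap.add_apply, hx, hy, add_zero]
      | smul a x _ hx => rw [LinearMap.smul_apply, hx, smul_zero]
    · intro h
      funext i
      exact h (f i) (Submodule.subset_span ⟨i, rfl⟩)
  have hrange : LinearMap.range T = ⊤ := by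
    apply Submodule.eq_top_of_finrank_eq
    have h1 := LinearMap.finrank_range_add_finrank_ker T
    rw [hker] at h1
    have h2 : finrank k (Fin (finrank k (Submodule.span k s)) → k) =
        finrank k (Submodule.span k s) := by simp
    rw [h2]
    omega
  have hsurj := LinearMap.range_eq_top.mp hrange
  choose u hu using fun j => hsurj (Pi.single j 1)
  refine ⟨_, F, u, hF, ?_, hdim⟩
  intro i j
  have h1 := congrFun (hu j) i
  rw [Pi.single_apply] at h1
  rw [← h1]
  show _ = f i (u j)
  rw [hfF i]
  rfl

/-- Nonvanishing of the determinant bounds the tangent space. -/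
lemma finrank_tanR_le_of_det {m : ℕ} {F : Fin m → MvPolynomial (Coord n d) k}
    {u : Fin m → Coord n d → k} (hF : ∀ i, F i ∈ eqR k n d) {c : Coord n d → k}
    (hdt : (Matrix.of fun i j => dd c (F i) (u j) : Matrix (Fin m) (Fin m) k).det ≠ 0) :
    m + finrank k (tanR c) ≤ finrank k (Coord n d → k) := by
  classical
  let T : (Coord n d → k) →ₗ[k] (Fin m → k) := LinearMap.pi fun i => ddL c (F i)
  have hsurj : Function.Surjective T := by
    intro y
    have hu1 := (Matrix.isUnit_iff_isUnit_det _).mpr (isUnit_iff_ne_zero.mpr hdt)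
    obtain ⟨V, hV⟩ := hu1
    let x : Fin m → k := (V⁻¹ : (Matrix (Fin m) (Fin m) k)ˣ).1 *ᵥ y
    have hx : (Matrix.of fun i j => dd c (F i) (u j)) *ᵥ x = y := by
      show (Matrix.of fun i j => dd c (F i) (u j)) *ᵥ
        ((V⁻¹ : (Matrix (Fin m) (Fin m) k)ˣ).1 *ᵥ y) = y
      rw [mulVec_mulVec, ← hV, V.mul_inv, one_mulVec]
    refine ⟨∑ j, x j • u j, ?_⟩
    rw [← hx]
    funext i
    show ddL c (F i) (∑ j, x j • u j) = _
    rw [map_sum, mulVec, dotProduct]
    apply Finset.sum_congr rfl
    intro j _
    rw [map_smul, smul_eq_mul, mul_comm]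
    rfl
  have hle : tanR c ≤ LinearMap.ker T := by
    intro w hw
    rw [LinearMap.mem_ker]
    funext i
    exact hw (F i) (hF i)
  have h1 := Submodule.finrank_mono hle
  have h2 := LinearMap.finrank_range_add_finrank_ker T
  rw [LinearMap.range_eq_top.mpr hsurj, finrank_top] at h2
  have h3 : finrank k (Fin m → k) = m := by simp
  rw [h3] at h2
  omega

/-- Semicontinuity along a polynomial curve. -/
lemma tanR_semicont [Infinite k] (cv : Coord n d → Polynomial k) :
    ∀ᶠ t : k in Filter.cofinite, finrank k (tanR (fun x => (cv x).eval t)) ≤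
      finrank k (tanR (fun x => (cv x).eval 0)) := by
  classical
  obtain ⟨m, F, u, hF, hu, hdim⟩ := exists_forms_R (fun x => (cv x).eval 0)
  let D : Matrix (Fin m) (Fin m) (Polynomial k) := Matrix.of fun i j =>
    ∑ x, aeval cv (pderiv x (F i)) * Polynomial.C (u j x)
  have hD : ∀ t : k, D.map (Polynomial.eval t) =
      Matrix.of fun i j => dd (fun x => (cv x).eval t) (F i) (u j) := by
    intro t
    ext i j
    rw [Matrix.map_apply]
    show Polynomial.eval t (∑ x, aeval cv (pderiv x (F i)) * Polynomial.C (u j x)) = _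
    rw [Polynomial.eval_finsetSum]
    simp only [Polynomial.eval_mul, eval_aeval_poly, Polynomial.eval_C]
    rfl
  have hdet : ∀ t : k, D.det.eval t =
      (Matrix.of fun i j => dd (fun x => (cv x).eval t) (F i) (u j)).det := by
    intro t
    rw [← hD t]
    exact RingHom.map_det (Polynomial.evalRingHom t) D
  have h0 : D.det.eval 0 = 1 := by
    rw [hdet 0]
    have : (Matrix.of fun i j => dd (fun x => (cv x).eval 0) (F i) (u j)) =
        (1 : Matrix (Fin m) (Fin m) k) := by
      ext i j
      rw [Matrix.of_apply, hu, Matrix.one_apply]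
    rw [this, Matrix.det_one]
  have hne : D.det ≠ 0 := by
    intro h
    rw [h, Polynomial.eval_zero] at h0
    exact zero_ne_one h0
  rw [Filter.eventually_cofinite]
  apply (Polynomial.finite_setOfPred_isRoot hne).subset
  intro t ht
  rw [Set.mem_ofPred_eq] at ht ⊢
  by_contra hroot
  apply ht
  have hdt : (Matrix.of fun i j => dd (fun x => (cv x).eval t) (F i) (u j)).det ≠ 0 := by
    rw [← hdet t]
    exact hroot
  have := finrank_tanR_le_of_det hF hdt
  omega

/-! ### Linear maps preserving the reduced tuples -/

lemma tanR_push {L : (Coord n d → k) →ₗ[k] (Coord n d → k)}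
    (hL : ∀ c ∈ Rset k n d, L c ∈ Rset k n d) (hinj : Function.Injective L)
    {c : Coord n d → k} (hc : c ∈ Zset k n d) :
    L c ∈ Zset k n d ∧ finrank k (tanR c) ≤ finrank k (tanR (L c)) := by
  obtain ⟨h1, h2⟩ := affine_push L 0 (fun b hb => by
    rw [add_zero]; exact Rset_subset_Zset (hL b hb))
  have h3 := h1 c hc
  rw [add_zero] at h3
  refine ⟨h3, ?_⟩
  have h4 : finrank k ((tanR c).map L) = finrank k (tanR c) :=
    (Submodule.equivMapOfInjective L hinj (tanR c)).finrank_eq.symm
  rw [← h4]
  apply Submodule.finrank_mono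
  rintro _ ⟨w, hw, rfl⟩
  have h5 := h2 c w hw
  rwa [add_zero] at h5

lemma conjL_injective {g g' : Matrix (Fin d) (Fin d) k} (h : g * g' = 1) :
    Function.Injective (conjL (n := n) g g') := by
  intro c c' hcc
  have h' : g' * g = 1 := mul_eq_one_comm.mp h
  have h1 : ∀ i, g' * mats c i * g = g' * mats c' i * g := fun i =>
    congrFun (congrArg mats hcc) i
  have h2 : g' *ᵥ vect c = g' *ᵥ vect c' := congrArg vect hcc
  have h3 : ∀ i, mats c i = mats c' i := by
    intro i
    have h4 : g * (g' * mats c i * g) * g' = g * (g' * mats c' i * g) * g' := by rw [h1 i]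
    have e : ∀ M : Matrix (Fin d) (Fin d) k, g * (g' * M * g) * g' = M := by
      intro M
      calc g * (g' * M * g) * g' = (g * g') * M * (g * g') := by noncomm_ring
        _ = M := by rw [h, Matrix.one_mul, Matrix.mul_one]
    rwa [e, e] at h4
  have h5 : vect c = vect c' := by
    have h4 := congrArg (fun x => g *ᵥ x) h2
    simp only [mulVec_mulVec, h, one_mulVec] at h4
    exact h4
  rw [← mk_eta c, ← mk_eta c', h5]
  congr 1
  funext i
  exact h3 i

/-- A linear change of the coordinates of affine space. -/
def glL (g : Matrix (Fin n) (Fin n) k) : (Coord n d → k) →ₗ[k] (Coord n d → k) where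
  toFun c := mk (fun i => ∑ j, g i j • mats c j) (vect c)
  map_add' c c' := by
    have e1 : ∀ i, mats (c + c') i = mats c i + mats c' i := fun i => rfl
    have e2 : vect (c + c') = vect c + vect c' := rfl
    funext x
    rcases x with ⟨i, r, s⟩ | r
    · simp only [mk, Sum.elim_inl, Pi.add_apply, e1, smul_add, Finset.sum_add_distrib,
        Matrix.add_apply]
    · simp only [mk, Sum.elim_inr, Pi.add_apply, e2]
  map_smul' t c := by
    have e1 : ∀ i, mats (t • c) i = t • mats c i := fun i => rfl
    have e2 : vect (t • c) = t • vect c := rfl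
    funext x
    rcases x with ⟨i, r, s⟩ | r
    · simp only [mk, Sum.elim_inl, Pi.smul_apply, e1, Matrix.sum_apply, Matrix.smul_apply,
        RingHom.id_apply, smul_eq_mul, Finset.mul_sum]
      apply Finset.sum_congr rfl
      intro j _
      ring
    · simp only [mk, Sum.elim_inr, Pi.smul_apply, e2, RingHom.id_apply]

lemma mats_glL (g : Matrix (Fin n) (Fin n) k) (c : Coord n d → k) (i : Fin n) :
    mats (glL g c) i = ∑ j, g i j • mats c j := rfl

lemma vect_glL (g : Matrix (Fin n) (Fin n) k) (c : Coord n d → k) :
    vect (glL g c) = vect c := rfl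

lemma glL_glL {g g' : Matrix (Fin n) (Fin n) k} (h : g' * g = 1) (c : Coord n d → k) :
    glL g' (glL g c) = c := by
  rw [← mk_eta (glL g' (glL g c)), ← mk_eta c]
  congr 1
  funext i
  show mats (glL g' (glL g c)) i = mats c i
  rw [mats_glL]
  simp only [mats_glL, Finset.smul_sum, smul_smul]
  rw [Finset.sum_comm]
  simp only [← Finset.sum_smul]
  have h1 : ∀ j, ∑ x, g' i x * g x j = (1 : Matrix (Fin n) (Fin n) k) i j := by
    intro j
    rw [← h, Matrix.mul_apply]
  simp only [h1, Matrix.one_apply, ite_smul, one_smul, zero_smul]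
  rw [Finset.sum_ite_eq Finset.univ i, if_pos (Finset.mem_univ i)]

lemma glL_injective {g g' : Matrix (Fin n) (Fin n) k} (h : g' * g = 1) :
    Function.Injective (glL (d := d) g) :=
  Function.LeftInverse.injective (glL_glL h)

lemma glL_Rset {g g' : Matrix (Fin n) (Fin n) k} (h : g' * g = 1) {c : Coord n d → k}
    (hc : c ∈ Rset k n d) : glL g c ∈ Rset k n d := by
  obtain ⟨p, hp, U, U', hU, h1, h2⟩ := hc
  refine ⟨fun a => g *ᵥ p a, ?_, U, U', hU, ?_, h2⟩
  · intro a b hab
    apply hp
    have h3 := congrArg (fun x => g' *ᵥ x) hab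
    simp only [mulVec_mulVec, h, one_mulVec] at h3
    exact h3
  · intro a i s
    rw [mats_glL, Matrix.mul_sum, Matrix.sum_apply]
    show (∑ j, g i j * p a j) * U a s = _
    rw [Finset.sum_mul]
    apply Finset.sum_congr rfl
    intro j _
    rw [Matrix.mul_smul, Matrix.smul_apply, smul_eq_mul, ← h1, mul_assoc]

end Pool.Agent.Hilb61
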