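import Pool.Agent.Helper61.HilbStab

/-!
# Stabilisation of monomial algebras in characteristic zero, II
-/

open Module Matrix

namespace Pool.Agent.Hilb61

variable {K : Type*} [Field K] {n d : ℕ} {mon : Fin d → (Fin n →₀ ℕ)}

lemma det_eventually {m : ℕ} (N : Matrix (Fin m) (Fin m) (Polynomial K))
    (h : (N.map (Polynomial.eval 0)).det ≠ 0) :
    ∀ᶠ t : K in Filter.cofinite, (N.map (Polynomial.eval t)).det ≠ 0 := by
  have hdet : ∀ t : K, (N.map (Polynomial.eval t)).det = (N.det).eval t := by
    intro t
    have := RingHom.map_det (Polynomial.evalRingHom t) N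
    rw [RingHom.mapMatrix_apply] at this
    exact this.symm
  have hne : N.det ≠ 0 := by
    intro h0
    rw [hdet, h0, Polynomial.eval_zero] at h
    exact h rfl
  have hfin : {t : K | (N.det).IsRoot t}.Finite := Polynomial.finite_setOfPred_isRoot hne
  rw [Filter.eventually_cofinite]
  apply hfin.subset
  intro t ht
  rw [Set.mem_ofPred_eq] at ht ⊢
  by_contra hroot
  apply ht
  rw [hdet]
  exact hroot

lemma card_le_finrank_of_indep {ι : Type*} [Fintype ι] {x : ι → (Fin d → K)}
    (hx : LinearIndependent K x) {W : Submodule K (Fin d → K)} (hW : ∀ i, x i ∈ W) :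
    Fintype.card ι ≤ finrank K W := by
  rw [← finrank_span_eq_card hx]
  apply Submodule.finrank_mono
  rw [Submodule.span_le]
  rintro _ ⟨i, rfl⟩
  exact hW i

theorem exists_better [CharZero K] (h : IsOrd mon) {w : Fin n → ℕ} (hw1 : ∀ i, 1 ≤ w i)
    (hw2 : ∀ i j, i < j → w j < w i)
    (hw3 : ∀ B C : Fin n →₀ ℕ, (∀ i, B i < d) → (∀ i, C i < d) → phi w B = phi w C → B = C)
    (hns : ¬ Stable (Dlt mon)) :
    ∃ mon' : Fin d → (Fin n →₀ ℕ), IsOrd mon' ∧
      finrank K (ZC (Amon K mon)) ≤ finrank K (ZC (Amon K mon')) ∧
      ∑ s, phi w (mon' s) < ∑ s, phi w (mon s) := by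
  classical
  have : Infinite K := Infinite.of_injective (Nat.cast : ℕ → K) Nat.cast_injective
  -- a violation of stability
  obtain ⟨u, i, j, hij, s1, hs1, hC⟩ : ∃ (u : Fin n →₀ ℕ) (i j : Fin n), i < j ∧
      ∃ s1, mon s1 = u + Finsupp.single i 1 ∧ ∀ r, mon r ≠ u + Finsupp.single j 1 := by
    rw [Stable] at hns
    push Not at hns
    obtain ⟨u, i, h1, h2⟩ := hns
    obtain ⟨s1, hs1⟩ := mem_Dlt.mp h1
    obtain ⟨r, hr⟩ := h.low s1 i u hs1.symm
    obtain ⟨j, hij, hj⟩ := h2 (mem_Dlt.mpr ⟨r, hr⟩)
    refine ⟨u, i, j, hij, s1, hs1, fun r hr => hj (mem_Dlt.mpr ⟨r, hr⟩)⟩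
  have hne : i ≠ j := ne_of_lt hij
  set C : Fin n →₀ ℕ := u + Finsupp.single j 1 with hCdef
  have hCj : C j = u j + 1 := by simp [hCdef]
  -- the polynomial matrices
  let P0 : Fin d → Fin d → Polynomial K := fun r s =>
    ∑ q ∈ Finset.range (mon s j + 1), (Polynomial.C (((mon s j).choose q : ℕ) : K) *
      Polynomial.X ^ q) * (if mon r = mon s - Finsupp.single j q + Finsupp.single i q then 1 else 0)
  let P1 : Fin d → Polynomial K := fun r => ∑ q ∈ Finset.range (u j + 1),
      (Polynomial.C (((u j + 1).choose (q + 1) : ℕ) : K) * Polynomial.X ^ q) *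
        (if mon r = C - Finsupp.single j (q + 1) + Finsupp.single i (q + 1) then 1 else 0)
  let N0 : Matrix (Fin d) (Fin d) (Polynomial K) := Matrix.of P0
  let N1 : Matrix (Fin d) (Fin d) (Polynomial K) := Matrix.of fun r s =>
    if s = s1 then P1 r else P0 r s
  let g : K → (Fin d → K) := fun t => ∑ q ∈ Finset.range (u j + 1),
    (((u j + 1).choose (q + 1) : ℕ) * t ^ q : K) •
      V0 K mon (C - Finsupp.single j (q + 1) + Finsupp.single i (q + 1))
  have hP0 : ∀ (t : K) r s, Polynomial.eval t (P0 r s) = Vt mon i j t (mon s) r := by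
    intro t r s
    simp only [P0, Vt]
    rw [Polynomial.eval_finsetSum, Finset.sum_apply]
    apply Finset.sum_congr rfl
    intro q _
    rw [Polynomial.eval_mul, Polynomial.eval_mul, Polynomial.eval_C, Polynomial.eval_pow,
      Polynomial.eval_X, Pi.smul_apply, smul_eq_mul, V0_apply]
    congr 1
    split_ifs <;> simp
  have hP1 : ∀ (t : K) r, Polynomial.eval t (P1 r) = g t r := by
    intro t r
    simp only [P1, g]
    rw [Polynomial.eval_finsetSum, Finset.sum_apply]
    apply Finset.sum_congr rfl
    intro q _
    rw [Polynomial.eval_mul, Polynomial.eval_mul, Polynomial.eval_C, Polynomial.eval_pow,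
      Polynomial.eval_X, Pi.smul_apply, smul_eq_mul, V0_apply]
    congr 1
    split_ifs <;> simp
  have hN0 : ∀ t : K, N0.map (Polynomial.eval t) =
      Matrix.of fun r s => Vt mon i j t (mon s) r := by
    intro t
    ext r s
    exact hP0 t r s
  have hN1 : ∀ t : K, N1.map (Polynomial.eval t) =
      Matrix.of fun r s => if s = s1 then g t r else Vt mon i j t (mon s) r := by
    intro t
    ext r s
    show Polynomial.eval t (if s = s1 then P1 r else P0 r s) =
      if s = s1 then g t r else Vt mon i j t (mon s) r
    by_cases hs : s = s1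
    · rw [if_pos hs, if_pos hs, hP1]
    · rw [if_neg hs, if_neg hs, hP0]
  have hVt0 : ∀ s, Vt mon i j (0 : K) (mon s) = V0 K mon (mon s) := by
    intro s
    rw [Vt, Finset.sum_range_succ']
    simp
  have hd0 : (N0.map (Polynomial.eval 0)).det ≠ 0 := by
    have : N0.map (Polynomial.eval 0) = 1 := by
      rw [hN0]
      ext r s
      rw [Matrix.of_apply, hVt0, V0_apply, Matrix.one_apply]
      simp only [h.inj.eq_iff]
    rw [this, det_one]
    exact one_ne_zero
  have hd1 : (N1.map (Polynomial.eval 0)).det ≠ 0 := by
    have : N1.map (Polynomial.eval 0) =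
        Matrix.diagonal fun s => if s = s1 then ((u j + 1 : ℕ) : K) else 1 := by
      rw [hN1]
      ext r s
      rw [Matrix.of_apply, Matrix.diagonal_apply]
      by_cases hs : s = s1
      · subst hs
        rw [if_pos rfl]
        have e1 : g 0 r = ((u j + 1 : ℕ) : K) * V0 K mon (mon s) r := by
          simp only [g]
          rw [Finset.sum_range_succ']
          rw [Pi.add_apply, Finset.sum_apply]
          have e2 : C - Finsupp.single j (0 + 1) + Finsupp.single i (0 + 1) = mon s := by
            rw [hs1, zero_add, hCdef, add_tsub_cancel_right]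
          rw [e2, Pi.smul_apply, smul_eq_mul]
          simp
        rw [e1, V0_apply]
        by_cases hr : r = s
        · rw [hr]; simp
        · rw [if_neg (fun h' => hr (h.inj h')), if_neg hr, mul_zero]
      · rw [if_neg hs, hVt0, V0_apply]
        by_cases hrs : r = s
        · rw [if_pos (by rw [hrs]), if_pos hrs, if_neg (by rw [hrs]; exact hs)]
        · rw [if_neg (fun h' => hrs (h.inj h')), if_neg hrs]
    rw [this, det_diagonal, Finset.prod_ite_eq' Finset.univ s1]
    rw [if_pos (Finset.mem_univ _)]
    exact Nat.cast_ne_zero.mpr (by omega)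
  -- a good value of the parameter
  have hevt : ∀ᶠ t : K in Filter.cofinite, t ≠ 0 := by
    rw [Filter.eventually_cofinite]
    simp
  obtain ⟨t, ⟨hT0, hT1⟩, ht⟩ := (((det_eventually N0 hd0).and (det_eventually N1 hd1)).and
    hevt).exists
  rw [hN0] at hT0
  rw [hN1] at hT1
  have hli0 : LinearIndependent K (fun s => Vt mon i j t (mon s)) := by
    have := linearIndependent_cols_of_det_ne_zero hT0
    exact this
  have hli1 : LinearIndependent K (fun s => if s = s1 then g t else Vt mon i j t (mon s)) := by
    have h1 := linearIndependent_cols_of_det_ne_zero hT1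
    have h2 : (fun s => if s = s1 then g t else Vt mon i j t (mon s)) =
        (Matrix.of fun r s => if s = s1 then g t r else Vt mon i j t (mon s) r).col := by
      funext s r
      show (if s = s1 then g t else Vt mon i j t (mon s)) r =
        if s = s1 then g t r else Vt mon i j t (mon s) r
      split_ifs <;> rfl
    rw [h2]
    exact h1
  have hgV : Vt mon i j t C = t • g t := by
    rw [Vt, hCj, Finset.sum_range_succ']
    have e1 : V0 K mon (C - Finsupp.single j 0 + Finsupp.single i 0) = 0 := by
      funext r
      rw [V0_apply, if_neg]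
      · rfl
      · rw [Finsupp.single_zero, Finsupp.single_zero, tsub_zero, add_zero]
        exact hC r
    rw [e1, smul_zero, add_zero, Finset.smul_sum]
    apply Finset.sum_congr rfl
    intro q _
    rw [smul_smul]
    congr 1
    ring
  have hV := Vt_mul (K := K) h hne t
  have hspan : Submodule.span K (Set.range (Vt mon i j t)) = ⊤ := by
    rw [eq_top_iff, ← hli0.span_eq_top_of_card_eq_finrank' (by simp)]
    apply Submodule.span_mono
    rintro _ ⟨s, rfl⟩
    exact ⟨mon s, rfl⟩
  obtain ⟨mon', b, hord, hstd, hall, hb⟩ := exists_std (A := At mon i j t) (w := w) hV hspan hw1 hw3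
  refine ⟨mon', hord, ?_, ?_⟩
  · refine le_trans (le_of_eq ?_) (finrank_ZC_le_Amon hV hstd hall hb)
    obtain ⟨z, hz⟩ := HChar.exists_zero h s1
    have hcyc := HChar.cyclic_Amon (k := K) h hz
    have h1 := finrank_ZC_compare (a := At mon i j t) (fun i j => Amon_comm h i j) hcyc (by
      intro m
      by_cases hm : m = j
      · rw [hm, At, Function.update_self]
        exact add_mem (self_mem_Alg _ _) (Subalgebra.smul_mem _ (self_mem_Alg _ _) _)
      · rw [At, Function.update_of_ne hm]
        exact self_mem_Alg _ _) (by
      intro m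
      have hi : Amon K mon i ∈ Alg (At mon i j t) := by
        have : Amon K mon i = At mon i j t i := by
          rw [At, Function.update_of_ne hne]
        rw [this]
        exact self_mem_Alg _ _
      by_cases hm : m = j
      · have h2 : Amon K mon m = At mon i j t j - t • Amon K mon i := by
          rw [At, Function.update_self, hm, add_sub_cancel_right]
        rw [h2]
        exact sub_mem (self_mem_Alg _ _) (Subalgebra.smul_mem _ hi _)
      · have : Amon K mon m = At mon i j t m := by
          rw [At, Function.update_of_ne hm]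
        rw [this]
        exact self_mem_Alg _ _)
    exact Nat.add_right_cancel h1
  · -- comparison of weights
    have hup : ∀ T, finrank K (FF (Vt (K := K) mon i j t) w T) ≤
        (Finset.univ.filter (fun s => phi w (mon' s) < T)).card := by
      intro T
      have h1 : FF (Vt mon i j t) w T ≤
          Submodule.span K (Set.range fun s : {s // phi w (mon' s) < T} =>
            Vt mon i j t (mon' s.1)) := by
        rw [FF_eq]
        apply Submodule.span_mono
        rintro _ ⟨B, hB, hB', rfl⟩
        obtain ⟨s, rfl⟩ := hall B hB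
        exact ⟨⟨s, hB'⟩, rfl⟩
      have h2 := finrank_range_le_card (R := K)
        (fun s : {s // phi w (mon' s) < T} => Vt mon i j t (mon' s.1))
      rw [Fintype.card_subtype] at h2
      exact (Submodule.finrank_mono h1).trans h2
    apply sum_lt_of_count (T0 := phi w C + 1)
    · intro T
      refine le_trans ?_ (hup T)
      rw [← Fintype.card_subtype]
      exact card_le_finrank_of_indep
        (x := fun s : {s // phi w (mon s) < T} => Vt mon i j t (mon s.1))
        (hli0.comp _ Subtype.val_injective) (fun s => mem_FF s.2)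
    · refine lt_of_lt_of_le ?_ (hup _)
      have hs1w : ¬ phi w (mon s1) < phi w C + 1 := by
        rw [hs1, hCdef, phi_add, phi_add, phi_single, phi_single]
        have := hw2 i j hij
        omega
      have h1 := card_le_finrank_of_indep
        (x := fun s : {s // phi w (mon s) < phi w C + 1 ∨ s = s1} =>
          if s.1 = s1 then g t else Vt mon i j t (mon s.1))
        (W := FF (Vt mon i j t) w (phi w C + 1))
        (hli1.comp _ Subtype.val_injective) (by
          rintro ⟨s, hs⟩
          show (if s = s1 then g t else Vt mon i j t (mon s)) ∈ _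
          by_cases hs' : s = s1
          · rw [if_pos hs']
            have h2 : g t = t⁻¹ • Vt mon i j t C := by
              rw [hgV, smul_smul, inv_mul_cancel₀ ht, one_smul]
            rw [h2]
            exact Submodule.smul_mem _ _ (mem_FF (by omega))
          · rw [if_neg hs']
            rcases hs with hs | hs
            · exact mem_FF hs
            · exact absurd hs hs')
      refine lt_of_lt_of_le ?_ h1
      rw [Fintype.card_subtype]
      apply Finset.card_lt_card
      rw [Finset.ssubset_iff_of_subset]
      · refine ⟨s1, ?_, ?_⟩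
        · rw [Finset.mem_filter]
          exact ⟨Finset.mem_univ _, Or.inr rfl⟩
        · rw [Finset.mem_filter]
          exact fun h' => hs1w h'.2
      · intro s hs
        rw [Finset.mem_filter] at hs ⊢
        exact ⟨hs.1, Or.inl hs.2⟩

/-- **Stabilisation.** -/
theorem exists_stable (K : Type*) [Field K] [CharZero K] (h : IsOrd mon) :
    ∃ mon' : Fin d → (Fin n →₀ ℕ), IsOrd mon' ∧ Stable (Dlt mon') ∧
      finrank K (ZC (Amon K mon)) ≤ finrank K (ZC (Amon K mon')) := by
  obtain ⟨w, hw1, hw2, hw3⟩ := exists_weight n d
  induction hT : ∑ s, phi w (mon s) using Nat.strong_induction_on generalizing mon with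
  | _ T ih =>
    subst hT
    by_cases hst : Stable (Dlt mon)
    · exact ⟨mon, h, hst, le_rfl⟩
    · obtain ⟨mon1, h1, h2, h3⟩ := exists_better (K := K) h hw1 hw2 hw3 hst
      obtain ⟨mon2, h4, h5, h6⟩ := ih _ h3 h1 rfl
      exact ⟨mon2, h4, h5, h2.trans h6⟩

end Pool.Agent.Hilb61
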