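import Pool.Agent.Helper61.HilbStab2
import Pool.Agent.Helper61.HilbDegH

/-!
# Stabilisation inside the smoothable component
-/

open Module Matrix

namespace Pool.Agent.Hilb61

universe u

variable {K : Type u} [Field K] {n d : ℕ} {mon : Fin d → (Fin n →₀ ℕ)}

lemma IsOrd.coord_lt (h : IsOrd mon) (r : Fin d) (j : Fin n) : mon r j + 1 ≤ d := by
  classical
  have h1 : ∀ q : Fin (mon r j + 1), ∃ s, mon s = mon r - Finsupp.single j (q : ℕ) := by
    intro q
    have hq := q.isLt
    have h2 := sub_add_single' (s := mon r) (i := j) (m := (q : ℕ)) (by omega)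
    exact h.low_single j q _ r h2
  choose f hf using h1
  have hinj : Function.Injective f := by
    intro q q' hqq
    have h2 := hf q
    rw [hqq, hf q'] at h2
    have h3 := DFunLike.congr_fun h2 j
    rw [Finsupp.tsub_apply, Finsupp.tsub_apply, Finsupp.single_eq_same,
      Finsupp.single_eq_same] at h3
    have hq := q.isLt
    have hq' := q'.isLt
    exact Fin.ext (by omega)
  have := Fintype.card_le_of_injective f hinj
  rwa [Fintype.card_fin, Fintype.card_fin] at this

theorem exists_better_H [Infinite K] (hK : ∀ m : ℕ, 1 ≤ m → m ≤ d → (m : K) ≠ 0) (h : IsOrd mon) {w : Fin n → ℕ} (hw1 : ∀ i, 1 ≤ w i)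
    (hw2 : ∀ i j, i < j → w j < w i)
    (hw3 : ∀ B C : Fin n →₀ ℕ, (∀ i, B i < d) → (∀ i, C i < d) → phi w B = phi w C → B = C)
    (hns : ¬ Stable (Dlt mon)) :
    ∃ (i j : Fin n) (t : K) (mon' : Fin d → (Fin n →₀ ℕ)) (b : Basis (Fin d) K (Fin d → K)),
      i ≠ j ∧ IsOrd mon' ∧ (∀ s, Std (Vt mon i j t) w (mon' s)) ∧
      (∀ B, Std (Vt mon i j t) w B → ∃ s, mon' s = B) ∧ (∀ s, b s = Vt mon i j t (mon' s)) ∧
      ∑ s, phi w (mon' s) < ∑ s, phi w (mon s) := by
  classical
  -- a violation of stability
  obtain ⟨u, i, j, hij, s1, hs1, hC, hu⟩ : ∃ (u : Fin n →₀ ℕ) (i j : Fin n), i < j ∧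
      ∃ s1, mon s1 = u + Finsupp.single i 1 ∧ (∀ r, mon r ≠ u + Finsupp.single j 1) ∧
      ∃ r, mon r = u := by
    rw [Stable] at hns
    push Not at hns
    obtain ⟨u, i, h1, h2⟩ := hns
    obtain ⟨s1, hs1⟩ := mem_Dlt.mp h1
    obtain ⟨r, hr⟩ := h.low s1 i u hs1.symm
    obtain ⟨j, hij, hj⟩ := h2 (mem_Dlt.mpr ⟨r, hr⟩)
    exact ⟨u, i, j, hij, s1, hs1, fun r hr => hj (mem_Dlt.mpr ⟨r, hr⟩), r, hr⟩
  have hne : i ≠ j := ne_of_lt hij
  set C : Fin n →₀ ℕ := u + Finsupp.single j 1 with hCdef
  have hCj : C j = u j + 1 := by simp [hCdef]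
  -- the polynomial matrices
  let P0 : Fin d → Fin d → Polynomial K := fun r s =>
    ∑ q ∈ Finset.range (mon s j + 1), (Polynomial.C (((mon s j).choose q : ℕ) : K) *
      Polynomial.X ^ q) * (if mon r = mon s - Finsupp.single j q + Finsupp.single i q then 1 else 0)
  let P1 : Fin d → Polynomial K := fun r => ∑ q ∈ Finset.range (u j + 1),
      (Polynomial.C (((u j + 1).choose (q + 1) : ℕ) : K) * Polynomial.X ^ q) *
        (if mon r = C - Finsupp.single j (q + 1) + Finsupp.single i (q + 1) then 1 else 0)
  let N0 : Matrix (Fin d) (Fin d) (Polynomial K) := Matrix.of P0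
  let N1 : Matrix (Fin d) (Fin d) (Polynomial K) := Matrix.of fun r s =>
    if s = s1 then P1 r else P0 r s
  let g : K → (Fin d → K) := fun t => ∑ q ∈ Finset.range (u j + 1),
    (((u j + 1).choose (q + 1) : ℕ) * t ^ q : K) •
      V0 K mon (C - Finsupp.single j (q + 1) + Finsupp.single i (q + 1))
  have hP0 : ∀ (t : K) r s, Polynomial.eval t (P0 r s) = Vt mon i j t (mon s) r := by
    intro t r s
    simp only [P0, Vt]
    rw [Polynomial.eval_finsetSum, Finset.sum_apply]
    apply Finset.sum_congr rfl
    intro q _
    rw [Polynomial.eval_mul, Polynomial.eval_mul, Polynomial.eval_C, Polynomial.eval_pow,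
      Polynomial.eval_X, Pi.smul_apply, smul_eq_mul, V0_apply]
    congr 1
    split_ifs <;> simp
  have hP1 : ∀ (t : K) r, Polynomial.eval t (P1 r) = g t r := by
    intro t r
    simp only [P1, g]
    rw [Polynomial.eval_finsetSum, Finset.sum_apply]
    apply Finset.sum_congr rfl
    intro q _
    rw [Polynomial.eval_mul, Polynomial.eval_mul, Polynomial.eval_C, Polynomial.eval_pow,
      Polynomial.eval_X, Pi.smul_apply, smul_eq_mul, V0_apply]
    congr 1
    split_ifs <;> simp
  have hN0 : ∀ t : K, N0.map (Polynomial.eval t) =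
      Matrix.of fun r s => Vt mon i j t (mon s) r := by
    intro t
    ext r s
    exact hP0 t r s
  have hN1 : ∀ t : K, N1.map (Polynomial.eval t) =
      Matrix.of fun r s => if s = s1 then g t r else Vt mon i j t (mon s) r := by
    intro t
    ext r s
    show Polynomial.eval t (if s = s1 then P1 r else P0 r s) =
      if s = s1 then g t r else Vt mon i j t (mon s) r
    by_cases hs : s = s1
    · rw [if_pos hs, if_pos hs, hP1]
    · rw [if_neg hs, if_neg hs, hP0]
  have hVt0 : ∀ s, Vt mon i j (0 : K) (mon s) = V0 K mon (mon s) := by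
    intro s
    rw [Vt, Finset.sum_range_succ']
    simp
  have hd0 : (N0.map (Polynomial.eval 0)).det ≠ 0 := by
    have : N0.map (Polynomial.eval 0) = 1 := by
      rw [hN0]
      ext r s
      rw [Matrix.of_apply, hVt0, V0_apply, Matrix.one_apply]
      simp only [h.inj.eq_iff]
    rw [this, det_one]
    exact one_ne_zero
  have hd1 : (N1.map (Polynomial.eval 0)).det ≠ 0 := by
    have : N1.map (Polynomial.eval 0) =
        Matrix.diagonal fun s => if s = s1 then ((u j + 1 : ℕ) : K) else 1 := by
      rw [hN1]
      ext r s
      rw [Matrix.of_apply, Matrix.diagonal_apply]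
      by_cases hs : s = s1
      · subst hs
        rw [if_pos rfl]
        have e1 : g 0 r = ((u j + 1 : ℕ) : K) * V0 K mon (mon s) r := by
          simp only [g]
          rw [Finset.sum_range_succ']
          rw [Pi.add_apply, Finset.sum_apply]
          have e2 : C - Finsupp.single j (0 + 1) + Finsupp.single i (0 + 1) = mon s := by
            rw [hs1, zero_add, hCdef, add_tsub_cancel_right]
          rw [e2, Pi.smul_apply, smul_eq_mul]
          simp
        rw [e1, V0_apply]
        by_cases hr : r = s
        · rw [hr]; simp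
        · rw [if_neg (fun h' => hr (h.inj h')), if_neg hr, mul_zero]
      · rw [if_neg hs, hVt0, V0_apply]
        by_cases hrs : r = s
        · rw [if_pos (by rw [hrs]), if_pos hrs, if_neg (by rw [hrs]; exact hs)]
        · rw [if_neg (fun h' => hrs (h.inj h')), if_neg hrs]
    rw [this, det_diagonal, Finset.prod_ite_eq' Finset.univ s1]
    rw [if_pos (Finset.mem_univ _)]
    obtain ⟨r, hr⟩ := hu
    have hur := h.coord_lt r j
    rw [hr] at hur
    exact hK _ (by omega) hur
  -- a good value of the parameter
  have hevt : ∀ᶠ t : K in Filter.cofinite, t ≠ 0 := by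
    rw [Filter.eventually_cofinite]
    simp
  obtain ⟨t, ⟨hT0, hT1⟩, ht⟩ := (((det_eventually N0 hd0).and (det_eventually N1 hd1)).and
    hevt).exists
  rw [hN0] at hT0
  rw [hN1] at hT1
  have hli0 : LinearIndependent K (fun s => Vt mon i j t (mon s)) := by
    have := linearIndependent_cols_of_det_ne_zero hT0
    exact this
  have hli1 : LinearIndependent K (fun s => if s = s1 then g t else Vt mon i j t (mon s)) := by
    have h1 := linearIndependent_cols_of_det_ne_zero hT1
    have h2 : (fun s => if s = s1 then g t else Vt mon i j t (mon s)) =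
        (Matrix.of fun r s => if s = s1 then g t r else Vt mon i j t (mon s) r).col := by
      funext s r
      show (if s = s1 then g t else Vt mon i j t (mon s)) r =
        if s = s1 then g t r else Vt mon i j t (mon s) r
      split_ifs <;> rfl
    rw [h2]
    exact h1
  have hgV : Vt mon i j t C = t • g t := by
    rw [Vt, hCj, Finset.sum_range_succ']
    have e1 : V0 K mon (C - Finsupp.single j 0 + Finsupp.single i 0) = 0 := by
      funext r
      rw [V0_apply, if_neg]
      · rfl
      · rw [Finsupp.single_zero, Finsupp.single_zero, tsub_zero, add_zero]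
        exact hC r
    rw [e1, smul_zero, add_zero, Finset.smul_sum]
    apply Finset.sum_congr rfl
    intro q _
    rw [smul_smul]
    congr 1
    ring
  have hV := Vt_mul (K := K) h hne t
  have hspan : Submodule.span K (Set.range (Vt mon i j t)) = ⊤ := by
    rw [eq_top_iff, ← hli0.span_eq_top_of_card_eq_finrank' (by simp)]
    apply Submodule.span_mono
    rintro _ ⟨s, rfl⟩
    exact ⟨mon s, rfl⟩
  obtain ⟨mon', b, hord, hstd, hall, hb⟩ := exists_std (A := At mon i j t) (w := w) hV hspan hw1 hw3
  refine ⟨i, j, t, mon', b, hne, hord, hstd, hall, hb, ?_⟩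
  · -- comparison of weights
    have hup : ∀ T, finrank K (FF (Vt (K := K) mon i j t) w T) ≤
        (Finset.univ.filter (fun s => phi w (mon' s) < T)).card := by
      intro T
      have h1 : FF (Vt mon i j t) w T ≤
          Submodule.span K (Set.range fun s : {s // phi w (mon' s) < T} =>
            Vt mon i j t (mon' s.1)) := by
        rw [FF_eq]
        apply Submodule.span_mono
        rintro _ ⟨B, hB, hB', rfl⟩
        obtain ⟨s, rfl⟩ := hall B hB
        exact ⟨⟨s, hB'⟩, rfl⟩
      have h2 := finrank_range_le_card (R := K)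
        (fun s : {s // phi w (mon' s) < T} => Vt mon i j t (mon' s.1))
      rw [Fintype.card_subtype] at h2
      exact (Submodule.finrank_mono h1).trans h2
    apply sum_lt_of_count (T0 := phi w C + 1)
    · intro T
      refine le_trans ?_ (hup T)
      rw [← Fintype.card_subtype]
      exact card_le_finrank_of_indep
        (x := fun s : {s // phi w (mon s) < T} => Vt mon i j t (mon s.1))
        (hli0.comp _ Subtype.val_injective) (fun s => mem_FF s.2)
    · refine lt_of_lt_of_le ?_ (hup _)
      have hs1w : ¬ phi w (mon s1) < phi w C + 1 := by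
        rw [hs1, hCdef, phi_add, phi_add, phi_single, phi_single]
        have := hw2 i j hij
        omega
      have h1 := card_le_finrank_of_indep
        (x := fun s : {s // phi w (mon s) < phi w C + 1 ∨ s = s1} =>
          if s.1 = s1 then g t else Vt mon i j t (mon s.1))
        (W := FF (Vt mon i j t) w (phi w C + 1))
        (hli1.comp _ Subtype.val_injective) (by
          rintro ⟨s, hs⟩
          show (if s = s1 then g t else Vt mon i j t (mon s)) ∈ _
          by_cases hs' : s = s1
          · rw [if_pos hs']
            have h2 : g t = t⁻¹ • Vt mon i j t C := by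
              rw [hgV, smul_smul, inv_mul_cancel₀ ht, one_smul]
            rw [h2]
            exact Submodule.smul_mem _ _ (mem_FF (by omega))
          · rw [if_neg hs']
            rcases hs with hs | hs
            · exact mem_FF hs
            · exact absurd hs hs')
      refine lt_of_lt_of_le ?_ h1
      rw [Fintype.card_subtype]
      apply Finset.card_lt_card
      rw [Finset.ssubset_iff_of_subset]
      · refine ⟨s1, ?_, ?_⟩
        · rw [Finset.mem_filter]
          exact ⟨Finset.mem_univ _, Or.inr rfl⟩
        · rw [Finset.mem_filter]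
          exact fun h' => hs1w h'.2
      · intro s hs
        rw [Finset.mem_filter] at hs ⊢
        exact ⟨hs.1, Or.inl hs.2⟩


lemma c00_eq (K : Type u) [Field K] (mon : Fin d → (Fin n →₀ ℕ)) :
    c00 K mon = mk (Amon K mon) (V0 K mon 0) := by
  classical
  funext x
  rcases x with ⟨i, r, s⟩ | r
  · show _ = Amon K mon i r s
    rw [Amon_apply]
    rfl
  · show _ = V0 K mon 0 r
    rw [V0_apply]
    rfl

/-- **Stabilisation** inside the closure of the reduced tuples, when `1, …, d` are nonzero in the
field. -/
theorem exists_stable_H [Infinite K] (hK : ∀ m : ℕ, 1 ≤ m → m ≤ d → (m : K) ≠ 0)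
    (h : IsOrd mon) (hZ : c00 K mon ∈ Zset K n d) :
    ∃ mon' : Fin d → (Fin n →₀ ℕ), IsOrd mon' ∧ Stable (Dlt mon') ∧ c00 K mon' ∈ Zset K n d ∧
      finrank K (tanR (c00 K mon)) ≤ finrank K (tanR (c00 K mon')) := by
  classical
  obtain ⟨w, hw1, hw2, hw3⟩ := exists_weight n d
  induction hT : ∑ s, phi w (mon s) using Nat.strong_induction_on generalizing mon with
  | _ T ih =>
    subst hT
    by_cases hst : Stable (Dlt mon)
    · exact ⟨mon, h, hst, hZ, le_rfl⟩
    · obtain ⟨i, j, t, mon1, b, hij, h1, hstd, hall, hb, hlt⟩ :=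
        exists_better_H (K := K) hK h hw1 hw2 hw3 hst
      let g : Matrix (Fin n) (Fin n) K := 1 + Matrix.single j i t
      let g' : Matrix (Fin n) (Fin n) K := 1 - Matrix.single j i t
      have hgg : g' * g = 1 := by
        show (1 - Matrix.single j i t) * (1 + Matrix.single j i t) = 1
        rw [sub_mul, mul_add, mul_add, Matrix.single_mul_single_of_ne _ _ _ _ hij]
        simp
      obtain ⟨h3, h4⟩ := tanR_push (fun b hb => glL_Rset hgg hb) (glL_injective hgg) hZ
      have hm : ∀ m, mats (glL g (c00 K mon)) m = At mon i j t m := by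
        intro m
        rw [mats_glL, c00_eq, mats_mk]
        by_cases hmj : m = j
        · subst hmj
          rw [At, Function.update_self, Finset.sum_eq_add m i hij.symm]
          · show (1 + Matrix.single m i t) m m • _ + (1 + Matrix.single m i t) m i • _ = _
            rw [Matrix.add_apply, Matrix.add_apply, Matrix.one_apply_eq,
              Matrix.one_apply_ne hij.symm]
            simp [Matrix.single_apply, hij]
          · intro c _ hc
            show (1 + Matrix.single m i t) m c • _ = _
            rw [Matrix.add_apply, Matrix.one_apply_ne hc.1.symm]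
            simp [Matrix.single_apply, hc.2.symm]
          · intro h; exact absurd (Finset.mem_univ _) h
          · intro h; exact absurd (Finset.mem_univ _) h
        · rw [At, Function.update_of_ne hmj, Finset.sum_eq_single m]
          · show (1 + Matrix.single j i t) m m • _ = _
            rw [Matrix.add_apply, Matrix.one_apply_eq]
            simp [Matrix.single_apply, Ne.symm hmj]
          · intro c _ hc
            show (1 + Matrix.single j i t) m c • _ = _
            rw [Matrix.add_apply, Matrix.one_apply_ne hc.symm]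
            simp [Matrix.single_apply, Ne.symm hmj]
          · intro h; exact absurd (Finset.mem_univ _) h
      have hv : Vt mon i j t 0 = vect (glL g (c00 K mon)) := by
        rw [vect_glL, c00_eq, vect_mk, Vt]
        simp
      obtain ⟨h5, h6⟩ := degen_c00 (V := Vt mon i j t) h3 (by
        intro B m
        rw [hm]
        exact Vt_mul h hij t B m) hv hstd hall hb
      obtain ⟨mon2, h7, h8, h9, h10⟩ := ih _ hlt h1 h5 rfl
      exact ⟨mon2, h7, h8, h9, h4.trans (h6.trans h10)⟩

end Pool.Agent.Hilb61
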