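import Pool.Agent.Helper61.HilbPt

open MvPolynomial Module Matrix TopologicalSpace

namespace Pool.Agent.Hilb61

variable {k : Type*} [Field k] {n d m : ℕ}

/-- Zariski topology on commuting framed tuples. -/
noncomputable instance : TopologicalSpace (Cset k n d) :=
  TopologicalSpace.induced (fun c => pointToPoint (k := k) (K := k) c.1)
    (inferInstance : TopologicalSpace (PrimeSpectrum (MvPolynomial (Coord n d) k)))

lemma mem_basicOpen_iff (c : Coord n d → k) (h : MvPolynomial (Coord n d) k) :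
    (pointToPoint (k := k) c : PrimeSpectrum (MvPolynomial (Coord n d) k)) ∈
      PrimeSpectrum.basicOpen h ↔ eval c h ≠ 0 := by
  rw [PrimeSpectrum.mem_basicOpen]
  show h ∉ vanishingIdeal k {c} ↔ _
  rw [mem_vanishingIdeal_singleton_iff, aeval_self]

lemma isOpen_Cset_iff (U : Set (Cset k n d)) :
    IsOpen U ↔ ∀ c ∈ U, ∃ h : MvPolynomial (Coord n d) k, eval c.1 h ≠ 0 ∧
      ∀ c' : Cset k n d, eval c'.1 h ≠ 0 → c' ∈ U := by
  constructor
  · intro hU c hc
    obtain ⟨V, hV, hVU⟩ := isOpen_induced_iff.mp hU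
    have hcV : pointToPoint (k := k) c.1 ∈ V := by
      rw [← hVU] at hc
      exact hc
    obtain ⟨_, ⟨h, rfl⟩, h1, h2⟩ :=
      PrimeSpectrum.isTopologicalBasis_basic_opens.exists_subset_of_mem_open hcV hV
    refine ⟨h, (mem_basicOpen_iff _ _).mp h1, ?_⟩
    intro c' hc'
    rw [← hVU]
    exact h2 ((mem_basicOpen_iff _ _).mpr hc')
  · intro hU
    rw [isOpen_iff_forall_mem_open]
    intro c hc
    obtain ⟨h, h1, h2⟩ := hU c hc
    refine ⟨{c' | eval c'.1 h ≠ 0}, fun c' hc' => h2 c' hc', ?_, h1⟩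
    rw [isOpen_induced_iff]
    refine ⟨PrimeSpectrum.basicOpen h, (PrimeSpectrum.basicOpen h).isOpen, ?_⟩
    ext c'
    exact mem_basicOpen_iff _ _

instance : NoetherianSpace (Cset k n d) := by
  have h : Topology.IsInducing (fun c : Cset k n d =>
      (pointToPoint (k := k) c.1 : PrimeSpectrum (MvPolynomial (Coord n d) k))) := ⟨rfl⟩
  exact h.noetherianSpace

/-- Clearing denominators. -/
lemma exists_clear {σ τ : Type*} (p : σ → MvPolynomial τ k) (q : MvPolynomial τ k)
    (f : MvPolynomial σ k) :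
    ∃ (N : ℕ) (h : MvPolynomial τ k), ∀ y : τ → k, eval y q ≠ 0 →
      eval y h = eval y q ^ N * eval (fun x => eval y (p x) / eval y q) f := by
  induction f using MvPolynomial.induction_on with
  | C a => exact ⟨0, C a, fun y _ => by simp⟩
  | add f g hf hg =>
    obtain ⟨N1, h1, e1⟩ := hf
    obtain ⟨N2, h2, e2⟩ := hg
    refine ⟨N1 + N2, h1 * q ^ N2 + h2 * q ^ N1, fun y hy => ?_⟩
    rw [map_add, map_mul, map_mul, e1 y hy, e2 y hy, map_pow, map_pow, map_add]
    ring
  | mul_X f x hf =>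
    obtain ⟨N, h, e⟩ := hf
    refine ⟨N + 1, h * p x, fun y hy => ?_⟩
    rw [map_mul, e y hy, map_mul, eval_X, pow_succ]
    field_simp

/-- The map from framed commuting tuples to the Hilbert scheme. -/
noncomputable def toHilb (c : Cset k n d) : Hilb k n d :=
  ⟨Jc c.1 c.2, by
    have hs : ∀ s : Fin d, ∃ f, evHom (mats c.1) c.2.1 f *ᵥ vect c.1 =
        (1 : Matrix (Fin d) (Fin d) k) *ᵥ Pi.single s 1 := by
      intro s
      obtain ⟨r, hr, hrv⟩ := exists_Alg c.2.2 (Pi.single s 1 : Fin d → k)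
      obtain ⟨f, rfl⟩ := exists_evHom_of_mem c.2.1 hr
      exact ⟨f, by rw [hrv, one_mulVec]⟩
    choose lam hlam using hs
    exact (isCoord_Jc c.2 (g' := 1) (mul_one 1) hlam).mem_Hilb⟩

lemma toHilb_val (c : Cset k n d) : (toHilb c).1 = Jc c.1 c.2 := rfl

lemma toHilb_surjective : Function.Surjective (toHilb (k := k) (n := n) (d := d)) := by
  intro x
  obtain ⟨lam, c, h⟩ := exists_isCoord x
  exact ⟨⟨c, h.mem_Cset⟩, Subtype.ext h.eq_Jc.symm⟩

lemma toHilb_eq {x : Hilb k n d} {lam : Fin d → MvPolynomial (Fin n) k} {c : Coord n d → k}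
    (h : IsCoord lam x.1 c) : toHilb ⟨c, h.mem_Cset⟩ = x := Subtype.ext h.eq_Jc.symm

/-- The matrix of values. -/
noncomputable def gmat (lam : Fin d → MvPolynomial (Fin n) k) (c : Cset k n d) :
    Matrix (Fin d) (Fin d) k :=
  Matrix.of fun r s => (evHom (mats c.1) c.2.1 (lam s) *ᵥ vect c.1) r

lemma gmat_mulVec (lam : Fin d → MvPolynomial (Fin n) k) (c : Cset k n d) (s : Fin d) :
    evHom (mats c.1) c.2.1 (lam s) *ᵥ vect c.1 = gmat lam c *ᵥ Pi.single s 1 := by
  rw [mulVec_single_one]
  rfl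

/-- polynomial expressing `gmat` -/
lemma exists_gpoly (lam : Fin d → MvPolynomial (Fin n) k) :
    ∃ G : Matrix (Fin d) (Fin d) (MvPolynomial (Coord n d) k), ∀ c : Cset k n d,
      G.map (eval c.1) = gmat lam c := by
  choose P hP using fun s => exists_univ (d := d) (lam s)
  refine ⟨Matrix.of fun r s => P s r, fun c => ?_⟩
  ext r s
  have := hP s k c.1 (fun f => evHom (mats c.1) c.2.1 f *ᵥ vect c.1) (by
      intro a
      rw [evHom_C, smul_mulVec, one_mulVec]
      rfl) (by
      intro f g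
      rw [map_add, add_mulVec]) (by
      intro f i
      rw [map_mul, evHom_X, ← evHom_X (mats c.1) c.2.1 i, ← map_mul, mul_comm, map_mul, evHom_X,
        mulVec_mulVec]) r
  rw [aeval_self] at this
  exact this

/-- If `lam` is a chart at `toHilb c` then `gmat lam c` is invertible. -/
lemma isUnit_gmat {lam : Fin d → MvPolynomial (Fin n) k} {c : Cset k n d} {c' : Coord n d → k}
    (h : IsCoord lam (toHilb c).1 c') : IsUnit (gmat lam c) := by
  rw [← Matrix.mulVec_injective_iff_isUnit]
  have : Function.Injective (Matrix.toLin' (gmat lam c)) := by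
    rw [← LinearMap.ker_eq_bot, LinearMap.ker_eq_bot']
    intro a ha
    have ha' : gmat lam c *ᵥ a = 0 := ha
    have h1 : ∑ s, C (a s) * lam s ∈ (toHilb c).1 := by
      show evHom (mats c.1) c.2.1 _ *ᵥ vect c.1 = 0
      rw [map_sum, Matrix.sum_mulVec, ← ha']
      conv_rhs => rw [pi_eq_sum_univ' a, mulVec_sum]
      apply Finset.sum_congr rfl
      intro s _
      rw [map_mul, evHom_C, smul_mul_assoc, one_mul, smul_mulVec, gmat_mulVec, mulVec_smul]
    rw [← coef_sum_lam h a]
    exact (coef_eq_zero h _).mpr h1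
  exact this

/-- local continuity -/
lemma toHilb_local (lam : Fin d → MvPolynomial (Fin n) k) (f : MvPolynomial (Coord n d) k)
    (c : Cset k n d) {c' : Coord n d → k} (h : IsCoord lam (toHilb c).1 c') (hf : eval c' f ≠ 0) :
    ∃ P : MvPolynomial (Coord n d) k, eval c.1 P ≠ 0 ∧ ∀ b : Cset k n d, eval b.1 P ≠ 0 →
      ∃ b', IsCoord lam (toHilb b).1 b' ∧ eval b' f ≠ 0 := by
  obtain ⟨G, hG⟩ := exists_gpoly (n := n) lam
  have hdet : ∀ b : Cset k n d, eval b.1 G.det = (gmat lam b).det := by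
    intro b
    rw [← hG b]
    exact RingHom.map_det (eval b.1) G
  let pm : Fin n → Matrix (Fin d) (Fin d) (MvPolynomial (Coord n d) k) := fun i =>
    G.adjugate * mats (fun x => X x) i * G
  let pv : Fin d → MvPolynomial (Coord n d) k := G.adjugate *ᵥ vect (fun x => X x)
  let p : Coord n d → MvPolynomial (Coord n d) k := Sum.elim (fun x => pm x.1 x.2.1 x.2.2) pv
  obtain ⟨N, Q, hQ⟩ := exists_clear p G.det f
  have hadj : ∀ b : Cset k n d, G.adjugate.map (eval b.1) = (gmat lam b).adjugate := by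
    intro b
    rw [← hG b]
    exact RingHom.map_adjugate (eval b.1) G
  have hcoord : ∀ b : Cset k n d, (gmat lam b).det ≠ 0 →
      IsCoord lam (toHilb b).1 (fun x => eval b.1 (p x) / eval b.1 G.det) := by
    intro b hb
    have hinv : gmat lam b * ((gmat lam b).det⁻¹ • (gmat lam b).adjugate) = 1 := by
      rw [Matrix.mul_smul, Matrix.mul_adjugate, smul_smul, inv_mul_cancel₀ hb, one_smul]
    have := isCoord_Jc b.2 hinv (gmat_mulVec lam b)
    suffices hx : (fun x => eval b.1 (p x) / eval b.1 G.det) =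
        mk (fun i => ((gmat lam b).det⁻¹ • (gmat lam b).adjugate) * mats b.1 i * gmat lam b)
          (((gmat lam b).det⁻¹ • (gmat lam b).adjugate) *ᵥ vect b.1) by
      rw [hx]; exact this
    funext x
    rcases x with ⟨i, r, s⟩ | r
    · show eval b.1 (pm i r s) / eval b.1 G.det =
        (((gmat lam b).det⁻¹ • (gmat lam b).adjugate) * mats b.1 i * gmat lam b) r s
      rw [hdet, div_eq_inv_mul]
      have e1 : eval b.1 (pm i r s) =
          ((gmat lam b).adjugate * mats b.1 i * gmat lam b) r s := by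
        rw [← hadj, ← hG b]
        have e2 : mats b.1 i = (mats (fun x => (X x : MvPolynomial (Coord n d) k)) i).map
            (eval b.1) := by
          ext r s
          simp
        rw [e2, ← Matrix.map_mul, ← Matrix.map_mul]
        rfl
      rw [e1, Matrix.smul_mul, Matrix.smul_mul, Matrix.smul_apply, smul_eq_mul]
    · show eval b.1 (pv r) / eval b.1 G.det =
        (((gmat lam b).det⁻¹ • (gmat lam b).adjugate) *ᵥ vect b.1) r
      rw [hdet, div_eq_inv_mul, smul_mulVec, Pi.smul_apply, smul_eq_mul]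
      congr 1
      rw [← hadj]
      show eval b.1 ((G.adjugate *ᵥ vect (fun x => (X x : MvPolynomial (Coord n d) k))) r) = _
      rw [mulVec, mulVec, dotProduct, dotProduct, map_sum]
      simp
  have hc0 : (gmat lam c).det ≠ 0 := by
    have := (Matrix.isUnit_iff_isUnit_det _).mp (isUnit_gmat h)
    exact this.ne_zero
  refine ⟨G.det * Q, ?_, ?_⟩
  · rw [map_mul, hQ c.1 (by rw [hdet]; exact hc0)]
    have e1 := coords_unique (hcoord c hc0) h
    rw [e1, hdet]
    exact mul_ne_zero hc0 (mul_ne_zero (pow_ne_zero _ hc0) hf)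
  · intro b hb
    rw [map_mul] at hb
    have hb1 : eval b.1 G.det ≠ 0 := left_ne_zero_of_mul hb
    have hb2 := right_ne_zero_of_mul hb
    rw [hQ b.1 hb1] at hb2
    exact ⟨_, hcoord b (by rw [← hdet]; exact hb1), right_ne_zero_of_mul hb2⟩

lemma continuous_toHilb : Continuous (toHilb (k := k) (n := n) (d := d)) := by
  apply continuous_generateFrom_iff.mpr
  rintro _ ⟨lam, f, rfl⟩
  rw [isOpen_Cset_iff]
  rintro c ⟨c', h, hf⟩
  obtain ⟨P, h1, h2⟩ := toHilb_local lam f c h hf
  exact ⟨P, h1, fun b hb => h2 b hb⟩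

instance : NoetherianSpace (Hilb k n d) :=
  noetherianSpace_of_surjective _ continuous_toHilb toHilb_surjective

/-- Open subsets of the Hilbert scheme along polynomial curves. -/
lemma curve_open {U : Set (Hilb k n d)} (hU : IsOpen U) (c : Coord n d → Polynomial k) (t0 : k)
    (h0 : (fun x => (c x).eval t0) ∈ Cset k n d) (h1 : toHilb ⟨_, h0⟩ ∈ U) :
    ∀ᶠ t : k in Filter.cofinite, ∀ ht : (fun x => (c x).eval t) ∈ Cset k n d,
      toHilb ⟨_, ht⟩ ∈ U := by
  have h2 := (isOpen_Cset_iff _).mp (hU.preimage continuous_toHilb) ⟨_, h0⟩ h1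
  obtain ⟨P, hP0, hP⟩ := h2
  have hne : aeval c P ≠ 0 := by
    intro h
    apply hP0
    rw [← eval_aeval_poly, h, Polynomial.eval_zero]
  rw [Filter.eventually_cofinite]
  apply (Polynomial.finite_setOfPred_isRoot hne).subset
  intro t ht
  rw [Set.mem_ofPred_eq] at ht ⊢
  by_contra hr
  apply ht
  intro ht'
  apply hP
  rw [← eval_aeval_poly]
  exact hr

end Pool.Agent.Hilb61
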