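import Pool.Agent.Helper61.HilbPow6

/-!
# Upper bound for first-order commuting deformations by centralizers of pencils
-/

open Module Matrix

namespace Pool.Agent.Hilb61

variable {k : Type*} [Field k] {n : ℕ} {κ : Type*} [Fintype κ] [DecidableEq κ]

/-- The centralizer of two matrices. -/
def Cent (Y Z : Matrix κ κ k) : Submodule k (Matrix κ κ k) where
  carrier := {W | W * Y = Y * W ∧ W * Z = Z * W}
  add_mem' := by
    rintro W W' ⟨h1, h2⟩ ⟨h3, h4⟩
    exact ⟨by rw [add_mul, mul_add, h1, h3], by rw [add_mul, mul_add, h2, h4]⟩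
  zero_mem' := ⟨by simp, by simp⟩
  smul_mem' := by
    rintro t W ⟨h1, h2⟩
    exact ⟨by rw [smul_mul_assoc, mul_smul_comm, h1], by rw [smul_mul_assoc, mul_smul_comm, h2]⟩

lemma mem_Cent {Y Z W : Matrix κ κ k} : W ∈ Cent Y Z ↔ W * Y = Y * W ∧ W * Z = Z * W := Iff.rfl

/-- The linearised commutator. -/
def PhiYZ (Y Z : Matrix κ κ k) : (Matrix κ κ k × Matrix κ κ k) →ₗ[k] Matrix κ κ k where
  toFun p := (Y * p.2 - p.2 * Y) - (Z * p.1 - p.1 * Z)
  map_add' p q := by
    simp only [Prod.fst_add, Prod.snd_add, mul_add, add_mul]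
    abel
  map_smul' t p := by
    simp only [Prod.smul_fst, Prod.smul_snd, mul_smul_comm, smul_mul_assoc, RingHom.id_apply,
      smul_sub]

/-- The trace pairing. -/
def trD : Matrix κ κ k →ₗ[k] Module.Dual k (Matrix κ κ k) where
  toFun W :=
    { toFun := fun M => (W * M).trace
      map_add' := by intro M N; rw [mul_add, trace_add]
      map_smul' := by intro t M; rw [mul_smul_comm, trace_smul]; rfl }
  map_add' W W' := by
    apply LinearMap.ext
    intro M
    show ((W + W') * M).trace = (W * M).trace + (W' * M).trace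
    rw [add_mul, trace_add]
  map_smul' t W := by
    apply LinearMap.ext
    intro M
    show ((t • W) * M).trace = t • (W * M).trace
    rw [smul_mul_assoc, trace_smul]

lemma trD_apply (W M : Matrix κ κ k) : trD W M = (W * M).trace := rfl

lemma trD_injective : Function.Injective (trD (k := k) (κ := κ)) := by
  rw [← LinearMap.ker_eq_bot, LinearMap.ker_eq_bot']
  intro W hW
  ext i j
  have h1 : trD W (Matrix.single j i 1) = 0 := by rw [hW]; rfl
  rw [trD_apply, trace] at h1
  simp only [diag_apply] at h1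
  rw [Finset.sum_eq_single i] at h1
  · rw [Matrix.mul_single_apply_same] at h1
    simpa using h1
  · intro b _ hb
    rw [Matrix.mul_single_apply_of_ne _ _ _ _ _ (by exact hb)]
  · intro h; exact absurd (Finset.mem_univ i) h

lemma trace_comm_eq {W Y : Matrix κ κ k} (h : ∀ Q : Matrix κ κ k, (W * (Y * Q - Q * Y)).trace = 0) :
    W * Y = Y * W := by
  have h1 : trD (W * Y - Y * W) = 0 := by
    apply LinearMap.ext
    intro Q
    rw [trD_apply, LinearMap.zero_apply, ← h Q]
    rw [sub_mul, mul_sub, trace_sub, trace_sub]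
    congr 1
    · rw [Matrix.mul_assoc]
    · rw [Matrix.mul_assoc, Matrix.trace_mul_comm, Matrix.mul_assoc]
  have h2 := trD_injective (h1.trans (map_zero trD).symm)
  exact sub_eq_zero.mp h2

lemma finrank_ker_Phi_le (Y Z : Matrix κ κ k) :
    finrank k (LinearMap.ker (PhiYZ Y Z)) ≤ Fintype.card κ ^ 2 + finrank k (Cent Y Z) := by
  have hM : finrank k (Matrix κ κ k) = Fintype.card κ ^ 2 := by
    rw [Module.finrank_matrix, finrank_self, mul_one, sq]
  have h1 := LinearMap.finrank_range_add_finrank_ker (PhiYZ Y Z)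
  rw [Module.finrank_prod, hM] at h1
  have h2 := Subspace.finrank_add_finrank_dualAnnihilator_eq (LinearMap.range (PhiYZ Y Z))
  rw [hM] at h2
  let S : Submodule k (Matrix κ κ k) :=
    ((LinearMap.range (PhiYZ Y Z)).dualAnnihilator).comap trD
  have hS : S ≤ Cent Y Z := by
    intro W hW
    have hW' : ∀ p, (W * PhiYZ Y Z p).trace = 0 := by
      intro p
      have h3 : trD W ∈ (LinearMap.range (PhiYZ Y Z)).dualAnnihilator := hW
      rw [Submodule.mem_dualAnnihilator] at h3
      exact h3 _ ⟨p, rfl⟩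
    refine ⟨trace_comm_eq fun Q => ?_, trace_comm_eq fun Q => ?_⟩
    · have := hW' (0, Q)
      simpa [PhiYZ] using this
    · have := hW' (-Q, 0)
      simpa [PhiYZ, mul_neg, neg_mul, sub_eq_add_neg, add_comm] using this
  have hsurj : Function.Surjective (trD (k := k) (κ := κ)) := by
    have h3 : finrank k (Matrix κ κ k) = finrank k (Module.Dual k (Matrix κ κ k)) :=
      Subspace.dual_finrank_eq.symm
    exact (LinearMap.injective_iff_surjective_of_finrank_eq_finrank h3).mp trD_injective
  have h4 : (LinearMap.range (PhiYZ Y Z)).dualAnnihilator = S.map trD := by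
    rw [Submodule.map_comap_eq_of_surjective hsurj]
  have h5 : finrank k (S.map trD) = finrank k S :=
    (Submodule.equivMapOfInjective _ trD_injective _).finrank_eq.symm
  rw [h4, h5] at h2
  have h6 := Submodule.finrank_mono hS
  omega

/-- Linear combinations of a tuple of matrices. -/
def lc (A : Fin n → Matrix κ κ k) (a : Fin n → k) : Matrix κ κ k := ∑ i, a i • A i

lemma bracket_lc (A B : Fin n → Matrix κ κ k) (a b : Fin n → k) :
    lc A a * lc B b - lc B b * lc A a =
      ∑ i, ∑ j, (a i * b j) • (A i * B j - B j * A i) := by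
  have h1 : lc A a * lc B b = ∑ i, ∑ j, (a i * b j) • (A i * B j) := by
    rw [lc, lc, Finset.sum_mul]
    apply Finset.sum_congr rfl
    intro i _
    rw [Finset.mul_sum]
    apply Finset.sum_congr rfl
    intro j _
    rw [smul_mul_smul_comm]
  have h2 : lc B b * lc A a = ∑ i, ∑ j, (a i * b j) • (B j * A i) := by
    rw [lc, lc, Finset.sum_mul, Finset.sum_comm]
    apply Finset.sum_congr rfl
    intro j _
    rw [Finset.mul_sum]
    apply Finset.sum_congr rfl
    intro i _
    rw [smul_mul_smul_comm, mul_comm]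
  rw [h1, h2, ← Finset.sum_sub_distrib]
  apply Finset.sum_congr rfl
  intro i _
  rw [← Finset.sum_sub_distrib]
  apply Finset.sum_congr rfl
  intro j _
  rw [smul_sub]

lemma ZC_lc {A B : Fin n → Matrix κ κ k} (hB : B ∈ ZC A) (a b : Fin n → k) :
    lc A a * lc B b - lc B b * lc A a = lc A b * lc B a - lc B a * lc A b := by
  rw [bracket_lc, bracket_lc, Finset.sum_comm]
  apply Finset.sum_congr rfl
  intro i _
  apply Finset.sum_congr rfl
  intro j _
  rw [hB j i, mul_comm]

lemma lc_single (A : Fin n → Matrix κ κ k) (i : Fin n) : lc A (Pi.single i 1) = A i := by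
  rw [lc, Finset.sum_eq_single i]
  · simp
  · intro j _ hj
    rw [Pi.single_eq_of_ne hj, zero_smul]
  · intro h; exact absurd (Finset.mem_univ i) h

/-- **First upper bound.** -/
theorem finrank_ZC_pencil (A : Fin n → Matrix κ κ k) (a b : Fin n → k) (i0 i1 : Fin n)
    (hab : a i0 * b i1 - a i1 * b i0 ≠ 0) :
    finrank k (ZC A) ≤ Fintype.card κ ^ 2 + (n - 1) * finrank k (Cent (lc A a) (lc A b)) := by
  classical
  let π : ZC A →ₗ[k] (Matrix κ κ k × Matrix κ κ k) :=
    { toFun := fun B => (lc B.1 a, lc B.1 b)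
      map_add' := by
        intro B C
        simp only [lc, Submodule.coe_add, Pi.add_apply, smul_add, Finset.sum_add_distrib,
          Prod.mk_add_mk]
      map_smul' := by
        intro t B
        simp only [lc, Submodule.coe_smul, Pi.smul_apply, smul_comm _ t, ← Finset.smul_sum,
          Prod.smul_mk, RingHom.id_apply] }
  have hπ : LinearMap.range π ≤ LinearMap.ker (PhiYZ (lc A a) (lc A b)) := by
    rintro _ ⟨B, rfl⟩
    rw [LinearMap.mem_ker]
    show (lc A a * lc B.1 b - lc B.1 b * lc A a) - (lc A b * lc B.1 a - lc B.1 a * lc A b) = 0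
    rw [ZC_lc B.2, sub_self]
  have h1 := LinearMap.finrank_range_add_finrank_ker π
  have h2 := (Submodule.finrank_mono hπ).trans (finrank_ker_Phi_le (lc A a) (lc A b))
  -- elements of the kernel have entries in the centralizer
  have hker : ∀ B : ZC A, π B = 0 → ∀ i, B.1 i ∈ Cent (lc A a) (lc A b) := by
    intro B hB i
    have ha : lc B.1 a = 0 := congrArg Prod.fst hB
    have hb : lc B.1 b = 0 := congrArg Prod.snd hB
    have e1 := ZC_lc B.2 a (Pi.single i 1)
    have e2 := ZC_lc B.2 b (Pi.single i 1)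
    rw [lc_single, lc_single, ha, mul_zero, zero_mul, sub_zero] at e1
    rw [lc_single, lc_single, hb, mul_zero, zero_mul, sub_zero] at e2
    exact ⟨(sub_eq_zero.mp e1).symm, (sub_eq_zero.mp e2).symm⟩
  let K2 : Submodule k (Fin n → Matrix κ κ k) := (LinearMap.ker π).map (ZC A).subtype
  have hK2 : finrank k K2 = finrank k (LinearMap.ker π) :=
    (Submodule.equivMapOfInjective (ZC A).subtype (ZC A).injective_subtype _).finrank_eq.symm
  have hK2m : ∀ B ∈ K2, (∀ i, B i ∈ Cent (lc A a) (lc A b)) ∧ lc B a = 0 ∧ lc B b = 0 := by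
    rintro _ ⟨B, hB, rfl⟩
    exact ⟨hker B hB, congrArg Prod.fst hB, congrArg Prod.snd hB⟩
  let ρ : K2 →ₗ[k] ({i : Fin n // i ≠ i0 ∧ i ≠ i1} → Cent (lc A a) (lc A b)) :=
    { toFun := fun B i => ⟨B.1 i.1, (hK2m B.1 B.2).1 i.1⟩
      map_add' := by intro B C; rfl
      map_smul' := by intro t B; rfl }
  have hi : i0 ≠ i1 := by
    rintro rfl
    exact hab (by ring)
  have hρ : Function.Injective ρ := by
    rw [← LinearMap.ker_eq_bot, LinearMap.ker_eq_bot']
    intro B hB
    have hz : ∀ i, i ≠ i0 → i ≠ i1 → B.1 i = 0 := by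
      intro i h1 h2
      have := congrArg Subtype.val (congrFun hB ⟨i, h1, h2⟩)
      exact this
    have hs : ∀ c : Fin n → k, lc B.1 c = c i0 • B.1 i0 + c i1 • B.1 i1 := by
      intro c
      rw [lc, Finset.sum_eq_add_of_mem i0 i1 (Finset.mem_univ _) (Finset.mem_univ _) hi]
      intro i _ h
      rw [hz i h.1 h.2, smul_zero]
    have ha : lc B.1 a = 0 := (hK2m B.1 B.2).2.1
    have hb : lc B.1 b = 0 := (hK2m B.1 B.2).2.2
    rw [hs] at ha hb
    have e0 : (a i0 * b i1 - a i1 * b i0) • B.1 i0 = 0 := by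
      have : (a i0 * b i1 - a i1 * b i0) • B.1 i0 =
          b i1 • (a i0 • B.1 i0 + a i1 • B.1 i1) -
            a i1 • (b i0 • B.1 i0 + b i1 • B.1 i1) := by
        module
      rw [this, ha, hb, smul_zero, smul_zero, sub_zero]
    have e1 : (a i0 * b i1 - a i1 * b i0) • B.1 i1 = 0 := by
      have : (a i0 * b i1 - a i1 * b i0) • B.1 i1 =
          a i0 • (b i0 • B.1 i0 + b i1 • B.1 i1) -
            b i0 • (a i0 • B.1 i0 + a i1 • B.1 i1) := by
        module
      rw [this, ha, hb, smul_zero, smul_zero, sub_zero]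
    have f0 := (smul_eq_zero.mp e0).resolve_left hab
    have f1 := (smul_eq_zero.mp e1).resolve_left hab
    apply Subtype.ext
    funext i
    by_cases h1 : i = i0
    · rw [h1]; exact f0
    · by_cases h2 : i = i1
      · rw [h2]; exact f1
      · exact hz i h1 h2
  have h3 := LinearMap.finrank_le_finrank_of_injective hρ
  rw [Module.finrank_pi_fintype, hK2] at h3
  simp only [Finset.sum_const, smul_eq_mul, Finset.card_univ] at h3
  have h4 : Fintype.card {i : Fin n // i ≠ i0 ∧ i ≠ i1} = n - 2 := by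
    rw [Fintype.card_subtype]
    have : (Finset.univ.filter fun i : Fin n => i ≠ i0 ∧ i ≠ i1) =
        (Finset.univ.erase i0).erase i1 := by
      ext i
      simp only [Finset.mem_filter, Finset.mem_univ, true_and, Finset.mem_erase, and_true]
      tauto
    rw [this, Finset.card_erase_of_mem, Finset.card_erase_of_mem (Finset.mem_univ _)]
    · simp only [Finset.card_univ, Fintype.card_fin]
      omega
    · rw [Finset.mem_erase]
      exact ⟨hi.symm, Finset.mem_univ _⟩
  rw [h4] at h3
  have hn : 2 ≤ n := by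
    have h5 := i0.isLt
    have h6 := i1.isLt
    have h7 : (i0 : ℕ) ≠ i1 := fun h => hi (Fin.ext h)
    omega
  have h5 : (n - 1) * finrank k (Cent (lc A a) (lc A b)) =
      (n - 2) * finrank k (Cent (lc A a) (lc A b)) + finrank k (Cent (lc A a) (lc A b)) := by
    have : n - 1 = (n - 2) + 1 := by omega
    rw [this, add_mul, one_mul]
  omega

/-! ### The centralizer of a nilpotent pair -/

section gens

variable {V : Type*} [AddCommGroup V] [Module k V] [FiniteDimensional k V]

omit [FiniteDimensional k V] in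
lemma exists_gens [FiniteDimensional k V] (U : Submodule k V) :
    ∃ m : Fin (finrank k (V ⧸ U)) → V, Submodule.span k (Set.range m) ⊔ U = ⊤ := by
  let b := Module.finBasis k (V ⧸ U)
  choose m hm using fun i => Submodule.Quotient.mk_surjective U (b i)
  refine ⟨m, ?_⟩
  rw [eq_top_iff]
  intro x _
  have h1 : Submodule.Quotient.mk (p := U) x =
      Submodule.Quotient.mk (∑ i, b.repr (Submodule.Quotient.mk x) i • m i) := by
    rw [← Submodule.mkQ_apply, ← Submodule.mkQ_apply, map_sum]
    simp only [map_smul, Submodule.mkQ_apply, hm]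
    exact (b.sum_repr _).symm
  rw [Submodule.Quotient.eq] at h1
  have h2 : x = (∑ i, b.repr (Submodule.Quotient.mk x) i • m i) +
      (x - ∑ i, b.repr (Submodule.Quotient.mk x) i • m i) := by abel
  rw [h2]
  apply Submodule.add_mem_sup _ h1
  apply Submodule.sum_mem
  intro i _
  exact Submodule.smul_mem _ _ (Submodule.subset_span ⟨i, rfl⟩)

omit [FiniteDimensional k V] in
lemma top_of_sup {Y Z : V →ₗ[k] V} (hYZ : Y ∘ₗ Z = Z ∘ₗ Y) {N : ℕ} (hY : Y ^ N = 0)
    (hZ : Z ^ N = 0) {W : Submodule k V} (hWY : ∀ x ∈ W, Y x ∈ W) (hWZ : ∀ x ∈ W, Z x ∈ W)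
    (h : W ⊔ LinearMap.range Y ⊔ LinearMap.range Z = ⊤) : W = ⊤ := by
  have hcomm : Commute Y Z := hYZ
  have hdec : ∀ x : V, ∃ w ∈ W, ∃ y z, x = w + Y y + Z z := by
    intro x
    have hx : x ∈ W ⊔ LinearMap.range Y ⊔ LinearMap.range Z := by rw [h]; trivial
    obtain ⟨u, hu, z', ⟨z, rfl⟩, rfl⟩ := Submodule.mem_sup.mp hx
    obtain ⟨w, hw, y', ⟨y, rfl⟩, rfl⟩ := Submodule.mem_sup.mp hu
    exact ⟨w, hw, y, z, rfl⟩
  have hpowY : ∀ j, ∀ x ∈ W, (Y ^ j) x ∈ W := by
    intro j
    induction j with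
    | zero => intro x hx; simpa using hx
    | succ j ih =>
      intro x hx
      rw [pow_succ]
      exact ih _ (hWY x hx)
  have hpowZ : ∀ j, ∀ x ∈ W, (Z ^ j) x ∈ W := by
    intro j
    induction j with
    | zero => intro x hx; simpa using hx
    | succ j ih =>
      intro x hx
      rw [pow_succ]
      exact ih _ (hWZ x hx)
  have h1 : ∀ j, ∀ x : V, ∃ w ∈ W, ∃ y z, x = w + (Y ^ j) y + Z z := by
    intro j
    induction j with
    | zero =>
      intro x
      exact ⟨0, W.zero_mem, x, 0, by simp⟩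
    | succ j ih =>
      intro x
      obtain ⟨w, hw, y, z, rfl⟩ := ih x
      obtain ⟨w', hw', y', z', rfl⟩ := hdec y
      refine ⟨w + (Y ^ j) w', W.add_mem hw (hpowY j w' hw'), y', (Y ^ j) z' + z, ?_⟩
      have e1 : (Y ^ j) (Z z') = Z ((Y ^ j) z') := by
        have := (hcomm.pow_left j).eq
        exact congrArg (fun f : V →ₗ[k] V => f z') this
      have e2 : (Y ^ j) (Y y') = (Y ^ (j + 1)) y' := by rw [pow_succ]; rfl
      rw [map_add, map_add, e1, e2, map_add]
      abel
  have h2 : ∀ x : V, ∃ w ∈ W, ∃ z, x = w + Z z := by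
    intro x
    obtain ⟨w, hw, y, z, hx⟩ := h1 N x
    rw [hY] at hx
    exact ⟨w, hw, z, by simpa using hx⟩
  have h3 : ∀ j, ∀ x : V, ∃ w ∈ W, ∃ z, x = w + (Z ^ j) z := by
    intro j
    induction j with
    | zero =>
      intro x
      exact ⟨0, W.zero_mem, x, by simp⟩
    | succ j ih =>
      intro x
      obtain ⟨w, hw, z, rfl⟩ := ih x
      obtain ⟨w', hw', z', rfl⟩ := h2 z
      refine ⟨w + (Z ^ j) w', W.add_mem hw (hpowZ j w' hw'), z', ?_⟩
      have e2 : (Z ^ j) (Z z') = (Z ^ (j + 1)) z' := by rw [pow_succ]; rfl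
      rw [map_add, e2]
      abel
  rw [eq_top_iff]
  intro x _
  obtain ⟨w, hw, z, hx⟩ := h3 N x
  rw [hZ] at hx
  have : x = w := by simpa using hx
  rw [this]
  exact hw

end gens

/-- **Second upper bound.** -/
theorem finrank_Cent_le {Y Z : Matrix κ κ k} (hYZ : Y * Z = Z * Y) {N : ℕ} (hY : Y ^ N = 0)
    (hZ : Z ^ N = 0) :
    finrank k (Cent Y Z) ≤ finrank k ((κ → k) ⧸
      (LinearMap.range (Matrix.toLin' Y) ⊔ LinearMap.range (Matrix.toLin' Z))) *
        Fintype.card κ := by
  obtain ⟨m, hm⟩ := exists_gens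
    (LinearMap.range (Matrix.toLin' Y) ⊔ LinearMap.range (Matrix.toLin' Z))
  let f : Cent Y Z →ₗ[k] (Fin (finrank k ((κ → k) ⧸
      (LinearMap.range (Matrix.toLin' Y) ⊔ LinearMap.range (Matrix.toLin' Z)))) → (κ → k)) :=
    { toFun := fun W i => W.1 *ᵥ m i
      map_add' := by
        intro W W'
        funext i
        show (W.1 + W'.1) *ᵥ m i = _
        rw [add_mulVec]
        rfl
      map_smul' := by
        intro t W
        funext i
        show (t • W.1) *ᵥ m i = _
        rw [smul_mulVec]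
        rfl }
  have hf : Function.Injective f := by
    rw [← LinearMap.ker_eq_bot, LinearMap.ker_eq_bot']
    intro W hW
    have hW' : ∀ i, W.1 *ᵥ m i = 0 := fun i => congrFun hW i
    have htop : LinearMap.ker (Matrix.toLin' W.1) = ⊤ := by
      apply top_of_sup (Y := Matrix.toLin' Y) (Z := Matrix.toLin' Z) (N := N)
      · rw [← Matrix.toLin'_mul, ← Matrix.toLin'_mul, hYZ]
      · rw [← Matrix.toLin'_pow, hY, map_zero]
      · rw [← Matrix.toLin'_pow, hZ, map_zero]
      · intro x hx
        rw [LinearMap.mem_ker] at hx ⊢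
        have hx' : W.1 *ᵥ x = 0 := hx
        show W.1 *ᵥ (Y *ᵥ x) = 0
        rw [mulVec_mulVec, W.2.1, ← mulVec_mulVec, hx', mulVec_zero]
      · intro x hx
        rw [LinearMap.mem_ker] at hx ⊢
        have hx' : W.1 *ᵥ x = 0 := hx
        show W.1 *ᵥ (Z *ᵥ x) = 0
        rw [mulVec_mulVec, W.2.2, ← mulVec_mulVec, hx', mulVec_zero]
      · rw [eq_top_iff, ← hm, sup_assoc]
        apply sup_le_sup_right
        rw [Submodule.span_le]
        rintro _ ⟨i, rfl⟩
        exact hW' i
    apply Subtype.ext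
    apply Matrix.ext_of_mulVec_single
    intro i
    have : (Pi.single i 1 : κ → k) ∈ LinearMap.ker (Matrix.toLin' W.1) := by rw [htop]; trivial
    have h2 : W.1 *ᵥ (Pi.single i 1 : κ → k) = 0 := this
    rw [h2]
    show 0 = (0 : Matrix κ κ k) *ᵥ _
    rw [zero_mulVec]
  have h1 := LinearMap.finrank_le_finrank_of_injective hf
  rw [Module.finrank_pi_fintype] at h1
  simpa using h1

end Pool.Agent.Hilb61
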