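import Mathlib

/-!
# A ball minus finitely many disjoint closed balls is connected
-/

set_option autoImplicit false

namespace Pool.Agent.Helper61.ObstConn

section general

variable {E : Type*} [NormedAddCommGroup E] [NormedSpace ℝ E]

/-- A spherical shell is connected in dimension at least two. -/
lemma isConnected_shell (hrank : 1 < Module.rank ℝ E) (p : E) {r r' : ℝ} (hr : 0 ≤ r)
    (hrr : r < r') : IsConnected {z : E | r < dist z p ∧ dist z p < r'} := by
  have h1 : IsConnected (Metric.sphere (0 : E) 1 ×ˢ Set.Ioo r r') :=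
    (isConnected_sphere hrank 0 zero_le_one).prod (isConnected_Ioo hrr)
  have h2 : Continuous fun y : E × ℝ => p + y.2 • y.1 :=
    continuous_const.add (continuous_snd.smul continuous_fst)
  have h3 := h1.image _ h2.continuousOn
  have h4 : (fun y : E × ℝ => p + y.2 • y.1) '' (Metric.sphere (0 : E) 1 ×ˢ Set.Ioo r r') =
      {z : E | r < dist z p ∧ dist z p < r'} := by
    ext z
    constructor
    · rintro ⟨⟨y, s⟩, ⟨hy, hs⟩, rfl⟩
      have hy' : ‖y‖ = 1 := by simpa using hy
      have hs0 : 0 ≤ s := hr.trans hs.1.le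
      have : dist (p + s • y) p = s := by
        rw [dist_eq_norm, add_sub_cancel_left, norm_smul, hy', mul_one, Real.norm_of_nonneg hs0]
      exact ⟨by simpa only [this] using hs.1, by simpa only [this] using hs.2⟩
    · rintro ⟨hz1, hz2⟩
      have hd : 0 < dist z p := hr.trans_lt hz1
      refine ⟨((dist z p)⁻¹ • (z - p), dist z p), ⟨?_, hz1, hz2⟩, ?_⟩
      · rw [mem_sphere_zero_iff_norm, norm_smul, Real.norm_of_nonneg (inv_nonneg.mpr hd.le),
          ← dist_eq_norm, inv_mul_cancel₀ hd.ne']
      · show p + dist z p • ((dist z p)⁻¹ • (z - p)) = z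
        rw [smul_smul, mul_inv_cancel₀ hd.ne', one_smul]
        abel
  rw [h4] at h3
  exact h3

/-- Removing a closed ball from a connected open set containing it leaves a connected set. -/
lemma isConnected_diff_closedBall [ProperSpace E] (hrank : 1 < Module.rank ℝ E) {U : Set E}
    (hU : IsOpen U) (hconn : IsConnected U) {p : E} {r : ℝ} (hr : 0 < r)
    (hp : Metric.closedBall p r ⊆ U) : IsConnected (U \ Metric.closedBall p r) := by
  -- a slightly larger ball
  obtain ⟨r', hrr, hr'⟩ : ∃ r' > r, Metric.ball p r' ⊆ U := by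
    obtain ⟨δ, hδ, h1⟩ := (isCompact_closedBall p r).exists_thickening_subset_open hU hp
    refine ⟨r + δ, by linarith, fun z hz => h1 ?_⟩
    rw [thickening_closedBall hδ hr.le, add_comm]
    exact hz
  have hshell := isConnected_shell hrank p hr.le hrr
  set T : Set E := {z : E | r < dist z p ∧ dist z p < r'} with hT
  have hTV : T ⊆ U \ Metric.closedBall p r := by
    rintro z ⟨hz1, hz2⟩
    exact ⟨hr' hz2, by rwa [Metric.mem_closedBall, not_le]⟩
  refine ⟨hshell.nonempty.mono hTV, ?_⟩
  have hV : IsOpen (U \ Metric.closedBall p r) := hU.sdiff Metric.isClosed_closedBall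
  have key : ∀ u v : Set E, IsOpen u → IsOpen v → U \ Metric.closedBall p r ⊆ u ∪ v →
      (U \ Metric.closedBall p r) ∩ (u ∩ v) = ∅ → T ⊆ u → U \ Metric.closedBall p r ⊆ u := by
    intro u v hu hv huv hempty hTu
    have h1 := (isPreconnected_iff_subset_of_disjoint.mp hconn.isPreconnected)
      ((u ∩ (U \ Metric.closedBall p r)) ∪ Metric.ball p r')
      (v ∩ (U \ Metric.closedBall p r)) ((hu.inter hV).union Metric.isOpen_ball)
      (hv.inter hV) ?_ ?_
    · rcases h1 with h1 | h1
      · intro z hz
        rcases h1 hz.1 with h2 | h2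
        · exact h2.1
        · refine hTu ⟨?_, h2⟩
          have := hz.2
          rwa [Metric.mem_closedBall, not_le] at this
      · exfalso
        have h2 := h1 (hp (Metric.mem_closedBall_self hr.le))
        exact h2.2.2 (Metric.mem_closedBall_self hr.le)
    · intro z hz
      by_cases hzb : z ∈ Metric.closedBall p r
      · left
        right
        rw [Metric.mem_closedBall] at hzb
        exact Metric.mem_ball.mpr (hzb.trans_lt hrr)
      · rcases huv ⟨hz, hzb⟩ with h2 | h2
        · exact Or.inl (Or.inl ⟨h2, hz, hzb⟩)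
        · exact Or.inr ⟨h2, hz, hzb⟩
    · rw [Set.eq_empty_iff_forall_notMem]
      rintro z ⟨_, h2, h3⟩
      have hzV : z ∈ U \ Metric.closedBall p r := h3.2
      have hzu : z ∈ u := by
        rcases h2 with h2 | h2
        · exact h2.1
        · refine hTu ⟨?_, h2⟩
          have := hzV.2
          rwa [Metric.mem_closedBall, not_le] at this
      have : z ∈ (U \ Metric.closedBall p r) ∩ (u ∩ v) := ⟨hzV, hzu, h3.1⟩
      rw [hempty] at this
      exact this
  rw [isPreconnected_iff_subset_of_disjoint]
  intro u v hu hv huv hempty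
  have h1 : T ∩ (u ∩ v) = ∅ :=
    Set.subset_eq_empty (Set.inter_subset_inter_left _ hTV) hempty
  rcases (isPreconnected_iff_subset_of_disjoint.mp hshell.isPreconnected) u v hu hv
    (hTV.trans huv) h1 with h2 | h2
  · exact Or.inl (key u v hu hv huv hempty h2)
  · refine Or.inr (key v u hv hu ?_ ?_ h2)
    · rwa [Set.union_comm]
    · rwa [Set.inter_comm v u]

/-- Removing finitely many pairwise disjoint closed balls from a connected open set. -/
theorem isConnected_diff_iUnion_closedBall [ProperSpace E] (hrank : 1 < Module.rank ℝ E)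
    {U : Set E} (hU : IsOpen U) (hconn : IsConnected U) (S : Finset E) (ρ : E → ℝ)
    (hρ : ∀ p ∈ S, 0 < ρ p) (hin : ∀ p ∈ S, Metric.closedBall p (ρ p) ⊆ U)
    (hdis : ∀ p ∈ S, ∀ q ∈ S, p ≠ q →
      Disjoint (Metric.closedBall p (ρ p)) (Metric.closedBall q (ρ q))) :
    IsConnected (U \ ⋃ p ∈ S, Metric.closedBall p (ρ p)) := by
  classical
  induction S using Finset.induction_on with
  | empty => simpa using hconn
  | insert a S ha ih =>
    have ih' := ih (fun p hp => hρ p (Finset.mem_insert_of_mem hp))
      (fun p hp => hin p (Finset.mem_insert_of_mem hp))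
      (fun p hp q hq => hdis p (Finset.mem_insert_of_mem hp) q (Finset.mem_insert_of_mem hq))
    have hcl : IsClosed (⋃ p ∈ S, Metric.closedBall p (ρ p)) :=
      S.finite_toSet.isClosed_biUnion fun p _ => Metric.isClosed_closedBall
    have h1 := isConnected_diff_closedBall hrank (hU.sdiff hcl) ih'
      (hρ a (Finset.mem_insert_self a S)) (p := a) ?_
    · rw [Finset.set_biUnion_insert, Set.union_comm, ← Set.sdiff_sdiff]
      exact h1
    · intro z hz
      refine ⟨hin a (Finset.mem_insert_self a S) hz, ?_⟩
      intro hz2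
      simp only [Set.mem_iUnion] at hz2
      obtain ⟨q, hq, hzq⟩ := hz2
      exact Set.disjoint_left.mp (hdis a (Finset.mem_insert_self a S) q
        (Finset.mem_insert_of_mem hq) (fun h => ha (h ▸ hq))) hz hzq

end general

theorem isConnected_diff_closedBalls {R : ℝ} (S : Finset (EuclideanSpace ℝ (Fin 3)))
    (ρ : EuclideanSpace ℝ (Fin 3) → ℝ) (hR : 0 < R) (hρ : ∀ p ∈ S, 0 < ρ p)
    (hin : ∀ p ∈ S, Metric.closedBall p (ρ p) ⊆ Metric.ball 0 R)
    (hdis : ∀ p ∈ S, ∀ q ∈ S, p ≠ q →
      Disjoint (Metric.closedBall p (ρ p)) (Metric.closedBall q (ρ q))) :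
    IsConnected (Metric.ball (0 : EuclideanSpace ℝ (Fin 3)) R \
      ⋃ p ∈ S, Metric.closedBall p (ρ p)) := by
  refine isConnected_diff_iUnion_closedBall ?_ Metric.isOpen_ball ?_ S ρ hρ hin hdis
  · rw [← Module.finrank_eq_rank]
    simp
  · exact ⟨⟨0, Metric.mem_ball_self hR⟩, (convex_ball _ _).isPreconnected⟩

end Pool.Agent.Helper61.ObstConn
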