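import Pool.Agent.Helper73.Obst.Barta

/-!
# Lower semicontinuity of the first Dirichlet eigenvalue under translation of a ball obstacle

The proof composes test functions with the diffeomorphism `z ↦ z + χ z • t`, where `χ` is a
smooth bump function equal to one near the obstacle.
-/

set_option autoImplicit false

namespace Pool.Agent.Helper61.ObstLsc

open MeasureTheory Pool.Agent.Helper73.Obst
open scoped ContDiff NNReal

lemma exists_isTest {U : Set E3} (hU : IsOpen U) (hne : U.Nonempty) :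
    ∃ φ : E3 → ℝ, IsTest U φ ∧ φ ≠ 0 := by
  obtain ⟨x, hx⟩ := hne
  obtain ⟨f, hf1, hf2, hf3, _, hf5⟩ :=
    exists_contDiff_tsupport_subset (n := ⊤) (hU.mem_nhds hx)
  refine ⟨f, ⟨hf3, hf2, hf1⟩, ?_⟩
  intro h
  rw [h] at hf5
  simp at hf5

lemma mass_pos {U : Set E3} {φ : E3 → ℝ} (h : IsTest U φ) (hne : φ ≠ 0) : 0 < mass φ := by
  obtain ⟨x, hx⟩ := Function.ne_iff.mp hne
  have hc : HasCompactSupport fun z => φ z ^ 2 :=
    h.2.1.comp_left (g := fun x : ℝ => x ^ 2) (by simp)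
  exact Continuous.integral_pos_of_hasCompactSupport_nonneg_nonzero (x := x)
    (h.continuous.pow 2) hc (fun z => sq_nonneg _) (pow_ne_zero 2 hx)

lemma energy_nonneg (φ : E3 → ℝ) : 0 ≤ energy φ :=
  integral_nonneg fun _ => by positivity

lemma bddBelow_quot (U : Set E3) :
    BddBelow {q : ℝ | ∃ φ : E3 → ℝ, IsTest U φ ∧ φ ≠ 0 ∧ q = energy φ / mass φ} := by
  refine ⟨0, ?_⟩
  rintro q ⟨φ, _, _, rfl⟩
  exact div_nonneg (energy_nonneg φ) (integral_nonneg fun _ => sq_nonneg _)

/-- A small Lipschitz perturbation of the identity is a homeomorphism. -/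
lemma exists_homeo {g : E3 → E3} {c : ℝ≥0} (hc : c < 1) (hg : LipschitzWith c g) :
    ∃ H : E3 ≃ₜ E3, ∀ z, H z = z + g z := by
  have h1 : ApproximatesLinearOn (fun z => z + g z)
      ((ContinuousLinearEquiv.refl ℝ E3 : E3 ≃L[ℝ] E3) : E3 →L[ℝ] E3) Set.univ c := by
    intro x _ y _
    have h2 : x + g x - (y + g y) -
        ((ContinuousLinearEquiv.refl ℝ E3 : E3 ≃L[ℝ] E3) : E3 →L[ℝ] E3) (x - y) = g x - g y := by
      simp only [ContinuousLinearEquiv.coe_refl, ContinuousLinearMap.coe_id', id_eq]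
      abel
    rw [h2]
    exact hg.norm_sub_le x y
  have h3 : Subsingleton E3 ∨ c <
      ‖((ContinuousLinearEquiv.refl ℝ E3).symm : E3 →L[ℝ] E3)‖₊⁻¹ := by
    right
    have h4 : ‖((ContinuousLinearEquiv.refl ℝ E3).symm : E3 →L[ℝ] E3)‖₊ = 1 := by
      rw [← NNReal.coe_inj]
      simp
    rw [h4, inv_one]
    exact hc
  exact ⟨h1.toHomeomorph _ h3, fun z => rfl⟩

/-- Determinants of operators close to the identity are close to one. -/
lemma exists_det_close {δ : ℝ} (hδ : 0 < δ) :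
    ∃ r > 0, ∀ A : E3 →L[ℝ] E3, ‖A‖ < r →
      |(ContinuousLinearMap.id ℝ E3 + A).det| ≤ 1 + δ ∧
      1 - δ ≤ |(ContinuousLinearMap.id ℝ E3 + A).det| := by
  have h1 : Continuous fun A : E3 →L[ℝ] E3 => |(ContinuousLinearMap.id ℝ E3 + A).det| :=
    (ContinuousLinearMap.continuous_det.comp (continuous_const.add continuous_id)).abs
  have h2 := Metric.continuous_iff.mp h1 0 δ hδ
  obtain ⟨r, hr, h3⟩ := h2
  refine ⟨r, hr, fun A hA => ?_⟩
  have h4 := h3 A (by rwa [dist_zero_right])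
  have h5 : |(ContinuousLinearMap.id ℝ E3 + (0 : E3 →L[ℝ] E3)).det| = 1 := by
    rw [add_zero]
    simp [ContinuousLinearMap.det]
  rw [h5, Real.dist_eq, abs_lt] at h4
  constructor <;> linarith [h4.1, h4.2]

/-- The transported test function. -/
lemma transport {Ω : Set E3} {x₀ t : E3} (h : Metric.closedBall x₀ (101/100) ⊆ Ω)
    (χ : ContDiffBump x₀) (hin : 1 ≤ χ.rIn) (hout : χ.rOut ≤ 101/100) {B δ : ℝ}
    (hB0 : 0 ≤ B) (hB : ∀ z, ‖fderiv ℝ χ z‖ ≤ B) (hδ0 : 0 < δ) (hδ : δ ≤ 1/2)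
    (hBt : B * ‖t‖ ≤ δ)
    (hdet : ∀ A : E3 →L[ℝ] E3, ‖A‖ ≤ B * ‖t‖ →
      |(ContinuousLinearMap.id ℝ E3 + A).det| ≤ 1 + δ ∧
      1 - δ ≤ |(ContinuousLinearMap.id ℝ E3 + A).det|)
    {φ : E3 → ℝ} (hφ : IsTest (Ω \ Metric.closedBall (x₀ + t) 1) φ) (hφ0 : φ ≠ 0) :
    ∃ ψ : E3 → ℝ, IsTest (Ω \ Metric.closedBall x₀ 1) ψ ∧ ψ ≠ 0 ∧
      (1 - δ) * energy ψ ≤ (1 + δ) ^ 2 * energy φ ∧ mass φ ≤ (1 + δ) * mass ψ := by
  have hχd : Differentiable ℝ χ := χ.contDiff.differentiable (n := 1) (by simp)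
  -- the map
  set g : E3 → E3 := fun z => χ z • t with hg
  have hglip : LipschitzWith (Real.toNNReal (B * ‖t‖)) g := by
    have h1 : LipschitzWith (Real.toNNReal B) χ := by
      apply lipschitzWith_of_nnnorm_fderiv_le hχd
      intro z
      rw [← NNReal.coe_le_coe, coe_nnnorm, Real.coe_toNNReal _ hB0]
      exact hB z
    refine LipschitzWith.of_dist_le_mul fun z w => ?_
    rw [dist_eq_norm, hg]
    simp only
    rw [← sub_smul, norm_smul, Real.coe_toNNReal _ (by positivity)]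
    have h2 := h1.dist_le_mul z w
    rw [Real.coe_toNNReal _ hB0, Real.dist_eq] at h2
    rw [Real.norm_eq_abs]
    calc |χ z - χ w| * ‖t‖ ≤ (B * dist z w) * ‖t‖ :=
          mul_le_mul_of_nonneg_right h2 (norm_nonneg _)
      _ = B * ‖t‖ * dist z w := by ring
  have hc1 : Real.toNNReal (B * ‖t‖) < 1 := by
    rw [Real.toNNReal_lt_one]
    linarith
  obtain ⟨H, hH⟩ := exists_homeo hc1 hglip
  -- derivative
  set A : E3 → E3 →L[ℝ] E3 := fun z => (fderiv ℝ χ z).smulRight t with hA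
  have hAn : ∀ z, ‖A z‖ ≤ B * ‖t‖ := by
    intro z
    rw [hA]
    simp only
    rw [ContinuousLinearMap.norm_smulRight_apply]
    exact mul_le_mul_of_nonneg_right (hB z) (norm_nonneg _)
  have hHd : ∀ z, HasFDerivAt H (ContinuousLinearMap.id ℝ E3 + A z) z := by
    intro z
    have h1 : HasFDerivAt (fun z => z + g z) (ContinuousLinearMap.id ℝ E3 + A z) z :=
      (hasFDerivAt_id z).add ((hχd z).hasFDerivAt.smul_const t)
    refine h1.congr_of_eventuallyEq (Filter.Eventually.of_forall fun w => ?_)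
    exact hH w
  have hHc : ContDiff ℝ ∞ H := by
    have h1 : ContDiff ℝ ∞ (fun z => z + g z) :=
      contDiff_id.add (χ.contDiff.smul contDiff_const)
    have h2 : (H : E3 → E3) = fun z => z + g z := funext hH
    rw [h2]
    exact h1
  -- change of variables
  have hcov : ∀ f : E3 → ℝ, ∫ z, f z = ∫ z, |(ContinuousLinearMap.id ℝ E3 + A z).det| * f (H z) := by
    intro f
    have h1 := integral_image_eq_integral_abs_det_fderiv_smul (volume : Measure E3)
      (s := Set.univ) (f := H) (f' := fun z => ContinuousLinearMap.id ℝ E3 + A z)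
      MeasurableSet.univ (fun z _ => (hHd z).hasFDerivWithinAt) H.injective.injOn f
    rw [Set.image_univ, H.surjective.range_eq, Measure.restrict_univ] at h1
    simpa [smul_eq_mul] using h1
  have hcont_det : Continuous fun z => |(ContinuousLinearMap.id ℝ E3 + A z).det| := by
    refine (ContinuousLinearMap.continuous_det.comp ?_).abs
    refine continuous_const.add ?_
    have h1 : Continuous (fderiv ℝ χ) := χ.contDiff.continuous_fderiv (n := 1) (by simp)
    have h2 : Continuous fun L : E3 →L[ℝ] ℝ => L.smulRight t :=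
      ((ContinuousLinearMap.smulRightL ℝ E3 E3).flip t).continuous
    exact h2.comp h1
  have hlow : ∀ f : E3 → ℝ, Continuous f → HasCompactSupport f → (∀ z, 0 ≤ f z) →
      (1 - δ) * ∫ z, f (H z) ≤ ∫ z, f z := by
    intro f hf hfc hf0
    rw [hcov f, ← integral_const_mul]
    have hfH : Continuous fun z => f (H z) := hf.comp H.continuous
    have hfHc : HasCompactSupport fun z => f (H z) := hfc.comp_homeomorph H
    refine integral_mono ?_ ?_ ?_
    · exact (hfH.integrable_of_hasCompactSupport hfHc).const_mul _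
    · exact (hcont_det.mul hfH).integrable_of_hasCompactSupport hfHc.mul_left
    · intro z
      exact mul_le_mul_of_nonneg_right (hdet _ (hAn z)).2 (hf0 _)
  have hupp : ∀ f : E3 → ℝ, Continuous f → HasCompactSupport f → (∀ z, 0 ≤ f z) →
      ∫ z, f z ≤ (1 + δ) * ∫ z, f (H z) := by
    intro f hf hfc hf0
    rw [hcov f, ← integral_const_mul]
    have hfH : Continuous fun z => f (H z) := hf.comp H.continuous
    have hfHc : HasCompactSupport fun z => f (H z) := hfc.comp_homeomorph H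
    refine integral_mono ?_ ?_ ?_
    · exact (hcont_det.mul hfH).integrable_of_hasCompactSupport hfHc.mul_left
    · exact (hfH.integrable_of_hasCompactSupport hfHc).const_mul _
    · intro z
      exact mul_le_mul_of_nonneg_right (hdet _ (hAn z)).1 (hf0 _)
  refine ⟨fun z => φ (H z), ⟨?_, ?_, ?_⟩, ?_, ?_, ?_⟩
  · exact hφ.contDiff.comp hHc
  · exact hφ.2.1.comp_homeomorph H
  · -- support
    have h1 : tsupport (fun z => φ (H z)) ⊆ H ⁻¹' (tsupport φ) := by
      refine closure_minimal ?_ ((isClosed_tsupport φ).preimage H.continuous)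
      intro z hz
      exact subset_tsupport φ hz
    intro z hz
    have h2 := hφ.2.2 (h1 hz)
    have hz1 : z ∉ Metric.closedBall x₀ 1 := by
      intro hz1
      apply h2.2
      have h3 : χ z = 1 := χ.one_of_mem_closedBall
        (Metric.closedBall_subset_closedBall hin hz1)
      rw [hH z, Metric.mem_closedBall, hg]
      simp only
      rw [h3, one_smul, dist_add_right]
      exact hz1
    refine ⟨?_, hz1⟩
    by_contra hzΩ
    have h3 : z ∉ Metric.closedBall x₀ (101/100) := fun hh => hzΩ (h hh)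
    have h4 : χ z = 0 := by
      apply χ.zero_of_le_dist
      rw [Metric.mem_closedBall, not_le] at h3
      linarith
    have h5 : H z = z := by
      rw [hH z, hg]
      simp only
      rw [h4, zero_smul, add_zero]
    rw [h5] at h2
    exact hzΩ h2.1
  · obtain ⟨y, hy⟩ := Function.ne_iff.mp hφ0
    intro hz
    apply hy
    have h1 := congrFun hz (H.symm y)
    simpa using h1
  · -- energy
    have hfc : Continuous fun z => ‖fderiv ℝ φ z‖ ^ 2 := (hφ.continuous_fderiv.norm).pow 2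
    have hfs : HasCompactSupport fun z => ‖fderiv ℝ φ z‖ ^ 2 :=
      ((hφ.2.1.fderiv (𝕜 := ℝ)).norm).comp_left (g := fun x : ℝ => x ^ 2) (by simp)
    have h1 := hlow (fun z => ‖fderiv ℝ φ z‖ ^ 2) hfc hfs (fun z => by positivity)
    have h2 : energy (fun z => φ (H z)) ≤ (1 + δ) ^ 2 * ∫ z, ‖fderiv ℝ φ (H z)‖ ^ 2 := by
      unfold energy
      rw [← integral_const_mul]
      refine integral_mono_of_nonneg (Filter.Eventually.of_forall fun z => by positivity) ?_ ?_
      · refine Integrable.const_mul ?_ _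
        exact (hfc.comp H.continuous).integrable_of_hasCompactSupport (hfs.comp_homeomorph H)
      · refine Filter.Eventually.of_forall fun z => ?_
        simp only
        have h3 : HasFDerivAt (fun z => φ (H z))
            ((fderiv ℝ φ (H z)).comp (ContinuousLinearMap.id ℝ E3 + A z)) z :=
          ((hφ.differentiable (H z)).hasFDerivAt).comp z (hHd z)
        rw [h3.fderiv, ← mul_pow]
        refine pow_le_pow_left₀ (norm_nonneg _) ?_ 2
        calc ‖(fderiv ℝ φ (H z)).comp (ContinuousLinearMap.id ℝ E3 + A z)‖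
            ≤ ‖fderiv ℝ φ (H z)‖ * ‖ContinuousLinearMap.id ℝ E3 + A z‖ :=
              ContinuousLinearMap.opNorm_comp_le _ _
          _ ≤ ‖fderiv ℝ φ (H z)‖ * (1 + δ) := by
              refine mul_le_mul_of_nonneg_left ?_ (norm_nonneg _)
              refine (norm_add_le _ _).trans (add_le_add ContinuousLinearMap.norm_id_le ?_)
              exact (hAn z).trans hBt
          _ = (1 + δ) * ‖fderiv ℝ φ (H z)‖ := mul_comm _ _
    calc (1 - δ) * energy (fun z => φ (H z))
        ≤ (1 - δ) * ((1 + δ) ^ 2 * ∫ z, ‖fderiv ℝ φ (H z)‖ ^ 2) :=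
          mul_le_mul_of_nonneg_left h2 (by linarith)
      _ = (1 + δ) ^ 2 * ((1 - δ) * ∫ z, ‖fderiv ℝ φ (H z)‖ ^ 2) := by ring
      _ ≤ (1 + δ) ^ 2 * energy φ := mul_le_mul_of_nonneg_left h1 (by positivity)
  · have hfc : Continuous fun z => φ z ^ 2 := hφ.continuous.pow 2
    have hfs : HasCompactSupport fun z => φ z ^ 2 :=
      hφ.2.1.comp_left (g := fun x : ℝ => x ^ 2) (by simp)
    exact hupp (fun z => φ z ^ 2) hfc hfs (fun z => sq_nonneg _)

/-- Multiplicative form of the lower semicontinuity. -/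
theorem lam1_lsc_mul {Ω : Set E3} (hΩ : IsOpen Ω) {x₀ : E3}
    (h : Metric.closedBall x₀ (101/100) ⊆ Ω) {η : ℝ} (hη : 0 < η) :
    ∃ τ > 0, ∀ x : E3, ‖x - x₀‖ < τ →
      lam1 (Ω \ Metric.closedBall x₀ 1) ≤ (1 + η) * lam1 (Ω \ Metric.closedBall x 1) := by
  set χ : ContDiffBump x₀ := ⟨1001/1000, 1005/1000, by norm_num, by norm_num⟩ with hχ
  obtain ⟨B, hB⟩ : ∃ B, ∀ z, ‖fderiv ℝ χ z‖ ≤ B := by
    have h1 : Continuous (fderiv ℝ χ) := χ.contDiff.continuous_fderiv (n := 1) (by simp)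
    exact h1.bounded_above_of_compact_support (χ.hasCompactSupport.fderiv (𝕜 := ℝ))
  have hB0 : 0 ≤ B := (norm_nonneg _).trans (hB 0)
  set δ : ℝ := min (1/2) (η / 12) with hδdef
  have hδ0 : 0 < δ := lt_min (by norm_num) (by positivity)
  have hδ1 : δ ≤ 1/2 := min_le_left _ _
  have hδ2 : δ ≤ η / 12 := min_le_right _ _
  obtain ⟨r, hr, hdet⟩ := exists_det_close hδ0
  refine ⟨min (min δ (r / 2) / (B + 1)) (1/1000), lt_min (div_pos (lt_min hδ0 (by positivity))
    (by positivity)) (by norm_num), fun x hx => ?_⟩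
  have hx1 : ‖x - x₀‖ * (B + 1) < min δ (r / 2) := by
    rw [← lt_div_iff₀ (by positivity)]
    exact hx.trans_le (min_le_left _ _)
  have hx2 : ‖x - x₀‖ < 1/1000 := hx.trans_le (min_le_right _ _)
  have hx3 : B * ‖x - x₀‖ ≤ ‖x - x₀‖ * (B + 1) := by nlinarith [norm_nonneg (x - x₀)]
  have hxδ : B * ‖x - x₀‖ ≤ δ := (hx3.trans hx1.le).trans (min_le_left _ _)
  have hxr : B * ‖x - x₀‖ < r :=
    (hx3.trans_lt hx1).trans_le ((min_le_right _ _).trans (by linarith))
  have hxt : x₀ + (x - x₀) = x := by abel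
  -- the domain is nonempty
  have hne : (Ω \ Metric.closedBall x 1).Nonempty := by
    obtain ⟨v, hv⟩ : ∃ v : E3, ‖v‖ = 1 := ⟨EuclideanSpace.single 0 1, by simp⟩
    refine ⟨x₀ + (101/100 : ℝ) • v, h ?_, ?_⟩
    · rw [Metric.mem_closedBall, dist_eq_norm]
      rw [add_sub_cancel_left, norm_smul, hv]
      norm_num
    · rw [Metric.mem_closedBall, dist_eq_norm, not_le]
      have h1 : (101/100 : ℝ) = ‖(101/100 : ℝ) • v‖ := by
        rw [norm_smul, hv]
        norm_num
      have h2 : (101/100 : ℝ) • v = (x₀ + (101/100 : ℝ) • v - x) + (x - x₀) := by abel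
      have h3 := norm_add_le (x₀ + (101/100 : ℝ) • v - x) (x - x₀)
      rw [← h2, ← h1] at h3
      linarith
  have hopen : IsOpen (Ω \ Metric.closedBall x 1) := hΩ.sdiff Metric.isClosed_closedBall
  -- conclude
  have key : ∀ q ∈ {q : ℝ | ∃ φ : E3 → ℝ, IsTest (Ω \ Metric.closedBall x 1) φ ∧ φ ≠ 0 ∧
      q = energy φ / mass φ}, lam1 (Ω \ Metric.closedBall x₀ 1) / (1 + η) ≤ q := by
    rintro q ⟨φ, hφ, hφ0, rfl⟩
    rw [← hxt] at hφ
    obtain ⟨ψ, hψ, hψ0, hE, hM⟩ := transport (t := x - x₀) h χ (by rw [hχ]; norm_num)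
      (by rw [hχ]; norm_num) hB0 hB hδ0 hδ1 hxδ
      (fun A hA => hdet A (hA.trans_lt hxr)) hφ hφ0
    have hMφ := mass_pos hφ hφ0
    have hMψ := mass_pos hψ hψ0
    have hEφ := energy_nonneg φ
    have hEψ := energy_nonneg ψ
    have h1 : lam1 (Ω \ Metric.closedBall x₀ 1) ≤ energy ψ / mass ψ :=
      csInf_le (bddBelow_quot _) ⟨ψ, hψ, hψ0, rfl⟩
    rw [div_le_iff₀ (by positivity)]
    refine h1.trans ?_
    rw [div_le_iff₀ hMψ]
    have h2 : energy ψ ≤ (1 + η) / (1 + δ) * energy φ := by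
      rw [div_mul_eq_mul_div, le_div_iff₀ (by positivity)]
      have h3 : (1 + δ) ^ 3 ≤ (1 + η) * (1 - δ) := by nlinarith [sq_nonneg δ, mul_pos hδ0 hδ0]
      have h4 : (1 - δ) * (energy ψ * (1 + δ)) ≤ (1 - δ) * ((1 + η) * energy φ) := by
        calc (1 - δ) * (energy ψ * (1 + δ)) = (1 + δ) * ((1 - δ) * energy ψ) := by ring
          _ ≤ (1 + δ) * ((1 + δ) ^ 2 * energy φ) := mul_le_mul_of_nonneg_left hE (by positivity)
          _ = (1 + δ) ^ 3 * energy φ := by ring
          _ ≤ (1 + η) * (1 - δ) * energy φ := mul_le_mul_of_nonneg_right h3 hEφ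
          _ = (1 - δ) * ((1 + η) * energy φ) := by ring
      exact le_of_mul_le_mul_left h4 (by linarith)
    calc energy ψ ≤ (1 + η) / (1 + δ) * energy φ := h2
      _ = energy φ / mass φ * (1 + η) * (mass φ / (1 + δ)) := by
          field_simp
      _ ≤ energy φ / mass φ * (1 + η) * mass ψ := by
          refine mul_le_mul_of_nonneg_left ?_ (by positivity)
          rw [div_le_iff₀ (by positivity)]
          linarith
  obtain ⟨φ, hφ, hφ0⟩ := exists_isTest hopen hne
  have hn : {q : ℝ | ∃ φ : E3 → ℝ, IsTest (Ω \ Metric.closedBall x 1) φ ∧ φ ≠ 0 ∧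
      q = energy φ / mass φ}.Nonempty := ⟨energy φ / mass φ, φ, hφ, hφ0, rfl⟩
  have h1 := le_csInf hn key
  rw [div_le_iff₀ (by positivity)] at h1
  unfold lam1 at h1 ⊢
  linarith

theorem lam1_lsc {Ω : Set E3} (hΩ : IsOpen Ω) {x₀ : E3}
    (h : Metric.closedBall x₀ (101/100) ⊆ Ω) :
    ∀ ε > 0, ∃ τ > 0, ∀ x : E3, ‖x - x₀‖ < τ →
      lam1 (Ω \ Metric.closedBall x₀ 1) ≤ lam1 (Ω \ Metric.closedBall x 1) + ε := by
  intro ε hε
  set L : ℝ := lam1 (Ω \ Metric.closedBall x₀ 1) with hL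
  have hL0 : 0 ≤ L := by
    refine Real.sInf_nonneg ?_
    rintro q ⟨φ, _, _, rfl⟩
    exact div_nonneg (energy_nonneg φ) (integral_nonneg fun _ => sq_nonneg _)
  obtain ⟨τ, hτ, h1⟩ := lam1_lsc_mul hΩ h (η := ε / (L + 1)) (by positivity)
  refine ⟨τ, hτ, fun x hx => ?_⟩
  have h2 := h1 x hx
  rw [← hL] at h2
  by_cases h3 : L ≤ lam1 (Ω \ Metric.closedBall x 1)
  · linarith
  · push Not at h3
    have h4 : ε / (L + 1) * lam1 (Ω \ Metric.closedBall x 1) ≤ ε := by
      calc ε / (L + 1) * lam1 (Ω \ Metric.closedBall x 1) ≤ ε / (L + 1) * (L + 1) :=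
            mul_le_mul_of_nonneg_left (by linarith) (by positivity)
        _ = ε := by field_simp
    linarith

end Pool.Agent.Helper61.ObstLsc
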