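import Mathlib

/-!
# Characters separate the points of a compact abelian group
-/

set_option autoImplicit false

namespace Pool.Agent.Helper61.PeterWeyl

open MeasureTheory MeasureTheory.Measure TopologicalSpace
open scoped ENNReal InnerProductSpace BoundedContinuousFunction

section kernel

variable {X : Type*} [TopologicalSpace X] [CompactSpace X]
variable {E : Type*} [NormedAddCommGroup E] [InnerProductSpace ℂ E]

/-- The kernel operator attached to a continuous family of vectors. -/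
noncomputable def kernelOp (k : C(X, E)) : E →L[ℂ] (X →ᵇ ℂ) :=
  LinearMap.mkContinuous
    { toFun := fun f => BoundedContinuousFunction.mkOfCompact
        ⟨fun x => ⟪k x, f⟫_ℂ, k.continuous.inner continuous_const⟩
      map_add' := by
        intro f g
        ext x
        simp
      map_smul' := by
        intro c f
        ext x
        simp } ‖k‖ (by
      intro f
      refine (BoundedContinuousFunction.norm_le (by positivity)).2 ?_
      intro x
      refine (norm_inner_le_norm _ _).trans ?_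
      exact mul_le_mul_of_nonneg_right (k.norm_coe_le_norm x) (norm_nonneg _))

lemma kernelOp_apply (k : C(X, E)) (f : E) (x : X) : kernelOp k f x = ⟪k x, f⟫_ℂ := rfl

lemma isCompactOperator_kernelOp (k : C(X, E)) : IsCompactOperator (kernelOp k) := by
  have h := isCompactOperator_iff_isCompact_closure_image_closedBall
    ((kernelOp k : E →L[ℂ] (X →ᵇ ℂ)) : E →ₗ[ℂ] (X →ᵇ ℂ)) (r := 1) one_pos
  refine h.2 ?_
  refine BoundedContinuousFunction.arzela_ascoli (Metric.closedBall 0 ‖k‖)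
    (isCompact_closedBall _ _) _ ?_ ?_
  · rintro _ x ⟨f, hf, rfl⟩
    rw [mem_closedBall_zero_iff] at hf ⊢
    show ‖⟪k x, f⟫_ℂ‖ ≤ ‖k‖
    refine (norm_inner_le_norm _ _).trans ?_
    calc ‖k x‖ * ‖f‖ ≤ ‖k‖ * 1 :=
          mul_le_mul (k.norm_coe_le_norm x) hf (norm_nonneg _) (norm_nonneg _)
      _ = ‖k‖ := mul_one _
  · intro x₀
    rw [Metric.equicontinuousAt_iff_pair]
    intro ε hε
    have h1 : ∀ᶠ x in nhds x₀, dist (k x) (k x₀) < ε / 2 :=
      (k.continuous.tendsto x₀).eventually (Metric.ball_mem_nhds _ (by positivity))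
    refine ⟨_, h1, ?_⟩
    rintro x hx y hy ⟨_, ⟨f, hf, rfl⟩⟩
    rw [mem_closedBall_zero_iff] at hf
    show dist (⟪k x, f⟫_ℂ) (⟪k y, f⟫_ℂ) < ε
    rw [dist_eq_norm, ← inner_sub_left]
    refine (norm_inner_le_norm _ _).trans_lt ?_
    have h2 : dist (k x) (k y) < ε := by
      have h3 : dist (k x) (k x₀) < ε / 2 := hx
      have h4 : dist (k y) (k x₀) < ε / 2 := hy
      have h5 := dist_triangle_right (k x) (k y) (k x₀)
      linarith
    rw [dist_eq_norm] at h2
    calc ‖k x - k y‖ * ‖f‖ ≤ ‖k x - k y‖ * 1 := mul_le_mul_of_nonneg_left hf (norm_nonneg _)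
      _ < ε := by linarith

end kernel

section common

variable {E : Type*} [NormedAddCommGroup E] [InnerProductSpace ℂ E] {G : Type*}

/-- A commuting family of operators has a common eigenvector in every nonzero finite-dimensional
invariant subspace. -/
lemma exists_common_eigenvector (U : G → E →ₗ[ℂ] E) (hU : ∀ g h v, U g (U h v) = U h (U g v))
    (n : ℕ) : ∀ V : Submodule ℂ E, FiniteDimensional ℂ V → Module.finrank ℂ V = n → V ≠ ⊥ →
      (∀ g, ∀ v ∈ V, U g v ∈ V) → ∃ v ∈ V, v ≠ 0 ∧ ∀ g, ∃ c : ℂ, U g v = c • v := by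
  induction n using Nat.strong_induction_on with
  | _ n ih =>
    intro V hfd hn hV hinv
    by_cases hsc : ∀ g, ∃ c : ℂ, ∀ v ∈ V, U g v = c • v
    · obtain ⟨v, hv, hv0⟩ := (Submodule.ne_bot_iff V).1 hV
      exact ⟨v, hv, hv0, fun g => (hsc g).imp fun c hc => hc v hv⟩
    · push Not at hsc
      obtain ⟨g, hg⟩ := hsc
      have : Nontrivial V := (Submodule.nontrivial_iff_ne_bot).2 hV
      obtain ⟨c, hc⟩ := Module.End.exists_eigenvalue ((U g).restrict (hinv g))
      obtain ⟨w, hw⟩ := hc.exists_hasEigenvector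
      obtain ⟨v, hv, hvc⟩ := hg c
      set W : Submodule ℂ E := V ⊓ LinearMap.ker (U g - c • LinearMap.id) with hW
      have hmem : ∀ x, x ∈ W ↔ x ∈ V ∧ U g x = c • x := by
        intro x
        rw [hW, Submodule.mem_inf, LinearMap.mem_ker]
        simp [sub_eq_zero]
      have hlt : W < V := by
        refine lt_of_le_of_ne inf_le_left ?_
        intro h
        rw [← h] at hv
        exact hvc ((hmem v).1 hv).2
      have hWfd : FiniteDimensional ℂ W := Submodule.finiteDimensional_of_le hlt.le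
      have hWne : W ≠ ⊥ := by
        rw [Submodule.ne_bot_iff]
        refine ⟨(w : E), (hmem _).2 ⟨w.2, ?_⟩, ?_⟩
        · have h1 := hw.apply_eq_smul
          have h2 := congrArg (Subtype.val) h1
          simpa using h2
        · intro h
          exact hw.2 (Subtype.ext h)
      have hWinv : ∀ h, ∀ x ∈ W, U h x ∈ W := by
        intro h x hx
        rw [hmem] at hx ⊢
        refine ⟨hinv h x hx.1, ?_⟩
        rw [hU, hx.2, map_smul]
      obtain ⟨x, hx, hx0, hx1⟩ := ih (Module.finrank ℂ W)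
        (by rw [← hn]; exact Submodule.finrank_lt_finrank_of_lt hlt) W hWfd rfl hWne hWinv
      exact ⟨x, hlt.le hx, hx0, hx1⟩

end common

section abstract

variable {E : Type*} [NormedAddCommGroup E] [InnerProductSpace ℂ E] [CompleteSpace E]
variable {F : Type*} [NormedAddCommGroup F] [InnerProductSpace ℂ F] [CompleteSpace F]
variable {G : Type*} [CommGroup G]

/-- Abstract step: a commuting unitary representation, intertwined with a compact operator `S`
such that `S` separates `f` and `U h₀ f`, has a common eigenvector on which `h₀` acts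
nontrivially. -/
lemma exists_eigenvector (U : G → E →ₗᵢ[ℂ] E) (hU1 : ∀ v, U 1 v = v)
    (hU : ∀ g h v, U (g * h) v = U g (U h v)) (S : E →L[ℂ] E) (hS : IsCompactOperator S)
    (hSU : ∀ g v, S (U g v) = U g (S v)) (h₀ : G) (f : E) (hf : S (U h₀ f) ≠ S f) :
    ∃ v : E, v ≠ 0 ∧ (∀ g, ∃ c : ℂ, U g v = c • v) ∧ U h₀ v ≠ v := by
  have hcomm : ∀ g h v, U g (U h v) = U h (U g v) := by
    intro g h v
    rw [← hU, ← hU, mul_comm]
  have hinvl : ∀ g v, U g (U g⁻¹ v) = v := by
    intro g v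
    rw [← hU, mul_inv_cancel, hU1]
  have hinvr : ∀ g v, U g⁻¹ (U g v) = v := by
    intro g v
    rw [← hU, inv_mul_cancel, hU1]
  have hadj : ∀ g v w, ⟪U g v, w⟫_ℂ = ⟪v, U g⁻¹ w⟫_ℂ := by
    intro g v w
    rw [← (U g).inner_map_map v (U g⁻¹ w), hinvl]
  set T : E →L[ℂ] E := (ContinuousLinearMap.adjoint S).comp S with hT
  have hTc : IsCompactOperator T := hS.clm_comp (ContinuousLinearMap.adjoint S)
  have hTs : T.IsSymmetric := by
    intro x y
    show ⟪ContinuousLinearMap.adjoint S (S x), y⟫_ℂ = ⟪x, ContinuousLinearMap.adjoint S (S y)⟫_ℂ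
    rw [ContinuousLinearMap.adjoint_inner_left, ContinuousLinearMap.adjoint_inner_right]
  have hSU' : ∀ g v, ContinuousLinearMap.adjoint S (U g v) =
      U g (ContinuousLinearMap.adjoint S v) := by
    intro g v
    refine ext_inner_right ℂ fun w => ?_
    rw [ContinuousLinearMap.adjoint_inner_left, hadj, hadj,
      ContinuousLinearMap.adjoint_inner_left, hSU]
  have hTU : ∀ g v, T (U g v) = U g (T v) := by
    intro g v
    show ContinuousLinearMap.adjoint S (S (U g v)) = U g (ContinuousLinearMap.adjoint S (S v))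
    rw [hSU, hSU']
  -- some eigenvector is moved by `h₀`
  have hex : ∃ μ : ℂ, μ ≠ 0 ∧ ∃ v ∈ Module.End.eigenspace (T : Module.End ℂ E) μ, U h₀ v ≠ v := by
    by_contra hcon
    push Not at hcon
    have h1 := ContinuousLinearMap.orthogonalComplement_iSup_eigenspaces_eq_bot hTc hTs
    have h2 : ∀ v ∈ (⨆ μ, Module.End.eigenspace (T : Module.End ℂ E) μ), T (U h₀ v) = T v := by
      intro v hv
      refine Submodule.iSup_induction _ (motive := fun v => T (U h₀ v) = T v) hv ?_ ?_ ?_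
      · intro μ x hx
        by_cases hμ : μ = 0
        · rw [hμ, Module.End.mem_eigenspace_iff, zero_smul] at hx
          have hx' : T x = 0 := hx
          rw [hTU, hx', map_zero]
        · rw [hcon μ hμ x hx]
      · simp
      · intro x y hx hy
        rw [map_add, map_add, map_add, hx, hy]
    have h3 : Dense ((⨆ μ, Module.End.eigenspace (T : Module.End ℂ E) μ : Submodule ℂ E) :
        Set E) := by
      rw [Submodule.dense_iff_topologicalClosure_eq_top]
      exact (Submodule.topologicalClosure_eq_top_iff).2 h1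
    have h4 : (fun v => T (U h₀ v)) = fun v => T v := by
      refine Continuous.ext_on h3 (T.continuous.comp (U h₀).continuous) T.continuous ?_
      intro v hv
      exact h2 v hv
    have h5 : T (U h₀ f - f) = 0 := by
      rw [map_sub, sub_eq_zero]
      exact congrFun h4 f
    have h6 : S (U h₀ f - f) = 0 := by
      have h7 : ⟪ContinuousLinearMap.adjoint S (S (U h₀ f - f)), U h₀ f - f⟫_ℂ = 0 := by
        have h8 : ContinuousLinearMap.adjoint S (S (U h₀ f - f)) = 0 := h5
        rw [h8, inner_zero_left]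
      rw [ContinuousLinearMap.adjoint_inner_left] at h7
      exact inner_self_eq_zero.1 h7
    rw [map_sub, sub_eq_zero] at h6
    exact hf h6
  obtain ⟨μ, hμ, v, hv, hvne⟩ := hex
  set A : Submodule ℂ E := LinearMap.ker ((U h₀).toLinearMap - LinearMap.id) with hA
  have hAmem : ∀ x, x ∈ A ↔ U h₀ x = x := by
    intro x
    rw [hA, LinearMap.mem_ker]
    simp [sub_eq_zero]
  set V : Submodule ℂ E := Module.End.eigenspace (T : Module.End ℂ E) μ ⊓ Aᗮ with hV
  have hfd : FiniteDimensional ℂ (Module.End.eigenspace (T : Module.End ℂ E) μ) :=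
    ContinuousLinearMap.finite_dimensional_eigenspace hTc μ hμ
  have hVfd : FiniteDimensional ℂ V := Submodule.finiteDimensional_of_le inf_le_left
  have hTinv : ∀ g, ∀ x ∈ Module.End.eigenspace (T : Module.End ℂ E) μ,
      U g x ∈ Module.End.eigenspace (T : Module.End ℂ E) μ := by
    intro g x hx
    rw [Module.End.mem_eigenspace_iff] at hx ⊢
    have hx' : T x = μ • x := hx
    show T (U g x) = μ • U g x
    rw [hTU, hx', map_smul]
  have hAinv : ∀ g, ∀ x ∈ Aᗮ, U g x ∈ Aᗮ := by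
    intro g x hx
    rw [Submodule.mem_orthogonal] at hx ⊢
    intro u hu
    have h1 : ⟪u, U g x⟫_ℂ = ⟪U g⁻¹ u, x⟫_ℂ := by
      rw [hadj, inv_inv]
    rw [h1]
    apply hx
    rw [hAmem] at hu ⊢
    rw [hcomm, hu]
  have hVne : V ≠ ⊥ := by
    rw [Submodule.ne_bot_iff]
    refine ⟨U h₀ v - v, ⟨?_, ?_⟩, sub_ne_zero.2 hvne⟩
    · exact Submodule.sub_mem _ (hTinv h₀ v hv) hv
    · show U h₀ v - v ∈ Aᗮ
      rw [Submodule.mem_orthogonal]
      intro u hu
      rw [hAmem] at hu
      have h1 : ⟪u, U h₀ v⟫_ℂ = ⟪u, v⟫_ℂ := by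
        conv_lhs => rw [← hu]
        exact (U h₀).inner_map_map u v
      rw [inner_sub_right, h1, sub_self]
  obtain ⟨w, hw, hw0, hwc⟩ := exists_common_eigenvector (fun g => (U g).toLinearMap)
    hcomm _ V hVfd rfl hVne (fun g x hx => ⟨hTinv g x hx.1, hAinv g x hx.2⟩)
  refine ⟨w, hw0, hwc, ?_⟩
  intro h
  have h1 : w ∈ A := (hAmem w).2 h
  have h2 : ⟪w, w⟫_ℂ = 0 := (Submodule.mem_orthogonal A w).1 hw.2 w h1
  exact hw0 (inner_self_eq_zero.1 h2)

omit [CompleteSpace E] in
/-- The character attached to a common eigenvector. -/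
lemma exists_char [TopologicalSpace G] (U : G → E →ₗᵢ[ℂ] E) (hU1 : ∀ v, U 1 v = v)
    (hU : ∀ g h v, U (g * h) v = U g (U h v)) (hc : ∀ v, Continuous fun g => U g v)
    (h₀ : G) (v : E) (hv : v ≠ 0) (hev : ∀ g, ∃ c : ℂ, U g v = c • v) (hne : U h₀ v ≠ v) :
    ∃ χ : G →* Circle, Continuous χ ∧ χ h₀ ≠ 1 := by
  choose c hcv using hev
  have hvn : ‖v‖ ≠ 0 := norm_ne_zero_iff.2 hv
  have hcn : ∀ g, ‖c g‖ = 1 := by
    intro g
    have h1 : ‖U g v‖ = ‖v‖ := (U g).norm_map v
    rw [hcv, norm_smul] at h1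
    exact mul_right_cancel₀ hvn (by rw [h1, one_mul])
  have hinj : ∀ a b : ℂ, a • v = b • v → a = b := fun a b h => smul_left_injective ℂ hv h
  have hc1 : c 1 = 1 := hinj _ _ (by rw [← hcv, hU1, one_smul])
  have hcm : ∀ g h, c (g * h) = c g * c h := by
    intro g h
    apply hinj
    rw [← hcv, hU, hcv h, map_smul, hcv g, smul_smul, mul_comm]
  have hcc : Continuous c := by
    have h1 : c = fun g => ⟪v, U g v⟫_ℂ / ⟪v, v⟫_ℂ := by
      funext g
      rw [hcv, inner_smul_right]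
      have : ⟪v, v⟫_ℂ ≠ 0 := fun h => hv (inner_self_eq_zero.1 h)
      field_simp
    rw [h1]
    exact (continuous_const.inner (hc v)).div_const _
  refine ⟨{ toFun := fun g => ⟨c g, mem_sphere_zero_iff_norm.2 (hcn g)⟩
            map_one' := Subtype.ext hc1
            map_mul' := fun g h => Subtype.ext (hcm g h) }, ?_, ?_⟩
  · exact Continuous.subtype_mk hcc _
  · intro h
    have h1 : c h₀ = 1 := congrArg Subtype.val h
    apply hne
    rw [hcv, h1, one_smul]

end abstract

section haar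

variable {H : Type*} [CommGroup H] [TopologicalSpace H] [IsTopologicalGroup H]
  [CompactSpace H] [T2Space H] [MeasurableSpace H] [BorelSpace H]
  (ν : Measure H) [IsFiniteMeasure ν] [IsMulLeftInvariant ν] [IsOpenPosMeasure ν]
  [InnerRegularCompactLTTop ν]

instance factTwoNeTop : Fact ((2 : ℝ≥0∞) ≠ ∞) := ⟨ENNReal.ofNat_ne_top⟩

omit [CompactSpace H] [T2Space H] [IsFiniteMeasure ν] [IsOpenPosMeasure ν]
  [InnerRegularCompactLTTop ν] in
lemma mp (g : H) : MeasurePreserving (fun y : H => g * y) ν ν := measurePreserving_mul_left ν g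

/-- The regular representation. -/
noncomputable def reg (g : H) : Lp ℂ 2 ν →ₗᵢ[ℂ] Lp ℂ 2 ν :=
  Lp.compMeasurePreservingₗᵢ ℂ _ (mp ν g)

omit [CompactSpace H] [T2Space H] [IsFiniteMeasure ν] [IsOpenPosMeasure ν]
  [InnerRegularCompactLTTop ν] in
lemma reg_ae (g : H) (f : Lp ℂ 2 ν) : (reg ν g f : H → ℂ) =ᵐ[ν] fun y => f (g * y) :=
  Lp.coeFn_compMeasurePreserving f (mp ν g)

omit [CompactSpace H] [T2Space H] [IsFiniteMeasure ν] [IsOpenPosMeasure ν]
  [InnerRegularCompactLTTop ν] in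
lemma reg_eq_smul (g : H) (f : Lp ℂ 2 ν) : reg ν g f = DomMulAct.mk g • f := rfl

omit [CompactSpace H] [T2Space H] [IsFiniteMeasure ν] [IsOpenPosMeasure ν]
  [InnerRegularCompactLTTop ν] in
lemma reg_one (f : Lp ℂ 2 ν) : reg ν 1 f = f := by
  rw [reg_eq_smul, DomMulAct.mk_one, one_smul]

omit [CompactSpace H] [T2Space H] [IsFiniteMeasure ν] [IsOpenPosMeasure ν]
  [InnerRegularCompactLTTop ν] in
lemma reg_mul (g h : H) (f : Lp ℂ 2 ν) : reg ν (g * h) f = reg ν g (reg ν h f) := by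
  rw [reg_eq_smul, reg_eq_smul, reg_eq_smul, smul_smul, mul_comm g h, DomMulAct.mk_mul]

omit [CompactSpace H] [T2Space H] [IsOpenPosMeasure ν] in
lemma reg_continuous (f : Lp ℂ 2 ν) : Continuous fun g => reg ν g f := by
  have h1 : Continuous fun g : H => DomMulAct.mk g • f :=
    (DomMulAct.continuous_mk).smul continuous_const
  exact h1

omit [CompactSpace H] [T2Space H] [IsFiniteMeasure ν] [IsOpenPosMeasure ν]
  [InnerRegularCompactLTTop ν] in
lemma reg_adj (g : H) (v w : Lp ℂ 2 ν) : ⟪reg ν g v, w⟫_ℂ = ⟪v, reg ν g⁻¹ w⟫_ℂ := by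
  rw [← (reg ν g).inner_map_map v (reg ν g⁻¹ w), ← reg_mul, mul_inv_cancel, reg_one]

/-- The kernel as a continuous map into continuous functions. -/
noncomputable def kerW (w : C(H, ℝ)) : C(H, C(H, ℂ)) := ContinuousMap.curry
  ⟨fun z : H × H => ((w (z.1 * z.2⁻¹) : ℝ) : ℂ),
    Complex.continuous_ofReal.comp (w.continuous.comp (continuous_fst.mul continuous_snd.inv))⟩

omit [CompactSpace H] [T2Space H] [MeasurableSpace H] [BorelSpace H] in
lemma kerW_apply (w : C(H, ℝ)) (x y : H) : kerW w x y = ((w (x * y⁻¹) : ℝ) : ℂ) := rfl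

/-- The kernel as a continuous map into `L²`. -/
noncomputable def kerk (w : C(H, ℝ)) : C(H, Lp ℂ 2 ν) :=
  ⟨fun x => ContinuousMap.toLp 2 ν ℂ (kerW w x),
    (ContinuousMap.toLp 2 ν ℂ).continuous.comp (kerW w).continuous⟩

omit [T2Space H] [IsMulLeftInvariant ν] [IsOpenPosMeasure ν] [InnerRegularCompactLTTop ν] in
lemma kerk_apply (w : C(H, ℝ)) (x : H) : kerk ν w x = ContinuousMap.toLp 2 ν ℂ (kerW w x) := rfl

omit [T2Space H] [IsMulLeftInvariant ν] [IsOpenPosMeasure ν] [InnerRegularCompactLTTop ν] in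
lemma kerk_ae (w : C(H, ℝ)) (x : H) : (kerk ν w x : H → ℂ) =ᵐ[ν] kerW w x :=
  ContinuousMap.coeFn_toLp ν (kerW w x)

omit [T2Space H] [IsOpenPosMeasure ν] [InnerRegularCompactLTTop ν] in
lemma reg_kerk (w : C(H, ℝ)) (g x : H) : reg ν g (kerk ν w x) = kerk ν w (x * g⁻¹) := by
  apply Lp.ext
  have h1 := reg_ae ν g (kerk ν w x)
  have h3 := kerk_ae ν w (x * g⁻¹)
  have h4 : (fun y => (kerk ν w x : H → ℂ) (g * y)) =ᵐ[ν] fun y => kerW w x (g * y) :=
    (mp ν g).quasiMeasurePreserving.ae_eq_comp (kerk_ae ν w x)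
  filter_upwards [h1, h3, h4] with y h1 h3 h4
  rw [h1, h3, h4, kerW_apply, kerW_apply]
  congr 2
  rw [mul_inv, mul_assoc]

/-- The integral operator. -/
noncomputable def opS (w : C(H, ℝ)) : Lp ℂ 2 ν →L[ℂ] Lp ℂ 2 ν :=
  (BoundedContinuousFunction.toLp 2 ν ℂ).comp (kernelOp (kerk ν w))

omit [T2Space H] [IsMulLeftInvariant ν] [IsOpenPosMeasure ν] [InnerRegularCompactLTTop ν] in
lemma opS_compact (w : C(H, ℝ)) : IsCompactOperator (opS ν w) :=
  (isCompactOperator_kernelOp (kerk ν w)).clm_comp (BoundedContinuousFunction.toLp 2 ν ℂ)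

omit [T2Space H] [IsMulLeftInvariant ν] [IsOpenPosMeasure ν] [InnerRegularCompactLTTop ν] in
lemma opS_ae (w : C(H, ℝ)) (f : Lp ℂ 2 ν) :
    (opS ν w f : H → ℂ) =ᵐ[ν] fun x => ⟪kerk ν w x, f⟫_ℂ :=
  BoundedContinuousFunction.coeFn_toLp 2 ν ℂ (kernelOp (kerk ν w) f)

omit [T2Space H] [IsOpenPosMeasure ν] [InnerRegularCompactLTTop ν] in
lemma opS_reg (w : C(H, ℝ)) (g : H) (v : Lp ℂ 2 ν) :
    opS ν w (reg ν g v) = reg ν g (opS ν w v) := by
  apply Lp.ext
  have h1 := opS_ae ν w (reg ν g v)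
  have h2 := reg_ae ν g (opS ν w v)
  have h3 : (fun y => (opS ν w v : H → ℂ) (g * y)) =ᵐ[ν] fun y => ⟪kerk ν w (g * y), v⟫_ℂ :=
    (mp ν g).quasiMeasurePreserving.ae_eq_comp (opS_ae ν w v)
  filter_upwards [h1, h2, h3] with y h1 h2 h3
  rw [h1, h2, h3]
  have h4 : reg ν g⁻¹ (kerk ν w y) = kerk ν w (g * y) := by
    rw [reg_kerk, inv_inv, mul_comm]
  rw [← h4, reg_adj, inv_inv]

omit [T2Space H] [IsMulLeftInvariant ν] [InnerRegularCompactLTTop ν] in
lemma opS_inj (w : C(H, ℝ)) (f f' : Lp ℂ 2 ν) (h : opS ν w f = opS ν w f') (x : H) :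
    ⟪kerk ν w x, f⟫_ℂ = ⟪kerk ν w x, f'⟫_ℂ := by
  have h1 : kernelOp (kerk ν w) f = kernelOp (kerk ν w) f' :=
    BoundedContinuousFunction.toLp_injective ν h
  exact DFunLike.congr_fun h1 x

omit [T2Space H] [InnerRegularCompactLTTop ν] in
lemma opS_separates (w : C(H, ℝ)) (h0 : H) (hw0 : w h0 = 0) (hw1 : w 1 = 1) :
    ∃ f, opS ν w (reg ν h0 f) ≠ opS ν w f := by
  by_contra hcon
  push Not at hcon
  have h1 : ∀ f, ⟪kerk ν w h0, reg ν h0 f⟫_ℂ = ⟪kerk ν w h0, f⟫_ℂ :=
    fun f => opS_inj ν w _ _ (hcon f) h0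
  have h2 : reg ν h0⁻¹ (kerk ν w h0) = kerk ν w h0 := by
    refine ext_inner_right ℂ fun f => ?_
    rw [reg_adj, inv_inv, h1]
  rw [reg_kerk, inv_inv, kerk_apply, kerk_apply] at h2
  have h3 : kerW w (h0 * h0) = kerW w h0 := ContinuousMap.toLp_injective ν h2
  have h4 := DFunLike.congr_fun h3 h0
  rw [kerW_apply, kerW_apply, mul_inv_cancel_right, mul_inv_cancel, hw0, hw1] at h4
  simp at h4

include ν in
lemma exists_char_ne_one_aux (h0 : H) (hh : h0 ≠ 1) :
    ∃ χ : H →* Circle, Continuous χ ∧ χ h0 ≠ 1 := by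
  obtain ⟨w, hw0, hw1, _⟩ := exists_continuous_zero_one_of_isClosed
    (isClosed_singleton (x := (h0 : H))) (isClosed_singleton (x := (1 : H)))
    (Set.disjoint_singleton.2 hh)
  have hw0' : w h0 = 0 := hw0 rfl
  have hw1' : w 1 = 1 := hw1 rfl
  obtain ⟨f, hf⟩ := opS_separates ν w h0 hw0' hw1'
  obtain ⟨v, hv0, hv1, hv2⟩ := exists_eigenvector (reg ν) (reg_one ν) (reg_mul ν) (opS ν w)
    (opS_compact ν w) (opS_reg ν w) h0 f hf
  exact exists_char (reg ν) (reg_one ν) (reg_mul ν) (reg_continuous ν) h0 v hv0 hv1 hv2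

end haar

/-- Characters separate the points of a compact Hausdorff abelian group. -/
theorem exists_char_ne_one {H : Type*} [CommGroup H] [TopologicalSpace H] [IsTopologicalGroup H]
    [CompactSpace H] [T2Space H] (h0 : H) (hh : h0 ≠ 1) :
    ∃ χ : H →* Circle, Continuous χ ∧ χ h0 ≠ 1 := by
  borelize H
  exact exists_char_ne_one_aux (haarMeasure (⊤ : PositiveCompacts H)) h0 hh

end Pool.Agent.Helper61.PeterWeyl
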