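import Mathlib

/-!
# Area of horizontal truncations of triangles and its second differences
-/

set_option autoImplicit false

open MeasureTheory Set Filter Topology

namespace Pool.Agent.Helper61.TriArea

/-- the triangle with vertices `x y z` (in the complex plane) -/
def tri (x y z : ℂ) : Set ℂ := convexHull ℝ {x, y, z}

/-- clamped square -/
noncomputable def psi (t : ℝ) : ℝ := (max 0 (min 1 t)) ^ 2

/-- area of the part of `T` where `φ ≤ h` -/
noncomputable def F (φ : ℂ →ₗ[ℝ] ℝ) (T : Set ℂ) (h : ℝ) : ℝ :=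
  (volume (T ∩ {w | φ w ≤ h})).toReal

theorem tri_swap12 (x y z : ℂ) : tri x y z = tri y x z := by
  unfold tri; rw [Set.insert_comm]

theorem tri_swap23 (x y z : ℂ) : tri x y z = tri x z y := by
  unfold tri
  congr 1
  ext w
  simp only [Set.mem_insert_iff, Set.mem_singleton_iff]
  tauto

theorem isCompact_tri (x y z : ℂ) : IsCompact (tri x y z) :=
  (Set.toFinite _).isCompact_convexHull ℝ

theorem convex_tri (x y z : ℂ) : Convex ℝ (tri x y z) := convex_convexHull ℝ _

theorem vol_tri_lt_top (x y z : ℂ) : volume (tri x y z) < ⊤ :=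
  (isCompact_tri x y z).measure_lt_top

theorem mem_tri {x y z w : ℂ} : w ∈ tri x y z ↔
    ∃ α β γ : ℝ, 0 ≤ α ∧ 0 ≤ β ∧ 0 ≤ γ ∧ α + β + γ = 1 ∧ (α : ℂ) * x + β * y + γ * z = w := by
  unfold tri
  rw [convexHull_insert (by simp), convexHull_pair, mem_convexJoin]
  constructor
  · rintro ⟨x', hx', b, hb, hw⟩
    rw [Set.mem_singleton_iff] at hx'
    subst hx'
    obtain ⟨s, t, hs, ht, hst, rfl⟩ := hb
    obtain ⟨u, v, hu, hv, huv, rfl⟩ := hw
    refine ⟨u, v * s, v * t, hu, mul_nonneg hv hs, mul_nonneg hv ht, ?_, ?_⟩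
    · rw [add_assoc, ← mul_add, hst, mul_one, huv]
    · simp only [Complex.real_smul]
      push_cast
      ring
  · rintro ⟨α, β, γ, hα, hβ, hγ, hsum, rfl⟩
    rcases eq_or_lt_of_le (add_nonneg hβ hγ) with h0 | hpos
    · have hβ0 : β = 0 := by linarith
      have hγ0 : γ = 0 := by linarith
      have hα1 : α = 1 := by linarith
      refine ⟨x, rfl, y, left_mem_segment ℝ y z, ?_⟩
      subst hβ0 hγ0 hα1
      simpa using left_mem_segment ℝ x y
    · refine ⟨x, rfl, ((β / (β + γ) : ℝ) : ℂ) * y + ((γ / (β + γ) : ℝ) : ℂ) * z, ?_, ?_⟩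
      · refine ⟨β / (β + γ), γ / (β + γ), by positivity, by positivity, ?_, ?_⟩
        · field_simp
        · simp only [Complex.real_smul]
      · refine ⟨α, β + γ, hα, hpos.le, by linarith, ?_⟩
        simp only [Complex.real_smul]
        have : ((β + γ : ℝ) : ℂ) ≠ 0 := by exact_mod_cast hpos.ne'
        push_cast at this ⊢
        field_simp
        ring

/-- The flat triangle lemma. -/
theorem F_flat (φ : ℂ →ₗ[ℝ] ℝ) (x y z : ℂ) (hxy : φ x = φ y) (hz : φ z < φ x) (h : ℝ) :
    F φ (tri x y z) h = (volume (tri x y z)).toReal * psi ((h - φ z) / (φ x - φ z)) := by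
  have hd : 0 < φ x - φ z := sub_pos.mpr hz
  have hφ : ∀ α β γ : ℝ, φ ((α : ℂ) * x + β * y + γ * z) = α * φ x + β * φ y + γ * φ z := by
    intro α β γ
    simp only [← Complex.real_smul, map_add, map_smul, smul_eq_mul]
  unfold F psi
  rcases lt_or_ge h (φ z) with hlt | hge
  · have hemp : tri x y z ∩ {w | φ w ≤ h} = ∅ := by
      rw [Set.eq_empty_iff_forall_notMem]
      rintro w ⟨hw, hwh⟩
      rw [mem_tri] at hw
      obtain ⟨α, β, γ, hα, hβ, hγ, hsum, rfl⟩ := hw
      rw [Set.mem_ofPred_eq, hφ] at hwh
      rw [← hxy] at hwh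
      have hγ1 : γ = 1 - α - β := by linarith
      have : 0 ≤ (α + β) * (φ x - φ z) := mul_nonneg (by linarith) hd.le
      have e : α * φ x + β * φ x + γ * φ z = (α + β) * (φ x - φ z) + φ z := by rw [hγ1]; ring
      linarith
    rw [hemp]
    have : (h - φ z) / (φ x - φ z) < 0 := div_neg_of_neg_of_pos (by linarith) hd
    rw [max_eq_left (le_trans (min_le_right _ _) this.le)]
    simp
  · rcases le_or_gt h (φ x) with hle | hgt
    · set t := (h - φ z) / (φ x - φ z) with ht
      have ht0 : 0 ≤ t := div_nonneg (by linarith) hd.le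
      have ht1 : t ≤ 1 := by rw [ht, div_le_one hd]; linarith
      have hht : h = φ z + t * (φ x - φ z) := by rw [ht]; field_simp; ring
      have himg : tri x y z ∩ {w | φ w ≤ h} = AffineMap.homothety z t '' (tri x y z) := by
        ext w
        constructor
        · rintro ⟨hw, hwh⟩
          rw [mem_tri] at hw
          obtain ⟨α, β, γ, hα, hβ, hγ, hsum, rfl⟩ := hw
          rw [Set.mem_ofPred_eq, hφ, ← hxy] at hwh
          have hγ1 : γ = 1 - α - β := by linarith
          have hab : (α + β) ≤ t := by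
            have : (α + β) * (φ x - φ z) ≤ t * (φ x - φ z) := by
              rw [hγ1] at hwh; nlinarith
            exact le_of_mul_le_mul_right this hd
          rcases eq_or_lt_of_le ht0 with h0 | hpos
          · have hα0 : α = 0 := by linarith
            have hβ0 : β = 0 := by linarith
            refine ⟨z, mem_tri.mpr ⟨0, 0, 1, le_rfl, le_rfl, zero_le_one, by norm_num, by simp⟩, ?_⟩
            rw [AffineMap.homothety_apply]
            subst hα0 hβ0
            have hγ1' : γ = 1 := by linarith
            subst hγ1'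
            simp
          · refine ⟨((α / t : ℝ) : ℂ) * x + ((β / t : ℝ) : ℂ) * y +
              ((1 - α / t - β / t : ℝ) : ℂ) * z, mem_tri.mpr ⟨_, _, _, by positivity,
                by positivity, ?_, by ring, rfl⟩, ?_⟩
            · have : α / t + β / t ≤ 1 := by rw [← add_div, div_le_one hpos]; exact hab
              linarith
            · rw [AffineMap.homothety_apply]
              simp only [vsub_eq_sub, vadd_eq_add, Complex.real_smul]
              have htc : (t : ℂ) ≠ 0 := by exact_mod_cast hpos.ne'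
              rw [hγ1]
              push_cast
              field_simp
              ring
        · rintro ⟨v, hv, rfl⟩
          rw [mem_tri] at hv
          obtain ⟨α, β, γ, hα, hβ, hγ, hsum, rfl⟩ := hv
          rw [AffineMap.homothety_apply]
          simp only [vsub_eq_sub, vadd_eq_add, Complex.real_smul]
          have heq : (t : ℂ) * ((α : ℂ) * x + β * y + γ * z - z) + z =
              ((t * α : ℝ) : ℂ) * x + ((t * β : ℝ) : ℂ) * y + ((1 - t * α - t * β : ℝ) : ℂ) * z := by
            have : γ = 1 - α - β := by linarith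
            rw [this]
            push_cast
            ring
          rw [heq]
          refine ⟨mem_tri.mpr ⟨_, _, _, by positivity, by positivity, ?_, by ring, rfl⟩, ?_⟩
          · have : t * (α + β) ≤ 1 * 1 := mul_le_mul ht1 (by linarith) (by linarith) (by norm_num)
            nlinarith
          · rw [Set.mem_ofPred_eq, hφ, ← hxy, hht]
            have : t * (α + β) ≤ t * 1 := mul_le_mul_of_nonneg_left (by linarith) ht0
            nlinarith
      rw [himg, Measure.addHaar_image_homothety]
      rw [max_eq_right (le_min zero_le_one ht0), min_eq_right ht1]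
      rw [Complex.finrank_real_complex, ENNReal.toReal_mul, ENNReal.toReal_ofReal (abs_nonneg _),
        abs_of_nonneg (by positivity)]
      ring
    · have hall : tri x y z ∩ {w | φ w ≤ h} = tri x y z := by
        rw [Set.inter_eq_left]
        intro w hw
        rw [mem_tri] at hw
        obtain ⟨α, β, γ, hα, hβ, hγ, hsum, rfl⟩ := hw
        rw [Set.mem_ofPred_eq, hφ, ← hxy]
        have hγ1 : α = 1 - γ - β := by linarith
        have : 0 ≤ γ * (φ x - φ z) := mul_nonneg hγ hd.le
        have e : α * φ x + β * φ x + γ * φ z = φ x - γ * (φ x - φ z) := by rw [hγ1]; ring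
        linarith
      rw [hall]
      have : 1 < (h - φ z) / (φ x - φ z) := by rw [one_lt_div hd]; linarith
      rw [min_eq_left this.le, max_eq_right zero_le_one]
      ring

/-- second difference quotient -/
noncomputable def D (f : ℝ → ℝ) (h ε : ℝ) : ℝ := (f (h + ε) + f (h - ε) - 2 * f h) / ε

theorem psi_of_nonpos {t : ℝ} (ht : t ≤ 0) : psi t = 0 := by
  unfold psi
  rw [max_eq_left ((min_le_right _ _).trans ht)]
  ring

theorem psi_of_one_le {t : ℝ} (ht : 1 ≤ t) : psi t = 1 := by
  unfold psi
  rw [min_eq_left ht, max_eq_right zero_le_one]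
  ring

theorem psi_of_mem {t : ℝ} (h0 : 0 ≤ t) (h1 : t ≤ 1) : psi t = t ^ 2 := by
  unfold psi
  rw [min_eq_right h1, max_eq_right h0]

theorem tendsto_of_eventually {g : ℝ → ℝ} {a b : ℝ} {δ : ℝ} (hδ : 0 < δ)
    (h : ∀ ε, 0 < ε → ε < δ → g ε = a + b * ε) : Tendsto g (𝓝[>] 0) (𝓝 a) := by
  have h1 : Tendsto (fun ε : ℝ => a + b * ε) (𝓝[>] 0) (𝓝 a) := by
    have : Tendsto (fun ε : ℝ => a + b * ε) (𝓝 0) (𝓝 (a + b * 0)) := by
      apply Continuous.tendsto
      fun_prop
    rw [mul_zero, add_zero] at this
    exact this.mono_left nhdsWithin_le_nhds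
  refine h1.congr' ?_
  have : Set.Ioo (0 : ℝ) δ ∈ 𝓝[>] (0 : ℝ) := Ioo_mem_nhdsGT hδ
  filter_upwards [this] with ε hε
  exact (h ε hε.1 hε.2).symm

theorem D_psi (c H : ℝ) (hH : 0 < H) (h0 : ℝ) :
    Tendsto (D (fun h => psi ((h - c) / H)) h0) (𝓝[>] 0)
      (𝓝 (if h0 = c + H then -(2 / H) else 0)) := by
  unfold D
  rcases lt_trichotomy h0 c with h | h | h
  · rw [if_neg (by linarith)]
    refine tendsto_of_eventually (b := 0) (sub_pos.mpr h) fun ε he1 he2 => ?_
    show (psi ((h0 + ε - c) / H) + psi ((h0 - ε - c) / H) - 2 * psi ((h0 - c) / H)) / ε = _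
    rw [psi_of_nonpos, psi_of_nonpos, psi_of_nonpos]
    · simp
    · exact div_nonpos_of_nonpos_of_nonneg (by linarith) hH.le
    · exact div_nonpos_of_nonpos_of_nonneg (by linarith) hH.le
    · exact div_nonpos_of_nonpos_of_nonneg (by linarith) hH.le
  · rw [if_neg (by linarith)]
    refine tendsto_of_eventually (b := 1 / H ^ 2) hH fun ε he1 he2 => ?_
    show (psi ((h0 + ε - c) / H) + psi ((h0 - ε - c) / H) - 2 * psi ((h0 - c) / H)) / ε = _
    rw [psi_of_mem (t := (h0 + ε - c) / H), psi_of_nonpos, psi_of_nonpos]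
    · rw [h]; field_simp; ring
    · exact div_nonpos_of_nonpos_of_nonneg (by linarith) hH.le
    · exact div_nonpos_of_nonpos_of_nonneg (by linarith) hH.le
    · exact div_nonneg (by linarith) hH.le
    · rw [div_le_one hH]; linarith
  · rcases lt_trichotomy h0 (c + H) with h' | h' | h'
    · rw [if_neg (by linarith)]
      refine tendsto_of_eventually (b := 2 / H ^ 2)
        (lt_min (sub_pos.mpr h) (sub_pos.mpr h')) fun ε he1 he2 => ?_
      show (psi ((h0 + ε - c) / H) + psi ((h0 - ε - c) / H) - 2 * psi ((h0 - c) / H)) / ε = _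
      have he3 := lt_of_lt_of_le he2 (min_le_left _ _)
      have he4 := lt_of_lt_of_le he2 (min_le_right _ _)
      rw [psi_of_mem, psi_of_mem, psi_of_mem]
      · field_simp; ring
      · exact div_nonneg (by linarith) hH.le
      · rw [div_le_one hH]; linarith
      · exact div_nonneg (by linarith) hH.le
      · rw [div_le_one hH]; linarith
      · exact div_nonneg (by linarith) hH.le
      · rw [div_le_one hH]; linarith
    · rw [if_pos h']
      refine tendsto_of_eventually (b := 1 / H ^ 2) hH fun ε he1 he2 => ?_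
      show (psi ((h0 + ε - c) / H) + psi ((h0 - ε - c) / H) - 2 * psi ((h0 - c) / H)) / ε = _
      rw [psi_of_one_le, psi_of_mem, psi_of_one_le]
      · rw [h']; field_simp; ring
      · rw [le_div_iff₀ hH]; linarith
      · exact div_nonneg (by linarith) hH.le
      · rw [div_le_one hH]; linarith
      · rw [le_div_iff₀ hH]; linarith
    · rw [if_neg (by linarith)]
      refine tendsto_of_eventually (b := 0) (sub_pos.mpr h') fun ε he1 he2 => ?_
      show (psi ((h0 + ε - c) / H) + psi ((h0 - ε - c) / H) - 2 * psi ((h0 - c) / H)) / ε = _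
      rw [psi_of_one_le, psi_of_one_le, psi_of_one_le]
      · field_simp; ring
      · rw [le_div_iff₀ hH]; linarith
      · rw [le_div_iff₀ hH]; linarith
      · rw [le_div_iff₀ hH]; linarith

/-- the reference area -/
noncomputable def kap : ℝ := (volume (tri 0 1 Complex.I)).toReal

theorem tri_image (x y z : ℂ) (f : ℂ →ₗ[ℝ] ℂ) :
    tri (f x) (f y) (f z) = f '' tri x y z := by
  unfold tri
  rw [LinearMap.image_convexHull, Set.image_insert_eq, Set.image_insert_eq, Set.image_singleton]

theorem tri_add (a x y z : ℂ) :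
    tri (a + x) (a + y) (a + z) = (fun w => a + w) '' tri x y z := by
  ext w
  constructor
  · intro hw
    obtain ⟨α, β, γ, hα, hβ, hγ, hs, rfl⟩ := mem_tri.mp hw
    refine ⟨(α : ℂ) * x + β * y + γ * z, mem_tri.mpr ⟨α, β, γ, hα, hβ, hγ, hs, rfl⟩, ?_⟩
    have : (α : ℂ) + β + γ = 1 := by exact_mod_cast hs
    linear_combination (-a) * this
  · rintro ⟨v, hv, rfl⟩
    obtain ⟨α, β, γ, hα, hβ, hγ, hs, rfl⟩ := mem_tri.mp hv
    refine mem_tri.mpr ⟨α, β, γ, hα, hβ, hγ, hs, ?_⟩
    have : (α : ℂ) + β + γ = 1 := by exact_mod_cast hs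
    linear_combination a * this

/-- the linear map `w ↦ w.re • u + w.im • v` -/
noncomputable def lin (u v : ℂ) : ℂ →ₗ[ℝ] ℂ :=
  Complex.reLm.smulRight u + Complex.imLm.smulRight v

theorem lin_apply (u v w : ℂ) : lin u v w = w.re • u + w.im • v := rfl

theorem det_lin (u v : ℂ) : LinearMap.det (lin u v) = u.re * v.im - u.im * v.re := by
  rw [← LinearMap.det_toMatrix Complex.basisOneI, Matrix.det_fin_two]
  simp [LinearMap.toMatrix_apply, lin_apply]
  ring

theorem vol_tri (x y z : ℂ) : (volume (tri x y z)).toReal =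
    |(y - x).re * (z - x).im - (y - x).im * (z - x).re| * kap := by
  have h1 : tri x y z = (fun w => x + w) '' (lin (y - x) (z - x) '' tri 0 1 Complex.I) := by
    rw [← tri_image, ← tri_add]
    congr 1
    · simp [lin_apply]
    · simp [lin_apply]
    · simp [lin_apply]
  rw [h1, Set.image_add_left, measure_preimage_add, Measure.addHaar_image_linearMap, det_lin,
    ENNReal.toReal_mul, ENNReal.toReal_ofReal (abs_nonneg _)]
  rfl

theorem kap_pos : 0 < kap := by
  have h1 : (volume (tri 0 1 Complex.I)).toReal = kap := rfl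
  unfold kap
  rw [ENNReal.toReal_pos_iff]
  refine ⟨?_, vol_tri_lt_top _ _ _⟩
  have hint : (interior (tri 0 1 Complex.I)).Nonempty := by
    have hsub : {w : ℂ | 0 < w.re ∧ 0 < w.im ∧ w.re + w.im < 1} ⊆ tri 0 1 Complex.I := by
      rintro w ⟨h1, h2, h3⟩
      refine mem_tri.mpr ⟨1 - w.re - w.im, w.re, w.im, by linarith, h1.le, h2.le, by ring, ?_⟩
      rw [mul_zero, zero_add, mul_one]
      exact Complex.re_add_im w
    have hopen : IsOpen {w : ℂ | 0 < w.re ∧ 0 < w.im ∧ w.re + w.im < 1} := by
      refine IsOpen.inter ?_ (IsOpen.inter ?_ ?_)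
      · exact isOpen_lt continuous_const Complex.continuous_re
      · exact isOpen_lt continuous_const Complex.continuous_im
      · exact isOpen_lt (Complex.continuous_re.add Complex.continuous_im) continuous_const
    refine ⟨(1 / 4 : ℝ) + (1 / 4 : ℝ) * Complex.I, ?_⟩
    apply interior_maximal hsub hopen
    refine ⟨?_, ?_, ?_⟩ <;> norm_num
  exact Measure.measure_pos_of_nonempty_interior _ hint

theorem line_null (h : ℝ) : volume {w : ℂ | w.im = h} = 0 := by
  have hconv : Convex ℝ {w : ℂ | w.im ≤ h} :=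
    convex_halfSpace_le (f := fun w : ℂ => w.im) (Complex.imLm.isLinear) h
  refine measure_mono_null ?_ (hconv.addHaar_frontier volume)
  intro w hw
  have hw' : w.im = h := hw
  rw [frontier_eq_closure_inter_closure]
  refine ⟨subset_closure hw'.le, ?_⟩
  rw [Metric.mem_closure_iff]
  intro ε hε
  refine ⟨w + (ε / 2 : ℝ) * Complex.I, ?_, ?_⟩
  · intro hc
    have hc' : (w + (ε / 2 : ℝ) * Complex.I).im ≤ h := hc
    simp at hc'
    linarith
  · rw [dist_eq_norm]
    have : w - (w + (ε / 2 : ℝ) * Complex.I) = -((ε / 2 : ℝ) * Complex.I) := by ring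
    rw [this, norm_neg, norm_mul, Complex.norm_I, mul_one, Complex.norm_real,
      Real.norm_of_nonneg (by positivity)]
    linarith

/-- lower part plus upper part -/
theorem F_compl (x y z : ℂ) (h : ℝ) :
    F Complex.imLm (tri x y z) h = (volume (tri x y z)).toReal -
      F (-Complex.imLm) (tri x y z) (-h) := by
  unfold F
  have h1 : volume (tri x y z ∩ {w | Complex.imLm w ≤ h}) +
      volume (tri x y z ∩ {w | (-Complex.imLm) w ≤ -h}) = volume (tri x y z) := by
    have hmeas : MeasurableSet {w : ℂ | w.im ≤ h} := measurableSet_le Complex.measurable_im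
      measurable_const
    rw [← measure_inter_add_sdiff (tri x y z) hmeas]
    congr 1
    have hsub1 : tri x y z \ {w : ℂ | w.im ≤ h} ⊆ tri x y z ∩ {w | (-Complex.imLm) w ≤ -h} := by
      rintro w ⟨hw1, hw2⟩
      refine ⟨hw1, ?_⟩
      have : ¬ (w.im ≤ h) := hw2
      show -(w.im) ≤ -h
      linarith
    have hsub2 : tri x y z ∩ {w | (-Complex.imLm) w ≤ -h} ⊆
        (tri x y z \ {w : ℂ | w.im ≤ h}) ∪ {w : ℂ | w.im = h} := by
      rintro w ⟨hw1, hw2⟩
      have hw3 : -(w.im) ≤ -h := hw2
      rcases eq_or_lt_of_le (neg_le_neg_iff.mp hw3) with he | hl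
      · right; exact he.symm
      · left; exact ⟨hw1, not_le.mpr hl⟩
    refine le_antisymm ((measure_mono hsub2).trans ?_) (measure_mono hsub1)
    refine (measure_union_le _ _).trans ?_
    rw [line_null, add_zero]
  have hf1 : volume (tri x y z ∩ {w | Complex.imLm w ≤ h}) ≠ ⊤ :=
    ((measure_mono Set.inter_subset_left).trans_lt (vol_tri_lt_top _ _ _)).ne
  have hf2 : volume (tri x y z ∩ {w | (-Complex.imLm) w ≤ -h}) ≠ ⊤ :=
    ((measure_mono Set.inter_subset_left).trans_lt (vol_tri_lt_top _ _ _)).ne
  rw [← h1, ENNReal.toReal_add hf1 hf2]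
  ring

/-- flat top triangle -/
theorem F_top (x y z : ℂ) (hxy : x.im = y.im) (hz : z.im < x.im) (h : ℝ) :
    F Complex.imLm (tri x y z) h =
      |(y - x).re| * (x.im - z.im) * kap * psi ((h - z.im) / (x.im - z.im)) := by
  rw [F_flat Complex.imLm x y z hxy hz h, vol_tri]
  have h1 : (y - x).im = 0 := by simp [hxy]
  have h2 : (z - x).im = -(x.im - z.im) := by simp
  rw [h1, zero_mul, sub_zero, h2, abs_mul, abs_neg, abs_of_pos (sub_pos.mpr hz)]
  rfl

/-- flat bottom triangle -/
theorem F_bot (x y z : ℂ) (hxy : x.im = y.im) (hz : x.im < z.im) (h : ℝ) :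
    F Complex.imLm (tri x y z) h = |(y - x).re| * (z.im - x.im) * kap -
      |(y - x).re| * (z.im - x.im) * kap * psi ((z.im - h) / (z.im - x.im)) := by
  rw [F_compl, F_flat (-Complex.imLm) x y z (by simp [hxy]) (by simpa using hz), vol_tri]
  have h1 : (y - x).im = 0 := by simp [hxy]
  have h2 : (z - x).im = z.im - x.im := by simp
  rw [h1, zero_mul, sub_zero, h2, abs_mul, abs_of_pos (sub_pos.mpr hz)]
  have h3 : (-h - (-Complex.imLm) z) / ((-Complex.imLm) x - (-Complex.imLm) z) =
      (z.im - h) / (z.im - x.im) := by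
    congr 1
    · simp; ring
    · simp; ring
  rw [h3]

theorem seg_split (x z : ℂ) (t : ℝ) (ht0 : 0 ≤ t) (ht1 : t ≤ 1) :
    segment ℝ x z = segment ℝ x (x + t * (z - x)) ∪ segment ℝ (x + t * (z - x)) z := by
  have hw : x + t * (z - x) ∈ segment ℝ x z :=
    ⟨1 - t, t, by linarith, ht0, by ring, by simp only [Complex.real_smul]; push_cast; ring⟩
  apply Set.Subset.antisymm
  · rintro p ⟨a, b, ha, hb, hab, rfl⟩
    simp only [Complex.real_smul]
    have ha' : a = 1 - b := by linarith
    subst ha'
    rcases le_or_gt b t with hbt | hbt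
    · left
      rcases eq_or_lt_of_le ht0 with h0 | hpos
      · have hb0 : b = 0 := by linarith
        subst hb0
        simpa using left_mem_segment ℝ x _
      · refine ⟨1 - b / t, b / t, ?_, by positivity, by ring, ?_⟩
        · have : b / t ≤ 1 := by rw [div_le_one hpos]; exact hbt
          linarith
        · simp only [Complex.real_smul]
          have htc : (t : ℂ) ≠ 0 := by exact_mod_cast hpos.ne'
          push_cast
          field_simp
          ring
    · right
      have h1t : 0 < 1 - t := by linarith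
      refine ⟨(1 - b) / (1 - t), (b - t) / (1 - t), by positivity,
        div_nonneg (by linarith) h1t.le, by field_simp; ring, ?_⟩
      simp only [Complex.real_smul]
      have htc : (1 - t : ℂ) ≠ 0 := by exact_mod_cast h1t.ne'
      push_cast
      field_simp
      ring
  · apply Set.union_subset
    · exact (convex_segment x z).segment_subset (left_mem_segment ℝ x z) hw
    · exact (convex_segment x z).segment_subset hw (right_mem_segment ℝ x z)

theorem tri_eq_join (x y z : ℂ) : tri x y z = convexJoin ℝ {x} (segment ℝ y z) := by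
  unfold tri
  rw [convexHull_insert (by simp), convexHull_pair]

theorem tri_split (x y z : ℂ) (t : ℝ) (ht0 : 0 ≤ t) (ht1 : t ≤ 1) :
    tri y x z = tri y x (x + t * (z - x)) ∪ tri y (x + t * (z - x)) z := by
  rw [tri_eq_join, tri_eq_join, tri_eq_join, ← convexJoin_union_right, ← seg_split x z t ht0 ht1]

theorem tri_im_le {x y z : ℂ} {h : ℝ} (hx : x.im ≤ h) (hy : y.im ≤ h) (hz : z.im ≤ h) :
    tri x y z ⊆ {w : ℂ | w.im ≤ h} := by
  have hconv : Convex ℝ {w : ℂ | w.im ≤ h} :=
    convex_halfSpace_le (f := fun w : ℂ => w.im) (Complex.imLm.isLinear) h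
  apply convexHull_min _ hconv
  intro w hw
  simp only [Set.mem_insert_iff, Set.mem_singleton_iff] at hw
  rcases hw with rfl | rfl | rfl
  · exact hx
  · exact hy
  · exact hz

theorem tri_le_im {x y z : ℂ} {h : ℝ} (hx : h ≤ x.im) (hy : h ≤ y.im) (hz : h ≤ z.im) :
    tri x y z ⊆ {w : ℂ | h ≤ w.im} := by
  have hconv : Convex ℝ {w : ℂ | h ≤ w.im} :=
    convex_halfSpace_ge (f := fun w : ℂ => w.im) (Complex.imLm.isLinear) h
  apply convexHull_min _ hconv
  intro w hw
  simp only [Set.mem_insert_iff, Set.mem_singleton_iff] at hw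
  rcases hw with rfl | rfl | rfl
  · exact hx
  · exact hy
  · exact hz

theorem measurableSet_tri (x y z : ℂ) : MeasurableSet (tri x y z) :=
  (isCompact_tri x y z).isClosed.measurableSet

/-- additivity for a union of two triangles meeting in a null set -/
theorem F_union {S T U : Set ℂ} (_hS : MeasurableSet S) (hT : MeasurableSet T)
    (hSf : volume S < ⊤) (hTf : volume T < ⊤) (hU : U = S ∪ T) (hST : volume (S ∩ T) = 0) (h : ℝ) :
    F Complex.imLm U h = F Complex.imLm S h + F Complex.imLm T h := by
  unfold F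
  have hmeas : MeasurableSet {w : ℂ | Complex.imLm w ≤ h} :=
    measurableSet_le Complex.measurable_im measurable_const
  have h1 : U ∩ {w | Complex.imLm w ≤ h} =
      (S ∩ {w | Complex.imLm w ≤ h}) ∪ (T ∩ {w | Complex.imLm w ≤ h}) := by
    rw [hU, Set.union_inter_distrib_right]
  have h2 : AEDisjoint volume (S ∩ {w : ℂ | Complex.imLm w ≤ h})
      (T ∩ {w : ℂ | Complex.imLm w ≤ h}) := by
    refine measure_mono_null ?_ hST
    exact fun w hw => ⟨hw.1.1, hw.2.1⟩
  rw [h1, measure_union₀ (hT.inter hmeas).nullMeasurableSet h2, ENNReal.toReal_add]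
  · exact ((measure_mono Set.inter_subset_left).trans_lt hSf).ne
  · exact ((measure_mono Set.inter_subset_left).trans_lt hTf).ne

/-- signed length of the edge `x y` if it is horizontal (positive when the third vertex `z` is
above) -/
noncomputable def flat (x y z : ℂ) : ℝ :=
  if x.im = y.im then SignType.sign (z.im - x.im) * |(y - x).re| else 0

/-- signed horizontal edge length of a triangle -/
noncomputable def Phi (x y z : ℂ) : ℝ := flat x y z + flat y z x + flat z x y

theorem flat_symm (x y z : ℂ) : flat x y z = flat y x z := by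
  unfold flat
  by_cases h : x.im = y.im
  · rw [if_pos h, if_pos h.symm, h, Complex.sub_re, Complex.sub_re, abs_sub_comm]
  · rw [if_neg h, if_neg (fun h' => h h'.symm)]

theorem Phi_swap12 (x y z : ℂ) : Phi x y z = Phi y x z := by
  unfold Phi
  rw [flat_symm x y z, flat_symm y z x, flat_symm z x y]
  ring

theorem Phi_swap23 (x y z : ℂ) : Phi x y z = Phi x z y := by
  unfold Phi
  rw [flat_symm x y z, flat_symm y z x, flat_symm z x y]
  ring

/-- `j` records the jumps of the section length -/
def HasJump (T : Set ℂ) (j : ℝ → ℝ) : Prop :=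
  ∀ h0 : ℝ, Tendsto (D (F Complex.imLm T) h0) (𝓝[>] 0) (𝓝 (j h0))

theorem HasJump.of_F {T : Set ℂ} {f : ℝ → ℝ} (hf : F Complex.imLm T = f) {j : ℝ → ℝ}
    (hj : ∀ h0 : ℝ, Tendsto (D f h0) (𝓝[>] 0) (𝓝 (j h0))) : HasJump T j := by
  intro h0
  rw [hf]
  exact hj h0

theorem D_smul (c : ℝ) (f : ℝ → ℝ) (h0 ε : ℝ) : D (fun h => c * f h) h0 ε = c * D f h0 ε := by
  unfold D
  ring

theorem D_add (f g : ℝ → ℝ) (h0 ε : ℝ) : D (fun h => f h + g h) h0 ε = D f h0 ε + D g h0 ε := by
  unfold D
  ring

theorem D_const_sub (c : ℝ) (f : ℝ → ℝ) (h0 ε : ℝ) :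
    D (fun h => c - f h) h0 ε = - D f h0 ε := by
  unfold D
  ring

theorem D_top (c H V : ℝ) (hH : 0 < H) (h0 : ℝ) :
    Tendsto (D (fun h => V * H * kap * psi ((h - c) / H)) h0) (𝓝[>] 0)
      (𝓝 (if h0 = c + H then -(2 * kap * V) else 0)) := by
  have h1 := (D_psi c H hH h0).const_mul (V * H * kap)
  have h2 : V * H * kap * (if h0 = c + H then -(2 / H) else 0) =
      (if h0 = c + H then -(2 * kap * V) else 0) := by
    split_ifs
    · field_simp
    · ring
  rw [h2] at h1
  refine h1.congr fun ε => ?_
  rw [D_smul]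

theorem psi_D_reflect (c H : ℝ) (hH : 0 < H) (h0 : ℝ) :
    Tendsto (D (fun h => psi ((c - h) / H)) h0) (𝓝[>] 0)
      (𝓝 (if h0 = c - H then -(2 / H) else 0)) := by
  have h1 := D_psi (-c) H hH (-h0)
  have h2 : (if -h0 = -c + H then -(2 / H) else (0 : ℝ)) = (if h0 = c - H then -(2 / H) else 0) := by
    by_cases h : h0 = c - H
    · rw [if_pos h, if_pos (by linarith)]
    · rw [if_neg h, if_neg (fun h' => h (by linarith))]
  rw [h2] at h1
  refine h1.congr fun ε => ?_
  unfold D
  have e1 : (-h0 + ε - -c) / H = (c - (h0 - ε)) / H := by ring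
  have e2 : (-h0 - ε - -c) / H = (c - (h0 + ε)) / H := by ring
  have e3 : (-h0 - -c) / H = (c - h0) / H := by ring
  show (psi ((-h0 + ε - -c) / H) + psi ((-h0 - ε - -c) / H) - 2 * psi ((-h0 - -c) / H)) / ε =
    (psi ((c - (h0 + ε)) / H) + psi ((c - (h0 - ε)) / H) - 2 * psi ((c - h0) / H)) / ε
  rw [e1, e2, e3]
  ring

theorem D_bot (c H V : ℝ) (hH : 0 < H) (h0 : ℝ) :
    Tendsto (D (fun h => V * H * kap - V * H * kap * psi ((c - h) / H)) h0) (𝓝[>] 0)
      (𝓝 (if h0 = c - H then 2 * kap * V else 0)) := by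
  have h1 := (psi_D_reflect c H hH h0).const_mul (-(V * H * kap))
  have h2 : -(V * H * kap) * (if h0 = c - H then -(2 / H) else 0) =
      (if h0 = c - H then 2 * kap * V else 0) := by
    split_ifs
    · field_simp
    · ring
  rw [h2] at h1
  refine h1.congr fun ε => ?_
  rw [D_const_sub, D_smul]
  ring

theorem F_null {T : Set ℂ} (hT : volume T = 0) (h : ℝ) : F Complex.imLm T h = 0 := by
  unfold F
  rw [measure_mono_null Set.inter_subset_left hT]
  rfl

/-- jump lemma, sorted case -/
theorem jump_sorted (x y z : ℂ) (hxy : x.im ≤ y.im) (hyz : y.im ≤ z.im) :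
    ∃ j : ℝ → ℝ, HasJump (tri x y z) j ∧ ∀ H : Finset ℝ, x.im ∈ H → y.im ∈ H → z.im ∈ H →
      ∑ h ∈ H, j h = 2 * kap * Phi x y z := by
  rcases eq_or_lt_of_le hxy with h1 | h1
  · rcases eq_or_lt_of_le hyz with h2 | h2
    · -- all equal
      refine ⟨fun _ => 0, ?_, ?_⟩
      · have hnull : volume (tri x y z) = 0 := by
          refine measure_mono_null ?_ (line_null x.im)
          intro w hw
          have hu := tri_im_le (h := x.im) le_rfl h1.ge (h2.ge.trans h1.ge) hw
          have hl := tri_le_im (h := x.im) le_rfl h1.le (h1.le.trans h2.le) hw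
          exact le_antisymm hu hl
        apply HasJump.of_F (f := fun _ => 0)
        · funext h
          exact F_null hnull h
        · intro h0
          have : D (fun _ => (0 : ℝ)) h0 = fun _ => 0 := by
            funext ε
            unfold D
            simp
          rw [this]
          exact tendsto_const_nhds
      · intro H _ _ _
        unfold Phi flat
        simp [h1, h2]
    · -- flat bottom x y
      refine ⟨fun h0 => if h0 = z.im - (z.im - x.im) then 2 * kap * |(y - x).re| else 0, ?_, ?_⟩
      · apply HasJump.of_F (f := fun h => |(y - x).re| * (z.im - x.im) * kap -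
          |(y - x).re| * (z.im - x.im) * kap * psi ((z.im - h) / (z.im - x.im)))
        · funext h
          exact F_bot x y z h1 (h1 ▸ h2) h
        · intro h0
          exact D_bot z.im (z.im - x.im) |(y - x).re| (by linarith) h0
      · intro H hx _ _
        rw [sub_sub_cancel, Finset.sum_ite_eq' H x.im, if_pos hx]
        have hne1 : ¬ (y.im = z.im) := by linarith
        have hne2 : ¬ (z.im = x.im) := by linarith
        unfold Phi flat
        rw [if_pos h1, if_neg hne1, if_neg hne2, sign_pos (by linarith)]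
        simp
  · rcases eq_or_lt_of_le hyz with h2 | h2
    · -- flat top y z
      refine ⟨fun h0 => if h0 = x.im + (y.im - x.im) then -(2 * kap * |(z - y).re|) else 0, ?_, ?_⟩
      · apply HasJump.of_F (f := fun h => |(z - y).re| * (y.im - x.im) * kap *
          psi ((h - x.im) / (y.im - x.im)))
        · funext h
          have : tri x y z = tri y z x := by rw [tri_swap12, tri_swap23]
          rw [this]
          exact F_top y z x h2 h1 h
        · intro h0
          exact D_top x.im (y.im - x.im) |(z - y).re| (by linarith) h0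
      · intro H _ hy _
        rw [add_sub_cancel, Finset.sum_ite_eq' H y.im, if_pos hy]
        have hne1 : ¬ (x.im = y.im) := by linarith
        have hne2 : ¬ (z.im = x.im) := by linarith
        unfold Phi flat
        rw [if_pos h2, if_neg hne1, if_neg hne2, sign_neg (by linarith)]
        simp
    · -- generic
      set t := (y.im - x.im) / (z.im - x.im) with ht
      have hzx : 0 < z.im - x.im := by linarith
      have ht0 : 0 ≤ t := div_nonneg (by linarith) hzx.le
      have ht1 : t ≤ 1 := by rw [ht, div_le_one hzx]; linarith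
      set w := x + t * (z - x) with hw
      have hwim : w.im = y.im := by
        rw [hw]
        simp only [Complex.add_im, Complex.mul_im, Complex.ofReal_re, Complex.ofReal_im, zero_mul,
          add_zero, Complex.sub_im]
        rw [ht]
        field_simp
        ring
      have hsplit := tri_split x y z t ht0 ht1
      rw [← hw] at hsplit
      have hperm : tri x y z = tri y x z := tri_swap12 x y z
      refine ⟨fun _ => 0, ?_, ?_⟩
      · have hA : tri y x w = tri y w x := tri_swap23 y x w
        have hnull : volume (tri y x w ∩ tri y w z) = 0 := by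
          refine measure_mono_null ?_ (line_null y.im)
          rintro v ⟨hv1, hv2⟩
          have hu := tri_im_le (h := y.im) le_rfl h1.le hwim.le hv1
          have hl := tri_le_im (h := y.im) le_rfl hwim.ge h2.le hv2
          exact le_antisymm hu hl
        apply HasJump.of_F (f := fun h => (|(w - y).re| * (y.im - x.im) * kap *
            psi ((h - x.im) / (y.im - x.im))) + (|(w - y).re| * (z.im - y.im) * kap -
          |(w - y).re| * (z.im - y.im) * kap * psi ((z.im - h) / (z.im - y.im))))
        · funext h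
          rw [hperm, F_union (measurableSet_tri _ _ _) (measurableSet_tri _ _ _)
            (vol_tri_lt_top _ _ _) (vol_tri_lt_top _ _ _) hsplit hnull h, hA,
            F_top y w x hwim.symm h1 h, F_bot y w z hwim.symm h2 h]
        · intro h0
          have e1 := D_top x.im (y.im - x.im) |(w - y).re| (by linarith) h0
          have e2 := D_bot z.im (z.im - y.im) |(w - y).re| (by linarith) h0
          have e3 := e1.add e2
          rw [add_sub_cancel, sub_sub_cancel] at e3
          have e4 : ((if h0 = y.im then -(2 * kap * |(w - y).re|) else 0) +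
              (if h0 = y.im then 2 * kap * |(w - y).re| else 0)) = 0 := by
            split_ifs
            · ring
            · ring
          rw [e4] at e3
          refine e3.congr fun ε => ?_
          rw [D_add]
      · intro H _ _ _
        have hne1 : ¬ (x.im = y.im) := by linarith
        have hne2 : ¬ (y.im = z.im) := by linarith
        have hne3 : ¬ (z.im = x.im) := by linarith
        unfold Phi flat
        rw [if_neg hne1, if_neg hne2, if_neg hne3]
        simp

/-- jump lemma -/
theorem jump_tri (x y z : ℂ) :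
    ∃ j : ℝ → ℝ, HasJump (tri x y z) j ∧ ∀ H : Finset ℝ, x.im ∈ H → y.im ∈ H → z.im ∈ H →
      ∑ h ∈ H, j h = 2 * kap * Phi x y z := by
  rcases le_total x.im y.im with h1 | h1 <;> rcases le_total y.im z.im with h2 | h2 <;>
    rcases le_total x.im z.im with h3 | h3
  · exact jump_sorted x y z h1 h2
  · exact jump_sorted x y z h1 h2
  · -- x ≤ z ≤ y
    obtain ⟨j, hj, hs⟩ := jump_sorted x z y h3 h2
    exact ⟨j, tri_swap23 x y z ▸ hj, fun H a b c => by rw [hs H a c b, Phi_swap23 x z y]⟩
  · -- z ≤ x ≤ y
    obtain ⟨j, hj, hs⟩ := jump_sorted z x y h3 h1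
    refine ⟨j, ?_, fun H a b c => ?_⟩
    · rw [tri_swap23 x y z, tri_swap12 x z y]; exact hj
    · rw [hs H c a b, Phi_swap23 x y z, Phi_swap12 x z y]
  · -- y ≤ x ≤ z
    obtain ⟨j, hj, hs⟩ := jump_sorted y x z h1 h3
    refine ⟨j, ?_, fun H a b c => ?_⟩
    · rw [tri_swap12 x y z]; exact hj
    · rw [hs H b a c, Phi_swap12 x y z]
  · -- y ≤ z ≤ x
    obtain ⟨j, hj, hs⟩ := jump_sorted y z x h2 h3
    refine ⟨j, ?_, fun H a b c => ?_⟩
    · rw [tri_swap12 x y z, tri_swap23 y x z]; exact hj
    · rw [hs H b c a, Phi_swap12 x y z, Phi_swap23 y x z]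
  · -- z ≤ y ≤ x
    obtain ⟨j, hj, hs⟩ := jump_sorted z y x h2 h1
    refine ⟨j, ?_, fun H a b c => ?_⟩
    · rw [tri_swap12 x y z, tri_swap23 y x z, tri_swap12 y z x]; exact hj
    · rw [hs H c b a, Phi_swap12 x y z, Phi_swap23 y x z, Phi_swap12 y z x]
  · -- z ≤ y ≤ x
    obtain ⟨j, hj, hs⟩ := jump_sorted z y x h2 h1
    refine ⟨j, ?_, fun H a b c => ?_⟩
    · rw [tri_swap12 x y z, tri_swap23 y x z, tri_swap12 y z x]; exact hj
    · rw [hs H c b a, Phi_swap12 x y z, Phi_swap23 y x z, Phi_swap12 y z x]

/-- area additivity for a tiling -/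
theorem F_iUnion {ι : Type*} [Fintype ι] (x y z : ι → ℂ) (U : Set ℂ)
    (hU : ⋃ i, tri (x i) (y i) (z i) = U)
    (hd : Pairwise fun i k => Disjoint (interior (tri (x i) (y i) (z i)))
      (interior (tri (x k) (y k) (z k)))) (h : ℝ) :
    F Complex.imLm U h = ∑ i, F Complex.imLm (tri (x i) (y i) (z i)) h := by
  unfold F
  have hmeas : MeasurableSet {w : ℂ | Complex.imLm w ≤ h} :=
    measurableSet_le Complex.measurable_im measurable_const
  rw [← hU, Set.iUnion_inter, measure_iUnion₀]
  · rw [tsum_fintype, ENNReal.toReal_sum]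
    intro i _
    exact ((measure_mono Set.inter_subset_left).trans_lt (vol_tri_lt_top _ _ _)).ne
  · intro i k hik
    have hfi := (convex_tri (x i) (y i) (z i)).addHaar_frontier volume
    have hfk := (convex_tri (x k) (y k) (z k)).addHaar_frontier volume
    refine measure_mono_null ?_ (measure_union_null hfi hfk)
    rintro w ⟨hw1, hw2⟩
    by_contra hcon
    rw [Set.mem_union, not_or] at hcon
    have hi : w ∈ interior (tri (x i) (y i) (z i)) := by
      by_contra hn
      exact hcon.1 ⟨subset_closure hw1.1, hn⟩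
    have hk : w ∈ interior (tri (x k) (y k) (z k)) := by
      by_contra hn
      exact hcon.2 ⟨subset_closure hw2.1, hn⟩
    exact Set.disjoint_left.mp (hd hik) hi hk
  · intro i
    exact ((measurableSet_tri _ _ _).inter hmeas).nullMeasurableSet

/-- additivity of the signed horizontal edge length -/
theorem Phi_additive {ι : Type*} [Fintype ι] (x y z : ι → ℂ) (X Y Z : ℂ)
    (hU : ⋃ i, tri (x i) (y i) (z i) = tri X Y Z)
    (hd : Pairwise fun i k => Disjoint (interior (tri (x i) (y i) (z i)))
      (interior (tri (x k) (y k) (z k)))) :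
    Phi X Y Z = ∑ i, Phi (x i) (y i) (z i) := by
  classical
  obtain ⟨J, hJ, hJs⟩ := jump_tri X Y Z
  choose j hj hjs using fun i => jump_tri (x i) (y i) (z i)
  have hsum : ∀ h0, J h0 = ∑ i, j i h0 := by
    intro h0
    have h1 : Tendsto (fun ε => ∑ i, D (F Complex.imLm (tri (x i) (y i) (z i))) h0 ε)
        (𝓝[>] 0) (𝓝 (∑ i, j i h0)) := tendsto_finsetSum _ fun i _ => hj i h0
    have h2 : (D (F Complex.imLm (tri X Y Z)) h0) =
        (fun ε => ∑ i, D (F Complex.imLm (tri (x i) (y i) (z i))) h0 ε) := by
      funext ε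
      unfold D
      rw [F_iUnion x y z _ hU hd, F_iUnion x y z _ hU hd, F_iUnion x y z _ hU hd,
        ← Finset.sum_add_distrib, Finset.mul_sum, ← Finset.sum_sub_distrib, Finset.sum_div]
    have h3 := hJ h0
    rw [h2] at h3
    exact tendsto_nhds_unique h3 h1
  set H : Finset ℝ := {X.im, Y.im, Z.im} ∪ Finset.univ.image (fun i => (x i).im) ∪
    Finset.univ.image (fun i => (y i).im) ∪ Finset.univ.image (fun i => (z i).im) with hH
  have h1 := hJs H (by simp [hH]) (by simp [hH]) (by simp [hH])
  have h2 : ∀ i, ∑ h ∈ H, j i h = 2 * kap * Phi (x i) (y i) (z i) := by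
    intro i
    apply hjs i H
    · simp [hH]
    · simp [hH]
    · simp [hH]
  have h3 : ∑ h ∈ H, J h = ∑ i, ∑ h ∈ H, j i h := by
    rw [Finset.sum_comm]
    exact Finset.sum_congr rfl fun h _ => hsum h
  rw [h1, Finset.sum_congr rfl fun i _ => h2 i, ← Finset.mul_sum] at h3
  have hk : (2 * kap) ≠ 0 := by have := kap_pos; positivity
  exact mul_left_cancel₀ hk h3

end Pool.Agent.Helper61.TriArea
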